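import Mathlib
import Pool.Agent.Lib.MP_209724_lc.SC.Ed3
import Pool.Agent.Lib.MP_209724_lc.MV.Branch
import Pool.Agent.Lib.MP_209724_lc.MV.Idem

section

namespace Pool.Agent.Lib.MP_209724_lc.OV

open MvPolynomial AlgebraicIndependent

variable {Ω : Type} [Field Ω] [Algebra ℂ Ω] {n : ℕ}

/-- substitution of linear forms and Laurent monomials -/
private lemma subst_poly (C : Matrix (Fin n) (Fin n) ℤ) (D : MvPolynomial (Fin n ⊕ Fin n) ℂ) :
    ∃ (D' : MvPolynomial (Fin n ⊕ Fin n) ℂ) (M : ℕ), ∀ (L : Type) [Field L] [Algebra ℂ L]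
      (x y : Fin n → L), (∀ i, y i ≠ 0) →
      aeval (Sum.elim x y) D' = (∏ i, y i) ^ M *
        aeval (Sum.elim (fun k => lin (C k) x) (fun k => mon (C k) y)) D := by
  induction D using MvPolynomial.induction_on with
  | C a => exact ⟨MvPolynomial.C a, 0, fun L _ _ x y _ => by simp⟩
  | add p q hp hq =>
    obtain ⟨p', M, hp⟩ := hp
    obtain ⟨q', M', hq⟩ := hq
    refine ⟨(∏ i, X (Sum.inr i)) ^ M' * p' + (∏ i, X (Sum.inr i)) ^ M * q', M + M',
      fun L _ _ x y hy => ?_⟩
    rw [map_add, map_add, map_mul, map_mul, map_pow, map_pow, map_prod, hp L x y hy, hq L x y hy]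
    simp only [aeval_X, Sum.elim_inr]
    ring
  | mul_X p i hp =>
    obtain ⟨p', M, hp⟩ := hp
    rcases i with k | k
    · refine ⟨p' * ∑ i, MvPolynomial.C ((C k i : ℤ) : ℂ) * X (Sum.inl i), M,
        fun L _ _ x y hy => ?_⟩
      rw [map_mul, map_mul, hp L x y hy, map_sum]
      simp only [map_mul, aeval_X, Sum.elim_inl, algHom_C, lin]
      ring
    · set b : ℕ := ∑ i, (C k i).natAbs with hb
      refine ⟨p' * ∏ i, X (Sum.inr i) ^ ((b : ℤ) + C k i).toNat, M + b,
        fun L _ _ x y hy => ?_⟩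
      have h1 : ∀ i, y i ^ ((b : ℤ) + C k i).toNat = y i ^ b * y i ^ (C k i) := by
        intro i
        have h2 : (C k i).natAbs ≤ b :=
          Finset.single_le_sum (f := fun i => (C k i).natAbs) (fun _ _ => Nat.zero_le _)
            (Finset.mem_univ i)
        have h3 : 0 ≤ (b : ℤ) + C k i := by omega
        rw [← zpow_natCast, Int.toNat_of_nonneg h3, zpow_add₀ (hy i), zpow_natCast]
      rw [map_mul, map_mul, hp L x y hy, map_prod]
      simp only [map_pow, aeval_X, Sum.elim_inr, mon, h1, Finset.prod_mul_distrib,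
        Finset.prod_pow]
      ring

private lemma lin_comp {L : Type} [Field L] [Algebra ℂ L] (C A : Matrix (Fin n) (Fin n) ℤ)
    (x : Fin n → L) (k : Fin n) : lin (C k) (fun i => lin (A i) x) = lin ((C * A) k) x := by
  simp only [lin, Matrix.mul_apply, Finset.mul_sum]
  rw [Finset.sum_comm]
  refine Finset.sum_congr rfl fun j _ => ?_
  rw [Int.cast_sum, map_sum, Finset.sum_mul]
  refine Finset.sum_congr rfl fun i _ => ?_
  rw [Int.cast_mul, map_mul]
  ring

private lemma mon_comp {L : Type} [Field L] (C A : Matrix (Fin n) (Fin n) ℤ)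
    (y : Fin n → L) (hy : ∀ i, y i ≠ 0) (k : Fin n) :
    mon (C k) (fun i => mon (A i) y) = mon ((C * A) k) y := by
  simp only [mon, Matrix.mul_apply]
  have h1 : ∀ i, (∏ j, y j ^ A i j) ^ C k i = ∏ j, y j ^ (A i j * C k i) := by
    intro i
    rw [← Finset.prod_zpow]
    refine Finset.prod_congr rfl fun j _ => ?_
    rw [zpow_mul]
  simp only [h1]
  rw [Finset.prod_comm]
  refine Finset.prod_congr rfl fun j _ => ?_
  have h2 : ∀ t : Finset (Fin n), y j ^ (∑ i ∈ t, C k i * A i j) =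
      ∏ i ∈ t, y j ^ (A i j * C k i) := by
    intro t
    induction t using Finset.induction_on with
    | empty => simp
    | insert a t ha ih =>
      rw [Finset.sum_insert ha, Finset.prod_insert ha, zpow_add₀ (hy j), ih, mul_comm (C k a)]
  rw [h2]

private lemma lin_diag {L : Type} [Field L] [Algebra ℂ L] (N : ℤ) (x : Fin n → L) (k : Fin n) :
    lin ((N • (1 : Matrix (Fin n) (Fin n) ℤ)) k) x = algebraMap ℂ L N * x k := by
  unfold lin
  rw [Finset.sum_eq_single k]
  · simp
  · intro j _ hj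
    simp [Matrix.one_apply_ne hj.symm]
  · intro h
    exact absurd (Finset.mem_univ k) h

private lemma mon_diag {L : Type} [Field L] (N : ℤ) (y : Fin n → L) (k : Fin n) :
    mon ((N • (1 : Matrix (Fin n) (Fin n) ℤ)) k) y = y k ^ N := by
  unfold mon
  rw [Finset.prod_eq_single k]
  · simp
  · intro j _ hj
    simp [Matrix.one_apply_ne hj.symm]
  · intro h
    exact absurd (Finset.mem_univ k) h

private lemma mon_exp (m : Fin n → ℤ) (x : Fin n → ℂ) :
    mon m (fun i => Complex.exp (x i)) = Complex.exp (lin m x) := by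
  unfold mon lin
  rw [Complex.exp_sum]
  refine Finset.prod_congr rfl fun i _ => ?_
  simp only [Algebra.algebraMap_self, RingHom.id_apply]
  rw [Complex.exp_int_mul]

/-- The matrix part. -/
private lemma exists_inv (A : Matrix (Fin n) (Fin n) ℤ) :
    ∃ C : Matrix (Fin n) (Fin n) ℤ, C * A = (A.det.natAbs : ℤ) • (1 : Matrix (Fin n) (Fin n) ℤ) ∧
      A * C = (A.det.natAbs : ℤ) • (1 : Matrix (Fin n) (Fin n) ℤ) := by
  refine ⟨A.det.sign • A.adjugate, ?_, ?_⟩
  · rw [Matrix.smul_mul, Matrix.adjugate_mul, smul_smul, Int.sign_mul_self_eq_abs,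
      Int.natCast_natAbs]
  · rw [Matrix.mul_smul, Matrix.mul_adjugate, smul_smul, Int.sign_mul_self_eq_abs,
      Int.natCast_natAbs]

/-- norms -/
private lemma norm_bound (A C : Matrix (Fin n) (Fin n) ℤ) {N : ℕ} (hN : 0 < N)
    (hAC : A * C = (N : ℤ) • (1 : Matrix (Fin n) (Fin n) ℤ)) (R : ℝ) :
    ∃ R' : ℝ, ∀ x' : Fin n → ℂ, R' < ‖x'‖ → R < ‖fun k => lin (C k) x'‖ := by
  set B : ℝ := 1 + ∑ i, ∑ j, |(A i j : ℝ)| with hB
  have hB1 : 1 ≤ B := by
    have : 0 ≤ ∑ i, ∑ j, |(A i j : ℝ)| :=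
      Finset.sum_nonneg fun i _ => Finset.sum_nonneg fun j _ => abs_nonneg _
    linarith
  refine ⟨B * |R|, fun x' hx' => ?_⟩
  set x : Fin n → ℂ := fun k => lin (C k) x' with hx
  have h1 : ∀ i, lin (A i) x = (N : ℂ) * x' i := by
    intro i
    rw [hx, lin_comp, hAC, lin_diag]
    simp
  have h2 : ‖x'‖ ≤ B * ‖x‖ := by
    rw [pi_norm_le_iff_of_nonneg (by positivity)]
    intro i
    have h3 : ‖(N : ℂ) * x' i‖ ≤ B * ‖x‖ := by
      rw [← h1 i]
      unfold lin
      refine (norm_sum_le _ _).trans ?_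
      have h4 : ∀ j, ‖algebraMap ℂ ℂ (A i j : ℂ) * x j‖ ≤ |(A i j : ℝ)| * ‖x‖ := by
        intro j
        rw [norm_mul]
        refine mul_le_mul ?_ (norm_le_pi_norm x j) (norm_nonneg _) (abs_nonneg _)
        simp
      refine (Finset.sum_le_sum fun j _ => h4 j).trans ?_
      rw [← Finset.sum_mul]
      refine mul_le_mul_of_nonneg_right ?_ (norm_nonneg _)
      have h5 : ∑ j, |(A i j : ℝ)| ≤ ∑ i, ∑ j, |(A i j : ℝ)| :=
        Finset.single_le_sum (f := fun i => ∑ j, |(A i j : ℝ)|)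
          (fun i _ => Finset.sum_nonneg fun j _ => abs_nonneg _) (Finset.mem_univ i)
      linarith
    refine le_trans ?_ h3
    rw [norm_mul, Complex.norm_natCast]
    have hN1 : (1 : ℝ) ≤ N := by exact_mod_cast hN
    nlinarith [norm_nonneg (x' i)]
  have h6 : B * |R| < B * ‖x‖ := hx'.trans_le h2
  exact (le_abs_self R).trans_lt (lt_of_mul_lt_mul_left h6 (by linarith))

/-- OV-27: linear changes of coordinates.

Proof. Let `N = |det A| > 0`, `θ_j ∈ Ω` with `θ_j ^ N = η_j` (`Ω` is algebraically closed;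
`IsAlgClosed.exists_pow_nat_eq`), `ξ'_i = N⁻¹ lin (A i) ξ`, `η'_i = mon (A i) θ`. Let `C = ± adj A`, an
integer matrix with `C A = N`. Then `lin (C k) ξ' = ξ_k` and `mon (C k) η' = ∏_j θ_j ^ (C A)_{kj} = η_k`.
Now suppose `HasExp ξ' η'`, let `c`, `R` be given. Put `c' = c` with `X_k` replaced by
`∑ i, C_{k i} X_i`; then `aeval ξ' c' = aeval ξ c ≠ 0`. Let `B = ∑ |A_ij|`. Take `x'` with
`B |R| < ‖x'‖`, `eval x' c' ≠ 0`, and put `x_k = ∑ i, C_{ki} x'_i`, so `eval x c = eval x' c' ≠ 0` and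
`N x' = A x` (also `A C = N`), hence `N ‖x'‖ ≤ B ‖x‖` and `|R| < ‖x‖` (`B > 0` since otherwise `x' = 0`).
Finally let `f` be a relation of `(ξ, η)`. We have `exp (x_k) = ∏ i, exp (x'_i) ^ C_{ki}`. Let `M` be so
large that `f' = (∏ Y_i) ^ M * f(C X, Y ^ C)` is a polynomial: for example, use that
every relation of `(ξ', η')` holds at `(x', exp x')`, so there is an algebra homomorphism
`ℂ[ξ', η'] → ℂ`, `ξ'_i ↦ x'_i`, `η'_i ↦ exp (x'_i) ≠ 0`; it extends to `ℂ[ξ', η', η'⁻¹]`, and the
restriction of the extension to `ℂ[ξ, η]` maps `ξ_k ↦ x_k`, `η_k ↦ exp (x_k)`. So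
`eval (x, exp x) f = 0`. In the same way for `HasExpD` (here `D' = (∏ Y_i) ^ M * D(C X, Y ^ C)`, a
polynomial with `aeval (ξ', η') D' ≠ 0`; one may first prove: for every polynomial `D` in `2n` variables
there are a polynomial `D'` and `M` with
`aeval (Sum.elim x y) D' = (∏ y_i) ^ M * aeval (Sum.elim (C x) (y ^ C)) D` for all `x, y` in a field
extension of `ℂ` with all `y_i ≠ 0`; by induction on `D`. This also covers `f` and `c`.) -/
theorem bc_hasExp [IsAlgClosed Ω] (A : Matrix (Fin n) (Fin n) ℤ) (hA : A.det ≠ 0)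
    (ξ η : Fin n → Ω) (hη : ∀ i, η i ≠ 0) :
    ∃ (N : ℕ) (ξ' η' : Fin n → Ω), 0 < N ∧ (∀ i, algebraMap ℂ Ω N * ξ' i = lin (A i) ξ) ∧
      (∀ i, η' i ^ N = mon (A i) η) ∧ (HasExp ξ' η' → HasExp ξ η) ∧
      (HasExpD ξ' η' → HasExpD ξ η) := by
  obtain ⟨C, hCA, hAC⟩ := exists_inv A
  have hN : 0 < A.det.natAbs := Int.natAbs_pos.2 hA
  set N := A.det.natAbs with hNdef
  choose θ hθ using fun j => IsAlgClosed.exists_pow_nat_eq (η j) hN
  have hθ0 : ∀ j, θ j ≠ 0 := by
    intro j h0
    apply hη j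
    rw [← hθ j, h0, zero_pow hN.ne']
  have hNc : algebraMap ℂ Ω (N : ℂ) ≠ 0 := by
    rw [Ne, map_eq_zero]
    exact_mod_cast hN.ne'
  set ξ' : Fin n → Ω := fun i => (algebraMap ℂ Ω (N : ℂ))⁻¹ * lin (A i) ξ with hξ'
  set η' : Fin n → Ω := fun i => mon (A i) θ with hη'
  have h1 : ∀ k, lin (C k) ξ' = ξ k := by
    intro k
    have h2 : lin (C k) ξ' = (algebraMap ℂ Ω (N : ℂ))⁻¹ * lin (C k) (fun i => lin (A i) ξ) := by
      simp only [lin, hξ', Finset.mul_sum]
      refine Finset.sum_congr rfl fun i _ => Finset.sum_congr rfl fun j _ => ?_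
      ring
    rw [h2, lin_comp, hCA, lin_diag]
    simp only [Int.cast_natCast]
    rw [← mul_assoc, inv_mul_cancel₀ hNc, one_mul]
  have h2 : ∀ k, mon (C k) η' = η k := by
    intro k
    rw [hη', mon_comp C A θ hθ0, hCA, mon_diag, zpow_natCast, hθ]
  have hη'0 : ∀ i, η' i ≠ 0 := fun i => Finset.prod_ne_zero_iff.2 fun j _ => zpow_ne_zero _ (hθ0 j)
  have h1' : (fun k => lin (C k) ξ') = ξ := funext h1
  have h2' : (fun k => mon (C k) η') = η := funext h2
  have hexp0 : ∀ (x' : Fin n → ℂ) (i : Fin n), Complex.exp (x' i) ≠ 0 := fun x' i =>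
    Complex.exp_ne_zero _
  -- transfer of polynomials
  have key : ∀ D : MvPolynomial (Fin n ⊕ Fin n) ℂ, ∃ D' : MvPolynomial (Fin n ⊕ Fin n) ℂ,
      (aeval (Sum.elim ξ' η') D' = 0 ↔ aeval (Sum.elim ξ η) D = 0) ∧ ∀ x' : Fin n → ℂ,
        (eval (Sum.elim x' fun i => Complex.exp (x' i)) D' = 0 ↔
          eval (Sum.elim (fun k => lin (C k) x') fun k => Complex.exp (lin (C k) x')) D = 0) := by
    intro D
    obtain ⟨D', M, hD⟩ := subst_poly C D
    refine ⟨D', ?_, fun x' => ?_⟩
    · rw [hD Ω ξ' η' hη'0, h1', h2']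
      have h3 : (∏ i, η' i) ^ M ≠ 0 := pow_ne_zero _ (Finset.prod_ne_zero_iff.2 fun i _ => hη'0 i)
      exact mul_eq_zero.trans (or_iff_right h3)
    · have h4 := hD ℂ x' (fun i => Complex.exp (x' i)) (hexp0 x')
      rw [aeval_eq_eval, aeval_eq_eval] at h4
      have h5 : (fun k => mon (C k) fun i => Complex.exp (x' i)) =
          fun k => Complex.exp (lin (C k) x') := funext fun k => mon_exp _ _
      rw [h5] at h4
      rw [h4]
      have h3 : (∏ i, Complex.exp (x' i)) ^ M ≠ 0 :=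
        pow_ne_zero _ (Finset.prod_ne_zero_iff.2 fun i _ => hexp0 x' i)
      exact mul_eq_zero.trans (or_iff_right h3)
  refine ⟨N, ξ', η', hN, fun i => ?_, fun i => ?_, ?_, ?_⟩
  · simp only [hξ']
    rw [← mul_assoc, mul_inv_cancel₀ hNc, one_mul]
  · simp only [hη', mon]
    rw [← Finset.prod_pow]
    refine Finset.prod_congr rfl fun j _ => ?_
    rw [← hθ j, ← zpow_natCast, ← zpow_natCast, ← zpow_mul, ← zpow_mul, mul_comm]
  · intro h c hc R
    obtain ⟨R', hR'⟩ := norm_bound A C hN hAC R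
    obtain ⟨c', hc'⟩ : ∃ c' : MvPolynomial (Fin n) ℂ, (∀ (L : Type) [Field L] [Algebra ℂ L]
        (x : Fin n → L), aeval x c' = aeval (fun k => lin (C k) x) c) := by
      refine ⟨bind₁ (fun k => ∑ i, MvPolynomial.C ((C k i : ℤ) : ℂ) * X i) c,
        fun L _ _ x => ?_⟩
      rw [aeval_bind₁]
      congr 1
      ext k
      simp [lin]
    obtain ⟨x', hx1, hx2, hx3⟩ := h c' (by rw [hc' Ω ξ', h1']; exact hc) R'
    refine ⟨fun k => lin (C k) x', hR' x' hx1, ?_, fun f hf => ?_⟩
    · have h3 := hc' ℂ x'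
      rw [aeval_eq_eval, aeval_eq_eval] at h3
      rwa [← h3]
    · obtain ⟨f', hf1, hf2⟩ := key f
      exact (hf2 x').1 (hx3 f' (hf1.2 hf))
  · intro h D hD R
    obtain ⟨R', hR'⟩ := norm_bound A C hN hAC R
    obtain ⟨D', hD1, hD2⟩ := key D
    obtain ⟨x', hx1, hx2, hx3⟩ := h D' (fun h0 => hD (hD1.1 h0)) R'
    refine ⟨fun k => lin (C k) x', hR' x' hx1, fun h0 => hx2 ((hD2 x').2 h0), fun f hf => ?_⟩
    obtain ⟨f', hf1, hf2⟩ := key f
    exact (hf2 x').1 (hx3 f' (hf1.2 hf))

end Pool.Agent.Lib.MP_209724_lc.OV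
end

section

/-!
Linear changes of coordinates for free and rotund tuples.
-/

namespace Pool.Agent.Lib.MP_209724_lc.OV

open MvPolynomial AlgebraicIndependent

variable {Ω : Type} [Field Ω] [Algebra ℂ Ω] {n : ℕ}

theorem lin_vecMul (m : Fin n → ℤ) (A : Fin n → Fin n → ℤ) (ξ : Fin n → Ω) :
    lin (fun j => ∑ i, m i * A i j) ξ = ∑ i, algebraMap ℂ Ω (m i : ℂ) * lin (A i) ξ := by
  simp only [lin, Finset.mul_sum]
  rw [Finset.sum_comm]
  refine Finset.sum_congr rfl fun j _ => ?_
  rw [Int.cast_sum, map_sum, Finset.sum_mul]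
  refine Finset.sum_congr rfl fun i _ => ?_
  rw [Int.cast_mul, map_mul, mul_assoc]

omit [Algebra ℂ Ω] in
theorem zpow_sum₀ {a : Ω} (ha : a ≠ 0) {ι : Type*} (s : Finset ι) (f : ι → ℤ) :
    a ^ (∑ i ∈ s, f i) = ∏ i ∈ s, a ^ f i := by
  classical
  induction s using Finset.induction_on with
  | empty => simp
  | insert i s hi ih => rw [Finset.sum_insert hi, Finset.prod_insert hi, zpow_add₀ ha, ih]

omit [Algebra ℂ Ω] in
theorem mon_vecMul (m : Fin n → ℤ) (A : Fin n → Fin n → ℤ) {η : Fin n → Ω}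
    (hη : ∀ i, η i ≠ 0) :
    mon (fun j => ∑ i, m i * A i j) η = ∏ i, mon (A i) η ^ m i := by
  simp only [mon]
  have h1 : ∀ i, (∏ j, η j ^ A i j) ^ m i = ∏ j, η j ^ (m i * A i j) := by
    intro i
    rw [← Finset.prod_zpow]
    refine Finset.prod_congr rfl fun j _ => ?_
    rw [← _root_.zpow_mul, mul_comm]
  simp only [h1]
  rw [Finset.prod_comm]
  refine Finset.prod_congr rfl fun j _ => ?_
  exact zpow_sum₀ (hη j) _ _

omit [Algebra ℂ Ω] in
theorem mon_ne_zero {η : Fin n → Ω} (hη : ∀ i, η i ≠ 0) (m : Fin n → ℤ) : mon m η ≠ 0 :=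
  Finset.prod_ne_zero_iff.2 fun i _ => zpow_ne_zero _ (hη i)

theorem mem_cl_of_zpow {s : Set Ω} {a : Ω} {k : ℤ} (hk : k ≠ 0) (h : a ^ k ∈ cl s) :
    a ∈ cl s := by
  obtain ⟨N, rfl | rfl⟩ := k.eq_nat_or_neg
  · rw [zpow_natCast] at h
    exact mem_cl_of_pow (by
      rcases Nat.eq_zero_or_pos N with h0 | h0
      · simp [h0] at hk
      · exact h0) h
  · rw [zpow_neg, zpow_natCast] at h
    have h1 := inv_mem_cl h
    rw [inv_inv] at h1
    exact mem_cl_of_pow (by
      rcases Nat.eq_zero_or_pos N with h0 | h0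
      · simp [h0] at hk
      · exact h0) h1

theorem mul_mem_cl_iff {s : Set Ω} {c : ℂ} (hc : c ≠ 0) {a : Ω} :
    algebraMap ℂ Ω c * a ∈ cl s ↔ a ∈ cl s := by
  constructor
  · intro h
    have h1 := mul_mem_cl (const_mem_cl s c⁻¹) h
    rw [← mul_assoc, ← map_mul, inv_mul_cancel₀ hc, map_one, one_mul] at h1
    exact h1
  · exact mul_mem_cl (const_mem_cl s c)

theorem isConst_of_mul {c : ℂ} (hc : c ≠ 0) {a : Ω} (h : IsConst (algebraMap ℂ Ω c * a)) :
    IsConst a :=
  isConst_iff.2 ((mul_mem_cl_iff hc).1 (isConst_iff.1 h))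

/-- linear changes of coordinates -/
theorem bc [IsAlgClosed Ω] (A : Matrix (Fin n) (Fin n) ℤ) (hA : A.det ≠ 0)
    {ξ η : Fin n → Ω} (h : FR ξ η) :
    ∃ (N : ℕ) (ξ' η' : Fin n → Ω), 0 < N ∧ (∀ i, algebraMap ℂ Ω N * ξ' i = lin (A i) ξ) ∧
      (∀ i, η' i ^ N = mon (A i) η) ∧ FR ξ' η' ∧ cl (Set.range ξ') = cl (Set.range ξ) ∧
      (∀ m, algebraMap ℂ Ω N * lin m ξ' = lin (fun j => ∑ i, m i * A i j) ξ) ∧
      (∀ m, mon m η' ^ N = mon (fun j => ∑ i, m i * A i j) η) ∧
      (HasExp ξ' η' → HasExp ξ η) ∧ (HasExpD ξ' η' → HasExpD ξ η) := by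
  obtain ⟨N, ξ', η', hN, h1, h2, h3, h4⟩ := bc_hasExp A hA ξ η h.ne
  have hNc : (N : ℂ) ≠ 0 := by exact_mod_cast hN.ne'
  have hne : ∀ i, η' i ≠ 0 := by
    intro i h0
    have := h2 i
    rw [h0, zero_pow hN.ne'] at this
    exact mon_ne_zero h.ne (A i) this.symm
  have hlin : ∀ m : Fin n → ℤ,
      algebraMap ℂ Ω N * lin m ξ' = lin (fun j => ∑ i, m i * A i j) ξ := by
    intro m
    rw [lin_vecMul, lin, Finset.mul_sum]
    refine Finset.sum_congr rfl fun i _ => ?_
    rw [← h1]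
    ring
  have hmon : ∀ m : Fin n → ℤ, mon m η' ^ N = mon (fun j => ∑ i, m i * A i j) η := by
    intro m
    rw [mon_vecMul m A h.ne, mon, ← Finset.prod_pow]
    refine Finset.prod_congr rfl fun i _ => ?_
    rw [← h2, ← zpow_natCast, ← zpow_natCast, ← _root_.zpow_mul, ← _root_.zpow_mul, mul_comm]
  have hvm : ∀ m : Fin n → ℤ, (fun j => ∑ i, m i * A i j) = 0 → m = 0 := by
    intro m hm
    refine Matrix.eq_zero_of_vecMul_eq_zero hA ?_
    funext j
    exact congrFun hm j
  have hadj : ∀ k, (fun j => ∑ i, A.adjugate k i * A i j) = fun j => A.det * if k = j then 1 else 0 := by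
    intro k
    funext j
    have h5 := congrFun (congrFun (Matrix.adjugate_mul A) k) j
    rw [Matrix.mul_apply] at h5
    rw [h5, Matrix.smul_apply, Matrix.one_apply]
    rfl
  have hξ : ∀ k, ξ k ∈ cl (Set.range ξ') := by
    intro k
    have h5 := hlin (A.adjugate k)
    rw [hadj k] at h5
    have h6 : lin (fun j => A.det * if k = j then 1 else 0) ξ =
        algebraMap ℂ Ω (A.det : ℂ) * ξ k := by
      rw [lin, Finset.sum_eq_single k]
      · simp
      · intro j _ hj
        simp [Ne.symm hj]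
      · intro h7
        exact absurd (Finset.mem_univ k) h7
    rw [h6] at h5
    rw [← mul_mem_cl_iff (c := (A.det : ℂ)) (by exact_mod_cast hA), ← h5]
    exact mul_mem_cl (const_mem_cl _ _)
      (lin_mem_cl _ fun i => subset_cl _ (Set.mem_range_self i))
  have hη : ∀ k, η k ∈ cl (Set.range η') := by
    intro k
    have h5 := hmon (A.adjugate k)
    rw [hadj k] at h5
    have h6 : mon (fun j => A.det * if k = j then 1 else 0) η = η k ^ A.det := by
      rw [mon, Finset.prod_eq_single k]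
      · simp
      · intro j _ hj
        simp [Ne.symm hj]
      · intro h7
        exact absurd (Finset.mem_univ k) h7
    rw [h6] at h5
    refine mem_cl_of_zpow hA ?_
    rw [← h5]
    exact pow_mem_cl (mon_mem_cl _ fun i => subset_cl _ (Set.mem_range_self i)) N
  have hξ' : ∀ k, ξ' k ∈ cl (Set.range ξ) := by
    intro k
    rw [← mul_mem_cl_iff hNc, h1]
    exact lin_mem_cl _ fun i => subset_cl _ (Set.mem_range_self i)
  have hη' : ∀ k, η' k ∈ cl (Set.range η) := by
    intro k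
    refine mem_cl_of_pow hN ?_
    rw [h2]
    exact mon_mem_cl _ fun i => subset_cl _ (Set.mem_range_self i)
  have hclξ : cl (Set.range ξ') = cl (Set.range ξ) := by
    refine cl_eq_of ?_ ?_
    · rintro _ ⟨i, rfl⟩
      exact hξ' i
    · rintro _ ⟨i, rfl⟩
      exact hξ i
  have hclall : cl (Set.range ξ' ∪ Set.range η') = cl (Set.range ξ ∪ Set.range η) := by
    refine cl_eq_of ?_ ?_
    · rintro _ (⟨i, rfl⟩ | ⟨i, rfl⟩)
      · exact cl_mono Set.subset_union_left (hξ' i)
      · exact cl_mono Set.subset_union_right (hη' i)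
    · rintro _ (⟨i, rfl⟩ | ⟨i, rfl⟩)
      · exact cl_mono Set.subset_union_left (hξ i)
      · exact cl_mono Set.subset_union_right (hη i)
  refine ⟨N, ξ', η', hN, h1, h2, ⟨hne, ?_, ?_, ?_, ?_⟩, hclξ, hlin, hmon, h3, h4⟩
  · intro m hm hc
    refine h.add _ (fun h0 => hm (hvm m h0)) ?_
    rw [← hlin m]
    obtain ⟨c, hc⟩ := hc
    exact ⟨N * c, by rw [hc, map_mul]⟩
  · intro m hm hc
    refine h.mul _ (fun h0 => hm (hvm m h0)) ?_
    rw [← hmon m]
    obtain ⟨c, hc⟩ := hc
    exact ⟨c ^ N, by rw [hc, map_pow]⟩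
  · intro a b hab
    have hind : LinearIndependent ℤ
        ![(fun j => ∑ i, a i * A i j), (fun j => ∑ i, b i * A i j)] := by
      rw [LinearIndependent.pair_iff] at hab ⊢
      intro s t hst
      have h5 : (fun j => ∑ i, (s • a + t • b) i * A i j) = 0 := by
        rw [← hst]
        funext j
        simp only [Pi.add_apply, Pi.smul_apply, smul_eq_mul, Finset.mul_sum, add_mul,
          Finset.sum_add_distrib, mul_assoc]
      exact hab s t (hvm _ h5)
    refine (h.rot _ _ hind).trans (td_le_of_subset_cl ?_)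
    have hl : ∀ m, lin m ξ' ∈ ({lin a ξ', lin b ξ', mon a η', mon b η'} : Set Ω) →
        lin (fun j => ∑ i, m i * A i j) ξ ∈
          cl ({lin a ξ', lin b ξ', mon a η', mon b η'} : Set Ω) := by
      intro m hm
      rw [← hlin m]
      exact mul_mem_cl (const_mem_cl _ _) (subset_cl _ hm)
    have hm : ∀ m, mon m η' ∈ ({lin a ξ', lin b ξ', mon a η', mon b η'} : Set Ω) →
        mon (fun j => ∑ i, m i * A i j) η ∈
          cl ({lin a ξ', lin b ξ', mon a η', mon b η'} : Set Ω) := by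
      intro m hm
      rw [← hmon m]
      exact pow_mem_cl (subset_cl _ hm) _
    rintro x (rfl | rfl | rfl | rfl)
    · exact hl a (by simp)
    · exact hl b (by simp)
    · exact hm a (by simp)
    · exact hm b (by simp)
  · rw [td_eq_of_cl hclall]
    exact h.dim

end Pool.Agent.Lib.MP_209724_lc.OV
end

section

namespace Pool.Agent.Lib.MP_209724_lc.HS

open MvPolynomial Filter Topology Metric
open MV (lead evT glue)
open GC (evM)

private theorem bu_quot {n : ℕ} (P : MvPolynomial (Fin n) ℂ) (l : Fin n) :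
    ∃ H : ({j : Fin n // j ≠ l} → ℂ) × ℂ × ℂ → ℂ, Continuous H ∧
      (∀ x z z', eval (glue l x z) P - eval (glue l x z') P = (z - z') * H (x, z, z')) ∧
      ∀ x z, H (x, z, z) = eval (glue l x z) (pderiv l P) := by
  have hev : ∀ p : MvPolynomial (Fin n) ℂ, Continuous
      (fun q : ({j : Fin n // j ≠ l} → ℂ) × ℂ × ℂ => eval (glue l q.1 q.2.1) p) := by
    intro p
    have h1 : Continuous (fun q : ({j : Fin n // j ≠ l} → ℂ) × ℂ × ℂ => glue l q.1 q.2.1) := by
      have h2 : (fun q : ({j : Fin n // j ≠ l} → ℂ) × ℂ × ℂ => glue l q.1 q.2.1) =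
          fun q => MV.glueL l (q.1, q.2.1) := by
        funext q; rw [MV.glueL_apply]
      rw [h2]
      exact (MV.glueL l).continuous.comp (by fun_prop)
    exact (MvPolynomial.continuous_eval p).comp h1
  induction P using MvPolynomial.induction_on with
  | C a =>
    refine ⟨fun _ => 0, continuous_const, fun x z z' => by simp, fun x z => by simp⟩
  | add p q hp hq =>
    obtain ⟨Hp, c1, e1, d1⟩ := hp
    obtain ⟨Hq, c2, e2, d2⟩ := hq
    refine ⟨fun r => Hp r + Hq r, c1.add c2, fun x z z' => ?_, fun x z => ?_⟩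
    · rw [map_add, map_add]
      linear_combination e1 x z z' + e2 x z z'
    · simp only [map_add, d1, d2]
  | mul_X p i hp =>
    obtain ⟨Hp, c1, e1, d1⟩ := hp
    by_cases hi : i = l
    · subst hi
      refine ⟨fun r => eval (glue i r.1 r.2.1) p + Hp r * r.2.2, ?_, fun x z z' => ?_,
        fun x z => ?_⟩
      · exact (hev p).add (c1.mul (by fun_prop))
      · simp only [map_mul, eval_X, MV.glue_self]
        linear_combination z' * e1 x z z'
      · simp only [Derivation.leibniz, pderiv_X_self, map_add, smul_eq_mul, map_mul, eval_X,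
          MV.glue_self, d1, map_one, mul_one]
        ring
    · refine ⟨fun r => Hp r * r.1 ⟨i, hi⟩, ?_, fun x z z' => ?_, fun x z => ?_⟩
      · exact c1.mul (by fun_prop)
      · have h1 := MV.glue_of_ne l x z ⟨i, hi⟩
        have h2 := MV.glue_of_ne l x z' ⟨i, hi⟩
        simp only at h1 h2
        simp only [map_mul, eval_X, h1, h2]
        linear_combination x ⟨i, hi⟩ * e1 x z z'
      · have h1 := MV.glue_of_ne l x z ⟨i, hi⟩
        simp only at h1
        have h2 : pderiv l (X i : MvPolynomial (Fin n) ℂ) = 0 := by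
          rw [pderiv_X, Pi.single_apply, if_neg (by exact fun h => hi h)]
        simp only [Derivation.leibniz, h2, map_add, smul_eq_mul, map_mul, eval_X, h1, d1,
          map_zero, mul_zero, zero_add]
        ring

/-- HS-14: uniqueness of branches. -/
theorem branch_unique {n : ℕ} (P : MvPolynomial (Fin n) ℂ) (l : Fin n) {E : Type}
    [TopologicalSpace E] {D : Set E} (hD : IsPreconnected D)
    (X : E → {j : Fin n // j ≠ l} → ℂ) (hX : ContinuousOn X D) (f g : E → ℂ)
    (hf : ContinuousOn f D) (hg : ContinuousOn g D)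
    (hPf : ∀ p ∈ D, eval (glue l (X p) (f p)) P = 0)
    (hPg : ∀ p ∈ D, eval (glue l (X p) (g p)) P = 0)
    (hder : ∀ p ∈ D, eval (glue l (X p) (f p)) (pderiv l P) ≠ 0) {p₀ : E} (hp₀ : p₀ ∈ D)
    (h0 : f p₀ = g p₀) : ∀ p ∈ D, f p = g p := by
  obtain ⟨H, hHc, hH1, hH2⟩ := bu_quot P l
  have : PreconnectedSpace D := isPreconnected_iff_preconnectedSpace.1 hD
  have hfc : Continuous (fun p : D => f p) := continuousOn_iff_continuous_domRestrict.1 hf
  have hgc : Continuous (fun p : D => g p) := continuousOn_iff_continuous_domRestrict.1 hg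
  have hXc : Continuous (fun p : D => X p) := continuousOn_iff_continuous_domRestrict.1 hX
  have hclosed : IsClosed {p : D | f p = g p} := isClosed_eq hfc hgc
  have hopen : IsOpen {p : D | f p = g p} := by
    rw [isOpen_iff_mem_nhds]
    intro p hp
    have hp' : f p = g p := hp
    have hKc : Continuous (fun p : D => H (X p, f p, g p)) :=
      hHc.comp (hXc.prodMk (hfc.prodMk hgc))
    have hK : H (X p, f p, g p) ≠ 0 := by
      rw [← hp', hH2]
      exact hder p p.2
    have h1 : ∀ᶠ q : D in 𝓝 p, H (X q, f q, g q) ≠ 0 := hKc.continuousAt.eventually_ne hK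
    filter_upwards [h1] with q hq
    have h2 := hH1 (X q) (f q) (g q)
    rw [hPf q q.2, hPg q q.2, sub_self] at h2
    rcases mul_eq_zero.1 h2.symm with h3 | h3
    · exact sub_eq_zero.1 h3
    · exact absurd h3 hq
  have huniv := IsClopen.eq_univ ⟨hclosed, hopen⟩ ⟨⟨p₀, hp₀⟩, h0⟩
  intro p hp
  have : (⟨p, hp⟩ : D) ∈ {p : D | f p = g p} := by rw [huniv]; trivial
  exact this

end Pool.Agent.Lib.MP_209724_lc.HS
end

section

namespace Pool.Agent.Lib.MP_209724_lc.HS

open MvPolynomial Filter Topology Metric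
open MV (lead evT glue)
open GC (evM)

private theorem dv_not_mem_vars {σ : Type} (i : σ) (H : MvPolynomial σ ℂ) (h : pderiv i H = 0) :
    i ∉ H.vars := by
  classical
  intro hi
  obtain ⟨d, hd, hid⟩ := (MvPolynomial.mem_vars_iff_mem_support i).1 hi
  have h1 := coeff_pderiv (i := i) H (d - Finsupp.single i 1)
  rw [h, coeff_zero] at h1
  have hdi : d i ≠ 0 := Finsupp.mem_support_iff.1 hid
  have h2 : d - Finsupp.single i 1 + Finsupp.single i 1 = d := by
    apply tsub_add_cancel_of_le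
    rw [Finsupp.single_le_iff]
    omega
  rw [h2] at h1
  rcases mul_eq_zero.1 h1.symm with h3 | h3
  · exact (MvPolynomial.mem_support_iff.1 hd) h3
  · exact Nat.cast_add_one_ne_zero _ h3

private theorem dv_degree_lt {σ : Type} (i : σ) (H : MvPolynomial σ ℂ) (h : pderiv i H ≠ 0) :
    (pderiv i H).totalDegree < H.totalDegree := by
  classical
  have key : ∀ m ∈ (pderiv i H).support, (m.sum fun _ e => e) + 1 ≤ H.totalDegree := by
    intro m hm
    have h1 : coeff m (pderiv i H) ≠ 0 := MvPolynomial.mem_support_iff.1 hm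
    rw [coeff_pderiv] at h1
    have h2 : m + Finsupp.single i 1 ∈ H.support :=
      MvPolynomial.mem_support_iff.2 (left_ne_zero_of_mul h1)
    have h3 := MvPolynomial.le_totalDegree h2
    rw [Finsupp.sum_add_index' (fun _ => rfl) (fun _ _ _ => rfl), Finsupp.sum_single_index rfl]
      at h3
    exact h3
  obtain ⟨m, hm⟩ := MvPolynomial.ne_zero_iff.1 h
  have hm' := MvPolynomial.mem_support_iff.2 hm
  have h0 := key m hm'
  rw [MvPolynomial.totalDegree, Finset.sup_lt_iff (by rw [bot_eq_zero]; omega)]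
  intro m hm
  have := key m hm
  omega

/-- HS-31: derivatives of algebraic functions. -/
theorem exists_deriv {ι M : Type} [Fintype ι] [DecidableEq ι] [Field M] [Algebra ℂ M] (z : ι → M)
    (hz : AlgebraicIndependent ℂ z) (f : M)
    (hf : IsAlgebraic (Algebra.adjoin ℂ (Set.range z)) f) :
    ∃ (g : ι → M) (u : M), u ≠ 0 ∧ IsAlgebraic (Algebra.adjoin ℂ (Set.range z)) u ∧
      (∀ i, IsAlgebraic (Algebra.adjoin ℂ (Set.range z)) (g i)) ∧
      ∀ (A : Subalgebra ℂ M) (hzA : ∀ i, z i ∈ A) (hfA : f ∈ A) (hgA : ∀ i, g i ∈ A),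
        u⁻¹ ∈ A → ∀ (D : Set (ι → ℂ)), IsOpen D → ∀ Φ : (ι → ℂ) → (A →ₐ[ℂ] ℂ),
        (∀ x ∈ D, ∀ i, Φ x ⟨z i, hzA i⟩ = x i) →
        (∀ y : A, DifferentiableOn ℂ (fun x => Φ x y) D) → ∀ x ∈ D, ∀ i,
        fderiv ℂ (fun x => Φ x ⟨f, hfA⟩) x (Pi.single i 1) = Φ x ⟨g i, hgA i⟩ := by
  classical
  obtain ⟨w, hw⟩ : ∃ w : Option ι → M, w = fun o => o.elim f z := ⟨_, rfl⟩
  -- the relation of minimal degree
  have hex : ∃ H : MvPolynomial (Option ι) ℂ, H ≠ 0 ∧ aeval w H = 0 := by
    by_contra hcon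
    push Not at hcon
    have hind : AlgebraicIndependent ℂ w := by
      rw [algebraicIndependent_iff]
      intro p hp
      by_contra h0
      exact hcon p h0 hp
    rw [hw, hz.option_iff_transcendental] at hind
    exact hind hf
  obtain ⟨H, ⟨hH0, hH⟩, hmin⟩ : ∃ H : MvPolynomial (Option ι) ℂ, (H ≠ 0 ∧ aeval w H = 0) ∧
      ∀ G : MvPolynomial (Option ι) ℂ, (G ≠ 0 ∧ aeval w G = 0) → H.totalDegree ≤ G.totalDegree := by
    obtain ⟨H, hH, hHm⟩ := (measure (fun H : MvPolynomial (Option ι) ℂ => H.totalDegree)).wf.has_min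
      {H | H ≠ 0 ∧ aeval w H = 0} hex
    exact ⟨H, hH, fun G hG => not_lt.1 (hHm G hG)⟩
  have hp0 : pderiv none H ≠ 0 := by
    intro h0
    have h1 := dv_not_mem_vars none H h0
    obtain ⟨q, hq⟩ := exists_rename_eq_of_vars_subset_range H (some : ι → Option ι)
      (Option.some_injective ι) (by
        intro o ho
        cases o with
        | none => exact absurd ho h1
        | some j => exact ⟨j, rfl⟩)
    have h2 : aeval z q = 0 := by
      rw [← hH, ← hq, aeval_rename, hw]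
      rfl
    have h3 := (algebraicIndependent_iff.1 hz) q h2
    rw [h3, map_zero] at hq
    exact hH0 hq.symm
  have hu0 : aeval w (pderiv none H) ≠ 0 := by
    intro h0
    have h1 := hmin _ ⟨hp0, h0⟩
    have h2 := dv_degree_lt none H hp0
    omega
  -- everything is algebraic
  have halg : ∀ G : MvPolynomial (Option ι) ℂ,
      IsAlgebraic (Algebra.adjoin ℂ (Set.range z)) (aeval w G) := by
    intro G
    induction G using MvPolynomial.induction_on with
    | C a =>
      rw [aeval_C]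
      exact isAlgebraic_algebraMap (algebraMap ℂ (Algebra.adjoin ℂ (Set.range z)) a)
    | add p q hp hq => rw [map_add]; exact hp.add hq
    | mul_X p o hp =>
      rw [map_mul, aeval_X]
      refine hp.mul ?_
      rw [hw]
      cases o with
      | none => exact hf
      | some j =>
        exact isAlgebraic_algebraMap (⟨z j, Algebra.subset_adjoin ⟨j, rfl⟩⟩ :
          Algebra.adjoin ℂ (Set.range z))
  refine ⟨fun i => -(aeval w (pderiv (some i) H)) * (aeval w (pderiv none H))⁻¹,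
    aeval w (pderiv none H), hu0, halg _, fun i => ((halg _).neg).mul (halg _).inv, ?_⟩
  intro A hzA hfA hgA huA D hD Φ hΦ hΦd x hx i
  obtain ⟨w', hw'⟩ : ∃ w' : Option ι → A, w' = fun o => o.elim ⟨f, hfA⟩ (fun i => ⟨z i, hzA i⟩) :=
    ⟨_, rfl⟩
  have hval : ∀ G : MvPolynomial (Option ι) ℂ, ((aeval w' G : A) : M) = aeval w G := by
    intro G
    have h1 : A.val (aeval w' G) = aeval (fun o => A.val (w' o)) G :=
      MvPolynomial.comp_aeval_apply _ A.val G
    have h2 : (fun o => A.val (w' o)) = w := by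
      rw [hw', hw]
      funext o
      cases o <;> rfl
    rw [h2] at h1
    exact h1
  obtain ⟨F, hF⟩ : ∃ F : (ι → ℂ) → ℂ, F = fun x => Φ x ⟨f, hfA⟩ := ⟨_, rfl⟩
  obtain ⟨P, hP⟩ : ∃ P : (ι → ℂ) → (Option ι → ℂ), P = fun x o => o.elim (F x) x := ⟨_, rfl⟩
  have hΦe : ∀ x ∈ D, ∀ G : MvPolynomial (Option ι) ℂ, Φ x (aeval w' G) = eval (P x) G := by
    intro x hx G
    have h1 : Φ x (aeval w' G) = aeval (fun o => Φ x (w' o)) G :=
      MvPolynomial.comp_aeval_apply _ (Φ x) G
    have h2 : (fun o => Φ x (w' o)) = P x := by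
      rw [hw', hP, hF]
      funext o
      cases o with
      | none => rfl
      | some j => exact hΦ x hx j
    rw [h2] at h1
    exact h1
  have hH' : aeval w' H = 0 := by
    apply Subtype.val_injective
    rw [hval, hH]
    rfl
  have hzero : ∀ y ∈ D, eval (P y) H = 0 := by
    intro y hy
    rw [← hΦe y hy, hH', map_zero]
  -- the derivative
  have hFd : HasFDerivAt F (fderiv ℂ F x) x := by
    have h1 : DifferentiableAt ℂ F x := by
      rw [hF]
      exact (hΦd ⟨f, hfA⟩).differentiableAt (hD.mem_nhds hx)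
    exact h1.hasFDerivAt
  let P' : (ι → ℂ) →L[ℂ] (Option ι → ℂ) := ContinuousLinearMap.pi (fun o : Option ι =>
    (o.elim (fderiv ℂ F x) (fun j => (ContinuousLinearMap.proj j : (ι → ℂ) →L[ℂ] ℂ)) :
      (ι → ℂ) →L[ℂ] ℂ))
  have hPd : HasFDerivAt P P' x := by
    rw [hasFDerivAt_pi']
    intro o
    cases o with
    | none => rw [hP]; exact hFd
    | some j =>
      rw [hP]
      exact (ContinuousLinearMap.proj (R := ℂ) (φ := fun _ : ι => ℂ) j).hasFDerivAt
  have hcomp := (MV.branch_hasFDerivAt_eval H (P x)).comp x hPd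
  have hconst : HasFDerivAt ((fun v : Option ι → ℂ => eval v H) ∘ P)
      (0 : (ι → ℂ) →L[ℂ] ℂ) x := by
    refine (hasFDerivAt_const (0:ℂ) x).congr_of_eventuallyEq ?_
    filter_upwards [hD.mem_nhds hx] with y hy
    exact hzero y hy
  have huniq := hcomp.unique hconst
  have happ := congrArg (fun L : (ι → ℂ) →L[ℂ] ℂ => L (Pi.single i 1)) huniq
  have hsum : eval (P x) (pderiv none H) * fderiv ℂ F x (Pi.single i 1) +
      eval (P x) (pderiv (some i) H) = 0 := by
    have h1 : (∑ o : Option ι, eval (P x) (pderiv o H) * (P' (Pi.single i 1)) o) = 0 := by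
      simpa [ContinuousLinearMap.comp_apply] using happ
    rw [Fintype.sum_option] at h1
    have h2 : ∑ j : ι, eval (P x) (pderiv (some j) H) * (P' (Pi.single i 1)) (some j) =
        eval (P x) (pderiv (some i) H) := by
      rw [Finset.sum_eq_single i]
      · show eval (P x) (pderiv (some i) H) * (Pi.single i (1:ℂ) : ι → ℂ) i = _
        rw [Pi.single_eq_same, mul_one]
      · intro j _ hj
        show eval (P x) (pderiv (some j) H) * (Pi.single i (1:ℂ) : ι → ℂ) j = 0
        rw [Pi.single_eq_of_ne hj, mul_zero]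
      · intro h; exact absurd (Finset.mem_univ i) h
    rw [h2] at h1
    exact h1
  -- conclusion
  have hune : eval (P x) (pderiv none H) ≠ 0 := by
    have h1 : (aeval w' (pderiv none H) : A) * ⟨_, huA⟩ = 1 := by
      apply Subtype.val_injective
      show ((aeval w' (pderiv none H) : A) : M) * (aeval w (pderiv none H))⁻¹ = 1
      rw [hval, mul_inv_cancel₀ hu0]
    have h2 := congrArg (Φ x) h1
    rw [map_mul, map_one, hΦe x hx] at h2
    exact left_ne_zero_of_mul_eq_one h2
  have hg : Φ x ⟨_, hgA i⟩ * eval (P x) (pderiv none H) = -eval (P x) (pderiv (some i) H) := by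
    rw [← hΦe x hx, ← hΦe x hx, ← map_mul, ← map_neg]
    congr 1
    apply Subtype.val_injective
    show (-(aeval w (pderiv (some i) H)) * (aeval w (pderiv none H))⁻¹) *
      ((aeval w' (pderiv none H) : A) : M) = -((aeval w' (pderiv (some i) H) : A) : M)
    rw [hval, hval, mul_assoc, inv_mul_cancel₀ hu0, mul_one]
  have hfin : (fderiv ℂ F x (Pi.single i 1)) * eval (P x) (pderiv none H) =
      Φ x ⟨_, hgA i⟩ * eval (P x) (pderiv none H) := by
    rw [hg]
    linear_combination hsum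
  have := mul_right_cancel₀ hune hfin
  rw [hF] at this
  exact this

end Pool.Agent.Lib.MP_209724_lc.HS
end

section

/-!
Logarithms and homomorphisms.
-/

namespace Pool.Agent.Lib.MP_209724_lc.HS

open MvPolynomial Filter Topology Metric
open MV (lead evT glue)

theorem psi_zprod {n : ℕ} {L : Type} [Field L] [Algebra ℂ L] (η : Fin n → L) (hη : ∀ i, η i ≠ 0)
    (μ : Fin n → ℤ) (A : Subalgebra ℂ L) (hηA : ∀ i, η i ∈ A) (hηA' : ∀ i, (η i)⁻¹ ∈ A)
    (htA : ∏ i, η i ^ μ i ∈ A) (ψ : A →ₐ[ℂ] ℂ) :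
    ψ ⟨∏ i, η i ^ μ i, htA⟩ = ∏ i, ψ ⟨η i, hηA i⟩ ^ μ i := by
  let u : Fin n → Aˣ := fun i => ⟨⟨η i, hηA i⟩, ⟨(η i)⁻¹, hηA' i⟩,
    Subtype.ext (mul_inv_cancel₀ (hη i)), Subtype.ext (inv_mul_cancel₀ (hη i))⟩
  have h1 : ((∏ i, u i ^ μ i : Aˣ) : A) = ⟨∏ i, η i ^ μ i, htA⟩ := by
    apply Subtype.ext
    have h2 : ((Units.map (A.val : A →* L) (∏ i, u i ^ μ i) : Lˣ) : L) = ∏ i, η i ^ μ i := by
      rw [map_prod, Units.coe_prod]
      refine Finset.prod_congr rfl fun i _ => ?_
      rw [map_zpow, Units.val_zpow_eq_zpow_val]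
      rfl
    exact h2
  have h3 : ((Units.map (ψ : A →* ℂ) (∏ i, u i ^ μ i) : ℂˣ) : ℂ) =
      ∏ i, ψ ⟨η i, hηA i⟩ ^ μ i := by
    rw [map_prod, Units.coe_prod]
    refine Finset.prod_congr rfl fun i _ => ?_
    rw [map_zpow, Units.val_zpow_eq_zpow_val]
    rfl
  rw [← h1, ← h3]
  rfl

theorem exists_logs {n : ℕ} {E : Type} [NormedAddCommGroup E] [NormedSpace ℂ E] {D : Set E}
    (hDo : IsOpen D) (hDc : Convex ℝ D) (f : E → Fin n → ℂ)
    (hf : ∀ i, DifferentiableOn ℂ (fun p => f p i) D) (hf0 : ∀ p ∈ D, ∀ i, f p i ≠ 0) (p₀ : E) :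
    ∃ Λ : E → Fin n → ℂ, (∀ i, DifferentiableOn ℂ (fun p => Λ p i) D) ∧
      (∀ p ∈ D, ∀ i, Complex.exp (Λ p i) = f p i) ∧ ∀ i, |(Λ p₀ i).im| ≤ Real.pi := by
  choose g hg1 hg2 using fun i => MV.exists_log hDo hDc (hf i) (fun p hp => hf0 p hp i)
  refine ⟨fun p i => g i p - 2 * Real.pi * Complex.I * (round ((g i p₀).im / (2 * Real.pi)) : ℤ),
    fun i => (hg1 i).sub_const _, ?_, ?_⟩
  · intro p hp i
    rw [Complex.exp_sub, hg2 i p hp]
    have h1 : Complex.exp (2 * Real.pi * Complex.I *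
        (round ((g i p₀).im / (2 * Real.pi)) : ℤ)) = 1 := by
      rw [mul_comm]
      exact Complex.exp_int_mul_two_pi_mul_I _
    rw [h1, div_one]
  · intro i
    have h1 : (g i p₀ - 2 * Real.pi * Complex.I *
        (round ((g i p₀).im / (2 * Real.pi)) : ℤ)).im =
        2 * Real.pi * ((g i p₀).im / (2 * Real.pi) - round ((g i p₀).im / (2 * Real.pi))) := by
      have hpi : (2 * Real.pi) ≠ 0 := by positivity
      rw [mul_sub, mul_div_cancel₀ _ hpi]
      simp
    rw [h1, abs_mul, abs_of_pos (by positivity)]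
    have h2 := abs_sub_round ((g i p₀).im / (2 * Real.pi))
    have h3 := Real.pi_pos
    nlinarith

theorem log_norm_of_exp {z u : ℂ} (h : Complex.exp z = u) : Real.log ‖u‖ = z.re := by
  rw [← h, Complex.norm_exp, Real.log_exp]

/-- `ψ` applied to a polynomial in elements of `A` -/
theorem psi_aeval {σ L : Type} [Field L] [Algebra ℂ L] (z : σ → L) (A : Subalgebra ℂ L)
    (hzA : ∀ i, z i ∈ A) (ψ : A →ₐ[ℂ] ℂ) (p : MvPolynomial σ ℂ) (hp : aeval z p ∈ A) :
    ψ ⟨aeval z p, hp⟩ = eval (fun i => ψ ⟨z i, hzA i⟩) p := by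
  have h1 : (⟨aeval z p, hp⟩ : A) = aeval (fun i => (⟨z i, hzA i⟩ : A)) p := by
    apply Subtype.ext
    have := MvPolynomial.comp_aeval_apply (B := L) (fun i => (⟨z i, hzA i⟩ : A)) A.val p
    rw [← Subalgebra.val_apply (x := aeval (fun i => (⟨z i, hzA i⟩ : A)) p), this]
    rfl
  rw [h1, MvPolynomial.comp_aeval_apply, MvPolynomial.aeval_eq_eval]

theorem aeval_mem {σ L : Type} [Field L] [Algebra ℂ L] (z : σ → L) (A : Subalgebra ℂ L)
    (hzA : ∀ i, z i ∈ A) (p : MvPolynomial σ ℂ) : aeval z p ∈ A := by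
  have h1 : aeval z p ∈ Algebra.adjoin ℂ (Set.range z) := by
    rw [Algebra.adjoin_range_eq_range_aeval]
    exact ⟨p, rfl⟩
  refine Algebra.adjoin_le ?_ h1
  rintro _ ⟨i, rfl⟩
  exact hzA i

end Pool.Agent.Lib.MP_209724_lc.HS
end

section

namespace Pool.Agent.Lib.MP_209724_lc.HS

open MvPolynomial Filter Topology Metric
open MV (lead evT glue)
open GC (evM)

/-- the rescaled polynomial is close to the leading form -/
private theorem hs15_resc {n : ℕ} (P : MvPolynomial (Fin n) ℂ) {K : Set (Fin n → ℂ)}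
    (hK : IsCompact K) : ∃ C : ℝ, 0 ≤ C ∧ ∀ u ∈ K, ∀ t : ℂ, ‖t‖ ≤ 1 →
      ‖MV.asymResc P P.totalDegree t u - eval u (lead P)‖ ≤ C * ‖t‖ := by
  have hB : ∀ j : ℕ, ∃ B : ℝ, ∀ u ∈ K, ‖eval u (homogeneousComponent j P)‖ ≤ B := fun j =>
    hK.exists_bound_of_continuousOn (MvPolynomial.continuous_eval _).continuousOn
  choose B hB using hB
  refine ⟨∑ j ∈ Finset.range P.totalDegree, |B j|, Finset.sum_nonneg fun _ _ => abs_nonneg _, ?_⟩
  intro u hu t ht
  have h1 : MV.asymResc P P.totalDegree t u - eval u (lead P) =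
      ∑ j ∈ Finset.range P.totalDegree,
        t ^ (P.totalDegree - j) * eval u (homogeneousComponent j P) := by
    unfold MV.asymResc
    rw [Finset.sum_range_succ]
    simp [lead]
  rw [h1, Finset.sum_mul]
  refine (norm_sum_le _ _).trans (Finset.sum_le_sum fun j hj => ?_)
  rw [norm_mul, norm_pow, mul_comm]
  have h2 : ‖t‖ ^ (P.totalDegree - j) ≤ ‖t‖ := by
    have h3 : 1 ≤ P.totalDegree - j := by have := Finset.mem_range.mp hj; omega
    calc ‖t‖ ^ (P.totalDegree - j) ≤ ‖t‖ ^ 1 := pow_le_pow_of_le_one (norm_nonneg _) ht h3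
      _ = ‖t‖ := pow_one _
  exact mul_le_mul ((hB j u hu).trans (le_abs_self _)) h2 (by positivity) (abs_nonneg _)

private theorem hs15_glue_diff {n : ℕ} (l : Fin n) (v : {j : Fin n // j ≠ l} → ℂ)
    (p : MvPolynomial (Fin n) ℂ) : Differentiable ℂ (fun z => eval (glue l v z) p) := by
  intro z
  have h1 : HasFDerivAt (fun u : Fin n → ℂ => eval u p) _ (MV.glueL l (v, z)) :=
    MV.branch_hasFDerivAt_eval p _
  have h2 : DifferentiableAt ℂ (fun z : ℂ => MV.glueL l (v, z)) z :=
    (MV.glueL l).differentiableAt.comp z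
      ((differentiableAt_const v).prodMk differentiableAt_id)
  have h3 := h1.differentiableAt.comp z h2
  have h4 : (fun z => eval (glue l v z) p) =
      (fun u : Fin n → ℂ => eval u p) ∘ (fun z : ℂ => MV.glueL l (v, z)) := by
    funext z
    simp [MV.glueL_apply]
  rw [h4]
  exact h3

private theorem hs15_glue_deriv {n : ℕ} (l : Fin n) (v : {j : Fin n // j ≠ l} → ℂ)
    (p : MvPolynomial (Fin n) ℂ) (z : ℂ) :
    HasDerivAt (fun z => eval (glue l v z) p) (eval (glue l v z) (pderiv l p)) z := by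
  have h1 := MV.branch_hasFDerivAt_eval p (MV.glueL l (v, z))
  have h2 : HasDerivAt (fun z : ℂ => MV.glueL l (v, z)) (MV.glueL l (0, 1)) z := by
    have h3 : HasDerivAt (fun z : ℂ => (v, z)) ((0 : {j : Fin n // j ≠ l} → ℂ), (1 : ℂ)) z :=
      (hasDerivAt_const z v).prodMk (hasDerivAt_id z)
    exact (MV.glueL l).hasFDerivAt.comp_hasDerivAt z h3
  have h3 := h1.comp_hasDerivAt z h2
  have h4 : (fun z => eval (glue l v z) p) =
      (fun u : Fin n → ℂ => eval u p) ∘ (fun z : ℂ => MV.glueL l (v, z)) := by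
    funext z
    simp [MV.glueL_apply]
  rw [h4]
  refine h3.congr_deriv ?_
  simp only [sum_apply, smul_apply,
    ContinuousLinearMap.proj_apply, smul_eq_mul, MV.glueL_apply]
  rw [Finset.sum_eq_single l]
  · simp [glue]
  · intro i _ hi
    simp [glue, hi]
  · intro h
    exact absurd (Finset.mem_univ l) h

/-- HS-15: the branch of a hypersurface near a smooth point of its asymptotic cone. -/
theorem exists_branch {n : ℕ} (P q r : MvPolynomial (Fin n) ℂ) {e : ℕ} (he : 0 < e)
    (hfac : lead P = q ^ e * r) (l : Fin n) (w : Fin n → ℂ) (hq : eval w q = 0)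
    (hl : eval w (pderiv l q) ≠ 0) (hr : eval w r ≠ 0) :
    ∃ (h : ({j : Fin n // j ≠ l} → ℂ) → ℂ) (h' : ({j : Fin n // j ≠ l} → ℂ) →L[ℂ] ℂ)
      (ρ r₁ C N₀ : ℝ), 0 < ρ ∧ 0 < r₁ ∧ 0 < N₀ ∧ HasStrictFDerivAt h h' (fun j => w j) ∧
      (∀ j : {j : Fin n // j ≠ l}, h' (Pi.single j 1) * eval w (pderiv l q) =
        -eval w (pderiv (j : Fin n) q)) ∧
      DifferentiableOn ℂ h (ball (fun j => w j) ρ) ∧ h (fun j => w j) = w l ∧
      (∀ v ∈ ball (fun j : {j // j ≠ l} => w j) ρ, ‖h v - w l‖ < r₁ / 2 ∧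
        eval (glue l v (h v)) q = 0 ∧
        ∀ z : ℂ, ‖z - w l‖ ≤ r₁ → eval (glue l v z) q = 0 → z = h v) ∧
      ∀ N : ℂ, N₀ ≤ ‖N‖ → ∀ v ∈ ball (fun j : {j // j ≠ l} => w j) ρ,
        (∀ z : ℂ, ‖z - w l‖ ≤ r₁ → eval (fun i => N * glue l v z i) P = 0 →
          ‖z - h v‖ ^ e ≤ C / ‖N‖) ∧
        ∃ z : ℂ, ‖z - w l‖ < r₁ ∧ eval (fun i => N * glue l v z i) P = 0 := by
  set w' : {j : Fin n // j ≠ l} → ℂ := fun j => w j with hw'
  have hgw : glue l w' (w l) = w := MV.glue_restrict l w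
  set F : ({j : Fin n // j ≠ l} → ℂ) × ℂ → ℂ := fun p => eval (MV.glueL l p) q with hF
  have hFc : ContDiff ℂ 1 F := (MV.branch_contDiff_eval q).comp (MV.glueL l).contDiff
  set D : (Fin n → ℂ) →L[ℂ] ℂ :=
    ∑ i, eval w (pderiv i q) • (ContinuousLinearMap.proj i : (Fin n → ℂ) →L[ℂ] ℂ) with hD
  have hgLw : MV.glueL l (w', w l) = w := by rw [MV.glueL_apply, hgw]
  have hFd : HasFDerivAt F (D.comp (MV.glueL l)) (w', w l) := by
    have h1 : HasFDerivAt (fun v : Fin n → ℂ => eval v q) D (MV.glueL l (w', w l)) := by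
      rw [hgLw]; exact MV.branch_hasFDerivAt_eval q w
    exact h1.comp (w', w l) (MV.glueL l).hasFDerivAt
  have hDa : ∀ y : Fin n → ℂ, D y = ∑ i, y i * eval w (pderiv i q) := by
    intro y
    simp only [hD, sum_apply, smul_apply,
      ContinuousLinearMap.proj_apply, smul_eq_mul]
    exact Finset.sum_congr rfl fun i _ => mul_comm _ _
  have cdf : ContDiffAt ℂ 1 F (w', w l) := hFc.contDiffAt
  have hF0 : F (w', w l) = 0 := by simp only [hF, hgLw, hq]
  have hinr : ((fderiv ℂ F (w', w l)).comp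
      (ContinuousLinearMap.inr ℂ ({j : Fin n // j ≠ l} → ℂ) ℂ)) 1 = eval w (pderiv l q) := by
    rw [hFd.fderiv]
    simp only [ContinuousLinearMap.comp_apply, ContinuousLinearMap.inr_apply]
    rw [MV.glueL_apply, hDa, Finset.sum_eq_single l]
    · simp [glue]
    · intro i _ hi
      simp [glue, hi]
    · intro h
      exact absurd (Finset.mem_univ l) h
  have hinv : ((fderiv ℂ F (w', w l)).comp
      (ContinuousLinearMap.inr ℂ ({j : Fin n // j ≠ l} → ℂ) ℂ)).IsInvertible := by
    refine ⟨ContinuousLinearEquiv.unitsEquivAut ℂ (Units.mk0 _ hl), ?_⟩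
    ext
    simp [← hinr]
  have pn : (1 : WithTop ℕ∞) ≠ 0 := one_ne_zero
  set h := cdf.implicitFunction pn hinv with hh
  have h_self : h w' = w l := cdf.implicitFunction_apply_self pn hinv
  have h_eq : ∀ᶠ x in 𝓝 w', F (x, h x) = F (w', w l) :=
    cdf.eventually_apply_implicitFunction pn hinv
  have h_strict := cdf.hasStrictFDerivAt_implicitFunction pn hinv
  set h' := (-((fderiv ℂ F (w', w l)).comp
      (ContinuousLinearMap.inr ℂ ({j : Fin n // j ≠ l} → ℂ) ℂ)).inverse ∘L
      ((fderiv ℂ F (w', w l)) ∘L (ContinuousLinearMap.inl ℂ ({j : Fin n // j ≠ l} → ℂ) ℂ)))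
    with hh'
  have h_cd : ContDiffAt ℂ 1 h w' := cdf.contDiffAt_implicitFunction pn hinv
  have h_diff : ∀ᶠ v in 𝓝 w', DifferentiableAt ℂ h v := by
    filter_upwards [h_cd.eventually (by simp)] with v hv
    exact hv.differentiableAt one_ne_zero
  have h_close : ∀ s : ℝ, 0 < s → ∀ᶠ v in 𝓝 w', ‖h v - w l‖ < s := by
    intro s hs
    have h1 := h_cd.continuousAt.tendsto
    rw [h_self] at h1
    have h2 := (Metric.tendsto_nhds.mp h1) s hs
    filter_upwards [h2] with v hv
    rwa [dist_eq_norm] at hv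
  -- the derivative
  have h_dir : ∀ j : {j : Fin n // j ≠ l}, h' (Pi.single j 1) * eval w (pderiv l q) =
      -eval w (pderiv (j : Fin n) q) := by
    intro j
    have h1 : HasFDerivAt (fun x => F (x, h x)) ((D.comp (MV.glueL l)).comp
        ((ContinuousLinearMap.id ℂ _).prod h')) w' := by
      have h2 : HasFDerivAt (fun x => (x, h x))
          ((ContinuousLinearMap.id ℂ ({j : Fin n // j ≠ l} → ℂ)).prod h') w' :=
        (hasFDerivAt_id w').prodMk h_strict.hasFDerivAt
      have h3 : HasFDerivAt F (D.comp (MV.glueL l)) (w', h w') := by rw [h_self]; exact hFd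
      exact h3.comp w' h2
    have h4 : HasFDerivAt (fun x => F (x, h x)) (0 : ({j : Fin n // j ≠ l} → ℂ) →L[ℂ] ℂ) w' :=
      (hasFDerivAt_const (F (w', w l)) w').congr_of_eventuallyEq h_eq
    have h5 := h1.unique h4
    have h6 := congrArg
      (fun T : ({j : Fin n // j ≠ l} → ℂ) →L[ℂ] ℂ => T (Pi.single j 1)) h5
    simp only [ContinuousLinearMap.comp_apply, ContinuousLinearMap.prod_apply,
      ContinuousLinearMap.id_apply, zero_apply] at h6
    rw [MV.glueL_apply, hDa] at h6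
    have hjl : (j : Fin n) ≠ l := j.2
    have h7 : ∑ i, glue l (Pi.single j 1) (h' (Pi.single j 1)) i * eval w (pderiv i q) =
        eval w (pderiv (j : Fin n) q) + h' (Pi.single j 1) * eval w (pderiv l q) := by
      rw [Finset.sum_eq_add (j : Fin n) l hjl]
      · congr 1
        · rw [MV.glue_of_ne l _ _ j]; simp
        · rw [MV.glue_self]
      · intro i _ hi
        have hil : i ≠ l := hi.2
        have hij : (⟨i, hil⟩ : {j : Fin n // j ≠ l}) ≠ j := fun hc => hi.1 (by rw [← hc])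
        have := MV.glue_of_ne l (Pi.single j 1) (h' (Pi.single j 1)) ⟨i, hil⟩
        simp only at this
        rw [this, Pi.single_eq_of_ne hij, zero_mul]
      · intro hc; exact absurd (Finset.mem_univ _) hc
      · intro hc; exact absurd (Finset.mem_univ _) hc
    rw [h7] at h6
    linear_combination h6
  -- constants
  set a : ℝ := ‖eval w (pderiv l q)‖ with ha
  have ha0 : 0 < a := norm_pos_iff.mpr hl
  set cr : ℝ := ‖eval w r‖ / 2 with hcr
  have hcr0 : 0 < cr := by have := norm_pos_iff.mpr hr; positivity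
  have hrc : ∀ᶠ v in 𝓝 (w', w l), cr < ‖eval (MV.glueL l v) r‖ := by
    have h1 : Continuous fun v => ‖eval (MV.glueL l v) r‖ :=
      ((MvPolynomial.continuous_eval r).comp (MV.glueL l).continuous).norm
    refine h1.continuousAt.eventually_const_lt ?_
    simp only []
    rw [hgLw, hcr]
    have := norm_pos_iff.mpr hr
    linarith
  have hpc : ∀ᶠ v in 𝓝 (w', w l), ‖eval (MV.glueL l v) (pderiv l q) - eval w (pderiv l q)‖ <
      a / 2 := by
    have h1 : Continuous fun v =>
        ‖eval (MV.glueL l v) (pderiv l q) - eval w (pderiv l q)‖ :=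
      (((MvPolynomial.continuous_eval _).comp (MV.glueL l).continuous).sub
        continuous_const).norm
    refine h1.continuousAt.eventually_lt_const ?_
    simp only []
    rw [hgLw, sub_self, norm_zero]
    positivity
  obtain ⟨δ, hδ, hδ'⟩ := Metric.eventually_nhds_iff.mp (hpc.and hrc)
  set r₁ : ℝ := δ / 2 with hr₁d
  have hr₁ : 0 < r₁ := by positivity
  obtain ⟨δ₂, hδ₂, hδ₂'⟩ := Metric.eventually_nhds_iff.mp
    (h_diff.and ((h_close (r₁ / 2) (by positivity)).and h_eq))
  set ρ := min (δ / 2) (δ₂ / 2) with hρ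
  have hρpos : 0 < ρ := by positivity
  have hρδ : ρ < δ := lt_of_le_of_lt (min_le_left _ _) (by linarith)
  have hρδ₂ : ρ < δ₂ := lt_of_le_of_lt (min_le_right _ _) (by linarith)
  have hbox : ∀ v ∈ ball w' ρ, ∀ z ∈ closedBall (w l) r₁,
      ‖eval (glue l v z) (pderiv l q) - eval w (pderiv l q)‖ < a / 2 ∧
      cr < ‖eval (glue l v z) r‖ := by
    intro v hv z hz
    have h1 : dist (v, z) (w', w l) < δ := by
      rw [Prod.dist_eq]
      exact max_lt (lt_trans (mem_ball.mp hv) hρδ)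
        (lt_of_le_of_lt (mem_closedBall.mp hz) (by linarith))
    have h2 := hδ' h1
    rwa [MV.glueL_apply] at h2
  have hhv : ∀ v ∈ ball w' ρ, ‖h v - w l‖ < r₁ / 2 ∧ eval (glue l v (h v)) q = 0 := by
    intro v hv
    have h1 := hδ₂' (lt_trans (mem_ball.mp hv) hρδ₂)
    refine ⟨h1.2.1, ?_⟩
    have h2 := h1.2.2
    rw [hF0] at h2
    simpa only [hF, MV.glueL_apply] using h2
  -- lower bound of q
  have hqlow : ∀ v ∈ ball w' ρ, ∀ z : ℂ, ‖z - w l‖ ≤ r₁ →
      a / 2 * ‖z - h v‖ ≤ ‖eval (glue l v z) q‖ := by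
    intro v hv z hz
    obtain ⟨h1, h2⟩ := hhv v hv
    have hzm : z ∈ closedBall (w l) r₁ := by rwa [mem_closedBall, dist_eq_norm]
    have hhm : h v ∈ closedBall (w l) r₁ := by
      rw [mem_closedBall, dist_eq_norm]; linarith
    have hmv := Convex.norm_image_sub_le_of_norm_hasDerivWithin_le (𝕜 := ℂ)
      (f := fun z => eval (glue l v z) q - eval w (pderiv l q) * z)
      (f' := fun z => eval (glue l v z) (pderiv l q) - eval w (pderiv l q))
      (C := a / 2) (s := closedBall (w l) r₁) (x := h v) (y := z)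
      (fun x _ => by
        have e1 := hs15_glue_deriv l v q x
        have e2 : HasDerivAt (fun z : ℂ => eval w (pderiv l q) * z)
            (eval w (pderiv l q)) x := by
          simpa using (hasDerivAt_id x).const_mul (eval w (pderiv l q))
        exact (e1.sub e2).hasDerivWithinAt)
      (fun x hx => (hbox v hv x hx).1.le) (convex_closedBall _ _) hhm hzm
    simp only [h2, zero_sub] at hmv
    have e3 : eval (glue l v z) q - eval w (pderiv l q) * z - -(eval w (pderiv l q) * h v) =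
        eval (glue l v z) q - eval w (pderiv l q) * (z - h v) := by ring
    rw [e3] at hmv
    have e4 : ‖eval w (pderiv l q) * (z - h v)‖ ≤ ‖eval (glue l v z) q‖ +
        ‖eval (glue l v z) q - eval w (pderiv l q) * (z - h v)‖ := by
      have := norm_sub_le (eval (glue l v z) q)
        (eval (glue l v z) q - eval w (pderiv l q) * (z - h v))
      rwa [sub_sub_cancel] at this
    rw [norm_mul, ← ha] at e4
    linarith
  set κ : ℝ := (a / 2) ^ e * cr with hκ
  have hκ0 : 0 < κ := by positivity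
  have hLlow : ∀ v ∈ ball w' ρ, ∀ z : ℂ, ‖z - w l‖ ≤ r₁ →
      κ * ‖z - h v‖ ^ e ≤ ‖eval (glue l v z) (lead P)‖ := by
    intro v hv z hz
    have hzm : z ∈ closedBall (w l) r₁ := by rwa [mem_closedBall, dist_eq_norm]
    rw [hfac, map_mul, map_pow, norm_mul, norm_pow]
    have e1 := pow_le_pow_left₀ (by positivity) (hqlow v hv z hz) e
    rw [mul_pow] at e1
    have e2 := (hbox v hv z hzm).2.le
    calc κ * ‖z - h v‖ ^ e = ((a / 2) ^ e * ‖z - h v‖ ^ e) * cr := by rw [hκ]; ring
      _ ≤ _ := mul_le_mul e1 e2 hcr0.le (by positivity)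
  -- the compact set
  have hKc : IsCompact (MV.glueL l '' (closedBall w' ρ ×ˢ closedBall (w l) r₁)) :=
    ((isCompact_closedBall _ _).prod (isCompact_closedBall _ _)).image (MV.glueL l).continuous
  obtain ⟨C', hC'0, hC'⟩ := hs15_resc P hKc
  have hclose : ∀ v ∈ ball w' ρ, ∀ z : ℂ, ‖z - w l‖ ≤ r₁ → ∀ N : ℂ, 1 ≤ ‖N‖ →
      ‖MV.asymResc P P.totalDegree N⁻¹ (glue l v z) - eval (glue l v z) (lead P)‖ ≤
        C' / ‖N‖ := by
    intro v hv z hz N hN
    have h1 : glue l v z ∈ MV.glueL l '' (closedBall w' ρ ×ˢ closedBall (w l) r₁) :=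
      ⟨(v, z), ⟨ball_subset_closedBall hv, by rwa [mem_closedBall, dist_eq_norm]⟩,
        MV.glueL_apply l v z⟩
    have h2 := hC' _ h1 N⁻¹ (by rw [norm_inv]; exact inv_le_one_of_one_le₀ hN)
    rwa [norm_inv, ← div_eq_mul_inv] at h2
  set m : ℝ := κ * (r₁ / 2) ^ e with hm
  have hm0 : 0 < m := by positivity
  refine ⟨h, h', ρ, r₁, C' / κ, 1 + 8 * C' / m, hρpos, hr₁, by positivity, h_strict, h_dir, ?_,
    h_self, ?_, ?_⟩
  · intro v hv
    exact (hδ₂' (lt_trans (mem_ball.mp hv) hρδ₂)).1.differentiableWithinAt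
  · intro v hv
    obtain ⟨h1, h2⟩ := hhv v hv
    refine ⟨h1, h2, fun z hz h0 => ?_⟩
    have h3 := hqlow v hv z hz
    rw [h0, norm_zero] at h3
    have h4 : ‖z - h v‖ ≤ 0 := by
      by_contra hc
      push Not at hc
      have : 0 < a / 2 * ‖z - h v‖ := by positivity
      linarith
    exact sub_eq_zero.mp (norm_le_zero_iff.mp h4)
  · intro N hN v hv
    have hC8 : 0 ≤ 8 * C' / m := by positivity
    have hN1 : 1 ≤ ‖N‖ := by linarith
    have hNpos : 0 < ‖N‖ := by linarith
    have hNne : N ≠ 0 := norm_pos_iff.mp hNpos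
    constructor
    · intro z hz h0
      rw [MV.eval_eq_asymResc P rfl hNne] at h0
      have h1 : MV.asymResc P P.totalDegree N⁻¹ (glue l v z) = 0 := by
        rcases mul_eq_zero.mp h0 with h3 | h3
        · exact absurd h3 (pow_ne_zero _ hNne)
        · exact h3
      have h2 := hclose v hv z hz N hN1
      rw [h1, zero_sub, norm_neg] at h2
      have h3 := (hLlow v hv z hz).trans h2
      rw [div_div, mul_comm κ, ← div_div, le_div_iff₀ hκ0, mul_comm]
      exact h3
    · obtain ⟨hh1, hh2⟩ := hhv v hv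
      set f : ℂ → ℂ := fun z => MV.asymResc P P.totalDegree N⁻¹ (glue l v z) with hf
      have hfd : Differentiable ℂ f := by
        simp only [hf, MV.asymResc]
        refine Differentiable.fun_sum fun j _ => ?_
        exact (differentiable_const _).mul (hs15_glue_diff l v _)
      have hCN : C' / ‖N‖ < m / 8 := by
        have h9 : 8 * C' / m < ‖N‖ := by linarith
        rw [div_lt_iff₀ hm0] at h9
        rw [div_lt_iff₀ hNpos]
        linarith
      have hf0 : ‖f (h v)‖ ≤ C' / ‖N‖ := by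
        have h1 := hclose v hv (h v) (by linarith) N hN1
        have h2 : eval (glue l v (h v)) (lead P) = 0 := by
          rw [hfac, map_mul, map_pow, hh2, zero_pow (by omega), zero_mul]
        rwa [h2, sub_zero] at h1
      have hfs : ∀ z ∈ sphere (h v) (r₁ / 2), m - 2 * (C' / ‖N‖) ≤ ‖f z - f (h v)‖ := by
        intro z hz
        rw [mem_sphere, dist_eq_norm] at hz
        have hzr : ‖z - w l‖ ≤ r₁ := by
          have := norm_sub_le_norm_sub_add_norm_sub z (h v) (w l)
          linarith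
        have h1 := hLlow v hv z hzr
        rw [hz] at h1
        have h2 := hclose v hv z hzr N hN1
        have h3 : ‖eval (glue l v z) (lead P)‖ ≤ ‖f z‖ + C' / ‖N‖ := by
          have h5 := norm_sub_le (f z) (f z - eval (glue l v z) (lead P))
          rw [sub_sub_cancel] at h5
          linarith
        have h4 : ‖f z‖ ≤ ‖f z - f (h v)‖ + ‖f (h v)‖ := by
          have := norm_add_le (f z - f (h v)) (f (h v))
          rwa [sub_add_cancel] at this
        linarith
      have hne : ∃ᶠ z in 𝓝 (h v), f z ≠ f (h v) := by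
        intro hcon
        have h1 : f =ᶠ[𝓝 (h v)] fun _ => f (h v) := by
          filter_upwards [hcon] with z hz
          exact not_not.mp hz
        have h2 := AnalyticOnNhd.eq_of_eventuallyEq (f := f) (g := fun _ => f (h v))
          (fun z _ => hfd.analyticAt z) (fun z _ => analyticAt_const) h1
        have h3 := hfs (h v + (r₁ / 2 : ℝ)) (by
          rw [mem_sphere, dist_eq_norm, add_sub_cancel_left, Complex.norm_real,
            Real.norm_of_nonneg (by positivity)])
        rw [congrFun h2 (h v + (r₁ / 2 : ℝ)), sub_self, norm_zero] at h3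
        linarith
      have hkey := DiffContOnCl.ball_subset_image_closedBall (f := f) (z₀ := h v) (r := r₁ / 2)
        hfd.diffContOnCl (by positivity) hfs hne
      have h0m : (0 : ℂ) ∈ ball (f (h v)) ((m - 2 * (C' / ‖N‖)) / 2) := by
        rw [mem_ball, dist_comm, dist_zero_right]
        linarith
      obtain ⟨z, hz, hz0⟩ := hkey h0m
      refine ⟨z, ?_, ?_⟩
      · rw [mem_closedBall, dist_eq_norm] at hz
        have := norm_sub_le_norm_sub_add_norm_sub z (h v) (w l)
        linarith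
      · rw [MV.eval_eq_asymResc P rfl hNne]
        have : MV.asymResc P P.totalDegree N⁻¹ (glue l v z) = 0 := hz0
        rw [this, mul_zero]

end Pool.Agent.Lib.MP_209724_lc.HS
end
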