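import Mathlib
import Pool.Agent.Lib.MP_209724_lc.SC.Sp0
import Pool.Agent.Lib.MP_209724_lc.SC.Ed3
import Pool.Agent.Lib.MP_209724_lc.MV.GenericPoint
import Pool.Agent.Lib.MP_209724_lc.SC.Ed10
import Pool.Agent.Lib.MP_209724_lc.MV.Idem

section

/-!
The scales `N = s ^ (3 e)`, `ρ = N / s`, `R = N / s ^ 2`.
-/

namespace Pool.Agent.Lib.MP_209724_lc.HS

open Filter Topology

theorem sc_R_ge {e s : ℕ} (he : 0 < e) (hs : 1 ≤ s) : (s : ℝ) ≤ (s : ℝ) ^ (3 * e) / (s : ℝ) ^ 2 := by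
  have h1 : (1 : ℝ) ≤ s := by exact_mod_cast hs
  rw [le_div_iff₀ (by positivity), ← pow_succ']
  exact pow_le_pow_right₀ h1 (by omega)

theorem sc_rho_ge {e s : ℕ} (_ : 0 < e) (hs : 1 ≤ s) :
    (s : ℝ) ^ (3 * e) / (s : ℝ) ^ 2 ≤ (s : ℝ) ^ (3 * e) / s := by
  have h1 : (1 : ℝ) ≤ s := by exact_mod_cast hs
  apply div_le_div_of_nonneg_left (by positivity) (by linarith)
  nlinarith

theorem tendsto_sc_R {e : ℕ} (he : 0 < e) :
    Tendsto (fun s : ℕ => (s : ℝ) ^ (3 * e) / (s : ℝ) ^ 2) atTop atTop := by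
  refine tendsto_atTop_mono' _ ?_ tendsto_natCast_atTop_atTop
  filter_upwards [eventually_ge_atTop 1] with s hs
  exact sc_R_ge he hs

theorem tendsto_sc_rho {e : ℕ} (he : 0 < e) :
    Tendsto (fun s : ℕ => (s : ℝ) ^ (3 * e) / (s : ℝ)) atTop atTop := by
  refine tendsto_atTop_mono' _ ?_ (tendsto_sc_R he)
  filter_upwards [eventually_ge_atTop 1] with s hs
  exact sc_rho_ge he hs

theorem tendsto_sc_N {e : ℕ} (he : 0 < e) :
    Tendsto (fun s : ℕ => s ^ (3 * e)) atTop atTop := by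
  apply tendsto_pow_atTop
  omega

theorem tendsto_sc_R_div_rho {e : ℕ} :
    Tendsto (fun s : ℕ => ((s : ℝ) ^ (3 * e) / (s : ℝ) ^ 2) / ((s : ℝ) ^ (3 * e) / s)) atTop
      (𝓝 0) := by
  have h1 : Tendsto (fun s : ℕ => ((s : ℝ))⁻¹) atTop (𝓝 0) := tendsto_inv_atTop_nhds_zero_nat
  refine h1.congr' ?_
  filter_upwards [eventually_ge_atTop 1] with s hs
  have h2 : (s : ℝ) ≠ 0 := by positivity
  field_simp

theorem tendsto_sc_rho_div_N {e : ℕ} (a : ℝ) :
    Tendsto (fun s : ℕ => (a * ((s : ℝ) ^ (3 * e) / s)) / ((s ^ (3 * e) : ℕ) : ℝ)) atTop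
      (𝓝 0) := by
  have h1 : Tendsto (fun s : ℕ => a * ((s : ℝ))⁻¹) atTop (𝓝 (a * 0)) :=
    tendsto_inv_atTop_nhds_zero_nat.const_mul a
  rw [mul_zero] at h1
  refine h1.congr' ?_
  filter_upwards [eventually_ge_atTop 1] with s hs
  have h2 : (s : ℝ) ≠ 0 := by positivity
  push_cast
  field_simp

/-- polynomials are small compared with `exp R` -/
theorem sc_le_exp {e : ℕ} (he : 0 < e) (C : ℝ) (k : ℕ) :
    ∀ᶠ s : ℕ in atTop, C * (s : ℝ) ^ k ≤ Real.exp ((s : ℝ) ^ (3 * e) / (s : ℝ) ^ 2) := by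
  have h1 : Tendsto (fun x : ℝ => x ^ k * Real.exp (-x)) atTop (𝓝 0) :=
    Real.tendsto_pow_mul_exp_neg_atTop_nhds_zero k
  have h2 : Tendsto (fun s : ℕ => C * ((s : ℝ) ^ k * Real.exp (-(s : ℝ)))) atTop (𝓝 (C * 0)) :=
    (h1.comp tendsto_natCast_atTop_atTop).const_mul C
  rw [mul_zero] at h2
  filter_upwards [h2.eventually_lt_const zero_lt_one, eventually_ge_atTop 1] with s hs hs1
  have h3 : Real.exp (s : ℝ) ≤ Real.exp ((s : ℝ) ^ (3 * e) / (s : ℝ) ^ 2) :=
    Real.exp_le_exp.mpr (sc_R_ge he hs1)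
  refine le_trans ?_ h3
  have h4 := Real.exp_pos (s : ℝ)
  rw [Real.exp_neg] at hs
  have h5 : C * (s : ℝ) ^ k * (Real.exp (s : ℝ))⁻¹ < 1 := by linarith [mul_assoc C ((s : ℝ) ^ k) (Real.exp (s : ℝ))⁻¹]
  rw [← div_eq_mul_inv, div_lt_one h4] at h5
  exact h5.le

theorem tendsto_sc_log {e : ℕ} (he : 0 < e) :
    Tendsto (fun s : ℕ => Real.log ((s ^ (3 * e) : ℕ) : ℝ) / ((s : ℝ) ^ (3 * e) / (s : ℝ) ^ 2))
      atTop (𝓝 0) := by
  have h1 : Tendsto (fun x : ℝ => Real.log x / x) atTop (𝓝 0) := by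
    have := Real.isLittleO_log_id_atTop
    exact this.tendsto_div_nhds_zero
  have h2 : Tendsto (fun s : ℕ => (3 * e : ℝ) * (Real.log (s : ℝ) / s)) atTop
      (𝓝 ((3 * e : ℝ) * 0)) := (h1.comp tendsto_natCast_atTop_atTop).const_mul _
  rw [mul_zero] at h2
  refine squeeze_zero' ?_ ?_ h2
  · filter_upwards [eventually_ge_atTop 1] with s hs
    apply div_nonneg (Real.log_natCast_nonneg _) (by positivity)
  · filter_upwards [eventually_ge_atTop 1] with s hs
    have h3 : (1 : ℝ) ≤ s := by exact_mod_cast hs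
    push_cast
    rw [Real.log_pow]
    have h4 := sc_R_ge he hs
    have h5 : 0 ≤ Real.log (s : ℝ) := Real.log_nonneg h3
    push_cast
    rw [← mul_div_assoc]
    apply div_le_div_of_nonneg_left (by positivity) (by linarith) h4

theorem sc_rho_pos {e s : ℕ} (hs : 1 ≤ s) : 0 < (s : ℝ) ^ (3 * e) / s := by
  have h1 : (1 : ℝ) ≤ s := by exact_mod_cast hs
  positivity

theorem sc_one_le_R {e s : ℕ} (he : 0 < e) (hs : 1 ≤ s) :
    1 ≤ (s : ℝ) ^ (3 * e) / (s : ℝ) ^ 2 := by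
  have h1 : (1 : ℝ) ≤ s := by exact_mod_cast hs
  exact h1.trans (sc_R_ge he hs)

theorem sc_small {e : ℕ} (he : 0 < e) {ε : ℝ} (hε : 0 < ε) (M a : ℝ) :
    ∀ᶠ s : ℕ in atTop, M + a * ((s : ℝ) ^ (3 * e) / s) < ε * ((s ^ (3 * e) : ℕ) : ℝ) := by
  have h1 : Tendsto (fun s : ℕ => a * ((s : ℝ))⁻¹) atTop (𝓝 (a * 0)) :=
    tendsto_inv_atTop_nhds_zero_nat.const_mul a
  rw [mul_zero] at h1
  have h2 : Tendsto (fun s : ℕ => ε / 2 * ((s ^ (3 * e) : ℕ) : ℝ)) atTop atTop :=
    (tendsto_natCast_atTop_atTop.comp (tendsto_sc_N he)).const_mul_atTop (by positivity)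
  filter_upwards [h1.eventually_lt_const (show (0 : ℝ) < ε / 2 by positivity),
    h2.eventually_gt_atTop M, eventually_ge_atTop 1] with s hs1 hs2 hs3
  have h3 : (0 : ℝ) < s := by exact_mod_cast hs3
  have h4 : (0 : ℝ) < (s : ℝ) ^ (3 * e) := by positivity
  have h5 : a * ((s : ℝ) ^ (3 * e) / s) = (a * (s : ℝ)⁻¹) * (s : ℝ) ^ (3 * e) := by
    field_simp
  rw [h5]
  push_cast at hs2 ⊢
  nlinarith

end Pool.Agent.Lib.MP_209724_lc.HS
end

section

namespace Pool.Agent.Lib.MP_209724_lc.SC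

open MvPolynomial

/-- algebraic over the polynomial ring in a transcendence basis -/
private theorem sp1_alg {k F ι : Type} [Field k] [Field F] [Algebra k F] {w : ι → F}
    (hw : IsTranscendenceBasis k w) :
    letI : Algebra (MvPolynomial ι k) F := (aeval w : MvPolynomial ι k →ₐ[k] F).toRingHom.toAlgebra
    Algebra.IsAlgebraic (MvPolynomial ι k) F := by
  let : Algebra (MvPolynomial ι k) F := (aeval w : MvPolynomial ι k →ₐ[k] F).toRingHom.toAlgebra
  have h1 : Algebra.IsAlgebraic (Algebra.adjoin k (Set.range w)) F := hw.isAlgebraic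
  have hmem : ∀ p : MvPolynomial ι k, (aeval w : MvPolynomial ι k →ₐ[k] F) p ∈
      Algebra.adjoin k (Set.range w) := fun p => by
    rw [Algebra.adjoin_range_eq_range_aeval]
    exact ⟨p, rfl⟩
  let f : MvPolynomial ι k →+* Algebra.adjoin k (Set.range w) :=
    (aeval w : MvPolynomial ι k →ₐ[k] F).toRingHom.codRestrict _ hmem
  have hf : Function.Surjective f := by
    rintro ⟨a, ha⟩
    have ha' := ha
    rw [Algebra.adjoin_range_eq_range_aeval] at ha'
    obtain ⟨p, hp⟩ := ha'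
    exact ⟨p, Subtype.ext hp⟩
  exact Algebra.IsAlgebraic.of_ringHom_of_comp_eq f (RingHom.id F) hf Function.injective_id
    (RingHom.ext fun p => rfl)

/-- extension of an injective homomorphism from the polynomial ring to `F` -/
private theorem sp1_ext {k F Ω ι : Type} [Field k] [Field F] [Algebra k F] [Field Ω] [IsAlgClosed Ω]
    {w : ι → F} (hw : IsTranscendenceBasis k w) (ψ : MvPolynomial ι k →+* Ω)
    (hψ : Function.Injective ψ) :
    ∃ σ : F →+* Ω, ∀ p, σ (aeval w p) = ψ p := by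
  let : Algebra (MvPolynomial ι k) F := (aeval w : MvPolynomial ι k →ₐ[k] F).toRingHom.toAlgebra
  let : Algebra (MvPolynomial ι k) Ω := ψ.toAlgebra
  have h1 : Algebra.IsAlgebraic (MvPolynomial ι k) F := sp1_alg hw
  have h2 : Function.Injective (algebraMap (MvPolynomial ι k) F) := hw.1
  have h3 : Function.Injective (algebraMap (MvPolynomial ι k) Ω) := hψ
  have : FaithfulSMul (MvPolynomial ι k) F := (faithfulSMul_iff_algebraMap_injective _ _).2 h2
  have : FaithfulSMul (MvPolynomial ι k) Ω := (faithfulSMul_iff_algebraMap_injective _ _).2 h3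
  have : Module.IsTorsionFree (MvPolynomial ι k) F := inferInstance
  have : Module.IsTorsionFree (MvPolynomial ι k) Ω := inferInstance
  let σ : F →ₐ[MvPolynomial ι k] Ω := IsAlgClosed.lift
  exact ⟨σ.toRingHom, fun p => σ.commutes p⟩

/-- SC-34: specialisation of `g` to independent complex numbers.

Proof. Make `Om n` a `k`-algebra through `k → ℂ → Om n`. The family `Sum.elim omX (algebraMap ∘ t)` is
algebraically independent over `k` (`omX` over `ℂ`, `t ∈ ℂ` over `k`: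
`AlgebraicIndependent.sumElim`-like). So there is a homomorphism of `k`-algebras from
`k(z, g) = IntermediateField.adjoin k (range z ∪ range g)` (the fraction field of a polynomial ring) to
`Om n` with `z i ↦ omX i`, `g l ↦ t l`; it is injective (a homomorphism of fields), and extends to `F`,
which is algebraic over it, since `Om n` is algebraically closed (`IsAlgClosed.lift`). `F` is algebraic
over `k(z, g)` by `htd` (`AlgebraicIndependent.isTranscendenceBasis_of_trdeg_le_of_finite` or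
similar). -/
theorem exists_spec {k F : Type} [Field k] [Algebra k ℂ] [Field F] [Algebra k F] {n e : ℕ}
    (htd : Algebra.trdeg k F = ((n + e : ℕ) : Cardinal)) (z : Fin n → F) (g : Fin e → F)
    (hzg : AlgebraicIndependent k (Sum.elim z g)) (t : Fin e → ℂ)
    (ht : AlgebraicIndependent k t) :
    ∃ σ : F →+* Om n, (∀ c : k, σ (algebraMap k F c) = algebraMap ℂ (Om n) (algebraMap k ℂ c)) ∧
      (∀ i, σ (z i) = omX i) ∧ ∀ l, σ (g l) = algebraMap ℂ (Om n) (t l) := by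
  have hbas : IsTranscendenceBasis k (Sum.elim z g) := by
    refine hzg.isTranscendenceBasis_of_trdeg_le_of_finite ?_
    rw [htd]
    simp
  -- the homomorphism from the polynomial ring
  let φ1 : MvPolynomial (Fin n ⊕ Fin e) k →+* MvPolynomial (Fin n) (MvPolynomial (Fin e) k) :=
    (sumAlgEquiv k (Fin n) (Fin e)).toRingEquiv.toRingHom
  let φ2 : MvPolynomial (Fin n) (MvPolynomial (Fin e) k) →+* MvPolynomial (Fin n) ℂ :=
    MvPolynomial.map (aeval t : MvPolynomial (Fin e) k →ₐ[k] ℂ).toRingHom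
  let φ3 : MvPolynomial (Fin n) ℂ →+* Om n :=
    (aeval (omX : Fin n → Om n) : MvPolynomial (Fin n) ℂ →ₐ[ℂ] Om n).toRingHom
  let ψ : MvPolynomial (Fin n ⊕ Fin e) k →+* Om n := (φ3.comp φ2).comp φ1
  have hψ : Function.Injective ψ := by
    have i1 : Function.Injective φ1 := (sumAlgEquiv k (Fin n) (Fin e)).injective
    have i2 : Function.Injective φ2 := MvPolynomial.map_injective _ ht
    have i3 : Function.Injective φ3 := algInd_omX n
    exact (i3.comp i2).comp i1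
  obtain ⟨σ, hσ⟩ := sp1_ext hbas ψ hψ
  refine ⟨σ, fun c => ?_, fun i => ?_, fun l => ?_⟩
  · have h1 := hσ (C c)
    rw [aeval_C] at h1
    rw [h1]
    show φ3 (φ2 (φ1 (C c))) = _
    have h2 : φ1 (C c) = C (C c) := by
      show sumAlgEquiv k (Fin n) (Fin e) (C c) = C (C c)
      simp
    rw [h2]
    have h3 : φ2 (C (C c)) = C (algebraMap k ℂ c) := by
      show MvPolynomial.map (aeval t : MvPolynomial (Fin e) k →ₐ[k] ℂ).toRingHom (C (C c)) = _
      rw [map_C]
      congr 1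
      show aeval t (C c) = _
      rw [aeval_C]
    rw [h3]
    show aeval (omX : Fin n → Om n) (C (algebraMap k ℂ c)) = _
    rw [aeval_C]
  · have h1 := hσ (X (Sum.inl i))
    rw [aeval_X, Sum.elim_inl] at h1
    rw [h1]
    show φ3 (φ2 (φ1 (X (Sum.inl i)))) = _
    have h2 : φ1 (X (Sum.inl i)) = X i := by
      show sumAlgEquiv k (Fin n) (Fin e) (X (Sum.inl i)) = X i
      simp
    rw [h2]
    have h3 : φ2 (X i) = X i := by
      show MvPolynomial.map (aeval t : MvPolynomial (Fin e) k →ₐ[k] ℂ).toRingHom (X i) = _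
      rw [map_X]
    rw [h3]
    show aeval (omX : Fin n → Om n) (X i) = _
    rw [aeval_X]
  · have h1 := hσ (X (Sum.inr l))
    rw [aeval_X, Sum.elim_inr] at h1
    rw [h1]
    show φ3 (φ2 (φ1 (X (Sum.inr l)))) = _
    have h2 : φ1 (X (Sum.inr l)) = C (X l) := by
      show sumAlgEquiv k (Fin n) (Fin e) (X (Sum.inr l)) = C (X l)
      simp
    rw [h2]
    have h3 : φ2 (C (X l)) = C (t l) := by
      show MvPolynomial.map (aeval t : MvPolynomial (Fin e) k →ₐ[k] ℂ).toRingHom (C (X l)) = _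
      rw [map_C]
      congr 1
      show aeval t (X l) = _
      rw [aeval_X]
    rw [h3]
    show aeval (omX : Fin n → Om n) (C (t l)) = _
    rw [aeval_C]

end Pool.Agent.Lib.MP_209724_lc.SC
end

section

namespace Pool.Agent.Lib.MP_209724_lc.SC

open MvPolynomial

/-- SC-35: change of the ring of coefficients. Proof: induction on `f`. -/
theorem aeval_spec {k F : Type} [Field k] [Algebra k ℂ] [Field F] [Algebra k F] {n : ℕ}
    (x y : Fin n → F) (σ : F →+* Om n)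
    (hσ : ∀ c : k, σ (algebraMap k F c) = algebraMap ℂ (Om n) (algebraMap k ℂ c))
    (f : MvPolynomial (Fin n ⊕ Fin n) k) :
    aeval (Sum.elim (fun i => σ (x i)) fun i => σ (y i)) (map (algebraMap k ℂ) f) =
      σ (aeval (Sum.elim x y) f) := by
  induction f using MvPolynomial.induction_on with
  | C a => rw [map_C, aeval_C, aeval_C, hσ]
  | add p q hp hq => rw [map_add, map_add, map_add, map_add, hp, hq]
  | mul_X p i hp =>
    rw [map_mul, map_mul, map_mul, map_mul, hp, map_X, aeval_X, aeval_X]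
    rcases i with i | i <;> rfl

/-- SC-35b: Proof: induction on `f`, or `aeval_def` and `eval₂`. -/
theorem eval_map_expG {k : Type} [Field k] [Algebra k ℂ] {n : ℕ}
    (f : MvPolynomial (Fin n ⊕ Fin n) k) (p : Fin n → ℂ) :
    eval (Sum.elim p fun i => Complex.exp (p i)) (map (algebraMap k ℂ) f) = expG f p := by
  rw [eval_map, expG, aeval_def]

end Pool.Agent.Lib.MP_209724_lc.SC
end

section

namespace Pool.Agent.Lib.MP_209724_lc.HS

open MvPolynomial Filter Topology Metric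
open MV (lead evT glue)
open GC (evM)

theorem relation_evT_option {σ S : Type*} [CommRing S] [Algebra ℂ S] (x : σ → S) (t : S)
    (b : MvPolynomial (Option σ) ℂ) :
    evT x t (optionEquivLeft ℂ σ b) = aeval (fun o : Option σ => o.elim t x) b := by
  have h : (evT x t).comp (optionEquivLeft ℂ σ : MvPolynomial (Option σ) ℂ →+* _) =
      ((aeval (fun o : Option σ => o.elim t x) : MvPolynomial (Option σ) ℂ →ₐ[ℂ] S) :
        MvPolynomial (Option σ) ℂ →+* S) := by
    apply MvPolynomial.ringHom_ext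
    · intro c
      simp [evT, optionEquivLeft_C]
    · intro o
      rcases o with _ | j
      · simp [evT, optionEquivLeft_X_none]
      · simp [evT, optionEquivLeft_X_some]
  exact congrArg (fun g => g b) h

/-- Relations with coefficients in `ℂ[z][t]`. -/
theorem exists_relation_evT {ι M : Type} [Field M] [Algebra ℂ M] (z : ι → M) (t y : M)
    (hzt : AlgebraicIndependent ℂ (fun o : Option ι => o.elim t z))
    (h : IsAlgebraic (Algebra.adjoin ℂ (Set.range fun o : Option ι => o.elim t z)) y) :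
    ∃ (T : Finset ℕ) (G : ℕ → Polynomial (MvPolynomial ι ℂ)), T.Nonempty ∧
      (∀ k ∈ T, G k ≠ 0) ∧ ∑ k ∈ T, evT z t (G k) * y ^ k = 0 := by
  obtain ⟨f, hf, hfy⟩ := h
  let G : ℕ → Polynomial (MvPolynomial ι ℂ) := fun k =>
    optionEquivLeft ℂ ι (hzt.aevalEquiv.symm (f.coeff k))
  have hG : ∀ k, evT z t (G k) = (f.coeff k : M) := by
    intro k
    show evT z t (optionEquivLeft ℂ ι (hzt.aevalEquiv.symm (f.coeff k))) = _
    rw [relation_evT_option]
    have h1 := hzt.algebraMap_aevalEquiv (hzt.aevalEquiv.symm (f.coeff k))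
    rw [AlgEquiv.apply_symm_apply] at h1
    exact h1.symm
  refine ⟨f.support, G, ?_, fun k hk => ?_, ?_⟩
  · rwa [Polynomial.support_nonempty]
  · show optionEquivLeft ℂ ι (hzt.aevalEquiv.symm (f.coeff k)) ≠ 0
    rw [Polynomial.mem_support_iff] at hk
    intro h0
    apply hk
    have h1 := (map_eq_zero_iff _ (optionEquivLeft ℂ ι).injective).1 h0
    exact (map_eq_zero_iff _ hzt.aevalEquiv.symm.injective).1 h1
  · simp only [hG]
    rw [Polynomial.aeval_def, Polynomial.eval₂_eq_sum, Polynomial.sum_def] at hfy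
    exact hfy

/-- HS-24: relations. -/
theorem exists_relation {ι M : Type} [Finite ι] [Field M] [Algebra ℂ M] (z : ι → M) (t y : M)
    (hzt : AlgebraicIndependent ℂ (fun o : Option ι => o.elim t z))
    (h : IsAlgebraic (Algebra.adjoin ℂ (Set.range fun o : Option ι => o.elim t z)) y) :
    ∃ (S : Finset (ℕ × ℕ)) (β : ℕ × ℕ → MvPolynomial ι ℂ), S.Nonempty ∧
      (∀ s ∈ S, β s ≠ 0) ∧ ∑ s ∈ S, aeval z (β s) * t ^ s.1 * y ^ s.2 = 0 := by
  classical
  obtain ⟨T, G, hT, hG, hsum⟩ := exists_relation_evT z t y hzt h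
  let N : ℕ := T.sup fun k => (G k).natDegree
  have hN : ∀ k ∈ T, (G k).natDegree < N + 1 := by
    intro k hk
    exact Nat.lt_succ_iff.2 (Finset.le_sup (f := fun k => (G k).natDegree) hk)
  refine ⟨(Finset.range (N + 1) ×ˢ T).filter fun s => (G s.2).coeff s.1 ≠ 0,
    fun s => (G s.2).coeff s.1, ?_, fun s hs => (Finset.mem_filter.1 hs).2, ?_⟩
  · obtain ⟨k, hk⟩ := hT
    refine ⟨((G k).natDegree, k), ?_⟩
    rw [Finset.mem_filter, Finset.mem_product, Finset.mem_range]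
    refine ⟨⟨hN k hk, hk⟩, ?_⟩
    show (G k).coeff (G k).natDegree ≠ 0
    rw [Polynomial.coeff_natDegree, Polynomial.leadingCoeff_ne_zero]
    exact hG k hk
  · rw [Finset.sum_filter_of_ne (fun s _ hs => by
      intro h0
      apply hs
      show aeval z ((G s.2).coeff s.1) * t ^ s.1 * y ^ s.2 = 0
      rw [h0]
      simp), Finset.sum_product_right, ← hsum]
    refine Finset.sum_congr rfl fun k hk => ?_
    have e1 : evT z t (G k) = ∑ a ∈ Finset.range (N + 1), aeval z ((G k).coeff a) * t ^ a := by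
      show Polynomial.eval₂ _ t (G k) = _
      rw [Polynomial.eval₂_eq_sum_range' _ (hN k hk)]
      rfl
    rw [e1, Finset.sum_mul]

end Pool.Agent.Lib.MP_209724_lc.HS
end

section

namespace Pool.Agent.Lib.MP_209724_lc.HS

open MvPolynomial Filter Topology Metric
open MV (lead evT glue evT_C evT_X map_evT)
open GC (evM)

/-- The evaluation as a homomorphism of algebras. -/
private noncomputable def evTA {σ S : Type*} [CommRing S] [Algebra ℂ S] (x : σ → S) (t : S) :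
    Polynomial (MvPolynomial σ ℂ) →ₐ[ℂ] S :=
  { evT x t with
    commutes' := fun r => by
      have h : algebraMap ℂ (Polynomial (MvPolynomial σ ℂ)) r = Polynomial.C (C r) := rfl
      rw [h]
      change evT x t (Polynomial.C (C r)) = _
      rw [evT_C, ← algebraMap_eq, AlgHom.commutes] }

private theorem evTA_apply {σ S : Type*} [CommRing S] [Algebra ℂ S] (x : σ → S) (t : S)
    (f : Polynomial (MvPolynomial σ ℂ)) : evTA x t f = evT x t f := rfl

private theorem good_coeff {σ L : Type*} [Field L] [Algebra ℂ L] (ξ : σ → L) (t : L)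
    (ht : Transcendental (IntermediateField.adjoin ℂ (Set.range ξ)) t)
    (q : Polynomial (MvPolynomial σ ℂ)) (hq : evT ξ t q = 0) (k : ℕ) : aeval ξ (q.coeff k) = 0 := by
  set K := IntermediateField.adjoin ℂ (Set.range ξ)
  let ρ : MvPolynomial σ ℂ →ₐ[ℂ] K :=
    aeval fun i => ⟨ξ i, IntermediateField.subset_adjoin _ _ ⟨i, rfl⟩⟩
  have hρ : ∀ c, algebraMap K L (ρ c) = aeval ξ c := by
    intro c
    have : (IsScalarTower.toAlgHom ℂ K L).comp ρ = aeval ξ := by
      ext i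
      simp [ρ]
    exact congrArg (fun f => f c) this
  have h1 : Polynomial.aeval t (q.map (ρ : MvPolynomial σ ℂ →+* K)) = evT ξ t q := by
    rw [Polynomial.aeval_def, Polynomial.eval₂_map]
    unfold evT
    simp only [Polynomial.coe_eval₂RingHom]
    congr 1
    ext c
    · simp
    · simp [hρ]
  rw [hq] at h1
  have h2 := (transcendental_iff.1 ht) _ h1
  have h3 := congrArg (fun p => algebraMap K L (Polynomial.coeff p k)) h2
  simp only [Polynomial.coeff_map, Polynomial.coeff_zero, map_zero] at h3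
  rw [← hρ]
  exact h3

private theorem good_hom {n : ℕ} {L : Type} [Field L] [Algebra ℂ L] (ξ : Fin n → L)
    (P : MvPolynomial (Fin n) ℂ) (hP : ∀ c, aeval ξ c = 0 ↔ P ∣ c)
    (t : L) (ht : Transcendental (IntermediateField.adjoin ℂ (Set.range ξ)) t)
    (B : Subalgebra ℂ L) (hB : B = Algebra.adjoin ℂ (Set.range ξ ∪ {t})) (hξB : ∀ i, ξ i ∈ B)
    (htB : t ∈ B) (x : Fin n → ℂ) (hx : eval x P = 0) (t₀ : ℂ) :
    ∃ φ : B →ₐ[ℂ] ℂ, (∀ i, φ ⟨ξ i, hξB i⟩ = x i) ∧ φ ⟨t, htB⟩ = t₀ := by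
  let f : Polynomial (MvPolynomial (Fin n) ℂ) →ₐ[ℂ] B := evTA (fun i => ⟨ξ i, hξB i⟩) ⟨t, htB⟩
  let f₀ : Polynomial (MvPolynomial (Fin n) ℂ) →ₐ[ℂ] ℂ := evTA x t₀
  have hval : ∀ q, B.val (f q) = evT ξ t q := by
    intro q
    exact map_evT B.val _ _ q
  have hf : Function.Surjective f := by
    intro y
    have h1 : B ≤ (evTA ξ t).range := by
      rw [hB]
      apply Algebra.adjoin_le
      rintro _ (⟨i, rfl⟩ | rfl)
      · exact ⟨Polynomial.C (X i), by
          change evT ξ t (Polynomial.C (X i)) = ξ i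
          rw [evT_C, aeval_X]⟩
      · exact ⟨Polynomial.X, by
          change evT ξ _ Polynomial.X = _
          rw [evT_X]⟩
    obtain ⟨q, hq⟩ := h1 y.2
    refine ⟨q, Subtype.ext ?_⟩
    rw [← hq]
    exact hval q
  have hker : RingHom.ker f.toRingHom ≤ RingHom.ker f₀.toRingHom := by
    intro q hq
    rw [RingHom.mem_ker] at hq ⊢
    have h1 : evT ξ t q = 0 := by
      rw [← hval q]
      have : f q = 0 := hq
      rw [this, map_zero]
    have h2 : ∀ k, eval x (q.coeff k) = 0 := by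
      intro k
      obtain ⟨r, hr⟩ := (hP _).1 (good_coeff ξ t ht q h1 k)
      rw [hr, map_mul, hx, zero_mul]
    change evT x t₀ q = 0
    unfold evT
    simp only [Polynomial.coe_eval₂RingHom]
    rw [Polynomial.eval₂_eq_sum_range]
    apply Finset.sum_eq_zero
    intro k _
    have h3 : (aeval x : MvPolynomial (Fin n) ℂ →ₐ[ℂ] ℂ).toRingHom (q.coeff k) = 0 := by
      have := h2 k
      rw [← this]
      change aeval x (q.coeff k) = _
      rw [aeval_eq_eval]
    rw [h3, zero_mul]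
  refine ⟨AlgHom.liftOfSurjective f hf f₀ hker, fun i => ?_, ?_⟩
  · have h1 : f (Polynomial.C (X i)) = ⟨ξ i, hξB i⟩ := by
      change evT _ _ (Polynomial.C (X i)) = _
      rw [evT_C, aeval_X]
    rw [← h1, AlgHom.liftOfSurjective_apply]
    change evT _ _ (Polynomial.C (X i)) = _
    rw [evT_C, aeval_X]
  · have h1 : f Polynomial.X = ⟨t, htB⟩ := by
      change evT _ _ Polynomial.X = _
      rw [evT_X]
    rw [← h1, AlgHom.liftOfSurjective_apply]
    change evT _ _ Polynomial.X = _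
    rw [evT_X]

open IntermediateField.algebraAdjoinAdjoin in
private theorem good_beta {n : ℕ} {L : Type} [Field L] [Algebra ℂ L] (ξ : Fin n → L) (l : Fin n)
    (hξ : AlgebraicIndependent ℂ fun j : {j // j ≠ l} => ξ j)
    (hl : IsAlgebraic (Algebra.adjoin ℂ (Set.range fun j : {j // j ≠ l} => ξ j)) (ξ l))
    (t : L) (ht : Transcendental (IntermediateField.adjoin ℂ (Set.range ξ)) t)
    (B : Subalgebra ℂ L) (hB : B = Algebra.adjoin ℂ (Set.range ξ ∪ {t})) (hξB : ∀ i, ξ i ∈ B)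
    (htB : t ∈ B) (b : B) (hb : b ≠ 0) :
    ∃ β : Polynomial (MvPolynomial {j : Fin n // j ≠ l} ℂ), β ≠ 0 ∧
      b ∣ evT (fun j : {j : Fin n // j ≠ l} => (⟨ξ j, hξB j⟩ : B)) ⟨t, htB⟩ β := by
  set R := Polynomial (MvPolynomial {j : Fin n // j ≠ l} ℂ) with hR
  set ξ' : {j : Fin n // j ≠ l} → L := fun j => ξ j with hξ'
  -- the algebra structures
  let algL : Algebra R L := (evT ξ' t).toAlgebra
  let algB : Algebra R B := (evT (fun j : {j : Fin n // j ≠ l} => (⟨ξ j, hξB j⟩ : B))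
    ⟨t, htB⟩).toAlgebra
  have hmapL : ∀ r : R, algebraMap R L r = evT ξ' t r := fun r => rfl
  have hmapB : ∀ r : R, algebraMap R B r =
    evT (fun j : {j : Fin n // j ≠ l} => (⟨ξ j, hξB j⟩ : B)) ⟨t, htB⟩ r := fun r => rfl
  have hval : ∀ r : R, B.val (algebraMap R B r) = algebraMap R L r := by
    intro r
    exact map_evT B.val _ _ r
  -- injectivity
  have ht' : Transcendental (IntermediateField.adjoin ℂ (Set.range ξ')) t := by
    intro halg
    apply ht
    have hle : IntermediateField.adjoin ℂ (Set.range ξ') ≤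
        IntermediateField.adjoin ℂ (Set.range ξ) :=
      IntermediateField.adjoin.mono _ _ _ (by rintro _ ⟨j, rfl⟩; exact ⟨j, rfl⟩)
    exact halg.ringHom_of_comp_eq (IntermediateField.inclusion hle) (RingHom.id L)
      (IntermediateField.inclusion hle).injective (by ext; rfl)
  have hinj : Function.Injective (algebraMap R L) := by
    rw [injective_iff_map_eq_zero]
    intro r hr
    rw [hmapL] at hr
    ext1 k
    have := good_coeff ξ' t ht' r hr k
    rw [Polynomial.coeff_zero]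
    exact hξ (this.trans (map_zero _).symm)
  -- `ξ l` is algebraic
  have hlalg : IsAlgebraic R (ξ l) := by
    have h1 : IsAlgebraic (Algebra.adjoin ℂ (Set.range ξ')) (ξ l) := hl
    let e : Algebra.adjoin ℂ (Set.range ξ') →+* R :=
      (Polynomial.C : _ →+* Polynomial (MvPolynomial {j : Fin n // j ≠ l} ℂ)).comp
        (hξ.aevalEquiv.symm : _ →+* MvPolynomial {j : Fin n // j ≠ l} ℂ)
    refine h1.ringHom_of_comp_eq e (RingHom.id L) ?_ ?_
    · exact Polynomial.C_injective.comp hξ.aevalEquiv.symm.injective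
    · ext y
      change evT ξ' t (Polynomial.C (hξ.aevalEquiv.symm y)) = (y : L)
      rw [evT_C]
      have := hξ.algebraMap_aevalEquiv (hξ.aevalEquiv.symm y)
      rw [AlgEquiv.apply_symm_apply] at this
      exact this.symm
  have halgL : ∀ y ∈ B, IsAlgebraic R y := by
    intro y hy
    rw [hB] at hy
    induction hy using Algebra.adjoin_induction with
    | mem y hy =>
      rcases hy with ⟨i, rfl⟩ | hy
      · by_cases hi : i = l
        · rw [hi]; exact hlalg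
        · have : algebraMap R L (Polynomial.C (X ⟨i, hi⟩)) = ξ i := by
            rw [hmapL, evT_C, aeval_X]
          rw [← this]
          exact isAlgebraic_algebraMap _
      · rw [Set.mem_singleton_iff] at hy
        have : algebraMap R L Polynomial.X = y := by
          rw [hmapL, evT_X, hy]
        rw [← this]
        exact isAlgebraic_algebraMap _
    | algebraMap z =>
      have : algebraMap R L (Polynomial.C (C z)) = algebraMap ℂ L z := by
        rw [hmapL, evT_C, ← algebraMap_eq, AlgHom.commutes]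
      rw [← this]
      exact isAlgebraic_algebraMap _
    | add y z _ _ hy hz => exact hy.add hz
    | mul y z _ _ hy hz => exact hy.mul hz
  have hbalg : IsAlgebraic R b := by
    refine (halgL b b.2).of_ringHom_of_comp_eq (RingHom.id R) (B.val : B →+* L)
      Function.surjective_id Subtype.val_injective ?_
    ext r
    · exact (hval _).symm
    · exact (hval _).symm
    · exact (hval _).symm
  obtain ⟨β, hβ, hdvd⟩ := hbalg.exists_nonzero_dvd (mem_nonZeroDivisors_of_ne_zero hb)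
  exact ⟨β, hβ, hdvd⟩

/-- HS-21c: homomorphisms over points of the hypersurface and a value of `t`. -/
theorem exists_hom_PT {n : ℕ} {M : Type} [Field M] [Algebra ℂ M] (ξ : Fin n → M)
    (P : MvPolynomial (Fin n) ℂ) (hP : ∀ c, aeval ξ c = 0 ↔ P ∣ c) (l : Fin n)
    (hξ : AlgebraicIndependent ℂ (fun j : {j : Fin n // j ≠ l} => ξ j))
    (hl : IsAlgebraic (Algebra.adjoin ℂ (Set.range fun j : {j : Fin n // j ≠ l} => ξ j)) (ξ l))
    (t : M) (ht : Transcendental (IntermediateField.adjoin ℂ (Set.range ξ)) t)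
    (A : Subalgebra ℂ M) (hA : A.FG) (hξA : ∀ i, ξ i ∈ A) (htA : t ∈ A)
    (halg : ∀ x ∈ A, IsAlgebraic (Algebra.adjoin ℂ (Set.range ξ ∪ {t})) x) :
    ∃ b : Polynomial (MvPolynomial {j : Fin n // j ≠ l} ℂ), b ≠ 0 ∧ ∀ x : Fin n → ℂ,
      eval x P = 0 → ∀ t₀ : ℂ, evT (fun j : {j : Fin n // j ≠ l} => x j) t₀ b ≠ 0 →
      ∃ ψ : A →ₐ[ℂ] ℂ, (∀ i, ψ ⟨ξ i, hξA i⟩ = x i) ∧ ψ ⟨t, htA⟩ = t₀ := by
  classical
  set B : Subalgebra ℂ M := Algebra.adjoin ℂ (Set.range ξ ∪ {t}) with hB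
  have hξB : ∀ i, ξ i ∈ B := fun i => Algebra.subset_adjoin (Or.inl ⟨i, rfl⟩)
  have htB : t ∈ B := Algebra.subset_adjoin (Or.inr rfl)
  have hBA : B ≤ A := by
    rw [hB]
    apply Algebra.adjoin_le
    rintro _ (⟨i, rfl⟩ | hy)
    · exact hξA i
    · rw [Set.mem_singleton_iff] at hy
      rw [hy]; exact htA
  obtain ⟨b, hb, hext⟩ := MV.exists_ext B A hBA hA halg 0 A.zero_mem
  obtain ⟨β, hβ, hdvd⟩ := good_beta ξ l hξ hl t ht B hB hξB htB b hb
  refine ⟨β, hβ, fun x hx t₀ hne => ?_⟩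
  obtain ⟨φ, hφξ, hφt⟩ := good_hom ξ P hP t ht B hB hξB htB x hx t₀
  have hφb : φ b ≠ 0 := by
    intro h0
    obtain ⟨y, hy⟩ := hdvd
    have h5 := congrArg φ hy
    rw [map_mul, h0, zero_mul, map_evT, hφt] at h5
    refine hne ?_
    rw [← h5]
    congr 2
    funext j
    rw [hφξ]
  obtain ⟨ψ, hψ, -⟩ := hext φ hφb 0 (by
    intro h hh
    have h1 : (algebraMap B M) (h.coeff 0) = 0 := by
      rw [← hh, Polynomial.aeval_def, Polynomial.eval₂_at_zero]
    have h2 : h.coeff 0 = 0 := by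
      apply Subtype.ext
      exact h1
    rw [← Polynomial.coeff_zero_eq_eval_zero, Polynomial.coeff_map, h2, map_zero])
  exact ⟨ψ, fun i => by rw [← hφξ i, ← hψ]; rfl, by rw [← hφt, ← hψ]; rfl⟩

end Pool.Agent.Lib.MP_209724_lc.HS
end

section

namespace Pool.Agent.Lib.MP_209724_lc.HS

open MvPolynomial Filter Topology Metric
open MV (lead evT glue)
open GC (evM)

/-- two terms of a vanishing sum which balance -/
private lemma balance (T : Finset ℕ) (u : ℕ → ℂ) (hu : ∀ t ∈ T, u t ≠ 0) (hT : T.Nonempty)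
    (h : ∑ t ∈ T, u t = 0) : ∃ t₁ ∈ T, ∃ t₂ ∈ T, t₁ ≠ t₂ ∧
      |Real.log ‖u t₁‖ - Real.log ‖u t₂‖| ≤ Real.log T.card := by
  classical
  obtain ⟨t₁, ht₁, hmax⟩ := Finset.exists_max_image T (fun t => ‖u t‖) hT
  have hsum : u t₁ = -∑ t ∈ T.erase t₁, u t := by
    rw [← Finset.add_sum_erase T u ht₁] at h
    exact eq_neg_of_add_eq_zero_left h
  have hne : (T.erase t₁).Nonempty := by
    rw [Finset.nonempty_iff_ne_empty]
    intro he
    rw [he, Finset.sum_empty, neg_zero] at hsum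
    exact hu t₁ ht₁ hsum
  obtain ⟨t₂, ht₂, hmax₂⟩ := Finset.exists_max_image (T.erase t₁) (fun t => ‖u t‖) hne
  rw [Finset.mem_erase] at ht₂
  refine ⟨t₁, ht₁, t₂, ht₂.2, ht₂.1.symm, ?_⟩
  have h1 : ‖u t₁‖ ≤ T.card * ‖u t₂‖ := by
    rw [hsum, norm_neg]
    refine (norm_sum_le _ _).trans ?_
    refine (Finset.sum_le_sum fun t ht => hmax₂ t ht).trans ?_
    rw [Finset.sum_const, nsmul_eq_mul]
    refine mul_le_mul_of_nonneg_right ?_ (norm_nonneg _)
    exact_mod_cast Finset.card_le_card (Finset.erase_subset _ _)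
  have hp1 : 0 < ‖u t₁‖ := norm_pos_iff.mpr (hu _ ht₁)
  have hp2 : 0 < ‖u t₂‖ := norm_pos_iff.mpr (hu _ ht₂.2)
  have hcard : (0 : ℝ) < T.card := by exact_mod_cast hT.card_pos
  have h2 : Real.log ‖u t₂‖ ≤ Real.log ‖u t₁‖ := Real.log_le_log hp2 (hmax _ ht₂.2)
  have h3 : Real.log ‖u t₁‖ ≤ Real.log T.card + Real.log ‖u t₂‖ := by
    rw [← Real.log_mul hcard.ne' hp2.ne']
    exact Real.log_le_log hp1 h1
  rw [abs_of_nonneg (by linarith)]
  linarith

/-- HS-19: algebraic functions have power growth. -/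
theorem tame_bound {ι M : Type} [Fintype ι] [Field M] [Algebra ℂ M] (z : ι → M)
    (hz : AlgebraicIndependent ℂ z) (A : Subalgebra ℂ M) (hzA : ∀ i, z i ∈ A)
    (halg : ∀ x ∈ A, IsAlgebraic (Algebra.adjoin ℂ (Set.range z)) x) (f : A) (hf : f ≠ 0) :
    ∃ c : MvPolynomial ι ℂ, c ≠ 0 ∧ ∃ Θ : Finset ℚ, ∀ w : ι → ℂ, eval w (lead c) ≠ 0 →
      ∃ ε : ℝ, 0 < ε ∧ ∃ Λ C : ℝ, ∀ p ∈ Dil w ε Λ, ∀ ψ : A →ₐ[ℂ] ℂ,
        (∀ i, ψ ⟨z i, hzA i⟩ = Complex.exp p.2 * p.1 i) →
        ∃ θ ∈ Θ, Real.exp (θ * p.2.re - C) ≤ ‖ψ f‖ ∧ ‖ψ f‖ ≤ Real.exp (θ * p.2.re + C) := by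
  classical
  have hf' : (f : M) ≠ 0 := fun h => hf (Subtype.ext h)
  obtain ⟨q, hq0, hq⟩ := (halg f.1 f.2).exists_nonzero_coeff_and_aeval_eq_zero
    (mem_nonZeroDivisors_of_ne_zero hf')
  set T := q.support with hT
  have h0T : 0 ∈ T := Polynomial.mem_support_iff.mpr hq0
  set a : ℕ → MvPolynomial ι ℂ := fun k => hz.aevalEquiv.symm (q.coeff k) with ha
  have haz : ∀ k, aeval z (a k) = ((q.coeff k : Algebra.adjoin ℂ (Set.range z)) : M) := by
    intro k
    have := hz.algebraMap_aevalEquiv (a k)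
    rw [← this]
    simp [ha]
  have ha0 : ∀ k ∈ T, a k ≠ 0 := by
    intro k hk h0
    have h1 : q.coeff k ≠ 0 := Polynomial.mem_support_iff.mp hk
    apply h1
    have := haz k
    rw [h0, map_zero] at this
    exact Subtype.ext this.symm
  -- the relation in A
  set zA : ι → A := fun i => ⟨z i, hzA i⟩ with hzA'
  have hval : ∀ r : MvPolynomial ι ℂ, ((aeval zA r : A) : M) = aeval z r := by
    intro r
    have : (A.val.comp (aeval zA)) r = aeval z r := by
      congr 1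
      ext i
      simp [hzA']
    exact this
  have hrel : ∑ k ∈ T, aeval zA (a k) * f ^ k = 0 := by
    apply Subtype.ext
    rw [Polynomial.aeval_eq_sum_range, ] at hq
    have h1 : ((∑ k ∈ T, aeval zA (a k) * f ^ k : A) : M) =
        ∑ k ∈ T, (q.coeff k : Algebra.adjoin ℂ (Set.range z)) • (f : M) ^ k := by
      push_cast
      refine Finset.sum_congr rfl fun k _ => ?_
      rw [hval, haz, Algebra.smul_def]
      rfl
    rw [h1]
    have h2 : ∑ k ∈ T, (q.coeff k : Algebra.adjoin ℂ (Set.range z)) • (f : M) ^ k =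
        ∑ k ∈ Finset.range (q.natDegree + 1), q.coeff k • (f : M) ^ k := by
      refine Finset.sum_subset ?_ ?_
      · intro k hk
        exact Finset.mem_range_succ_iff.mpr (Polynomial.le_natDegree_of_mem_supp k hk)
      · intro k _ hk
        rw [Polynomial.notMem_support_iff.mp hk, zero_smul]
    rw [h2, hq]
    rfl
  refine ⟨∏ k ∈ T, a k, Finset.prod_ne_zero_iff.mpr ha0,
    (T ×ˢ T).image (fun t => -(((a t.1).totalDegree : ℚ) - (a t.2).totalDegree) / ((t.1 : ℚ) - t.2)),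
    fun w hw => ?_⟩
  rw [lead_prod, map_prod, Finset.prod_ne_zero_iff] at hw
  choose! ε Λ C hε hC hdil using fun k (hk : k ∈ T) => eval_dil (a k) w (hw k hk)
  set ε' : ℝ := (∑ k ∈ T, (ε k)⁻¹)⁻¹ with hε'
  set Λ' : ℝ := ∑ k ∈ T, |Λ k| with hΛ'
  set C' : ℝ := ∑ k ∈ T, C k with hC'
  have hεle : ∀ k ∈ T, ε' ≤ ε k := by
    intro k hk
    rw [hε', inv_le_comm₀ (Finset.sum_pos (fun k hk => inv_pos.mpr (hε k hk)) ⟨0, h0T⟩) (hε k hk)]
    exact Finset.single_le_sum (f := fun k => (ε k)⁻¹)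
      (fun k hk => (inv_pos.mpr (hε k hk)).le) hk
  have hε'0 : 0 < ε' := inv_pos.mpr (Finset.sum_pos (fun k hk => inv_pos.mpr (hε k hk)) ⟨0, h0T⟩)
  have hΛle : ∀ k ∈ T, Λ k ≤ Λ' := fun k hk => (le_abs_self _).trans
    (Finset.single_le_sum (f := fun k => |Λ k|) (fun k _ => abs_nonneg _) hk)
  have hCle : ∀ k ∈ T, C k ≤ C' := fun k hk =>
    Finset.single_le_sum (f := C) (fun k hk => (hC k hk).le) hk
  have hC'0 : 0 < C' := (hC 0 h0T).trans_le (hCle 0 h0T)
  refine ⟨ε', hε'0, Λ', 2 * Real.log C' + Real.log T.card, fun p hp ψ hψ => ?_⟩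
  rw [mem_dil] at hp
  -- values of coefficients
  set x : ι → ℂ := fun i => Complex.exp p.2 * p.1 i with hx
  have hψa : ∀ r : MvPolynomial ι ℂ, ψ (aeval zA r) = eval x r := by
    intro r
    have : (ψ.comp (aeval zA)) r = aeval x r := by
      congr 1
      ext i
      simp only [AlgHom.comp_apply, aeval_X, hzA', hx]
      exact hψ i
    rw [AlgHom.comp_apply] at this
    rw [this, aeval_eq_eval]
  have hbd : ∀ k ∈ T, |Real.log ‖eval x (a k)‖ - (a k).totalDegree * p.2.re| ≤ Real.log C' ∧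
      eval x (a k) ≠ 0 := by
    intro k hk
    obtain ⟨h1, h2⟩ := hdil k hk p.2 ((hΛle k hk).trans_lt hp.2) p.1
      (ball_subset_ball (hεle k hk) hp.1)
    have hpos : 0 < ‖eval x (a k)‖ := lt_of_lt_of_le
      (mul_pos (inv_pos.mpr (hC k hk)) (Real.exp_pos _)) h1
    have hE := Real.exp_pos ((a k).totalDegree * p.2.re)
    have hlC : Real.log (C k) ≤ Real.log C' := Real.log_le_log (hC k hk) (hCle k hk)
    have h3 : Real.log ‖eval x (a k)‖ ≤ Real.log (C k) + (a k).totalDegree * p.2.re := by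
      have := Real.log_le_log hpos h2
      rwa [Real.log_mul (hC k hk).ne' hE.ne', Real.log_exp] at this
    have h4 : -Real.log (C k) + (a k).totalDegree * p.2.re ≤ Real.log ‖eval x (a k)‖ := by
      have := Real.log_le_log (mul_pos (inv_pos.mpr (hC k hk)) hE) h1
      rwa [Real.log_mul (inv_ne_zero (hC k hk).ne') hE.ne', Real.log_exp, Real.log_inv] at this
    refine ⟨abs_le.mpr ⟨by linarith, by linarith⟩, norm_pos_iff.mp hpos⟩
  -- Y
  set Y : ℂ := ψ f with hY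
  have hsumY : ∑ k ∈ T, eval x (a k) * Y ^ k = 0 := by
    have := congrArg ψ hrel
    rw [map_sum, map_zero] at this
    rw [← this]
    refine Finset.sum_congr rfl fun k _ => ?_
    rw [map_mul, map_pow, hψa]
  have hY0 : Y ≠ 0 := by
    intro h0
    rw [h0, Finset.sum_eq_single_of_mem 0 h0T (fun k _ hk => by rw [zero_pow hk, mul_zero]),
      pow_zero, mul_one] at hsumY
    exact (hbd 0 h0T).2 hsumY
  obtain ⟨t₁, ht₁, t₂, ht₂, hne, hlog⟩ := balance T (fun k => eval x (a k) * Y ^ k)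
    (fun k hk => mul_ne_zero (hbd k hk).2 (pow_ne_zero _ hY0)) ⟨0, h0T⟩ hsumY
  have hlg : ∀ k ∈ T, Real.log ‖eval x (a k) * Y ^ k‖ =
      Real.log ‖eval x (a k)‖ + k * Real.log ‖Y‖ := by
    intro k hk
    rw [norm_mul, norm_pow, Real.log_mul (norm_ne_zero_iff.mpr (hbd k hk).2)
      (pow_ne_zero _ (norm_ne_zero_iff.mpr hY0)), Real.log_pow]
  simp only [hlg t₁ ht₁, hlg t₂ ht₂] at hlog
  set θ : ℚ := -(((a t₁).totalDegree : ℚ) - (a t₂).totalDegree) / ((t₁ : ℚ) - t₂) with hθ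
  refine ⟨θ, Finset.mem_image.mpr ⟨(t₁, t₂), Finset.mk_mem_product ht₁ ht₂, rfl⟩, ?_⟩
  have hYp : 0 < ‖Y‖ := norm_pos_iff.mpr hY0
  set y := Real.log ‖Y‖ with hy
  have hkey : |y - θ * p.2.re| ≤ 2 * Real.log C' + Real.log T.card := by
    have hd : ((t₁ : ℝ) - t₂) ≠ 0 := sub_ne_zero.mpr (by exact_mod_cast hne)
    have hd1 : 1 ≤ |(t₁ : ℝ) - t₂| := by
      have : (1 : ℤ) ≤ |(t₁ : ℤ) - t₂| := Int.one_le_abs (sub_ne_zero.mpr (by exact_mod_cast hne))
      exact_mod_cast this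
    have h1 : ((t₁ : ℝ) - t₂) * (y - θ * p.2.re) =
        ((t₁ : ℝ) - t₂) * y + (((a t₁).totalDegree : ℝ) - (a t₂).totalDegree) * p.2.re := by
      rw [hθ]
      push_cast
      field_simp
      ring
    have h2 : |((t₁ : ℝ) - t₂) * (y - θ * p.2.re)| ≤ 2 * Real.log C' + Real.log T.card := by
      rw [h1]
      have e1 := abs_le.mp (hbd t₁ ht₁).1
      have e2 := abs_le.mp (hbd t₂ ht₂).1
      have e3 := abs_le.mp hlog
      rw [abs_le]
      constructor <;> nlinarith [e1.1, e1.2, e2.1, e2.2, e3.1, e3.2]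
    rw [abs_mul] at h2
    calc |y - θ * p.2.re| = 1 * |y - θ * p.2.re| := (one_mul _).symm
      _ ≤ |(t₁ : ℝ) - t₂| * |y - θ * p.2.re| := mul_le_mul_of_nonneg_right hd1 (abs_nonneg _)
      _ ≤ _ := h2
  have hYe : ‖Y‖ = Real.exp y := (Real.exp_log hYp).symm
  rw [hYe]
  obtain ⟨k1, k2⟩ := abs_le.mp hkey
  exact ⟨Real.exp_le_exp.mpr (by linarith), Real.exp_le_exp.mpr (by linarith)⟩

end Pool.Agent.Lib.MP_209724_lc.HS
end

section

namespace Pool.Agent.Lib.MP_209724_lc.HS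

open MvPolynomial Filter Topology Metric
open MV (lead evT glue)
open GC (evM)

private theorem etaB_two_le {R : ℝ} (hR : 0 ≤ R) : 2 ≤ Real.exp (R + 1) := by
  have h1 := Real.add_one_le_exp (R + 1)
  linarith

private theorem etaB_add {a b R : ℝ} (ha : 0 ≤ a) (hb : 0 ≤ b) (hR : 0 ≤ R) {u v : ℂ}
    (hu : ‖u‖ ≤ Real.exp (a * (R + 1))) (hv : ‖v‖ ≤ Real.exp (b * (R + 1))) :
    ‖u + v‖ ≤ Real.exp ((a + b + 1) * (R + 1)) := by
  have h1 : Real.exp (a * (R + 1)) ≤ Real.exp ((a + b) * (R + 1)) := by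
    apply Real.exp_le_exp.2
    nlinarith
  have h2 : Real.exp (b * (R + 1)) ≤ Real.exp ((a + b) * (R + 1)) := by
    apply Real.exp_le_exp.2
    nlinarith
  have h3 : (a + b + 1) * (R + 1) = (a + b) * (R + 1) + (R + 1) := by ring
  rw [h3, Real.exp_add]
  have h4 := etaB_two_le hR
  have h5 := norm_add_le u v
  have h6 := Real.exp_pos ((a + b) * (R + 1))
  nlinarith

/-- upper bound for a polynomial -/
private def EB {ι : Type} (f : Polynomial (MvPolynomial ι ℂ)) : Prop :=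
  ∃ a : ℝ, 0 ≤ a ∧ ∀ (x : ι → ℂ) (t : ℂ) (R : ℝ), 0 ≤ R → (∀ i, ‖x i‖ ≤ Real.exp R) →
    ‖t‖ ≤ Real.exp R → ‖evT x t f‖ ≤ Real.exp (a * (R + 1))

private theorem EB_add {ι : Type} {f g : Polynomial (MvPolynomial ι ℂ)} (hf : EB f) (hg : EB g) :
    EB (f + g) := by
  obtain ⟨a, ha, h1⟩ := hf
  obtain ⟨b, hb, h2⟩ := hg
  refine ⟨a + b + 1, by linarith, fun x t R hR hx ht => ?_⟩
  rw [map_add]
  exact etaB_add ha hb hR (h1 x t R hR hx ht) (h2 x t R hR hx ht)

private theorem EB_mul {ι : Type} {f g : Polynomial (MvPolynomial ι ℂ)} (hf : EB f) (hg : EB g) :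
    EB (f * g) := by
  obtain ⟨a, ha, h1⟩ := hf
  obtain ⟨b, hb, h2⟩ := hg
  refine ⟨a + b, by linarith, fun x t R hR hx ht => ?_⟩
  rw [map_mul, norm_mul, add_mul, Real.exp_add]
  exact mul_le_mul (h1 x t R hR hx ht) (h2 x t R hR hx ht) (norm_nonneg _) (Real.exp_pos _).le

private theorem EB_const {ι : Type} (c : ℂ) :
    EB (Polynomial.C (MvPolynomial.C c) : Polynomial (MvPolynomial ι ℂ)) := by
  refine ⟨‖c‖, norm_nonneg _, fun x t R hR hx ht => ?_⟩
  rw [MV.evT_C, MvPolynomial.aeval_C]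
  show ‖c‖ ≤ _
  have h1 := Real.add_one_le_exp (‖c‖ * (R + 1))
  have h2 : ‖c‖ ≤ ‖c‖ * (R + 1) := by
    have := norm_nonneg c
    nlinarith
  linarith

private theorem EB_X {ι : Type} : EB (Polynomial.X : Polynomial (MvPolynomial ι ℂ)) := by
  refine ⟨1, zero_le_one, fun x t R hR hx ht => ?_⟩
  rw [MV.evT_X]
  refine ht.trans (Real.exp_le_exp.2 ?_)
  linarith

private theorem EB_CX {ι : Type} (i : ι) :
    EB (Polynomial.C (MvPolynomial.X i) : Polynomial (MvPolynomial ι ℂ)) := by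
  refine ⟨1, zero_le_one, fun x t R hR hx ht => ?_⟩
  rw [MV.evT_C, MvPolynomial.aeval_X]
  refine (hx i).trans (Real.exp_le_exp.2 ?_)
  linarith

private theorem EB_C {ι : Type} (g : MvPolynomial ι ℂ) :
    EB (Polynomial.C g : Polynomial (MvPolynomial ι ℂ)) := by
  induction g using MvPolynomial.induction_on with
  | C c => exact EB_const c
  | add p q hp hq => rw [Polynomial.C_add]; exact EB_add hp hq
  | mul_X p i hp => rw [Polynomial.C_mul]; exact EB_mul hp (EB_CX i)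

/-- growth of `evT` in terms of `exp R` -/
theorem evT_growth {ι : Type} (f : Polynomial (MvPolynomial ι ℂ)) :
    ∃ a : ℝ, 0 ≤ a ∧ ∀ (x : ι → ℂ) (t : ℂ) (R : ℝ), 0 ≤ R → (∀ i, ‖x i‖ ≤ Real.exp R) →
      ‖t‖ ≤ Real.exp R → ‖evT x t f‖ ≤ Real.exp (a * (R + 1)) := by
  have h : EB f := by
    induction f using Polynomial.induction_on with
    | C g => exact EB_C g
    | add p q hp hq => exact EB_add hp hq
    | monomial n g hp =>
      rw [pow_succ, ← mul_assoc]
      exact EB_mul hp EB_X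
  exact h

/-- HS-25: bounds for algebraic functions of `(z, t)`. -/
theorem eta_bound {ι M : Type} [Fintype ι] [Field M] [Algebra ℂ M] (z : ι → M) (t y : M)
    (hzt : AlgebraicIndependent ℂ (fun o : Option ι => o.elim t z)) (hy : y ≠ 0)
    (h : IsAlgebraic (Algebra.adjoin ℂ (Set.range fun o : Option ι => o.elim t z)) y) :
    ∃ b : Polynomial (MvPolynomial ι ℂ), b ≠ 0 ∧ ∃ a : ℝ, 0 < a ∧
      ∀ (A : Subalgebra ℂ M) (hzA : ∀ i, z i ∈ A) (htA : t ∈ A) (hyA : y ∈ A)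
        (ψ : A →ₐ[ℂ] ℂ) (R : ℝ), 0 ≤ R → (∀ i, ‖ψ ⟨z i, hzA i⟩‖ ≤ Real.exp R) →
        ‖ψ ⟨t, htA⟩‖ ≤ Real.exp R → ψ ⟨y, hyA⟩ ≠ 0 →
        Real.exp (-R) ≤ ‖evT (fun i => ψ ⟨z i, hzA i⟩) (ψ ⟨t, htA⟩) b‖ →
        |Real.log ‖ψ ⟨y, hyA⟩‖| ≤ a * (R + 1) := by
  classical
  obtain ⟨T, G, hT, hG, hsum⟩ := exists_relation_evT z t y hzt h
  choose e he0 he using fun k => evT_growth (G k)
  obtain ⟨a₁, ha₁⟩ : ∃ a₁, a₁ = ∑ k ∈ T, e k := ⟨_, rfl⟩
  have ha₁0 : 0 ≤ a₁ := by rw [ha₁]; exact Finset.sum_nonneg fun k _ => he0 k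
  have hcard1 : (1 : ℝ) ≤ T.card := by exact_mod_cast Finset.card_pos.2 hT
  have hlogc : 0 ≤ Real.log T.card := Real.log_nonneg hcard1
  refine ⟨∏ k ∈ T, G k, Finset.prod_ne_zero_iff.2 hG, 2 * (1 + a₁) + Real.log T.card,
    by positivity, ?_⟩
  intro A hzA htA hyA ψ R hR hx ht hψy hlow
  -- the relation
  have hrelA : ∑ k ∈ T, evT (fun i => (⟨z i, hzA i⟩ : A)) ⟨t, htA⟩ (G k) *
      (⟨y, hyA⟩ : A) ^ k = 0 := by
    apply Subtype.val_injective
    show A.val _ = A.val 0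
    rw [map_sum, map_zero, ← hsum]
    refine Finset.sum_congr rfl fun k _ => ?_
    rw [map_mul, map_pow, MV.map_evT]
    rfl
  have hrel : ∑ k ∈ T, evT (fun i => ψ ⟨z i, hzA i⟩) (ψ ⟨t, htA⟩) (G k) *
      (ψ ⟨y, hyA⟩) ^ k = 0 := by
    have h1 := congrArg ψ hrelA
    rw [map_sum, map_zero] at h1
    rw [← h1]
    refine Finset.sum_congr rfl fun k _ => ?_
    rw [map_mul, map_pow, MV.map_evT]
  have hup : ∀ k ∈ T, ‖evT (fun i => ψ ⟨z i, hzA i⟩) (ψ ⟨t, htA⟩) (G k)‖ ≤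
      Real.exp (e k * (R + 1)) := fun k _ => he k _ _ R hR hx ht
  have hK := two_terms T hT (fun k => evT (fun i => ψ ⟨z i, hzA i⟩) (ψ ⟨t, htA⟩) (G k))
    (ψ ⟨y, hyA⟩) hψy ((1 + a₁) * (R + 1)) (by positivity) (fun k hk => ?_) hrel
  · refine hK.trans ?_
    have h1 : Real.log T.card ≤ Real.log T.card * (R + 1) := by nlinarith
    nlinarith
  · have hek : e k ≤ a₁ := by
      rw [ha₁]
      exact Finset.single_le_sum (f := e) (fun j _ => he0 j) hk
    constructor
    · rw [map_prod, norm_prod, ← Finset.mul_prod_erase T _ hk] at hlow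
      have h2 : ∏ j ∈ T.erase k, ‖evT (fun i => ψ ⟨z i, hzA i⟩) (ψ ⟨t, htA⟩) (G j)‖ ≤
          Real.exp (a₁ * (R + 1)) := by
        calc _ ≤ ∏ j ∈ T.erase k, Real.exp (e j * (R + 1)) :=
              Finset.prod_le_prod (fun j _ => norm_nonneg _)
                (fun j hj => hup j (Finset.mem_of_mem_erase hj))
          _ = Real.exp ((∑ j ∈ T.erase k, e j) * (R + 1)) := by
              rw [← Real.exp_sum, Finset.sum_mul]
          _ ≤ _ := by
              apply Real.exp_le_exp.2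
              apply mul_le_mul_of_nonneg_right _ (by linarith)
              rw [ha₁]
              exact Finset.sum_le_sum_of_subset_of_nonneg (Finset.erase_subset _ _)
                fun j _ _ => he0 j
      have h3 : Real.exp (-R) ≤ ‖evT (fun i => ψ ⟨z i, hzA i⟩) (ψ ⟨t, htA⟩) (G k)‖ *
          Real.exp (a₁ * (R + 1)) :=
        hlow.trans (mul_le_mul_of_nonneg_left h2 (norm_nonneg _))
      have h4 : Real.exp (-R) * Real.exp (-(a₁ * (R + 1))) ≤
          ‖evT (fun i => ψ ⟨z i, hzA i⟩) (ψ ⟨t, htA⟩) (G k)‖ := by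
        have h5 := mul_le_mul_of_nonneg_right h3 (Real.exp_pos (-(a₁ * (R + 1)))).le
        rw [mul_assoc, ← Real.exp_add (a₁ * (R + 1)), add_neg_cancel, Real.exp_zero,
          mul_one] at h5
        exact h5
      refine le_trans ?_ h4
      rw [← Real.exp_add]
      apply Real.exp_le_exp.2
      nlinarith
    · refine (hup k hk).trans (Real.exp_le_exp.2 ?_)
      apply mul_le_mul_of_nonneg_right _ (by linarith)
      linarith

end Pool.Agent.Lib.MP_209724_lc.HS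
end

section

namespace Pool.Agent.Lib.MP_209724_lc.HS

open MvPolynomial Filter Topology Metric
open MV (lead evT glue)
open GC (evM)

/-- the exponent is constant on a connected set -/
private lemma tame_const {E : Type} [TopologicalSpace E] {D : Set E} (hD : IsPreconnected D)
    {F τ : E → ℝ} (hF : ContinuousOn F D) {m K : ℝ} (hm : 0 < m) (_hK : 0 < K) {Θ : Finset ℚ}
    (hΘ : ∀ θ ∈ Θ, ∀ θ' ∈ Θ, θ ≠ θ' → 2 * m < |(θ : ℝ) - θ'|)
    (hτ : ∀ p ∈ D, K < m * τ p ∧ 0 < τ p)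
    (h : ∀ p ∈ D, ∃ θ ∈ Θ, |F p - θ| * τ p ≤ K) {p₀ : E} (hp₀ : p₀ ∈ D) :
    ∃ θ ∈ Θ, ∀ p ∈ D, |F p - θ| * τ p ≤ K := by
  have hlt : ∀ p ∈ D, ∀ θ : ℚ, |F p - θ| * τ p ≤ K → |F p - θ| < m := by
    intro p hp θ hθ
    obtain ⟨h1, h2⟩ := hτ p hp
    exact lt_of_mul_lt_mul_right (hθ.trans_lt h1) h2.le
  obtain ⟨θ₀, hθ₀, h₀⟩ := h p₀ hp₀
  have h₀m := abs_lt.1 (hlt p₀ hp₀ θ₀ h₀)
  -- values at distance exactly m from θ₀ are not attained
  have hno : ∀ p ∈ D, |F p - θ₀| ≠ m := by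
    intro p hp hpm
    obtain ⟨θ, hθ, hθp⟩ := h p hp
    have h1 := hlt p hp θ hθp
    by_cases he : θ = θ₀
    · subst he
      rw [hpm] at h1
      exact lt_irrefl _ h1
    · have h2 := hΘ θ hθ θ₀ hθ₀ he
      have h3 : |(θ : ℝ) - θ₀| ≤ |F p - θ| + |F p - θ₀| := by
        have := abs_sub (F p - θ₀) (F p - θ)
        have h4 : F p - θ₀ - (F p - θ) = (θ : ℝ) - θ₀ := by ring
        rw [h4] at this
        linarith
      linarith
  have hin : ∀ p ∈ D, |F p - θ₀| < m := by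
    intro p hp
    rw [abs_lt]
    constructor
    · by_contra hcon
      push Not at hcon
      have h1 := hD.intermediate_value hp hp₀ hF (show (θ₀ : ℝ) - m ∈ Set.Icc (F p) (F p₀) from
        ⟨by linarith, by linarith [h₀m.1]⟩)
      obtain ⟨q, hq, hqe⟩ := h1
      apply hno q hq
      rw [hqe]
      have : (θ₀ : ℝ) - m - θ₀ = -m := by ring
      rw [this, abs_neg, abs_of_pos hm]
    · by_contra hcon
      push Not at hcon
      have h1 := hD.intermediate_value hp₀ hp hF (show (θ₀ : ℝ) + m ∈ Set.Icc (F p₀) (F p) from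
        ⟨by linarith [h₀m.2], by linarith⟩)
      obtain ⟨q, hq, hqe⟩ := h1
      apply hno q hq
      rw [hqe]
      have : (θ₀ : ℝ) + m - θ₀ = m := by ring
      rw [this, abs_of_pos hm]
  refine ⟨θ₀, hθ₀, fun p hp => ?_⟩
  obtain ⟨θ, hθ, hθp⟩ := h p hp
  by_cases he : θ = θ₀
  · subst he
    exact hθp
  · exfalso
    have h1 := hlt p hp θ hθp
    have h2 := hΘ θ hθ θ₀ hθ₀ he
    have h3 : |(θ : ℝ) - θ₀| ≤ |F p - θ| + |F p - θ₀| := by
      have := abs_sub (F p - θ₀) (F p - θ)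
      have h4 : F p - θ₀ - (F p - θ) = (θ : ℝ) - θ₀ := by ring
      rw [h4] at this
      linarith
    linarith [hin p hp]

private lemma tame_gap (Θ : Finset ℚ) (K B : ℝ) (hK : 0 < K) : ∃ L : ℝ, B ≤ L ∧ 0 < L ∧
    ∀ θ ∈ Θ, ∀ θ' ∈ Θ, θ ≠ θ' → 2 * (K / L) < |(θ : ℝ) - θ'| := by
  classical
  set L : ℝ := |B| + 1 + ∑ q ∈ Θ ×ˢ Θ, 2 * K / |(q.1 : ℝ) - q.2| with hL
  have hs : 0 ≤ ∑ q ∈ Θ ×ˢ Θ, 2 * K / |(q.1 : ℝ) - q.2| :=
    Finset.sum_nonneg fun q _ => by positivity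
  have hLpos : 0 < L := by
    have := abs_nonneg B
    linarith
  refine ⟨L, by linarith [le_abs_self B], hLpos, ?_⟩
  intro θ hθ θ' hθ' hne
  have hd : 0 < |(θ : ℝ) - θ'| := abs_pos.2 (sub_ne_zero.2 (by exact_mod_cast hne))
  have h1 : 2 * K / |(θ : ℝ) - θ'| < L := by
    have h2 := Finset.single_le_sum (f := fun q : ℚ × ℚ => 2 * K / |(q.1 : ℝ) - q.2|)
      (fun q _ => by positivity) (Finset.mk_mem_product hθ hθ')
    simp only at h2
    have := abs_nonneg B
    linarith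
  rw [div_lt_iff₀ hd] at h1
  have h3 : 2 * (K / L) = 2 * K / L := by ring
  rw [h3, div_lt_iff₀ hLpos]
  linarith

/-- HS-20: growth exponent and logarithm of an algebraic function in a family. -/
theorem tame_family {ι M : Type} [Fintype ι] [Field M] [Algebra ℂ M] (z : ι → M)
    (hz : AlgebraicIndependent ℂ z) (A : Subalgebra ℂ M) (hzA : ∀ i, z i ∈ A)
    (halg : ∀ x ∈ A, IsAlgebraic (Algebra.adjoin ℂ (Set.range z)) x) (f : A) (hf : f ≠ 0) :
    ∃ c : MvPolynomial ι ℂ, c ≠ 0 ∧ ∀ w : ι → ℂ, eval w (lead c) ≠ 0 →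
      ∀ ε₀ : ℝ, 0 < ε₀ → ∀ (Λ₀ : ℝ) (Φ : (ι → ℂ) × ℂ → (A →ₐ[ℂ] ℂ)),
        IsFam z A hzA (Dil w ε₀ Λ₀) Φ →
        ∃ (ε₁ Λ₁ C : ℝ) (θ : ℚ) (g : (ι → ℂ) × ℂ → ℂ), 0 < ε₁ ∧ ε₁ ≤ ε₀ ∧ Λ₀ ≤ Λ₁ ∧
          DifferentiableOn ℂ g (Dil w ε₁ Λ₁) ∧ ∀ p ∈ Dil w ε₁ Λ₁,
            Complex.exp (g p) = Φ p f ∧ |(g p).re - θ * p.2.re| ≤ C ∧
            ∀ p' ∈ Dil w ε₁ Λ₁, p.2 = p'.2 → ‖g p - g p'‖ ≤ C * ‖p.1 - p'.1‖ := by
  classical
  obtain ⟨c, hc, Θ, hb⟩ := tame_bound z hz A hzA halg f hf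
  refine ⟨c, hc, ?_⟩
  intro w hw ε₀ hε₀ Λ₀ Φ hΦ
  obtain ⟨ε, hε, Λ, C, hbd⟩ := hb w hw
  set K : ℝ := |C| + 1 with hK
  have hK0 : 0 < K := by positivity
  have hCK : C ≤ K := by
    have := le_abs_self C
    linarith
  obtain ⟨L, hBL, hL0, hgap⟩ := tame_gap Θ K (max Λ Λ₀) hK0
  have hΛL : Λ ≤ L := (le_max_left _ _).trans hBL
  have hΛ₀L : Λ₀ ≤ L := (le_max_right _ _).trans hBL
  set δ : ℝ := min ε ε₀ with hδ
  have hδ0 : 0 < δ := lt_min hε hε₀
  set D : Set ((ι → ℂ) × ℂ) := Dil w δ L with hD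
  have hD1 : D ⊆ Dil w ε Λ := dil_mono (min_le_left _ _) hΛL
  have hD2 : D ⊆ Dil w ε₀ Λ₀ := dil_mono (min_le_right _ _) hΛ₀L
  have hval : ∀ p ∈ D, ∃ θ ∈ Θ, Real.exp (θ * p.2.re - C) ≤ ‖Φ p f‖ ∧
      ‖Φ p f‖ ≤ Real.exp (θ * p.2.re + C) :=
    fun p hp => hbd p (hD1 hp) (Φ p) (hΦ.1 p (hD2 hp))
  have hne : ∀ p ∈ D, Φ p f ≠ 0 := by
    intro p hp
    obtain ⟨θ, -, h1, -⟩ := hval p hp
    exact norm_pos_iff.1 ((Real.exp_pos _).trans_le h1)
  have hdiff : DifferentiableOn ℂ (fun p => Φ p f) D :=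
    ((hΦ.2 f).mono hD2).differentiableOn
  obtain ⟨g, hg, hge⟩ := MV.exists_log (isOpen_dil w δ L) (convex_dil w δ L) hdiff hne
  have hre : ∀ p ∈ D, 0 < p.2.re := fun p hp => hL0.trans hp.2
  have hgre : ∀ p ∈ D, ∃ θ ∈ Θ, |(g p).re / p.2.re - θ| * p.2.re ≤ K := by
    intro p hp
    obtain ⟨θ, hθ, h1, h2⟩ := hval p hp
    refine ⟨θ, hθ, ?_⟩
    have hp0 := hre p hp
    rw [← hge p hp, Complex.norm_exp, Real.exp_le_exp] at h1 h2
    have h3 : |(g p).re / p.2.re - θ| * p.2.re = |(g p).re - θ * p.2.re| := by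
      rw [← abs_of_pos hp0, ← abs_mul, abs_of_pos hp0]
      congr 1
      field_simp
    rw [h3, abs_le]
    constructor <;> linarith
  have hcont : ContinuousOn (fun p : (ι → ℂ) × ℂ => (g p).re / p.2.re) D := by
    refine ContinuousOn.div ?_ ?_ fun p hp => (hre p hp).ne'
    · exact Complex.continuous_re.comp_continuousOn hg.continuousOn
    · exact (Complex.continuous_re.comp continuous_snd).continuousOn
  have hp₀ : ((w, ((L + 1 : ℝ) : ℂ)) : (ι → ℂ) × ℂ) ∈ D := by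
    refine ⟨mem_ball_self hδ0, ?_⟩
    show L < ((L + 1 : ℝ) : ℂ).re
    rw [Complex.ofReal_re]
    linarith
  obtain ⟨θ, -, hθ⟩ := tame_const (convex_dil w δ L).isPreconnected hcont
    (m := K / L) (K := K) (τ := fun p => p.2.re) (by positivity) hK0 hgap
    (fun p hp => ⟨by
      have : L < p.2.re := hp.2
      rw [div_mul_eq_mul_div, lt_div_iff₀ hL0]
      exact mul_lt_mul_of_pos_left this hK0, hre p hp⟩) hgre hp₀
  have hθ' : ∀ p ∈ D, |(g p).re - θ * p.2.re| ≤ K := by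
    intro p hp
    have hp0 := hre p hp
    have h3 : |(g p).re / p.2.re - θ| * p.2.re = |(g p).re - θ * p.2.re| := by
      rw [← abs_of_pos hp0, ← abs_mul, abs_of_pos hp0]
      congr 1
      field_simp
    rw [← h3]
    exact hθ p hp
  have hsub : Dil w (δ / 2) L ⊆ D := dil_mono (by linarith) le_rfl
  refine ⟨δ / 2, L, max K (16 * K / δ), θ, g, by positivity,
    (by linarith [min_le_right ε ε₀]), hΛ₀L, hg.mono hsub, ?_⟩
  intro p hp
  refine ⟨hge p (hsub hp), (hθ' p (hsub hp)).trans (le_max_left _ _), ?_⟩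
  intro p' hp' hpp'
  obtain ⟨v, s⟩ := p
  obtain ⟨v', s'⟩ := p'
  simp only at hpp'
  subst hpp'
  have hmap : ∀ x ∈ ball w δ, ((x, s) : (ι → ℂ) × ℂ) ∈ D := fun x hx => ⟨hx, hp.2⟩
  have hG : DifferentiableOn ℂ (fun x : ι → ℂ => g (x, s) - θ * s) (ball w δ) := by
    apply DifferentiableOn.sub_const
    exact hg.comp (by fun_prop) hmap
  have h1 := bc_lip hδ0 hG (K := K) (by
    intro x hx
    have h2 := hθ' (x, s) (hmap x hx)
    simp only [Complex.sub_re]
    have h3 : ((θ : ℂ) * s).re = θ * s.re := by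
      have h4 : ((θ : ℚ) : ℂ) = (((θ : ℚ) : ℝ) : ℂ) := by push_cast; rfl
      rw [h4, Complex.re_ofReal_mul]
    rw [h3]
    exact h2) v hp.1 v' hp'.1
  have h2 : g (v, s) - g (v', s) = (g (v, s) - θ * s) - (g (v', s) - θ * s) := by ring
  show ‖g (v, s) - g (v', s)‖ ≤ _
  rw [h2]
  exact h1.trans (mul_le_mul_of_nonneg_right (le_max_right _ _) (norm_nonneg _))

end Pool.Agent.Lib.MP_209724_lc.HS
end

section

namespace Pool.Agent.Lib.MP_209724_lc.HS

open MvPolynomial Filter Topology Metric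
open MV (lead evT glue)
open GC (evM)

/-- HS-12: a sector avoiding finitely many arguments. -/
theorem exists_sector (J : ℕ) (y : Fin J → ℝ) : ∃ φ : ℝ, |φ| ≤ Real.pi ∧
    ∀ j, ∀ m : ℤ, 1 / ((J : ℝ) + 1) ≤ |φ - y j - 2 * Real.pi * m| := by
  classical
  by_contra hcon
  push Not at hcon
  have hpi := Real.pi_pos
  have hpi3 := Real.pi_gt_three
  have hJ : (0 : ℝ) < (J : ℝ) + 1 := by positivity
  -- the points
  let φ : Fin (J + 1) → ℝ := fun k => -Real.pi + 2 * Real.pi * k / ((J : ℝ) + 1)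
  have hφ : ∀ k, |φ k| ≤ Real.pi := by
    intro k
    have h1 : (k : ℝ) ≤ J := by
      have := k.2
      exact_mod_cast Nat.lt_succ_iff.1 this
    have h0 : (0 : ℝ) ≤ k := by positivity
    have h2 : 2 * Real.pi * k / ((J : ℝ) + 1) ≤ 2 * Real.pi := by
      rw [div_le_iff₀ hJ]
      nlinarith
    have h3 : 0 ≤ 2 * Real.pi * k / ((J : ℝ) + 1) := by positivity
    rw [abs_le]
    show -Real.pi ≤ -Real.pi + 2 * Real.pi * k / ((J : ℝ) + 1) ∧
      -Real.pi + 2 * Real.pi * k / ((J : ℝ) + 1) ≤ Real.pi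
    constructor <;> linarith
  have h := fun k => hcon (φ k) (hφ k)
  choose j m hjm using h
  obtain ⟨k, k', hne, heq⟩ := Fintype.exists_ne_map_eq_of_card_lt j (by simp)
  have h1 := hjm k
  have h2 := hjm k'
  rw [← heq] at h2
  have h3 : |φ k - φ k' - 2 * Real.pi * ((m k : ℝ) - m k')| < 2 / ((J : ℝ) + 1) := by
    have e : φ k - φ k' - 2 * Real.pi * ((m k : ℝ) - m k') =
        (φ k - y (j k) - 2 * Real.pi * m k) - (φ k' - y (j k) - 2 * Real.pi * m k') := by ring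
    rw [e]
    refine (abs_sub _ _).trans_lt ?_
    have : 2 / ((J : ℝ) + 1) = 1 / ((J : ℝ) + 1) + 1 / ((J : ℝ) + 1) := by ring
    rw [this]
    exact add_lt_add h1 h2
  have h4 : φ k - φ k' - 2 * Real.pi * ((m k : ℝ) - m k') =
      2 * Real.pi / ((J : ℝ) + 1) * (((k : ℤ) - (k' : ℤ) - (m k - m k') * ((J : ℤ) + 1) : ℤ) : ℝ) := by
    show (-Real.pi + 2 * Real.pi * k / ((J : ℝ) + 1)) - (-Real.pi + 2 * Real.pi * k' / ((J : ℝ) + 1))
      - 2 * Real.pi * ((m k : ℝ) - m k') = _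
    push_cast
    field_simp
    ring
  have h5 : ((k : ℤ) - (k' : ℤ) - (m k - m k') * ((J : ℤ) + 1) : ℤ) ≠ 0 := by
    intro h0
    have hk := k.2
    have hk' := k'.2
    have hkk : (k : ℤ) ≠ (k' : ℤ) := by
      intro h6
      apply hne
      apply Fin.ext
      exact_mod_cast h6
    have h7 : (k : ℤ) - (k' : ℤ) = (m k - m k') * ((J : ℤ) + 1) := by linarith
    have h8 : m k - m k' = 0 := by
      by_contra h9
      have hd : ((J : ℤ) + 1) ∣ (k : ℤ) - (k' : ℤ) := ⟨m k - m k', by rw [h7]; ring⟩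
      have h10 := Int.le_of_dvd (a := ((J : ℤ) + 1)) (b := |(k : ℤ) - (k' : ℤ)|)
        (abs_pos.2 (sub_ne_zero.2 hkk)) ((dvd_abs _ _).2 hd)
      have h11 : |(k : ℤ) - (k' : ℤ)| ≤ J := by
        rw [abs_le]
        constructor <;> omega
      omega
    rw [h8, zero_mul] at h7
    exact hkk (by linarith)
  have h6 : (1 : ℝ) ≤ |(((k : ℤ) - (k' : ℤ) - (m k - m k') * ((J : ℤ) + 1) : ℤ) : ℝ)| := by
    have := Int.one_le_abs h5
    exact_mod_cast this
  rw [h4, abs_mul, abs_of_pos (by positivity)] at h3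
  have h7 : 2 * Real.pi / ((J : ℝ) + 1) * 1 ≤ 2 * Real.pi / ((J : ℝ) + 1) *
      |(((k : ℤ) - (k' : ℤ) - (m k - m k') * ((J : ℤ) + 1) : ℤ) : ℝ)| :=
    mul_le_mul_of_nonneg_left h6 (by positivity)
  have h8 : 2 / ((J : ℝ) + 1) ≤ 2 * Real.pi / ((J : ℝ) + 1) * 1 := by
    rw [mul_one]
    apply div_le_div_of_nonneg_right _ hJ.le
    linarith
  linarith

end Pool.Agent.Lib.MP_209724_lc.HS
end
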