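import Mathlib
import Pool.Agent.Lib.MP_209724_lc.SC.Ed3
import Pool.Agent.Lib.MP_209724_lc.HS.Sector
import Pool.Agent.Lib.MP_209724_lc.SC.FF1
import Pool.Agent.Lib.MP_209724_lc.HS.Branch
import Pool.Agent.Lib.MP_209724_lc.SC.Ed10
import Pool.Agent.Lib.MP_209724_lc.MV.CoreA
import Pool.Agent.Lib.MP_209724_lc.SC.Sp0
import Pool.Agent.Lib.MP_209724_lc.MV.HurwitzMulti

section

namespace Pool.Agent.Lib.MP_209724_lc.HS

open MvPolynomial Filter Topology Metric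
open MV (lead evT glue)
open GC (evM)

theorem eval_smul_lead {σ : Type*} (P : MvPolynomial σ ℂ) (s : ℂ) (x : σ → ℂ) :
    eval (fun i => s * x i) (lead P) = s ^ P.totalDegree * eval x (lead P) :=
  MV.asym_eval_mul (homogeneousComponent_isHomogeneous _ _) s x

theorem eval_smul_lead_ne {σ : Type*} (P : MvPolynomial σ ℂ) {s : ℂ} (hs : s ≠ 0) (x : σ → ℂ)
    (h : eval x (lead P) ≠ 0) : eval (fun i => s * x i) (lead P) ≠ 0 := by
  rw [eval_smul_lead]
  exact mul_ne_zero (pow_ne_zero _ hs) h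

/-- the cofactor does not vanish at a multiple -/
theorem eval_smul_cofactor_ne {n : ℕ} (P q r : MvPolynomial (Fin n) ℂ) {e d : ℕ}
    (hfac : lead P = q ^ e * r) (hqd : q.IsHomogeneous d) (hq0 : q ≠ 0) {s : ℂ} (hs : s ≠ 0)
    (x : Fin n → ℂ) (hr : eval x r ≠ 0) : eval (fun i => s * x i) r ≠ 0 := by
  set sub : MvPolynomial (Fin n) ℂ →ₐ[ℂ] MvPolynomial (Fin n) ℂ := aeval (fun i => C s * X i)
    with hsub
  have hev : ∀ (p : MvPolynomial (Fin n) ℂ) (y : Fin n → ℂ),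
      eval y (sub p) = eval (fun i => s * y i) p := by
    intro p y
    have h : ((eval y).comp (sub : MvPolynomial (Fin n) ℂ →+* _)) = eval (fun i => s * y i) := by
      apply MvPolynomial.ringHom_ext
      · intro c
        simp [hsub]
      · intro i
        simp [hsub]
    exact congrArg (fun g => g p) h
  have h1 : q ^ e * (C (s ^ (d * e)) * sub r) = q ^ e * (C (s ^ P.totalDegree) * r) := by
    apply MvPolynomial.funext
    intro y
    have h2 := eval_smul_lead P s y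
    rw [hfac] at h2
    rw [map_mul, map_mul, map_pow, map_pow, MV.asym_eval_mul hqd] at h2
    simp only [map_mul, map_pow, eval_C, hev]
    rw [pow_mul]
    linear_combination h2
  have h2 := mul_left_cancel₀ (pow_ne_zero e hq0) h1
  have h3 := congrArg (eval x) h2
  rw [map_mul, map_mul, eval_C, eval_C, hev] at h3
  intro h4
  rw [h4, mul_zero] at h3
  exact (mul_ne_zero (pow_ne_zero _ hs) hr) h3.symm

theorem two_pi_I_ne : (2 * Real.pi * Complex.I : ℂ) ≠ 0 := Complex.two_pi_I_ne_zero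

theorem ipt_eq {ι : Type*} (β : ι → ℝ) :
    ipt β = fun i => (2 * Real.pi * Complex.I : ℂ) * (β i : ℂ) := rfl

end Pool.Agent.Lib.MP_209724_lc.HS
end

section

namespace Pool.Agent.Lib.MP_209724_lc.HS

open MvPolynomial Filter Topology Metric
open MV (lead evT glue evT_C evT_X)
open GC (evM)

private def UpB {ι : Type} [Fintype ι] (g : (ι → ℂ) → ℂ → ℂ) : Prop :=
  ∃ a : ℝ, 0 < a ∧ ∀ (x : ι → ℂ) (t : ℂ) (R : ℝ), 0 ≤ R → (∀ i, ‖x i‖ ≤ Real.exp R) →
      ‖t‖ ≤ Real.exp R → ‖g x t‖ ≤ Real.exp (a * (R + 1))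

private theorem UpB.add {ι : Type} [Fintype ι] {g h : (ι → ℂ) → ℂ → ℂ} (hg : UpB g)
    (hh : UpB h) : UpB (fun x t => g x t + h x t) := by
  obtain ⟨a, ha, h₁⟩ := hg
  obtain ⟨a', ha', h₂⟩ := hh
  refine ⟨a + a' + 1, by positivity, fun x t R hR hx ht => ?_⟩
  have e1 := h₁ x t R hR hx ht
  have e2 := h₂ x t R hR hx ht
  have e3 : Real.exp (a * (R + 1)) ≤ Real.exp ((a + a') * (R + 1)) :=
    Real.exp_le_exp.2 (by nlinarith)
  have e4 : Real.exp (a' * (R + 1)) ≤ Real.exp ((a + a') * (R + 1)) :=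
    Real.exp_le_exp.2 (by nlinarith)
  have e5 : (2 : ℝ) ≤ Real.exp (R + 1) := by
    have := Real.add_one_le_exp (R + 1)
    linarith
  have e6 : Real.exp ((a + a' + 1) * (R + 1)) = Real.exp ((a + a') * (R + 1)) * Real.exp (R + 1) := by
    rw [← Real.exp_add]; congr 1; ring
  have e7 := Real.exp_pos ((a + a') * (R + 1))
  rw [e6]
  calc ‖g x t + h x t‖ ≤ ‖g x t‖ + ‖h x t‖ := norm_add_le _ _
    _ ≤ Real.exp ((a + a') * (R + 1)) + Real.exp ((a + a') * (R + 1)) := by linarith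
    _ = Real.exp ((a + a') * (R + 1)) * 2 := by ring
    _ ≤ Real.exp ((a + a') * (R + 1)) * Real.exp (R + 1) := by gcongr

private theorem UpB.mul {ι : Type} [Fintype ι] {g h : (ι → ℂ) → ℂ → ℂ} (hg : UpB g)
    (hh : UpB h) : UpB (fun x t => g x t * h x t) := by
  obtain ⟨a, ha, h₁⟩ := hg
  obtain ⟨a', ha', h₂⟩ := hh
  refine ⟨a + a', by positivity, fun x t R hR hx ht => ?_⟩
  rw [norm_mul, add_mul, Real.exp_add]
  exact mul_le_mul (h₁ x t R hR hx ht) (h₂ x t R hR hx ht) (norm_nonneg _) (by positivity)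

private theorem UpB.const {ι : Type} [Fintype ι] (c : ℂ) :
    UpB (ι := ι) (fun _ _ => c) := by
  refine ⟨‖c‖ + 1, by positivity, fun x t R hR hx ht => ?_⟩
  have h1 := Real.add_one_le_exp ((‖c‖ + 1) * (R + 1))
  have h2 := norm_nonneg c
  nlinarith

private theorem UpB.coord {ι : Type} [Fintype ι] (i : ι) :
    UpB (ι := ι) (fun x _ => x i) := by
  refine ⟨1, one_pos, fun x t R hR hx ht => ?_⟩
  exact (hx i).trans (Real.exp_le_exp.2 (by linarith))

private theorem UpB.var {ι : Type} [Fintype ι] :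
    UpB (ι := ι) (fun _ t => t) := by
  refine ⟨1, one_pos, fun x t R hR hx ht => ?_⟩
  exact ht.trans (Real.exp_le_exp.2 (by linarith))

private theorem UpB.aeval {ι : Type} [Fintype ι] (c : MvPolynomial ι ℂ) :
    UpB (fun x _ => MvPolynomial.aeval x c) := by
  induction c using MvPolynomial.induction_on with
  | C a => simpa using UpB.const (ι := ι) a
  | add p q hp hq => simpa using hp.add hq
  | mul_X p i hp => simpa using hp.mul (UpB.coord i)

private theorem UpB.evT {ι : Type} [Fintype ι] (a : Polynomial (MvPolynomial ι ℂ)) :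
    UpB (fun x t => MV.evT x t a) := by
  induction a using Polynomial.induction_on with
  | C a => simpa only [evT_C] using UpB.aeval a
  | add p q hp hq => simpa only [map_add] using hp.add hq
  | monomial n a h =>
    have h2 := h.mul (UpB.var (ι := ι))
    simp only [map_mul, map_pow, evT_X] at h2 ⊢
    simpa only [pow_succ, mul_assoc] using h2

/-- HS-39a: upper bound. -/
theorem evT_upper {ι : Type} [Fintype ι] (f : Polynomial (MvPolynomial ι ℂ)) :
    ∃ a : ℝ, 0 < a ∧ ∀ (x : ι → ℂ) (t : ℂ) (R : ℝ), 0 ≤ R → (∀ i, ‖x i‖ ≤ Real.exp R) →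
      ‖t‖ ≤ Real.exp R → ‖evT x t f‖ ≤ Real.exp (a * (R + 1)) :=
  UpB.evT f

/-- HS-39b: bounds for all the `η i`. -/
theorem eta_bounds {n : ℕ} {ι M : Type} [Fintype ι] [Field M] [Algebra ℂ M] (z : ι → M) (t : M)
    (η : Fin n → M) (hzt : AlgebraicIndependent ℂ (fun o : Option ι => o.elim t z))
    (hη : ∀ i, η i ≠ 0)
    (h : ∀ i, IsAlgebraic (Algebra.adjoin ℂ (Set.range fun o : Option ι => o.elim t z)) (η i))
    (b₀ : Polynomial (MvPolynomial ι ℂ)) (hb₀ : b₀ ≠ 0) :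
    ∃ b : Polynomial (MvPolynomial ι ℂ), b ≠ 0 ∧ b₀ ∣ b ∧ ∃ a : ℝ, 0 < a ∧
      ∀ (A : Subalgebra ℂ M) (hzA : ∀ i, z i ∈ A) (htA : t ∈ A) (hηA : ∀ i, η i ∈ A)
        (_ : ∀ i, (η i)⁻¹ ∈ A) (ψ : A →ₐ[ℂ] ℂ) (R : ℝ), 0 ≤ R →
        (∀ i, ‖ψ ⟨z i, hzA i⟩‖ ≤ Real.exp R) → ‖ψ ⟨t, htA⟩‖ ≤ Real.exp R →
        Real.exp (-R) ≤ ‖evT (fun i => ψ ⟨z i, hzA i⟩) (ψ ⟨t, htA⟩) b‖ →
        ∀ i, ψ ⟨η i, hηA i⟩ ≠ 0 ∧ |Real.log ‖ψ ⟨η i, hηA i⟩‖| ≤ a * (R + 1) := by
  classical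
  choose b hb a ha H using fun i => eta_bound z t (η i) hzt (hη i) (h i)
  choose a' ha' H' using fun i : Fin n => evT_upper (b₀ * ∏ j ∈ Finset.univ.erase i, b j)
  have hnn : ∀ i, 0 ≤ a i * (1 + a' i) := fun i =>
    mul_nonneg (ha i).le (by linarith [ha' i])
  refine ⟨b₀ * ∏ j, b j, mul_ne_zero hb₀ (Finset.prod_ne_zero_iff.2 fun i _ => hb i),
    Dvd.intro _ rfl, 1 + ∑ i, a i * (1 + a' i),
    by have := Finset.sum_nonneg fun i (_ : i ∈ Finset.univ) => hnn i; linarith, ?_⟩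
  intro A hzA htA hηA hηA' ψ R hR hz ht hlow i
  have hne : ψ ⟨η i, hηA i⟩ ≠ 0 := by
    intro h0
    have h1 : (⟨η i, hηA i⟩ : A) * ⟨(η i)⁻¹, hηA' i⟩ = 1 := Subtype.ext (mul_inv_cancel₀ (hη i))
    have h2 := congrArg ψ h1
    rw [map_mul, h0, zero_mul, map_one] at h2
    exact zero_ne_one h2
  refine ⟨hne, ?_⟩
  have hsplit : b₀ * ∏ j, b j = b i * (b₀ * ∏ j ∈ Finset.univ.erase i, b j) := by
    rw [← Finset.mul_prod_erase Finset.univ b (Finset.mem_univ i)]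
    ring
  rw [hsplit, map_mul, norm_mul] at hlow
  have hup := H' i (fun i => ψ ⟨z i, hzA i⟩) (ψ ⟨t, htA⟩) R hR hz ht
  set E := ‖evT (fun i => ψ ⟨z i, hzA i⟩) (ψ ⟨t, htA⟩) (b i)‖ with hE
  set R' : ℝ := R + a' i * (R + 1) with hR'
  have hRR' : R ≤ R' := by
    have := ha' i
    have : 0 ≤ a' i * (R + 1) := by positivity
    linarith
  have hlow' : Real.exp (-R') ≤ E := by
    have h1 : Real.exp (-R) ≤ E * Real.exp (a' i * (R + 1)) :=
      hlow.trans (mul_le_mul_of_nonneg_left hup (norm_nonneg _))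
    have h2 : Real.exp (-R') = Real.exp (-R) * Real.exp (-(a' i * (R + 1))) := by
      rw [← Real.exp_add]; congr 1; rw [hR']; ring
    rw [h2]
    calc Real.exp (-R) * Real.exp (-(a' i * (R + 1)))
        ≤ (E * Real.exp (a' i * (R + 1))) * Real.exp (-(a' i * (R + 1))) := by gcongr
      _ = E := by rw [mul_assoc, ← Real.exp_add, add_neg_cancel, Real.exp_zero, mul_one]
  have h3 := H i A hzA htA (hηA i) ψ R' (hR.trans hRR')
    (fun j => (hz j).trans (Real.exp_le_exp.2 hRR')) (ht.trans (Real.exp_le_exp.2 hRR')) hne hlow'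
  refine h3.trans ?_
  have h4 : a i * (R' + 1) = (a i * (1 + a' i)) * (R + 1) := by rw [hR']; ring
  rw [h4]
  have h5 : a i * (1 + a' i) ≤ ∑ i, a i * (1 + a' i) :=
    Finset.single_le_sum (f := fun i => a i * (1 + a' i)) (fun j _ => hnn j) (Finset.mem_univ i)
  exact mul_le_mul_of_nonneg_right (by linarith) (by linarith)

end Pool.Agent.Lib.MP_209724_lc.HS
end

section

namespace Pool.Agent.Lib.MP_209724_lc.HS

open MvPolynomial Filter Topology Metric
open MV (lead evT glue)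
open GC (evM)

/-- HS-18: families of homomorphisms along dilations. -/
theorem exists_dilation {ι M : Type} [Fintype ι] [Field M] [Algebra ℂ M] (z : ι → M)
    (hz : AlgebraicIndependent ℂ z) (A : Subalgebra ℂ M) (hA : A.FG) (hzA : ∀ i, z i ∈ A)
    (halg : ∀ x ∈ A, IsAlgebraic (Algebra.adjoin ℂ (Set.range z)) x) :
    ∃ c : MvPolynomial ι ℂ, c ≠ 0 ∧ ∀ w : ι → ℂ, eval w (lead c) ≠ 0 →
      ∃ ε : ℝ, 0 < ε ∧ ∃ Λ : ℝ, ∀ p₀ ∈ Dil w ε Λ, ∀ φ₀ : A →ₐ[ℂ] ℂ,
        (∀ i, φ₀ ⟨z i, hzA i⟩ = Complex.exp p₀.2 * p₀.1 i) →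
        ∃ Φ : (ι → ℂ) × ℂ → (A →ₐ[ℂ] ℂ), Φ p₀ = φ₀ ∧ IsFam z A hzA (Dil w ε Λ) Φ := by
  obtain ⟨c, hc, hsh⟩ := exists_sheets z hz A hA hzA halg
  refine ⟨c, hc, fun w hw => ?_⟩
  obtain ⟨ε, Λ, C, hε, hC, hb⟩ := eval_dil c w hw
  refine ⟨ε, hε, Λ, fun p₀ hp₀ φ₀ hφ₀ => ?_⟩
  obtain ⟨Φ, h1, h2, h3⟩ := hsh ((ι → ℂ) × ℂ) (Dil w ε Λ) (isOpen_dil w ε Λ) (convex_dil w ε Λ)
    (fun p i => Complex.exp p.2 * p.1 i) (fun i => by
      intro p _
      have a1 : AnalyticAt ℂ (fun p : (ι → ℂ) × ℂ => Complex.exp p.2) p := analyticAt_snd.cexp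
      have a2 : AnalyticAt ℂ (fun p : (ι → ℂ) × ℂ => p.1 i) p :=
        ((ContinuousLinearMap.proj (R := ℂ) (φ := fun _ : ι => ℂ) i).comp
          (ContinuousLinearMap.fst ℂ (ι → ℂ) ℂ)).analyticAt p
      exact a1.mul a2)
    (fun p hp => by
      have hp' := mem_dil.mp hp
      have := (hb p.2 hp'.2 p.1 hp'.1).1
      rw [← norm_pos_iff]
      exact lt_of_lt_of_le (by positivity) this)
    p₀ hp₀ φ₀ hφ₀
  exact ⟨Φ, h1, h2, h3⟩

end Pool.Agent.Lib.MP_209724_lc.HS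
end

section

namespace Pool.Agent.Lib.MP_209724_lc.HS

open MvPolynomial Filter Topology Metric
open MV (lead evT glue)
open GC (evM)

/-- A diagonal argument. -/
private theorem bf_diag (Q : ℕ → ℝ → Prop) (hmono : ∀ t ε ε', Q t ε → ε ≤ ε' → Q t ε')
    (h : ∀ ε : ℝ, 0 < ε → ∀ᶠ t in atTop, Q t ε) :
    ∃ δ : ℕ → ℝ, Tendsto δ atTop (𝓝 0) ∧ ∀ᶠ t in atTop, Q t (δ t) := by
  have hbdd : ∀ t, BddBelow {ε : ℝ | 0 < ε ∧ Q t ε} := fun t => ⟨0, fun ε hε => hε.1.le⟩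
  have hnn : ∀ t, 0 ≤ sInf {ε : ℝ | 0 < ε ∧ Q t ε} := fun t =>
    Real.sInf_nonneg fun ε hε => hε.1.le
  refine ⟨fun t => sInf {ε : ℝ | 0 < ε ∧ Q t ε} + 1 / ((t : ℝ) + 1), ?_, ?_⟩
  · rw [Metric.tendsto_atTop]
    intro η hη
    have h1 := h (η / 2) (by positivity)
    have h2 : ∀ᶠ t : ℕ in atTop, 1 / ((t : ℝ) + 1) < η / 2 :=
      (tendsto_one_div_add_atTop_nhds_zero_nat (𝕜 := ℝ)).eventually_lt_const (by positivity)
    obtain ⟨T, hT⟩ := (h1.and h2).exists_forall_of_atTop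
    refine ⟨T, fun t ht => ?_⟩
    obtain ⟨h3, h4⟩ := hT t ht
    have h5 : sInf {ε : ℝ | 0 < ε ∧ Q t ε} ≤ η / 2 := csInf_le (hbdd t) ⟨by positivity, h3⟩
    have h6 : (0 : ℝ) < 1 / ((t : ℝ) + 1) := by positivity
    have h7 := hnn t
    rw [Real.dist_eq, sub_zero, abs_of_nonneg (by linarith)]
    linarith
  · filter_upwards [h 1 one_pos] with t ht
    have hne : {ε : ℝ | 0 < ε ∧ Q t ε}.Nonempty := ⟨1, one_pos, ht⟩
    have h6 : (0 : ℝ) < 1 / ((t : ℝ) + 1) := by positivity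
    obtain ⟨ε, hε, hlt⟩ := exists_lt_of_csInf_lt hne
      (lt_add_of_pos_right (sInf {ε : ℝ | 0 < ε ∧ Q t ε}) h6)
    exact hmono t ε _ hε.2 hlt.le

private theorem bf_glue {n : ℕ} (l : Fin n) {N : ℂ} (hN : N ≠ 0)
    (x : {j : Fin n // j ≠ l} → ℂ) (y : ℂ) :
    (fun i => N * glue l (N⁻¹ • x) (y / N) i) = glue l x y := by
  funext i
  by_cases h : i = l
  · subst h
    rw [MV.glue_self, MV.glue_self, mul_div_cancel₀ _ hN]
  · have h1 := MV.glue_of_ne l (N⁻¹ • x) (y / N) ⟨i, h⟩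
    have h2 := MV.glue_of_ne l x y ⟨i, h⟩
    simp only at h1 h2
    rw [h1, h2, Pi.smul_apply, smul_eq_mul, mul_inv_cancel_left₀ hN]

/-- HS-41: the branch of the hypersurface over a large ball with centre `2πi m₀`. -/
theorem branch_family {n : ℕ} (P q r : MvPolynomial (Fin n) ℂ) {e d : ℕ} (he : 0 < e)
    (hfac : lead P = q ^ e * r) (hqd : q.IsHomogeneous d) (l : Fin n) (b : Fin n → ℝ)
    (hq : eval (fun i => (b i : ℂ)) q = 0) (hl : eval (fun i => (b i : ℂ)) (pderiv l q) ≠ 0)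
    (hr : eval (fun i => (b i : ℂ)) r ≠ 0) (c : Fin n → ℝ)
    (hc : ∀ j, (c j : ℂ) * eval (fun i => (b i : ℂ)) (pderiv l q) =
      -eval (fun i => (b i : ℂ)) (pderiv j q))
    (m₀ : ℕ → {j : Fin n // j ≠ l} → ℤ)
    (hm₀ : ∀ t j, |(m₀ t j : ℝ) - (t : ℝ) ^ (3 * e) * b j| ≤ 1) :
    ∃ (C : ℝ) (δ : ℕ → ℝ), Tendsto δ atTop (𝓝 0) ∧ ∀ᶠ t : ℕ in atTop, ∃ y₀ : ℂ,
      eval (glue l (ipt fun j => (m₀ t j : ℝ)) y₀) P = 0 ∧
      ∀ Y : ({j : Fin n // j ≠ l} → ℂ) → ℂ,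
        DifferentiableOn ℂ Y (ball (ipt fun j => (m₀ t j : ℝ)) (2 * ((t : ℝ) ^ (3 * e) / t))) →
        Y (ipt fun j => (m₀ t j : ℝ)) = y₀ →
        (∀ x ∈ ball (ipt fun j => (m₀ t j : ℝ)) (2 * ((t : ℝ) ^ (3 * e) / t)),
          eval (glue l x (Y x)) P = 0) →
        (∀ x ∈ ball (ipt fun j => (m₀ t j : ℝ)) (2 * ((t : ℝ) ^ (3 * e) / t)),
          ‖Y x‖ ≤ C * (t : ℝ) ^ (3 * e)) ∧
        (∀ x ∈ ball (ipt fun j => (m₀ t j : ℝ)) ((t : ℝ) ^ (3 * e) / t),
          ∀ x' ∈ ball (ipt fun j => (m₀ t j : ℝ)) ((t : ℝ) ^ (3 * e) / t),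
          ‖Y x - Y x' - ∑ j : {j : Fin n // j ≠ l}, (c j : ℂ) * (x j - x' j)‖ ≤
            δ t * ‖x - x'‖) ∧
        |(Y (ipt fun j => (m₀ t j : ℝ))).re| ≤ δ t * ((t : ℝ) ^ (3 * e) / t ^ 2) := by
  classical
  set κ : ℂ := 2 * Real.pi * Complex.I with hκ
  have hκ0 : κ ≠ 0 := Complex.two_pi_I_ne_zero
  have hκn : ‖κ‖ = 2 * Real.pi := by
    rw [hκ, norm_mul, norm_mul, Complex.norm_I, Complex.norm_real, Complex.norm_ofNat, mul_one,
      Real.norm_of_nonneg Real.pi_pos.le]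
  set W : Fin n → ℂ := fun i => κ * (b i : ℂ) with hW
  have hq0 : q ≠ 0 := by
    rintro rfl
    apply hl
    rw [map_zero, map_zero]
  have hpd : ∀ j, eval W (pderiv j q) = κ ^ (d - 1) * eval (fun i => (b i : ℂ)) (pderiv j q) :=
    fun j => MV.asym_eval_mul hqd.pderiv κ (fun i => (b i : ℂ))
  have hqW : eval W q = 0 := by
    rw [hW, MV.asym_eval_mul hqd κ (fun i => (b i : ℂ)), hq, mul_zero]
  have hlW : eval W (pderiv l q) ≠ 0 := by
    rw [hpd]
    exact mul_ne_zero (pow_ne_zero _ hκ0) hl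
  have hrW : eval W r ≠ 0 := eval_smul_cofactor_ne P q r hfac hqd hq0 hκ0 _ hr
  obtain ⟨h, h', ρb, r₁, Cb, N₀, hρb, hr₁, hN₀, hstr, hder, hhd, hhw, hh1, hh2⟩ :=
    exists_branch P q r he hfac l W hqW hlW hrW
  have hcj : ∀ j : {j : Fin n // j ≠ l}, h' (Pi.single j 1) = (c j : ℂ) := by
    intro j
    have h1 := hder j
    rw [hpd, hpd] at h1
    have h2 := hc j
    have h3 : κ ^ (d - 1) * eval (fun i => (b i : ℂ)) (pderiv l q) ≠ 0 :=
      mul_ne_zero (pow_ne_zero _ hκ0) hl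
    apply mul_right_cancel₀ h3
    rw [h1]
    linear_combination (-κ ^ (d - 1)) * h2
  have hsum : ∀ v : {j : Fin n // j ≠ l} → ℂ,
      h' v = ∑ j : {j : Fin n // j ≠ l}, (c j : ℂ) * v j := by
    intro v
    conv_lhs => rw [pi_eq_sum_univ' v]
    rw [map_sum]
    refine Finset.sum_congr rfl fun j _ => ?_
    rw [map_smul, smul_eq_mul, mul_comm, ← hcj j]
  set w : {j : Fin n // j ≠ l} → ℂ := fun j => W j with hw
  set X₀ : ℕ → {j : Fin n // j ≠ l} → ℂ := fun t => ipt fun j => (m₀ t j : ℝ) with hX₀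
  set NN : ℕ → ℝ := fun t => (t : ℝ) ^ (3 * e) with hNN
  have hNt : Tendsto NN atTop atTop :=
    (tendsto_pow_atTop (by omega)).comp tendsto_natCast_atTop_atTop
  have hXw : ∀ t, ‖X₀ t - (NN t : ℂ) • w‖ ≤ 2 * Real.pi := by
    intro t
    rw [pi_norm_le_iff_of_nonneg (by positivity)]
    intro j
    have h1 : (X₀ t - (NN t : ℂ) • w) j = κ * (((m₀ t j : ℝ) - NN t * b j : ℝ) : ℂ) := by
      simp only [hX₀, hw, hW, ipt, Pi.sub_apply, Pi.smul_apply, smul_eq_mul]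
      push_cast
      ring
    rw [h1, norm_mul, hκn, Complex.norm_real, Real.norm_eq_abs]
    have h2 := hm₀ t j
    have h3 := Real.pi_pos
    calc 2 * Real.pi * |(m₀ t j : ℝ) - NN t * b j| ≤ 2 * Real.pi * 1 :=
          mul_le_mul_of_nonneg_left h2 (by positivity)
      _ = 2 * Real.pi := mul_one _
  have hball : ∀ t : ℕ, 0 < NN t → ∀ s : ℝ, ∀ x ∈ ball (X₀ t) (s * NN t),
      ((NN t : ℂ)⁻¹ • x) ∈ ball w (2 * Real.pi / NN t + s) := by
    intro t hN s x hx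
    have hNc : (NN t : ℂ) ≠ 0 := by exact_mod_cast hN.ne'
    rw [mem_ball, dist_eq_norm] at hx ⊢
    have h1 : (NN t : ℂ)⁻¹ • x - w = (NN t : ℂ)⁻¹ • ((x - X₀ t) + (X₀ t - (NN t : ℂ) • w)) := by
      rw [sub_add_sub_cancel, smul_sub, smul_smul, inv_mul_cancel₀ hNc, one_smul]
    rw [h1, norm_smul, norm_inv, Complex.norm_real, Real.norm_of_nonneg hN.le]
    have h2 := norm_add_le (x - X₀ t) (X₀ t - (NN t : ℂ) • w)
    have h3 := hXw t
    have h4 : ‖x - X₀ t + (X₀ t - (NN t : ℂ) • w)‖ < s * NN t + 2 * Real.pi := by linarith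
    calc (NN t)⁻¹ * ‖x - X₀ t + (X₀ t - (NN t : ℂ) • w)‖
        < (NN t)⁻¹ * (s * NN t + 2 * Real.pi) := mul_lt_mul_of_pos_left h4 (inv_pos.2 hN)
      _ = 2 * Real.pi / NN t + s := by
          field_simp
          ring
  -- the starting value
  have hz : ∀ t, ∃ z : ℂ, N₀ ≤ NN t → 0 < NN t → ((NN t : ℂ)⁻¹ • X₀ t) ∈ ball w ρb →
      ‖z - W l‖ < r₁ ∧
        eval (fun i => (NN t : ℂ) * glue l ((NN t : ℂ)⁻¹ • X₀ t) z i) P = 0 := by
    intro t
    by_cases hcon : N₀ ≤ NN t ∧ 0 < NN t ∧ ((NN t : ℂ)⁻¹ • X₀ t) ∈ ball w ρb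
    · obtain ⟨h1, h2, h3⟩ := hcon
      obtain ⟨z, h4, h5⟩ := (hh2 (NN t : ℂ) (by
        rw [Complex.norm_real, Real.norm_of_nonneg h2.le]; exact h1) _ h3).2
      exact ⟨z, fun _ _ _ => ⟨h4, h5⟩⟩
    · exact ⟨0, fun h1 h2 h3 => absurd ⟨h1, h2, h3⟩ hcon⟩
  choose z₀ hz₀ using hz
  -- eventual bounds
  have ev1 : ∀ᶠ t : ℕ in atTop, 1 ≤ t := eventually_ge_atTop 1
  have ev2 : ∀ᶠ t : ℕ in atTop, N₀ ≤ NN t := hNt.eventually_ge_atTop N₀
  have hlim1 : Tendsto (fun t : ℕ => 2 * Real.pi / NN t) atTop (𝓝 0) :=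
    tendsto_const_nhds.div_atTop hNt
  have hlim2 : ∀ s : ℝ, Tendsto (fun t : ℕ => s / (t : ℝ)) atTop (𝓝 0) := fun s =>
    tendsto_const_div_atTop_nhds_zero_nat s
  have ev3 : ∀ᶠ t : ℕ in atTop, 2 * Real.pi / NN t + 2 / (t : ℝ) < ρb := by
    have h1 := hlim1.add (hlim2 2)
    rw [add_zero] at h1
    exact h1.eventually_lt_const hρb
  have ev4 : ∀ᶠ t : ℕ in atTop, Cb / NN t < (r₁ / 4) ^ e := by
    have h1 : Tendsto (fun t : ℕ => Cb / NN t) atTop (𝓝 0) := tendsto_const_nhds.div_atTop hNt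
    exact h1.eventually_lt_const (by positivity)
  set K₁ : ℝ := |Cb| + 1 with hK₁
  have hK₁1 : 1 ≤ K₁ := by
    have := abs_nonneg Cb
    linarith
  have hCbK : Cb ≤ K₁ ^ e := by
    have h1 : K₁ ≤ K₁ ^ e := le_self_pow₀ hK₁1 (by omega)
    have h2 := le_abs_self Cb
    linarith
  set L : ℝ := ‖h'‖ + 1 with hL
  have hL0 : 0 < L := by
    have := norm_nonneg h'
    linarith
  have hstr' : ∀ ε : ℝ, 0 < ε → ∃ ρε : ℝ, 0 < ρε ∧ ∀ v ∈ ball w ρε, ∀ v' ∈ ball w ρε,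
      ‖h v - h v' - h' (v - v')‖ ≤ ε * ‖v - v'‖ := by
    intro ε hε
    have h1 := hstr.isLittleO.def hε
    obtain ⟨ρε, h2, h3⟩ := Metric.eventually_nhds_iff_ball.1 h1
    refine ⟨ρε, h2, fun v hv v' hv' => ?_⟩
    have h4 : (v, v') ∈ ball (w, w) ρε := by
      rw [← ball_prod_same]
      exact ⟨hv, hv'⟩
    exact h3 _ h4
  obtain ⟨ρL, hρL, hLip⟩ := hstr' 1 one_pos
  have hLip' : ∀ v ∈ ball w ρL, ‖h v - h w‖ ≤ L * ‖v - w‖ := by
    intro v hv
    have h1 := hLip v hv w (mem_ball_self hρL)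
    have h2 := h'.le_opNorm (v - w)
    have h3 : h v - h w = (h v - h w - h' (v - w)) + h' (v - w) := by ring
    rw [h3]
    refine (norm_add_le _ _).trans ?_
    rw [hL, add_mul]
    linarith
  -- the diagonal argument
  obtain ⟨δ, hδ, hQ⟩ := bf_diag (fun t ε => ∀ Y : ({j : Fin n // j ≠ l} → ℂ) → ℂ,
        DifferentiableOn ℂ Y (ball (X₀ t) (2 * (NN t / t))) →
        Y (X₀ t) = NN t * z₀ t →
        (∀ x ∈ ball (X₀ t) (2 * (NN t / t)), eval (glue l x (Y x)) P = 0) →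
        (∀ x ∈ ball (X₀ t) (2 * (NN t / t)), ‖Y x‖ ≤ (‖W l‖ + r₁) * NN t) ∧
        (∀ x ∈ ball (X₀ t) (NN t / t), ∀ x' ∈ ball (X₀ t) (NN t / t),
          ‖Y x - Y x' - ∑ j : {j : Fin n // j ≠ l}, (c j : ℂ) * (x j - x' j)‖ ≤
            ε * ‖x - x'‖) ∧
        |(Y (X₀ t)).re| ≤ ε * (NN t / t ^ 2)) (by
      intro t ε ε' hQ hεε Y hY1 hY2 hY3
      obtain ⟨h1, h2, h3⟩ := hQ Y hY1 hY2 hY3
      refine ⟨h1, fun x hx x' hx' => (h2 x hx x' hx').trans ?_, h3.trans ?_⟩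
      · exact mul_le_mul_of_nonneg_right hεε (norm_nonneg _)
      · exact mul_le_mul_of_nonneg_right hεε (by positivity)) (by
      intro ε hε
      obtain ⟨ρε, hρε, hε1⟩ := hstr' (ε / 2) (by positivity)
      have ev5 : ∀ᶠ t : ℕ in atTop, 2 * Real.pi / NN t + 1 / (t : ℝ) < min ρε ρL := by
        have h1 := hlim1.add (hlim2 1)
        rw [add_zero] at h1
        exact h1.eventually_lt_const (lt_min hρε hρL)
      have ev6 : ∀ᶠ t : ℕ in atTop, 8 * K₁ / (t : ℝ) < ε / 2 :=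
        (hlim2 _).eventually_lt_const (by positivity)
      have ev7 : ∀ᶠ t : ℕ in atTop, 2 * Real.pi * L / (t : ℝ) < ε / 2 :=
        (hlim2 _).eventually_lt_const (by positivity)
      filter_upwards [ev1, ev2, ev3, ev4, ev5, ev6, ev7] with t g1 g2 g3 g4 g5 g6 g7
      intro Y hY1 hY2 hY3
      have ht1 : (1 : ℝ) ≤ t := by exact_mod_cast g1
      have ht0 : (0 : ℝ) < t := by linarith
      have hN0 : 0 < NN t := by
        simp only [hNN]
        positivity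
      have hNc : (NN t : ℂ) ≠ 0 := by exact_mod_cast hN0.ne'
      have hNn : ‖(NN t : ℂ)‖ = NN t := by
        rw [Complex.norm_real, Real.norm_of_nonneg hN0.le]
      have hNt3 : (t : ℝ) ^ 3 ≤ NN t := by
        simp only [hNN]
        exact pow_le_pow_right₀ ht1 (by omega)
      have hrad : 2 * (NN t / t) = 2 / (t : ℝ) * NN t := by ring
      have hrad1 : NN t / t = 1 / (t : ℝ) * NN t := by ring
      have hρ0 : 0 < 2 * (NN t / t) := by positivity
      have hmem : ∀ x ∈ ball (X₀ t) (2 * (NN t / t)), ((NN t : ℂ)⁻¹ • x) ∈ ball w ρb := by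
        intro x hx
        rw [hrad] at hx
        exact ball_subset_ball g3.le (hball t hN0 _ x hx)
      obtain ⟨hz1, hz2⟩ := hz₀ t g2 hN0 (hmem _ (mem_ball_self hρ0))
      have hZP : ∀ x ∈ ball (X₀ t) (2 * (NN t / t)),
          eval (fun i => (NN t : ℂ) * glue l ((NN t : ℂ)⁻¹ • x) (Y x / NN t) i) P = 0 := by
        intro x hx
        rw [bf_glue l hNc]
        exact hY3 x hx
      have hclose : ∀ x ∈ ball (X₀ t) (2 * (NN t / t)), ‖Y x / NN t - W l‖ ≤ r₁ →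
          ‖Y x / NN t - h ((NN t : ℂ)⁻¹ • x)‖ ^ e ≤ Cb / NN t := by
        intro x hx hle
        have h1 := (hh2 (NN t : ℂ) (by rw [hNn]; exact g2) _ (hmem x hx)).1 _ hle (hZP x hx)
        rwa [hNn] at h1
      have hF : ∀ x ∈ ball (X₀ t) (2 * (NN t / t)), ‖Y x / NN t - W l‖ < r₁ := by
        apply MV.persist hρ0
        · apply ContinuousOn.norm
          exact (hY1.continuousOn.div_const _).sub continuousOn_const
        · rw [hY2, mul_div_cancel_left₀ _ hNc]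
          exact hz1
        · intro x hx hcon
          have h1 := hclose x hx hcon.le
          have h2 : ‖Y x / NN t - h ((NN t : ℂ)⁻¹ • x)‖ < r₁ / 4 := by
            by_contra hge
            push Not at hge
            have := pow_le_pow_left₀ (by positivity) hge e
            linarith
          have h3 := (hh1 _ (hmem x hx)).1
          have h4 : ‖Y x / NN t - W l‖ ≤ ‖Y x / NN t - h ((NN t : ℂ)⁻¹ • x)‖ +
              ‖h ((NN t : ℂ)⁻¹ • x) - W l‖ := by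
            have := norm_add_le (Y x / NN t - h ((NN t : ℂ)⁻¹ • x))
              (h ((NN t : ℂ)⁻¹ • x) - W l)
            rwa [sub_add_sub_cancel] at this
          rw [hcon] at h4
          linarith
      have hE : ∀ x ∈ ball (X₀ t) (2 * (NN t / t)),
          ‖Y x - NN t * h ((NN t : ℂ)⁻¹ • x)‖ ≤ K₁ * (NN t / t ^ 3) := by
        intro x hx
        have h1 := hclose x hx (hF x hx).le
        have h2 : ‖Y x / NN t - h ((NN t : ℂ)⁻¹ • x)‖ ≤ K₁ / t ^ 3 := by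
          have h3 : (K₁ / (t : ℝ) ^ 3) ^ e = K₁ ^ e / NN t := by
            simp only [hNN]
            rw [div_pow, ← pow_mul]
          have h4 : ‖Y x / NN t - h ((NN t : ℂ)⁻¹ • x)‖ ^ e ≤ (K₁ / (t : ℝ) ^ 3) ^ e := by
            rw [h3]
            exact h1.trans (div_le_div_of_nonneg_right hCbK hN0.le)
          exact le_of_pow_le_pow_left₀ he.ne' (by positivity) h4
        have h5 : Y x - NN t * h ((NN t : ℂ)⁻¹ • x) =
            NN t * (Y x / NN t - h ((NN t : ℂ)⁻¹ • x)) := by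
          rw [mul_sub, mul_div_cancel₀ _ hNc]
        rw [h5, norm_mul, hNn]
        calc NN t * ‖Y x / NN t - h ((NN t : ℂ)⁻¹ • x)‖ ≤ NN t * (K₁ / t ^ 3) :=
              mul_le_mul_of_nonneg_left h2 hN0.le
          _ = K₁ * (NN t / t ^ 3) := by ring
      refine ⟨?_, ?_, ?_⟩
      · intro x hx
        have h1 := hF x hx
        have h2 : ‖Y x / NN t‖ ≤ ‖W l‖ + r₁ := by
          have := norm_add_le (Y x / NN t - W l) (W l)
          rw [sub_add_cancel] at this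
          linarith
        rw [norm_div, hNn, div_le_iff₀ hN0] at h2
        exact h2
      · have hEd : DifferentiableOn ℂ (fun x => Y x - NN t * h ((NN t : ℂ)⁻¹ • x))
            (ball (X₀ t) (2 * (NN t / t))) := by
          refine hY1.sub (DifferentiableOn.const_mul ?_ _)
          refine hhd.comp ?_ hmem
          change DifferentiableOn ℂ (fun x : {j : Fin n // j ≠ l} → ℂ => (NN t : ℂ)⁻¹ • x) _
          fun_prop
        have h1 := bc_lip hρ0 hEd (K := K₁ * (NN t / t ^ 3)) (fun x hx =>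
          (Complex.abs_re_le_norm _).trans (hE x hx))
        have hr2 : 2 * (NN t / t) / 2 = NN t / t := by ring
        rw [hr2] at h1
        have h2 : 16 * (K₁ * (NN t / t ^ 3)) / (2 * (NN t / t)) = 8 * K₁ / t / t := by
          field_simp
          ring
        rw [h2] at h1
        intro x hx x' hx'
        have h3 := h1 x hx x' hx'
        rw [hrad1] at hx hx'
        have h4 := hball t hN0 _ x hx
        have h5 := hball t hN0 _ x' hx'
        have h6 := hε1 _ (ball_subset_ball (g5.le.trans (min_le_left _ _)) h4) _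
          (ball_subset_ball (g5.le.trans (min_le_left _ _)) h5)
        rw [← smul_sub, map_smul, smul_eq_mul, norm_smul, norm_inv, hNn] at h6
        have h7 : ∑ j : {j : Fin n // j ≠ l}, (c j : ℂ) * (x j - x' j) = h' (x - x') := by
          rw [hsum]
          rfl
        rw [h7]
        have h8 : Y x - Y x' - h' (x - x') =
            ((Y x - NN t * h ((NN t : ℂ)⁻¹ • x)) - (Y x' - NN t * h ((NN t : ℂ)⁻¹ • x'))) +
            NN t * (h ((NN t : ℂ)⁻¹ • x) - h ((NN t : ℂ)⁻¹ • x') -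
              (NN t : ℂ)⁻¹ * h' (x - x')) := by
          rw [mul_sub, mul_sub, mul_inv_cancel_left₀ hNc]
          ring
        rw [h8]
        refine (norm_add_le _ _).trans ?_
        rw [norm_mul, hNn]
        have h9 : NN t * ‖h ((NN t : ℂ)⁻¹ • x) - h ((NN t : ℂ)⁻¹ • x') -
            (NN t : ℂ)⁻¹ * h' (x - x')‖ ≤ ε / 2 * ‖x - x'‖ := by
          calc _ ≤ NN t * (ε / 2 * ((NN t)⁻¹ * ‖x - x'‖)) :=
                mul_le_mul_of_nonneg_left h6 hN0.le
            _ = ε / 2 * ‖x - x'‖ := by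
                field_simp
        have h10 : 8 * K₁ / t / t * ‖x - x'‖ ≤ ε / 2 * ‖x - x'‖ := by
          apply mul_le_mul_of_nonneg_right _ (norm_nonneg _)
          have h11 : 8 * K₁ / (t : ℝ) / t ≤ 8 * K₁ / t := div_le_self (by positivity) ht1
          linarith
        calc _ ≤ 8 * K₁ / t / t * ‖x - x'‖ + ε / 2 * ‖x - x'‖ := add_le_add h3 h9
          _ ≤ ε / 2 * ‖x - x'‖ + ε / 2 * ‖x - x'‖ := by linarith
          _ = ε * ‖x - x'‖ := by ring
      · have hx₀ : X₀ t ∈ ball (X₀ t) (2 * (NN t / t)) := mem_ball_self hρ0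
        have hx₁ : X₀ t ∈ ball (X₀ t) (1 / (t : ℝ) * NN t) := mem_ball_self (by positivity)
        have h1 := hE _ hx₀
        have h2 := hLip' _ (ball_subset_ball (g5.le.trans (min_le_right _ _))
          (hball t hN0 _ _ hx₁))
        have h3 : ‖(NN t : ℂ)⁻¹ • X₀ t - w‖ ≤ 2 * Real.pi / NN t := by
          have h4 : (NN t : ℂ)⁻¹ • X₀ t - w = (NN t : ℂ)⁻¹ • (X₀ t - (NN t : ℂ) • w) := by
            rw [smul_sub, smul_smul, inv_mul_cancel₀ hNc, one_smul]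
          rw [h4, norm_smul, norm_inv, hNn, div_eq_inv_mul]
          exact mul_le_mul_of_nonneg_left (hXw t) (inv_nonneg.2 hN0.le)
        have h5 : ‖h ((NN t : ℂ)⁻¹ • X₀ t) - h w‖ ≤ L * (2 * Real.pi / NN t) :=
          h2.trans (mul_le_mul_of_nonneg_left h3 hL0.le)
        have hWre : (W l).re = 0 := by
          simp only [hW, hκ]
          simp
        have h6 : (Y (X₀ t)).re = (Y (X₀ t) - NN t * h ((NN t : ℂ)⁻¹ • X₀ t)).re +
            NN t * (h ((NN t : ℂ)⁻¹ • X₀ t) - h w).re := by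
          rw [hhw, Complex.sub_re, Complex.re_ofReal_mul, Complex.sub_re, hWre]
          ring
        rw [h6]
        refine (abs_add_le _ _).trans ?_
        rw [abs_mul, abs_of_pos hN0]
        have h7 := (Complex.abs_re_le_norm (Y (X₀ t) - NN t * h ((NN t : ℂ)⁻¹ • X₀ t))).trans h1
        have h8 := (Complex.abs_re_le_norm (h ((NN t : ℂ)⁻¹ • X₀ t) - h w)).trans h5
        have h9 : NN t * |(h ((NN t : ℂ)⁻¹ • X₀ t) - h w).re| ≤ 2 * Real.pi * L := by
          calc _ ≤ NN t * (L * (2 * Real.pi / NN t)) := mul_le_mul_of_nonneg_left h8 hN0.le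
            _ = 2 * Real.pi * L := by
                field_simp
        have h10 : 2 * Real.pi * L ≤ ε / 2 * (NN t / t ^ 2) := by
          rw [div_lt_iff₀ ht0] at g7
          have h11 : (t : ℝ) ≤ NN t / t ^ 2 := by
            rw [le_div_iff₀ (by positivity)]
            calc (t : ℝ) * t ^ 2 = t ^ 3 := by ring
              _ ≤ NN t := hNt3
          have h12 : ε / 2 * t ≤ ε / 2 * (NN t / t ^ 2) :=
            mul_le_mul_of_nonneg_left h11 (by positivity)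
          linarith
        have h13 : K₁ * (NN t / t ^ 3) ≤ ε / 2 * (NN t / t ^ 2) := by
          have h14 : K₁ * (NN t / t ^ 3) = K₁ / t * (NN t / t ^ 2) := by
            field_simp
          rw [h14]
          apply mul_le_mul_of_nonneg_right _ (by positivity)
          have h15 : K₁ / (t : ℝ) ≤ 8 * K₁ / t :=
            div_le_div_of_nonneg_right (by linarith) ht0.le
          linarith
        linarith)
  refine ⟨‖W l‖ + r₁, δ, hδ, ?_⟩
  filter_upwards [hQ, ev1, ev2, ev3] with t hQt g1 g2 g3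
  have ht1 : (1 : ℝ) ≤ t := by exact_mod_cast g1
  have ht0 : (0 : ℝ) < t := by linarith
  have hN0 : 0 < NN t := by
    simp only [hNN]
    positivity
  have hNc : (NN t : ℂ) ≠ 0 := by exact_mod_cast hN0.ne'
  refine ⟨NN t * z₀ t, ?_, hQt⟩
  have hx₁ : X₀ t ∈ ball (X₀ t) (2 / (t : ℝ) * NN t) := mem_ball_self (by positivity)
  obtain ⟨hz1, hz2⟩ := hz₀ t g2 hN0 (ball_subset_ball g3.le (hball t hN0 _ _ hx₁))
  have h1 := bf_glue l hNc (X₀ t) (NN t * z₀ t)
  rw [mul_div_cancel_left₀ _ hNc] at h1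
  rw [← h1]
  exact hz2

end Pool.Agent.Lib.MP_209724_lc.HS
end

section

namespace Pool.Agent.Lib.MP_209724_lc.HS

open MvPolynomial Filter Topology Metric
open MV (lead evT glue)
open GC (evM)

private theorem sheetsPT_evT_option {σ S : Type*} [CommRing S] [Algebra ℂ S] (x : σ → S) (t : S)
    (b : MvPolynomial (Option σ) ℂ) :
    evT x t (optionEquivLeft ℂ σ b) = aeval (fun o : Option σ => o.elim t x) b := by
  have h : (evT x t).comp (optionEquivLeft ℂ σ : MvPolynomial (Option σ) ℂ →+* _) =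
      ((aeval (fun o : Option σ => o.elim t x) : MvPolynomial (Option σ) ℂ →ₐ[ℂ] S) :
        MvPolynomial (Option σ) ℂ →+* S) := by
    apply MvPolynomial.ringHom_ext
    · intro c
      simp [evT, optionEquivLeft_C]
    · intro o
      rcases o with _ | j
      · simp [evT, optionEquivLeft_X_none]
      · simp [evT, optionEquivLeft_X_some]
  exact congrArg (fun g => g b) h

/-- `P` does not divide its derivative in the direction of the algebraic variable. -/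
private theorem sheetsPT_not_dvd {n : ℕ} {M : Type} [Field M] [Algebra ℂ M] (ξ : Fin n → M)
    (P : MvPolynomial (Fin n) ℂ) (hP : ∀ c, aeval ξ c = 0 ↔ P ∣ c) (l : Fin n)
    (hξ : AlgebraicIndependent ℂ (fun j : {j : Fin n // j ≠ l} => ξ j))
    (hl : IsAlgebraic (Algebra.adjoin ℂ (Set.range fun j : {j : Fin n // j ≠ l} => ξ j)) (ξ l)) :
    ¬ P ∣ pderiv l P := by
  classical
  intro hdvd
  have hPξ : aeval ξ P = 0 := (hP P).2 dvd_rfl
  have hP0 : P ≠ 0 := by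
    rintro rfl
    have hind : AlgebraicIndependent ℂ ξ := by
      rw [algebraicIndependent_iff]
      intro c hc
      exact zero_dvd_iff.1 ((hP c).1 hc)
    have h1 := hind.comp _ (Equiv.optionSubtypeNe l).injective
    have h2 : ξ ∘ (Equiv.optionSubtypeNe l) =
        (fun o : Option {j : Fin n // j ≠ l} => o.elim (ξ l) fun j => ξ j) := by
      funext o
      rcases o with _ | j
      · simp
      · simp
    rw [h2] at h1
    exact (hξ.option_iff_transcendental (ξ l)).mp h1 hl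
  -- `P` involves the variable `l`
  have hvar : 0 < degreeOf l P := by
    by_contra hcon
    have hnot : l ∉ P.vars := by
      intro h
      rw [vars_def, Multiset.mem_toFinset] at h
      have := Multiset.count_pos.2 h
      rw [degreeOf_def] at hcon
      omega
    obtain ⟨c, hc⟩ := exists_rename_eq_of_vars_subset_range P
      (Subtype.val : {j : Fin n // j ≠ l} → Fin n) Subtype.val_injective (by
        intro i hi
        exact ⟨⟨i, fun h => hnot (h ▸ hi)⟩, rfl⟩)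
    rw [← hc, aeval_rename] at hPξ
    have h3 : c = 0 := (algebraicIndependent_iff.1 hξ) c hPξ
    apply hP0
    rw [← hc, h3, map_zero]
  -- a monomial of maximal degree in the variable `l`
  have hne : pderiv l P ≠ 0 := by
    obtain ⟨m, hm, hml⟩ : ∃ m ∈ P.support, 0 < m l := by
      by_contra hcon
      push Not at hcon
      have : degreeOf l P ≤ 0 := by
        rw [degreeOf_le_iff]
        intro m hm
        exact hcon m hm
      omega
    intro h0
    have h1 := coeff_pderiv (i := l) P (m - Finsupp.single l 1)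
    rw [h0, coeff_zero] at h1
    have h2 : m - Finsupp.single l 1 + Finsupp.single l 1 = m := by
      ext i
      by_cases hi : i = l
      · subst hi
        simp
        omega
      · simp [Finsupp.single_eq_of_ne hi]
    rw [h2] at h1
    have h3 : ((m - Finsupp.single l 1 : Fin n →₀ ℕ) l : ℂ) + 1 ≠ 0 := by
      exact Nat.cast_add_one_ne_zero _
    rcases mul_eq_zero.1 h1.symm with h4 | h4
    · exact (mem_support_iff.1 hm) h4
    · exact h3 h4
  have hlt : degreeOf l (pderiv l P) < degreeOf l P := by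
    have : degreeOf l (pderiv l P) ≤ degreeOf l P - 1 := by
      rw [degreeOf_le_iff]
      intro m hm
      rw [mem_support_iff, coeff_pderiv] at hm
      have h1 : m + Finsupp.single l 1 ∈ P.support :=
        mem_support_iff.2 (left_ne_zero_of_mul hm)
      have h2 := monomial_le_degreeOf l h1
      simp only [Finsupp.coe_add, Pi.add_apply, Finsupp.single_eq_same] at h2
      omega
    omega
  obtain ⟨s, hs⟩ := hdvd
  rw [hs] at hne hlt
  rw [degreeOf_mul_eq (left_ne_zero_of_mul hne) (right_ne_zero_of_mul hne)] at hlt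
  omega

/-- HS-36: analytic families of homomorphisms over the hypersurface, with `t = exp τ`. -/
theorem exists_sheets_PT {n : ℕ} {M : Type} [Field M] [Algebra ℂ M] (ξ : Fin n → M)
    (P : MvPolynomial (Fin n) ℂ) (hP : ∀ c, aeval ξ c = 0 ↔ P ∣ c) (l : Fin n)
    (hξ : AlgebraicIndependent ℂ (fun j : {j : Fin n // j ≠ l} => ξ j))
    (hl : IsAlgebraic (Algebra.adjoin ℂ (Set.range fun j : {j : Fin n // j ≠ l} => ξ j)) (ξ l))
    (t : M) (ht : Transcendental (IntermediateField.adjoin ℂ (Set.range ξ)) t)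
    (A : Subalgebra ℂ M) (hA : A.FG) (hξA : ∀ i, ξ i ∈ A) (htA : t ∈ A)
    (halg : ∀ x ∈ A, IsAlgebraic (Algebra.adjoin ℂ (Set.range ξ ∪ {t})) x) :
    ∃ b : Polynomial (MvPolynomial {j : Fin n // j ≠ l} ℂ), b ≠ 0 ∧
      ∀ (E : Type) [NormedAddCommGroup E] [NormedSpace ℂ E] [FiniteDimensional ℂ E] (D : Set E),
        IsOpen D → Convex ℝ D → ∀ (X : E → {j : Fin n // j ≠ l} → ℂ) (τ : E → ℂ),
        (∀ j, AnalyticOnNhd ℂ (fun p => X p j) D) → AnalyticOnNhd ℂ τ D →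
        (∀ p ∈ D, evT (X p) (Complex.exp (τ p)) b ≠ 0) → ∀ p₀ ∈ D, ∀ y₀ : ℂ,
        eval (glue l (X p₀) y₀) P = 0 →
        ∃ Φ : E → (A →ₐ[ℂ] ℂ), Φ p₀ ⟨ξ l, hξA l⟩ = y₀ ∧
          (∀ p ∈ D, (∀ j : {j : Fin n // j ≠ l}, Φ p ⟨ξ j, hξA j⟩ = X p j) ∧
            Φ p ⟨t, htA⟩ = Complex.exp (τ p) ∧
            eval (glue l (X p) (Φ p ⟨ξ l, hξA l⟩)) (pderiv l P) ≠ 0) ∧
          ∀ x : A, AnalyticOnNhd ℂ (fun p => Φ p x) D := by
  classical
  -- the coordinates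
  have hsub : Algebra.adjoin ℂ (Set.range fun j : {j : Fin n // j ≠ l} => ξ j) ≤
      (IntermediateField.adjoin ℂ (Set.range ξ)).toSubalgebra := by
    apply Algebra.adjoin_le
    rintro _ ⟨j, rfl⟩
    exact IntermediateField.subset_adjoin _ _ ⟨j, rfl⟩
  have h1 : Transcendental
      (Algebra.adjoin ℂ (Set.range fun j : {j : Fin n // j ≠ l} => ξ j)) t := by
    intro h
    apply ht
    exact MV.isAlgebraic_of_map (Subalgebra.inclusion hsub).toRingHom (fun r => rfl)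
      (Subalgebra.inclusion_injective hsub) h
  set z : Option {j : Fin n // j ≠ l} → M := fun o => o.elim t fun j => ξ j with hzdef
  have hz : AlgebraicIndependent ℂ z := (hξ.option_iff_transcendental t).mpr h1
  have hzA : ∀ o, z o ∈ A := by
    rintro (_ | j)
    · exact htA
    · exact hξA j
  -- algebraicity
  have halg' : ∀ x ∈ A, IsAlgebraic (Algebra.adjoin ℂ (Set.range z)) x := by
    intro x hx
    rw [← IntermediateField.isAlgebraic_adjoin_iff]
    set K0 := IntermediateField.adjoin ℂ (Set.range z) with hK0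
    have hzK : ∀ o, z o ∈ K0 := fun o => IntermediateField.subset_adjoin _ _ ⟨o, rfl⟩
    set C0 := algebraicClosure K0 M with hC0
    have hKC : ∀ y ∈ K0, y ∈ C0 := by
      intro y hy
      rw [hC0, mem_algebraicClosure_iff]
      exact isAlgebraic_algebraMap (⟨y, hy⟩ : K0)
    have hle : ∀ y ∈ Algebra.adjoin ℂ (Set.range ξ ∪ {t}), y ∈ C0 := by
      intro y hy
      induction hy using Algebra.adjoin_induction with
      | mem y hy =>
        rcases hy with ⟨i, rfl⟩ | hy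
        · by_cases hi : i = l
          · rw [hi, hC0, mem_algebraicClosure_iff]
            have hsub2 : Algebra.adjoin ℂ (Set.range fun j : {j : Fin n // j ≠ l} => ξ j) ≤
                K0.toSubalgebra := by
              apply Algebra.adjoin_le
              rintro _ ⟨j, rfl⟩
              exact hzK (some j)
            exact MV.isAlgebraic_of_map (Subalgebra.inclusion hsub2).toRingHom (fun r => rfl)
              (Subalgebra.inclusion_injective hsub2) hl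
          · exact hKC _ (hzK (some ⟨i, hi⟩))
        · rw [Set.mem_singleton_iff.1 hy]
          exact hKC _ (hzK none)
      | algebraMap c => exact hKC _ (K0.algebraMap_mem c)
      | add a b _ _ ha hb => exact C0.add_mem ha hb
      | mul a b _ _ ha hb => exact C0.mul_mem ha hb
    have hx1 : IsAlgebraic C0 x := by
      refine MV.isAlgebraic_of_map
        ({ toFun := fun y => ⟨y, hle y y.2⟩
           map_one' := rfl
           map_zero' := rfl
           map_add' := fun _ _ => rfl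
           map_mul' := fun _ _ => rfl } :
          Algebra.adjoin ℂ (Set.range ξ ∪ {t}) →+* C0) (fun r => rfl) ?_ (halg x hx)
      intro a b hab
      have h9 : (⟨a.1, hle a.1 a.2⟩ : C0) = ⟨b.1, hle b.1 b.2⟩ := hab
      exact Subtype.ext (Subtype.mk.inj h9)
    exact IsAlgebraic.restrictScalars K0 hx1
  obtain ⟨b₁, hb₁, H₁⟩ := exists_sheets z hz A hA hzA halg'
  obtain ⟨b₂, hb₂, H₂⟩ := exists_hom_PT ξ P hP l hξ hl t ht A hA hξA htA halg
  obtain ⟨u, c₃, hc₃, hdvd⟩ := exists_multiple ξ P hP l hξ hl (pderiv l P)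
    (sheetsPT_not_dvd ξ P hP l hξ hl)
  refine ⟨optionEquivLeft ℂ _ b₁ * b₂ * Polynomial.C c₃, ?_, ?_⟩
  · refine mul_ne_zero (mul_ne_zero ?_ hb₂) (Polynomial.C_ne_zero.2 hc₃)
    rw [Ne, EmbeddingLike.map_eq_zero_iff]
    exact hb₁
  intro E _ _ _ D hDo hDc X τ hX hτ hb p₀ hp₀ y₀ hy₀
  have hb' : ∀ p ∈ D, eval (fun o : Option {j : Fin n // j ≠ l} =>
      o.elim (Complex.exp (τ p)) (X p)) b₁ ≠ 0 ∧
      evT (X p) (Complex.exp (τ p)) b₂ ≠ 0 ∧ eval (X p) c₃ ≠ 0 := by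
    intro p hp
    have h2 := hb p hp
    rw [map_mul, map_mul, MV.evT_C, sheetsPT_evT_option] at h2
    refine ⟨?_, right_ne_zero_of_mul (left_ne_zero_of_mul h2), ?_⟩
    · exact left_ne_zero_of_mul (left_ne_zero_of_mul h2)
    · exact right_ne_zero_of_mul h2
  have hglue : (fun j : {j : Fin n // j ≠ l} => glue l (X p₀) y₀ j) = X p₀ := by
    funext j
    exact MV.glue_of_ne l (X p₀) y₀ j
  obtain ⟨ψ₀, hψ₁, hψ₂⟩ := H₂ (glue l (X p₀) y₀) hy₀ (Complex.exp (τ p₀)) (by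
    rw [hglue]
    exact (hb' p₀ hp₀).2.1)
  obtain ⟨Φ, hΦ₀, hΦ₁, hΦ₂⟩ := H₁ E D hDo hDc
    (fun p o => o.elim (Complex.exp (τ p)) (X p))
    (by
      rintro (_ | j)
      · exact hτ.cexp
      · exact hX j)
    (fun p hp => (hb' p hp).1) p₀ hp₀ ψ₀ (by
      rintro (_ | j)
      · exact hψ₂
      · change ψ₀ ⟨ξ j, hξA j⟩ = X p₀ j
        rw [hψ₁]
        exact MV.glue_of_ne l (X p₀) y₀ j)
  refine ⟨Φ, ?_, ?_, hΦ₂⟩
  · rw [hΦ₀, hψ₁]
    exact MV.glue_self l (X p₀) y₀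
  intro p hp
  have hj : ∀ j : {j : Fin n // j ≠ l}, Φ p ⟨ξ j, hξA j⟩ = X p j := fun j => hΦ₁ p hp (some j)
  refine ⟨hj, hΦ₁ p hp none, ?_⟩
  have hpt : glue l (X p) (Φ p ⟨ξ l, hξA l⟩) = fun i => Φ p ⟨ξ i, hξA i⟩ := by
    funext i
    by_cases hi : i = l
    · subst hi
      exact MV.glue_self _ _ _
    · rw [hj ⟨i, hi⟩]
      exact MV.glue_of_ne l (X p) _ ⟨i, hi⟩
  have hev : ∀ c : MvPolynomial (Fin n) ℂ, P ∣ c →
      eval (glue l (X p) (Φ p ⟨ξ l, hξA l⟩)) c = 0 := by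
    intro c hc
    have h2 : aeval (fun i => (⟨ξ i, hξA i⟩ : A)) c = 0 := by
      apply Subtype.ext
      have h3 : A.val (aeval (fun i => (⟨ξ i, hξA i⟩ : A)) c) = aeval ξ c := by
        rw [MvPolynomial.comp_aeval_apply]
        rfl
      rw [Subalgebra.coe_val] at h3
      rw [h3]
      exact (hP c).2 hc
    have h4 := congrArg (Φ p) h2
    rw [map_zero, MvPolynomial.comp_aeval_apply] at h4
    rw [hpt]
    exact h4
  intro h0
  have h5 := hev _ hdvd
  rw [map_sub, map_mul, h0, mul_zero, zero_sub, neg_eq_zero, eval_rename] at h5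
  have h6 : (glue l (X p) (Φ p ⟨ξ l, hξA l⟩)) ∘ (Subtype.val : {j : Fin n // j ≠ l} → Fin n) =
      X p := by
    funext j
    exact MV.glue_of_ne l (X p) _ j
  rw [h6] at h5
  exact (hb' p hp).2.2 h5

end Pool.Agent.Lib.MP_209724_lc.HS
end

section

namespace Pool.Agent.Lib.MP_209724_lc.HS

open MvPolynomial Filter Topology Metric
open MV (lead evT glue)
open GC (evM)

/-- factorisation over the algebraic closure -/
private theorem sv_factor {ι : Type} [Fintype ι] (b : Polynomial (MvPolynomial ι ℂ)) :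
    ∃ (M : Type) (_ : Field M) (_ : Algebra ℂ M) (z : ι → M) (_ : AlgebraicIndependent ℂ z)
      (A : Subalgebra ℂ M) (_ : A.FG) (hzA : ∀ i, z i ∈ A)
      (_ : ∀ x ∈ A, IsAlgebraic (Algebra.adjoin ℂ (Set.range z)) x)
      (J k : ℕ) (κ : Fin J → A), (∀ j, κ j ≠ 0) ∧
      b.map (aeval (fun i => (⟨z i, hzA i⟩ : A)) : MvPolynomial ι ℂ →ₐ[ℂ] A).toRingHom =
        Polynomial.C (aeval (fun i => (⟨z i, hzA i⟩ : A)) b.leadingCoeff) * Polynomial.X ^ k *
          ∏ j, (Polynomial.X - Polynomial.C (κ j)) := by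
  classical
  let R := MvPolynomial ι ℂ
  let M := AlgebraicClosure (FractionRing R)
  let z : ι → M := fun i => algebraMap R M (X i)
  have hinj : Function.Injective (algebraMap R M) := by
    rw [IsScalarTower.algebraMap_eq R (FractionRing R) M]
    exact (algebraMap (FractionRing R) M).injective.comp (IsFractionRing.injective R (FractionRing R))
  have haz : ∀ p : R, aeval z p = algebraMap R M p := by
    intro p
    have h1 : (aeval z : R →ₐ[ℂ] M) = IsScalarTower.toAlgHom ℂ R M := by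
      apply MvPolynomial.algHom_ext
      intro i
      rw [aeval_X]
      rfl
    rw [h1]
    rfl
  have hz : AlgebraicIndependent ℂ z := by
    intro p q hpq
    have h2 : aeval z p = aeval z q := hpq
    rw [haz, haz] at h2
    exact hinj h2
  -- the roots
  let bM : Polynomial M := b.map (algebraMap R M)
  have hbM : bM = Polynomial.C bM.leadingCoeff * (bM.roots.map (Polynomial.X - Polynomial.C ·)).prod :=
    (IsAlgClosed.splits bM).eq_prod_roots
  have hlc : bM.leadingCoeff = algebraMap R M b.leadingCoeff :=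
    Polynomial.leadingCoeff_map_of_injective hinj b
  let r0 := bM.roots.filter (· ≠ 0)
  have hr0 : bM.roots = r0 + Multiset.replicate (bM.roots.count 0) 0 := by
    have h1 := Multiset.filter_add_not (· ≠ (0 : M)) bM.roots
    have h2 : bM.roots.filter (fun a => ¬ (a ≠ 0)) = Multiset.replicate (bM.roots.count 0) 0 := by
      have h3 := Multiset.filter_eq' bM.roots (0 : M)
      simpa using h3
    rw [h2] at h1
    exact h1.symm
  obtain ⟨J, κ, hκ⟩ : ∃ (J : ℕ) (κ : Fin J → M), r0 = (List.ofFn κ : Multiset M) := by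
    refine ⟨r0.toList.length, fun i => r0.toList.get i, ?_⟩
    rw [List.ofFn_get, Multiset.coe_toList]
  have hκ0 : ∀ j, κ j ≠ 0 := by
    intro j
    have h1 : κ j ∈ r0 := by
      rw [hκ, Multiset.mem_coe, List.mem_ofFn]
      exact ⟨j, rfl⟩
    exact (Multiset.mem_filter.1 h1).2
  have hfac : bM = Polynomial.C (algebraMap R M b.leadingCoeff) *
      Polynomial.X ^ (bM.roots.count 0) * ∏ j, (Polynomial.X - Polynomial.C (κ j)) := by
    conv_lhs => rw [hbM]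
    rw [hlc, hr0, Multiset.map_add, Multiset.prod_add, Multiset.map_replicate,
      Multiset.prod_replicate, ← hr0, hκ, Multiset.map_coe, Multiset.prod_coe, List.map_ofFn,
      List.prod_ofFn]
    simp only [Function.comp_apply, map_zero, sub_zero]
    ring
  let A : Subalgebra ℂ M := Algebra.adjoin ℂ (Set.range z ∪ Set.range κ)
  have hAfg : A.FG := Subalgebra.fg_def.2 ⟨_, (Set.finite_range z).union (Set.finite_range κ), rfl⟩
  have hzA : ∀ i, z i ∈ A := fun i => Algebra.subset_adjoin (Or.inl ⟨i, rfl⟩)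
  have hκA : ∀ j, κ j ∈ A := fun j => Algebra.subset_adjoin (Or.inr ⟨j, rfl⟩)
  have halg : ∀ x ∈ A, IsAlgebraic (Algebra.adjoin ℂ (Set.range z)) x := by
    intro x _
    have h1 : Algebra.IsAlgebraic R M :=
      (IsFractionRing.comap_isAlgebraic_iff (A := R) (K := FractionRing R) (C := M)).2
        inferInstance
    obtain ⟨P, hP0, hPx⟩ := h1.isAlgebraic x
    have hmem : ∀ p : R, aeval z p ∈ Algebra.adjoin ℂ (Set.range z) := by
      intro p
      rw [Algebra.adjoin_range_eq_range_aeval]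
      exact ⟨p, rfl⟩
    let f : R →+* Algebra.adjoin ℂ (Set.range z) :=
      (aeval z : R →ₐ[ℂ] M).toRingHom.codRestrict (Algebra.adjoin ℂ (Set.range z)) hmem
    have hf : Function.Injective f := by
      intro p q hpq
      have h2 := congrArg (fun u : Algebra.adjoin ℂ (Set.range z) => (u : M)) hpq
      have h3 : aeval z p = aeval z q := h2
      rw [haz, haz] at h3
      exact hinj h3
    refine ⟨P.map f, (Polynomial.map_ne_zero_iff hf).2 hP0, ?_⟩
    rw [Polynomial.aeval_def, Polynomial.eval₂_map]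
    have h4 : (algebraMap (Algebra.adjoin ℂ (Set.range z)) M).comp f = algebraMap R M := by
      refine RingHom.ext fun p => ?_
      exact haz p
    rw [h4]
    exact hPx
  refine ⟨M, inferInstance, inferInstance, z, hz, A, hAfg, hzA, halg, J, bM.roots.count 0,
    fun j => ⟨κ j, hκA j⟩, fun j h => hκ0 j (congrArg Subtype.val h), ?_⟩
  apply Polynomial.map_injective A.val.toRingHom (Subtype.val_injective)
  have h5 : ∀ p : R, A.val.toRingHom (aeval (fun i => (⟨z i, hzA i⟩ : A)) p) =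
      algebraMap R M p := by
    intro p
    rw [← haz]
    change A.val (aeval (fun i => (⟨z i, hzA i⟩ : A)) p) = _
    rw [MvPolynomial.comp_aeval_apply]
    rfl
  have h6 : A.val.toRingHom.comp (aeval (fun i => (⟨z i, hzA i⟩ : A)) : R →ₐ[ℂ] A).toRingHom =
      algebraMap R M := RingHom.ext h5
  rw [Polynomial.map_map, h6, Polynomial.map_mul, Polynomial.map_mul, Polynomial.map_pow,
    Polynomial.map_C, Polynomial.map_X, Polynomial.map_prod, h5]
  simp only [Polynomial.map_sub, Polynomial.map_X, Polynomial.map_C]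
  exact hfac

/-- HS-26: the special values. -/
theorem special_values {ι : Type} [Fintype ι] (b : Polynomial (MvPolynomial ι ℂ)) (hb : b ≠ 0) :
    ∃ (J k : ℕ) (c : MvPolynomial ι ℂ), c ≠ 0 ∧ ∀ w : ι → ℂ, eval w (lead c) ≠ 0 →
      ∃ ε : ℝ, 0 < ε ∧ ∃ C c₁ : ℝ, 0 < c₁ ∧ ∀ᶠ N : ℕ in atTop,
        ∃ y : Fin J → (ι → ℂ) → ℂ, ∀ x ∈ ball ((N : ℂ) • w) (ε * N),
          c₁ ≤ ‖eval x b.leadingCoeff‖ ∧
          (∀ t : ℂ, evT x t b = eval x b.leadingCoeff * t ^ k * ∏ j, (t - Complex.exp (y j x))) ∧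
          ∀ j, ∀ x' ∈ ball ((N : ℂ) • w) (ε * N), ‖y j x - y j x'‖ ≤ C / N * ‖x - x'‖ := by
  classical
  obtain ⟨M, _, _, z, hz, A, hA, hzA, halg, J, k, κ, hκ0, hfac⟩ := sv_factor b
  obtain ⟨c₁, hc₁, hom⟩ := exists_hom z hz A hA hzA halg
  obtain ⟨c₂, hc₂, hdil⟩ := exists_dilation z hz A hA hzA halg
  have htame := fun j => tame_family z hz A hzA halg (κ j) (hκ0 j)
  choose c₃ hc₃ htam using htame
  refine ⟨J, k, c₁ * c₂ * b.leadingCoeff * ∏ j, c₃ j, ?_, ?_⟩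
  · exact mul_ne_zero (mul_ne_zero (mul_ne_zero hc₁ hc₂) (Polynomial.leadingCoeff_ne_zero.2 hb))
      (Finset.prod_ne_zero_iff.2 fun j _ => hc₃ j)
  intro w hw
  rw [lead_mul, lead_mul, lead_mul, lead_prod, map_mul, map_mul, map_mul, map_prod] at hw
  have hw3 : ∀ j, eval w (lead (c₃ j)) ≠ 0 := fun j =>
    (Finset.prod_ne_zero_iff.1 (right_ne_zero_of_mul hw)) j (Finset.mem_univ j)
  have hwl : eval w (lead b.leadingCoeff) ≠ 0 := right_ne_zero_of_mul (left_ne_zero_of_mul hw)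
  have hw2 : eval w (lead c₂) ≠ 0 :=
    right_ne_zero_of_mul (left_ne_zero_of_mul (left_ne_zero_of_mul hw))
  have hw1 : eval w (lead c₁) ≠ 0 :=
    left_ne_zero_of_mul (left_ne_zero_of_mul (left_ne_zero_of_mul hw))
  obtain ⟨ε₀, hε₀, Λ₀, hfam⟩ := hdil w hw2
  obtain ⟨ε₁, Λ₁, C₁, hε₁, hC₁, hd1⟩ := eval_dil c₁ w hw1
  obtain ⟨εl, Λl, Cl, hεl, hCl, hdl⟩ := eval_dil b.leadingCoeff w hwl
  -- the base point
  let s₀ : ℝ := max Λ₀ Λ₁ + 1
  have hs0 : Λ₀ < s₀ := lt_of_le_of_lt (le_max_left _ _) (lt_add_one _)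
  have hs1 : Λ₁ < s₀ := lt_of_le_of_lt (le_max_right _ _) (lt_add_one _)
  obtain ⟨φ₀, hφ₀⟩ := hom (fun i => Complex.exp (s₀ : ℂ) * w i) (by
    have h := (hd1 (s₀ : ℂ) (by simpa using hs1) w (mem_ball_self hε₁)).1
    rw [← norm_pos_iff]
    exact lt_of_lt_of_le (by positivity) h)
  obtain ⟨Φ, -, hΦ⟩ := hfam (w, (s₀ : ℂ)) ⟨mem_ball_self hε₀, by simpa using hs0⟩ φ₀ hφ₀
  have hT := fun j => htam j w (hw3 j) ε₀ hε₀ Λ₀ Φ hΦ
  choose εt Λt Ct θ g hεt hεt0 hΛt0 hgd hg using hT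
  obtain ⟨ε, hε, hεle⟩ : ∃ ε : ℝ, 0 < ε ∧ ε ≤ ε₀ ∧ ε ≤ εl ∧ ∀ j, ε ≤ εt j := by
    have h1 : ∀ᶠ ε : ℝ in 𝓝[>] 0, ε ∈ Set.Ioi (0 : ℝ) := self_mem_nhdsWithin
    have h2 : ∀ a : ℝ, 0 < a → ∀ᶠ ε : ℝ in 𝓝[>] 0, ε ≤ a := fun a ha =>
      mem_nhdsWithin_of_mem_nhds (Iic_mem_nhds ha)
    have h3 : ∀ᶠ ε : ℝ in 𝓝[>] 0, ∀ j, ε ≤ εt j :=
      Filter.eventually_all.2 fun j => h2 _ (hεt j)
    obtain ⟨ε, a1, a2, a3, a4⟩ := (h1.and ((h2 _ hε₀).and ((h2 _ hεl).and h3))).exists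
    exact ⟨ε, a1, a2, a3, a4⟩
  obtain ⟨C, hC0, hC⟩ : ∃ C : ℝ, 0 ≤ C ∧ ∀ j, Ct j ≤ C := by
    have h1 : ∀ᶠ C : ℝ in atTop, 0 ≤ C := eventually_ge_atTop 0
    have h2 : ∀ᶠ C : ℝ in atTop, ∀ j, Ct j ≤ C :=
      Filter.eventually_all.2 fun j => eventually_ge_atTop (Ct j)
    exact (h1.and h2).exists
  refine ⟨ε, hε, C, Cl⁻¹, by positivity, ?_⟩
  have hlogt : Tendsto (fun N : ℕ => Real.log N) atTop atTop :=
    Real.tendsto_log_atTop.comp tendsto_natCast_atTop_atTop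
  filter_upwards [eventually_ge_atTop 1, hlogt.eventually_gt_atTop Λ₀,
    hlogt.eventually_gt_atTop Λl,
    (Filter.eventually_all.2 fun j => hlogt.eventually_gt_atTop (Λt j) :
      ∀ᶠ N : ℕ in atTop, ∀ j, Λt j < Real.log N)] with N hN1 hN0 hNl hNt
  have hNp : (0 : ℝ) < N := by exact_mod_cast hN1
  have hNc : (N : ℂ) ≠ 0 := by exact_mod_cast hNp.ne'
  have hexp : Complex.exp ((Real.log N : ℝ) : ℂ) = (N : ℂ) := by
    rw [← Complex.ofReal_exp, Real.exp_log hNp]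
    simp
  have hball : ∀ x ∈ ball ((N : ℂ) • w) (ε * N), (N : ℂ)⁻¹ • x ∈ ball w ε := by
    intro x hx
    rw [mem_ball, dist_eq_norm] at hx ⊢
    have h1 : (N : ℂ)⁻¹ • x - w = (N : ℂ)⁻¹ • (x - (N : ℂ) • w) := by
      rw [smul_sub, smul_smul, inv_mul_cancel₀ hNc, one_smul]
    rw [h1, norm_smul, norm_inv, Complex.norm_natCast, inv_mul_lt_iff₀ hNp]
    linarith
  have hdilm : ∀ x ∈ ball ((N : ℂ) • w) (ε * N), ∀ (ε' Λ' : ℝ), ε ≤ ε' → Λ' < Real.log N →
      (((N : ℂ)⁻¹ • x, ((Real.log N : ℝ) : ℂ)) : (ι → ℂ) × ℂ) ∈ Dil w ε' Λ' := by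
    intro x hx ε' Λ' h1 h2
    refine ⟨ball_subset_ball h1 (hball x hx), ?_⟩
    change Λ' < ((Real.log N : ℝ) : ℂ).re
    rw [Complex.ofReal_re]
    exact h2
  have hmulx : ∀ (x : ι → ℂ) i, Complex.exp ((Real.log N : ℝ) : ℂ) * ((N : ℂ)⁻¹ • x) i = x i := by
    intro x i
    rw [hexp, Pi.smul_apply, smul_eq_mul, mul_inv_cancel_left₀ hNc]
  refine ⟨fun j x => g j ((N : ℂ)⁻¹ • x, ((Real.log N : ℝ) : ℂ)), fun x hx => ⟨?_, ?_, ?_⟩⟩
  · have h1 := (hdl ((Real.log N : ℝ) : ℂ) (by rw [Complex.ofReal_re]; exact hNl) ((N : ℂ)⁻¹ • x)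
      (ball_subset_ball hεle.2.1 (hball x hx))).1
    rw [funext (hmulx x)] at h1
    refine le_trans ?_ h1
    have h2 : 1 ≤ Real.exp (b.leadingCoeff.totalDegree * ((Real.log N : ℝ) : ℂ).re) := by
      rw [Real.one_le_exp_iff, Complex.ofReal_re]
      exact mul_nonneg (Nat.cast_nonneg _) (Real.log_nonneg (by exact_mod_cast hN1))
    have h3 : 0 ≤ Cl⁻¹ := by positivity
    nlinarith
  · intro t
    obtain ⟨φ, hφ⟩ : ∃ φ : A →ₐ[ℂ] ℂ, φ = Φ ((N : ℂ)⁻¹ • x, ((Real.log N : ℝ) : ℂ)) := ⟨_, rfl⟩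
    have hφz : ∀ i, φ ⟨z i, hzA i⟩ = x i := by
      intro i
      rw [hφ, hΦ.1 _ (hdilm x hx ε₀ Λ₀ hεle.1 hN0) i]
      exact hmulx x i
    have hφκ : ∀ j, φ (κ j) = Complex.exp (g j ((N : ℂ)⁻¹ • x, ((Real.log N : ℝ) : ℂ))) := by
      intro j
      rw [hφ]
      exact ((hg j _ (hdilm x hx _ _ (hεle.2.2 j) (hNt j))).1).symm
    have hφa : ∀ p : MvPolynomial ι ℂ,
        φ (aeval (fun i => (⟨z i, hzA i⟩ : A)) p) = eval x p := by
      intro p
      rw [MvPolynomial.comp_aeval_apply]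
      simp only [hφz]
      rfl
    have h1 := congrArg (Polynomial.map φ.toRingHom) hfac
    rw [Polynomial.map_map, Polynomial.map_mul, Polynomial.map_mul, Polynomial.map_pow,
      Polynomial.map_C, Polynomial.map_X, Polynomial.map_prod] at h1
    simp only [Polynomial.map_sub, Polynomial.map_X, Polynomial.map_C] at h1
    have h2 := congrArg (Polynomial.eval t) h1
    rw [Polynomial.eval_mul, Polynomial.eval_mul, Polynomial.eval_pow, Polynomial.eval_C,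
      Polynomial.eval_X, Polynomial.eval_prod] at h2
    simp only [Polynomial.eval_sub, Polynomial.eval_X, Polynomial.eval_C] at h2
    have h3 : φ.toRingHom.comp (aeval (fun i => (⟨z i, hzA i⟩ : A)) :
        MvPolynomial ι ℂ →ₐ[ℂ] A).toRingHom = (aeval x : MvPolynomial ι ℂ →ₐ[ℂ] ℂ).toRingHom := by
      refine RingHom.ext fun p => ?_
      exact hφa p
    have h4 : evT x t b = Polynomial.eval t (Polynomial.map (φ.toRingHom.comp (aeval
        (fun i => (⟨z i, hzA i⟩ : A)) : MvPolynomial ι ℂ →ₐ[ℂ] A).toRingHom) b) := by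
      rw [h3, Polynomial.eval_map]
      rfl
    rw [h4, h2]
    have h5 : φ.toRingHom (aeval (fun i => (⟨z i, hzA i⟩ : A)) b.leadingCoeff) =
        eval x b.leadingCoeff := hφa _
    rw [h5]
    congr 1
    refine Finset.prod_congr rfl fun j _ => ?_
    have h6 : φ.toRingHom (κ j) = _ := hφκ j
    rw [h6]
  · intro j x' hx'
    have h1 := (hg j _ (hdilm x hx _ _ (hεle.2.2 j) (hNt j))).2.2 _
      (hdilm x' hx' _ _ (hεle.2.2 j) (hNt j)) rfl
    refine h1.trans ?_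
    simp only
    rw [← smul_sub, norm_smul, norm_inv, Complex.norm_natCast, ← mul_assoc, ← div_eq_mul_inv]
    gcongr
    exact hC j

end Pool.Agent.Lib.MP_209724_lc.HS
end

section

namespace Pool.Agent.Lib.MP_209724_lc.HS

open MvPolynomial Filter Topology Metric
open MV (lead evT glue)
open GC (evM)

/-- `exp u` is not close to `1` if `Im u` is not close to `2πℤ` -/
private theorem sl_one_sub_exp {κ : ℝ} (hκ0 : 0 ≤ κ) (hκ : κ ≤ Real.pi) (u : ℂ)
    (h : ∀ m : ℤ, κ ≤ |u.im - 2 * Real.pi * m|) : Real.sin κ ≤ ‖1 - Complex.exp u‖ := by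
  have hpi := Real.pi_pos
  -- reduction of the argument
  set m : ℤ := round (u.im / (2 * Real.pi)) with hm
  set θ : ℝ := u.im - 2 * Real.pi * m with hθ
  have h1 : |θ| ≤ Real.pi := by
    have h2 := abs_sub_round (u.im / (2 * Real.pi))
    have h3 : θ = 2 * Real.pi * (u.im / (2 * Real.pi) - m) := by
      rw [hθ]
      field_simp
    rw [h3, abs_mul, abs_of_pos (by positivity : (0 : ℝ) < 2 * Real.pi)]
    calc 2 * Real.pi * |u.im / (2 * Real.pi) - m| ≤ 2 * Real.pi * (1 / 2) :=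
          mul_le_mul_of_nonneg_left h2 (by positivity)
      _ = Real.pi := by ring
  have h2 : Real.cos u.im ≤ Real.cos κ := by
    have h3 : Real.cos u.im = Real.cos |θ| := by
      rw [Real.cos_abs, hθ, show u.im - 2 * Real.pi * m = u.im - m * (2 * Real.pi) by ring,
        Real.cos_sub_int_mul_two_pi]
    rw [h3]
    exact Real.cos_le_cos_of_nonneg_of_le_pi hκ0 h1 (h m)
  have hs0 : 0 ≤ Real.sin κ := Real.sin_nonneg_of_nonneg_of_le_pi hκ0 hκ
  have h4 : Real.sin κ ^ 2 ≤ ‖1 - Complex.exp u‖ ^ 2 := by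
    rw [← Complex.normSq_eq_norm_sq, Complex.normSq_apply]
    simp only [Complex.sub_re, Complex.one_re, Complex.sub_im, Complex.one_im, Complex.exp_re,
      Complex.exp_im]
    have e0 := Real.exp_pos u.re
    have e1 := Real.sin_sq_add_cos_sq κ
    have e2 := Real.sin_sq_add_cos_sq u.im
    have e3 : Real.exp u.re * Real.cos u.im ≤ Real.exp u.re * Real.cos κ :=
      mul_le_mul_of_nonneg_left h2 e0.le
    have e4 : (1 - Real.exp u.re * Real.cos u.im) * (1 - Real.exp u.re * Real.cos u.im) +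
        (0 - Real.exp u.re * Real.sin u.im) * (0 - Real.exp u.re * Real.sin u.im) =
        1 - 2 * (Real.exp u.re * Real.cos u.im) + Real.exp u.re ^ 2 *
          (Real.sin u.im ^ 2 + Real.cos u.im ^ 2) := by ring
    rw [e4, e2]
    nlinarith [sq_nonneg (Real.exp u.re - Real.cos κ)]
  exact (pow_le_pow_iff_left₀ hs0 (norm_nonneg _) two_ne_zero).1 h4

private theorem sl_factor {κ : ℝ} (hκ0 : 0 ≤ κ) (hκ : κ ≤ Real.pi) (ζ y : ℂ)
    (h : ∀ m : ℤ, κ ≤ |ζ.im - y.im - 2 * Real.pi * m|) :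
    Real.exp (-|ζ.re|) * Real.sin κ ≤ ‖Complex.exp ζ - Complex.exp y‖ := by
  have h1 : Complex.exp ζ - Complex.exp y = Complex.exp ζ * (1 - Complex.exp (y - ζ)) := by
    rw [mul_sub, mul_one, ← Complex.exp_add]
    congr 2
    ring
  have h2 : Real.sin κ ≤ ‖1 - Complex.exp (y - ζ)‖ := by
    apply sl_one_sub_exp hκ0 hκ
    intro m
    have h3 := h (-m)
    rw [Complex.sub_im]
    have h4 : y.im - ζ.im - 2 * Real.pi * m = -(ζ.im - y.im - 2 * Real.pi * ((-m : ℤ) : ℝ)) := by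
      push_cast
      ring
    rw [h4, abs_neg]
    exact h3
  rw [h1, norm_mul, Complex.norm_exp]
  have h3 : Real.exp (-|ζ.re|) ≤ Real.exp ζ.re := Real.exp_le_exp.2 (neg_abs_le _)
  exact mul_le_mul h3 h2 (Real.sin_nonneg_of_nonneg_of_le_pi hκ0 hκ) (Real.exp_pos _).le

/-- HS-40: lower bounds in a sector. -/
theorem sector_lower {ι : Type} [Fintype ι] (b : Polynomial (MvPolynomial ι ℂ)) (hb : b ≠ 0) :
    ∃ c : MvPolynomial ι ℂ, c ≠ 0 ∧ ∀ w : ι → ℂ, eval w (lead c) ≠ 0 →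
      ∃ c₀ : ℝ, 0 < c₀ ∧ c₀ ≤ 1 ∧ ∃ a : ℝ, 0 < a ∧ ∀ (N : ℕ → ℕ) (ρ : ℕ → ℝ) (x₀ : ℕ → ι → ℂ),
        Tendsto N atTop atTop → Tendsto (fun t => ρ t / N t) atTop (𝓝 0) →
        (∀ᶠ t in atTop, ‖x₀ t - (N t : ℂ) • w‖ ≤ 7) →
        ∀ᶠ t in atTop, ∃ φ : ℝ, |φ| ≤ Real.pi ∧ ∀ x ∈ ball (x₀ t) (ρ t), ∀ ζ : ℂ,
          |ζ.im - φ| < c₀ → Real.exp (-(a * (|ζ.re| + 1))) ≤ ‖evT x (Complex.exp ζ) b‖ := by
  obtain ⟨J, k, c, hc, hsp⟩ := special_values b hb
  refine ⟨c, hc, fun w hw => ?_⟩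
  obtain ⟨ε, hε, C, c₁, hc₁, hN⟩ := hsp w hw
  have hpi3 := Real.pi_gt_three
  have hJ : (0 : ℝ) < (J : ℝ) + 1 := by positivity
  set κ : ℝ := 1 / (4 * ((J : ℝ) + 1)) with hκdef
  have hκ0 : 0 < κ := by positivity
  have hκ1 : κ ≤ 1 / 4 := by
    rw [hκdef]
    apply div_le_div_of_nonneg_left (by norm_num) (by norm_num)
    have : (0 : ℝ) ≤ J := by positivity
    linarith
  have hκpi : κ ≤ Real.pi := by linarith
  have hsin : 0 < Real.sin κ := Real.sin_pos_of_pos_of_lt_pi hκ0 (by linarith)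
  set Lc : ℝ := c₁ * Real.sin κ ^ J with hLc
  have hLc0 : 0 < Lc := by positivity
  have hk0 : (0 : ℝ) ≤ k := by positivity
  have hJ0 : (0 : ℝ) ≤ J := by positivity
  refine ⟨1 / (2 * ((J : ℝ) + 1)), by positivity, ?_, k + J + |Real.log Lc| + 1, by positivity, ?_⟩
  · rw [div_le_one (by positivity)]
    linarith
  intro N ρ x₀ hNt hρ hx₀
  have h1 := hNt.eventually hN
  have h2 : ∀ᶠ t in atTop, |ρ t / N t| < min (ε / 2) (κ / (|C| + 1)) := by
    have := (tendsto_order.1 hρ.abs).2 (min (ε / 2) (κ / (|C| + 1)))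
      (by rw [abs_zero]; positivity)
    exact this
  have h3 : ∀ᶠ t in atTop, (14 / ε + 1 : ℝ) ≤ N t := by
    have := (tendsto_natCast_atTop_atTop (R := ℝ)).comp hNt
    exact this.eventually_ge_atTop _
  filter_upwards [h1, h2, h3, hx₀] with t ht1 ht2 ht3 ht4
  obtain ⟨y, hy⟩ := ht1
  have hNpos : (0 : ℝ) < N t := lt_of_lt_of_le (by positivity) ht3
  have hεN : 14 < ε * N t := by
    have : ε * (14 / ε + 1) ≤ ε * N t := mul_le_mul_of_nonneg_left ht3 hε.le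
    have h5 : ε * (14 / ε + 1) = 14 + ε := by field_simp
    linarith
  have hρ1 : ρ t < ε / 2 * N t := by
    have := (le_abs_self _).trans_lt (ht2.trans_le (min_le_left _ _))
    rwa [div_lt_iff₀ hNpos] at this
  have hρ2 : |C| / N t * |ρ t| ≤ κ := by
    have h5 := ht2.trans_le (min_le_right _ _)
    rw [abs_div, abs_of_pos hNpos, lt_div_iff₀ (by positivity)] at h5
    calc |C| / N t * |ρ t| = |ρ t| / N t * |C| := by ring
      _ ≤ |ρ t| / N t * (|C| + 1) := mul_le_mul_of_nonneg_left (by linarith) (by positivity)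
      _ ≤ κ := h5.le
  have hx₀mem : x₀ t ∈ ball ((N t : ℂ) • w) (ε * N t) := by
    rw [mem_ball, dist_eq_norm]
    linarith
  obtain ⟨φ, hφ, hφj⟩ := exists_sector J (fun j => (y j (x₀ t)).im)
  refine ⟨φ, hφ, fun x hx ζ hζ => ?_⟩
  have hxd : ‖x - x₀ t‖ < ρ t := by rwa [mem_ball, dist_eq_norm] at hx
  have hxmem : x ∈ ball ((N t : ℂ) • w) (ε * N t) := by
    rw [mem_ball, dist_eq_norm]
    have h5 : x - (N t : ℂ) • w = (x - x₀ t) + (x₀ t - (N t : ℂ) • w) := by abel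
    rw [h5]
    refine (norm_add_le _ _).trans_lt ?_
    linarith
  obtain ⟨hlc, hfac, hlip⟩ := hy x hxmem
  have hsep : ∀ j, ∀ m : ℤ, κ ≤ |ζ.im - (y j x).im - 2 * Real.pi * m| := by
    intro j m
    have e1 := hφj j m
    have e2 : |(y j x).im - (y j (x₀ t)).im| ≤ κ := by
      rw [← Complex.sub_im]
      refine (Complex.abs_im_le_norm _).trans ((hlip j _ hx₀mem).trans ?_)
      calc C / N t * ‖x - x₀ t‖ ≤ |C| / N t * ‖x - x₀ t‖ := by
            apply mul_le_mul_of_nonneg_right _ (norm_nonneg _)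
            exact div_le_div_of_nonneg_right (le_abs_self C) hNpos.le
        _ ≤ |C| / N t * |ρ t| := by
            apply mul_le_mul_of_nonneg_left _ (by positivity)
            exact hxd.le.trans (le_abs_self _)
        _ ≤ κ := hρ2
    have e3 : φ - (y j (x₀ t)).im - 2 * Real.pi * m =
        (ζ.im - (y j x).im - 2 * Real.pi * m) - (ζ.im - φ) +
          ((y j x).im - (y j (x₀ t)).im) := by ring
    have e4 : |φ - (y j (x₀ t)).im - 2 * Real.pi * m| ≤
        |ζ.im - (y j x).im - 2 * Real.pi * m| + |ζ.im - φ| +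
          |(y j x).im - (y j (x₀ t)).im| := by
      rw [e3]
      refine (abs_add_le _ _).trans (add_le_add_left ?_ _)
      exact abs_sub _ _
    have e5 : 1 / ((J : ℝ) + 1) = 4 * κ := by rw [hκdef]; field_simp
    have e6 : 1 / (2 * ((J : ℝ) + 1)) = 2 * κ := by rw [hκdef]; field_simp; norm_num
    rw [e5] at e1
    rw [e6] at hζ
    linarith
  rw [hfac, norm_mul, norm_mul, norm_pow, norm_prod, Complex.norm_exp]
  have hr : Real.exp (-|ζ.re|) ≤ Real.exp ζ.re := Real.exp_le_exp.2 (neg_abs_le _)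
  have f1 : (Real.exp (-|ζ.re|)) ^ k ≤ (Real.exp ζ.re) ^ k :=
    pow_le_pow_left₀ (Real.exp_pos _).le hr k
  have f2 : (Real.exp (-|ζ.re|) * Real.sin κ) ^ J ≤
      ∏ j, ‖Complex.exp ζ - Complex.exp (y j x)‖ := by
    calc (Real.exp (-|ζ.re|) * Real.sin κ) ^ J =
        ∏ _j : Fin J, (Real.exp (-|ζ.re|) * Real.sin κ) := by simp
      _ ≤ _ := Finset.prod_le_prod (fun _ _ => by positivity)
          (fun j _ => sl_factor hκ0.le hκpi ζ (y j x) (hsep j))
  have f3 : c₁ * (Real.exp (-|ζ.re|)) ^ k * (Real.exp (-|ζ.re|) * Real.sin κ) ^ J ≤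
      ‖eval x b.leadingCoeff‖ * (Real.exp ζ.re) ^ k *
        ∏ j, ‖Complex.exp ζ - Complex.exp (y j x)‖ := by
    apply mul_le_mul (mul_le_mul hlc f1 (by positivity) (by positivity)) f2 (by positivity)
      (by positivity)
  refine le_trans ?_ f3
  have f4 : c₁ * (Real.exp (-|ζ.re|)) ^ k * (Real.exp (-|ζ.re|) * Real.sin κ) ^ J =
      Real.exp (-((k + J) * |ζ.re|)) * Lc := by
    have g1 : Real.exp (-((k + J) * |ζ.re|)) =
        (Real.exp (-|ζ.re|)) ^ k * (Real.exp (-|ζ.re|)) ^ J := by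
      rw [← pow_add, ← Real.exp_nat_mul]
      congr 1
      push_cast
      ring
    rw [g1, hLc, mul_pow]
    ring
  rw [f4]
  have f5 : Real.exp (-|Real.log Lc|) ≤ Lc := by
    calc Real.exp (-|Real.log Lc|) ≤ Real.exp (Real.log Lc) :=
          Real.exp_le_exp.2 (neg_abs_le _)
      _ = Lc := Real.exp_log hLc0
  calc Real.exp (-((k + J + |Real.log Lc| + 1) * (|ζ.re| + 1)))
      ≤ Real.exp (-((k + J) * |ζ.re|) + -|Real.log Lc|) := by
        apply Real.exp_le_exp.2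
        have g1 : 0 ≤ |ζ.re| := abs_nonneg _
        have g2 : 0 ≤ |Real.log Lc| := abs_nonneg _
        have g3 : 0 ≤ |Real.log Lc| * |ζ.re| := mul_nonneg g2 g1
        nlinarith
    _ = Real.exp (-((k + J) * |ζ.re|)) * Real.exp (-|Real.log Lc|) := Real.exp_add _ _
    _ ≤ _ := mul_le_mul_of_nonneg_left f5 (Real.exp_pos _).le

end Pool.Agent.Lib.MP_209724_lc.HS
end

section

/-!
The families of homomorphisms in the irrational case.
-/

namespace Pool.Agent.Lib.MP_209724_lc.HS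

open MvPolynomial Filter Topology Metric
open MV (lead evT glue)
open GC (evM)

/-- the properties of the family for one value of the parameter -/
def FamProp {n : ℕ} {L : Type} [Field L] [Algebra ℂ L] (ξ η : Fin n → L) (l : Fin n) (t : L)
    (A : Subalgebra ℂ L) (hξA : ∀ i, ξ i ∈ A) (htA : t ∈ A) (hηA : ∀ i, η i ∈ A) (c : Fin n → ℝ)
    (m : {j : Fin n // j ≠ l} → ℤ) (N ρ R c₀ C δ φ : ℝ) (Ξ : ({j : Fin n // j ≠ l} → ℂ) → ℂ)
    (Φ : ({j : Fin n // j ≠ l} → ℂ) × ℂ → (A →ₐ[ℂ] ℂ)) : Prop :=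
  (∀ p ∈ Dom m (2 * ρ) (2 * c₀) φ (5 * R),
    (∀ j : {j : Fin n // j ≠ l}, Φ p ⟨ξ j, hξA j⟩ = p.1 j) ∧ Φ p ⟨ξ l, hξA l⟩ = Ξ p.1 ∧
    Φ p ⟨t, htA⟩ = Complex.exp p.2 ∧
    ∀ i, Φ p ⟨η i, hηA i⟩ ≠ 0 ∧ |Real.log ‖Φ p ⟨η i, hηA i⟩‖| ≤ C * R) ∧
  (∀ x : A, AnalyticOnNhd ℂ (fun p => Φ p x) (Dom m (2 * ρ) (2 * c₀) φ (5 * R))) ∧
  DifferentiableOn ℂ Ξ (ball (ipt fun j => (m j : ℝ)) (2 * ρ)) ∧
  (∀ x ∈ ball (ipt fun j => (m j : ℝ)) (2 * ρ), ‖Ξ x‖ ≤ C * N) ∧
  (∀ x ∈ ball (ipt fun j => (m j : ℝ)) ρ, ∀ x' ∈ ball (ipt fun j => (m j : ℝ)) ρ,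
    ‖Ξ x - Ξ x' - ∑ j : {j : Fin n // j ≠ l}, (c j : ℂ) * (x j - x' j)‖ ≤ δ * ‖x - x'‖) ∧
  |(Ξ (ipt fun j => (m j : ℝ))).re| ≤ δ * R

theorem isOpen_dom {ι : Type} [Fintype ι] (m₀ : ι → ℤ) (ρ c₀ φ R : ℝ) :
    IsOpen (Dom m₀ ρ c₀ φ R) := by
  have h1 : IsOpen {ζ : ℂ | |ζ.im - φ| < c₀} :=
    isOpen_lt (by fun_prop : Continuous fun ζ : ℂ => |ζ.im - φ|) continuous_const
  have h2 : IsOpen {ζ : ℂ | |ζ.re| < R} :=
    isOpen_lt (by fun_prop : Continuous fun ζ : ℂ => |ζ.re|) continuous_const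
  exact isOpen_ball.prod (h1.inter h2)

theorem convex_strip (c₀ φ R : ℝ) : Convex ℝ {ζ : ℂ | |ζ.im - φ| < c₀ ∧ |ζ.re| < R} := by
  have h1 : {ζ : ℂ | |ζ.im - φ| < c₀ ∧ |ζ.re| < R} =
      ({ζ : ℂ | φ - c₀ < ζ.im} ∩ {ζ : ℂ | ζ.im < φ + c₀}) ∩
        ({ζ : ℂ | -R < ζ.re} ∩ {ζ : ℂ | ζ.re < R}) := by
    ext ζ
    simp only [Set.mem_ofPred_eq, Set.mem_inter_iff, abs_lt]
    constructor
    · rintro ⟨⟨h1, h2⟩, h3, h4⟩
      exact ⟨⟨by linarith, by linarith⟩, h3, h4⟩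
    · rintro ⟨⟨h1, h2⟩, h3, h4⟩
      exact ⟨⟨by linarith, by linarith⟩, h3, h4⟩
  rw [h1]
  exact ((convex_halfSpace_im_gt _).inter (convex_halfSpace_im_lt _)).inter
    ((convex_halfSpace_re_gt _).inter (convex_halfSpace_re_lt _))

theorem convex_dom {ι : Type} [Fintype ι] (m₀ : ι → ℤ) (ρ c₀ φ R : ℝ) :
    Convex ℝ (Dom m₀ ρ c₀ φ R) :=
  (convex_ball _ _).prod (convex_strip c₀ φ R)

theorem norm_ipt_sub {ι : Type} [Fintype ι] (β β' : ι → ℝ) (h : ∀ j, |β j - β' j| ≤ 1) :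
    ‖ipt β - ipt β'‖ ≤ 7 := by
  rw [pi_norm_le_iff_of_nonneg (by norm_num)]
  intro j
  have h1 : (ipt β - ipt β') j = (2 * Real.pi * Complex.I : ℂ) * ((β j - β' j : ℝ) : ℂ) := by
    simp only [ipt, Pi.sub_apply]
    push_cast
    ring
  rw [h1, norm_mul, Complex.norm_real, Real.norm_eq_abs]
  have h2 : ‖(2 * Real.pi * Complex.I : ℂ)‖ = 2 * Real.pi := by
    simp [abs_of_pos Real.pi_pos]
  rw [h2]
  have h3 := h j
  have h4 : Real.pi < 3.15 := Real.pi_lt_d2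
  have h5 := Real.pi_pos
  have h6 := abs_nonneg (β j - β' j)
  nlinarith

theorem caseI_family {n : ℕ} {L : Type} [Field L] [Algebra ℂ L] (ξ η : Fin n → L)
    (hη : ∀ i, η i ≠ 0) (P q r : MvPolynomial (Fin n) ℂ) (hP : ∀ c, aeval ξ c = 0 ↔ P ∣ c)
    {e d : ℕ} (he : 0 < e) (hfac : lead P = q ^ e * r) (hqd : q.IsHomogeneous d) (l : Fin n)
    (hξ : AlgebraicIndependent ℂ (fun j : {j : Fin n // j ≠ l} => ξ j))
    (hl : IsAlgebraic (Algebra.adjoin ℂ (Set.range fun j : {j : Fin n // j ≠ l} => ξ j)) (ξ l))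
    (t : L) (ht : Transcendental (IntermediateField.adjoin ℂ (Set.range ξ)) t)
    (hz : AlgebraicIndependent ℂ (fun o : Option {j : Fin n // j ≠ l} => o.elim t fun j => ξ j))
    (hzalg : Algebra.IsAlgebraic (Algebra.adjoin ℂ
        (Set.range fun o : Option {j : Fin n // j ≠ l} => o.elim t fun j => ξ j)) L)
    (A : Subalgebra ℂ L) (hA : A.FG) (hξA : ∀ i, ξ i ∈ A) (htA : t ∈ A) (hηA : ∀ i, η i ∈ A)
    (hηA' : ∀ i, (η i)⁻¹ ∈ A) :
    ∃ g : MvPolynomial {j : Fin n // j ≠ l} ℂ, g ≠ 0 ∧ ∀ b : Fin n → ℝ,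
      eval (fun i => (b i : ℂ)) q = 0 → eval (fun i => (b i : ℂ)) (pderiv l q) ≠ 0 →
      eval (fun i => (b i : ℂ)) r ≠ 0 →
      eval (fun j : {j : Fin n // j ≠ l} => (b j : ℂ)) (lead g) ≠ 0 →
      ∀ c : Fin n → ℝ, (∀ j, (c j : ℂ) * eval (fun i => (b i : ℂ)) (pderiv l q) =
        -eval (fun i => (b i : ℂ)) (pderiv j q)) →
      ∀ m₀ : ℕ → {j : Fin n // j ≠ l} → ℤ,
        (∀ s j, |(m₀ s j : ℝ) - (s : ℝ) ^ (3 * e) * b j| ≤ 1) →
      ∃ (c₀ C : ℝ) (δ φ : ℕ → ℝ) (Ξ : ℕ → ({j : Fin n // j ≠ l} → ℂ) → ℂ)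
        (Φ : ℕ → ({j : Fin n // j ≠ l} → ℂ) × ℂ → (A →ₐ[ℂ] ℂ)),
        0 < c₀ ∧ c₀ ≤ 1 ∧ 0 < C ∧ Tendsto δ atTop (𝓝 0) ∧ ∀ᶠ s : ℕ in atTop,
          FamProp ξ η l t A hξA htA hηA c (m₀ s) ((s : ℝ) ^ (3 * e)) ((s : ℝ) ^ (3 * e) / s)
            ((s : ℝ) ^ (3 * e) / s ^ 2) c₀ C (δ s) (φ s) (Ξ s) (Φ s) := by
  classical
  have halgA : ∀ x ∈ A, IsAlgebraic (Algebra.adjoin ℂ (Set.range ξ ∪ {t})) x := by
    intro x _
    have hsub : Algebra.adjoin ℂ
        (Set.range fun o : Option {j : Fin n // j ≠ l} => o.elim t fun j => ξ j) ≤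
        Algebra.adjoin ℂ (Set.range ξ ∪ {t}) := by
      apply Algebra.adjoin_mono
      rintro _ ⟨_ | j, rfl⟩
      · right; rfl
      · left; exact ⟨j, rfl⟩
    exact MV.isAlgebraic_of_map (Subalgebra.inclusion hsub).toRingHom (fun r => rfl)
      (Subalgebra.inclusion_injective hsub) (hzalg.isAlgebraic x)
  obtain ⟨bS, hbS, hsheets⟩ := exists_sheets_PT ξ P hP l hξ hl t ht A hA hξA htA halgA
  obtain ⟨bb, hbb, hdvd, a, ha, hbound⟩ := eta_bounds (fun j : {j : Fin n // j ≠ l} => ξ j) t η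
    hz hη (fun i => hzalg.isAlgebraic (η i)) bS hbS
  obtain ⟨g, hg, hsector⟩ := sector_lower bb hbb
  refine ⟨g, hg, ?_⟩
  intro b hqb hlb hrb hgb c hc m₀ hm₀
  set w : {j : Fin n // j ≠ l} → ℂ := ipt fun j => b j with hw
  have hgw : eval w (lead g) ≠ 0 := by
    rw [hw, ipt_eq]
    exact eval_smul_lead_ne g two_pi_I_ne _ hgb
  obtain ⟨c₀, hc₀, hc₀1, a₁, ha₁, hsec⟩ := hsector w hgw
  have hPξ : aeval ξ P = 0 := (hP P).mpr dvd_rfl
  have hPψ : ∀ ψ : A →ₐ[ℂ] ℂ, eval (fun i => ψ ⟨ξ i, hξA i⟩) P = 0 := by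
    intro ψ
    have h1 : (aeval (fun i => (⟨ξ i, hξA i⟩ : A)) P : A) = 0 := by
      apply Subtype.ext
      have h2 : ((aeval (fun i => (⟨ξ i, hξA i⟩ : A)) P : A) : L) = aeval ξ P := by
        have := MvPolynomial.comp_aeval_apply (B := L) (fun i => (⟨ξ i, hξA i⟩ : A)) A.val P
        rw [← Subalgebra.val_apply, this]
        rfl
      rw [h2, hPξ]
      rfl
    have h3 := congrArg ψ h1
    rw [map_zero, MvPolynomial.comp_aeval_apply, MvPolynomial.aeval_eq_eval] at h3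
    exact h3
  -- scales
  have hN := tendsto_sc_N he
  have hclose : ∀ s, ‖(ipt fun j => (m₀ s j : ℝ)) - ((s ^ (3 * e) : ℕ) : ℂ) • w‖ ≤ 7 := by
    intro s
    have h1 : ((s ^ (3 * e) : ℕ) : ℂ) • w =
        ipt fun j : {j : Fin n // j ≠ l} => (s : ℝ) ^ (3 * e) * b j := by
      funext j
      simp only [hw, ipt, Pi.smul_apply, smul_eq_mul]
      push_cast
      ring
    rw [h1]
    exact norm_ipt_sub _ _ (hm₀ s)
  have hsec' := hsec (fun s => s ^ (3 * e)) (fun s => 2 * ((s : ℝ) ^ (3 * e) / s))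
    (fun s => ipt fun j => (m₀ s j : ℝ)) hN (tendsto_sc_rho_div_N 2)
    (Eventually.of_forall hclose)
  obtain ⟨Cb, δ, hδ, hbranch⟩ := branch_family P q r he hfac hqd l b hqb hlb hrb c hc m₀ hm₀
  -- size of the centre
  have hsize : ∀ᶠ s : ℕ in atTop, ∀ x ∈ ball (ipt fun j => (m₀ s j : ℝ))
      (2 * ((s : ℝ) ^ (3 * e) / s)), ∀ j, ‖x j‖ ≤ Real.exp ((s : ℝ) ^ (3 * e) / s ^ 2) := by
    filter_upwards [sc_le_exp he (‖w‖ + 9) (3 * e), eventually_ge_atTop 1] with s hs hs1 x hx j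
    refine le_trans ?_ hs
    have hs1' : (1 : ℝ) ≤ s := by exact_mod_cast hs1
    have hpow : (1 : ℝ) ≤ (s : ℝ) ^ (3 * e) := one_le_pow₀ hs1'
    have h1 : ‖x j‖ ≤ ‖x‖ := norm_le_pi_norm x j
    rw [mem_ball, dist_eq_norm] at hx
    have h2 : ‖x‖ ≤ ‖x - ipt fun j => (m₀ s j : ℝ)‖ +
        ‖(ipt fun j => (m₀ s j : ℝ)) - ((s ^ (3 * e) : ℕ) : ℂ) • w‖ +
        ‖((s ^ (3 * e) : ℕ) : ℂ) • w‖ := by
      have h3 : x = (x - ipt fun j => (m₀ s j : ℝ)) +
          ((ipt fun j => (m₀ s j : ℝ)) - ((s ^ (3 * e) : ℕ) : ℂ) • w) +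
          ((s ^ (3 * e) : ℕ) : ℂ) • w := by abel
      calc ‖x‖ = ‖(x - ipt fun j => (m₀ s j : ℝ)) +
          ((ipt fun j => (m₀ s j : ℝ)) - ((s ^ (3 * e) : ℕ) : ℂ) • w) +
          ((s ^ (3 * e) : ℕ) : ℂ) • w‖ := by rw [← h3]
        _ ≤ _ := (norm_add_le _ _).trans (add_le_add_left (norm_add_le _ _) _)
    have h4 : ‖((s ^ (3 * e) : ℕ) : ℂ) • w‖ = (s : ℝ) ^ (3 * e) * ‖w‖ := by
      rw [norm_smul, Complex.norm_natCast]
      push_cast
      rfl
    have h5 : (s : ℝ) ^ (3 * e) / s ≤ (s : ℝ) ^ (3 * e) := div_le_self (by positivity) hs1'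
    have h6 := hclose s
    rw [h4] at h2
    nlinarith
  -- the families
  have hmain : ∀ᶠ s : ℕ in atTop, ∃ φΞΦ : ℝ × (({j : Fin n // j ≠ l} → ℂ) → ℂ) ×
      (({j : Fin n // j ≠ l} → ℂ) × ℂ → (A →ₐ[ℂ] ℂ)),
      FamProp ξ η l t A hξA htA hηA c (m₀ s) ((s : ℝ) ^ (3 * e)) ((s : ℝ) ^ (3 * e) / s)
        ((s : ℝ) ^ (3 * e) / s ^ 2) (c₀ / 2) (max Cb (a * (6 + 6 * a₁)) + 1) (δ s) φΞΦ.1 φΞΦ.2.1
        φΞΦ.2.2 := by
    filter_upwards [hsec', hbranch, hsize, eventually_ge_atTop 1] with s h1 h2 h3 hs1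
    have hs1' : (1 : ℝ) ≤ s := by exact_mod_cast hs1
    obtain ⟨φ, -, hφ⟩ := h1
    obtain ⟨y₀, hy₀, hY⟩ := h2
    set N : ℝ := (s : ℝ) ^ (3 * e) with hNdef
    set ρ : ℝ := N / s with hρdef
    set R : ℝ := N / s ^ 2 with hRdef
    set x₀ : {j : Fin n // j ≠ l} → ℂ := ipt fun j => (m₀ s j : ℝ) with hx₀
    have hN0 : 0 < N := by positivity
    have hρ0 : 0 < ρ := by positivity
    have hR1 : 1 ≤ R := hs1'.trans (sc_R_ge he hs1)
    set D := Dom (m₀ s) (2 * ρ) c₀ φ (5 * R) with hD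
    have hDo : IsOpen D := isOpen_dom _ _ _ _ _
    have hDc : Convex ℝ D := convex_dom _ _ _ _ _
    have hbD : ∀ p ∈ D, Real.exp (-(a₁ * (|p.2.re| + 1))) ≤ ‖evT p.1 (Complex.exp p.2) bb‖ :=
      fun p hp => hφ p.1 hp.1 p.2 hp.2.1
    have hbne : ∀ p ∈ D, evT p.1 (Complex.exp p.2) bS ≠ 0 := by
      intro p hp h0
      obtain ⟨k, hk⟩ := hdvd
      have h4 := hbD p hp
      rw [hk, map_mul, h0, zero_mul, norm_zero] at h4
      exact absurd h4 (not_le.mpr (Real.exp_pos _))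
    have hp₀ : ((x₀, (φ : ℂ) * Complex.I) : ({j : Fin n // j ≠ l} → ℂ) × ℂ) ∈ D := by
      refine ⟨mem_ball_self (by positivity), ?_, ?_⟩
      · simp [hc₀]
      · have : (0 : ℝ) < 5 * R := by linarith
        simpa using this
    obtain ⟨Φ, hΦ0, hΦ, hΦan⟩ := hsheets (({j : Fin n // j ≠ l} → ℂ) × ℂ) D hDo hDc Prod.fst
      Prod.snd
      (by
        intro j p _
        have h2 : AnalyticAt ℂ (fun v : {j : Fin n // j ≠ l} → ℂ => v j) p.1 :=
          (ContinuousLinearMap.proj (R := ℂ) (φ := fun _ : {j : Fin n // j ≠ l} => ℂ)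
            j).analyticAt _
        exact h2.comp analyticAt_fst)
      (fun p _ => analyticAt_snd) hbne (x₀, (φ : ℂ) * Complex.I) hp₀ y₀ hy₀
    set Ξ : ({j : Fin n // j ≠ l} → ℂ) → ℂ := fun x => Φ (x, (φ : ℂ) * Complex.I) ⟨ξ l, hξA l⟩
      with hΞ
    have hglue : ∀ p ∈ D, (fun i => Φ p ⟨ξ i, hξA i⟩) = glue l p.1 (Φ p ⟨ξ l, hξA l⟩) := by
      intro p hp
      funext i
      by_cases hi : i = l
      · subst hi
        rw [MV.glue_self]
      · have := MV.glue_of_ne l p.1 (Φ p ⟨ξ l, hξA l⟩) ⟨i, hi⟩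
        simp only at this
        rw [this]
        exact (hΦ p hp).1 ⟨i, hi⟩
    have hPD : ∀ p ∈ D, eval (glue l p.1 (Φ p ⟨ξ l, hξA l⟩)) P = 0 := by
      intro p hp
      rw [← hglue p hp]
      exact hPψ (Φ p)
    have hsub : ∀ x ∈ ball x₀ (2 * ρ), ((x, (φ : ℂ) * Complex.I) :
        ({j : Fin n // j ≠ l} → ℂ) × ℂ) ∈ D := by
      intro x hx
      exact ⟨hx, hp₀.2⟩
    -- `Ξ` does not depend on `ζ`
    have hΞD : ∀ p ∈ D, Φ p ⟨ξ l, hξA l⟩ = Ξ p.1 := by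
      rintro ⟨x, ζ⟩ hp
      have hstrip : IsPreconnected {ζ : ℂ | |ζ.im - φ| < c₀ ∧ |ζ.re| < 5 * R} :=
        (convex_strip c₀ φ (5 * R)).isPreconnected
      have hcont : ContinuousOn (fun ζ : ℂ => Φ (x, ζ) ⟨ξ l, hξA l⟩)
          {ζ : ℂ | |ζ.im - φ| < c₀ ∧ |ζ.re| < 5 * R} := by
        have h5 := (hΦan ⟨ξ l, hξA l⟩).continuousOn
        exact h5.comp (by fun_prop : Continuous fun ζ : ℂ => (x, ζ)).continuousOn
          (fun ζ hζ => ⟨hp.1, hζ⟩)
      exact branch_unique P l hstrip (fun _ => x) continuousOn_const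
        (fun ζ : ℂ => Φ (x, ζ) ⟨ξ l, hξA l⟩) (fun _ => Ξ x) hcont continuousOn_const
        (fun ζ hζ => hPD (x, ζ) ⟨hp.1, hζ⟩)
        (fun ζ hζ => hPD (x, (φ : ℂ) * Complex.I) (hsub x hp.1))
        (fun ζ hζ => (hΦ (x, ζ) ⟨hp.1, hζ⟩).2.2) (p₀ := (φ : ℂ) * Complex.I) hp₀.2 rfl ζ hp.2
    have hΞd : DifferentiableOn ℂ Ξ (ball x₀ (2 * ρ)) := by
      have h5 : DifferentiableOn ℂ (fun p => Φ p ⟨ξ l, hξA l⟩) D :=
        (hΦan ⟨ξ l, hξA l⟩).differentiableOn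
      exact h5.comp (f := fun x : {j : Fin n // j ≠ l} → ℂ => (x, (φ : ℂ) * Complex.I))
        (by fun_prop) hsub
    obtain ⟨hY1, hY2, hY3⟩ := hY Ξ hΞd hΦ0 (fun x hx => hPD _ (hsub x hx))
    refine ⟨(φ, Ξ, Φ), ?_⟩
    have h2c : 2 * (c₀ / 2) = c₀ := by ring
    refine ⟨?_, ?_, hΞd, ?_, hY2, hY3⟩
    · rw [h2c]
      intro p hp
      have hpD : p ∈ D := hp
      refine ⟨(hΦ p hpD).1, hΞD p hpD, (hΦ p hpD).2.1, ?_⟩
      have hre : |p.2.re| < 5 * R := hpD.2.2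
      set R' : ℝ := (5 + 6 * a₁) * R with hR'
      have hR'0 : 0 ≤ R' := by positivity
      have hRR' : R ≤ R' := by rw [hR']; nlinarith
      have h6 := hbound A (fun j => hξA j) htA hηA hηA' (Φ p) R' hR'0
        (by
          intro j
          rw [(hΦ p hpD).1 j]
          exact (h3 p.1 hpD.1 j).trans (Real.exp_le_exp.mpr hRR'))
        (by
          rw [(hΦ p hpD).2.1, Complex.norm_exp]
          apply Real.exp_le_exp.mpr
          have := le_abs_self p.2.re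
          rw [hR']
          nlinarith)
        (by
          have h7 : (fun j : {j : Fin n // j ≠ l} => Φ p ⟨ξ j, hξA j⟩) = p.1 :=
            funext (hΦ p hpD).1
          rw [h7, (hΦ p hpD).2.1]
          refine le_trans ?_ (hbD p hpD)
          apply Real.exp_le_exp.mpr
          rw [hR']
          nlinarith [abs_nonneg p.2.re])
      intro i
      refine ⟨(h6 i).1, (h6 i).2.trans ?_⟩
      have h8 : a * (R' + 1) ≤ a * (6 + 6 * a₁) * R := by
        rw [hR', mul_assoc]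
        apply mul_le_mul_of_nonneg_left _ ha.le
        nlinarith
      refine h8.trans (mul_le_mul_of_nonneg_right ?_ (by linarith))
      exact (le_max_right _ _).trans (by linarith)
    · rw [h2c]
      exact hΦan
    · intro x hx
      refine (hY1 x hx).trans (mul_le_mul_of_nonneg_right ?_ hN0.le)
      exact (le_max_left _ _).trans (by linarith)
  have hne : Nonempty (A →ₐ[ℂ] ℂ) := by
    obtain ⟨s, ⟨φΞΦ, -⟩⟩ := hmain.exists
    exact ⟨φΞΦ.2.2 (0, 0)⟩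
  obtain ⟨f, hf⟩ := hmain.choice
  refine ⟨c₀ / 2, max Cb (a * (6 + 6 * a₁)) + 1, δ, fun s => (f s).1, fun s => (f s).2.1,
    fun s => (f s).2.2, by positivity, by linarith, ?_, hδ, hf⟩
  have h9 : 0 < a * (6 + 6 * a₁) := by positivity
  linarith [le_max_right Cb (a * (6 + 6 * a₁))]

end Pool.Agent.Lib.MP_209724_lc.HS
end
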