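import Mathlib
import Pool.Agent.Lib.MP_209724_lc.SC.Ed3
import Pool.Agent.Lib.MP_209724_lc.SC.Ed10
import Pool.Agent.Lib.MP_209724_lc.MV.Idem
import Pool.Agent.Lib.MP_209724_lc.HS.Branch

section

namespace Pool.Agent.Lib.MP_209724_lc.HS

open MvPolynomial Filter Topology Metric
open MV (lead evT glue)
open GC (evM)

private lemma poly_low {D k₀ : ℕ} {a : ℕ → ℂ} {M m R : ℝ} (hkD : k₀ ≤ D) (hm : 0 ≤ m)
    (hM : ∀ k, ‖a k‖ ≤ M) (hlow : ∀ k < k₀, a k = 0) (hD : m ≤ ‖a D‖) (hk : m ≤ ‖a k₀‖)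
    (hR : 1 ≤ R) (hRM : 2 * (D * M) ≤ m * R) (t : ℂ) :
    (R ≤ ‖t‖ → m / 2 ≤ ‖∑ k ∈ Finset.range (D + 1), a k * t ^ k‖) ∧
      (‖t‖ ≤ R⁻¹ → m / 2 * ‖t‖ ^ k₀ ≤ ‖∑ k ∈ Finset.range (D + 1), a k * t ^ k‖) := by
  have hR0 : 0 < R := by linarith
  have hM0 : 0 ≤ M := (norm_nonneg _).trans (hM 0)
  have hgen : ∀ (j : ℕ), j ≤ D → ∀ X : ℝ, 0 ≤ X → m * X ≤ ‖a j * t ^ j‖ →
      (∀ k ∈ (Finset.range (D + 1)).erase j, ‖a k * t ^ k‖ ≤ M * (X * R⁻¹)) →
      m / 2 * X ≤ ‖∑ k ∈ Finset.range (D + 1), a k * t ^ k‖ := by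
    intro j hj X hX h1 h2
    have h3 : ‖∑ k ∈ (Finset.range (D + 1)).erase j, a k * t ^ k‖ ≤ D * (M * (X * R⁻¹)) := by
      refine (norm_sum_le _ _).trans ((Finset.sum_le_card_nsmul _ _ _ h2).trans (le_of_eq ?_))
      rw [Finset.card_erase_of_mem (Finset.mem_range.mpr (by omega)), Finset.card_range]
      simp
    rw [← Finset.add_sum_erase _ _ (Finset.mem_range.mpr (show j < D + 1 by omega))]
    have h4 : D * (M * (X * R⁻¹)) ≤ m / 2 * X := by
      have h5 : D * M * R⁻¹ ≤ m / 2 := by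
        rw [← div_eq_mul_inv, div_le_iff₀ hR0]
        linarith
      calc D * (M * (X * R⁻¹)) = D * M * R⁻¹ * X := by ring
        _ ≤ m / 2 * X := mul_le_mul_of_nonneg_right h5 hX
    have h6 := norm_sub_le_norm_add (a j * t ^ j)
      (∑ k ∈ (Finset.range (D + 1)).erase j, a k * t ^ k)
    linarith
  constructor
  · intro ht
    have ht1 : 1 ≤ ‖t‖ := hR.trans ht
    have hX1 : 1 ≤ ‖t‖ ^ D := one_le_pow₀ ht1
    have h1 := hgen D le_rfl (‖t‖ ^ D) (by positivity) (by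
      rw [norm_mul, norm_pow]
      exact mul_le_mul_of_nonneg_right hD (by positivity)) (by
      intro k hk'
      rw [Finset.mem_erase, Finset.mem_range] at hk'
      rw [norm_mul, norm_pow]
      refine mul_le_mul (hM k) ?_ (by positivity) hM0
      rw [← div_eq_mul_inv, le_div_iff₀ hR0]
      calc ‖t‖ ^ k * R ≤ ‖t‖ ^ k * ‖t‖ := mul_le_mul_of_nonneg_left ht (by positivity)
        _ = ‖t‖ ^ (k + 1) := (pow_succ _ _).symm
        _ ≤ ‖t‖ ^ D := pow_le_pow_right₀ ht1 (by omega))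
    refine le_trans ?_ h1
    nlinarith
  · intro ht
    have ht1 : ‖t‖ ≤ 1 := ht.trans (inv_le_one_of_one_le₀ hR)
    refine hgen k₀ hkD (‖t‖ ^ k₀) (by positivity) (by
      rw [norm_mul, norm_pow]
      exact mul_le_mul_of_nonneg_right hk (by positivity)) ?_
    intro k hk'
    rw [Finset.mem_erase, Finset.mem_range] at hk'
    rcases Nat.lt_or_ge k k₀ with hlt | hge
    · rw [hlow k hlt, zero_mul, norm_zero]
      positivity
    · rw [norm_mul, norm_pow]
      refine mul_le_mul (hM k) ?_ (by positivity) hM0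
      calc ‖t‖ ^ k ≤ ‖t‖ ^ (k₀ + 1) := pow_le_pow_of_le_one (norm_nonneg _) ht1 (by omega)
        _ = ‖t‖ ^ k₀ * ‖t‖ := pow_succ _ _
        _ ≤ ‖t‖ ^ k₀ * R⁻¹ := mul_le_mul_of_nonneg_left ht (by positivity)

private lemma eval_up {ι : Type} [Fintype ι] (c : MvPolynomial ι ℂ) (w : ι → ℂ) :
    ∃ C : ℝ, 0 ≤ C ∧ ∀ s : ℂ, 0 ≤ s.re → ∀ v ∈ ball w 1,
      ‖eval (fun i => Complex.exp s * v i) c‖ ≤ C * Real.exp (c.totalDegree * s.re) := by
  set d := c.totalDegree with hd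
  have hcomp : IsCompact ((closedBall (0:ℂ) 1) ×ˢ (closedBall w 1)) :=
    (isCompact_closedBall _ _).prod (isCompact_closedBall _ _)
  obtain ⟨C, hC⟩ := hcomp.exists_bound_of_continuousOn
    (f := fun p : ℂ × (ι → ℂ) => MV.asymResc c d p.1 p.2)
    (MV.continuous_asymResc c d).continuousOn
  refine ⟨|C|, abs_nonneg _, fun s hs v hv => ?_⟩
  have h2 := MV.eval_eq_asymResc c hd.symm (Complex.exp_ne_zero s) v
  have h1 : ‖MV.asymResc c d (Complex.exp s)⁻¹ v‖ ≤ C := by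
    refine hC ((Complex.exp s)⁻¹, v) ⟨?_, ball_subset_closedBall hv⟩
    rw [mem_closedBall_zero_iff, ← Complex.exp_neg, Complex.norm_exp, Complex.neg_re,
      Real.exp_le_one_iff]
    linarith
  rw [h2, norm_mul, norm_pow, Complex.norm_exp, ← Real.exp_nat_mul, mul_comm]
  exact mul_le_mul_of_nonneg_right (h1.trans (le_abs_self _)) (Real.exp_pos _).le

private lemma coeff_up {ι : Type} [Fintype ι] (b : Polynomial (MvPolynomial ι ℂ)) (w : ι → ℂ) :
    ∃ (C : ℝ) (A : ℕ), 0 ≤ C ∧ ∀ s : ℂ, 0 ≤ s.re → ∀ v ∈ ball w 1, ∀ k,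
      ‖eval (fun i => Complex.exp s * v i) (b.coeff k)‖ ≤ C * Real.exp (A * s.re) := by
  choose C hC0 hC using fun k => eval_up (b.coeff k) w
  refine ⟨∑ k ∈ b.support, C k, ∑ k ∈ b.support, (b.coeff k).totalDegree,
    Finset.sum_nonneg fun k _ => hC0 k, fun s hs v hv k => ?_⟩
  by_cases hk : k ∈ b.support
  · refine (hC k s hs v hv).trans ?_
    refine mul_le_mul (Finset.single_le_sum (fun j _ => hC0 j) hk) ?_ (Real.exp_pos _).le
      (Finset.sum_nonneg fun k _ => hC0 k)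
    apply Real.exp_le_exp.mpr
    refine mul_le_mul_of_nonneg_right ?_ hs
    exact_mod_cast Finset.single_le_sum (f := fun k => (b.coeff k).totalDegree)
      (fun j _ => Nat.zero_le _) hk
  · rw [Polynomial.notMem_support_iff] at hk
    rw [hk, map_zero, norm_zero]
    exact mul_nonneg (Finset.sum_nonneg fun k _ => hC0 k) (Real.exp_pos _).le

private lemma evT_sum {ι : Type} (b : Polynomial (MvPolynomial ι ℂ)) (x : ι → ℂ) (t : ℂ) :
    evT x t b = ∑ k ∈ Finset.range (b.natDegree + 1), eval x (b.coeff k) * t ^ k := by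
  simp only [evT, Polynomial.coe_eval₂RingHom, Polynomial.eval₂_eq_sum_range]
  refine Finset.sum_congr rfl fun k _ => ?_
  congr 1

private lemma growth_facts {θ c' δ E C₁ m : ℝ} (A D k₀ K : ℕ) (hθ : 0 < θ) (hθ1 : θ < 1)
    (hc' : 0 < c') (hδ : 0 < δ) (hm : 0 < m) :
    ∀ᶠ N : ℕ in atTop, 2 * (D * (C₁ * (N : ℝ) ^ (A : ℝ))) ≤ m * Real.exp (c' * (N : ℝ) ^ θ) ∧
      E * (N : ℝ) ^ θ ≤ δ * N ∧ Real.exp (-(δ * N)) ≤ m / 2 ∧
      Real.exp (-(δ * N)) ≤ m / 2 * Real.exp (-(K * k₀ * (E * (N : ℝ) ^ θ))) := by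
  have hN : Tendsto (fun N : ℕ => (N : ℝ)) atTop atTop := tendsto_natCast_atTop_atTop
  have hNθ : Tendsto (fun N : ℕ => (N : ℝ) ^ θ) atTop atTop := (tendsto_rpow_atTop hθ).comp hN
  -- exponential beats powers
  have h1 : ∀ᶠ N : ℕ in atTop, 2 * (D * (C₁ * (N : ℝ) ^ (A : ℝ))) ≤
      m * Real.exp (c' * (N : ℝ) ^ θ) := by
    have h2 := (isLittleO_exp_neg_mul_rpow_atTop hc' (-((A : ℝ) / θ))).comp_tendsto hNθ
    have hpos : 0 < m / (2 * (D * |C₁|) + 1) := by positivity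
    have h3 := h2.bound hpos
    filter_upwards [h3, hN.eventually_gt_atTop 0] with N h4 hN0
    simp only [Function.comp, Real.norm_eq_abs, Real.abs_exp] at h4
    rw [abs_of_nonneg (Real.rpow_nonneg (Real.rpow_nonneg hN0.le _) _),
      ← Real.rpow_mul hN0.le] at h4
    have h5 : θ * -((A : ℝ) / θ) = -(A : ℝ) := by field_simp
    rw [h5] at h4
    have h6 : 0 < Real.exp (c' * (N : ℝ) ^ θ) := Real.exp_pos _
    have h7 : 0 < (N : ℝ) ^ (A : ℝ) := Real.rpow_pos_of_pos hN0 _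
    have h8 : (N : ℝ) ^ (A : ℝ) * Real.exp (-c' * (N : ℝ) ^ θ) ≤ m / (2 * (D * |C₁|) + 1) := by
      have := mul_le_mul_of_nonneg_left h4 h7.le
      refine this.trans (le_of_eq ?_)
      rw [Real.rpow_neg hN0.le]
      field_simp
    have h9 : (N : ℝ) ^ (A : ℝ) * (2 * (D * |C₁|) + 1) ≤ m * Real.exp (c' * (N : ℝ) ^ θ) := by
      rw [le_div_iff₀ (by positivity)] at h8
      have h10 := mul_le_mul_of_nonneg_right h8 h6.le
      refine le_trans (le_of_eq ?_) h10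
      have : Real.exp (-c' * (N : ℝ) ^ θ) * Real.exp (c' * (N : ℝ) ^ θ) = 1 := by
        rw [← Real.exp_add]; simp
      calc (N : ℝ) ^ (A : ℝ) * (2 * (D * |C₁|) + 1) =
          (N : ℝ) ^ (A : ℝ) * (2 * (D * |C₁|) + 1) *
            (Real.exp (-c' * (N : ℝ) ^ θ) * Real.exp (c' * (N : ℝ) ^ θ)) := by rw [this, mul_one]
        _ = _ := by ring
    refine le_trans ?_ h9
    have h11 : C₁ ≤ |C₁| := le_abs_self _
    have h12 : (D : ℝ) * (C₁ * (N : ℝ) ^ (A : ℝ)) ≤ D * (|C₁| * (N : ℝ) ^ (A : ℝ)) := by gcongr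
    nlinarith
  -- power of exponent < 1
  have h2 : ∀ X : ℝ, ∀ᶠ N : ℕ in atTop, X * (N : ℝ) ^ θ ≤ δ / 2 * N := by
    intro X
    have h3 := (tendsto_rpow_neg_atTop (show 0 < 1 - θ by linarith)).comp hN
    have h4 := h3.eventually_lt_const (show 0 < δ / 2 / (|X| + 1) by positivity)
    filter_upwards [h4, hN.eventually_gt_atTop 0] with N h5' hN0
    simp only [Function.comp] at h5'
    have h5 : (N : ℝ) ^ θ ≤ δ / 2 / (|X| + 1) * N := by
      have e1 : (N : ℝ) ^ θ = (N : ℝ) ^ (-(1 - θ)) * N := by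
        rw [← Real.rpow_add_one hN0.ne']
        congr 1
        ring
      rw [e1]
      exact mul_le_mul_of_nonneg_right h5'.le hN0.le
    have h6 : (|X| + 1) * (N : ℝ) ^ θ ≤ δ / 2 * N := by
      have := mul_le_mul_of_nonneg_left h5 (show 0 ≤ |X| + 1 by positivity)
      refine this.trans (le_of_eq ?_)
      field_simp
    refine le_trans ?_ h6
    have h7 : 0 ≤ (N : ℝ) ^ θ := Real.rpow_nonneg hN0.le _
    have h8 : X ≤ |X| + 1 := by linarith [le_abs_self X]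
    exact mul_le_mul_of_nonneg_right h8 h7
  have h3 : ∀ᶠ N : ℕ in atTop, -Real.log (m / 2) ≤ δ / 2 * N := by
    have : Tendsto (fun N : ℕ => δ / 2 * (N : ℝ)) atTop atTop :=
      hN.const_mul_atTop (by positivity)
    exact this.eventually_ge_atTop _
  filter_upwards [h1, h2 E, h2 (K * k₀ * E), h3, h2 0] with N a1 a2 a3 a4 a5
  have hm2 : 0 < m / 2 := by positivity
  have a6 : 0 ≤ δ / 2 * N := by positivity
  refine ⟨a1, by linarith, ?_, ?_⟩
  · calc Real.exp (-(δ * N)) ≤ Real.exp (Real.log (m / 2)) := Real.exp_le_exp.mpr (by linarith)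
      _ = m / 2 := Real.exp_log hm2
  · calc Real.exp (-(δ * N)) ≤
        Real.exp (Real.log (m / 2) + -(K * k₀ * (E * (N : ℝ) ^ θ))) :=
          Real.exp_le_exp.mpr (by
            have : (K : ℝ) * k₀ * (E * (N : ℝ) ^ θ) = K * k₀ * E * (N : ℝ) ^ θ := by ring
            rw [this]
            linarith)
      _ = m / 2 * Real.exp (-(K * k₀ * (E * (N : ℝ) ^ θ))) := by
          rw [Real.exp_add, Real.exp_log hm2]

private lemma trig_dich {α α' x e η : ℝ} (h : |α' - α - x| ≤ e) (hs : 4 * η ≤ |Real.sin x|)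
    (he : e ≤ 2 * η) : η ≤ |Real.cos α| ∨ η ≤ |Real.cos α'| := by
  by_contra hcon
  push Not at hcon
  obtain ⟨h1, h2⟩ := hcon
  have h3 : Real.sin x = Real.sin (α + x) * Real.cos α - Real.cos (α + x) * Real.sin α := by
    rw [← Real.sin_sub]; congr 1; ring
  have h4 : |Real.sin x| ≤ |Real.cos α| + |Real.cos (α + x)| := by
    rw [h3]
    refine (abs_sub _ _).trans ?_
    rw [abs_mul, abs_mul]
    have a1 := Real.abs_sin_le_one (α + x)
    have a2 := Real.abs_sin_le_one α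
    have a3 := abs_nonneg (Real.cos α)
    have a4 := abs_nonneg (Real.cos (α + x))
    nlinarith
  have h5 : |Real.cos (α + x) - Real.cos α'| ≤ e := by
    refine (Real.abs_cos_sub_cos_le _ _).trans ?_
    rw [abs_sub_comm]
    rwa [show α' - (α + x) = α' - α - x by ring]
  have h6 : |Real.cos (α + x)| ≤ |Real.cos (α + x) - Real.cos α'| + |Real.cos α'| := by
    have := abs_add_le (Real.cos (α + x) - Real.cos α') (Real.cos α')
    simpa using this
  linarith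

/-- HS-33: the case of positive growth. -/
theorem region_growth {ι M : Type} [Fintype ι] [Field M] [Algebra ℂ M]
    (A : Subalgebra ℂ M) (σ : A) (b : Polynomial (MvPolynomial ι ℂ)) (K : ℕ) (hK : 0 < K)
    (hb : b ≠ 0) :
    ∃ c : MvPolynomial ι ℂ, c ≠ 0 ∧ ∀ β : ι → ℝ,
      eval (fun i => (β i : ℂ)) (lead c) ≠ 0 → ∀ (ε₀ Λ₀ : ℝ) (Φ : (ι → ℂ) × ℂ → (A →ₐ[ℂ] ℂ))
      (θ : ℚ) (C : ℝ) (g : (ι → ℂ) × ℂ → ℂ), 0 < ε₀ → 0 < θ → θ < 1 →
      DifferentiableOn ℂ g (Dil (ipt β) ε₀ Λ₀) →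
      (∀ p ∈ Dil (ipt β) ε₀ Λ₀, Complex.exp (g p) = Φ p σ ∧ |(g p).re - θ * p.2.re| ≤ C ∧
        ∀ p' ∈ Dil (ipt β) ε₀ Λ₀, p.2 = p'.2 → ‖g p - g p'‖ ≤ C * ‖p.1 - p'.1‖) →
      Region A σ b K (ipt β) ε₀ Λ₀ Φ := by
  refine ⟨b.leadingCoeff * b.trailingCoeff, mul_ne_zero
    (Polynomial.leadingCoeff_ne_zero.mpr hb) (Polynomial.trailingCoeff_nonzero_iff_nonzero.mpr hb),
    ?_⟩
  intro β hβ ε₀ Λ₀ Φ θ C g hε₀ hθ hθ1 hgd hgp
  have hθr : (0 : ℝ) < (θ : ℝ) := by exact_mod_cast hθ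
  have hθ1r : (θ : ℝ) < 1 := by exact_mod_cast hθ1
  set w : ι → ℂ := ipt β with hw
  -- the leading forms do not vanish at `w`
  have hev : ∀ q : MvPolynomial ι ℂ, eval (fun i => (β i : ℂ)) (lead q) ≠ 0 →
      eval w (lead q) ≠ 0 := by
    intro q hq
    have h1 := MV.asym_eval_mul (homogeneousComponent_isHomogeneous q.totalDegree q)
      (2 * Real.pi * Complex.I) (fun i => (β i : ℂ))
    have h2 : w = fun i => 2 * Real.pi * Complex.I * (β i : ℂ) := rfl
    rw [h2]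
    unfold lead at hq ⊢
    rw [h1]
    exact mul_ne_zero (pow_ne_zero _ Complex.two_pi_I_ne_zero) hq
  rw [lead_mul, map_mul] at hβ
  obtain ⟨ε, Λ, C0, hε, hC0, hb1⟩ := eval_dil b.leadingCoeff w (hev _ (left_ne_zero_of_mul hβ))
  obtain ⟨ε', Λ', C0', hε', hC0', hb2⟩ :=
    eval_dil b.trailingCoeff w (hev _ (right_ne_zero_of_mul hβ))
  obtain ⟨C₁, B, hC₁, hup⟩ := coeff_up b w
  have hC : 0 ≤ C := (abs_nonneg _).trans (hgp (w, ((Λ₀ + 1 : ℝ) : ℂ)) (by
    refine ⟨mem_ball_self hε₀, ?_⟩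
    simp)).2.1
  set η : ℝ := Real.sin (Real.pi * θ) / 4 with hη
  have hsin : 0 < Real.sin (Real.pi * θ) :=
    Real.sin_pos_of_pos_of_lt_pi (mul_pos Real.pi_pos hθr) (by nlinarith [Real.pi_pos])
  have hη0 : 0 < η := by positivity
  set c' : ℝ := Real.exp (-C) * (η / 2) with hc'
  have hc'0 : 0 < c' := by positivity
  set m : ℝ := min C0⁻¹ C0'⁻¹ with hm
  have hm0 : 0 < m := lt_min (inv_pos.mpr hC0) (inv_pos.mpr hC0')
  set ε₁ : ℝ := min (min ε ε') (min (min ε₀ 1) (η / (2 * (C + 1)))) with hε₁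
  have hε₁0 : 0 < ε₁ := lt_min (lt_min hε hε') (lt_min (lt_min hε₀ one_pos) (by positivity))
  have e1 : ε₁ ≤ ε := (min_le_left _ _).trans (min_le_left _ _)
  have e2 : ε₁ ≤ ε' := (min_le_left _ _).trans (min_le_right _ _)
  have e3 : ε₁ ≤ ε₀ := (min_le_right _ _).trans ((min_le_left _ _).trans (min_le_left _ _))
  have e4 : ε₁ ≤ 1 := (min_le_right _ _).trans ((min_le_left _ _).trans (min_le_right _ _))
  have e5 : C * ε₁ ≤ η / 2 := by
    have h1 : ε₁ ≤ η / (2 * (C + 1)) := (min_le_right _ _).trans (min_le_right _ _)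
    calc C * ε₁ ≤ (C + 1) * (η / (2 * (C + 1))) :=
          mul_le_mul (by linarith) h1 hε₁0.le (by linarith)
      _ = η / 2 := by field_simp
  refine ⟨ε₁, hε₁0, ?_⟩
  intro δ hδ
  apply Eventually.frequently
  have hlog : Tendsto (fun N : ℕ => Real.log N) atTop atTop :=
    Real.tendsto_log_atTop.comp tendsto_natCast_atTop_atTop
  have hev1 := growth_facts (θ := (θ : ℝ)) (c' := c') (δ := δ) (E := Real.exp C) (C₁ := C₁)
    (m := m) B b.natDegree b.natTrailingDegree K hθr hθ1r hc'0 hδ hm0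
  filter_upwards [hev1, hlog.eventually_gt_atTop Λ, hlog.eventually_gt_atTop Λ',
    hlog.eventually_gt_atTop Λ₀, hlog.eventually_gt_atTop (Λ₀ + 2 * Real.pi),
    hlog.eventually_gt_atTop (Λ₀ + 8 * C * Real.pi / η), eventually_ge_atTop 1] with
    N hN hNΛ hNΛ' hNΛ₀ hNπ hNC hN1
  obtain ⟨n1, n2, n3, n4⟩ := hN
  have hN0 : (0 : ℝ) < N := by exact_mod_cast hN1
  set L : ℝ := Real.log N with hL
  have hL0 : 0 ≤ L := Real.log_nonneg (by exact_mod_cast hN1)
  have hexpL : Real.exp L = N := Real.exp_log hN0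
  have hNθ : (N : ℝ) ^ (θ : ℝ) = Real.exp (θ * L) := by
    rw [Real.rpow_def_of_pos hN0, mul_comm]
  -- the claim for a suitable `s`
  have claim : ∀ (s : ℂ) (τ : ℝ), s.re = L → Complex.exp s = (τ : ℂ) →
      η ≤ |Real.cos (g (w, s)).im| → ∃ (s : ℂ) (β : ι → ℝ),
      s.re = L ∧ ∀ x ∈ ball (ipt β) (ε₁ * N), (Complex.exp (-s) • x, s) ∈ Dil w ε₀ Λ₀ ∧
        Real.exp (-(δ * N)) ≤ ‖evT x (Complex.exp (K * Φ (Complex.exp (-s) • x, s) σ)) b‖ ∧
        ‖Φ (Complex.exp (-s) • x, s) σ‖ ≤ δ * N := by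
    intro s τ hs hτ hcos
    refine ⟨s, fun i => τ * β i, hs, ?_⟩
    intro x hx
    set v : ι → ℂ := Complex.exp (-s) • x with hv
    have hns : ‖Complex.exp (-s)‖ = (N : ℝ)⁻¹ := by
      rw [Complex.norm_exp, Complex.neg_re, hs, Real.exp_neg, hexpL]
    have hee : Complex.exp (-s) * Complex.exp s = 1 := by rw [← Complex.exp_add]; simp
    have hvw : ‖v - w‖ < ε₁ := by
      have h1 : v - w = Complex.exp (-s) • (x - ipt fun i => τ * β i) := by
        rw [smul_sub, hv]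
        congr 1
        funext i
        simp only [hw, ipt, Pi.smul_apply, smul_eq_mul]
        push_cast
        rw [← hτ]
        linear_combination (-(2 * Real.pi * Complex.I * β i)) * hee
      rw [h1, norm_smul, hns]
      rw [mem_ball, dist_eq_norm] at hx
      rw [inv_mul_lt_iff₀ hN0, mul_comm]
      exact hx
    have hvb : v ∈ ball w ε₁ := by rwa [mem_ball, dist_eq_norm]
    have hxv : x = fun i => Complex.exp s * v i := by
      funext i
      simp only [hv, Pi.smul_apply, smul_eq_mul]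
      linear_combination (-(x i)) * hee
    have hpD : (v, s) ∈ Dil w ε₀ Λ₀ := ⟨ball_subset_ball e3 hvb, by
      show Λ₀ < s.re
      rw [hs]; exact hNΛ₀⟩
    have hwD : (w, s) ∈ Dil w ε₀ Λ₀ := ⟨mem_ball_self hε₀, by
      show Λ₀ < s.re
      rw [hs]; exact hNΛ₀⟩
    obtain ⟨g1, g2, g3⟩ := hgp _ hpD
    have g4 := g3 _ hwD rfl
    have g5 : ‖g (v, s) - g (w, s)‖ ≤ η / 2 :=
      (g4.trans (mul_le_mul_of_nonneg_left hvw.le hC)).trans e5
    have g6 : |(g (v, s)).im - (g (w, s)).im| ≤ η / 2 := by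
      rw [← Complex.sub_im]
      exact (Complex.abs_im_le_norm _).trans g5
    have hcos2 : η / 2 ≤ |Real.cos (g (v, s)).im| := by
      have h1 := (Real.abs_cos_sub_cos_le (g (w, s)).im (g (v, s)).im)
      rw [abs_sub_comm (g (w, s)).im] at h1
      have h2 := abs_add_le (Real.cos (g (w, s)).im - Real.cos (g (v, s)).im)
        (Real.cos (g (v, s)).im)
      rw [sub_add_cancel] at h2
      linarith
    simp only [hs] at g2
    obtain ⟨g7, g8⟩ := abs_le.mp g2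
    set S : ℂ := Φ (v, s) σ with hS
    have hSn : ‖S‖ ≤ Real.exp C * (N : ℝ) ^ (θ : ℝ) := by
      rw [← g1, Complex.norm_exp, hNθ, ← Real.exp_add]
      exact Real.exp_le_exp.mpr (by linarith)
    have hSre : c' * (N : ℝ) ^ (θ : ℝ) ≤ |S.re| := by
      rw [← g1, Complex.exp_re, abs_mul, Real.abs_exp, hNθ, hc']
      calc Real.exp (-C) * (η / 2) * Real.exp (θ * L) = Real.exp (-C + θ * L) * (η / 2) := by
            rw [Real.exp_add]; ring
        _ ≤ Real.exp (g (v, s)).re * |Real.cos (g (v, s)).im| :=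
            mul_le_mul (Real.exp_le_exp.mpr (by linarith)) hcos2 (by positivity)
              (Real.exp_pos _).le
    refine ⟨hpD, ?_, hSn.trans n2⟩
    rw [evT_sum]
    set t : ℂ := Complex.exp (K * S) with ht
    have htn : ‖t‖ = Real.exp (K * S.re) := by
      rw [ht, Complex.norm_exp]
      congr 1
      simp
    have hlow := poly_low (D := b.natDegree) (k₀ := b.natTrailingDegree)
      (a := fun k => eval x (b.coeff k)) (M := C₁ * (N : ℝ) ^ (B : ℝ)) (m := m)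
      (R := Real.exp (c' * (N : ℝ) ^ (θ : ℝ))) (Polynomial.natTrailingDegree_le_natDegree b) hm0.le
      (by
        intro k
        have h1 := hup s (by rw [hs]; exact hL0) v (ball_subset_ball e4 hvb) k
        rw [← hxv, hs] at h1
        refine h1.trans (le_of_eq ?_)
        rw [Real.rpow_def_of_pos hN0, mul_comm (Real.log _)])
      (by
        intro k hk
        show eval x (b.coeff k) = 0
        rw [Polynomial.coeff_eq_zero_of_lt_natTrailingDegree hk, map_zero])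
      (by
        have h1 := (hb1 s (by rw [hs]; exact hNΛ) v (ball_subset_ball e1 hvb)).1
        rw [← hxv, hs] at h1
        refine le_trans ?_ h1
        refine (min_le_left _ _).trans ?_
        refine le_mul_of_one_le_right (inv_pos.mpr hC0).le ?_
        exact Real.one_le_exp (by positivity))
      (by
        have h1 := (hb2 s (by rw [hs]; exact hNΛ') v (ball_subset_ball e2 hvb)).1
        rw [← hxv, hs] at h1
        refine le_trans ?_ h1
        refine (min_le_right _ _).trans ?_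
        refine le_mul_of_one_le_right (inv_pos.mpr hC0').le ?_
        exact Real.one_le_exp (by positivity))
      (Real.one_le_exp (by positivity)) n1 t
    have hK1 : (1 : ℝ) ≤ K := by exact_mod_cast hK
    have hpos : 0 ≤ c' * (N : ℝ) ^ (θ : ℝ) := by positivity
    rcases le_or_gt 0 S.re with hsg | hsg
    · rw [abs_of_nonneg hsg] at hSre
      refine n3.trans (hlow.1 ?_)
      rw [htn]
      apply Real.exp_le_exp.mpr
      nlinarith
    · rw [abs_of_neg hsg] at hSre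
      refine n4.trans (le_trans ?_ (hlow.2 ?_))
      · refine mul_le_mul_of_nonneg_left ?_ (by positivity)
        rw [htn, ← Real.exp_nat_mul]
        apply Real.exp_le_exp.mpr
        have h2 : -S.re ≤ Real.exp C * (N : ℝ) ^ (θ : ℝ) := by
          have := Complex.abs_re_le_norm S
          rw [abs_of_neg hsg] at this
          exact this.trans hSn
        have h3 : (0 : ℝ) ≤ K * b.natTrailingDegree := by positivity
        have h4 := mul_le_mul_of_nonneg_left h2 h3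
        linarith
      · rw [htn, ← Real.exp_neg]
        apply Real.exp_le_exp.mpr
        nlinarith
  -- the rotation
  set s₀ : ℂ := (L : ℂ) with hs₀
  set s₁ : ℂ := (L : ℂ) + Real.pi * Complex.I with hs₁
  have hs₀re : s₀.re = L := by simp [hs₀]
  have hs₁re : s₁.re = L := by simp [hs₁]
  have hexp0 : Complex.exp s₀ = ((N : ℝ) : ℂ) := by
    rw [hs₀, ← Complex.ofReal_exp, hexpL]
  have hexp1 : Complex.exp s₁ = ((-(N : ℝ) : ℝ) : ℂ) := by
    rw [hs₁, Complex.exp_add, Complex.exp_pi_mul_I, ← Complex.ofReal_exp, hexpL]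
    push_cast
    ring
  set r : ℝ := L - Λ₀ with hr
  have hr0 : 0 < r := by linarith
  have hball : ∀ s ∈ ball s₀ r, (w, s) ∈ Dil w ε₀ Λ₀ := by
    intro s hs
    refine ⟨mem_ball_self hε₀, ?_⟩
    show Λ₀ < s.re
    rw [mem_ball, dist_eq_norm] at hs
    have h1 := (abs_le.mp ((Complex.abs_re_le_norm (s - s₀)).trans hs.le)).1
    have h2 := (Complex.abs_re_le_norm (s - s₀)).trans_lt hs
    rw [Complex.sub_re, hs₀re, abs_lt] at h2
    linarith [h2.1]
  have hlip := bc_lip (E := ℂ) (x₀ := s₀) (ρ := r) (K := C) hr0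
    (g := fun s => g (w, s) - θ * s) (by
      refine DifferentiableOn.sub ?_ (by fun_prop)
      exact hgd.comp (f := fun s : ℂ => (w, s)) (by fun_prop) (fun s hs => hball s hs)) (by
      intro s hs
      have h1 := (hgp _ (hball s hs)).2.1
      simpa using h1) s₁ (by
        rw [mem_ball, dist_eq_norm, hs₁, hs₀, add_sub_cancel_left, norm_mul, Complex.norm_I,
          mul_one, Complex.norm_real, Real.norm_eq_abs, abs_of_pos Real.pi_pos]
        linarith) s₀ (mem_ball_self (by positivity))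
  have hdiff : s₁ - s₀ = Real.pi * Complex.I := by rw [hs₁, hs₀, add_sub_cancel_left]
  have hrot : |(g (w, s₁)).im - (g (w, s₀)).im - Real.pi * θ| ≤ 2 * η := by
    have h1 : (g (w, s₁)).im - (g (w, s₀)).im - Real.pi * θ =
        ((g (w, s₁) - θ * s₁) - (g (w, s₀) - θ * s₀)).im := by
      have h2 : (g (w, s₁) - θ * s₁) - (g (w, s₀) - θ * s₀) =
          g (w, s₁) - g (w, s₀) - θ * (s₁ - s₀) := by ring
      rw [h2, hdiff]
      simp
      ring
    rw [h1]
    refine (Complex.abs_im_le_norm _).trans (hlip.trans ?_)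
    rw [hdiff, norm_mul, Complex.norm_I, mul_one, Complex.norm_real, Real.norm_eq_abs,
      abs_of_pos Real.pi_pos]
    have h3 : 8 * C * Real.pi / η < r := by linarith
    rw [div_lt_iff₀ hη0] at h3
    rw [div_mul_eq_mul_div, div_le_iff₀ hr0]
    linarith
  have hsin' : 4 * η ≤ |Real.sin (Real.pi * θ)| := by
    rw [abs_of_pos hsin, hη]
    linarith
  rcases trig_dich hrot hsin' le_rfl with h1 | h1
  · exact claim s₀ N hs₀re hexp0 h1
  · exact claim s₁ (-N) hs₁re hexp1 h1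

end Pool.Agent.Lib.MP_209724_lc.HS
end

section

namespace Pool.Agent.Lib.MP_209724_lc.HS

open MvPolynomial Filter Topology Metric
open MV (lead evT glue)
open GC (evM)

/-- a continuous logarithm of `1` on a preconnected set is constant -/
private theorem cII_const {E : Type} [TopologicalSpace E] {D : Set E} (hD : IsPreconnected D)
    {F : E → ℂ} (hF : ContinuousOn F D) (hF1 : ∀ x ∈ D, Complex.exp (F x) = 1) {x₀ : E}
    (hx₀ : x₀ ∈ D) : ∃ L : ℤ, ∀ x ∈ D, F x = L * (2 * Real.pi * Complex.I) := by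
  have hpi := Real.pi_pos
  have h1 : ∀ x ∈ D, ∃ L : ℤ, F x = L * (2 * Real.pi * Complex.I) := fun x hx =>
    Complex.exp_eq_one_iff.1 (hF1 x hx)
  choose! L hL using h1
  have h2 : ∀ x ∈ D, (F x).im / (2 * Real.pi) = (L x : ℝ) := by
    intro x hx
    rw [hL x hx]
    simp
  have h3 : ContinuousOn L D := by
    rw [Int.isClosedEmbedding_coe_real.isInducing.continuousOn_iff]
    refine ContinuousOn.congr (f := fun x => (F x).im / (2 * Real.pi)) ?_ (fun x hx => ?_)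
    · exact (Complex.continuous_im.comp_continuousOn hF).div_const _
    · exact (h2 x hx).symm
  refine ⟨L x₀, fun x hx => ?_⟩
  rw [hL x hx, hD.constant h3 hx hx₀]

/-- the arithmetic part -/
private theorem cII_arith {n : ℕ} (l : Fin n) (K : ℕ) (hK : 0 < K) (μ : Fin n → ℤ)
    (hμl : μ l = K) (hgcd : ∀ d : ℤ, (∀ i, d ∣ μ i) → IsUnit d) (L : ℤ)
    (u : {j : Fin n // j ≠ l} → ℝ) :
    ∃ (m : {j : Fin n // j ≠ l} → ℤ) (q : ℤ), (∀ j, |(m j : ℝ) - u j| ≤ K) ∧
      L + ∑ j : {j : Fin n // j ≠ l}, μ j * m j = K * q := by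
  have hKr : (0 : ℝ) < K := by exact_mod_cast hK
  have h1 : (1 : ℤ) ∈ Ideal.span (Set.range μ) := by
    obtain ⟨d, hd⟩ := (IsPrincipalIdealRing.principal (Ideal.span (Set.range μ))).principal
    rw [← Ideal.span] at hd
    have h2 : ∀ i, d ∣ μ i := by
      intro i
      rw [← Ideal.mem_span_singleton, ← hd]
      exact Ideal.subset_span ⟨i, rfl⟩
    rw [hd, Ideal.span_singleton_eq_top.2 (hgcd d h2)]
    trivial
  obtain ⟨c, hc⟩ := (Submodule.mem_span_range_iff_exists_fun ℤ).1 h1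
  simp only [smul_eq_mul] at hc
  rw [Fintype.sum_eq_add_sum_subtype_ne (fun i => c i * μ i) l, hμl] at hc
  refine ⟨fun j => -L * c j + K * round ((u j - ((-L * c j : ℤ) : ℝ)) / K),
    L * c l + ∑ j : {j : Fin n // j ≠ l}, μ j * round ((u j - ((-L * c j : ℤ) : ℝ)) / K), ?_, ?_⟩
  · intro j
    set a : ℝ := ((-L * c j : ℤ) : ℝ) with ha
    have h3 := abs_sub_round ((u j - a) / K)
    have h4 : (((-L * c j + K * round ((u j - a) / K) : ℤ) : ℝ)) - u j =
        -(K * ((u j - a) / K - round ((u j - a) / K))) := by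
      rw [Int.cast_add, ← ha]
      push_cast
      field_simp
      ring
    rw [h4, abs_neg, abs_mul, abs_of_pos hKr]
    nlinarith
  · have h5 : ∑ j : {j : Fin n // j ≠ l}, μ j *
        (-L * c j + K * round ((u j - ((-L * c j : ℤ) : ℝ)) / K)) =
        -L * ∑ j : {j : Fin n // j ≠ l}, c j * μ j +
        K * ∑ j : {j : Fin n // j ≠ l}, μ j * round ((u j - ((-L * c j : ℤ) : ℝ)) / K) := by
      rw [Finset.mul_sum, Finset.mul_sum, ← Finset.sum_add_distrib]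
      refine Finset.sum_congr rfl fun j _ => ?_
      ring
    have h6 : ∑ j : {j : Fin n // j ≠ l}, c j * μ j = 1 - c l * K := by linarith
    rw [h5, h6]
    ring

/-- HS-11: analytic core of the rational case. -/
theorem coreII {n : ℕ} (l : Fin n) (K : ℕ) (hK : 0 < K) (μ : Fin n → ℤ) (hμl : μ l = K)
    (hgcd : ∀ d : ℤ, (∀ i, d ∣ μ i) → IsUnit d) :
    ∃ C : ℝ, 0 < C ∧ ∀ (β : {j : Fin n // j ≠ l} → ℝ) (ρ R : ℝ), 1 ≤ R → C * R ≤ ρ →
      ∀ (H : ({j : Fin n // j ≠ l} → ℂ) → Fin n → ℂ) (y : ({j : Fin n // j ≠ l} → ℂ) → ℂ),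
      (∀ i, DifferentiableOn ℂ (fun x => H x i) (ball (ipt β) ρ)) →
      DifferentiableOn ℂ y (ball (ipt β) ρ) →
      (∀ x ∈ ball (ipt β) ρ, ∀ i, H x i ≠ 0 ∧ |Real.log ‖H x i‖| ≤ R) →
      (∀ x ∈ ball (ipt β) ρ, ∏ i, H x i ^ μ i =
        Complex.exp (K * y x + ∑ j : {j : Fin n // j ≠ l}, (μ j : ℂ) * x j)) →
      ∃ x ∈ ball (ipt β) ρ, (∀ j : {j : Fin n // j ≠ l}, H x j = Complex.exp (x j)) ∧
        H x l = Complex.exp (y x) := by
  have hpi := Real.pi_pos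
  have hKr : (0 : ℝ) < K := by exact_mod_cast hK
  refine ⟨64 + 8 * (1 + 2 * Real.pi * K) + 1, by positivity, ?_⟩
  intro β ρ R hR hρ H y hH hy hHR hrel
  have hR0 : 0 < R := by linarith
  have hρ64 : 64 * R ≤ ρ := by
    have : 0 ≤ (8 * (1 + 2 * Real.pi * K) + 1) * R := by positivity
    nlinarith
  have hρ0 : 0 < ρ := by linarith
  have hρ8 : 8 * (R + 2 * Real.pi * K) < ρ := by
    have h1 : 2 * Real.pi * K ≤ 2 * Real.pi * K * R := by
      have : 0 < 2 * Real.pi * K := by positivity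
      nlinarith
    nlinarith
  have hx₀ : ipt β ∈ ball (ipt β) ρ := mem_ball_self hρ0
  -- logarithms
  have hlog : ∀ i, ∃ g : ({j : Fin n // j ≠ l} → ℂ) → ℂ, DifferentiableOn ℂ g (ball (ipt β) ρ) ∧
      ∀ p ∈ ball (ipt β) ρ, Complex.exp (g p) = H p i := fun i =>
    MV.exists_log isOpen_ball (convex_ball _ _) (hH i) (fun p hp => (hHR p hp i).1)
  choose g hg hgH using hlog
  have hgre : ∀ i, ∀ x ∈ ball (ipt β) ρ, |(g i x).re| ≤ R := by
    intro i x hx
    have h1 := (hHR x hx i).2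
    rwa [← hgH i x hx, Complex.norm_exp, Real.log_exp] at h1
  have hlip : ∀ i, ∀ x ∈ ball (ipt β) (ρ / 2), ∀ x' ∈ ball (ipt β) (ρ / 2),
      ‖g i x - g i x'‖ ≤ 1 / 4 * ‖x - x'‖ := by
    intro i x hx x' hx'
    refine (bc_lip hρ0 (hg i) (hgre i) x hx x' hx').trans ?_
    have h1 : 16 * R / ρ ≤ 1 / 4 := by
      rw [div_le_iff₀ hρ0]
      linarith
    exact mul_le_mul_of_nonneg_right h1 (norm_nonneg _)
  -- the integer
  obtain ⟨L, hL⟩ := cII_const (D := ball (ipt β) ρ) (convex_ball _ _).isPreconnected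
    (F := fun x => ∑ i, (μ i : ℂ) * g i x -
      (K * y x + ∑ j : {j : Fin n // j ≠ l}, (μ j : ℂ) * x j)) (by
        refine ContinuousOn.sub ?_ (ContinuousOn.add ?_ (Continuous.continuousOn (by fun_prop)))
        · exact continuousOn_finsetSum _ fun i _ => (hg i).continuousOn.const_mul _
        · exact hy.continuousOn.const_mul _) (by
        intro x hx
        rw [Complex.exp_sub, ← hrel x hx, Complex.exp_sum]
        have h1 : ∀ i, Complex.exp ((μ i : ℂ) * g i x) = H x i ^ μ i := by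
          intro i
          rw [Complex.exp_int_mul, hgH i x hx]
        simp only [h1]
        apply div_self
        rw [hrel x hx]
        exact Complex.exp_ne_zero _) hx₀
  obtain ⟨m, q, hm, hq⟩ := cII_arith l K hK μ hμl hgcd L
    (fun j => β j - (g j (ipt β)).im / (2 * Real.pi))
  -- the fixed point
  have hfix := fixed_family (T := Set.univ) isOpen_univ (x₀ := ipt β) (ρ := ρ / 2) (δ := 1 / 4)
    (K := R + 2 * Real.pi * K) (by norm_num) le_rfl (by positivity)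
    (fun p j => g j p.1 + 2 * Real.pi * Complex.I * m j - ipt β j) (by
      intro j
      have h1 : DifferentiableOn ℂ (fun p : ({j : Fin n // j ≠ l} → ℂ) × ℂ => g j p.1)
          (ball (ipt β) (ρ / 2) ×ˢ Set.univ) := by
        refine (hg j).comp differentiableOn_fst ?_
        intro p hp
        exact ball_subset_ball (by linarith) hp.1
      exact (h1.add_const _).sub_const _) (by
      intro x hx x' hx' ζ _
      rw [pi_norm_le_iff_of_nonneg (by positivity)]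
      intro j
      have h1 := hlip j x hx x' hx'
      simp only [Pi.sub_apply]
      rw [show g j x + 2 * Real.pi * Complex.I * m j - ipt β j -
        (g j x' + 2 * Real.pi * Complex.I * m j - ipt β j) = g j x - g j x' by ring]
      exact h1) (by
      intro ζ _
      rw [pi_norm_le_iff_of_nonneg (by positivity)]
      intro j
      refine (Complex.norm_le_abs_re_add_abs_im _).trans ?_
      have h1 : (g j (ipt β) + 2 * Real.pi * Complex.I * m j - ipt β j).re =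
          (g j (ipt β)).re := by
        unfold ipt
        simp
      have h2 : (g j (ipt β) + 2 * Real.pi * Complex.I * m j - ipt β j).im =
          2 * Real.pi * (m j - (β j - (g j (ipt β)).im / (2 * Real.pi))) := by
        have : (g j (ipt β) + 2 * Real.pi * Complex.I * m j - ipt β j).im =
          (g j (ipt β)).im + 2 * Real.pi * m j - 2 * Real.pi * β j := by
          unfold ipt
          simp
        rw [this]
        field_simp
        ring
      show |(g j (ipt β) + 2 * Real.pi * Complex.I * m j - ipt β j).re| +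
        |(g j (ipt β) + 2 * Real.pi * Complex.I * m j - ipt β j).im| ≤ R + 2 * Real.pi * K
      rw [h1, h2, abs_mul, abs_of_pos (by positivity : 0 < 2 * Real.pi)]
      have h3 := hgre j _ hx₀
      have h4 := hm j
      gcongr)
    0 (by rw [norm_zero]; linarith)
  obtain ⟨X, -, hX⟩ := hfix
  obtain ⟨hX1, hX2⟩ := hX 0 (Set.mem_univ _)
  rw [norm_zero, add_zero] at hX1
  have hxb : X 0 ∈ ball (ipt β) ρ := by
    rw [mem_ball, dist_eq_norm]
    have : 0 < R + 2 * Real.pi * K := by positivity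
    linarith
  have hxj : ∀ j : {j : Fin n // j ≠ l}, X 0 j = g j (X 0) + 2 * Real.pi * Complex.I * m j := by
    intro j
    have h1 := congrFun hX2 j
    simp only [Pi.add_apply, Pi.zero_apply] at h1
    rw [h1]
    ring
  refine ⟨X 0, hxb, ?_, ?_⟩
  · intro j
    rw [hxj j, Complex.exp_add, hgH j _ hxb]
    have : Complex.exp (2 * Real.pi * Complex.I * m j) = 1 := by
      rw [Complex.exp_eq_one_iff]
      exact ⟨m j, by ring⟩
    rw [this, mul_one]
  · have h1 := hL _ hxb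
    rw [Fintype.sum_eq_add_sum_subtype_ne (fun i => (μ i : ℂ) * g i (X 0)) l, hμl] at h1
    have h2 : ∑ j : {j : Fin n // j ≠ l}, (μ j : ℂ) * X 0 j =
        ∑ j : {j : Fin n // j ≠ l}, (μ j : ℂ) * g j (X 0) +
          2 * Real.pi * Complex.I * ∑ j : {j : Fin n // j ≠ l}, (μ j : ℂ) * m j := by
      rw [Finset.mul_sum, ← Finset.sum_add_distrib]
      refine Finset.sum_congr rfl fun j _ => ?_
      rw [hxj j]
      ring
    have h3 : (L : ℂ) + ∑ j : {j : Fin n // j ≠ l}, (μ j : ℂ) * m j = K * q := by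
      exact_mod_cast congrArg (Int.cast : ℤ → ℂ) hq
    rw [h2] at h1
    have hKc : (K : ℂ) ≠ 0 := by exact_mod_cast hK.ne'
    have h4 : g l (X 0) = y (X 0) + 2 * Real.pi * Complex.I * q := by
      have h5 : (K : ℂ) * g l (X 0) = K * (y (X 0) + 2 * Real.pi * Complex.I * q) := by
        push_cast at h1 ⊢
        linear_combination h1 + 2 * Real.pi * Complex.I * h3
      exact mul_left_cancel₀ hKc h5
    rw [← hgH l _ hxb, h4, Complex.exp_add]
    have : Complex.exp (2 * Real.pi * Complex.I * q) = 1 := by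
      rw [Complex.exp_eq_one_iff]
      exact ⟨q, by ring⟩
    rw [this, mul_one]

end Pool.Agent.Lib.MP_209724_lc.HS
end

section

/-!
The rational case: from a good region to a solution.
-/

namespace Pool.Agent.Lib.MP_209724_lc.HS

open MvPolynomial Filter Topology Metric
open MV (lead evT glue)
open GC (evM)

theorem psi_P {n : ℕ} {L : Type} [Field L] [Algebra ℂ L] (ξ : Fin n → L)
    (P : MvPolynomial (Fin n) ℂ) (hP : aeval ξ P = 0) (A : Subalgebra ℂ L) (hξA : ∀ i, ξ i ∈ A)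
    (ψ : A →ₐ[ℂ] ℂ) : eval (fun i => ψ ⟨ξ i, hξA i⟩) P = 0 := by
  rw [← psi_aeval ξ A hξA ψ P (aeval_mem ξ A hξA P)]
  have h1 : (⟨aeval ξ P, aeval_mem ξ A hξA P⟩ : A) = 0 := Subtype.ext hP
  rw [h1, map_zero]

theorem glue_eq {n : ℕ} (l : Fin n) (v : {j : Fin n // j ≠ l} → ℂ) (f : Fin n → ℂ)
    (h : ∀ j : {j : Fin n // j ≠ l}, f j = v j) : f = glue l v (f l) := by
  funext i
  by_cases hi : i = l
  · subst hi
    rw [MV.glue_self]
  · have := MV.glue_of_ne l v (f l) ⟨i, hi⟩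
    simp only at this
    rw [this]
    exact h ⟨i, hi⟩

theorem caseII_end {n : ℕ} {L M' : Type} [Field L] [Algebra ℂ L] [Field M'] [Algebra ℂ M']
    (ξ η : Fin n → L) (hη : ∀ i, η i ≠ 0) (P : MvPolynomial (Fin n) ℂ) (hPξ : aeval ξ P = 0)
    (l : Fin n) (c' : {j : Fin n // j ≠ l} → ℚ) (K : ℕ) (hK : 0 < K) (μ : Fin n → ℤ)
    (hμl : μ l = K) (hμ : ∀ j : {j : Fin n // j ≠ l}, (μ j : ℚ) = -(K * c' j))
    (hgcd : ∀ d : ℤ, (∀ i, d ∣ μ i) → IsUnit d)
    (A : Subalgebra ℂ L) (hξA : ∀ i, ξ i ∈ A) (hηA : ∀ i, η i ∈ A)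
    (hηA' : ∀ i, (η i)⁻¹ ∈ A) (htA : ∏ i, η i ^ μ i ∈ A)
    (bS bb : Polynomial (MvPolynomial {j : Fin n // j ≠ l} ℂ)) (hdvd : bS ∣ bb)
    (hsheets : ∀ D : Set ({j : Fin n // j ≠ l} → ℂ),
        IsOpen D → Convex ℝ D → ∀ τ : ({j : Fin n // j ≠ l} → ℂ) → ℂ,
        AnalyticOnNhd ℂ τ D →
        (∀ p ∈ D, evT p (Complex.exp (τ p)) bS ≠ 0) → ∀ p₀ ∈ D, ∀ y₀ : ℂ,
        eval (glue l p₀ y₀) P = 0 →
        ∃ Φ : ({j : Fin n // j ≠ l} → ℂ) → (A →ₐ[ℂ] ℂ), Φ p₀ ⟨ξ l, hξA l⟩ = y₀ ∧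
          (∀ p ∈ D, (∀ j : {j : Fin n // j ≠ l}, Φ p ⟨ξ j, hξA j⟩ = p j) ∧
            Φ p ⟨∏ i, η i ^ μ i, htA⟩ = Complex.exp (τ p) ∧
            eval (glue l p (Φ p ⟨ξ l, hξA l⟩)) (pderiv l P) ≠ 0) ∧
          ∀ x : A, AnalyticOnNhd ℂ (fun p => Φ p x) D)
    (a₁ : ℝ) (ha₁ : 0 < a₁)
    (hbound : ∀ (ψ : A →ₐ[ℂ] ℂ) (R : ℝ), 0 ≤ R →
        (∀ i : {j : Fin n // j ≠ l}, ‖ψ ⟨ξ i, hξA i⟩‖ ≤ Real.exp R) →
        ‖ψ ⟨∏ i, η i ^ μ i, htA⟩‖ ≤ Real.exp R →
        Real.exp (-R) ≤ ‖evT (fun i : {j : Fin n // j ≠ l} => ψ ⟨ξ i, hξA i⟩)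
          (ψ ⟨∏ i, η i ^ μ i, htA⟩) bb‖ →
        ∀ i, ψ ⟨η i, hηA i⟩ ≠ 0 ∧ |Real.log ‖ψ ⟨η i, hηA i⟩‖| ≤ a₁ * (R + 1))
    (A₁ : Subalgebra ℂ M') (ξ' : Fin n → M') (hPξ' : aeval ξ' P = 0) (hξ'A₁ : ∀ i, ξ' i ∈ A₁)
    (σ : A₁) (hσ : (σ : M') = ξ' l - ∑ j : {j : Fin n // j ≠ l},
      algebraMap ℂ M' (c' j : ℂ) * ξ' j)
    (w : {j : Fin n // j ≠ l} → ℂ) (hw : 0 < ‖w‖) (ε₂ Λ₃ : ℝ) (hε₂ : ε₂ ≤ ‖w‖ / 2)
    (Φ : ({j : Fin n // j ≠ l} → ℂ) × ℂ → (A₁ →ₐ[ℂ] ℂ))
    (hΦ : IsFam (fun j : {j : Fin n // j ≠ l} => ξ' j) A₁ (fun j => hξ'A₁ j) (Dil w ε₂ Λ₃) Φ)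
    (hreg : Region A₁ σ bb K w ε₂ Λ₃ Φ) (M : ℝ) :
    ∃ ψ : A →ₐ[ℂ] ℂ, M < ‖fun i => ψ ⟨ξ i, hξA i⟩‖ ∧
      ∀ i, ψ ⟨η i, hηA i⟩ = Complex.exp (ψ ⟨ξ i, hξA i⟩) := by
  classical
  obtain ⟨C, hC, hcore⟩ := coreII l K hK μ hμl hgcd
  obtain ⟨ε₁, hε₁, hreg⟩ := hreg
  set δ : ℝ := ε₁ / (C * (a₁ * (K + 2))) with hδ
  have hK' : (0 : ℝ) < K := by exact_mod_cast hK
  have hδ0 : 0 < δ := by positivity
  have hev : ∀ᶠ N : ℕ in atTop, 1 ≤ N ∧ 1 / δ ≤ N ∧ 1 ≤ a₁ * (K + 2) * δ * N ∧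
      (N : ℝ) * (2 * ‖w‖) ≤ Real.exp (δ * N) ∧ M < N * (‖w‖ / 2) := by
    have h1 : Tendsto (fun N : ℕ => a₁ * (K + 2) * δ * (N : ℝ)) atTop atTop :=
      tendsto_natCast_atTop_atTop.const_mul_atTop (by positivity)
    have h2 : Tendsto (fun N : ℕ => (N : ℝ) * (‖w‖ / 2)) atTop atTop :=
      tendsto_natCast_atTop_atTop.atTop_mul_const (by positivity)
    have h3 : Tendsto (fun x : ℝ => x ^ 1 * Real.exp (-x)) atTop (𝓝 0) :=
      Real.tendsto_pow_mul_exp_neg_atTop_nhds_zero 1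
    have h4 : Tendsto (fun N : ℕ => δ * (N : ℝ)) atTop atTop :=
      tendsto_natCast_atTop_atTop.const_mul_atTop hδ0
    have h5 : Tendsto (fun N : ℕ => (2 * ‖w‖ / δ) *
        ((δ * (N : ℝ)) ^ 1 * Real.exp (-(δ * (N : ℝ))))) atTop (𝓝 ((2 * ‖w‖ / δ) * 0)) :=
      (h3.comp h4).const_mul _
    rw [mul_zero] at h5
    filter_upwards [eventually_ge_atTop 1, tendsto_natCast_atTop_atTop.eventually_ge_atTop (1 / δ),
      h1.eventually_ge_atTop 1, h2.eventually_gt_atTop M, h5.eventually_lt_const zero_lt_one]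
      with N a1 a2 a3 a4 a5
    refine ⟨a1, a2, a3, ?_, a4⟩
    have h6 := Real.exp_pos (δ * (N : ℝ))
    rw [Real.exp_neg, pow_one] at a5
    have h7 : (2 * ‖w‖ / δ) * (δ * (N : ℝ) * (Real.exp (δ * (N : ℝ)))⁻¹) =
        ((N : ℝ) * (2 * ‖w‖)) / Real.exp (δ * (N : ℝ)) := by
      field_simp
    rw [h7, div_lt_one h6] at a5
    exact a5.le
  obtain ⟨N, ⟨s, β, hs, hball⟩, hN1, hNδ, hR1, hNw, hNM⟩ :=
    ((hreg δ hδ0).and_eventually hev).exists
  have hN0 : (0 : ℝ) < N := by exact_mod_cast hN1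
  have hexps : ‖Complex.exp (-s)‖ = (N : ℝ)⁻¹ := by
    rw [Complex.norm_exp, Complex.neg_re, hs, Real.exp_neg, Real.exp_log hN0]
  set D : Set ({j : Fin n // j ≠ l} → ℂ) := ball (ipt β) (ε₁ * N) with hD
  have hDo : IsOpen D := isOpen_ball
  have hDc : Convex ℝ D := convex_ball _ _
  have hρ0 : 0 < ε₁ * N := by positivity
  set g : ({j : Fin n // j ≠ l} → ℂ) → ({j : Fin n // j ≠ l} → ℂ) × ℂ :=
    fun x => (Complex.exp (-s) • x, s) with hg
  have hgD : ∀ x ∈ D, g x ∈ Dil w ε₂ Λ₃ := fun x hx => (hball x hx).1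
  have hgan : ∀ x, AnalyticAt ℂ g x := by
    intro x
    have h1 : AnalyticAt ℂ (fun x : {j : Fin n // j ≠ l} → ℂ => Complex.exp (-s) • x) x := by
      fun_prop
    exact h1.prod analyticAt_const
  have han : ∀ u : A₁, AnalyticOnNhd ℂ (fun x => Φ (g x) u) D := by
    intro u x hx
    exact AnalyticAt.comp (g := fun p => Φ p u) (f := g) (x := x) (hΦ.2 u (g x) (hgD x hx))
      (hgan x)
  have hcoord : ∀ x ∈ D, ∀ j : {j : Fin n // j ≠ l}, Φ (g x) ⟨ξ' j, hξ'A₁ j⟩ = x j := by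
    intro x hx j
    rw [hΦ.1 (g x) (hgD x hx) j]
    simp only [hg, Pi.smul_apply, smul_eq_mul]
    rw [← mul_assoc, ← Complex.exp_add, add_neg_cancel, Complex.exp_zero, one_mul]
  set y : ({j : Fin n // j ≠ l} → ℂ) → ℂ := fun x => Φ (g x) ⟨ξ' l, hξ'A₁ l⟩ with hy
  set τ : ({j : Fin n // j ≠ l} → ℂ) → ℂ := fun x => K * Φ (g x) σ with hτ
  have hτan : AnalyticOnNhd ℂ τ D := analyticOnNhd_const.mul (han σ)
  have hyP : ∀ x ∈ D, eval (glue l x (y x)) P = 0 := by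
    intro x hx
    have h1 := psi_P ξ' P hPξ' A₁ hξ'A₁ (Φ (g x))
    rw [glue_eq l x (fun i => Φ (g x) ⟨ξ' i, hξ'A₁ i⟩) (hcoord x hx)] at h1
    exact h1
  have hσx : ∀ x ∈ D, Φ (g x) σ = y x - ∑ j : {j : Fin n // j ≠ l}, (c' j : ℂ) * x j := by
    intro x hx
    have h1 : σ = ⟨ξ' l, hξ'A₁ l⟩ - ∑ j : {j : Fin n // j ≠ l},
        algebraMap ℂ A₁ (c' j : ℂ) * ⟨ξ' j, hξ'A₁ j⟩ := by
      apply Subtype.ext
      rw [hσ, AddSubgroupClass.coe_sub, AddSubmonoidClass.coe_finsetSum]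
      rfl
    rw [h1, map_sub, map_sum]
    congr 1
    refine Finset.sum_congr rfl fun j _ => ?_
    rw [map_mul, AlgHom.commutes, hcoord x hx j]
    rfl
  have hbbx : ∀ x ∈ D, Real.exp (-(δ * N)) ≤ ‖evT x (Complex.exp (τ x)) bb‖ :=
    fun x hx => (hball x hx).2.1
  have hbne : ∀ x ∈ D, evT x (Complex.exp (τ x)) bS ≠ 0 := by
    intro x hx h0
    obtain ⟨k, hk⟩ := hdvd
    have h4 := hbbx x hx
    rw [hk, map_mul, h0, zero_mul, norm_zero] at h4
    exact absurd h4 (not_le.mpr (Real.exp_pos _))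
  have hp₀ : ipt β ∈ D := mem_ball_self hρ0
  obtain ⟨Ψ, hΨ0, hΨ, hΨan⟩ := hsheets D hDo hDc τ hτan hbne (ipt β) hp₀ (y (ipt β))
    (hyP _ hp₀)
  have hΨP : ∀ x ∈ D, eval (glue l x (Ψ x ⟨ξ l, hξA l⟩)) P = 0 := by
    intro x hx
    have h1 := psi_P ξ P hPξ A hξA (Ψ x)
    rw [glue_eq l x (fun i => Ψ x ⟨ξ i, hξA i⟩) (hΨ x hx).1] at h1
    exact h1
  have hyΨ : ∀ x ∈ D, Ψ x ⟨ξ l, hξA l⟩ = y x :=
    branch_unique P l hDc.isPreconnected (fun x => x) continuousOn_id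
      (fun x => Ψ x ⟨ξ l, hξA l⟩) y (hΨan _).continuousOn (han _).continuousOn hΨP hyP
      (fun x hx => (hΨ x hx).2.2) hp₀ hΨ0
  set R' : ℝ := (K + 1) * δ * N with hR'
  have hδN : 0 < δ * N := by positivity
  have hR'0 : 0 ≤ R' := by positivity
  have hδR' : δ * N ≤ R' := by
    rw [hR', mul_assoc]
    nlinarith
  have hnormx : ∀ x ∈ D, ‖Complex.exp (-s) • x‖ * N = ‖x‖ := by
    intro x _
    rw [norm_smul, hexps]
    field_simp
  have hHb : ∀ x ∈ D, ∀ i, Ψ x ⟨η i, hηA i⟩ ≠ 0 ∧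
      |Real.log ‖Ψ x ⟨η i, hηA i⟩‖| ≤ a₁ * (K + 2) * δ * N := by
    intro x hx
    have h1 := hbound (Ψ x) R' hR'0
      (by
        intro j
        rw [(hΨ x hx).1 j]
        have h2 : ‖x j‖ ≤ ‖x‖ := norm_le_pi_norm x j
        have h3 := hnormx x hx
        have h4 : ‖Complex.exp (-s) • x‖ ≤ 2 * ‖w‖ := by
          have h5 := (hgD x hx).1
          rw [mem_ball, dist_eq_norm] at h5
          have h6 : ‖Complex.exp (-s) • x‖ ≤ ‖Complex.exp (-s) • x - w‖ + ‖w‖ := by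
            calc ‖Complex.exp (-s) • x‖ = ‖(Complex.exp (-s) • x - w) + w‖ := by
                  rw [sub_add_cancel]
              _ ≤ _ := norm_add_le _ _
          have h7 : ‖Complex.exp (-s) • x - w‖ < ε₂ := h5
          linarith
        have h8 : ‖x‖ ≤ N * (2 * ‖w‖) := by
          rw [← h3, mul_comm]
          exact mul_le_mul_of_nonneg_left h4 hN0.le
        exact (h2.trans (h8.trans hNw)).trans (Real.exp_le_exp.mpr hδR'))
      (by
        rw [(hΨ x hx).2.1, Complex.norm_exp]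
        apply Real.exp_le_exp.mpr
        have h2 : (τ x).re ≤ ‖τ x‖ := (le_abs_self _).trans (Complex.abs_re_le_norm _)
        have h3 : ‖τ x‖ = K * ‖Φ (g x) σ‖ := by
          simp only [hτ]
          rw [norm_mul, Complex.norm_natCast]
        have h4 : ‖Φ (g x) σ‖ ≤ δ * N := (hball x hx).2.2
        have h5 : K * ‖Φ (g x) σ‖ ≤ K * (δ * N) := mul_le_mul_of_nonneg_left h4 hK'.le
        rw [hR']
        nlinarith)
      (by
        have h2 : (fun j : {j : Fin n // j ≠ l} => Ψ x ⟨ξ j, hξA j⟩) = x :=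
          funext (hΨ x hx).1
        rw [h2, (hΨ x hx).2.1]
        exact (Real.exp_le_exp.mpr (by linarith)).trans (hbbx x hx))
    intro i
    refine ⟨(h1 i).1, (h1 i).2.trans ?_⟩
    have h2 : 1 ≤ δ * N := by
      rw [div_le_iff₀ hδ0] at hNδ
      linarith
    have h3 : a₁ * (K + 2) * δ * N = a₁ * ((K + 2) * (δ * N)) := by ring
    rw [h3]
    apply mul_le_mul_of_nonneg_left _ ha₁.le
    rw [hR']
    nlinarith
  have hCR : C * (a₁ * (K + 2) * δ * N) ≤ ε₁ * N := by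
    have h1 : C * (a₁ * (K + 2) * δ * N) = (C * (a₁ * (K + 2)) * δ) * N := by ring
    have h2 : C * (a₁ * (K + 2)) * δ = ε₁ := by
      rw [hδ]
      field_simp
    rw [h1, h2]
  obtain ⟨x, hxD, hx1, hx2⟩ := hcore β (ε₁ * N) (a₁ * (K + 2) * δ * N) hR1 hCR
    (fun x i => Ψ x ⟨η i, hηA i⟩) y (fun i => (hΨan ⟨η i, hηA i⟩).differentiableOn)
    (han ⟨ξ' l, hξ'A₁ l⟩).differentiableOn hHb
    (by
      intro x hx
      rw [← psi_zprod η hη μ A hηA hηA' htA (Ψ x), (hΨ x hx).2.1]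
      congr 1
      simp only [hτ]
      rw [hσx x hx, mul_sub, Finset.mul_sum, sub_eq_add_neg, ← Finset.sum_neg_distrib]
      congr 1
      refine Finset.sum_congr rfl fun j _ => ?_
      have h1 : (μ j : ℂ) = -(K * (c' j : ℂ)) := by exact_mod_cast congrArg (Rat.cast (K := ℂ)) (hμ j)
      rw [h1]
      ring)
  have hxD' : x ∈ D := hxD
  refine ⟨Ψ x, ?_, ?_⟩
  · have h1 : ‖x‖ ≤ ‖fun i => Ψ x ⟨ξ i, hξA i⟩‖ := by
      rw [pi_norm_le_iff_of_nonneg (norm_nonneg _)]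
      intro j
      rw [← (hΨ x hxD').1 j]
      exact norm_le_pi_norm (fun i => Ψ x ⟨ξ i, hξA i⟩) (j : Fin n)
    refine lt_of_lt_of_le (hNM.trans_le ?_) h1
    rw [← hnormx x hxD', mul_comm]
    apply mul_le_mul_of_nonneg_right _ hN0.le
    have h5 := (hgD x hxD').1
    rw [mem_ball, dist_eq_norm] at h5
    have h6 : ‖w‖ ≤ ‖Complex.exp (-s) • x‖ + ‖Complex.exp (-s) • x - w‖ := by
      calc ‖w‖ = ‖Complex.exp (-s) • x - (Complex.exp (-s) • x - w)‖ := by
            rw [sub_sub_cancel]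
        _ ≤ _ := norm_sub_le _ _
    have h7 : ‖Complex.exp (-s) • x - w‖ < ε₂ := h5
    linarith
  · intro i
    by_cases hi : i = l
    · subst hi
      rw [hyΨ x hxD']
      exact hx2
    · have h2 := (hΨ x hxD').1 ⟨i, hi⟩
      have h3 := hx1 ⟨i, hi⟩
      simp only at h2 h3
      rw [h2]
      exact h3

end Pool.Agent.Lib.MP_209724_lc.HS
end
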