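import Mathlib
import Pool.Agent.Lib.MP_209724_lc.SC.Ed3
import Pool.Agent.Lib.MP_209724_lc.SC.Ed10

section

namespace Pool.Agent.Lib.MP_209724_lc.HS

open MvPolynomial Filter Topology Metric
open MV (lead evT glue)
open GC (evM)

/-- compact subsets of the strip are eventually in the rectangles -/
private theorem hs3_comp {c₀ : ℝ} {R : ℕ → ℝ} (hR : Tendsto R atTop atTop) {K : Set ℂ}
    (hK : IsCompact K) (hKS : K ⊆ {w : ℂ | |w.im| < c₀}) :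
    ∀ᶠ t in atTop, K ⊆ {w : ℂ | |w.im| < c₀ ∧ |w.re| < R t} := by
  obtain ⟨M, hM⟩ := hK.isBounded.exists_norm_le
  filter_upwards [hR.eventually_gt_atTop M] with t ht w hw
  exact ⟨hKS hw, (Complex.abs_re_le_norm w).trans_lt ((hM w hw).trans_lt ht)⟩

private theorem hs3_open {c₀ : ℝ} : IsOpen {w : ℂ | |w.im| < c₀} :=
  isOpen_lt (continuous_abs.comp Complex.continuous_im) continuous_const

/-- the case `ψ = id` -/
private theorem hs3_core {n : ℕ} {c₀ C : ℝ} (hc₀ : 0 < c₀) (hC : 0 ≤ C) (R : ℕ → ℝ)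
    (hR : Tendsto R atTop atTop) (F : ℕ → ℂ → Fin n → ℂ)
    (hd : ∀ᶠ t in atTop, ∀ i, DifferentiableOn ℂ (fun w => F t w i) {w | |w.im| < c₀ ∧ |w.re| < R t})
    (h0 : ∀ᶠ t in atTop, F t 0 = 0)
    (hL : ∀ᶠ t in atTop, ∀ w ∈ {w : ℂ | |w.im| < c₀ ∧ |w.re| < R t},
      ∀ w' ∈ {w : ℂ | |w.im| < c₀ ∧ |w.re| < R t}, ‖F t w - F t w'‖ ≤ C * ‖w - w'‖) :
    ∃ (φ : ℕ → ℕ) (f : ℂ → Fin n → ℂ), StrictMono φ ∧
      (∀ i, DifferentiableOn ℂ (fun w => f w i) {w | |w.im| < c₀}) ∧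
      ∀ K ⊆ {w : ℂ | |w.im| < c₀}, IsCompact K → ∀ ε : ℝ, 0 < ε →
        ∀ᶠ t in atTop, ∀ w ∈ K, ‖F (φ t) w - f w‖ ≤ ε := by
  classical
  set S : Set ℂ := {w : ℂ | |w.im| < c₀} with hS
  have hSo : IsOpen S := hs3_open
  set D : ℕ → ℂ := TopologicalSpace.denseSeq ℂ with hD
  have hDd : DenseRange D := TopologicalSpace.denseRange_denseSeq ℂ
  -- the points of the strip are in the rectangles eventually
  have hpt : ∀ w ∈ S, ∀ᶠ t in atTop, w ∈ {w : ℂ | |w.im| < c₀ ∧ |w.re| < R t} := by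
    intro w hw
    have := hs3_comp (c₀ := c₀) hR (isCompact_singleton (x := w))
      (by intro y hy; rw [Set.mem_singleton_iff.mp hy]; exact hw)
    filter_upwards [this] with t ht
    exact ht rfl
  have h0S : (0 : ℂ) ∈ S := by simp [hS, hc₀]
  have hbd : ∀ w ∈ S, ∀ᶠ t in atTop, ‖F t w‖ ≤ C * ‖w‖ := by
    intro w hw
    filter_upwards [hL, h0, hpt w hw, hpt 0 h0S] with t h1 h2 h3 h4
    have := h1 w h3 0 h4
    rwa [h2, sub_zero, sub_zero] at this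
  -- the compact product
  let G : ℕ → (ℕ → (Fin n → ℂ)) := fun k q =>
    if ‖F k (D q)‖ ≤ C * ‖D q‖ then F k (D q) else 0
  have hG : ∀ k, G k ∈ Set.pi Set.univ (fun q => closedBall (0 : Fin n → ℂ) (C * ‖D q‖)) := by
    intro k q _
    simp only [G]
    split_ifs with h
    · simpa using h
    · simpa using mul_nonneg hC (norm_nonneg _)
  obtain ⟨a, -, φ, hφ, hlim⟩ := (isCompact_univ_pi
    (fun q => isCompact_closedBall (0 : Fin n → ℂ) (C * ‖D q‖))).tendsto_subseq hG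
  have hφt : Tendsto φ atTop atTop := hφ.tendsto_atTop
  have hlimq : ∀ q, D q ∈ S → Tendsto (fun k => F (φ k) (D q)) atTop (𝓝 (a q)) := by
    intro q hq
    have h1 : Tendsto (fun k => G (φ k) q) atTop (𝓝 (a q)) := (tendsto_pi_nhds.mp hlim) q
    refine h1.congr' ?_
    filter_upwards [hφt.eventually (hbd (D q) hq)] with k hk
    simp only [G]
    rw [if_pos hk]
  -- Lipschitz along the subsequence
  have hLip : ∀ w ∈ S, ∀ w' ∈ S, ∀ᶠ k in atTop, ‖F (φ k) w - F (φ k) w'‖ ≤ C * ‖w - w'‖ := by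
    intro w hw w' hw'
    filter_upwards [hφt.eventually hL, hφt.eventually (hpt w hw), hφt.eventually (hpt w' hw')]
      with k h1 h2 h3
    exact h1 w h2 w' h3
  -- density
  have hdense : ∀ w ∈ S, ∀ η : ℝ, 0 < η → ∃ q, D q ∈ S ∧ ‖w - D q‖ < η := by
    intro w hw η hη
    obtain ⟨δ, hδ, hb⟩ := Metric.isOpen_iff.mp hSo w hw
    obtain ⟨q, hq⟩ := hDd.exists_dist_lt w (lt_min hδ hη)
    refine ⟨q, hb ?_, ?_⟩
    · rw [mem_ball, dist_comm]; exact hq.trans_le (min_le_left _ _)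
    · rw [← dist_eq_norm]; exact hq.trans_le (min_le_right _ _)
  -- pointwise convergence
  have hcv : ∀ w ∈ S, ∃ b, Tendsto (fun k => F (φ k) w) atTop (𝓝 b) := by
    intro w hw
    apply cauchySeq_tendsto_of_complete
    rw [Metric.cauchySeq_iff']
    intro ε hε
    obtain ⟨q, hq, hqw⟩ := hdense w hw (ε / (4 * (C + 1))) (by positivity)
    have hC1 : C * ‖w - D q‖ ≤ ε / 4 := by
      have h1 : C * ‖w - D q‖ ≤ (C + 1) * (ε / (4 * (C + 1))) :=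
        mul_le_mul (by linarith) hqw.le (norm_nonneg _) (by linarith)
      have h2 : (C + 1) * (ε / (4 * (C + 1))) = ε / 4 := by
        field_simp
      linarith
    have h1 := (Metric.tendsto_nhds.mp (hlimq q hq)) (ε / 4) (by positivity)
    obtain ⟨N, hN⟩ := eventually_atTop.mp (h1.and (hLip w hw (D q) hq))
    refine ⟨N, fun m hm => ?_⟩
    have a1 := hN m hm
    have a2 := hN N le_rfl
    have t1 : dist (F (φ m) w) (F (φ m) (D q)) ≤ ε / 4 := by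
      rw [dist_eq_norm]; exact a1.2.trans hC1
    have t2 : dist (F (φ N) w) (F (φ N) (D q)) ≤ ε / 4 := by
      rw [dist_eq_norm]; exact a2.2.trans hC1
    have t3 := a1.1
    have t4 := a2.1
    have := dist_triangle4 (F (φ m) w) (F (φ m) (D q)) (F (φ N) (D q)) (F (φ N) w)
    have t5 := dist_triangle_right (F (φ m) (D q)) (F (φ N) (D q)) (a q)
    rw [dist_comm (F (φ N) (D q)) (F (φ N) w)] at this
    linarith
  choose! f hf using hcv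
  have hfL : ∀ w ∈ S, ∀ w' ∈ S, ‖f w - f w'‖ ≤ C * ‖w - w'‖ := by
    intro w hw w' hw'
    exact le_of_tendsto ((hf w hw).sub (hf w' hw')).norm (hLip w hw w' hw')
  -- uniform convergence
  have hunif : ∀ K ⊆ S, IsCompact K → ∀ ε : ℝ, 0 < ε →
      ∀ᶠ t in atTop, ∀ w ∈ K, ‖F (φ t) w - f w‖ ≤ ε := by
    intro K hKS hK ε hε
    set η : ℝ := ε / (4 * (C + 1)) with hη
    have hη0 : 0 < η := by positivity
    have hCη : ∀ x : ℝ, 0 ≤ x → x < η → C * x ≤ ε / 4 := by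
      intro x hx0 hx
      have h1 : C * x ≤ (C + 1) * η := mul_le_mul (by linarith) hx.le hx0 (by linarith)
      have h2 : (C + 1) * η = ε / 4 := by rw [hη]; field_simp
      linarith
    obtain ⟨T, hT⟩ := hK.elim_finite_subcover
      (fun q : {q : ℕ // D q ∈ S} => ball (D q) η) (fun _ => isOpen_ball) (by
        intro w hw
        obtain ⟨q, hq, hqw⟩ := hdense w (hKS hw) η hη0
        exact Set.mem_iUnion.mpr ⟨⟨q, hq⟩, by rwa [mem_ball, dist_eq_norm]⟩)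
    have hT1 : ∀ᶠ k in atTop, ∀ q ∈ T, ‖F (φ k) (D q) - f (D q)‖ < ε / 4 := by
      rw [eventually_all_finset]
      intro q _
      have := (Metric.tendsto_nhds.mp (hf (D q) q.2)) (ε / 4) (by positivity)
      filter_upwards [this] with k hk
      rwa [← dist_eq_norm]
    have hT2 : ∀ᶠ k in atTop, ∀ q ∈ T, D q ∈ {w : ℂ | |w.im| < c₀ ∧ |w.re| < R (φ k)} := by
      rw [eventually_all_finset]
      intro q _
      exact hφt.eventually (hpt (D q) q.2)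
    filter_upwards [hT1, hT2, hφt.eventually (hs3_comp hR hK hKS), hφt.eventually hL]
      with k h1 h2 h3 h4 w hw
    obtain ⟨q, hqT, hqw⟩ := Set.mem_iUnion₂.mp (hT hw)
    rw [mem_ball, dist_eq_norm] at hqw
    have e1 : ‖F (φ k) w - F (φ k) (D q)‖ ≤ ε / 4 :=
      (h4 w (h3 hw) (D q) (h2 q hqT)).trans (hCη _ (norm_nonneg _) hqw)
    have e2 : ‖f (D q) - f w‖ ≤ ε / 4 := by
      refine (hfL (D q) q.2 w (hKS hw)).trans ?_
      rw [norm_sub_rev]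
      exact hCη _ (norm_nonneg _) hqw
    have e3 := h1 q hqT
    have : F (φ k) w - f w = (F (φ k) w - F (φ k) (D q)) + (F (φ k) (D q) - f (D q)) +
        (f (D q) - f w) := by abel
    rw [this]
    have := norm_add₃_le (a := F (φ k) w - F (φ k) (D q)) (b := F (φ k) (D q) - f (D q))
      (c := f (D q) - f w)
    linarith
  refine ⟨φ, f, hφ, ?_, hunif⟩
  intro i w hw
  obtain ⟨δ, hδ, hb⟩ := Metric.isOpen_iff.mp hSo w hw
  have hcb : closedBall w (δ / 2) ⊆ S :=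
    (closedBall_subset_ball (by linarith)).trans hb
  have hU := hunif (closedBall w (δ / 2)) hcb (isCompact_closedBall _ _)
  have htu : TendstoUniformlyOn (fun k w => F (φ k) w i) (fun w => f w i) atTop
      (ball w (δ / 2)) := by
    rw [Metric.tendstoUniformlyOn_iff]
    intro ε hε
    filter_upwards [hU (ε / 2) (by positivity)] with k hk x hx
    have h1 := hk x (ball_subset_closedBall hx)
    have h2 : ‖(F (φ k) x - f x) i‖ ≤ ‖F (φ k) x - f x‖ := norm_le_pi_norm _ i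
    rw [dist_comm, dist_eq_norm]
    rw [Pi.sub_apply] at h2
    linarith
  have hdd : ∀ᶠ k in atTop, DifferentiableOn ℂ (fun w => F (φ k) w i) (ball w (δ / 2)) := by
    filter_upwards [hφt.eventually hd,
      hφt.eventually (hs3_comp hR (isCompact_closedBall w (δ / 2)) hcb)] with k h1 h2
    exact (h1 i).mono (ball_subset_closedBall.trans h2)
  have := htu.tendstoLocallyUniformlyOn.differentiableOn hdd isOpen_ball
  exact (this.differentiableAt (isOpen_ball.mem_nhds (mem_ball_self (by positivity)))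
    ).differentiableWithinAt

/-- HS-3: Lipschitz families on a strip. -/
theorem montel_strip {n : ℕ} {c₀ C : ℝ} (hc₀ : 0 < c₀) (R : ℕ → ℝ) (hR : Tendsto R atTop atTop)
    (F : ℕ → ℂ → Fin n → ℂ)
    (hd : ∀ᶠ t in atTop, ∀ i, DifferentiableOn ℂ (fun w => F t w i) {w | |w.im| < c₀ ∧ |w.re| < R t})
    (h0 : ∀ᶠ t in atTop, F t 0 = 0)
    (hL : ∀ᶠ t in atTop, ∀ w ∈ {w : ℂ | |w.im| < c₀ ∧ |w.re| < R t},
      ∀ w' ∈ {w : ℂ | |w.im| < c₀ ∧ |w.re| < R t}, ‖F t w - F t w'‖ ≤ C * ‖w - w'‖) :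
    ∀ ψ : ℕ → ℕ, Tendsto ψ atTop atTop →
    ∃ (φ : ℕ → ℕ) (f : ℂ → Fin n → ℂ), StrictMono φ ∧
      (∀ i, DifferentiableOn ℂ (fun w => f w i) {w | |w.im| < c₀}) ∧
      ∀ K ⊆ {w : ℂ | |w.im| < c₀}, IsCompact K → ∀ ε : ℝ, 0 < ε →
        ∀ᶠ t in atTop, ∀ w ∈ K, ‖F (ψ (φ t)) w - f w‖ ≤ ε := by
  intro ψ hψ
  refine hs3_core (C := max C 0) hc₀ (le_max_right _ _) (fun t => R (ψ t)) (hR.comp hψ)
    (fun t => F (ψ t)) (hψ.eventually hd) (hψ.eventually h0) ?_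
  filter_upwards [hψ.eventually hL] with t ht w hw w' hw'
  exact (ht w hw w' hw').trans (mul_le_mul_of_nonneg_right (le_max_left _ _) (norm_nonneg _))

end Pool.Agent.Lib.MP_209724_lc.HS
end

section

namespace Pool.Agent.Lib.MP_209724_lc.HS

open MvPolynomial Filter Topology Metric
open MV (lead evT glue)
open GC (evM)

private theorem phase_one {x : ℝ} (hx : Irrational x) {ε : ℝ} (hε : 0 < ε) (ψ : ℝ) :
    ∃ k m : ℤ, |ψ + 2 * Real.pi * (x * k) - 2 * Real.pi * m| < ε := by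
  have hpi := Real.pi_pos
  have h1 : Irrational (2 * Real.pi * x / (2 * Real.pi)) := by
    rwa [mul_div_cancel_left₀ _ (by positivity)]
  have h2 := dense_addSubgroupClosure_pair_iff.2 h1
  obtain ⟨y, hy, hy2⟩ := Metric.dense_iff.1 h2 (-ψ) ε hε
  rw [Metric.mem_ball, Real.dist_eq] at hy
  have hy3 : y ∈ AddSubgroup.closure {2 * Real.pi * x, 2 * Real.pi} := hy2
  rw [AddSubgroup.mem_closure_pair] at hy3
  obtain ⟨k, m, h⟩ := hy3
  refine ⟨k, -m, ?_⟩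
  rw [zsmul_eq_mul, zsmul_eq_mul] at h
  have h3 : ψ + 2 * Real.pi * (x * k) - 2 * Real.pi * ((-m : ℤ) : ℝ) = y - -ψ := by
    push_cast
    rw [← h]
    ring
  rw [h3]
  exact hy

/-- HS-8: matching of phases. -/
theorem phase {ι : Type} [Fintype ι] (c : ι → ℝ) (hc : ∃ j, Irrational (c j)) {ε : ℝ}
    (hε : 0 < ε) : ∃ K : ℝ, ∀ ψ : ℝ, ∃ (k : ι → ℤ) (m : ℤ), (∀ j, |(k j : ℝ)| ≤ K) ∧
      |ψ + 2 * Real.pi * ∑ j, c j * k j - 2 * Real.pi * m| < ε := by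
  classical
  obtain ⟨j0, hj0⟩ := hc
  have hpi := Real.pi_pos
  let U : ℤ → Set ℝ := fun k => {ψ | ∃ m : ℤ, |ψ + 2 * Real.pi * (c j0 * k) - 2 * Real.pi * m| < ε}
  have hU : ∀ k, IsOpen (U k) := by
    intro k
    have h1 : U k = ⋃ m : ℤ, {ψ : ℝ | |ψ + 2 * Real.pi * (c j0 * k) - 2 * Real.pi * m| < ε} := by
      ext ψ
      simp [U]
    rw [h1]
    refine isOpen_iUnion fun m => ?_
    exact isOpen_lt (by fun_prop) continuous_const
  have hcov : Set.Icc (0 : ℝ) (2 * Real.pi) ⊆ ⋃ k, U k := by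
    intro ψ _
    obtain ⟨k, m, h⟩ := phase_one hj0 hε ψ
    exact Set.mem_iUnion.2 ⟨k, m, h⟩
  obtain ⟨t, ht⟩ := isCompact_Icc.elim_finite_subcover U hU hcov
  refine ⟨∑ k ∈ t, |(k : ℝ)|, fun ψ => ?_⟩
  have h1 : ψ - 2 * Real.pi * ⌊ψ / (2 * Real.pi)⌋ ∈ Set.Icc (0 : ℝ) (2 * Real.pi) := by
    have h2 := Int.floor_le (ψ / (2 * Real.pi))
    have h3 := Int.lt_floor_add_one (ψ / (2 * Real.pi))
    rw [le_div_iff₀ (by positivity)] at h2
    rw [div_lt_iff₀ (by positivity)] at h3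
    constructor <;> nlinarith
  have h4 := ht h1
  simp only [Set.mem_iUnion] at h4
  obtain ⟨k, hk, m, hm⟩ := h4
  refine ⟨Pi.single j0 k, m + ⌊ψ / (2 * Real.pi)⌋, fun j => ?_, ?_⟩
  · have h5 : |(k : ℝ)| ≤ ∑ k ∈ t, |(k : ℝ)| :=
      Finset.single_le_sum (f := fun k : ℤ => |(k : ℝ)|) (fun _ _ => abs_nonneg _) hk
    by_cases hj : j = j0
    · subst hj
      simpa using h5
    · rw [Pi.single_eq_of_ne hj]
      simp only [Int.cast_zero, abs_zero]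
      exact (abs_nonneg _).trans h5
  · have h6 : ∑ j, c j * ((Pi.single j0 k : ι → ℤ) j : ℝ) = c j0 * k := by
      rw [Finset.sum_eq_single j0]
      · simp
      · intro j _ hj
        rw [Pi.single_eq_of_ne hj]
        simp
      · intro h
        exact absurd (Finset.mem_univ _) h
    rw [h6]
    convert hm using 2
    push_cast
    ring

end Pool.Agent.Lib.MP_209724_lc.HS
end

section

namespace Pool.Agent.Lib.MP_209724_lc.HS

open MvPolynomial Filter Topology Metric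
open MV (lead evT glue)
open GC (evM)

/-- HS-4: growth exponents are rational. -/
theorem rational_exponent (S : Finset (ℕ × ℕ)) (γ : ℕ × ℕ → ℂ) (hγ : ∃ p ∈ S, γ p ≠ 0)
    (w : ℕ → ℝ) (hw : Tendsto w atTop atTop) (g : ℕ → ℂ) (α : ℝ)
    (hα : Tendsto (fun k => (g k).re / w k) atTop (𝓝 α))
    (h : ∀ k, ∑ p ∈ S, γ p * Complex.exp (p.1 * w k + p.2 * g k) = 0) : ∃ r : ℚ, α = r := by
  classical
  by_contra hcon
  push Not at hcon
  -- the exponents are distinct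
  have hinj : ∀ p q : ℕ × ℕ, p ≠ q → (p.1 : ℝ) + p.2 * α ≠ q.1 + q.2 * α := by
    intro p q hpq he
    by_cases h2 : p.2 = q.2
    · have h1 : (p.1 : ℝ) = q.1 := by
        rw [h2] at he
        linarith
      exact hpq (Prod.ext (by exact_mod_cast h1) h2)
    · apply hcon (((q.1 : ℚ) - p.1) / ((p.2 : ℚ) - q.2))
      have h3 : ((p.2 : ℝ) - q.2) ≠ 0 := by
        intro h0
        apply h2
        have : (p.2 : ℝ) = q.2 := by linarith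
        exact_mod_cast this
      push_cast
      rw [eq_div_iff h3]
      linarith
  set S' := S.filter fun p => γ p ≠ 0 with hS'
  have hne : S'.Nonempty := by
    obtain ⟨p, hp, hp0⟩ := hγ
    exact ⟨p, Finset.mem_filter.mpr ⟨hp, hp0⟩⟩
  obtain ⟨q, hq, hmax⟩ := Finset.exists_max_image S' (fun p => (p.1 : ℝ) + p.2 * α) hne
  have hq0 : γ q ≠ 0 := (Finset.mem_filter.mp hq).2
  have hlt : ∀ p ∈ S'.erase q, (p.1 : ℝ) - q.1 + (p.2 - q.2) * α < 0 := by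
    intro p hp
    rw [Finset.mem_erase] at hp
    have h1 := hmax p hp.2
    have h2 := lt_of_le_of_ne h1 (hinj p q hp.1)
    linarith
  -- the relation for `S'`
  have h' : ∀ k, ∑ p ∈ S', γ p * Complex.exp (p.1 * w k + p.2 * g k) = 0 := by
    intro k
    rw [← h k, hS', Finset.sum_filter]
    refine Finset.sum_congr rfl fun p _ => ?_
    split_ifs with h0
    · rfl
    · rw [not_not.mp h0, zero_mul]
  have hk : ∀ k, ‖γ q‖ ≤ ∑ p ∈ S'.erase q, ‖γ p‖ *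
      Real.exp (((p.1 : ℝ) - q.1) * w k + ((p.2 : ℝ) - q.2) * (g k).re) := by
    intro k
    have h1 : γ q = - ∑ p ∈ S'.erase q, γ p *
        Complex.exp (((p.1 : ℂ) - q.1) * w k + ((p.2 : ℂ) - q.2) * g k) := by
      have h2 := h' k
      rw [← Finset.add_sum_erase S' _ hq] at h2
      have h3 : ∑ p ∈ S'.erase q, γ p *
          Complex.exp (((p.1 : ℂ) - q.1) * w k + ((p.2 : ℂ) - q.2) * g k) =
          (∑ p ∈ S'.erase q, γ p * Complex.exp (p.1 * w k + p.2 * g k)) *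
            Complex.exp (-(q.1 * w k + q.2 * g k)) := by
        rw [Finset.sum_mul]
        refine Finset.sum_congr rfl fun p _ => ?_
        rw [mul_assoc, ← Complex.exp_add]
        congr 2
        ring
      have h4 : ∑ p ∈ S'.erase q, γ p * Complex.exp (p.1 * w k + p.2 * g k) =
          - (γ q * Complex.exp (q.1 * w k + q.2 * g k)) := by
        linear_combination h2
      rw [h3, h4, neg_mul, neg_neg, mul_assoc, ← Complex.exp_add, add_neg_cancel,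
        Complex.exp_zero, mul_one]
    calc ‖γ q‖ = ‖∑ p ∈ S'.erase q, γ p *
        Complex.exp (((p.1 : ℂ) - q.1) * w k + ((p.2 : ℂ) - q.2) * g k)‖ := by
          conv_lhs => rw [h1]
          rw [norm_neg]
      _ ≤ ∑ p ∈ S'.erase q, ‖γ p *
        Complex.exp (((p.1 : ℂ) - q.1) * w k + ((p.2 : ℂ) - q.2) * g k)‖ := norm_sum_le _ _
      _ = _ := by
          refine Finset.sum_congr rfl fun p _ => ?_
          rw [norm_mul, Complex.norm_exp]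
          congr 2
          have e1 : ((p.1 : ℂ) - q.1) = (((p.1 : ℝ) - q.1 : ℝ) : ℂ) := by push_cast; ring
          have e2 : ((p.2 : ℂ) - q.2) = (((p.2 : ℝ) - q.2 : ℝ) : ℂ) := by push_cast; ring
          rw [e1, e2, Complex.add_re, Complex.re_ofReal_mul, Complex.re_ofReal_mul,
            Complex.ofReal_re]
  have hterm : ∀ p ∈ S'.erase q, Tendsto (fun k => ‖γ p‖ *
      Real.exp (((p.1 : ℝ) - q.1) * w k + ((p.2 : ℝ) - q.2) * (g k).re)) atTop (𝓝 0) := by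
    intro p hp
    have h1 : Tendsto (fun k => ((p.1 : ℝ) - q.1) + ((p.2 : ℝ) - q.2) * ((g k).re / w k)) atTop
        (𝓝 (((p.1 : ℝ) - q.1) + ((p.2 : ℝ) - q.2) * α)) := (hα.const_mul _).const_add _
    have h2 := Tendsto.atTop_mul_neg (hlt p hp) hw h1
    have h3 : Tendsto (fun k => ((p.1 : ℝ) - q.1) * w k + ((p.2 : ℝ) - q.2) * (g k).re)
        atTop atBot := by
      refine h2.congr' ?_
      filter_upwards [hw.eventually_gt_atTop 0] with k hk0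
      field_simp
    have h4 := (Real.tendsto_exp_atBot.comp h3).const_mul ‖γ p‖
    rw [mul_zero] at h4
    exact h4
  have hsum := tendsto_finsetSum (S'.erase q) hterm
  rw [Finset.sum_const_zero] at hsum
  have hle := ge_of_tendsto' hsum hk
  exact hq0 (norm_le_zero_iff.mp hle)

end Pool.Agent.Lib.MP_209724_lc.HS
end

section

namespace Pool.Agent.Lib.MP_209724_lc.HS

open MvPolynomial Filter Topology Metric
open MV (lead evT glue)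
open GC (evM)

/-- HS-5: the limit function is not constant. -/
theorem limit_nonconst {n : ℕ} {c₀ C : ℝ} (hc₀ : 0 < c₀) (f : ℂ → Fin n → ℂ)
    (hf : ∀ i, DifferentiableOn ℂ (fun w => f w i) {w | |w.im| < c₀}) (hf0 : f 0 = 0)
    (hC : ∀ w : ℂ, |w.im| < c₀ → ‖f w‖ ≤ C * ‖w‖) (c : Fin n → ℝ) (μ : Fin n → ℤ)
    (hstar : ∀ α : Fin n → ℚ, ∑ i, c i * α i = 0 → ∑ i, (μ i : ℚ) * α i = 0)
    (hμ : ∀ w : ℂ, |w.im| < c₀ → ∑ i, (μ i : ℂ) * f w i = w)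
    (hrel : ∀ i, ∃ (S : Finset (ℕ × ℕ)) (γ : ℕ × ℕ → ℂ), (∃ p ∈ S, γ p ≠ 0) ∧
      ∀ w : ℂ, |w.im| < c₀ → ∑ p ∈ S, γ p * Complex.exp (p.1 * w + p.2 * f w i) = 0)
    {r₀ : ℝ} (hr₀ : 0 < r₀) (hr₀' : r₀ ≤ c₀) :
    ∃ r, 0 < r ∧ r < r₀ ∧ ∀ w : ℂ, ‖w‖ = r → ∑ i, (c i : ℂ) * f w i ≠ 0 := by
  have hSo : IsOpen {w : ℂ | |w.im| < c₀} :=
    isOpen_lt (continuous_abs.comp Complex.continuous_im) continuous_const
  have hSc : Convex ℝ {w : ℂ | |w.im| < c₀} := by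
    have h1 : {w : ℂ | |w.im| < c₀} = {w : ℂ | -c₀ < w.im} ∩ {w : ℂ | w.im < c₀} := by
      ext w
      simp [abs_lt]
    rw [h1]
    exact (convex_halfSpace_im_gt _).inter (convex_halfSpace_im_lt _)
  have h0S : (0 : ℂ) ∈ {w : ℂ | |w.im| < c₀} := by
    show |(0 : ℂ).im| < c₀
    simpa using hc₀
  have hGd : DifferentiableOn ℂ (fun w => ∑ i, (c i : ℂ) * f w i) {w : ℂ | |w.im| < c₀} :=
    DifferentiableOn.fun_sum fun i _ => (hf i).const_mul _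
  have hGa := hGd.analyticOnNhd hSo
  rcases (hGa 0 h0S).eventually_eq_zero_or_eventually_ne_zero with hA | hA
  · -- identically zero
    exfalso
    have hz := hGa.eqOn_zero_of_preconnected_of_eventuallyEq_zero hSc.isPreconnected h0S hA
    have hwS : ∀ k : ℕ, (((k : ℝ) + 1 : ℝ) : ℂ) ∈ {w : ℂ | |w.im| < c₀} := by
      intro k
      show |((((k : ℝ) + 1 : ℝ) : ℂ)).im| < c₀
      rw [Complex.ofReal_im, abs_zero]
      exact hc₀
    let x : ℕ → Fin n → ℝ := fun k i => (f (((k : ℝ) + 1 : ℝ) : ℂ) i).re / ((k : ℝ) + 1)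
    have hx : ∀ k, x k ∈ closedBall (0 : Fin n → ℝ) |C| := by
      intro k
      have hk : (0 : ℝ) < (k : ℝ) + 1 := by positivity
      rw [mem_closedBall_zero_iff, pi_norm_le_iff_of_nonneg (abs_nonneg _)]
      intro i
      show ‖(f (((k : ℝ) + 1 : ℝ) : ℂ) i).re / ((k : ℝ) + 1)‖ ≤ |C|
      rw [Real.norm_eq_abs, abs_div, abs_of_pos hk, div_le_iff₀ hk]
      have h1 := hC _ (hwS k)
      rw [Complex.norm_real, Real.norm_eq_abs, abs_of_pos hk] at h1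
      calc |(f (((k : ℝ) + 1 : ℝ) : ℂ) i).re| ≤ ‖f (((k : ℝ) + 1 : ℝ) : ℂ) i‖ :=
            Complex.abs_re_le_norm _
        _ ≤ ‖f (((k : ℝ) + 1 : ℝ) : ℂ)‖ := norm_le_pi_norm _ i
        _ ≤ C * ((k : ℝ) + 1) := h1
        _ ≤ |C| * ((k : ℝ) + 1) := mul_le_mul_of_nonneg_right (le_abs_self C) hk.le
    obtain ⟨α, -, φ, hφ, hlim⟩ := tendsto_subseq_of_bounded
      (isBounded_closedBall (x := (0 : Fin n → ℝ)) (r := |C|)) hx
    have hlimi : ∀ i, Tendsto (fun k => (f (((φ k : ℝ) + 1 : ℝ) : ℂ) i).re / ((φ k : ℝ) + 1))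
        atTop (𝓝 (α i)) := fun i => (tendsto_pi_nhds.1 hlim) i
    have hwt : Tendsto (fun k => ((φ k : ℝ) + 1)) atTop atTop :=
      tendsto_atTop_add_const_right _ _ (tendsto_natCast_atTop_atTop.comp hφ.tendsto_atTop)
    have hrat : ∀ i, ∃ r : ℚ, α i = r := by
      intro i
      obtain ⟨S, γ, hγ, hS⟩ := hrel i
      refine rational_exponent S γ hγ (fun k => ((φ k : ℝ) + 1)) hwt
        (fun k => f (((φ k : ℝ) + 1 : ℝ) : ℂ) i) (α i) (hlimi i) fun k => ?_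
      exact hS _ (hwS (φ k))
    choose r hr using hrat
    -- the two limits
    have e1 : ∑ i, c i * α i = 0 := by
      have h1 : Tendsto (fun k => ∑ i, c i * ((f (((φ k : ℝ) + 1 : ℝ) : ℂ) i).re / ((φ k : ℝ) + 1)))
          atTop (𝓝 (∑ i, c i * α i)) := tendsto_finsetSum _ fun i _ => (hlimi i).const_mul _
      have h2 : (fun k => ∑ i, c i * ((f (((φ k : ℝ) + 1 : ℝ) : ℂ) i).re / ((φ k : ℝ) + 1))) =
          fun _ => 0 := by
        funext k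
        have h3 := congrArg Complex.re (hz (hwS (φ k)))
        simp only [Complex.re_sum, Complex.re_ofReal_mul, Pi.zero_apply, Complex.zero_re] at h3
        calc ∑ i, c i * ((f (((φ k : ℝ) + 1 : ℝ) : ℂ) i).re / ((φ k : ℝ) + 1)) =
            (∑ i, c i * (f (((φ k : ℝ) + 1 : ℝ) : ℂ) i).re) / ((φ k : ℝ) + 1) := by
              rw [Finset.sum_div]
              exact Finset.sum_congr rfl fun i _ => by ring
          _ = 0 := by rw [h3, zero_div]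
      rw [h2] at h1
      exact tendsto_nhds_unique h1 tendsto_const_nhds
    have e2 : ∑ i, (μ i : ℝ) * α i = 1 := by
      have h1 : Tendsto (fun k => ∑ i, (μ i : ℝ) *
          ((f (((φ k : ℝ) + 1 : ℝ) : ℂ) i).re / ((φ k : ℝ) + 1)))
          atTop (𝓝 (∑ i, (μ i : ℝ) * α i)) := tendsto_finsetSum _ fun i _ => (hlimi i).const_mul _
      have h2 : (fun k => ∑ i, (μ i : ℝ) *
          ((f (((φ k : ℝ) + 1 : ℝ) : ℂ) i).re / ((φ k : ℝ) + 1))) = fun _ => 1 := by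
        funext k
        have hk : (0 : ℝ) < (φ k : ℝ) + 1 := by positivity
        have h3 := congrArg Complex.re (hμ _ (hwS (φ k)))
        have h4 : ∀ i, ((μ i : ℂ) * f (((φ k : ℝ) + 1 : ℝ) : ℂ) i).re =
            (μ i : ℝ) * (f (((φ k : ℝ) + 1 : ℝ) : ℂ) i).re := by
          intro i
          rw [← Complex.ofReal_intCast, Complex.re_ofReal_mul]
        rw [Complex.re_sum, Complex.ofReal_re] at h3
        simp only [h4] at h3
        calc ∑ i, (μ i : ℝ) * ((f (((φ k : ℝ) + 1 : ℝ) : ℂ) i).re / ((φ k : ℝ) + 1)) =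
            (∑ i, (μ i : ℝ) * (f (((φ k : ℝ) + 1 : ℝ) : ℂ) i).re) / ((φ k : ℝ) + 1) := by
              rw [Finset.sum_div]
              exact Finset.sum_congr rfl fun i _ => by ring
          _ = 1 := by rw [h3, div_self hk.ne']
      rw [h2] at h1
      exact tendsto_nhds_unique h1 tendsto_const_nhds
    simp only [hr] at e1 e2
    have e3 := hstar r e1
    have e4 : ((∑ i, (μ i : ℚ) * r i : ℚ) : ℝ) = 1 := by
      push_cast
      exact e2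
    rw [e3] at e4
    simp at e4
  · -- isolated zero
    rw [eventually_nhdsWithin_iff, Metric.eventually_nhds_iff] at hA
    obtain ⟨δ, hδ, hA⟩ := hA
    refine ⟨min δ r₀ / 2, by positivity, ?_, fun w hw => ?_⟩
    · have := min_le_right δ r₀
      linarith
    · apply hA
      · rw [dist_zero_right, hw]
        have := min_le_left δ r₀
        linarith
      · intro h0
        have h1 : w = 0 := h0
        rw [h1, norm_zero] at hw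
        have : 0 < min δ r₀ / 2 := by positivity
        linarith

end Pool.Agent.Lib.MP_209724_lc.HS
end

section

namespace Pool.Agent.Lib.MP_209724_lc.HS

open MvPolynomial Filter Topology Metric
open MV (lead evT glue)
open GC (evM)

/-- normalised coefficients converge along a subsequence -/
private theorem ll_subseq {n : ℕ} (S : Fin n → Finset (ℕ × ℕ)) (γ : Fin n → ℕ → ℕ × ℕ → ℂ)
    (hS : ∀ i, (S i).Nonempty) (hγ0 : ∀ i, ∀ᶠ t in atTop, ∀ p ∈ S i, γ i t p ≠ 0) :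
    ∃ (ψ : ℕ → ℕ) (γ0 : Fin n → ℕ × ℕ → ℂ), StrictMono ψ ∧
      (∀ i, ∀ p ∈ S i, Tendsto (fun k => γ i (ψ k) p / (∑ q ∈ S i, ‖γ i (ψ k) q‖ : ℝ)) atTop
        (𝓝 (γ0 i p))) ∧ ∀ i, ∃ p ∈ S i, γ0 i p ≠ 0 := by
  classical
  have hb : ∀ i t, ∀ p ∈ S i, ‖γ i t p / (∑ q ∈ S i, ‖γ i t q‖ : ℝ)‖ ≤ 1 := by
    intro i t p hp
    have h1 : ‖γ i t p‖ ≤ ∑ q ∈ S i, ‖γ i t q‖ :=
      Finset.single_le_sum (f := fun q => ‖γ i t q‖) (fun q _ => norm_nonneg _) hp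
    have h2 : 0 ≤ ∑ q ∈ S i, ‖γ i t q‖ := Finset.sum_nonneg fun q _ => norm_nonneg _
    rw [norm_div, Complex.norm_real, Real.norm_of_nonneg h2]
    exact div_le_one_of_le₀ h1 h2
  obtain ⟨a, -, ψ, hψ, hlim⟩ := (isCompact_closedBall
    (0 : (i : Fin n) → (S i) → ℂ) 1).tendsto_subseq
    (x := fun t i (p : S i) => γ i t p / (∑ q ∈ S i, ‖γ i t q‖ : ℝ)) (fun t => by
      rw [mem_closedBall_zero_iff, pi_norm_le_iff_of_nonneg zero_le_one]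
      intro i
      rw [pi_norm_le_iff_of_nonneg zero_le_one]
      intro p
      exact hb i t p p.2)
  have hlim' : ∀ i, ∀ p ∈ S i, Tendsto (fun k => γ i (ψ k) p / (∑ q ∈ S i, ‖γ i (ψ k) q‖ : ℝ))
      atTop (𝓝 (if h : p ∈ S i then a i ⟨p, h⟩ else 0)) := by
    intro i p hp
    rw [dif_pos hp]
    have h1 := tendsto_pi_nhds.1 (tendsto_pi_nhds.1 hlim i) ⟨p, hp⟩
    exact h1
  refine ⟨ψ, fun i p => if h : p ∈ S i then a i ⟨p, h⟩ else 0, hψ, hlim', ?_⟩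
  intro i
  by_contra hcon
  push Not at hcon
  have h1 : Tendsto (fun k => ∑ p ∈ S i, ‖γ i (ψ k) p / (∑ q ∈ S i, ‖γ i (ψ k) q‖ : ℝ)‖) atTop
      (𝓝 (∑ p ∈ S i, ‖(if h : p ∈ S i then a i ⟨p, h⟩ else 0 : ℂ)‖)) :=
    tendsto_finsetSum _ fun p hp => (hlim' i p hp).norm
  have h2 : ∑ p ∈ S i, ‖(if h : p ∈ S i then a i ⟨p, h⟩ else 0 : ℂ)‖ = 0 :=
    Finset.sum_eq_zero fun p hp => by
      have := hcon p hp
      rw [this, norm_zero]
  rw [h2] at h1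
  have h3 : ∀ᶠ k in atTop, ∑ p ∈ S i, ‖γ i (ψ k) p / (∑ q ∈ S i, ‖γ i (ψ k) q‖ : ℝ)‖ = 1 := by
    filter_upwards [hψ.tendsto_atTop.eventually (hγ0 i)] with k hk
    have h4 : 0 < ∑ q ∈ S i, ‖γ i (ψ k) q‖ :=
      Finset.sum_pos (fun q hq => norm_pos_iff.2 (hk q hq)) (hS i)
    have h5 : ∀ p, ‖γ i (ψ k) p / (∑ q ∈ S i, ‖γ i (ψ k) q‖ : ℝ)‖ =
        ‖γ i (ψ k) p‖ / ∑ q ∈ S i, ‖γ i (ψ k) q‖ := by
      intro p
      rw [norm_div, Complex.norm_real, Real.norm_of_nonneg h4.le]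
    simp only [h5]
    rw [← Finset.sum_div, div_self h4.ne']
  have h6 : Tendsto (fun k => ∑ p ∈ S i, ‖γ i (ψ k) p / (∑ q ∈ S i, ‖γ i (ψ k) q‖ : ℝ)‖) atTop
      (𝓝 1) := tendsto_const_nhds.congr' (h3.mono fun k hk => hk.symm)
  exact zero_ne_one (tendsto_nhds_unique h1 h6)

/-- HS-6: local limit argument. -/
theorem local_limit {n : ℕ} (c : Fin n → ℝ) (μ : Fin n → ℤ)
    (hstar : ∀ α : Fin n → ℚ, ∑ i, c i * α i = 0 → ∑ i, (μ i : ℚ) * α i = 0)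
    {c₀ C : ℝ} (hc₀ : 0 < c₀) (R : ℕ → ℝ) (hR : Tendsto R atTop atTop) (F : ℕ → ℂ → Fin n → ℂ)
    (hd : ∀ᶠ t in atTop, ∀ i, DifferentiableOn ℂ (fun w => F t w i) {w | |w.im| < c₀ ∧ |w.re| < R t})
    (h0 : ∀ᶠ t in atTop, F t 0 = 0)
    (hL : ∀ᶠ t in atTop, ∀ w ∈ {w : ℂ | |w.im| < c₀ ∧ |w.re| < R t},
      ∀ w' ∈ {w : ℂ | |w.im| < c₀ ∧ |w.re| < R t}, ‖F t w - F t w'‖ ≤ C * ‖w - w'‖)
    (hμ : ∀ᶠ t in atTop, ∀ w ∈ {w : ℂ | |w.im| < c₀ ∧ |w.re| < R t},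
      ∑ i, (μ i : ℂ) * F t w i = w)
    (hrel : ∀ i, ∃ (S : Finset (ℕ × ℕ)) (γ : ℕ → ℂ → ℕ × ℕ → ℂ), S.Nonempty ∧
      (∀ᶠ t in atTop, ∀ p ∈ S, γ t 0 p ≠ 0) ∧
      (∀ B : ℝ, ∀ ε : ℝ, 0 < ε → ∀ᶠ t in atTop, ∀ w : ℂ, |w.im| < c₀ → ‖w‖ ≤ B →
        ∀ p ∈ S, ‖γ t w p - γ t 0 p‖ ≤ ε * ‖γ t 0 p‖) ∧
      ∀ᶠ t in atTop, ∀ w ∈ {w : ℂ | |w.im| < c₀ ∧ |w.re| < R t},
        ∑ p ∈ S, γ t w p * Complex.exp (p.1 * w + p.2 * F t w i) = 0)
    {r₀ : ℝ} (hr₀ : 0 < r₀) (hr₀' : r₀ ≤ c₀) :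
    ∃ r, 0 < r ∧ r < r₀ ∧ ∃ ρ₀ : ℝ, 0 < ρ₀ ∧ ∃ᶠ t in atTop, ∀ w : ℂ, ‖w‖ = r →
      ρ₀ ≤ ‖∑ i, (c i : ℂ) * F t w i‖ := by
  choose S γ hS hγ0 hγv hγr using hrel
  obtain ⟨ψ, γ0, hψ, hψlim, hγ0ne⟩ := ll_subseq S (fun i t p => γ i t 0 p) hS hγ0
  obtain ⟨φ, f, hφ, hfd, hconv⟩ := montel_strip hc₀ R hR F hd h0 hL ψ hψ.tendsto_atTop
  have hθm : Tendsto (fun k => ψ (φ k)) atTop atTop := hψ.tendsto_atTop.comp hφ.tendsto_atTop
  -- pointwise convergence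
  have hpt : ∀ w : ℂ, |w.im| < c₀ → Tendsto (fun k => F (ψ (φ k)) w) atTop (𝓝 (f w)) := by
    intro w hw
    rw [Metric.tendsto_atTop']
    intro ε hε
    have h1 := hconv {w} (by simpa using hw) isCompact_singleton (ε / 2) (by positivity)
    obtain ⟨N, hN⟩ := eventually_atTop.1 h1
    refine ⟨N, fun k hk => ?_⟩
    rw [dist_eq_norm]
    have := hN k hk.le w rfl
    linarith
  have hpti : ∀ w : ℂ, |w.im| < c₀ → ∀ i, Tendsto (fun k => F (ψ (φ k)) w i) atTop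
      (𝓝 (f w i)) := fun w hw i => tendsto_pi_nhds.1 (hpt w hw) i
  have hdom : ∀ w : ℂ, |w.im| < c₀ → ∀ᶠ k in atTop,
      w ∈ {w : ℂ | |w.im| < c₀ ∧ |w.re| < R (ψ (φ k))} := by
    intro w hw
    filter_upwards [hθm.eventually (hR.eventually_gt_atTop |w.re|)] with k hk
    exact ⟨hw, hk⟩
  have h0im : |(0 : ℂ).im| < c₀ := by simpa using hc₀
  have hf0 : f 0 = 0 := by
    refine tendsto_nhds_unique (hpt 0 h0im) ?_
    exact tendsto_const_nhds.congr' ((hθm.eventually h0).mono fun k hk => hk.symm)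
  have hfC : ∀ w : ℂ, |w.im| < c₀ → ‖f w‖ ≤ C * ‖w‖ := by
    intro w hw
    refine le_of_tendsto (hpt w hw).norm ?_
    filter_upwards [hdom w hw, hdom 0 h0im, hθm.eventually hL, hθm.eventually h0]
      with k h1 h2 h3 h4
    have h5 := h3 w h1 0 h2
    rwa [h4, sub_zero, sub_zero] at h5
  have hfμ : ∀ w : ℂ, |w.im| < c₀ → ∑ i, (μ i : ℂ) * f w i = w := by
    intro w hw
    have h1 : Tendsto (fun k => ∑ i, (μ i : ℂ) * F (ψ (φ k)) w i) atTop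
        (𝓝 (∑ i, (μ i : ℂ) * f w i)) :=
      tendsto_finsetSum _ fun i _ => (hpti w hw i).const_mul _
    refine tendsto_nhds_unique h1 (tendsto_const_nhds.congr' ?_)
    filter_upwards [hdom w hw, hθm.eventually hμ] with k h2 h3
    exact (h3 w h2).symm
  -- the coefficients
  have hcoef : ∀ i, ∀ p ∈ S i, ∀ w : ℂ, |w.im| < c₀ → Tendsto (fun k => γ i (ψ (φ k)) w p /
      (∑ q ∈ S i, ‖γ i (ψ (φ k)) 0 q‖ : ℝ)) atTop (𝓝 (γ0 i p)) := by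
    intro i p hp w hw
    have h1 : Tendsto (fun k => γ i (ψ (φ k)) 0 p /
      (∑ q ∈ S i, ‖γ i (ψ (φ k)) 0 q‖ : ℝ)) atTop (𝓝 (γ0 i p)) :=
      (hψlim i p hp).comp hφ.tendsto_atTop
    have h2 : Tendsto (fun k => (γ i (ψ (φ k)) w p - γ i (ψ (φ k)) 0 p) /
      (∑ q ∈ S i, ‖γ i (ψ (φ k)) 0 q‖ : ℝ)) atTop (𝓝 0) := by
      rw [Metric.tendsto_atTop']
      intro ε hε
      have h3 := hθm.eventually (hγv i ‖w‖ (ε / 2) (by positivity))
      obtain ⟨N, hN⟩ := eventually_atTop.1 h3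
      refine ⟨N, fun k hk => ?_⟩
      have h4 := hN k hk.le w hw le_rfl p hp
      have h5 : ‖γ i (ψ (φ k)) 0 p‖ ≤ ∑ q ∈ S i, ‖γ i (ψ (φ k)) 0 q‖ :=
        Finset.single_le_sum (f := fun q => ‖γ i (ψ (φ k)) 0 q‖) (fun q _ => norm_nonneg _) hp
      have h6 : 0 ≤ ∑ q ∈ S i, ‖γ i (ψ (φ k)) 0 q‖ := Finset.sum_nonneg fun q _ => norm_nonneg _
      rw [dist_zero_right, norm_div, Complex.norm_real, Real.norm_of_nonneg h6]
      calc ‖γ i (ψ (φ k)) w p - γ i (ψ (φ k)) 0 p‖ / ∑ q ∈ S i, ‖γ i (ψ (φ k)) 0 q‖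
          ≤ ε / 2 * ‖γ i (ψ (φ k)) 0 p‖ / ∑ q ∈ S i, ‖γ i (ψ (φ k)) 0 q‖ := by gcongr
        _ = ε / 2 * (‖γ i (ψ (φ k)) 0 p‖ / ∑ q ∈ S i, ‖γ i (ψ (φ k)) 0 q‖) := by ring
        _ ≤ ε / 2 * 1 := by
            gcongr
            exact div_le_one_of_le₀ h5 h6
        _ < ε := by linarith
    have h3 := h1.add h2
    rw [add_zero] at h3
    refine h3.congr fun k => ?_
    ring
  have hfrel : ∀ i, ∃ (S : Finset (ℕ × ℕ)) (γ : ℕ × ℕ → ℂ), (∃ p ∈ S, γ p ≠ 0) ∧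
      ∀ w : ℂ, |w.im| < c₀ → ∑ p ∈ S, γ p * Complex.exp (p.1 * w + p.2 * f w i) = 0 := by
    intro i
    refine ⟨S i, γ0 i, hγ0ne i, ?_⟩
    intro w hw
    have h1 : Tendsto (fun k => ∑ p ∈ S i, γ i (ψ (φ k)) w p /
        (∑ q ∈ S i, ‖γ i (ψ (φ k)) 0 q‖ : ℝ) *
        Complex.exp (p.1 * w + p.2 * F (ψ (φ k)) w i)) atTop
        (𝓝 (∑ p ∈ S i, γ0 i p * Complex.exp (p.1 * w + p.2 * f w i))) := by
      refine tendsto_finsetSum _ fun p hp => (hcoef i p hp w hw).mul ?_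
      refine (Complex.continuous_exp.tendsto _).comp ?_
      exact tendsto_const_nhds.add ((hpti w hw i).const_mul _)
    refine tendsto_nhds_unique h1 (tendsto_const_nhds.congr' ?_)
    filter_upwards [hdom w hw, hθm.eventually (hγr i)] with k h2 h3
    have h4 := h3 w h2
    have h5 : ∑ p ∈ S i, γ i (ψ (φ k)) w p /
        (∑ q ∈ S i, ‖γ i (ψ (φ k)) 0 q‖ : ℝ) *
        Complex.exp (p.1 * w + p.2 * F (ψ (φ k)) w i) =
        (∑ p ∈ S i, γ i (ψ (φ k)) w p * Complex.exp (p.1 * w + p.2 * F (ψ (φ k)) w i)) /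
        (∑ q ∈ S i, ‖γ i (ψ (φ k)) 0 q‖ : ℝ) := by
      rw [Finset.sum_div]
      refine Finset.sum_congr rfl fun p _ => ?_
      ring
    rw [h5, h4, zero_div]
  obtain ⟨r, hr, hrr, hne⟩ := limit_nonconst hc₀ f hfd hf0 hfC c μ hstar hfμ hfrel hr₀ hr₀'
  refine ⟨r, hr, hrr, ?_⟩
  -- compactness of the circle
  have hsph : sphere (0 : ℂ) r ⊆ {w : ℂ | |w.im| < c₀} := by
    intro w hw
    have h1 : ‖w‖ = r := by simpa using hw
    have h2 := Complex.abs_im_le_norm w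
    show |w.im| < c₀
    linarith
  have hGc : ContinuousOn (fun w => ‖∑ i, (c i : ℂ) * f w i‖) (sphere (0 : ℂ) r) := by
    refine (continuousOn_finsetSum _ fun i _ => ?_).norm
    exact ((hfd i).continuousOn.mono hsph).const_smul (c i : ℂ)
  obtain ⟨w₁, hw₁, hmin⟩ := (isCompact_sphere (0 : ℂ) r).exists_isMinOn
    ((NormedSpace.sphere_nonempty).2 hr.le) hGc
  have hw₁' : ‖w₁‖ = r := by simpa using hw₁
  have hpos : 0 < ‖∑ i, (c i : ℂ) * f w₁ i‖ := norm_pos_iff.2 (hne w₁ hw₁')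
  set ρ₁ : ℝ := ‖∑ i, (c i : ℂ) * f w₁ i‖ with hρ₁
  have hsum0 : 0 ≤ ∑ i, |c i| := Finset.sum_nonneg fun i _ => abs_nonneg _
  refine ⟨ρ₁ / 2, by positivity, ?_⟩
  refine hθm.frequently (Eventually.frequently ?_)
  have h1 := hconv (sphere (0 : ℂ) r) hsph (isCompact_sphere _ _)
    (ρ₁ / 2 / (∑ i, |c i| + 1)) (by positivity)
  filter_upwards [h1] with k hk w hw
  have hws : w ∈ sphere (0 : ℂ) r := by simpa using hw
  have h2 := hk w hws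
  have h3 : ρ₁ ≤ ‖∑ i, (c i : ℂ) * f w i‖ := hmin hws
  have h4 : ‖∑ i, (c i : ℂ) * f w i‖ ≤ ‖∑ i, (c i : ℂ) * F (ψ (φ k)) w i‖ +
      ‖∑ i, (c i : ℂ) * (F (ψ (φ k)) w i - f w i)‖ := by
    have : ∑ i, (c i : ℂ) * f w i = ∑ i, (c i : ℂ) * F (ψ (φ k)) w i -
        ∑ i, (c i : ℂ) * (F (ψ (φ k)) w i - f w i) := by
      rw [← Finset.sum_sub_distrib]
      refine Finset.sum_congr rfl fun i _ => ?_
      ring
    rw [this]
    exact norm_sub_le _ _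
  have h5 : ‖∑ i, (c i : ℂ) * (F (ψ (φ k)) w i - f w i)‖ ≤
      ∑ i, |c i| * (ρ₁ / 2 / (∑ i, |c i| + 1)) := by
    refine norm_sum_le_of_le _ fun i _ => ?_
    rw [norm_mul, Complex.norm_real, Real.norm_eq_abs]
    gcongr
    exact (norm_le_pi_norm (F (ψ (φ k)) w - f w) i).trans h2
  rw [← Finset.sum_mul] at h5
  have h6 : (∑ i, |c i|) * (ρ₁ / 2 / (∑ i, |c i| + 1)) ≤ ρ₁ / 2 := by
    rw [← mul_div_assoc, div_le_iff₀ (by positivity)]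
    nlinarith
  linarith

end Pool.Agent.Lib.MP_209724_lc.HS
end

section

namespace Pool.Agent.Lib.MP_209724_lc.HS

open MvPolynomial Filter Topology Metric
open MV (lead evT glue)
open GC (evM)

private lemma coreI_isOpen_TT (c₀ φ R : ℝ) : IsOpen {ζ : ℂ | |ζ.im - φ| < c₀ ∧ |ζ.re| < R} := by
  have h1 : Continuous fun ζ : ℂ => |ζ.im - φ| := by fun_prop
  have h2 : Continuous fun ζ : ℂ => |ζ.re| := by fun_prop
  exact (isOpen_lt h1 continuous_const).inter (isOpen_lt h2 continuous_const)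

private lemma coreI_isOpen_SS (c₀ R : ℝ) : IsOpen {ζ : ℂ | |ζ.im| < c₀ ∧ |ζ.re| < R} := by
  have h1 : Continuous fun ζ : ℂ => |ζ.im| := by fun_prop
  have h2 : Continuous fun ζ : ℂ => |ζ.re| := by fun_prop
  exact (isOpen_lt h1 continuous_const).inter (isOpen_lt h2 continuous_const)

private lemma coreI_convex_SS (c₀ R : ℝ) : Convex ℝ {w : ℂ | |w.im| < c₀ ∧ |w.re| < R} := by
  have : {w : ℂ | |w.im| < c₀ ∧ |w.re| < R} =
      ({w : ℂ | w.im < c₀} ∩ {w : ℂ | -c₀ < w.im}) ∩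
        ({w : ℂ | w.re < R} ∩ {w | -R < w.re}) := by
    ext w
    simp only [abs_lt, Set.mem_inter_iff]
    constructor
    · rintro ⟨⟨h1, h2⟩, h3, h4⟩
      exact ⟨⟨h2, h1⟩, h4, h3⟩
    · rintro ⟨⟨h2, h1⟩, h4, h3⟩
      exact ⟨⟨h1, h2⟩, h3, h4⟩
  rw [this]
  exact ((convex_halfSpace_im_lt _).inter (convex_halfSpace_im_gt _)).inter
    ((convex_halfSpace_re_lt _).inter (convex_halfSpace_re_gt _))

private lemma coreI_const_of_exp {S : Set ℂ} (hS : IsOpen S) (hc : Convex ℝ S) {h : ℂ → ℂ}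
    (hd : DifferentiableOn ℂ h S) (he : ∀ w ∈ S, Complex.exp (h w) = 1) {a b : ℂ}
    (ha : a ∈ S) (hb : b ∈ S) : h a = h b := by
  have hz : ∀ w ∈ S, deriv h w = 0 := by
    intro w hw
    have h1 : HasDerivAt h (deriv h w) w := (hd.differentiableAt (hS.mem_nhds hw)).hasDerivAt
    have h2 : HasDerivAt (fun w => Complex.exp (h w)) (Complex.exp (h w) * deriv h w) w := h1.cexp
    have h3 : HasDerivAt (fun w => Complex.exp (h w)) 0 w := by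
      refine (hasDerivAt_const w (1:ℂ)).congr_of_eventuallyEq ?_
      filter_upwards [hS.mem_nhds hw] with z hz using he z hz
    have h4 := h2.unique h3
    simpa [he w hw] using h4
  exact hS.is_const_of_deriv_eq_zero hc.isPreconnected hd hz ha hb

private lemma coreI_diff {n : ℕ} {l : Fin n} (c : Fin n → ℝ) (hcl : c l = -1)
    {x x' v : {j : Fin n // j ≠ l} → ℂ} {y y' : Fin n → ℂ} {Ξx Ξx' : ℂ} {E : ℝ}
    (hΞ : ‖Ξx - Ξx' - ∑ j : {j : Fin n // j ≠ l}, (c j : ℂ) * (x j - x' j)‖ ≤ E)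
    (hv : ∀ j : {j : Fin n // j ≠ l}, x j - x' j = v j + (y j - y' j)) :
    ‖(Ξx - y l) - (Ξx' - y' l) - ∑ j : {j : Fin n // j ≠ l}, (c j : ℂ) * v j
      - ∑ i, (c i : ℂ) * (y i - y' i)‖ ≤ E := by
  convert hΞ using 2
  rw [Fintype.sum_eq_add_sum_subtype_ne (fun i => (c i : ℂ) * (y i - y' i)) l]
  simp only [hv, mul_add, Finset.sum_add_distrib, hcl]
  push_cast
  ring

private lemma coreI_X {n : ℕ} {l : Fin n} {c₀ C R ρ δ φ : ℝ} (hδ0 : 0 ≤ δ) (hδ4 : δ ≤ 1 / 4)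
    (hC : 0 ≤ C) (hR : 0 < R) (hc₀ : 0 < c₀)
    (m₀ : {j : Fin n // j ≠ l} → ℤ)
    (Λ : ({j : Fin n // j ≠ l} → ℂ) × ℂ → Fin n → ℂ)
    (hΛd : ∀ i, DifferentiableOn ℂ (fun p => Λ p i) (Dom m₀ ρ c₀ φ (4 * R)))
    (hΛζ : ∀ p ∈ Dom m₀ ρ c₀ φ (4 * R), ∀ p' ∈ Dom m₀ ρ c₀ φ (4 * R), p.1 = p'.1 →
      ‖Λ p - Λ p'‖ ≤ C * ‖p.2 - p'.2‖)
    (hΛx : ∀ p ∈ Dom m₀ ρ c₀ φ (4 * R), ∀ p' ∈ Dom m₀ ρ c₀ φ (4 * R), p.2 = p'.2 →
      ‖Λ p - Λ p'‖ ≤ δ * ‖p.1 - p'.1‖)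
    (hΛ0 : ‖Λ (ipt fun j => (m₀ j : ℝ), φ * Complex.I)‖ ≤ C * R)
    {Kb : ℝ} (hKb : 0 ≤ Kb)
    (hρ : 4 * (C * R + C * (4 * R + c₀) + 2 * Real.pi * Kb) < ρ)
    (k : {j : Fin n // j ≠ l} → ℤ) (hk : ∀ j, |(k j : ℝ)| ≤ Kb) :
    ∃ X : ℂ → {j : Fin n // j ≠ l} → ℂ,
      (∀ j, DifferentiableOn ℂ (fun ζ => X ζ j)
        {ζ : ℂ | |ζ.im - φ| < c₀ ∧ |ζ.re| < 4 * R}) ∧
      ∀ ζ ∈ {ζ : ℂ | |ζ.im - φ| < c₀ ∧ |ζ.re| < 4 * R},
        ‖X ζ - ipt fun j => (m₀ j : ℝ)‖ ≤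
          2 * (C * R + C * (4 * R + c₀) + 2 * Real.pi * Kb) ∧
        ∀ j, X ζ j = 2 * Real.pi * Complex.I * (m₀ j : ℂ) +
          2 * Real.pi * Complex.I * (k j : ℂ) + Λ (X ζ, ζ) j := by
  have hpi := Real.pi_pos
  have hρ0 : 0 < ρ := by
    refine lt_of_le_of_lt ?_ hρ
    positivity
  have hK0 : 0 ≤ C * R + C * (4 * R + c₀) := by positivity
  have hkn : ‖(fun j : {j : Fin n // j ≠ l} => 2 * Real.pi * Complex.I * (k j : ℂ))‖ ≤
      2 * Real.pi * Kb := by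
    rw [pi_norm_le_iff_of_nonneg (by positivity)]
    intro j
    have h1 : ‖(2 * Real.pi * Complex.I * (k j : ℂ) : ℂ)‖ = 2 * Real.pi * |(k j : ℝ)| := by
      rw [norm_mul, norm_mul, norm_mul, Complex.norm_I, Complex.norm_real, Complex.norm_intCast]
      simp [abs_of_pos hpi]
    rw [h1]
    exact mul_le_mul_of_nonneg_left (hk j) (by positivity)
  obtain ⟨X, hXd, hX⟩ := fixed_family (ι := {j : Fin n // j ≠ l})
    (T := {ζ : ℂ | |ζ.im - φ| < c₀ ∧ |ζ.re| < 4 * R}) (coreI_isOpen_TT c₀ φ (4 * R))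
    (x₀ := ipt fun j => (m₀ j : ℝ)) (ρ := ρ) (δ := δ) (K := C * R + C * (4 * R + c₀))
    hδ0 hδ4 hK0 (fun p j => Λ p j) (fun j => hΛd j)
    (by
      intro x hx x' hx' ζ hζ
      refine le_trans ?_ (hΛx (x, ζ) ⟨hx, hζ⟩ (x', ζ) ⟨hx', hζ⟩ rfl)
      rw [pi_norm_le_iff_of_nonneg (norm_nonneg _)]
      intro j
      exact norm_le_pi_norm (Λ (x, ζ) - Λ (x', ζ)) j)
    (by
      intro ζ hζ
      have h1 : ‖Λ (ipt fun j => (m₀ j : ℝ), ζ)‖ ≤ C * R + C * (4 * R + c₀) := by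
        have h2 := hΛζ (ipt fun j => (m₀ j : ℝ), ζ) ⟨mem_ball_self hρ0, hζ⟩
          (ipt fun j => (m₀ j : ℝ), φ * Complex.I)
          ⟨mem_ball_self hρ0, by simp [hc₀, hR]⟩ rfl
        have h3 : ‖ζ - φ * Complex.I‖ ≤ 4 * R + c₀ := by
          refine (Complex.norm_le_abs_re_add_abs_im _).trans ?_
          have h4 := hζ.1
          have h5 := hζ.2
          simp only [Complex.sub_re, Complex.mul_re, Complex.ofReal_re, Complex.I_re, mul_zero,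
            Complex.ofReal_im, Complex.I_im, mul_one, sub_self, sub_zero, Complex.sub_im,
            Complex.mul_im, add_zero]
          linarith
        calc ‖Λ (ipt fun j => (m₀ j : ℝ), ζ)‖
            = ‖Λ (ipt fun j => (m₀ j : ℝ), φ * Complex.I) +
              (Λ (ipt fun j => (m₀ j : ℝ), ζ) - Λ (ipt fun j => (m₀ j : ℝ), φ * Complex.I))‖ := by
              congr 1; abel
          _ ≤ _ := norm_add_le _ _
          _ ≤ _ := add_le_add hΛ0 (h2.trans (mul_le_mul_of_nonneg_left h3 hC))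
      refine le_trans ?_ h1
      rw [pi_norm_le_iff_of_nonneg (norm_nonneg _)]
      intro j
      exact norm_le_pi_norm (Λ (ipt fun j => (m₀ j : ℝ), ζ)) j)
    (fun j => 2 * Real.pi * Complex.I * (k j : ℂ))
    (by linarith)
  refine ⟨X, hXd, fun ζ hζ => ⟨?_, fun j => ?_⟩⟩
  · refine (hX ζ hζ).1.trans ?_
    linarith
  · have := congrFun (hX ζ hζ).2 j
    simp only [Pi.add_apply, ipt] at this
    rw [this]
    push_cast
    ring

private lemma coreI_abs {n : ℕ} {l : Fin n} {x x' v : {j : Fin n // j ≠ l} → ℂ}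
    {y y' : Fin n → ℂ} {V : ℝ} (hV : 0 ≤ V)
    (hv : ∀ j : {j : Fin n // j ≠ l}, x j - x' j = v j + (y j - y' j))
    (hvV : ∀ j, ‖v j‖ ≤ V) : ‖x - x'‖ ≤ V + ‖y - y'‖ := by
  rw [pi_norm_le_iff_of_nonneg (by positivity)]
  intro j
  rw [Pi.sub_apply, hv j]
  exact (norm_add_le _ _).trans (add_le_add (hvV j) (norm_le_pi_norm (y - y') j))

private lemma coreI_rev {a b : ℂ} {ρ e : ℝ} (h1 : ‖b - a‖ ≤ e) (h2 : ρ ≤ ‖a‖) :
    ρ - e ≤ ‖b‖ := by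
  have h3 : ‖a‖ ≤ ‖b‖ + ‖b - a‖ := by
    have := norm_sub_le b (b - a)
    rwa [sub_sub_cancel] at this
  linarith

private lemma coreI_norm_int {z : ℤ} {Kb : ℝ} (h : |(z : ℝ)| ≤ Kb) :
    ‖(2 * Real.pi * Complex.I * (z : ℂ) : ℂ)‖ ≤ 2 * Real.pi * Kb := by
  have hpi := Real.pi_pos
  have h1 : ‖(2 * Real.pi * Complex.I * (z : ℂ) : ℂ)‖ = 2 * Real.pi * |(z : ℝ)| := by
    rw [norm_mul, norm_mul, norm_mul, Complex.norm_I, Complex.norm_real, Complex.norm_intCast]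
    simp [abs_of_pos hpi]
  rw [h1]
  exact mul_le_mul_of_nonneg_left h (by positivity)

/-- comparison at the same `ζ`. -/
private lemma coreI_comp {n : ℕ} {l : Fin n} {δ Kb : ℝ} (hδ0 : 0 ≤ δ) (hδ4 : δ ≤ 1 / 4)
    (hKb : 0 ≤ Kb) {x x' : {j : Fin n // j ≠ l} → ℂ} {y y' : Fin n → ℂ}
    (k : {j : Fin n // j ≠ l} → ℤ) (hk : ∀ j, |(k j : ℝ)| ≤ Kb)
    (hv : ∀ j : {j : Fin n // j ≠ l}, x j - x' j =
      2 * Real.pi * Complex.I * (k j : ℂ) + (y j - y' j))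
    (hy : ‖y - y'‖ ≤ δ * ‖x - x'‖) :
    ‖x - x'‖ ≤ 4 * Real.pi * Kb ∧ ‖y - y'‖ ≤ δ * (4 * Real.pi * Kb) := by
  have hpi := Real.pi_pos
  have h1 := coreI_abs (v := fun j => 2 * Real.pi * Complex.I * (k j : ℂ))
    (V := 2 * Real.pi * Kb) (by positivity) hv (fun j => coreI_norm_int (hk j))
  have h2 : δ * ‖x - x'‖ ≤ 1 / 4 * ‖x - x'‖ :=
    mul_le_mul_of_nonneg_right hδ4 (norm_nonneg _)
  have h3 : 0 ≤ Real.pi * Kb := by positivity
  have h4 : ‖x - x'‖ ≤ 4 * Real.pi * Kb := by nlinarith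
  exact ⟨h4, hy.trans (mul_le_mul_of_nonneg_left h4 hδ0)⟩

/-- comparison for two values of `ζ`. -/
private lemma coreI_lip {n : ℕ} {l : Fin n} {δ D : ℝ} (hδ4 : δ ≤ 1 / 4)
    (hD : 0 ≤ D) {x x' : {j : Fin n // j ≠ l} → ℂ} {y y' : Fin n → ℂ}
    (hv : ∀ j : {j : Fin n // j ≠ l}, x j - x' j = y j - y' j)
    (hy : ‖y - y'‖ ≤ δ * ‖x - x'‖ + D) :
    ‖x - x'‖ ≤ 2 * D ∧ ‖y - y'‖ ≤ 2 * D := by
  have h1 := coreI_abs (l := l) (x := x) (x' := x') (v := fun _ => 0) (y := y) (y' := y')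
    (V := 0) le_rfl (fun j => by rw [hv j]; ring) (fun j => by simp)
  have h2 : δ * ‖x - x'‖ ≤ 1 / 4 * ‖x - x'‖ :=
    mul_le_mul_of_nonneg_right hδ4 (norm_nonneg _)
  have h3 : ‖x - x'‖ ≤ 2 * D := by linarith
  exact ⟨h3, by linarith⟩

private lemma coreI_diffY {n : ℕ} {l : Fin n} {c₀ R ρ φ : ℝ}
    {m₀ : {j : Fin n // j ≠ l} → ℤ} {f : ({j : Fin n // j ≠ l} → ℂ) × ℂ → ℂ}
    (hf : DifferentiableOn ℂ f (Dom m₀ ρ c₀ φ R))
    {X : ℂ → {j : Fin n // j ≠ l} → ℂ}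
    (hX : ∀ j, DifferentiableOn ℂ (fun ζ => X ζ j) {ζ : ℂ | |ζ.im - φ| < c₀ ∧ |ζ.re| < R})
    (hXb : ∀ ζ ∈ {ζ : ℂ | |ζ.im - φ| < c₀ ∧ |ζ.re| < R},
      X ζ ∈ ball (ipt fun j => (m₀ j : ℝ)) ρ) :
    DifferentiableOn ℂ (fun ζ => f (X ζ, ζ)) {ζ : ℂ | |ζ.im - φ| < c₀ ∧ |ζ.re| < R} := by
  have h1 : DifferentiableOn ℂ (fun ζ => (X ζ, ζ)) {ζ : ℂ | |ζ.im - φ| < c₀ ∧ |ζ.re| < R} :=
    (differentiableOn_pi.2 hX).prodMk differentiableOn_id
  exact hf.comp h1 (fun ζ hζ => ⟨hXb ζ hζ, hζ⟩)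

private lemma coreI_diffΞ {n : ℕ} {l : Fin n} {c₀ R ρ φ : ℝ}
    {m₀ : {j : Fin n // j ≠ l} → ℤ} {f : ({j : Fin n // j ≠ l} → ℂ) → ℂ}
    (hf : DifferentiableOn ℂ f (ball (ipt fun j => (m₀ j : ℝ)) ρ))
    {X : ℂ → {j : Fin n // j ≠ l} → ℂ}
    (hX : ∀ j, DifferentiableOn ℂ (fun ζ => X ζ j) {ζ : ℂ | |ζ.im - φ| < c₀ ∧ |ζ.re| < R})
    (hXb : ∀ ζ ∈ {ζ : ℂ | |ζ.im - φ| < c₀ ∧ |ζ.re| < R},
      X ζ ∈ ball (ipt fun j => (m₀ j : ℝ)) ρ) :
    DifferentiableOn ℂ (fun ζ => f (X ζ)) {ζ : ℂ | |ζ.im - φ| < c₀ ∧ |ζ.re| < R} :=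
  hf.comp (differentiableOn_pi.2 hX) (fun ζ hζ => hXb ζ hζ)

/-- the point on the middle line where the real part of `G` vanishes. -/
private lemma coreI_zero {n : ℕ} {l : Fin n} {c : Fin n → ℝ} (hcl : c l = -1)
    {c₀ R ρ δ φ κ Kt : ℝ} (hδ0 : 0 ≤ δ) (hR : 0 < R) (hc₀ : 0 < c₀) (hρ0 : 0 < ρ)
    {m₀ : {j : Fin n // j ≠ l} → ℤ} {Λ : ({j : Fin n // j ≠ l} → ℂ) × ℂ → Fin n → ℂ}
    {Ξ : ({j : Fin n // j ≠ l} → ℂ) → ℂ}
    (hΛd : ∀ i, DifferentiableOn ℂ (fun p => Λ p i) (Dom m₀ ρ c₀ φ (4 * R)))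
    (hΞd : DifferentiableOn ℂ Ξ (ball (ipt fun j => (m₀ j : ℝ)) ρ))
    {X : ℂ → {j : Fin n // j ≠ l} → ℂ}
    (hX : ∀ j, DifferentiableOn ℂ (fun ζ => X ζ j)
      {ζ : ℂ | |ζ.im - φ| < c₀ ∧ |ζ.re| < 4 * R})
    (hXb : ∀ ζ ∈ {ζ : ℂ | |ζ.im - φ| < c₀ ∧ |ζ.re| < 4 * R},
      X ζ ∈ ball (ipt fun j => (m₀ j : ℝ)) ρ)
    (hXn : ∀ ζ ∈ {ζ : ℂ | |ζ.im - φ| < c₀ ∧ |ζ.re| < 4 * R},
      ‖X ζ - ipt fun j => (m₀ j : ℝ)‖ ≤ 2 * Kt)
    (hXe : ∀ ζ ∈ {ζ : ℂ | |ζ.im - φ| < c₀ ∧ |ζ.re| < 4 * R}, ∀ j,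
      X ζ j = 2 * Real.pi * Complex.I * (m₀ j : ℂ) + Λ (X ζ, ζ) j)
    (hΞ : ∀ x ∈ ball (ipt fun j => (m₀ j : ℝ)) ρ,
      ∀ x' ∈ ball (ipt fun j => (m₀ j : ℝ)) ρ,
        ‖Ξ x - Ξ x' - ∑ j : {j : Fin n // j ≠ l}, (c j : ℂ) * (x j - x' j)‖ ≤ δ * ‖x - x'‖)
    (hΞ0 : |(Ξ (ipt fun j => (m₀ j : ℝ))).re| ≤ δ * R)
    (hend : ∀ x ∈ ball (ipt fun j => (m₀ j : ℝ)) ρ,
      κ * R ≤ ∑ i, c i * (Λ (x, (R : ℂ) + φ * Complex.I) i).re ∧
      ∑ i, c i * (Λ (x, -(R : ℂ) + φ * Complex.I) i).re ≤ -(κ * R))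
    (hbig : δ * R + δ * (2 * Kt) < κ * R) :
    ∃ ζ : ℂ, ζ.im = φ ∧ |ζ.re| ≤ R ∧ (Ξ (X ζ) - Λ (X ζ, ζ) l).re = 0 := by
  -- the function
  have hT : ∀ s ∈ Set.Icc (-R) R, ((s : ℂ) + φ * Complex.I) ∈
      {ζ : ℂ | |ζ.im - φ| < c₀ ∧ |ζ.re| < 4 * R} := by
    intro s hs
    have h1 : |s| ≤ R := abs_le.2 ⟨hs.1, hs.2⟩
    constructor
    · simpa using hc₀
    · have : ((s : ℂ) + φ * Complex.I).re = s := by simp
      rw [this]
      linarith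
  have hGd : DifferentiableOn ℂ (fun ζ => Ξ (X ζ) - Λ (X ζ, ζ) l)
      {ζ : ℂ | |ζ.im - φ| < c₀ ∧ |ζ.re| < 4 * R} :=
    (coreI_diffΞ hΞd hX hXb).sub (coreI_diffY (hΛd l) hX hXb)
  have hc : ContinuousOn (fun s : ℝ => (Ξ (X ((s : ℂ) + φ * Complex.I)) -
      Λ (X ((s : ℂ) + φ * Complex.I), (s : ℂ) + φ * Complex.I) l).re) (Set.Icc (-R) R) := by
    have h1 : ContinuousOn (fun s : ℝ => (s : ℂ) + φ * Complex.I) (Set.Icc (-R) R) := by
      fun_prop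
    exact Complex.continuous_re.comp_continuousOn (hGd.continuousOn.comp h1 hT)
  have hest : ∀ s ∈ Set.Icc (-R) R,
      |(Ξ (X ((s : ℂ) + φ * Complex.I)) -
        Λ (X ((s : ℂ) + φ * Complex.I), (s : ℂ) + φ * Complex.I) l).re -
        (Ξ (ipt fun j => (m₀ j : ℝ))).re -
        ∑ i, c i * (Λ (X ((s : ℂ) + φ * Complex.I), (s : ℂ) + φ * Complex.I) i).re| ≤
      δ * (2 * Kt) := by
    intro s hs
    have h1 := coreI_diff c hcl (x := X ((s : ℂ) + φ * Complex.I))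
      (x' := ipt fun j => (m₀ j : ℝ)) (v := fun _ => 0)
      (y := Λ (X ((s : ℂ) + φ * Complex.I), (s : ℂ) + φ * Complex.I)) (y' := fun _ => 0)
      (hΞ _ (hXb _ (hT s hs)) _ (mem_ball_self hρ0))
      (fun j => by
        rw [hXe _ (hT s hs) j]
        simp [ipt])
    have h2 := (Complex.abs_re_le_norm _).trans h1
    have h3 := h2.trans (mul_le_mul_of_nonneg_left (hXn _ (hT s hs)) hδ0)
    refine le_trans (le_of_eq ?_) h3
    congr 1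
    simp [Complex.re_sum, Complex.mul_re]
  have hm : (-R : ℝ) ≤ R := by linarith
  have hlow := hest (-R) ⟨le_rfl, hm⟩
  have hupp := hest R ⟨hm, le_rfl⟩
  have hE1 := (hend _ (hXb _ (hT R ⟨hm, le_rfl⟩))).1
  have hE2 := (hend _ (hXb _ (hT (-R) ⟨le_rfl, hm⟩))).2
  push_cast at hlow hE2
  rw [abs_le] at hlow hupp hΞ0
  have h0 : (0 : ℝ) ∈ Set.Icc
      ((fun s : ℝ => (Ξ (X ((s : ℂ) + φ * Complex.I)) -
        Λ (X ((s : ℂ) + φ * Complex.I), (s : ℂ) + φ * Complex.I) l).re) (-R))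
      ((fun s : ℝ => (Ξ (X ((s : ℂ) + φ * Complex.I)) -
        Λ (X ((s : ℂ) + φ * Complex.I), (s : ℂ) + φ * Complex.I) l).re) R) := by
    constructor
    · show (Ξ (X (((-R : ℝ) : ℂ) + φ * Complex.I)) -
        Λ (X (((-R : ℝ) : ℂ) + φ * Complex.I), ((-R : ℝ) : ℂ) + φ * Complex.I) l).re ≤ 0
      push_cast
      linarith [hlow.2, hΞ0.2]
    · show 0 ≤ (Ξ (X ((R : ℂ) + φ * Complex.I)) -
        Λ (X ((R : ℂ) + φ * Complex.I), (R : ℂ) + φ * Complex.I) l).re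
      linarith [hupp.1, hΞ0.1]
  obtain ⟨s, hs, hs0⟩ := intermediate_value_Icc hm hc h0
  refine ⟨(s : ℂ) + φ * Complex.I, by simp, ?_, hs0⟩
  have : ((s : ℂ) + φ * Complex.I).re = s := by simp
  rw [this]
  exact abs_le.2 ⟨hs.1, hs.2⟩

private lemma coreI_open {S : Set ℂ} (hS : IsOpen S) (hSc : IsPreconnected S) {r : ℝ}
    (hr : 0 < r) (hSr : closedBall (0 : ℂ) r ⊆ S) {g0 gk : ℂ → ℂ} (hd : DifferentiableOn ℂ gk S)
    {P a : ℂ} {E E' ρ₀ : ℝ} (hρ₀ : 0 < ρ₀) (h1 : ∀ w ∈ S, ‖gk w - g0 w - P‖ ≤ E)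
    (h2 : ∀ w : ℂ, ‖w‖ = r → ρ₀ - E' ≤ ‖g0 w - g0 0‖) (h3 : ‖g0 0 + P - a‖ < ρ₀ / 8)
    (h4 : 2 * E + E' ≤ ρ₀ / 2) (h5 : E ≤ ρ₀ / 8) : ∃ w ∈ closedBall (0 : ℂ) r, gk w = a := by
  have h0S : (0 : ℂ) ∈ S := hSr (mem_closedBall_self hr.le)
  have hcirc : ∀ z ∈ sphere (0 : ℂ) r, ρ₀ / 2 ≤ ‖gk z - gk 0‖ := by
    intro z hz
    have hz' : ‖z‖ = r := by simpa using hz
    have hzS : z ∈ S := hSr (sphere_subset_closedBall hz)
    have e1 := h1 z hzS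
    have e2 := h1 0 h0S
    have e3 := h2 z hz'
    have e4 : g0 z - g0 0 = (gk z - gk 0) - (gk z - g0 z - P) + (gk 0 - g0 0 - P) := by ring
    have e5 : ‖g0 z - g0 0‖ ≤ ‖gk z - gk 0‖ + E + E := by
      rw [e4]
      refine (norm_add_le _ _).trans (add_le_add ((norm_sub_le _ _).trans ?_) e2)
      linarith
    linarith
  have hfr : ∃ᶠ z in 𝓝 (0 : ℂ), gk z ≠ gk 0 := by
    by_contra hcon
    rw [Filter.not_frequently] at hcon
    have hev : gk =ᶠ[𝓝 (0 : ℂ)] fun _ => gk 0 := by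
      filter_upwards [hcon] with z hz
      exact not_not.1 hz
    have han : AnalyticOnNhd ℂ gk S := hd.analyticOnNhd hS
    have heq := han.eqOn_of_preconnected_of_eventuallyEq
      (analyticOnNhd_const (v := gk 0)) hSc h0S hev
    have hrS : ((r : ℂ)) ∈ sphere (0 : ℂ) r := by
      simp [abs_of_pos hr]
    have h6 := hcirc _ hrS
    rw [heq (hSr (sphere_subset_closedBall hrS)), sub_self, norm_zero] at h6
    linarith
  have hdc : DiffContOnCl ℂ gk (ball 0 r) := by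
    apply DifferentiableOn.diffContOnCl
    exact hd.mono (closure_ball_subset_closedBall.trans hSr)
  have hsub := hdc.ball_subset_image_closedBall hr hcirc hfr
  have ha : a ∈ ball (gk 0) (ρ₀ / 2 / 2) := by
    rw [mem_ball_iff_norm]
    have e2 := h1 0 h0S
    have e4 : a - gk 0 = -((g0 0 + P - a) + (gk 0 - g0 0 - P)) := by ring
    rw [e4, norm_neg]
    refine lt_of_le_of_lt (norm_add_le _ _) ?_
    linarith
  obtain ⟨w, hw, hwa⟩ := hsub ha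
  exact ⟨w, hw, hwa⟩

/-- HS-9: analytic core of the irrational case. -/
theorem coreI {n : ℕ} (l : Fin n) (c : Fin n → ℝ) (hcl : c l = -1) (μ : Fin n → ℤ)
    (hstar : ∀ α : Fin n → ℚ, ∑ i, c i * α i = 0 → ∑ i, (μ i : ℚ) * α i = 0)
    (hirr : ∃ j : {j : Fin n // j ≠ l}, Irrational (c j)) {c₀ C κ : ℝ} (hc₀ : 0 < c₀) (hκ : 0 < κ)
    (R ρ δ φ : ℕ → ℝ) (hR : Tendsto R atTop atTop) (hRρ : Tendsto (fun t => R t / ρ t) atTop (𝓝 0))
    (hρ : Tendsto ρ atTop atTop) (hδ : Tendsto δ atTop (𝓝 0)) (m₀ : ℕ → {j : Fin n // j ≠ l} → ℤ)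
    (Λ : ℕ → ({j : Fin n // j ≠ l} → ℂ) × ℂ → Fin n → ℂ)
    (Ξ : ℕ → ({j : Fin n // j ≠ l} → ℂ) → ℂ)
    (hΛd : ∀ᶠ t in atTop, ∀ i,
      DifferentiableOn ℂ (fun p => Λ t p i) (Dom (m₀ t) (ρ t) c₀ (φ t) (4 * R t)))
    (hΞd : ∀ᶠ t in atTop, DifferentiableOn ℂ (Ξ t) (ball (ipt fun j => (m₀ t j : ℝ)) (ρ t)))
    (hΛζ : ∀ᶠ t in atTop, ∀ p ∈ Dom (m₀ t) (ρ t) c₀ (φ t) (4 * R t),
      ∀ p' ∈ Dom (m₀ t) (ρ t) c₀ (φ t) (4 * R t), p.1 = p'.1 →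
        ‖Λ t p - Λ t p'‖ ≤ C * ‖p.2 - p'.2‖)
    (hΛx : ∀ᶠ t in atTop, ∀ p ∈ Dom (m₀ t) (ρ t) c₀ (φ t) (4 * R t),
      ∀ p' ∈ Dom (m₀ t) (ρ t) c₀ (φ t) (4 * R t), p.2 = p'.2 →
        ‖Λ t p - Λ t p'‖ ≤ δ t * ‖p.1 - p'.1‖)
    (hΛ0 : ∀ᶠ t in atTop, ‖Λ t (ipt fun j => (m₀ t j : ℝ), φ t * Complex.I)‖ ≤ C * R t)
    (hμ : ∀ᶠ t in atTop, ∀ p ∈ Dom (m₀ t) (ρ t) c₀ (φ t) (4 * R t),
      Complex.exp (∑ i, (μ i : ℂ) * Λ t p i) = Complex.exp p.2)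
    (hΞ : ∀ᶠ t in atTop, ∀ x ∈ ball (ipt fun j => (m₀ t j : ℝ)) (ρ t),
      ∀ x' ∈ ball (ipt fun j => (m₀ t j : ℝ)) (ρ t),
        ‖Ξ t x - Ξ t x' - ∑ j : {j : Fin n // j ≠ l}, (c j : ℂ) * (x j - x' j)‖ ≤
          δ t * ‖x - x'‖)
    (hΞ0 : ∀ᶠ t in atTop, |(Ξ t (ipt fun j => (m₀ t j : ℝ))).re| ≤ δ t * R t)
    (hend : ∀ᶠ t in atTop, ∀ x ∈ ball (ipt fun j => (m₀ t j : ℝ)) (ρ t),
      κ * R t ≤ ∑ i, c i * (Λ t (x, (R t : ℂ) + φ t * Complex.I) i).re ∧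
      ∑ i, c i * (Λ t (x, -(R t : ℂ) + φ t * Complex.I) i).re ≤ -(κ * R t))
    (hrel : ∀ i, ∃ (S : Finset (ℕ × ℕ)) (β : ℕ → ({j : Fin n // j ≠ l} → ℂ) → ℕ × ℕ → ℂ),
      S.Nonempty ∧ ∀ᶠ t in atTop,
        (∀ x ∈ ball (ipt fun j => (m₀ t j : ℝ)) (ρ t), ∀ s ∈ S, β t x s ≠ 0 ∧
          ∀ x' ∈ ball (ipt fun j => (m₀ t j : ℝ)) (ρ t),
            ‖β t x' s - β t x s‖ ≤ δ t * ‖x' - x‖ * ‖β t x s‖) ∧
        ∀ p ∈ Dom (m₀ t) (ρ t) c₀ (φ t) (4 * R t),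
          ∑ s ∈ S, β t p.1 s * Complex.exp (s.1 * p.2 + s.2 * Λ t p i) = 0) :
    ∃ᶠ t in atTop, ∃ p ∈ Dom (m₀ t) (ρ t) c₀ (φ t) (4 * R t), ∃ m : Fin n → ℤ,
      (∀ j : {j : Fin n // j ≠ l}, p.1 j = 2 * Real.pi * Complex.I * m j + Λ t p j) ∧
      Ξ t p.1 = 2 * Real.pi * Complex.I * m l + Λ t p l := by
  classical
  have hpi := Real.pi_pos
  obtain ⟨C', hC'⟩ : ∃ C' : ℝ, C' = |C| := ⟨_, rfl⟩
  have hC'0 : 0 ≤ C' := hC' ▸ abs_nonneg _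
  have hCC' : C ≤ C' := hC' ▸ le_abs_self _
  obtain ⟨δ', hδ'def⟩ : ∃ δ' : ℕ → ℝ, δ' = fun t => |δ t| := ⟨_, rfl⟩
  have hδ'0 : ∀ t, 0 ≤ δ' t := fun t => by rw [hδ'def]; exact abs_nonneg _
  have hδδ' : ∀ t, δ t ≤ δ' t := fun t => by rw [hδ'def]; exact le_abs_self _
  have hδ' : Tendsto δ' atTop (𝓝 0) := by rw [hδ'def]; simpa using hδ.abs
  -- constants
  have hsmall : ∀ D e : ℝ, 0 < e → ∀ᶠ t in atTop, δ' t * D < e := by
    intro D e he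
    have h1 : Tendsto (fun t => δ' t * D) atTop (𝓝 0) := by simpa using hδ'.mul_const D
    exact h1.eventually (gt_mem_nhds he)
  have hR1 : ∀ᶠ t in atTop, 1 ≤ R t := hR.eventually_ge_atTop 1
  have hρ1 : ∀ᶠ t in atTop, 0 < ρ t := hρ.eventually_gt_atTop 0
  have hbigρ : ∀ Kb : ℝ, 0 ≤ Kb → ∀ᶠ t in atTop,
      4 * (C' * R t + C' * (4 * R t + c₀) + 2 * Real.pi * Kb) < ρ t := by
    intro Kb hKb
    obtain ⟨M, hM⟩ : ∃ M : ℝ, M = 4 * (5 * C' + C' * c₀ + 2 * Real.pi * Kb) := ⟨_, rfl⟩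
    have hM0 : 0 ≤ M := by rw [hM]; positivity
    have h1 : ∀ᶠ t in atTop, R t / ρ t < 1 / (M + 1) :=
      hRρ.eventually (gt_mem_nhds (by positivity))
    filter_upwards [h1, hR1, hρ1] with t h1 h2 h3
    rw [div_lt_div_iff₀ h3 (by positivity)] at h1
    have h4 : 4 * (C' * R t + C' * (4 * R t + c₀) + 2 * Real.pi * Kb) ≤ M * R t := by
      rw [hM]
      have h5 : C' * c₀ ≤ C' * c₀ * R t := le_mul_of_one_le_right (by positivity) h2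
      have h6 : 2 * Real.pi * Kb ≤ 2 * Real.pi * Kb * R t :=
        le_mul_of_one_le_right (by positivity) h2
      nlinarith
    nlinarith
  have hbig : ∀ᶠ t in atTop, δ' t * R t +
      δ' t * (2 * (C' * R t + C' * (4 * R t + c₀) + 2 * Real.pi * 0)) < κ * R t := by
    filter_upwards [hsmall (1 + 2 * (5 * C' + C' * c₀)) κ hκ, hR1] with t h1 h2
    have h5 : C' * c₀ ≤ C' * c₀ * R t := le_mul_of_one_le_right (by positivity) h2
    have h6 : R t + 2 * (C' * R t + C' * (4 * R t + c₀) + 2 * Real.pi * 0) ≤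
        (1 + 2 * (5 * C' + C' * c₀)) * R t := by nlinarith
    have h7 := mul_le_mul_of_nonneg_left h6 (hδ'0 t)
    have h8 : δ' t * (1 + 2 * (5 * C' + C' * c₀)) * R t < κ * R t :=
      mul_lt_mul_of_pos_right h1 (by linarith)
    nlinarith
  have hδ4 : ∀ᶠ t in atTop, δ' t ≤ 1 / 4 := by
    filter_upwards [hsmall 1 (1 / 4) (by norm_num)] with t h1
    linarith
  -- hypotheses with the new constants
  have kΛζ : ∀ᶠ t in atTop, ∀ p ∈ Dom (m₀ t) (ρ t) c₀ (φ t) (4 * R t),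
      ∀ p' ∈ Dom (m₀ t) (ρ t) c₀ (φ t) (4 * R t), p.1 = p'.1 →
        ‖Λ t p - Λ t p'‖ ≤ C' * ‖p.2 - p'.2‖ := by
    filter_upwards [hΛζ] with t h p hp p' hp' hpp
    exact (h p hp p' hp' hpp).trans (mul_le_mul_of_nonneg_right hCC' (norm_nonneg _))
  have kΛx : ∀ᶠ t in atTop, ∀ p ∈ Dom (m₀ t) (ρ t) c₀ (φ t) (4 * R t),
      ∀ p' ∈ Dom (m₀ t) (ρ t) c₀ (φ t) (4 * R t), p.2 = p'.2 →
        ‖Λ t p - Λ t p'‖ ≤ δ' t * ‖p.1 - p'.1‖ := by
    filter_upwards [hΛx] with t h p hp p' hp' hpp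
    exact (h p hp p' hp' hpp).trans (mul_le_mul_of_nonneg_right (hδδ' t) (norm_nonneg _))
  have kΛ0 : ∀ᶠ t in atTop,
      ‖Λ t (ipt fun j => (m₀ t j : ℝ), φ t * Complex.I)‖ ≤ C' * R t := by
    filter_upwards [hΛ0, hR1] with t h h2
    exact h.trans (mul_le_mul_of_nonneg_right hCC' (by linarith))
  have kΞ : ∀ᶠ t in atTop, ∀ x ∈ ball (ipt fun j => (m₀ t j : ℝ)) (ρ t),
      ∀ x' ∈ ball (ipt fun j => (m₀ t j : ℝ)) (ρ t),
        ‖Ξ t x - Ξ t x' - ∑ j : {j : Fin n // j ≠ l}, (c j : ℂ) * (x j - x' j)‖ ≤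
          δ' t * ‖x - x'‖ := by
    filter_upwards [hΞ] with t h x hx x' hx'
    exact (h x hx x' hx').trans (mul_le_mul_of_nonneg_right (hδδ' t) (norm_nonneg _))
  have kΞ0 : ∀ᶠ t in atTop, |(Ξ t (ipt fun j => (m₀ t j : ℝ))).re| ≤ δ' t * R t := by
    filter_upwards [hΞ0, hR1] with t h h2
    exact h.trans (mul_le_mul_of_nonneg_right (hδδ' t) (by linarith))
  -- the base solution
  have hq : ∀ᶠ t in atTop, ∃ q : (ℂ → {j : Fin n // j ≠ l} → ℂ) × ℂ,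
      (∀ j, DifferentiableOn ℂ (fun ζ => q.1 ζ j)
        {ζ : ℂ | |ζ.im - φ t| < c₀ ∧ |ζ.re| < 4 * R t}) ∧
      (∀ ζ ∈ {ζ : ℂ | |ζ.im - φ t| < c₀ ∧ |ζ.re| < 4 * R t},
        q.1 ζ ∈ ball (ipt fun j => (m₀ t j : ℝ)) (ρ t)) ∧
      (∀ ζ ∈ {ζ : ℂ | |ζ.im - φ t| < c₀ ∧ |ζ.re| < 4 * R t}, ∀ j,
        q.1 ζ j = 2 * Real.pi * Complex.I * (m₀ t j : ℂ) + Λ t (q.1 ζ, ζ) j) ∧
      q.2.im = φ t ∧ |q.2.re| ≤ R t ∧ (Ξ t (q.1 q.2) - Λ t (q.1 q.2, q.2) l).re = 0 := by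
    filter_upwards [hΛd, hΞd, kΛζ, kΛx, kΛ0, kΞ, kΞ0, hend, hR1, hρ1, hbigρ 0 le_rfl, hbig,
      hδ4] with t a1 a2 a3 a4 a5 a6 a7 a8 a9 a10 a11 a12 a13
    have hRp : 0 < R t := by linarith
    obtain ⟨X, hXd, hX⟩ := coreI_X (hδ'0 t) a13 hC'0 hRp hc₀ (m₀ t) (Λ t) a1 a3 a4 a5
      (le_refl (0 : ℝ)) a11 (fun _ => 0) (fun j => by simp)
    have hXb : ∀ ζ ∈ {ζ : ℂ | |ζ.im - φ t| < c₀ ∧ |ζ.re| < 4 * R t},
        X ζ ∈ ball (ipt fun j => (m₀ t j : ℝ)) (ρ t) := by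
      intro ζ hζ
      rw [mem_ball_iff_norm]
      refine lt_of_le_of_lt (hX ζ hζ).1 (lt_of_le_of_lt ?_ a11)
      have : 0 ≤ C' * R t + C' * (4 * R t + c₀) + 2 * Real.pi * 0 := by positivity
      linarith
    have hXe : ∀ ζ ∈ {ζ : ℂ | |ζ.im - φ t| < c₀ ∧ |ζ.re| < 4 * R t}, ∀ j,
        X ζ j = 2 * Real.pi * Complex.I * (m₀ t j : ℂ) + Λ t (X ζ, ζ) j := by
      intro ζ hζ j
      have := (hX ζ hζ).2 j
      simpa using this
    obtain ⟨ζ, hζ1, hζ2, hζ3⟩ := coreI_zero hcl (hδ'0 t) hRp hc₀ a10 a1 a2 hXd hXb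
      (fun ζ hζ => (hX ζ hζ).1) hXe a6 a7 a8 a12
    exact ⟨(X, ζ), hXd, hXb, hXe, hζ1, hζ2, hζ3⟩
  obtain ⟨q, hq⟩ := hq.choice
  -- translation
  have hmap : ∀ t, |(q t).2.re| ≤ R t → (q t).2.im = φ t → 1 ≤ R t →
      ∀ w ∈ {w : ℂ | |w.im| < c₀ ∧ |w.re| < R t},
        (q t).2 + w ∈ {ζ : ℂ | |ζ.im - φ t| < c₀ ∧ |ζ.re| < 4 * R t} := by
    intro t h1 h2 h3 w hw
    constructor
    · have : ((q t).2 + w).im - φ t = w.im := by rw [Complex.add_im, h2]; ring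
      rw [this]
      exact hw.1
    · rw [Complex.add_re]
      refine lt_of_le_of_lt (abs_add_le _ _) ?_
      have := hw.2
      linarith
  have hzero : ∀ t, 1 ≤ R t → (0 : ℂ) ∈ {w : ℂ | |w.im| < c₀ ∧ |w.re| < R t} := by
    intro t h
    constructor
    · simpa using hc₀
    · simp only [Complex.zero_re, abs_zero]
      linarith
  -- Lipschitz
  have hLip : ∀ᶠ t in atTop, ∀ ζ ∈ {ζ : ℂ | |ζ.im - φ t| < c₀ ∧ |ζ.re| < 4 * R t},
      ∀ ζ' ∈ {ζ : ℂ | |ζ.im - φ t| < c₀ ∧ |ζ.re| < 4 * R t},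
      ‖(q t).1 ζ - (q t).1 ζ'‖ ≤ 2 * (C' * ‖ζ - ζ'‖) ∧
      ‖Λ t ((q t).1 ζ, ζ) - Λ t ((q t).1 ζ', ζ')‖ ≤ 2 * (C' * ‖ζ - ζ'‖) := by
    filter_upwards [hq, kΛζ, kΛx, hδ4] with t hqt a3 a4 a5 ζ hζ ζ' hζ'
    obtain ⟨hXd, hXb, hXe, -, -, -⟩ := hqt
    refine coreI_lip a5 (by positivity) (fun j => ?_) ?_
    · rw [hXe ζ hζ j, hXe ζ' hζ' j]
      ring
    · have b1 := a4 ((q t).1 ζ, ζ) ⟨hXb ζ hζ, hζ⟩ ((q t).1 ζ', ζ) ⟨hXb ζ' hζ', hζ⟩ rfl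
      have b2 := a3 ((q t).1 ζ', ζ) ⟨hXb ζ' hζ', hζ⟩ ((q t).1 ζ', ζ') ⟨hXb ζ' hζ', hζ'⟩ rfl
      calc ‖Λ t ((q t).1 ζ, ζ) - Λ t ((q t).1 ζ', ζ')‖
          = ‖(Λ t ((q t).1 ζ, ζ) - Λ t ((q t).1 ζ', ζ)) +
            (Λ t ((q t).1 ζ', ζ) - Λ t ((q t).1 ζ', ζ'))‖ := by congr 1; abel
        _ ≤ _ := norm_add_le _ _
        _ ≤ _ := add_le_add b1 b2
  -- the local limit argument
  obtain ⟨r, hr0, hrc, ρ₀, hρ₀, hfreq⟩ := local_limit c μ hstar (C := 2 * C') hc₀ R hR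
    (fun t w => Λ t ((q t).1 ((q t).2 + w), (q t).2 + w) - Λ t ((q t).1 (q t).2, (q t).2))
    (by
      filter_upwards [hq, hΛd, hR1] with t hqt a1 a2 i
      obtain ⟨hXd, hXb, hXe, h4, h5, -⟩ := hqt
      have b1 := coreI_diffY (a1 i) hXd hXb
      have b2 : DifferentiableOn ℂ (fun w : ℂ => (q t).2 + w)
          {w : ℂ | |w.im| < c₀ ∧ |w.re| < R t} := by fun_prop
      have b3 := b1.comp b2 (hmap t h5 h4 a2)
      exact b3.sub_const (Λ t ((q t).1 (q t).2, (q t).2) i))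
    (by
      refine Eventually.of_forall fun t => ?_
      simp)
    (by
      filter_upwards [hq, hLip, hR1] with t hqt hl a2 w hw w' hw'
      obtain ⟨hXd, hXb, hXe, h4, h5, -⟩ := hqt
      have b1 := (hl _ (hmap t h5 h4 a2 w hw) _ (hmap t h5 h4 a2 w' hw')).2
      simp only [sub_sub_sub_cancel_right, add_sub_add_left_eq_sub] at b1 ⊢
      linarith)
    (by
      filter_upwards [hq, hΛd, hμ, hR1] with t hqt a1 a3 a2 w hw
      obtain ⟨hXd, hXb, hXe, h4, h5, -⟩ := hqt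
      have b2 : DifferentiableOn ℂ (fun w : ℂ => (q t).2 + w)
          {w : ℂ | |w.im| < c₀ ∧ |w.re| < R t} := by fun_prop
      have b4 : DifferentiableOn ℂ (fun w : ℂ => (∑ i, (μ i : ℂ) *
          Λ t ((q t).1 ((q t).2 + w), (q t).2 + w) i) - ((q t).2 + w))
          {w : ℂ | |w.im| < c₀ ∧ |w.re| < R t} := by
        refine DifferentiableOn.sub ?_ b2
        refine DifferentiableOn.fun_sum fun i _ => ?_
        exact ((coreI_diffY (a1 i) hXd hXb).comp b2 (hmap t h5 h4 a2)).const_mul (μ i : ℂ)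
      have b5 := coreI_const_of_exp (coreI_isOpen_SS c₀ (R t)) (coreI_convex_SS c₀ (R t)) b4
        (fun w hw => by
          rw [Complex.exp_sub, a3 ((q t).1 ((q t).2 + w), (q t).2 + w)
            ⟨hXb _ (hmap t h5 h4 a2 w hw), hmap t h5 h4 a2 w hw⟩]
          exact div_self (Complex.exp_ne_zero _)) hw (hzero t a2)
      simp only [add_zero] at b5
      simp only [Pi.sub_apply, mul_sub, Finset.sum_sub_distrib]
      linear_combination b5)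
    (by
      intro i
      obtain ⟨S, β, hS, hβ⟩ := hrel i
      refine ⟨S, fun t w s => β t ((q t).1 ((q t).2 + w)) s *
        Complex.exp (s.1 * (q t).2 + s.2 * Λ t ((q t).1 (q t).2, (q t).2) i), hS, ?_, ?_, ?_⟩
      · filter_upwards [hq, hβ, hR1] with t hqt hβt a2 s hs
        obtain ⟨hXd, hXb, hXe, h4, h5, -⟩ := hqt
        refine mul_ne_zero ?_ (Complex.exp_ne_zero _)
        exact (hβt.1 _ (hXb _ (hmap t h5 h4 a2 0 (hzero t a2))) s hs).1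
      · intro B ε hε
        filter_upwards [hq, hβ, hR1, hLip, hR.eventually_gt_atTop B,
          hsmall (2 * (C' * |B|)) ε hε] with t hqt hβt a2 hl a3 a4 w hw hwB s hs
        obtain ⟨hXd, hXb, hXe, h4, h5, -⟩ := hqt
        have hwS : w ∈ {w : ℂ | |w.im| < c₀ ∧ |w.re| < R t} :=
          ⟨hw, lt_of_le_of_lt (Complex.abs_re_le_norm w) (lt_of_le_of_lt hwB a3)⟩
        have b1 := (hβt.1 _ (hXb _ (hmap t h5 h4 a2 0 (hzero t a2))) s hs).2 _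
          (hXb _ (hmap t h5 h4 a2 w hwS))
        have b2 := (hl _ (hmap t h5 h4 a2 w hwS) _ (hmap t h5 h4 a2 0 (hzero t a2))).1
        rw [← sub_mul, norm_mul, norm_mul, ← mul_assoc]
        refine mul_le_mul_of_nonneg_right ?_ (norm_nonneg _)
        refine b1.trans (mul_le_mul_of_nonneg_right ?_ (norm_nonneg _))
        have b3 : ‖(q t).2 + w - ((q t).2 + 0)‖ = ‖w‖ := by congr 1; ring
        rw [b3] at b2
        have b4 : 2 * (C' * ‖w‖) ≤ 2 * (C' * |B|) := by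
          have : ‖w‖ ≤ |B| := hwB.trans (le_abs_self B)
          have := mul_le_mul_of_nonneg_left this hC'0
          linarith
        calc δ t * ‖(q t).1 ((q t).2 + w) - (q t).1 ((q t).2 + 0)‖
            ≤ δ' t * ‖(q t).1 ((q t).2 + w) - (q t).1 ((q t).2 + 0)‖ :=
              mul_le_mul_of_nonneg_right (hδδ' t) (norm_nonneg _)
          _ ≤ δ' t * (2 * (C' * |B|)) := mul_le_mul_of_nonneg_left (b2.trans b4) (hδ'0 t)
          _ ≤ ε := a4.le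
      · filter_upwards [hq, hβ, hR1] with t hqt hβt a2 w hw
        obtain ⟨hXd, hXb, hXe, h4, h5, -⟩ := hqt
        have b1 := hβt.2 ((q t).1 ((q t).2 + w), (q t).2 + w)
          ⟨hXb _ (hmap t h5 h4 a2 w hw), hmap t h5 h4 a2 w hw⟩
        rw [← b1]
        refine Finset.sum_congr rfl fun s _ => ?_
        rw [mul_assoc, ← Complex.exp_add]
        congr 2
        simp only [Pi.sub_apply]
        ring)
    hc₀ le_rfl
  -- phases
  obtain ⟨K0, hK0⟩ := phase (fun j : {j : Fin n // j ≠ l} => c j) hirr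
    (show (0 : ℝ) < ρ₀ / 8 by positivity)
  obtain ⟨Kb, hKbdef⟩ : ∃ Kb : ℝ, Kb = max K0 0 := ⟨_, rfl⟩
  have hKb0 : 0 ≤ Kb := hKbdef ▸ le_max_right _ _
  have hK0Kb : K0 ≤ Kb := hKbdef ▸ le_max_left _ _
  obtain ⟨A, hA⟩ : ∃ A : ℝ, A = ∑ i, |c i| := ⟨_, rfl⟩
  have hA0 : 0 ≤ A := by rw [hA]; exact Finset.sum_nonneg fun i _ => abs_nonneg _
  have hE1 : ∀ᶠ t in atTop, δ' t * ((1 + A) * (4 * Real.pi * Kb)) < ρ₀ / 8 :=
    hsmall _ _ (by positivity)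
  have hE2 : ∀ᶠ t in atTop, δ' t * (2 * (C' * r)) < ρ₀ / 8 := hsmall _ _ (by positivity)
  have hall := hq.and (hLip.and (hΛd.and (hΞd.and (kΛζ.and (kΛx.and (kΛ0.and (kΞ.and (hδ4.and
    (hE1.and (hE2.and ((hbigρ Kb hKb0).and (hR1.and (hR.eventually_gt_atTop r)))))))))))))
  refine (hfreq.and_eventually hall).mono ?_
  rintro t ⟨hF, hqt, hl, a1, a2, a3, a4, a5, a6, a7, e1, e2, a8, a9, a10⟩
  obtain ⟨hXd, hXb, hXe, h4, h5, h6⟩ := hqt
  have hRp : 0 < R t := by linarith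
  obtain ⟨k, m, hk, hm⟩ := hK0 (Ξ t ((q t).1 (q t).2) - Λ t ((q t).1 (q t).2, (q t).2) l).im
  have hkKb : ∀ j, |(k j : ℝ)| ≤ Kb := fun j => (hk j).trans hK0Kb
  obtain ⟨X, hXkd, hXk⟩ := coreI_X (hδ'0 t) a7 hC'0 hRp hc₀ (m₀ t) (Λ t) a1 a3 a4 a5
    hKb0 a8 k hkKb
  have hXkb : ∀ ζ ∈ {ζ : ℂ | |ζ.im - φ t| < c₀ ∧ |ζ.re| < 4 * R t},
      X ζ ∈ ball (ipt fun j => (m₀ t j : ℝ)) (ρ t) := by
    intro ζ hζ
    rw [mem_ball_iff_norm]
    refine lt_of_le_of_lt (hXk ζ hζ).1 (lt_of_le_of_lt ?_ a8)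
    have : 0 ≤ C' * R t + C' * (4 * R t + c₀) + 2 * Real.pi * Kb := by positivity
    linarith
  -- comparison of the two solutions
  have hcmp : ∀ ζ ∈ {ζ : ℂ | |ζ.im - φ t| < c₀ ∧ |ζ.re| < 4 * R t},
      ‖(Ξ t (X ζ) - Λ t (X ζ, ζ) l) - (Ξ t ((q t).1 ζ) - Λ t ((q t).1 ζ, ζ) l) -
        ∑ j : {j : Fin n // j ≠ l}, (c j : ℂ) * (2 * Real.pi * Complex.I * (k j : ℂ))‖ ≤
        δ' t * ((1 + A) * (4 * Real.pi * Kb)) := by
    intro ζ hζ
    have hv : ∀ j : {j : Fin n // j ≠ l}, X ζ j - (q t).1 ζ j =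
        2 * Real.pi * Complex.I * (k j : ℂ) + (Λ t (X ζ, ζ) j - Λ t ((q t).1 ζ, ζ) j) := by
      intro j
      rw [(hXk ζ hζ).2 j, hXe ζ hζ j]
      ring
    have b1 := a4 (X ζ, ζ) ⟨hXkb ζ hζ, hζ⟩ ((q t).1 ζ, ζ) ⟨hXb ζ hζ, hζ⟩ rfl
    obtain ⟨b2, b3⟩ := coreI_comp (hδ'0 t) a7 hKb0 k hkKb hv b1
    have b4 := coreI_diff c hcl (a6 _ (hXkb ζ hζ) _ (hXb ζ hζ)) hv
    have b5 : ‖∑ i, (c i : ℂ) * (Λ t (X ζ, ζ) i - Λ t ((q t).1 ζ, ζ) i)‖ ≤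
        A * (δ' t * (4 * Real.pi * Kb)) := by
      refine (norm_sum_le _ _).trans ?_
      rw [hA, Finset.sum_mul]
      refine Finset.sum_le_sum fun i _ => ?_
      rw [norm_mul, Complex.norm_real, Real.norm_eq_abs]
      refine mul_le_mul_of_nonneg_left ?_ (abs_nonneg _)
      exact (norm_le_pi_norm (Λ t (X ζ, ζ) - Λ t ((q t).1 ζ, ζ)) i).trans b3
    have b6 : δ' t * ‖X ζ - (q t).1 ζ‖ ≤ δ' t * (4 * Real.pi * Kb) :=
      mul_le_mul_of_nonneg_left b2 (hδ'0 t)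
    calc _ = ‖((Ξ t (X ζ) - Λ t (X ζ, ζ) l) - (Ξ t ((q t).1 ζ) - Λ t ((q t).1 ζ, ζ) l) -
        ∑ j : {j : Fin n // j ≠ l}, (c j : ℂ) * (2 * Real.pi * Complex.I * (k j : ℂ)) -
        ∑ i, (c i : ℂ) * (Λ t (X ζ, ζ) i - Λ t ((q t).1 ζ, ζ) i)) +
        ∑ i, (c i : ℂ) * (Λ t (X ζ, ζ) i - Λ t ((q t).1 ζ, ζ) i)‖ := by congr 1; ring
      _ ≤ _ := norm_add_le _ _
      _ ≤ δ' t * (4 * Real.pi * Kb) + A * (δ' t * (4 * Real.pi * Kb)) :=
        add_le_add (b4.trans b6) b5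
      _ = _ := by ring
  -- the circle estimate for the base solution
  have hcirc : ∀ w : ℂ, ‖w‖ = r → ρ₀ - δ' t * (2 * (C' * r)) ≤
      ‖(Ξ t ((q t).1 ((q t).2 + w)) - Λ t ((q t).1 ((q t).2 + w), (q t).2 + w) l) -
        (Ξ t ((q t).1 ((q t).2 + 0)) - Λ t ((q t).1 ((q t).2 + 0), (q t).2 + 0) l)‖ := by
    intro w hw
    have hwS : w ∈ {w : ℂ | |w.im| < c₀ ∧ |w.re| < R t} :=
      ⟨lt_of_le_of_lt (Complex.abs_im_le_norm w) (by rw [hw]; exact hrc),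
        lt_of_le_of_lt (Complex.abs_re_le_norm w) (by rw [hw]; exact a10)⟩
    have z1 := hmap t h5 h4 a9 w hwS
    have z2 := hmap t h5 h4 a9 0 (hzero t a9)
    have hv : ∀ j : {j : Fin n // j ≠ l}, (q t).1 ((q t).2 + w) j - (q t).1 ((q t).2 + 0) j =
        (fun _ => (0 : ℂ)) j + (Λ t ((q t).1 ((q t).2 + w), (q t).2 + w) j -
          Λ t ((q t).1 ((q t).2 + 0), (q t).2 + 0) j) := by
      intro j
      rw [hXe _ z1 j, hXe _ z2 j]
      ring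
    have b4 := coreI_diff c hcl (a6 _ (hXb _ z1) _ (hXb _ z2)) hv
    have b2 := (hl _ z1 _ z2).1
    have b3 : ‖(q t).2 + w - ((q t).2 + 0)‖ = r := by rw [← hw]; congr 1; ring
    rw [b3] at b2
    have b5 := b4.trans (mul_le_mul_of_nonneg_left b2 (hδ'0 t))
    simp only [mul_zero, Finset.sum_const_zero, sub_zero] at b5
    have b6 := hF w hw
    simp only [Pi.sub_apply] at b6
    have b7 : ∑ i, (c i : ℂ) * (Λ t ((q t).1 ((q t).2 + w), (q t).2 + w) i -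
          Λ t ((q t).1 ((q t).2 + 0), (q t).2 + 0) i) =
        ∑ i, (c i : ℂ) * (Λ t ((q t).1 ((q t).2 + w), (q t).2 + w) i -
          Λ t ((q t).1 (q t).2, (q t).2) i) := by rw [add_zero]
    rw [b7] at b5
    exact coreI_rev b5 b6
  -- solve
  have hb0 : DifferentiableOn ℂ (fun w : ℂ => (q t).2 + w)
      {w : ℂ | |w.im| < c₀ ∧ |w.re| < R t} := by fun_prop
  have hgd : DifferentiableOn ℂ (fun w : ℂ => Ξ t (X ((q t).2 + w)) -
      Λ t (X ((q t).2 + w), (q t).2 + w) l) {w : ℂ | |w.im| < c₀ ∧ |w.re| < R t} :=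
    ((coreI_diffΞ a2 hXkd hXkb).sub (coreI_diffY (a1 l) hXkd hXkb)).comp hb0
      (hmap t h5 h4 a9)
  obtain ⟨w, hw, hwa⟩ := coreI_open (S := {w : ℂ | |w.im| < c₀ ∧ |w.re| < R t})
    (coreI_isOpen_SS c₀ (R t)) (coreI_convex_SS c₀ (R t)).isPreconnected hr0
    (fun w hw => by
      have hw' : ‖w‖ ≤ r := by simpa using hw
      exact ⟨lt_of_le_of_lt ((Complex.abs_im_le_norm w).trans hw') hrc,
        lt_of_le_of_lt ((Complex.abs_re_le_norm w).trans hw') a10⟩)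
    (g0 := fun w => Ξ t ((q t).1 ((q t).2 + w)) - Λ t ((q t).1 ((q t).2 + w), (q t).2 + w) l)
    hgd
    (P := ∑ j : {j : Fin n // j ≠ l}, (c j : ℂ) * (2 * Real.pi * Complex.I * (k j : ℂ)))
    (a := 2 * Real.pi * Complex.I * m)
    (E := δ' t * ((1 + A) * (4 * Real.pi * Kb))) (E' := δ' t * (2 * (C' * r)))
    hρ₀ (fun w hw => hcmp _ (hmap t h5 h4 a9 w hw)) hcirc
    (by
      have b1 : Ξ t ((q t).1 ((q t).2 + 0)) - Λ t ((q t).1 ((q t).2 + 0), (q t).2 + 0) l =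
          (Ξ t ((q t).1 (q t).2) - Λ t ((q t).1 (q t).2, (q t).2) l).im * Complex.I := by
        rw [add_zero]
        apply Complex.ext
        · simpa using h6
        · simp
      have b2 : Ξ t ((q t).1 ((q t).2 + 0)) - Λ t ((q t).1 ((q t).2 + 0), (q t).2 + 0) l +
          ∑ j : {j : Fin n // j ≠ l}, (c j : ℂ) * (2 * Real.pi * Complex.I * (k j : ℂ)) -
          2 * Real.pi * Complex.I * m =
          (((Ξ t ((q t).1 (q t).2) - Λ t ((q t).1 (q t).2, (q t).2) l).im +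
            2 * Real.pi * ∑ j : {j : Fin n // j ≠ l}, c j * k j - 2 * Real.pi * m : ℝ) : ℂ) *
            Complex.I := by
        rw [b1]
        push_cast
        have : ∑ j : {j : Fin n // j ≠ l}, (c j : ℂ) * (2 * Real.pi * Complex.I * (k j : ℂ)) =
            2 * Real.pi * Complex.I * ∑ j : {j : Fin n // j ≠ l}, (c j : ℂ) * (k j : ℂ) := by
          rw [Finset.mul_sum]
          exact Finset.sum_congr rfl fun j _ => by ring
        rw [this]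
        ring
      rw [b2, norm_mul, Complex.norm_I, mul_one, Complex.norm_real, Real.norm_eq_abs]
      exact hm)
    (by linarith) e1.le
  have hwS : w ∈ {w : ℂ | |w.im| < c₀ ∧ |w.re| < R t} := by
    have hw' : ‖w‖ ≤ r := by simpa using hw
    exact ⟨lt_of_le_of_lt ((Complex.abs_im_le_norm w).trans hw') hrc,
      lt_of_le_of_lt ((Complex.abs_re_le_norm w).trans hw') a10⟩
  have hz := hmap t h5 h4 a9 w hwS
  refine ⟨(X ((q t).2 + w), (q t).2 + w), ⟨hXkb _ hz, hz⟩,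
    fun i => if h : i ≠ l then m₀ t ⟨i, h⟩ + k ⟨i, h⟩ else m, fun j => ?_, ?_⟩
  · have b1 := (hXk _ hz).2 j
    simp only [b1, dif_pos j.2]
    push_cast
    ring
  · have b1 : Ξ t (X ((q t).2 + w)) - Λ t (X ((q t).2 + w), (q t).2 + w) l =
      2 * Real.pi * Complex.I * m := hwa
    simp only [ne_eq, not_true_eq_false, dite_false]
    linear_combination b1

end Pool.Agent.Lib.MP_209724_lc.HS
end
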