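import Mathlib
import Pool.Agent.Lib.MP_209724_lc.SC.Ed3
import Pool.Agent.Lib.MP_209724_lc.SC.Sp0
import Pool.Agent.Lib.MP_209724_lc.MV.Branch

section

namespace Pool.Agent.Lib.MP_209724_lc.HS

open MvPolynomial Filter Topology Metric
open MV (lead evT glue)
open GC (evM)

/-- HS-1: the theorem of Bloch (without schlicht). -/
theorem bloch : ∃ β : ℝ, 0 < β ∧ ∀ (f : ℂ → ℂ) (z₀ : ℂ) (r : ℝ), 0 < r →
    DifferentiableOn ℂ f (ball z₀ r) → ∃ w₀ : ℂ, ball w₀ (β * r * ‖deriv f z₀‖) ⊆ f '' ball z₀ r := by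
  refine ⟨1 / 96, by norm_num, ?_⟩
  intro f z₀ r hr hf
  by_cases h0 : deriv f z₀ = 0
  · refine ⟨0, ?_⟩
    rw [h0]
    simp
  have h0' : 0 < ‖deriv f z₀‖ := norm_pos_iff.2 h0
  have hdf : DifferentiableOn ℂ (deriv f) (ball z₀ r) := hf.deriv isOpen_ball
  have hsub : closedBall z₀ (r / 2) ⊆ ball z₀ r := closedBall_subset_ball (by linarith)
  have hu : ContinuousOn (fun z => ‖deriv f z‖ * (r / 2 - ‖z - z₀‖)) (closedBall z₀ (r / 2)) := by
    refine ContinuousOn.mul (hdf.continuousOn.mono hsub).norm (Continuous.continuousOn ?_)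
    fun_prop
  obtain ⟨p, hpD, hpmax⟩ := (isCompact_closedBall z₀ (r / 2)).exists_isMaxOn
    ⟨z₀, mem_closedBall_self (by positivity)⟩ hu
  have hmax0 : r / 2 * ‖deriv f z₀‖ ≤ ‖deriv f p‖ * (r / 2 - ‖p - z₀‖) := by
    have := hpmax (mem_closedBall_self (by positivity) : z₀ ∈ closedBall z₀ (r / 2))
    simp only [Set.mem_setOf_eq, sub_self, norm_zero, sub_zero] at this
    linarith
  have hMpos : 0 < ‖deriv f p‖ * (r / 2 - ‖p - z₀‖) := lt_of_lt_of_le (by positivity) hmax0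
  have hfp : 0 < ‖deriv f p‖ := by
    rcases (norm_nonneg (deriv f p)).eq_or_lt with h | h
    · rw [← h] at hMpos
      simp at hMpos
    · exact h
  obtain ⟨t, ht⟩ : ∃ t : ℝ, t = (r / 2 - ‖p - z₀‖) / 2 := ⟨_, rfl⟩
  have htpos : 0 < t := by
    have : 0 < r / 2 - ‖p - z₀‖ := pos_of_mul_pos_right hMpos hfp.le
    rw [ht]
    positivity
  have hM : ‖deriv f p‖ * (r / 2 - ‖p - z₀‖) = 2 * t * ‖deriv f p‖ := by
    rw [ht]
    ring
  -- derivative bound near `p`
  have hin : ∀ z ∈ closedBall p t, z ∈ closedBall z₀ (r / 2) ∧ t ≤ r / 2 - ‖z - z₀‖ := by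
    intro z hz
    rw [mem_closedBall, dist_eq_norm] at hz
    have h1 : ‖z - z₀‖ ≤ ‖z - p‖ + ‖p - z₀‖ := by
      have : z - z₀ = (z - p) + (p - z₀) := by ring
      rw [this]
      exact norm_add_le _ _
    have h2 : ‖z - z₀‖ ≤ r / 2 - t := by
      have : ‖p - z₀‖ = r / 2 - 2 * t := by rw [ht]; ring
      linarith
    refine ⟨?_, by linarith⟩
    rw [mem_closedBall, dist_eq_norm]
    linarith
  have hder : ∀ z ∈ closedBall p t, ‖deriv f z‖ ≤ 2 * ‖deriv f p‖ := by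
    intro z hz
    obtain ⟨h1, h2⟩ := hin z hz
    have h3 := hpmax h1
    simp only [Set.mem_setOf_eq] at h3
    rw [hM] at h3
    have h4 : ‖deriv f z‖ * t ≤ 2 * t * ‖deriv f p‖ :=
      (mul_le_mul_of_nonneg_left h2 (norm_nonneg _)).trans h3
    have h5 : ‖deriv f z‖ * t ≤ (2 * ‖deriv f p‖) * t := by linarith
    exact le_of_mul_le_mul_right h5 htpos
  have hballsub : ball p t ⊆ ball z₀ r := fun z hz => hsub (hin z (ball_subset_closedBall hz)).1
  -- Schwarz lemma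
  have hsch : ∀ z ∈ ball p t, ‖deriv f z - deriv f p‖ ≤ 3 * ‖deriv f p‖ / t * ‖z - p‖ := by
    intro z hz
    have h1 := Complex.dist_le_div_mul_dist_of_mapsTo_ball (f := deriv f) (c := p) (R₁ := t)
      (R₂ := 3 * ‖deriv f p‖) (hdf.mono hballsub) (fun y hy => by
        rw [mem_closedBall, dist_eq_norm]
        have := hder y (ball_subset_closedBall hy)
        have h2 := norm_sub_le (deriv f y) (deriv f p)
        linarith) hz
    rwa [dist_eq_norm, dist_eq_norm] at h1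
  obtain ⟨s, hs⟩ : ∃ s : ℝ, s = t / 6 := ⟨_, rfl⟩
  have hspos : 0 < s := by rw [hs]; positivity
  have hst : s < t := by rw [hs]; linarith
  have hcs : closedBall p s ⊆ ball p t := closedBall_subset_ball hst
  have hfat : ∀ z ∈ closedBall p s, HasDerivAt f (deriv f z) z := fun z hz =>
    (hf.differentiableAt (isOpen_ball.mem_nhds (hballsub (hcs hz)))).hasDerivAt
  -- mean value
  have hmv : ∀ z ∈ closedBall p s,
      ‖(f z - deriv f p * z) - (f p - deriv f p * p)‖ ≤ ‖deriv f p‖ / 2 * ‖z - p‖ := by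
    intro z hz
    refine (convex_closedBall p s).norm_image_sub_le_of_norm_hasDerivWithin_le (𝕜 := ℂ)
      (f := fun z => f z - deriv f p * z) (f' := fun z => deriv f z - deriv f p) ?_ ?_
      (mem_closedBall_self hspos.le) hz
    · intro y hy
      have h1 := (hfat y hy).sub ((hasDerivAt_id y).const_mul (deriv f p))
      simp only [id_eq, mul_one] at h1
      exact h1.hasDerivWithinAt
    · intro y hy
      refine (hsch y (hcs hy)).trans ?_
      have h2 : ‖y - p‖ ≤ s := by rwa [mem_closedBall, dist_eq_norm] at hy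
      calc 3 * ‖deriv f p‖ / t * ‖y - p‖ ≤ 3 * ‖deriv f p‖ / t * s := by gcongr
        _ = ‖deriv f p‖ / 2 := by rw [hs]; field_simp; norm_num
  have hsphere : ∀ z ∈ sphere p s, ‖deriv f p‖ * t / 12 ≤ ‖f z - f p‖ := by
    intro z hz
    have h1 := hmv z (sphere_subset_closedBall hz)
    have h2 : ‖z - p‖ = s := by rwa [mem_sphere, dist_eq_norm] at hz
    have h3 : (f z - deriv f p * z) - (f p - deriv f p * p) = (f z - f p) - deriv f p * (z - p) := by
      ring
    rw [h3, h2] at h1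
    have h4 : ‖deriv f p * (z - p)‖ ≤ ‖f z - f p‖ + ‖(f z - f p) - deriv f p * (z - p)‖ := by
      have : deriv f p * (z - p) = (f z - f p) - ((f z - f p) - deriv f p * (z - p)) := by ring
      nth_rw 1 [this]
      exact norm_sub_le _ _
    rw [norm_mul, h2] at h4
    have h5 : ‖deriv f p‖ * s = ‖deriv f p‖ * t / 6 := by rw [hs]; ring
    have h6 : ‖deriv f p‖ / 2 * s = ‖deriv f p‖ * t / 12 := by rw [hs]; ring
    linarith
  have hdc : DiffContOnCl ℂ f (ball p s) := by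
    apply DifferentiableOn.diffContOnCl
    refine hf.mono ?_
    exact (closure_ball_subset_closedBall).trans (hcs.trans hballsub)
  have hne : ∃ᶠ z in 𝓝 p, f z ≠ f p := by
    have h1 := (hfat p (mem_closedBall_self hspos.le)).eventually_ne (c := f p)
      (norm_pos_iff.1 hfp)
    exact h1.frequently.filter_mono nhdsWithin_le_nhds
  have hfin := hdc.ball_subset_image_closedBall hspos hsphere hne
  refine ⟨f p, ?_⟩
  refine (ball_subset_ball ?_).trans (hfin.trans (Set.image_mono (hcs.trans hballsub)))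
  rw [hM] at hmax0
  linarith

end Pool.Agent.Lib.MP_209724_lc.HS
end

section

namespace Pool.Agent.Lib.MP_209724_lc.HS

open MvPolynomial Filter Topology Metric
open MV (lead evT glue)
open GC (evM)

private lemma es_poly_bd {σ : Type} (p : MvPolynomial σ ℂ) : ∃ (B : ℝ) (k : ℕ), 0 ≤ B ∧
    ∀ X : ℝ, 1 ≤ X → ∀ x : σ → ℂ, (∀ i, ‖x i‖ ≤ X) → ‖eval x p‖ ≤ B * X ^ k := by
  induction p using MvPolynomial.induction_on with
  | C a =>
    refine ⟨‖a‖, 0, norm_nonneg _, fun X _ x _ => ?_⟩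
    simp
  | add p q hp hq =>
    obtain ⟨B, k, hB, h⟩ := hp
    obtain ⟨B', k', hB', h'⟩ := hq
    refine ⟨B + B', k + k', add_nonneg hB hB', fun X hX x hx => ?_⟩
    rw [map_add]
    refine (norm_add_le _ _).trans ?_
    rw [add_mul]
    refine add_le_add ((h X hX x hx).trans ?_) ((h' X hX x hx).trans ?_)
    · exact mul_le_mul_of_nonneg_left (pow_le_pow_right₀ hX (by omega)) hB
    · exact mul_le_mul_of_nonneg_left (pow_le_pow_right₀ hX (by omega)) hB'
  | mul_X p i hp =>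
    obtain ⟨B, k, hB, h⟩ := hp
    refine ⟨B, k + 1, hB, fun X hX x hx => ?_⟩
    rw [map_mul, eval_X, norm_mul, pow_succ, ← mul_assoc]
    exact mul_le_mul (h X hX x hx) (hx i) (norm_nonneg _) (by positivity)

private lemma es_dom {α : Type*} [DecidableEq α] (T : Finset α) (u : α → ℂ) (m : α) (hm : m ∈ T)
    (hu : u m ≠ 0) (h : ∑ t ∈ T, u t = 0) :
    ∃ m' ∈ T.erase m, ‖u m‖ ≤ T.card * ‖u m'‖ := by
  have hsum : u m = -∑ t ∈ T.erase m, u t := by
    rw [← Finset.add_sum_erase T u hm] at h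
    exact eq_neg_of_add_eq_zero_left h
  have hne : (T.erase m).Nonempty := by
    rw [Finset.nonempty_iff_ne_empty]
    intro he
    rw [he, Finset.sum_empty, neg_zero] at hsum
    exact hu hsum
  obtain ⟨t₂, ht₂, hmax₂⟩ := Finset.exists_max_image (T.erase m) (fun t => ‖u t‖) hne
  refine ⟨t₂, ht₂, ?_⟩
  rw [hsum, norm_neg]
  refine (norm_sum_le _ _).trans ?_
  refine (Finset.sum_le_sum fun t ht => hmax₂ t ht).trans ?_
  rw [Finset.sum_const, nsmul_eq_mul]
  refine mul_le_mul_of_nonneg_right ?_ (norm_nonneg _)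
  exact_mod_cast Finset.card_le_card (Finset.erase_subset _ _)

private lemma es_hom {n : ℕ} {L : Type} [Field L] [Algebra ℂ L] (ξ : Fin n → L)
    (A : Subalgebra ℂ L) (hξA : ∀ i, ξ i ∈ A) (ψ : A →ₐ[ℂ] ℂ) (p : MvPolynomial (Fin n) ℂ) :
    (aeval ξ p = 0 → eval (fun i => ψ ⟨ξ i, hξA i⟩) p = 0) := by
  intro h
  have h1 : ((aeval (fun i => (⟨ξ i, hξA i⟩ : A)) p : A) : L) = aeval ξ p := by
    have : (A.val.comp (aeval (fun i => (⟨ξ i, hξA i⟩ : A)))) p = aeval ξ p := by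
      congr 1
      ext i
      simp
    exact this
  have h2 : (aeval (fun i => (⟨ξ i, hξA i⟩ : A)) p : A) = 0 := by
    apply Subtype.ext
    rw [h1, h]
    rfl
  have h3 : (ψ.comp (aeval (fun i => (⟨ξ i, hξA i⟩ : A)))) p =
      aeval (fun i => ψ ⟨ξ i, hξA i⟩) p := by
    congr 1
    ext i
    simp
  rw [AlgHom.comp_apply, h2, map_zero, aeval_eq_eval] at h3
  exact h3.symm

private lemma es_coef {n : ℕ} {L : Type} [Field L] [Algebra ℂ L] (ξ : Fin n → L)
    (P : MvPolynomial (Fin n) ℂ) (hP : ∀ c, aeval ξ c = 0 ↔ P ∣ c) (l : Fin n)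
    (hξ : AlgebraicIndependent ℂ (fun j : {j : Fin n // j ≠ l} => ξ j))
    (hl : IsAlgebraic (Algebra.adjoin ℂ (Set.range fun j : {j : Fin n // j ≠ l} => ξ j)) (ξ l))
    (A : Subalgebra ℂ L) (hξA : ∀ i, ξ i ∈ A) (G : MvPolynomial (Fin n) ℂ)
    (hG : aeval ξ G ≠ 0) :
    ∃ c : MvPolynomial {j : Fin n // j ≠ l} ℂ, c ≠ 0 ∧
      ∀ w : {j : Fin n // j ≠ l} → ℂ, eval w (lead c) ≠ 0 → ∃ ε : ℝ, 0 < ε ∧
        ∀ C : ℝ, ∃ (D : ℝ) (N₀ : ℕ), 0 ≤ D ∧ ∀ N : ℕ, N₀ ≤ N → ∀ ψ : A →ₐ[ℂ] ℂ,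
            (∃ v ∈ ball w ε, ∀ j : {j : Fin n // j ≠ l}, ψ ⟨ξ j, hξA j⟩ = N * v j) →
            ‖ψ ⟨ξ l, hξA l⟩‖ ≤ Real.exp (C * Real.log N) →
            eval (fun i => ψ ⟨ξ i, hξA i⟩) G ≠ 0 ∧
            |Real.log ‖eval (fun i => ψ ⟨ξ i, hξA i⟩) G‖| ≤ D * Real.log N := by
  obtain ⟨u, c, hc0, hdvd⟩ := exists_multiple ξ P hP l hξ hl G (fun h => hG ((hP G).mpr h))
  refine ⟨c, hc0, fun w hw => ?_⟩
  obtain ⟨ε, Λ, C₀, hε, hC₀, hdil⟩ := eval_dil c w hw
  refine ⟨ε, hε, fun C => ?_⟩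
  obtain ⟨Bu, ku, hBu, hu⟩ := es_poly_bd u
  obtain ⟨BG, kG, hBG, hGb⟩ := es_poly_bd G
  obtain ⟨N₀, hN₀⟩ := exists_nat_ge (max (Real.exp Λ + 1) (‖w‖ + ε))
  refine ⟨|Real.log C₀| + (Real.log (Bu + 1) + ku * (2 + |C|)) +
    (Real.log (BG + 1) + kG * (2 + |C|)), max N₀ 3, ?_, fun N hN ψ hψ hψl => ?_⟩
  · have h1 : 0 ≤ Real.log (Bu + 1) := Real.log_nonneg (by linarith)
    have h2 : 0 ≤ Real.log (BG + 1) := Real.log_nonneg (by linarith)
    have h3 := abs_nonneg (Real.log C₀)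
    have h4 := abs_nonneg C
    positivity
  obtain ⟨v, hv, hψv⟩ := hψ
  have hN3 : 3 ≤ N := (le_max_right _ _).trans hN
  have hNR : (3 : ℝ) ≤ N := by exact_mod_cast hN3
  have hNpos : (0 : ℝ) < N := by linarith
  have hNN₀ : (N₀ : ℝ) ≤ N := by exact_mod_cast (le_max_left _ _).trans hN
  have hlog1 : 1 ≤ Real.log N := by
    rw [Real.le_log_iff_exp_le hNpos]
    have := Real.exp_one_lt_d9
    linarith
  have hNΛ : Λ < Real.log N := by
    rw [Real.lt_log_iff_exp_lt hNpos]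
    have := (le_max_left (Real.exp Λ + 1) (‖w‖ + ε)).trans hN₀
    linarith
  have hNw : ‖w‖ + ε ≤ N := (le_max_right (Real.exp Λ + 1) (‖w‖ + ε)).trans (hN₀.trans hNN₀)
  set X : ℝ := Real.exp ((2 + |C|) * Real.log N) with hX
  have hX1 : 1 ≤ X := Real.one_le_exp (by positivity)
  have hvn : ∀ j, ‖v j‖ ≤ N := by
    intro j
    have h1 : ‖v‖ ≤ ‖w‖ + ε := by
      have h2 : ‖v - w‖ < ε := by rwa [mem_ball, dist_eq_norm] at hv
      have h3 : ‖v‖ ≤ ‖w‖ + ‖v - w‖ := by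
        have := norm_add_le w (v - w)
        rwa [add_sub_cancel] at this
      linarith
    exact (norm_le_pi_norm v j).trans (h1.trans hNw)
  have hxX : ∀ i, ‖ψ ⟨ξ i, hξA i⟩‖ ≤ X := by
    intro i
    by_cases hi : i = l
    · subst hi
      refine hψl.trans (Real.exp_le_exp.mpr ?_)
      refine mul_le_mul_of_nonneg_right ?_ (by linarith)
      have := le_abs_self C
      linarith
    · rw [hψv ⟨i, hi⟩, norm_mul, Complex.norm_natCast]
      calc (N : ℝ) * ‖v ⟨i, hi⟩‖ ≤ N * N := mul_le_mul_of_nonneg_left (hvn _) hNpos.le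
        _ = Real.exp (2 * Real.log N) := by
            rw [two_mul, Real.exp_add, Real.exp_log hNpos]
        _ ≤ X := by
            refine Real.exp_le_exp.mpr (mul_le_mul_of_nonneg_right ?_ (by linarith))
            have := abs_nonneg C
            linarith
  have hXk : ∀ k : ℕ, X ^ k = Real.exp (k * (2 + |C|) * Real.log N) := by
    intro k
    rw [hX, ← Real.exp_nat_mul]
    congr 1
    ring
  have hup : ∀ (B : ℝ) (k : ℕ) (y : ℂ), 0 ≤ B → y ≠ 0 → ‖y‖ ≤ B * X ^ k →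
      Real.log ‖y‖ ≤ (Real.log (B + 1) + k * (2 + |C|)) * Real.log N := by
    intro B k y hB hy hle
    have h1 : ‖y‖ ≤ (B + 1) * X ^ k := hle.trans
      (mul_le_mul_of_nonneg_right (by linarith) (by positivity))
    have h2 := Real.log_le_log (norm_pos_iff.mpr hy) h1
    rw [Real.log_mul (by positivity) (by positivity), hXk, Real.log_exp] at h2
    have h3 : 0 ≤ Real.log (B + 1) := Real.log_nonneg (by linarith)
    nlinarith
  -- the relation
  set x : Fin n → ℂ := fun i => ψ ⟨ξ i, hξA i⟩ with hx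
  have hPx : eval x P = 0 := es_hom ξ A hξA ψ P ((hP P).mpr dvd_rfl)
  have hrel : eval x u * eval x G = eval (fun j : {j : Fin n // j ≠ l} => (N : ℂ) * v j) c := by
    obtain ⟨q, hq⟩ := hdvd
    have h1 := congrArg (eval x) hq
    rw [map_sub, map_mul, map_mul, hPx, zero_mul, sub_eq_zero, eval_rename] at h1
    rw [h1]
    congr 2
    funext j
    exact hψv j
  have hdil' := hdil ((Real.log N : ℝ) : ℂ) (by rw [Complex.ofReal_re]; exact hNΛ) v hv
  have hexpN : Complex.exp ((Real.log N : ℝ) : ℂ) = N := by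
    rw [← Complex.ofReal_exp, Real.exp_log hNpos]
    simp
  rw [hexpN, ← hrel, Complex.ofReal_re] at hdil'
  have hpos : 0 < ‖eval x u * eval x G‖ := lt_of_lt_of_le
    (mul_pos (inv_pos.mpr hC₀) (Real.exp_pos _)) hdil'.1
  have hne := norm_pos_iff.mp hpos
  have hu0 : eval x u ≠ 0 := left_ne_zero_of_mul hne
  have hG0 : eval x G ≠ 0 := right_ne_zero_of_mul hne
  refine ⟨hG0, ?_⟩
  have e1 := hup BG kG (eval x G) hBG hG0 (hGb X hX1 x hxX)
  have e2 := hup Bu ku (eval x u) hBu hu0 (hu X hX1 x hxX)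
  have e3 := Real.log_le_log (mul_pos (inv_pos.mpr hC₀) (Real.exp_pos _)) hdil'.1
  rw [Real.log_mul (inv_ne_zero hC₀.ne') (Real.exp_ne_zero _), Real.log_exp, Real.log_inv,
    norm_mul, Real.log_mul (norm_ne_zero_iff.mpr hu0) (norm_ne_zero_iff.mpr hG0)] at e3
  have e4 : 0 ≤ (c.totalDegree : ℝ) * Real.log N := by positivity
  have e5 : Real.log C₀ ≤ |Real.log C₀| * Real.log N := by
    have := le_abs_self (Real.log C₀)
    have := abs_nonneg (Real.log C₀)
    nlinarith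
  have p1 : 0 ≤ (Real.log (Bu + 1) + ku * (2 + |C|)) * Real.log N := by
    have h1 : 0 ≤ Real.log (Bu + 1) := Real.log_nonneg (by linarith)
    positivity
  have p2 : 0 ≤ (Real.log (BG + 1) + kG * (2 + |C|)) * Real.log N := by
    have h1 : 0 ≤ Real.log (BG + 1) := Real.log_nonneg (by linarith)
    positivity
  have p3 : 0 ≤ |Real.log C₀| * Real.log N := by positivity
  rw [add_mul, add_mul, abs_le]
  constructor <;> linarith

/-- HS-29: signs at the ends of the strip. -/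
theorem end_sign {n : ℕ} {L : Type} [Field L] [Algebra ℂ L] (ξ η : Fin n → L)
    (P : MvPolynomial (Fin n) ℂ) (hP : ∀ c, aeval ξ c = 0 ↔ P ∣ c) (l : Fin n)
    (hξ : AlgebraicIndependent ℂ (fun j : {j : Fin n // j ≠ l} => ξ j))
    (hl : IsAlgebraic (Algebra.adjoin ℂ (Set.range fun j : {j : Fin n // j ≠ l} => ξ j)) (ξ l))
    (A : Subalgebra ℂ L) (hξA : ∀ i, ξ i ∈ A) (hηA : ∀ i, η i ∈ A)
    (F : Finset (MvPolynomial (Fin n) (MvPolynomial (Fin n) ℂ))) (hF : ∀ f ∈ F, evM ξ η f = 0)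
    (V : Finset (Fin n → ℤ)) (hV : ∀ ρ : Fin n → ℝ, (∀ f ∈ F, TropAt ξ f ρ) →
      ∃ a ∈ V, ∃ s : ℝ, 0 ≤ s ∧ ∀ i, ρ i = s * a i) :
    ∃ c₁ : MvPolynomial {j : Fin n // j ≠ l} ℂ, c₁ ≠ 0 ∧ ∀ (c : Fin n → ℝ) (μ : Fin n → ℤ),
      (∀ a ∈ V, (0 < ∑ i, μ i * a i → 0 < ∑ i, c i * a i) ∧
        (∑ i, μ i * a i < 0 → ∑ i, c i * a i < 0)) →
      ∀ w : {j : Fin n // j ≠ l} → ℂ, eval w (lead c₁) ≠ 0 → ∃ ε : ℝ, 0 < ε ∧
        ∀ (N : ℕ → ℕ) (R : ℕ → ℝ) (C : ℝ), Tendsto N atTop atTop → Tendsto R atTop atTop →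
          Tendsto (fun t => Real.log (N t) / R t) atTop (𝓝 0) →
          ∃ κ : ℝ, 0 < κ ∧ ∀ᶠ t in atTop, ∀ ψ : A →ₐ[ℂ] ℂ,
            (∃ v ∈ ball w ε, ∀ j : {j : Fin n // j ≠ l}, ψ ⟨ξ j, hξA j⟩ = N t * v j) →
            ‖ψ ⟨ξ l, hξA l⟩‖ ≤ Real.exp (C * Real.log (N t)) →
            (∀ i, ψ ⟨η i, hηA i⟩ ≠ 0 ∧ |Real.log ‖ψ ⟨η i, hηA i⟩‖| ≤ C * R t) →
            (∑ i, μ i * Real.log ‖ψ ⟨η i, hηA i⟩‖ = R t →
              κ * R t ≤ ∑ i, c i * Real.log ‖ψ ⟨η i, hηA i⟩‖) ∧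
            (∑ i, μ i * Real.log ‖ψ ⟨η i, hηA i⟩‖ = -R t →
              ∑ i, c i * Real.log ‖ψ ⟨η i, hηA i⟩‖ ≤ -(κ * R t)) := by
  classical
  set Q : Finset (MvPolynomial (Fin n) ℂ) :=
    (F.biUnion (fun f => f.support.image f.coeff)).filter (fun G => aeval ξ G ≠ 0) with hQ
  choose! c₀ hc₀ hcb using fun G (hG : aeval ξ G ≠ 0) => es_coef ξ P hP l hξ hl A hξA G hG
  have hQξ : ∀ G ∈ Q, aeval ξ G ≠ 0 := fun G hG => (Finset.mem_filter.mp hG).2
  refine ⟨∏ G ∈ Q, c₀ G, Finset.prod_ne_zero_iff.mpr fun G hG => hc₀ G (hQξ G hG),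
    fun c μ hcμ w hw => ?_⟩
  rw [lead_prod, map_prod, Finset.prod_ne_zero_iff] at hw
  choose! ε hε hεb using fun G (hG : G ∈ Q) => hcb G (hQξ G hG) w (hw G hG)
  have hs0 : 0 ≤ ∑ G ∈ Q, (ε G)⁻¹ := Finset.sum_nonneg fun G hG => (inv_pos.mpr (hε G hG)).le
  set ε' : ℝ := (1 + ∑ G ∈ Q, (ε G)⁻¹)⁻¹ with hε'
  have hε'0 : 0 < ε' := inv_pos.mpr (by linarith)
  have hεle : ∀ G ∈ Q, ε' ≤ ε G := by
    intro G hG
    rw [hε', inv_le_comm₀ (by linarith) (hε G hG)]
    have := Finset.single_le_sum (f := fun k => (ε k)⁻¹)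
      (fun k hk => (inv_pos.mpr (hε k hk)).le) hG
    linarith
  refine ⟨ε', hε'0, fun N R C hN hR hNR => ?_⟩
  choose! D N₀ hD hDb using fun G (hG : G ∈ Q) => hεb G hG C
  set D' : ℝ := ∑ G ∈ Q, D G with hD'
  set N₀' : ℕ := ∑ G ∈ Q, N₀ G with hN₀'
  have hcoef : ∀ G ∈ Q, ∀ M : ℕ, N₀' ≤ M → ∀ ψ : A →ₐ[ℂ] ℂ,
      (∃ v ∈ ball w ε', ∀ j : {j : Fin n // j ≠ l}, ψ ⟨ξ j, hξA j⟩ = M * v j) →
      ‖ψ ⟨ξ l, hξA l⟩‖ ≤ Real.exp (C * Real.log M) →
      eval (fun i => ψ ⟨ξ i, hξA i⟩) G ≠ 0 ∧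
      |Real.log ‖eval (fun i => ψ ⟨ξ i, hξA i⟩) G‖| ≤ D' * Real.log M := by
    intro G hG M hM ψ hψ hψl
    obtain ⟨v, hv, hψv⟩ := hψ
    have h1 := hDb G hG M ((Finset.single_le_sum (f := N₀) (fun _ _ => Nat.zero_le _) hG).trans hM)
      ψ ⟨v, ball_subset_ball (hεle G hG) hv, hψv⟩ hψl
    refine ⟨h1.1, h1.2.trans ?_⟩
    refine mul_le_mul_of_nonneg_right ?_ (Real.log_natCast_nonneg M)
    exact Finset.single_le_sum (f := D) (fun k hk => hD k hk) hG
  -- contradiction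
  by_contra hcon
  have hk : ∀ k : ℕ, ∃ t, k ≤ t ∧ ∃ (ψ : A →ₐ[ℂ] ℂ) (s : ℝ),
      (∃ v ∈ ball w ε', ∀ j : {j : Fin n // j ≠ l}, ψ ⟨ξ j, hξA j⟩ = N t * v j) ∧
      ‖ψ ⟨ξ l, hξA l⟩‖ ≤ Real.exp (C * Real.log (N t)) ∧
      (∀ i, ψ ⟨η i, hηA i⟩ ≠ 0 ∧ |Real.log ‖ψ ⟨η i, hηA i⟩‖| ≤ C * R t) ∧
      (s = 1 ∨ s = -1) ∧ ∑ i, μ i * Real.log ‖ψ ⟨η i, hηA i⟩‖ = s * R t ∧
      s * ∑ i, c i * Real.log ‖ψ ⟨η i, hηA i⟩‖ < 1 / ((k : ℝ) + 1) * R t := by
    intro k
    by_contra hno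
    apply hcon
    refine ⟨1 / ((k : ℝ) + 1), by positivity, ?_⟩
    filter_upwards [eventually_ge_atTop k] with t htk ψ hv hvl hη
    refine ⟨fun hμ => ?_, fun hμ => ?_⟩
    · by_contra hlt
      exact hno ⟨t, htk, ψ, 1, hv, hvl, hη, Or.inl rfl, by rw [hμ, one_mul], by
        rw [one_mul]; exact not_le.mp hlt⟩
    · by_contra hlt
      exact hno ⟨t, htk, ψ, -1, hv, hvl, hη, Or.inr rfl, by rw [hμ]; ring, by
        have := not_le.mp hlt; linarith⟩
  choose t ht ψ s hv hvl hη hs hμ hc using hk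
  set 𝒰 : Ultrafilter ℕ := hyperfilter ℕ with h𝒰
  have htt : Tendsto t atTop atTop := tendsto_atTop_mono ht tendsto_id
  have hU : (𝒰 : Filter ℕ) ≤ atTop := Nat.hyperfilter_le_atTop
  have hRU : Tendsto (fun k => R (t k)) 𝒰 atTop := (hR.comp htt).mono_left hU
  have hNU : Tendsto (fun k => N (t k)) 𝒰 atTop := (hN.comp htt).mono_left hU
  have hNRU : Tendsto (fun k => Real.log (N (t k)) / R (t k)) 𝒰 (𝓝 0) :=
    (hNR.comp htt).mono_left hU
  have hRpos : ∀ᶠ k in (𝒰 : Filter ℕ), 0 < R (t k) := hRU.eventually_gt_atTop 0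
  set ρ : ℕ → Fin n → ℝ := fun k i => -(Real.log ‖ψ k ⟨η i, hηA i⟩‖ / R (t k)) with hρ
  have hρmem : ∀ᶠ k in (𝒰 : Filter ℕ), ρ k ∈ Set.Icc (fun _ : Fin n => -|C|) (fun _ => |C|) := by
    filter_upwards [hRpos] with k hk
    have : ∀ i, |ρ k i| ≤ |C| := by
      intro i
      simp only [hρ]
      rw [abs_neg, abs_div, abs_of_pos hk, div_le_iff₀ hk]
      refine ((hη k i).2).trans ?_
      exact mul_le_mul_of_nonneg_right (le_abs_self C) hk.le
    exact ⟨fun i => (abs_le.mp (this i)).1, fun i => (abs_le.mp (this i)).2⟩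
  obtain ⟨ρ₀, -, hρ₀⟩ := (isCompact_Icc (a := fun _ : Fin n => -|C|)
    (b := fun _ : Fin n => |C|)).ultrafilter_le_nhds' (𝒰.map ρ) hρmem
  have hρlim : Tendsto ρ 𝒰 (𝓝 ρ₀) := hρ₀
  have hρi : ∀ i, Tendsto (fun k => ρ k i) 𝒰 (𝓝 (ρ₀ i)) := fun i => (tendsto_pi_nhds.mp hρlim) i
  -- tropical condition
  have htrop : ∀ f ∈ F, TropAt ξ f ρ₀ := by
    intro f hf m hm
    set Sf := f.support.filter (fun m => aeval ξ (f.coeff m) ≠ 0) with hSf
    have hmS : m ∈ Sf := by
      rw [hSf, Finset.mem_filter, mem_support_iff]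
      refine ⟨fun h0 => hm (by rw [h0, map_zero]), hm⟩
    have hSQ : ∀ m' ∈ Sf, f.coeff m' ∈ Q := by
      intro m' hm'
      rw [hSf, Finset.mem_filter] at hm'
      rw [hQ, Finset.mem_filter, Finset.mem_biUnion]
      exact ⟨⟨f, hf, Finset.mem_image_of_mem _ hm'.1⟩, hm'.2⟩
    have hzero : ∀ k, ∑ m' ∈ Sf, eval (fun i => ψ k ⟨ξ i, hξA i⟩) (f.coeff m') *
        ∏ i, (ψ k ⟨η i, hηA i⟩) ^ m' i = 0 := by
      intro k
      have h1 : evM (fun i => (⟨ξ i, hξA i⟩ : A)) (fun i => (⟨η i, hηA i⟩ : A)) f = 0 := by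
        apply Subtype.val_injective
        have := GC.map_evM A.val (fun i => (⟨ξ i, hξA i⟩ : A)) (fun i => (⟨η i, hηA i⟩ : A)) f
        simp only [Subalgebra.coe_val] at this
        rw [this, hF f hf]
        rfl
      have h2 := congrArg (ψ k) h1
      rw [GC.map_evM, map_zero, GC.evM_eq_sum] at h2
      rw [← h2, hSf, Finset.sum_filter]
      refine Finset.sum_congr rfl fun m' _ => ?_
      split_ifs with h3
      · rw [aeval_eq_eval]
      · rw [not_not] at h3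
        rw [aeval_eq_eval, es_hom ξ A hξA (ψ k) _ h3, zero_mul]
    have hev : ∀ᶠ k in (𝒰 : Filter ℕ), ∃ m' ∈ (Sf.erase m : Set (Fin n →₀ ℕ)),
        ∑ i, ρ k i * (m' i : ℝ) - ∑ i, ρ k i * (m i : ℝ) ≤
          Real.log Sf.card / R (t k) + 2 * D' * (Real.log (N (t k)) / R (t k)) := by
      filter_upwards [hRpos, hNU.eventually_ge_atTop N₀'] with k hkR hkN
      have hlt : ∀ m' ∈ Sf, eval (fun i => ψ k ⟨ξ i, hξA i⟩) (f.coeff m') ≠ 0 ∧
          |Real.log ‖eval (fun i => ψ k ⟨ξ i, hξA i⟩) (f.coeff m')‖| ≤ D' * Real.log (N (t k)) :=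
        fun m' hm' => hcoef _ (hSQ m' hm') _ hkN (ψ k) (hv k) (hvl k)
      have hprod : ∀ m' : Fin n →₀ ℕ, ∏ i, (ψ k ⟨η i, hηA i⟩) ^ m' i ≠ 0 := fun m' =>
        Finset.prod_ne_zero_iff.mpr fun i _ => pow_ne_zero _ (hη k i).1
      have hlogp : ∀ m' : Fin n →₀ ℕ, Real.log ‖∏ i, (ψ k ⟨η i, hηA i⟩) ^ m' i‖ =
          -(R (t k) * ∑ i, ρ k i * (m' i : ℝ)) := by
        intro m'
        rw [norm_prod, Real.log_prod (fun i _ => norm_ne_zero_iff.mpr
          (pow_ne_zero _ (hη k i).1)), Finset.mul_sum, ← Finset.sum_neg_distrib]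
        refine Finset.sum_congr rfl fun i _ => ?_
        rw [norm_pow, Real.log_pow]
        simp only [hρ]
        field_simp
      obtain ⟨m', hm', hle⟩ := es_dom Sf (fun m' => eval (fun i => ψ k ⟨ξ i, hξA i⟩)
        (f.coeff m') * ∏ i, (ψ k ⟨η i, hηA i⟩) ^ m' i) m hmS
        (mul_ne_zero (hlt m hmS).1 (hprod m)) (hzero k)
      refine ⟨m', Finset.mem_coe.mpr hm', ?_⟩
      have hm'S := Finset.mem_of_mem_erase hm'
      have hcard : (0 : ℝ) < Sf.card := by exact_mod_cast Finset.card_pos.mpr ⟨m, hmS⟩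
      have h1 := Real.log_le_log (norm_pos_iff.mpr (mul_ne_zero (hlt m hmS).1 (hprod m))) hle
      rw [Real.log_mul hcard.ne' (norm_ne_zero_iff.mpr (mul_ne_zero (hlt m' hm'S).1 (hprod m'))),
        norm_mul, norm_mul, Real.log_mul (norm_ne_zero_iff.mpr (hlt m hmS).1)
          (norm_ne_zero_iff.mpr (hprod m)), Real.log_mul (norm_ne_zero_iff.mpr (hlt m' hm'S).1)
          (norm_ne_zero_iff.mpr (hprod m')), hlogp, hlogp] at h1
      have h2 := abs_le.mp (hlt m hmS).2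
      have h3 := abs_le.mp (hlt m' hm'S).2
      have h4 : R (t k) * (∑ i, ρ k i * (m' i : ℝ) - ∑ i, ρ k i * (m i : ℝ)) ≤
          Real.log Sf.card + 2 * D' * Real.log (N (t k)) := by linarith [h2.1, h2.2, h3.1, h3.2]
      have h5 : ∑ i, ρ k i * (m' i : ℝ) - ∑ i, ρ k i * (m i : ℝ) ≤
          (Real.log Sf.card + 2 * D' * Real.log (N (t k))) / R (t k) := by
        rw [le_div_iff₀ hkR]; linarith
      refine h5.trans (le_of_eq ?_)
      ring
    rw [Ultrafilter.eventually_exists_mem_iff (Finset.finite_toSet _)] at hev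
    obtain ⟨m', hm', hev'⟩ := hev
    rw [Finset.mem_coe, Finset.mem_erase, hSf, Finset.mem_filter] at hm'
    refine ⟨m', hm'.1, hm'.2.2, ?_⟩
    have hl1 : Tendsto (fun k => ∑ i, ρ k i * (m' i : ℝ) - ∑ i, ρ k i * (m i : ℝ)) 𝒰
        (𝓝 (∑ i, ρ₀ i * (m' i : ℝ) - ∑ i, ρ₀ i * (m i : ℝ))) :=
      (tendsto_finsetSum _ fun i _ => (hρi i).mul_const _).sub
        (tendsto_finsetSum _ fun i _ => (hρi i).mul_const _)
    have hl2 : Tendsto (fun k => Real.log Sf.card / R (t k) +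
        2 * D' * (Real.log (N (t k)) / R (t k))) 𝒰 (𝓝 (0 + 2 * D' * 0)) :=
      (hRU.const_div_atTop _).add (hNRU.const_mul _)
    have := le_of_tendsto_of_tendsto hl1 hl2 hev'
    linarith
  obtain ⟨a, haV, σ, hσ, hρa⟩ := hV ρ₀ htrop
  -- the limits of the linear forms
  have hlimμ : Tendsto (fun k => ∑ i, (μ i : ℝ) * ρ k i) 𝒰 (𝓝 (∑ i, (μ i : ℝ) * ρ₀ i)) :=
    tendsto_finsetSum _ fun i _ => (hρi i).const_mul _
  have hlimc : Tendsto (fun k => ∑ i, c i * ρ k i) 𝒰 (𝓝 (∑ i, c i * ρ₀ i)) :=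
    tendsto_finsetSum _ fun i _ => (hρi i).const_mul _
  have hμk : ∀ᶠ k in (𝒰 : Filter ℕ), ∑ i, (μ i : ℝ) * ρ k i = -s k := by
    filter_upwards [hRpos] with k hk
    have h1 : ∑ i, (μ i : ℝ) * ρ k i =
        -((∑ i, (μ i : ℝ) * Real.log ‖ψ k ⟨η i, hηA i⟩‖) / R (t k)) := by
      rw [Finset.sum_div, ← Finset.sum_neg_distrib]
      refine Finset.sum_congr rfl fun i _ => ?_
      simp only [hρ]; ring
    rw [h1, hμ k, mul_div_assoc, div_self hk.ne', mul_one]
  have hck : ∀ᶠ k : ℕ in (𝒰 : Filter ℕ), -(1 / ((k : ℝ) + 1)) ≤ s k * ∑ i, c i * ρ k i := by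
    filter_upwards [hRpos] with k hk
    have h1 : ∑ i, c i * ρ k i =
        -((∑ i, c i * Real.log ‖ψ k ⟨η i, hηA i⟩‖) / R (t k)) := by
      rw [Finset.sum_div, ← Finset.sum_neg_distrib]
      refine Finset.sum_congr rfl fun i _ => ?_
      simp only [hρ]; ring
    have h2 := (div_lt_iff₀ hk).mpr (hc k)
    rw [h1]
    have h3 : s k * -((∑ i, c i * Real.log ‖ψ k ⟨η i, hηA i⟩‖) / R (t k)) =
        -(s k * (∑ i, c i * Real.log ‖ψ k ⟨η i, hηA i⟩‖) / R (t k)) := by ring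
    rw [h3]
    linarith
  have hone : Tendsto (fun k : ℕ => -(1 / ((k : ℝ) + 1))) 𝒰 (𝓝 (-0)) :=
    (tendsto_one_div_add_atTop_nhds_zero_nat.mono_left hU).neg
  have hμa : ∑ i, (μ i : ℝ) * ρ₀ i = σ * ∑ i, (μ i : ℝ) * a i := by
    rw [Finset.mul_sum]
    exact Finset.sum_congr rfl fun i _ => by rw [hρa]; ring
  have hca : ∑ i, c i * ρ₀ i = σ * ∑ i, c i * a i := by
    rw [Finset.mul_sum]
    exact Finset.sum_congr rfl fun i _ => by rw [hρa]; ring
  have hcast : ((∑ i, μ i * a i : ℤ) : ℝ) = ∑ i, (μ i : ℝ) * a i := by push_cast; rfl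
  have hsev : ∀ᶠ k in (𝒰 : Filter ℕ), s k = 1 ∨ s k = -1 := Eventually.of_forall hs
  rw [Ultrafilter.eventually_or] at hsev
  rcases hsev with hs1 | hs1
  · -- s = 1
    have h1 : ∑ i, (μ i : ℝ) * ρ₀ i = -1 := by
      refine tendsto_nhds_unique hlimμ (Tendsto.congr' ?_ (tendsto_const_nhds (x := (-1 : ℝ))))
      filter_upwards [hμk, hs1] with k hk1 hk2
      rw [hk1, hk2]
    have h2 : -0 ≤ ∑ i, c i * ρ₀ i := by
      refine le_of_tendsto_of_tendsto hone hlimc ?_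
      filter_upwards [hck, hs1] with k hk1 hk2
      rw [hk2, one_mul] at hk1
      exact hk1
    rw [hμa] at h1
    rw [hca] at h2
    have hσ0 : 0 < σ := by
      rcases hσ.eq_or_lt with h | h
      · rw [← h, zero_mul] at h1; norm_num at h1
      · exact h
    have h3 : ∑ i, (μ i : ℝ) * a i < 0 := by
      by_contra hge
      have := mul_nonneg hσ0.le (not_lt.mp hge)
      linarith
    have h4 := (hcμ a haV).2 (by exact_mod_cast hcast ▸ h3)
    have := mul_neg_of_pos_of_neg hσ0 h4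
    linarith
  · have h1 : ∑ i, (μ i : ℝ) * ρ₀ i = 1 := by
      refine tendsto_nhds_unique hlimμ (Tendsto.congr' ?_ (tendsto_const_nhds (x := (1 : ℝ))))
      filter_upwards [hμk, hs1] with k hk1 hk2
      rw [hk1, hk2, neg_neg]
    have h2 : -0 ≤ -∑ i, c i * ρ₀ i := by
      refine le_of_tendsto_of_tendsto hone hlimc.neg ?_
      filter_upwards [hck, hs1] with k hk1 hk2
      rw [hk2, neg_one_mul] at hk1
      exact hk1
    rw [hμa] at h1
    rw [hca] at h2
    have hσ0 : 0 < σ := by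
      rcases hσ.eq_or_lt with h | h
      · rw [← h, zero_mul] at h1; norm_num at h1
      · exact h
    have h3 : 0 < ∑ i, (μ i : ℝ) * a i := by
      by_contra hge
      have := mul_nonpos_of_nonneg_of_nonpos hσ0.le (not_lt.mp hge)
      linarith
    have h4 := (hcμ a haV).1 (by exact_mod_cast hcast ▸ h3)
    have := mul_pos hσ0 h4
    linarith

end Pool.Agent.Lib.MP_209724_lc.HS
end

section

namespace Pool.Agent.Lib.MP_209724_lc.HS

open MvPolynomial Filter Topology Metric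
open MV (lead evT glue)
open GC (evM)

private theorem hs2_exp_inj {ζ₀ : ℂ} {r : ℝ} (hr : r ≤ Real.pi) {z w : ℂ} (hz : z ∈ ball ζ₀ r)
    (hw : w ∈ ball ζ₀ r) (h : Complex.exp z = Complex.exp w) : z = w := by
  obtain ⟨n, hn⟩ := Complex.exp_eq_exp_iff_exists_int.mp h
  have h1 : dist z w < 2 * Real.pi := by
    have := dist_triangle_right z w ζ₀
    rw [mem_ball] at hz hw
    linarith
  have h2 : dist z w = |(n : ℝ)| * (2 * Real.pi) := by
    rw [dist_eq_norm, hn]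
    have : w + n * (2 * Real.pi * Complex.I) - w = ((n * (2 * Real.pi) : ℝ) : ℂ) * Complex.I := by
      push_cast; ring
    rw [this, norm_mul, Complex.norm_I, mul_one, Complex.norm_real, Real.norm_eq_abs, abs_mul,
      abs_of_pos (Real.two_pi_pos)]
  rw [h2] at h1
  have h3 : |(n : ℝ)| < 1 := by
    by_contra hc
    push Not at hc
    have := mul_le_mul_of_nonneg_right hc Real.two_pi_pos.le
    linarith
  have h4 : n = 0 := by
    have : |n| < 1 := by exact_mod_cast h3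
    exact Int.abs_lt_one_iff.mp this
  rw [hn, h4]; simp

/-- HS-2: logarithmic derivatives of algebraic functions. -/
theorem log_deriv_bound (d : ℕ) : ∃ C : ℝ, 0 < C ∧ ∀ (g : ℂ → ℂ) (ζ₀ : ℂ) (r : ℝ), 0 < r →
    r ≤ Real.pi → DifferentiableOn ℂ g (ball ζ₀ r) →
    ∀ B : Polynomial (Polynomial ℂ), B ≠ 0 → B.natDegree ≤ d →
      (∀ ζ ∈ ball ζ₀ r, (B.map (Polynomial.evalRingHom (Complex.exp (g ζ)))).eval (Complex.exp ζ) = 0) →
      ‖deriv g ζ₀‖ ≤ C / r := by
  obtain ⟨β, hβ, hbl⟩ := bloch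
  refine ⟨Real.pi * (d + 1) / β, by have := Real.pi_pos; positivity, ?_⟩
  intro g ζ₀ r hr hrpi hg B hB hBd hrel
  by_contra hcon
  push Not at hcon
  have hπ := Real.pi_pos
  obtain ⟨w₀, hw₀⟩ := hbl g ζ₀ r hr hg
  set ρ : ℝ := β * r * ‖deriv g ζ₀‖ with hρdef
  have hρ : Real.pi * (d + 1) < ρ := by
    rw [div_div, div_lt_iff₀ (by positivity)] at hcon
    rw [hρdef]; linarith
  -- a nonzero coefficient
  obtain ⟨k, hk⟩ : ∃ k, B.coeff k ≠ 0 := by
    by_contra hc
    push Not at hc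
    exact hB (Polynomial.ext (by simpa using hc))
  -- choice of the base point
  have hfin : ({v : ℂ | (B.coeff k).eval v = 0}).Finite := by
    have : {v : ℂ | (B.coeff k).eval v = 0} = (B.coeff k).rootSet ℂ := by
      ext v
      rw [Polynomial.mem_rootSet]
      simp [hk]
    rw [this]
    exact Polynomial.rootSet_finite _ _
  obtain ⟨t, ht0, ht1, htv⟩ : ∃ t : ℝ, 0 < t ∧ t < Real.pi ∧
      (B.coeff k).eval (Complex.exp (w₀ + t - Real.pi * d * Complex.I)) ≠ 0 := by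
    by_contra hc
    push Not at hc
    have hinj : Set.InjOn (fun t : ℝ => Complex.exp (w₀ + t - Real.pi * d * Complex.I))
        (Set.Ioo 0 Real.pi) := by
      intro a _ b _ hab
      have := congrArg (fun z : ℂ => ‖z‖) hab
      simp only [Complex.norm_exp] at this
      have h2 := Real.exp_injective this
      simp at h2
      exact h2
    have hsub : (fun t : ℝ => Complex.exp (w₀ + t - Real.pi * d * Complex.I)) ''
        (Set.Ioo 0 Real.pi) ⊆ {v : ℂ | (B.coeff k).eval v = 0} := by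
      rintro _ ⟨t, ht, rfl⟩
      exact hc t ht.1 ht.2
    have := (Set.finite_image_iff hinj).mp (hfin.subset hsub)
    exact Set.Ioo_infinite hπ this
  set w₁ : ℂ := w₀ + t with hw₁
  set v : ℂ := Complex.exp (w₁ - Real.pi * d * Complex.I) with hv
  -- the points
  have hmem : ∀ j : Fin (d+1), w₁ + Real.pi * (2 * (j : ℕ) - d : ℂ) * Complex.I ∈ ball w₀ ρ := by
    intro j
    rw [mem_ball, dist_eq_norm]
    have h1 : w₁ + Real.pi * (2 * (j : ℕ) - d : ℂ) * Complex.I - w₀ =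
        (t : ℂ) + ((Real.pi * (2 * (j : ℕ) - d) : ℝ) : ℂ) * Complex.I := by
      rw [hw₁]; push_cast; ring
    rw [h1]
    refine (norm_add_le _ _).trans_lt ?_
    rw [norm_mul, Complex.norm_I, mul_one, Complex.norm_real, Complex.norm_real,
      Real.norm_eq_abs, Real.norm_eq_abs, abs_of_pos ht0, abs_mul, abs_of_pos hπ]
    have h2 : |(2 * ((j : ℕ) : ℝ) - d)| ≤ d := by
      rw [abs_le]
      have : ((j : ℕ) : ℝ) ≤ d := by exact_mod_cast Nat.lt_succ_iff.mp j.2
      have h0 : (0 : ℝ) ≤ ((j : ℕ) : ℝ) := Nat.cast_nonneg _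
      constructor <;> linarith
    have h3 := mul_le_mul_of_nonneg_left h2 hπ.le
    linarith
  choose! ζ hζ using fun j : Fin (d+1) => hw₀ (hmem j)
  have hζm : ∀ j, ζ j ∈ ball ζ₀ r := fun j => (hζ j).1
  have hζg : ∀ j, g (ζ j) = w₁ + Real.pi * (2 * (j : ℕ) - d : ℂ) * Complex.I := fun j => (hζ j).2
  have hexp : ∀ j, Complex.exp (g (ζ j)) = v := by
    intro j
    rw [hζg j, hv, Complex.exp_eq_exp_iff_exists_int]
    refine ⟨((j : ℕ) : ℤ), ?_⟩
    push_cast; ring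
  have hinj : Function.Injective (fun j : Fin (d+1) => Complex.exp (ζ j)) := by
    intro a b hab
    have h1 := hs2_exp_inj hrpi (hζm a) (hζm b) hab
    have h2 : g (ζ a) = g (ζ b) := by rw [h1]
    rw [hζg a, hζg b] at h2
    have h3 : (Real.pi : ℂ) * (2 * ((a : ℕ) : ℂ) - d) * Complex.I =
        Real.pi * (2 * ((b : ℕ) : ℂ) - d) * Complex.I := add_left_cancel h2
    have h4 := mul_right_cancel₀ Complex.I_ne_zero h3
    have hpc : (Real.pi : ℂ) ≠ 0 := by exact_mod_cast hπ.ne'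
    have h5 := mul_left_cancel₀ hpc h4
    have h6 : ((a : ℕ) : ℂ) = ((b : ℕ) : ℂ) := by linear_combination h5 / 2
    exact Fin.ext (by exact_mod_cast h6)
  have hP : B.map (Polynomial.evalRingHom v) = 0 := by
    refine Polynomial.eq_zero_of_natDegree_lt_card_of_eval_eq_zero _ hinj ?_ ?_
    · intro j
      have := hrel (ζ j) (hζm j)
      rw [hexp j] at this
      exact this
    · rw [Fintype.card_fin]
      exact Nat.lt_succ_iff.mpr ((Polynomial.natDegree_map_le).trans hBd)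
  have := congrArg (fun p => Polynomial.coeff p k) hP
  simp only [Polynomial.coeff_map, Polynomial.coe_evalRingHom, Polynomial.coeff_zero] at this
  exact htv this

end Pool.Agent.Lib.MP_209724_lc.HS
end

section

namespace Pool.Agent.Lib.MP_209724_lc.HS

open MvPolynomial Filter Topology Metric
open MV (lead evT glue)
open GC (evM)

private theorem zl_convex (c φ R : ℝ) : Convex ℝ {ζ : ℂ | |ζ.im - φ| < c ∧ |ζ.re| < R} := by
  have h : {ζ : ℂ | |ζ.im - φ| < c ∧ |ζ.re| < R} = ({ζ : ℂ | φ - c < ζ.im} ∩ {ζ : ℂ | ζ.im < φ + c}) ∩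
      ({ζ : ℂ | -R < ζ.re} ∩ {ζ : ℂ | ζ.re < R}) := by
    ext ζ
    simp only [Set.mem_inter_iff, Set.mem_ofPred_eq, abs_lt]
    constructor
    · rintro ⟨⟨h1, h2⟩, h3, h4⟩
      exact ⟨⟨by linarith, by linarith⟩, h3, h4⟩
    · rintro ⟨⟨h1, h2⟩, h3, h4⟩
      exact ⟨⟨by linarith, by linarith⟩, h3, h4⟩
  rw [h]
  exact ((convex_halfSpace_im_gt _).inter (convex_halfSpace_im_lt _)).inter
    ((convex_halfSpace_re_gt _).inter (convex_halfSpace_re_lt _))

/-- HS-42: Lipschitz bound on a strip. -/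
theorem zeta_lip (S : Finset (ℕ × ℕ)) (hS : S.Nonempty) {c₀ : ℝ} (hc₀ : 0 < c₀) (hc₀' : c₀ ≤ 1) :
    ∃ C : ℝ, 0 < C ∧ ∀ (β : ℕ × ℕ → ℂ), (∀ s ∈ S, β s ≠ 0) → ∀ (φ R : ℝ) (g : ℂ → ℂ), 1 ≤ R →
      DifferentiableOn ℂ g {ζ | |ζ.im - φ| < 2 * c₀ ∧ |ζ.re| < 5 * R} →
      (∀ ζ ∈ {ζ : ℂ | |ζ.im - φ| < 2 * c₀ ∧ |ζ.re| < 5 * R},
        ∑ s ∈ S, β s * Complex.exp (s.1 * ζ + s.2 * g ζ) = 0) →
      ∀ ζ ∈ {ζ : ℂ | |ζ.im - φ| < c₀ ∧ |ζ.re| < 4 * R},
        ∀ ζ' ∈ {ζ : ℂ | |ζ.im - φ| < c₀ ∧ |ζ.re| < 4 * R}, ‖g ζ - g ζ'‖ ≤ C * ‖ζ - ζ'‖ := by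
  classical
  obtain ⟨C, hC, hld⟩ := log_deriv_bound (S.sup Prod.fst)
  refine ⟨C / c₀, by positivity, ?_⟩
  intro β hβ φ R g hR hg hrel ζ hζ ζ' hζ'
  set B : Polynomial (Polynomial ℂ) :=
    ∑ s ∈ S, Polynomial.monomial s.1 (Polynomial.monomial s.2 (β s)) with hB
  have hB0 : B ≠ 0 := by
    obtain ⟨s, hs⟩ := hS
    intro h0
    have h1 : (B.coeff s.1).coeff s.2 = β s := by
      rw [hB, Polynomial.finsetSum_coeff, Polynomial.finsetSum_coeff, Finset.sum_eq_single s]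
      · simp
      · intro t _ hts
        rw [Polynomial.coeff_monomial]
        split_ifs with h2
        · rw [Polynomial.coeff_monomial]
          split_ifs with h3
          · exact absurd (Prod.ext h2 h3) hts
          · rfl
        · simp
      · intro h; exact absurd hs h
    rw [h0] at h1
    exact hβ s hs (by simpa using h1.symm)
  have hBd : B.natDegree ≤ S.sup Prod.fst := by
    refine Polynomial.natDegree_sum_le_of_forall_le S _ fun s hs => ?_
    exact (Polynomial.natDegree_monomial_le _).trans (Finset.le_sup (f := Prod.fst) hs)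
  have hev : ∀ ξ : ℂ, (B.map (Polynomial.evalRingHom (Complex.exp (g ξ)))).eval (Complex.exp ξ) =
      ∑ s ∈ S, β s * Complex.exp (s.1 * ξ + s.2 * g ξ) := by
    intro ξ
    rw [hB, Polynomial.map_sum, Polynomial.eval_finsetSum]
    refine Finset.sum_congr rfl fun s _ => ?_
    rw [Polynomial.map_monomial, Polynomial.eval_monomial, Polynomial.coe_evalRingHom,
      Polynomial.eval_monomial, Complex.exp_add, Complex.exp_nat_mul, Complex.exp_nat_mul]
    ring
  have hball : ∀ ξ ∈ {ζ : ℂ | |ζ.im - φ| < c₀ ∧ |ζ.re| < 4 * R},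
      ball ξ c₀ ⊆ {ζ : ℂ | |ζ.im - φ| < 2 * c₀ ∧ |ζ.re| < 5 * R} := by
    intro ξ hξ z hz
    rw [mem_ball, dist_eq_norm] at hz
    obtain ⟨h1, h2⟩ := hξ
    have h3 := Complex.abs_im_le_norm (z - ξ)
    have h4 := Complex.abs_re_le_norm (z - ξ)
    rw [Complex.sub_im] at h3
    rw [Complex.sub_re] at h4
    have h5 : |z.im - φ| ≤ |z.im - ξ.im| + |ξ.im - φ| := abs_sub_le _ _ _
    have h6 : |z.re| ≤ |z.re - ξ.re| + |ξ.re| := by
      have := abs_add_le (z.re - ξ.re) ξ.re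
      rwa [sub_add_cancel] at this
    exact ⟨by linarith, by linarith⟩
  have hder : ∀ ξ ∈ {ζ : ℂ | |ζ.im - φ| < c₀ ∧ |ζ.re| < 4 * R}, ‖deriv g ξ‖ ≤ C / c₀ := by
    intro ξ hξ
    refine hld g ξ c₀ hc₀ (by linarith [Real.pi_gt_three]) (hg.mono (hball ξ hξ)) B hB0 hBd ?_
    intro z hz
    rw [hev]
    exact hrel z (hball ξ hξ hz)
  have hdiff : ∀ ξ ∈ {ζ : ℂ | |ζ.im - φ| < c₀ ∧ |ζ.re| < 4 * R}, DifferentiableAt ℂ g ξ := by
    intro ξ hξ
    exact (hg.mono (hball ξ hξ)).differentiableAt (isOpen_ball.mem_nhds (mem_ball_self hc₀))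
  exact (zl_convex c₀ φ (4 * R)).norm_image_sub_le_of_norm_deriv_le hdiff hder hζ' hζ

end Pool.Agent.Lib.MP_209724_lc.HS
end

section

namespace Pool.Agent.Lib.MP_209724_lc.HS

open MvPolynomial Filter Topology Metric
open MV (lead evT glue)
open GC (evM)

/-- The real vector with `l`-th coordinate `t` and the other coordinates given by `β`. -/
private noncomputable def dglue {n : ℕ} (l : Fin n) (β : {j : Fin n // j ≠ l} → ℝ) (t : ℝ) :
    Fin n → ℝ := fun i => if h : i = l then t else β ⟨i, h⟩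

private lemma dglue_self {n : ℕ} (l : Fin n) (β : {j : Fin n // j ≠ l} → ℝ) (t : ℝ) :
    dglue l β t l = t := by simp [dglue]

private lemma dglue_ne {n : ℕ} (l : Fin n) (β : {j : Fin n // j ≠ l} → ℝ) (t : ℝ)
    (j : {j : Fin n // j ≠ l}) : dglue l β t j = β j := by
  unfold dglue
  rw [dif_neg j.2]

private lemma dglue_eta {n : ℕ} (l : Fin n) (b : Fin n → ℝ) :
    dglue l (fun j => b j) (b l) = b := by
  funext i
  by_cases h : i = l
  · rw [h, dglue_self]
  · exact dglue_ne l _ _ ⟨i, h⟩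

private lemma dglue_continuous {n : ℕ} (l : Fin n) :
    Continuous fun p : ({j : Fin n // j ≠ l} → ℝ) × ℝ => dglue l p.1 p.2 := by
  refine continuous_pi fun i => ?_
  by_cases h : i = l
  · subst h
    simp only [dglue_self]
    exact continuous_snd
  · have : ∀ p : ({j : Fin n // j ≠ l} → ℝ) × ℝ, dglue l p.1 p.2 i = p.1 ⟨i, h⟩ := fun p =>
      dglue_ne l _ _ ⟨i, h⟩
    simp only [this]
    exact (continuous_apply _).comp continuous_fst

private lemma dglue_hasDerivAt {n : ℕ} (l : Fin n) (p : MvPolynomial (Fin n) ℝ)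
    (β : {j : Fin n // j ≠ l} → ℝ) (t : ℝ) :
    HasDerivAt (fun t => eval (dglue l β t) p) (eval (dglue l β t) (pderiv l p)) t := by
  induction p using MvPolynomial.induction_on with
  | C a => simpa using hasDerivAt_const t a
  | add p q hp hq =>
    have h := hp.add hq
    have e : (fun t => eval (dglue l β t) (p + q)) =
        (fun t => eval (dglue l β t) p) + fun t => eval (dglue l β t) q := by
      funext s
      simp
    rw [e, map_add, map_add]
    exact h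
  | mul_X p i hp =>
    have hX : HasDerivAt (fun t => dglue l β t i) (if i = l then 1 else 0) t := by
      by_cases h : i = l
      · rw [if_pos h, h]
        simp only [dglue_self]
        exact hasDerivAt_id t
      · rw [if_neg h]
        have : ∀ s, dglue l β s i = β ⟨i, h⟩ := fun s => dglue_ne l _ _ ⟨i, h⟩
        simp only [this]
        exact hasDerivAt_const _ _
    have h := hp.mul hX
    have e1 : (fun t => eval (dglue l β t) (p * X i)) =
        fun t => eval (dglue l β t) p * dglue l β t i := by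
      funext s
      rw [map_mul, eval_X]
    have e2 : eval (dglue l β t) (pderiv l (p * X i)) =
        eval (dglue l β t) (pderiv l p) * dglue l β t i +
          eval (dglue l β t) p * (if i = l then 1 else 0) := by
      rw [Derivation.leibniz, smul_eq_mul, smul_eq_mul, map_add, map_mul, map_mul, eval_X,
        pderiv_X, Pi.single_apply]
      by_cases h : i = l
      · rw [if_pos h, if_pos h, map_one]
        ring
      · rw [if_neg h, if_neg h, map_zero]
        ring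
    rw [e1, e2]
    exact h

/-- Near a smooth point, every point of `ℝ^J` lifts to a zero. -/
private lemma dproject {n : ℕ} (l : Fin n) (qR : MvPolynomial (Fin n) ℝ) (b₁ : Fin n → ℝ)
    (h0 : eval b₁ qR = 0) (hl : eval b₁ (pderiv l qR) ≠ 0) (U : Set (Fin n → ℝ)) (hU : IsOpen U)
    (hb : b₁ ∈ U) :
    ∃ V : Set ({j : Fin n // j ≠ l} → ℝ), IsOpen V ∧ V.Nonempty ∧
      ∀ β ∈ V, ∃ t, eval (dglue l β t) qR = 0 ∧ dglue l β t ∈ U := by
  set β₁ : {j : Fin n // j ≠ l} → ℝ := fun j => b₁ j with hβ₁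
  set t₁ : ℝ := b₁ l with ht₁
  have hglue : dglue l β₁ t₁ = b₁ := dglue_eta l b₁
  have hpre : IsOpen ((fun p : ({j : Fin n // j ≠ l} → ℝ) × ℝ => dglue l p.1 p.2) ⁻¹' U) :=
    hU.preimage (dglue_continuous l)
  have hmem : (β₁, t₁) ∈ ((fun p : ({j : Fin n // j ≠ l} → ℝ) × ℝ => dglue l p.1 p.2) ⁻¹' U) := by
    change dglue l β₁ t₁ ∈ U
    rw [hglue]
    exact hb
  obtain ⟨ε, hε, hball⟩ := Metric.isOpen_iff.mp hpre _ hmem
  have hder := dglue_hasDerivAt l qR β₁ t₁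
  rw [hglue] at hder
  have hf0 : eval (dglue l β₁ t₁) qR = 0 := by rw [hglue]; exact h0
  obtain ⟨s, hs, hsneg⟩ : ∃ s ∈ ball t₁ ε, eval (dglue l β₁ s) qR < 0 := by
    by_contra hcon
    push Not at hcon
    apply hl
    have hmin : IsLocalMin (fun t => eval (dglue l β₁ t) qR) t₁ := by
      filter_upwards [ball_mem_nhds t₁ hε] with s hs
      rw [hf0]
      exact hcon s hs
    exact hmin.hasDerivAt_eq_zero hder
  obtain ⟨s', hs', hspos⟩ : ∃ s' ∈ ball t₁ ε, 0 < eval (dglue l β₁ s') qR := by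
    by_contra hcon
    push Not at hcon
    apply hl
    have hmax : IsLocalMax (fun t => eval (dglue l β₁ t) qR) t₁ := by
      filter_upwards [ball_mem_nhds t₁ hε] with s hs
      rw [hf0]
      exact hcon s hs
    exact hmax.hasDerivAt_eq_zero hder
  have hcont : ∀ s : ℝ, Continuous fun β : {j : Fin n // j ≠ l} → ℝ => eval (dglue l β s) qR :=
    fun s => (MvPolynomial.continuous_eval qR).comp
      ((dglue_continuous l).comp (continuous_id.prodMk continuous_const))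
  have hcont2 : ∀ β : {j : Fin n // j ≠ l} → ℝ, Continuous fun s : ℝ => eval (dglue l β s) qR :=
    fun β => (MvPolynomial.continuous_eval qR).comp
      ((dglue_continuous l).comp (continuous_const.prodMk continuous_id))
  refine ⟨ball β₁ ε ∩ ({β | eval (dglue l β s) qR < 0} ∩ {β | 0 < eval (dglue l β s') qR}),
    isOpen_ball.inter ((isOpen_lt (hcont s) continuous_const).inter
      (isOpen_lt continuous_const (hcont s'))), ⟨β₁, mem_ball_self hε, hsneg, hspos⟩, ?_⟩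
  rintro β ⟨hβ, hβneg, hβpos⟩
  have hivt := intermediate_value_uIcc (a := s) (b := s')
    (f := fun t => eval (dglue l β t) qR) (hcont2 β).continuousOn
  obtain ⟨t, ht, ht0⟩ := hivt (Set.mem_uIcc.mpr (Or.inl ⟨le_of_lt hβneg, le_of_lt hβpos⟩))
  refine ⟨t, ht0, ?_⟩
  have htb : t ∈ ball t₁ ε := (convex_ball t₁ ε).ordConnected.uIcc_subset hs hs' ht
  have hmem2 : (β, t) ∈ ball (β₁, t₁) ε := by
    rw [← ball_prod_same]
    exact ⟨hβ, htb⟩
  exact hball hmem2

/-- A polynomial which vanishes on an open set of real points is zero. -/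
private lemma dzero {ι : Type*} [Fintype ι] (P : MvPolynomial ι ℂ) (V : Set (ι → ℝ))
    (hV : IsOpen V) (hne : V.Nonempty) (h : ∀ β ∈ V, eval (fun j => (β j : ℂ)) P = 0) : P = 0 := by
  obtain ⟨β₀, hβ₀⟩ := hne
  obtain ⟨ε, hε, hball⟩ := Metric.isOpen_iff.mp hV β₀ hβ₀
  refine MvPolynomial.funext_set (fun j => (fun x : ℝ => (x : ℂ)) '' Metric.ball (β₀ j) ε) ?_ ?_
  · intro j
    refine Set.Infinite.image (Complex.ofReal_injective.injOn) ?_
    rw [Real.ball_eq_Ioo]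
    exact Set.Ioo_infinite (by linarith)
  · intro x hx
    have hx' : ∀ j, ∃ y ∈ Metric.ball (β₀ j) ε, (y : ℂ) = x j := fun j => hx j (Set.mem_univ j)
    choose y hy hyx using hx'
    have hyV : y ∈ V := hball (by
      rw [ball_pi _ hε]
      exact fun j _ => hy j)
    have hxy : x = fun j => (y j : ℂ) := by
      funext j
      exact (hyx j).symm
    rw [hxy, h y hyV, map_zero]

/-- Substitution of `X l`. -/
private noncomputable def dsub {n : ℕ} (l : Fin n) (c : {j : Fin n // j ≠ l} → ℂ) :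
    MvPolynomial (Fin n) ℂ →ₐ[ℂ] MvPolynomial {j : Fin n // j ≠ l} ℂ :=
  aeval fun i => if h : i = l then ∑ j, C (c j) * X j else X ⟨i, h⟩

private lemma dsub_dvd {n : ℕ} (l : Fin n) (c : {j : Fin n // j ≠ l} → ℂ)
    (p : MvPolynomial (Fin n) ℂ) :
    (X l - ∑ j : {j : Fin n // j ≠ l}, C (c j) * X (j : Fin n)) ∣
      p - rename (Subtype.val) (dsub l c p) := by
  induction p using MvPolynomial.induction_on with
  | C a =>
    rw [← MvPolynomial.algebraMap_eq, AlgHom.commutes, AlgHom.commutes, sub_self]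
    exact dvd_zero _
  | add p q hp hq =>
    rw [map_add, map_add, add_sub_add_comm]
    exact dvd_add hp hq
  | mul_X p i hp =>
    have hX : (X l - ∑ j : {j : Fin n // j ≠ l}, C (c j) * X (j : Fin n)) ∣
        (X i : MvPolynomial (Fin n) ℂ) - rename (Subtype.val) (dsub l c (X i)) := by
      by_cases h : i = l
      · subst h
        have : rename (Subtype.val) (dsub i c (X i)) =
            ∑ j : {j : Fin n // j ≠ i}, C (c j) * X (j : Fin n) := by
          simp [dsub]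
        rw [this]
      · have : rename (Subtype.val) (dsub l c (X i)) = (X i : MvPolynomial (Fin n) ℂ) := by
          simp [dsub, h]
        rw [this, sub_self]
        exact dvd_zero _
    rw [map_mul, map_mul]
    have e : p * X i - rename (Subtype.val) (dsub l c p) * rename (Subtype.val) (dsub l c (X i)) =
        (p - rename (Subtype.val) (dsub l c p)) * X i +
          rename (Subtype.val) (dsub l c p) * (X i - rename (Subtype.val) (dsub l c (X i))) := by
      ring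
    rw [e]
    exact dvd_add (Dvd.dvd.mul_right hp _) (Dvd.dvd.mul_left hX _)

private lemma dsub_eval {n : ℕ} (l : Fin n) (c : {j : Fin n // j ≠ l} → ℂ)
    (p : MvPolynomial (Fin n) ℂ) (β : {j : Fin n // j ≠ l} → ℂ) :
    eval β (dsub l c p) =
      eval (fun i => if h : i = l then ∑ j, c j * β j else β ⟨i, h⟩) p := by
  induction p using MvPolynomial.induction_on with
  | C a => simp [dsub]
  | add p q hp hq => rw [map_add, map_add, map_add, hp, hq]
  | mul_X p i hp =>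
    rw [map_mul, map_mul, map_mul, hp, eval_X]
    congr 1
    by_cases h : i = l
    · simp [dsub, h]
    · simp [dsub, h]

private lemma dsub_factor {n : ℕ} (l : Fin n) (c : {j : Fin n // j ≠ l} → ℂ)
    (q : MvPolynomial (Fin n) ℂ) (hq : Irreducible q) (h : dsub l c q = 0) :
    ∃ k : ℂ, k ≠ 0 ∧ q = C k * (X l - ∑ j : {j : Fin n // j ≠ l}, C (c j) * X (j : Fin n)) := by
  have h1 := dsub_dvd l c q
  rw [h, map_zero, sub_zero] at h1
  obtain ⟨r, hr⟩ := h1
  rcases hq.isUnit_or_isUnit hr with hu | hu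
  · exfalso
    have h2 := hu.map (eval (0 : Fin n → ℂ))
    have h3 : eval (0 : Fin n → ℂ)
        (X l - ∑ j : {j : Fin n // j ≠ l}, C (c j) * X (j : Fin n)) = 0 := by
      simp
    rw [h3] at h2
    exact not_isUnit_zero h2
  · obtain ⟨k, hk, rfl⟩ := MvPolynomial.isUnit_iff_eq_C_of_isReduced.mp hu
    exact ⟨k, hk.ne_zero, by rw [hr, mul_comm]⟩

private lemma dreal {n : ℕ} (p : MvPolynomial (Fin n) ℝ) (b : Fin n → ℝ) :
    eval (fun i => (b i : ℂ)) (MvPolynomial.map (algebraMap ℝ ℂ) p) = ((eval b p : ℝ) : ℂ) := by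
  induction p using MvPolynomial.induction_on with
  | C a => simp
  | add p q hp hq => rw [map_add, map_add, map_add, hp, hq, Complex.ofReal_add]
  | mul_X p i hp => rw [map_mul, map_mul, map_mul, hp]; simp

/-- HS-17: rational hyperplane or irrational tangent plane at a generic point. -/
theorem dichotomy {n : ℕ} (l : Fin n) (q : MvPolynomial (Fin n) ℂ) (qR : MvPolynomial (Fin n) ℝ)
    {d : ℕ} (hd : 0 < d) (hq : q.IsHomogeneous d) (hqirr : Irreducible q)
    (hqR : MvPolynomial.map (algebraMap ℝ ℂ) qR = q) (g : MvPolynomial (Fin n) ℂ)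
    (b₀ : Fin n → ℝ) (h0 : eval (fun i => (b₀ i : ℂ)) q = 0)
    (hl : eval (fun i => (b₀ i : ℂ)) (pderiv l q) ≠ 0)
    (hg : eval (fun i => (b₀ i : ℂ)) g ≠ 0) :
    (∃ (c' : {j : Fin n // j ≠ l} → ℚ) (k : ℂ), k ≠ 0 ∧
      q = C k * (X l - ∑ j : {j : Fin n // j ≠ l}, C (c' j : ℂ) * X (j : Fin n))) ∨
    ∀ cs : (Fin n → ℤ) → MvPolynomial {j : Fin n // j ≠ l} ℂ, (∀ μ, cs μ ≠ 0) →
      ∃ b : Fin n → ℝ, eval (fun i => (b i : ℂ)) q = 0 ∧
        eval (fun i => (b i : ℂ)) (pderiv l q) ≠ 0 ∧ eval (fun i => (b i : ℂ)) g ≠ 0 ∧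
        (∀ μ, eval (fun j : {j : Fin n // j ≠ l} => (b j : ℂ)) (cs μ) ≠ 0) ∧
        ∃ j : {j : Fin n // j ≠ l}, Irrational
          (-(eval (fun i => (b i : ℂ)) (pderiv (j : Fin n) q) /
            eval (fun i => (b i : ℂ)) (pderiv l q)).re) := by
  classical
  by_cases hS : ∀ cs : (Fin n → ℤ) → MvPolynomial {j : Fin n // j ≠ l} ℂ, (∀ μ, cs μ ≠ 0) →
      ∃ b : Fin n → ℝ, eval (fun i => (b i : ℂ)) q = 0 ∧
        eval (fun i => (b i : ℂ)) (pderiv l q) ≠ 0 ∧ eval (fun i => (b i : ℂ)) g ≠ 0 ∧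
        (∀ μ, eval (fun j : {j : Fin n // j ≠ l} => (b j : ℂ)) (cs μ) ≠ 0) ∧
        ∃ j : {j : Fin n // j ≠ l}, Irrational
          (-(eval (fun i => (b i : ℂ)) (pderiv (j : Fin n) q) /
            eval (fun i => (b i : ℂ)) (pderiv l q)).re)
  · exact Or.inr hS
  left
  push Not at hS
  obtain ⟨cs, hcs, hfail⟩ := hS
  -- real versions
  have hqe : ∀ b : Fin n → ℝ, eval (fun i => (b i : ℂ)) q = ((eval b qR : ℝ) : ℂ) := by
    intro b
    rw [← hqR, dreal]
  have hpe : ∀ (b : Fin n → ℝ) (i : Fin n), eval (fun i => (b i : ℂ)) (pderiv i q) =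
      ((eval b (pderiv i qR) : ℝ) : ℂ) := by
    intro b i
    rw [← hqR, pderiv_map, dreal]
  have hcoe : Continuous fun b : Fin n → ℝ => fun i => (b i : ℂ) :=
    continuous_pi fun i => Complex.continuous_ofReal.comp (continuous_apply i)
  have hcoe' : Continuous fun b : Fin n → ℝ => fun j : {j : Fin n // j ≠ l} => (b j : ℂ) :=
    continuous_pi fun j => Complex.continuous_ofReal.comp (continuous_apply (j : Fin n))
  have hcev : ∀ P : MvPolynomial (Fin n) ℂ, Continuous fun b : Fin n → ℝ =>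
      eval (fun i => (b i : ℂ)) P := fun P => (MvPolynomial.continuous_eval P).comp hcoe
  have hcev' : ∀ P : MvPolynomial {j : Fin n // j ≠ l} ℂ, Continuous fun b : Fin n → ℝ =>
      eval (fun j : {j : Fin n // j ≠ l} => (b j : ℂ)) P := fun P =>
    (MvPolynomial.continuous_eval P).comp hcoe'
  set O : Set (Fin n → ℝ) := {b | eval (fun i => (b i : ℂ)) (pderiv l q) ≠ 0} ∩
    {b | eval (fun i => (b i : ℂ)) g ≠ 0} with hO
  have hOopen : IsOpen O := (isOpen_ne_fun (hcev _) continuous_const).inter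
    (isOpen_ne_fun (hcev _) continuous_const)
  set Z : Set (Fin n → ℝ) := {b | eval (fun i => (b i : ℂ)) q = 0} ∩ O with hZ
  have hZlc : IsLocallyClosed Z :=
    (isClosed_eq (hcev q) continuous_const).isLocallyClosed.inter hOopen.isLocallyClosed
  have hZ0 : b₀ ∈ Z := ⟨h0, hl, hg⟩
  have : LocallyCompactSpace Z := hZlc.locallyCompactSpace
  have : Nonempty Z := ⟨⟨b₀, hZ0⟩⟩
  let F : (({j : Fin n // j ≠ l} → ℚ) ⊕ (Fin n → ℤ)) → Set Z := fun s =>
    match s with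
    | Sum.inl c => {b : Z | ∀ j : {j : Fin n // j ≠ l},
        eval (fun i => ((b : Fin n → ℝ) i : ℂ)) (pderiv (j : Fin n) q) =
          -(c j : ℂ) * eval (fun i => ((b : Fin n → ℝ) i : ℂ)) (pderiv l q)}
    | Sum.inr μ => {b : Z |
        eval (fun j : {j : Fin n // j ≠ l} => ((b : Fin n → ℝ) j : ℂ)) (cs μ) = 0}
  have hFc : ∀ s, IsClosed (F s) := by
    rintro (c | μ)
    · have : F (Sum.inl c) = ⋂ j : {j : Fin n // j ≠ l}, {b : Z |
        eval (fun i => ((b : Fin n → ℝ) i : ℂ)) (pderiv (j : Fin n) q) =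
          -(c j : ℂ) * eval (fun i => ((b : Fin n → ℝ) i : ℂ)) (pderiv l q)} := by
        ext b
        simp only [Set.mem_iInter]
        rfl
      rw [this]
      refine isClosed_iInter fun j => ?_
      exact isClosed_eq ((hcev _).comp continuous_subtype_val)
        (continuous_const.mul ((hcev _).comp continuous_subtype_val))
    · exact isClosed_eq ((hcev' _).comp continuous_subtype_val) continuous_const
  have hFU : ⋃ s, F s = Set.univ := by
    refine Set.eq_univ_of_forall fun b => ?_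
    rw [Set.mem_iUnion]
    by_cases hb : ∀ μ, eval (fun j : {j : Fin n // j ≠ l} => ((b : Fin n → ℝ) j : ℂ)) (cs μ) ≠ 0
    · have h1 := hfail b b.2.1 b.2.2.1 b.2.2.2 hb
      have h2 : ∀ j : {j : Fin n // j ≠ l}, ∃ r : ℚ, (r : ℝ) =
          (-(eval (fun i => ((b : Fin n → ℝ) i : ℂ)) (pderiv (j : Fin n) q) /
            eval (fun i => ((b : Fin n → ℝ) i : ℂ)) (pderiv l q)).re) := by
        intro j
        have := h1 j
        unfold Irrational at this
        rw [not_not] at this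
        exact this
      choose c hc using h2
      refine ⟨Sum.inl c, fun j => ?_⟩
      have hy : eval (b : Fin n → ℝ) (pderiv l qR) ≠ 0 := by
        intro h0
        apply b.2.2.1
        rw [hpe, h0, Complex.ofReal_zero]
      have h3 := hc j
      rw [hpe, hpe, ← Complex.ofReal_div, Complex.ofReal_re] at h3
      have h4 : eval (b : Fin n → ℝ) (pderiv (j : Fin n) qR) =
          -(c j : ℝ) * eval (b : Fin n → ℝ) (pderiv l qR) := by
        rw [h3, neg_neg, div_mul_cancel₀ _ hy]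
      rw [hpe, hpe, h4]
      push_cast
      ring
    · push Not at hb
      obtain ⟨μ, hμ⟩ := hb
      exact ⟨Sum.inr μ, hμ⟩
  obtain ⟨s, b₁, hb₁⟩ := nonempty_interior_of_iUnion_of_closed hFc hFU
  obtain ⟨W, hWF, hWopen, hbW⟩ := mem_interior.mp hb₁
  obtain ⟨U, hUopen, hUW⟩ := isOpen_induced_iff.mp hWopen
  have hb₁U : (b₁ : Fin n → ℝ) ∈ U := by
    have : b₁ ∈ Subtype.val ⁻¹' U := by rw [hUW]; exact hbW
    exact this
  have hb₁0 : eval (b₁ : Fin n → ℝ) qR = 0 := by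
    have := b₁.2.1
    change eval (fun i => ((b₁ : Fin n → ℝ) i : ℂ)) q = 0 at this
    rw [hqe] at this
    exact_mod_cast this
  have hb₁l : eval (b₁ : Fin n → ℝ) (pderiv l qR) ≠ 0 := by
    intro h0
    apply b₁.2.2.1
    rw [hpe, h0, Complex.ofReal_zero]
  obtain ⟨V, hVopen, hVne, hV⟩ := dproject l qR b₁ hb₁0 hb₁l (U ∩ O) (hUopen.inter hOopen)
    ⟨hb₁U, b₁.2.2⟩
  have hVF : ∀ β ∈ V, ∃ (t : ℝ) (hbZ : dglue l β t ∈ Z), (⟨dglue l β t, hbZ⟩ : Z) ∈ F s := by
    intro β hβ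
    obtain ⟨t, ht0, htU⟩ := hV β hβ
    have hbZ : dglue l β t ∈ Z := by
      refine ⟨?_, htU.2⟩
      change eval (fun i => (dglue l β t i : ℂ)) q = 0
      rw [hqe, ht0, Complex.ofReal_zero]
    refine ⟨t, hbZ, hWF ?_⟩
    rw [← hUW]
    exact htU.1
  rcases s with c | μ
  · -- the rational hyperplane
    have hpsi : dsub l (fun j => (c j : ℂ)) q = 0 := by
      refine dzero _ V hVopen hVne fun β hβ => ?_
      obtain ⟨t, hbZ, hbF⟩ := hVF β hβ
      have hbF' : ∀ j : {j : Fin n // j ≠ l},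
        eval (fun i => (dglue l β t i : ℂ)) (pderiv (j : Fin n) q) =
          -(c j : ℂ) * eval (fun i => (dglue l β t i : ℂ)) (pderiv l q) := hbF
      have hq0 : eval (fun i => (dglue l β t i : ℂ)) q = 0 := hbZ.1
      have hql : eval (fun i => (dglue l β t i : ℂ)) (pderiv l q) ≠ 0 := hbZ.2.1
      have heuler := congrArg (eval (fun i => (dglue l β t i : ℂ))) hq.sum_X_mul_pderiv
      rw [map_sum, map_nsmul, hq0, nsmul_zero,
        Fintype.sum_eq_add_sum_subtype_ne _ l] at heuler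
      simp only [map_mul, eval_X, hbF', dglue_ne, dglue_self] at heuler
      have h5 : (t : ℂ) = ∑ j : {j : Fin n // j ≠ l}, (c j : ℂ) * (β j : ℂ) := by
        have h6 : ((t : ℂ) - ∑ j : {j : Fin n // j ≠ l}, (c j : ℂ) * (β j : ℂ)) *
            eval (fun i => (dglue l β t i : ℂ)) (pderiv l q) = 0 := by
          rw [sub_mul, Finset.sum_mul, ← heuler, sub_eq_add_neg, ← Finset.sum_neg_distrib]
          congr 1
          refine Finset.sum_congr rfl fun j _ => ?_
          ring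
        have h7 := (mul_eq_zero.mp h6).resolve_right hql
        linear_combination h7
      rw [dsub_eval, ← hq0]
      congr 2
      funext i
      by_cases h : i = l
      · subst h
        rw [dif_pos rfl, dglue_self, h5]
      · rw [dif_neg h]
        have := dglue_ne l β t ⟨i, h⟩
        simp only at this
        rw [this]
    obtain ⟨k, hk, hqk⟩ := dsub_factor l _ q hqirr hpsi
    exact ⟨c, k, hk, hqk⟩
  · -- the family `cs`
    exfalso
    apply hcs μ
    refine dzero _ V hVopen hVne fun β hβ => ?_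
    obtain ⟨t, hbZ, hbF⟩ := hVF β hβ
    have hbF' : eval (fun j : {j : Fin n // j ≠ l} => (dglue l β t j : ℂ)) (cs μ) = 0 := hbF
    simpa only [dglue_ne] using hbF'

end Pool.Agent.Lib.MP_209724_lc.HS
end
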