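import Mathlib
import Pool.Agent.Lib.MP_209724_lc.SC.Ed3
import Pool.Agent.Lib.MP_209724_lc.HS.Branch
import Pool.Agent.Lib.MP_209724_lc.HS.Sector

section

namespace Pool.Agent.Lib.MP_209724_lc.HS

open MvPolynomial Filter Topology Metric
open MV (lead evT glue)
open GC (evM)

/-- algebraic dependence of `z` with one coordinate replaced, and a further element -/
private theorem exn_dep {ι M : Type} [Fintype ι] [Field M] [Algebra ℂ M] (z : ι → M)
    (hz : AlgebraicIndependent ℂ z) (A : Subalgebra ℂ M) (hzA : ∀ i, z i ∈ A)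
    (halg : ∀ x ∈ A, IsAlgebraic (Algebra.adjoin ℂ (Set.range z)) x) (w : Option ι → A) :
    ∃ H : MvPolynomial (Option ι) ℂ, H ≠ 0 ∧ aeval w H = 0 := by
  classical
  obtain ⟨z', hz'⟩ : ∃ z' : ι → A, z' = fun i => ⟨z i, hzA i⟩ := ⟨_, rfl⟩
  have himg : (Algebra.adjoin ℂ (Set.range z')).map A.val = Algebra.adjoin ℂ (Set.range z) := by
    rw [AlgHom.map_adjoin, ← Set.range_comp]
    congr 1
    rw [hz']
    rfl
  have hmem : ∀ r : Algebra.adjoin ℂ (Set.range z'), A.val (r : A) ∈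
      Algebra.adjoin ℂ (Set.range z) := by
    intro r
    rw [← himg]
    exact ⟨(r : A), r.2, rfl⟩
  let f : Algebra.adjoin ℂ (Set.range z') →+* Algebra.adjoin ℂ (Set.range z) :=
    RingHom.codRestrict ((A.val : A →+* M).comp
      (Algebra.adjoin ℂ (Set.range z')).val.toRingHom) (Algebra.adjoin ℂ (Set.range z)) hmem
  have hf : Function.Surjective f := by
    rintro ⟨x, hx⟩
    rw [← himg] at hx
    obtain ⟨y, hy, hyx⟩ := hx
    refine ⟨⟨y, hy⟩, ?_⟩
    apply Subtype.ext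
    exact hyx
  have hcomp : RingHom.comp (algebraMap (Algebra.adjoin ℂ (Set.range z)) M) f =
      RingHom.comp (A.val : A →+* M) (algebraMap (Algebra.adjoin ℂ (Set.range z')) A) :=
    RingHom.ext (fun r => rfl)
  have halg' : Algebra.IsAlgebraic (Algebra.adjoin ℂ (Set.range z')) A := by
    refine ⟨fun a => ?_⟩
    exact IsAlgebraic.of_ringHom_of_comp_eq f (A.val : A →+* M) (halg (a : M) a.2) hf
      Subtype.val_injective hcomp
  by_contra hcon
  push Not at hcon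
  have hind : AlgebraicIndependent ℂ w := by
    rw [algebraicIndependent_iff]
    intro p hp
    by_contra h0
    exact hcon p h0 hp
  have h1 := hind.cardinalMk_le_trdeg
  have h2 := Algebra.IsAlgebraic.trdeg_le_cardinalMk ℂ (Set.range z')
  have h3 : Cardinal.mk (Set.range z') ≤ Cardinal.mk ι := Cardinal.mk_range_le
  have h4 := (h1.trans h2).trans h3
  rw [Cardinal.mk_fintype, Cardinal.mk_fintype, Fintype.card_option, Nat.cast_le] at h4
  omega

/-- a function which does not change when one coordinate is moved is constant on a ball -/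
private theorem exn_const {ι : Type} [Fintype ι] [DecidableEq ι] (f : (ι → ℂ) → ℂ) (x₀ : ι → ℂ)
    (r : ℝ)
    (h : ∀ x ∈ ball x₀ r, ∀ i t, Function.update x i t ∈ ball x₀ r →
      f x = f (Function.update x i t)) : ∀ x ∈ ball x₀ r, f x = f x₀ := by
  intro x hx
  have hr : 0 < r := pos_of_mem_ball hx
  have hx' : ∀ j, dist (x j) (x₀ j) < r := (dist_pi_lt_iff hr).1 (mem_ball.1 hx)
  have key : ∀ S : Finset ι, (fun j => if j ∈ S then x₀ j else x j) ∈ ball x₀ r ∧
      f (fun j => if j ∈ S then x₀ j else x j) = f x := by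
    intro S
    induction S using Finset.induction_on with
    | empty => simpa using hx
    | insert i S hi ih =>
      have hmem : (fun j => if j ∈ insert i S then x₀ j else x j) ∈ ball x₀ r := by
        rw [mem_ball, dist_pi_lt_iff hr]
        intro j
        by_cases hj : j ∈ insert i S
        · rw [if_pos hj, dist_self]; exact hr
        · rw [if_neg hj]; exact hx' j
      have hupd : (fun j => if j ∈ insert i S then x₀ j else x j) =
          Function.update (fun j => if j ∈ S then x₀ j else x j) i (x₀ i) := by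
        funext j
        by_cases hj : j = i
        · subst hj
          rw [Function.update_self, if_pos (Finset.mem_insert_self _ _)]
        · rw [Function.update_of_ne hj]
          by_cases hjS : j ∈ S
          · rw [if_pos hjS, if_pos (Finset.mem_insert_of_mem hjS)]
          · rw [if_neg hjS, if_neg (by simp [hj, hjS])]
      refine ⟨hmem, ?_⟩
      rw [← ih.2, hupd]
      rw [hupd] at hmem
      exact (h _ ih.1 i (x₀ i) hmem).symm
  have h1 := (key Finset.univ).2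
  simp only [Finset.mem_univ, if_true] at h1
  exact h1.symm

/-- evaluation of a polynomial at a differentiable point -/
private theorem exn_diff {σ : Type} (H : MvPolynomial σ ℂ) (v : ℂ → σ → ℂ)
    (hv : ∀ i, Differentiable ℂ (fun T => v T i)) : Differentiable ℂ (fun T => eval (v T) H) := by
  induction H using MvPolynomial.induction_on with
  | C a => simp
  | add p q hp hq =>
    simp only [map_add]
    exact hp.add hq
  | mul_X p i hp =>
    simp only [map_mul, eval_X]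
    exact hp.mul (hv i)

/-- HS-32: exponentials of algebraic functions are not algebraic. -/
theorem exp_not_algebraic {ι M : Type} [Fintype ι] [Field M] [Algebra ℂ M] (z : ι → M)
    (hz : AlgebraicIndependent ℂ z) (A : Subalgebra ℂ M) (hA : A.FG) (hzA : ∀ i, z i ∈ A)
    (halg : ∀ x ∈ A, IsAlgebraic (Algebra.adjoin ℂ (Set.range z)) x) (s u : A)
    (hs : ∀ c : ℂ, s ≠ algebraMap ℂ A c) (K : ℂ) (hK : K ≠ 0) (D : Set (ι → ℂ)) (hDo : IsOpen D)
    (hDn : D.Nonempty) (Φ : (ι → ℂ) → (A →ₐ[ℂ] ℂ))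
    (hΦ : ∀ x ∈ D, ∀ i, Φ x ⟨z i, hzA i⟩ = x i)
    (hΦd : ∀ y : A, DifferentiableOn ℂ (fun x => Φ x y) D) (C : ℂ) (hC : C ≠ 0) :
    ¬ ∀ x ∈ D, Complex.exp (K * Φ x s) = C * Φ x u := by
  classical
  intro hE
  obtain ⟨x₀, hx₀⟩ := hDn
  obtain ⟨r, hr, hball⟩ := Metric.isOpen_iff.1 hDo x₀ hx₀
  -- (1) the function is not constant along some coordinate direction
  have step1 : ∃ x₁ ∈ ball x₀ r, ∃ i t, Function.update x₁ i t ∈ ball x₀ r ∧
      Φ x₁ s ≠ Φ (Function.update x₁ i t) s := by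
    by_contra hcon
    push Not at hcon
    have hconst := exn_const (fun x => Φ x s) x₀ r hcon
    obtain ⟨c, hc⟩ : ∃ c, c = Φ x₀ s := ⟨_, rfl⟩
    have hy0 : s - algebraMap ℂ A c ≠ 0 := sub_ne_zero.2 (hs c)
    have hle : Algebra.adjoin ℂ (Set.range z) ≤ A := by
      apply Algebra.adjoin_le
      rintro _ ⟨i, rfl⟩
      exact hzA i
    have hyM : ((s - algebraMap ℂ A c : A) : M) ∈ nonZeroDivisors M := by
      rw [mem_nonZeroDivisors_iff_ne_zero]
      intro h0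
      exact hy0 (Subtype.ext h0)
    obtain ⟨q, hq0, hq⟩ := (halg _ (s - algebraMap ℂ A c).2).exists_nonzero_coeff_and_aeval_eq_zero
      hyM
    obtain ⟨Q, hQ⟩ : ∃ Q : Polynomial A, Q = q.map (Subalgebra.inclusion hle).toRingHom := ⟨_, rfl⟩
    have hQ0 : Polynomial.eval (s - algebraMap ℂ A c) Q = 0 := by
      apply Subtype.val_injective
      have e1 : ((Polynomial.eval (s - algebraMap ℂ A c) Q : A) : M) =
          Polynomial.aeval ((s - algebraMap ℂ A c : A) : M) q := by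
        rw [hQ, Polynomial.eval_map, Polynomial.aeval_def]
        exact Polynomial.hom_eval₂ q (Subalgebra.inclusion hle).toRingHom (A.val : A →+* M) _
      rw [e1, hq]
      rfl
    have hadj : ∀ y ∈ Algebra.adjoin ℂ (Set.range z), ∃ p : MvPolynomial ι ℂ, aeval z p = y := by
      rw [Algebra.adjoin_range_eq_range_aeval]
      exact fun y hy => hy
    obtain ⟨p, hp⟩ := hadj _ (q.coeff 0).2
    have hp0 : p ≠ 0 := by
      rintro rfl
      rw [map_zero] at hp
      exact hq0 (Subtype.ext hp.symm)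
    apply hp0
    refine MvPolynomial.funext_set (fun i => ball (x₀ i) r) (fun i => ?_) ?_
    · exact infinite_of_mem_nhds (x₀ i) (ball_mem_nhds _ hr)
    · intro x hx
      have hxb : x ∈ ball x₀ r := by
        rw [mem_ball, dist_pi_lt_iff hr]
        exact fun j => hx j (Set.mem_univ j)
      have h1 : Φ x (s - algebraMap ℂ A c) = 0 := by
        rw [map_sub, AlgHom.commutes, hconst x hxb, ← hc]
        simp
      have h2 : Polynomial.eval (Φ x (s - algebraMap ℂ A c)) (Q.map (Φ x : A →+* ℂ)) = 0 := by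
        rw [Polynomial.eval_map]
        exact (Polynomial.eval₂_at_apply (p := Q) (Φ x : A →+* ℂ) _).trans (by rw [hQ0, map_zero])
      rw [h1, ← Polynomial.coeff_zero_eq_eval_zero, Polynomial.coeff_map, hQ,
        Polynomial.coeff_map] at h2
      have h3 : ((Subalgebra.inclusion hle).toRingHom (q.coeff 0) : A) =
          aeval (fun i => (⟨z i, hzA i⟩ : A)) p := by
        apply Subtype.val_injective
        have e2 : ((aeval (fun i => (⟨z i, hzA i⟩ : A)) p : A) : M) = aeval z p :=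
          MvPolynomial.comp_aeval_apply _ A.val p
        rw [e2, hp]
        rfl
      rw [h3] at h2
      have h4 : (Φ x : A →+* ℂ) (aeval (fun i => (⟨z i, hzA i⟩ : A)) p) = eval x p := by
        have e3 : Φ x (aeval (fun i => (⟨z i, hzA i⟩ : A)) p) =
            aeval (fun i => Φ x (⟨z i, hzA i⟩ : A)) p := MvPolynomial.comp_aeval_apply _ (Φ x) p
        have e4 : (fun i => Φ x (⟨z i, hzA i⟩ : A)) = x := funext (hΦ x (hball hxb))
        rw [e4] at e3
        exact e3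
      rw [h4] at h2
      rw [h2, map_zero]
  obtain ⟨x₁, hx₁, i, t, ht, hne⟩ := step1
  obtain ⟨f, hf⟩ : ∃ f : (ι → ℂ) → ℂ, f = fun x => Φ x s := ⟨_, rfl⟩
  have hfd : DifferentiableOn ℂ f (ball x₀ r) := by rw [hf]; exact (hΦd s).mono hball
  have hne' : f x₁ ≠ f (Function.update x₁ i t) := by rw [hf]; exact hne
  have hupc : ∀ τ : ℂ, Continuous (fun x : ι → ℂ => Function.update x i τ) := fun τ =>
    continuous_id.update i continuous_const
  -- (2) this persists near `x₁`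
  have step2 : ∀ᶠ x in 𝓝 x₁, x ∈ ball x₀ r ∧ Function.update x i t ∈ ball x₀ r ∧
      f x ≠ f (Function.update x i t) := by
    have a1 : ∀ᶠ x in 𝓝 x₁, x ∈ ball x₀ r := isOpen_ball.mem_nhds hx₁
    have a2 : ∀ᶠ x in 𝓝 x₁, Function.update x i t ∈ ball x₀ r :=
      (hupc t).continuousAt.preimage_mem_nhds (isOpen_ball.mem_nhds ht)
    have c1 : ContinuousAt f x₁ := hfd.continuousOn.continuousAt (isOpen_ball.mem_nhds hx₁)
    have c2 : ContinuousAt (fun x => f (Function.update x i t)) x₁ :=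
      ContinuousAt.comp (f := fun x : ι → ℂ => Function.update x i t)
        (hfd.continuousOn.continuousAt (isOpen_ball.mem_nhds ht)) (hupc t).continuousAt
    have a3 : ∀ᶠ x in 𝓝 x₁, f x ≠ f (Function.update x i t) := by
      have := (c1.sub c2).eventually_ne (sub_ne_zero.2 hne')
      exact this.mono (fun x hx => sub_ne_zero.1 hx)
    filter_upwards [a1, a2, a3] with x b1 b2 b3
    exact ⟨b1, b2, b3⟩
  obtain ⟨δ, hδ, hδb⟩ := Metric.eventually_nhds_iff_ball.1 step2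
  -- the algebraic relation
  obtain ⟨w, hw⟩ : ∃ w : Option ι → A, w = fun o => o.elim u
      (Function.update (fun m => (⟨z m, hzA m⟩ : A)) i s) := ⟨_, rfl⟩
  obtain ⟨H, hH0, hH⟩ := exn_dep z hz A hzA halg w
  -- the points at which `H` is evaluated
  obtain ⟨pt, hpt⟩ : ∃ pt : (ι → ℂ) → ℂ → ℂ → (Option ι → ℂ),
      pt = fun x a b o => o.elim b (Function.update x i a) := ⟨_, rfl⟩
  have hrel : ∀ y ∈ ball x₀ r, eval (pt y (f y) (Complex.exp (K * f y) / C)) H = 0 := by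
    intro y hy
    have h1 : Φ y (aeval w H) = aeval (fun o => Φ y (w o)) H :=
      MvPolynomial.comp_aeval_apply _ (Φ y) H
    rw [hH, map_zero] at h1
    have h2 : (fun o => Φ y (w o)) = pt y (f y) (Complex.exp (K * f y) / C) := by
      funext o
      rw [hw, hpt, hf]
      cases o with
      | none =>
        show Φ y u = Complex.exp (K * Φ y s) / C
        rw [hE y (hball hy), mul_div_cancel_left₀ _ hC]
      | some m =>
        show Φ y (Function.update (fun m => (⟨z m, hzA m⟩ : A)) i s m) =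
          Function.update y i (Φ y s) m
        by_cases hm : m = i
        · subst hm; rw [Function.update_self, Function.update_self]
        · rw [Function.update_of_ne hm, Function.update_of_ne hm]
          exact hΦ y (hball hy) m
    rw [h2] at h1
    exact h1.symm
  have hptu : ∀ x τ a b, pt (Function.update x i τ) a b = pt x a b := by
    intro x τ a b
    rw [hpt]
    funext o
    cases o with
    | none => rfl
    | some m =>
      show Function.update (Function.update x i τ) i a m = Function.update x i a m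
      rw [Function.update_idem]
  -- (3) the relation holds for all values of the function
  have step3 : ∀ x ∈ ball x₁ δ, ∀ T : ℂ, eval (pt x T (Complex.exp (K * T) / C)) H = 0 := by
    intro x hx
    obtain ⟨b1, b2, b3⟩ := hδb x hx
    have hx' : ∀ j, dist (x j) (x₀ j) < r := (dist_pi_lt_iff hr).1 (mem_ball.1 b1)
    have hW : ∀ τ ∈ ball (x₀ i) r, Function.update x i τ ∈ ball x₀ r := by
      intro τ hτ
      rw [mem_ball, dist_pi_lt_iff hr]
      intro j
      by_cases hj : j = i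
      · subst hj; rw [Function.update_self]; exact hτ
      · rw [Function.update_of_ne hj]; exact hx' j
    obtain ⟨g, hg⟩ : ∃ g : ℂ → ℂ, g = fun τ => f (Function.update x i τ) := ⟨_, rfl⟩
    have hgd : DifferentiableOn ℂ g (ball (x₀ i) r) := by
      rw [hg]
      refine hfd.comp (t := ball x₀ r) (g := f) (f := fun τ => Function.update x i τ) ?_ hW
      intro τ _
      refine DifferentiableAt.differentiableWithinAt ?_
      rw [differentiableAt_pi]
      intro j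
      by_cases hj : j = i
      · subst hj; simp only [Function.update_self]; exact differentiableAt_id
      · simp only [Function.update_of_ne hj]; exact differentiableAt_const _
    have hga : AnalyticOnNhd ℂ g (ball (x₀ i) r) := hgd.analyticOnNhd isOpen_ball
    have hxi : x i ∈ ball (x₀ i) r := hx' i
    have hti : t ∈ ball (x₀ i) r := by
      have := (dist_pi_lt_iff hr).1 (mem_ball.1 b2) i
      rwa [Function.update_self] at this
    have hgx : g (x i) = f x := by rw [hg]; simp only [Function.update_eq_self]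
    have hgne : ∀ᶠ τ in 𝓝[≠] (x i), g τ ≠ g (x i) := by
      rcases (hga (x i) hxi).eventually_eq_or_eventually_ne
        (analyticAt_const (v := g (x i))) with h1 | h1
      · exfalso
        have h2 := hga.eqOn_of_preconnected_of_eventuallyEq (g := fun _ => g (x i))
          (fun _ _ => analyticAt_const) (convex_ball _ _).isPreconnected hxi h1 hti
        simp only [hgx] at h2
        rw [hg] at h2
        exact b3 h2.symm
      · exact h1
    obtain ⟨E, hEd⟩ : ∃ E : ℂ → ℂ, E = fun T => eval (pt x T (Complex.exp (K * T) / C)) H :=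
      ⟨_, rfl⟩
    have hEdiff : Differentiable ℂ E := by
      rw [hEd]
      refine exn_diff H _ ?_
      intro o
      rw [hpt]
      cases o with
      | none =>
        show Differentiable ℂ (fun T => Complex.exp (K * T) / C)
        exact (Complex.differentiable_exp.comp (differentiable_id.const_mul K)).div_const C
      | some m =>
        show Differentiable ℂ (fun T => Function.update x i T m)
        by_cases hm : m = i
        · subst hm; simp only [Function.update_self]; exact differentiable_id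
        · simp only [Function.update_of_ne hm]; exact differentiable_const _
    have hEg : ∀ τ ∈ ball (x₀ i) r, E (g τ) = 0 := by
      intro τ hτ
      have h1 := hrel _ (hW τ hτ)
      rw [hptu] at h1
      rw [hEd, hg]
      exact h1
    have htend : Tendsto g (𝓝[≠] (x i)) (𝓝[≠] (g (x i))) := by
      rw [tendsto_nhdsWithin_iff]
      refine ⟨?_, hgne⟩
      exact ((hga (x i) hxi).continuousAt.tendsto).mono_left nhdsWithin_le_nhds
    have hfreq : ∃ᶠ T in 𝓝[≠] (g (x i)), E T = 0 := by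
      refine htend.frequently (p := fun T => E T = 0) ?_
      refine Eventually.frequently ?_
      have : ∀ᶠ τ in 𝓝 (x i), τ ∈ ball (x₀ i) r := isOpen_ball.mem_nhds hxi
      exact (this.filter_mono nhdsWithin_le_nhds).mono hEg
    have hEan : AnalyticOnNhd ℂ E Set.univ := fun T _ => hEdiff.analyticAt T
    have hE0 := hEan.eqOn_zero_of_preconnected_of_frequently_eq_zero isPreconnected_univ
      (Set.mem_univ _) hfreq
    intro T
    have := hE0 (Set.mem_univ T)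
    rw [hEd] at this
    exact this
  -- (4) all points
  have step4 : ∀ x ∈ ball x₁ δ, ∀ b : ℂ, b ≠ 0 → ∀ a : ℂ, eval (pt x a b) H = 0 := by
    intro x hx b hb a
    obtain ⟨L, hL⟩ : ∃ L : ℂ, Complex.exp L = C * b := ⟨_, Complex.exp_log (mul_ne_zero hC hb)⟩
    obtain ⟨h, hh⟩ : ∃ h : Polynomial ℂ, h = aeval (fun o : Option ι => o.elim (Polynomial.C b)
      (Function.update (fun m => Polynomial.C (x m)) i Polynomial.X)) H := ⟨_, rfl⟩
    have hev : ∀ a : ℂ, h.eval a = eval (pt x a b) H := by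
      intro a
      have h1 : Polynomial.aeval a h = aeval (fun o => Polynomial.aeval a
          ((o : Option ι).elim (Polynomial.C b)
          (Function.update (fun m => Polynomial.C (x m)) i Polynomial.X))) H := by
        rw [hh]
        exact MvPolynomial.comp_aeval_apply _ (Polynomial.aeval a) H
      have h2 : (fun o => Polynomial.aeval a ((o : Option ι).elim (Polynomial.C b)
          (Function.update (fun m => Polynomial.C (x m)) i Polynomial.X))) = pt x a b := by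
        rw [hpt]
        funext o
        cases o with
        | none => simp
        | some m =>
          show Polynomial.aeval a (Function.update (fun m => Polynomial.C (x m)) i
            Polynomial.X m) = Function.update x i a m
          by_cases hm : m = i
          · subst hm; simp
          · rw [Function.update_of_ne hm, Function.update_of_ne hm]; simp
      rw [h2] at h1
      exact h1
    have hroot : ∀ k : ℕ, h.IsRoot ((L + k * (2 * Real.pi * Complex.I)) / K) := by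
      intro k
      show h.eval _ = 0
      rw [hev]
      have h1 := step3 x hx ((L + k * (2 * Real.pi * Complex.I)) / K)
      have h2 : Complex.exp (K * ((L + k * (2 * Real.pi * Complex.I)) / K)) / C = b := by
        rw [mul_div_cancel₀ _ hK, Complex.exp_add, hL, Complex.exp_nat_mul_two_pi_mul_I, mul_one,
          mul_div_cancel_left₀ _ hC]
      rwa [h2] at h1
    have hinj : Function.Injective (fun k : ℕ => (L + k * (2 * Real.pi * Complex.I)) / K) := by
      intro k k' hkk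
      have h1 : (L + k * (2 * Real.pi * Complex.I)) = (L + k' * (2 * Real.pi * Complex.I)) := by
        have := congrArg (· * K) hkk
        simpa [div_mul_cancel₀ _ hK] using this
      have h2 := mul_right_cancel₀ Complex.two_pi_I_ne_zero (add_left_cancel h1)
      exact_mod_cast h2
    have hh0 : h = 0 := Polynomial.eq_zero_of_infinite_isRoot h
      ((Set.infinite_range_of_injective hinj).mono (by rintro _ ⟨k, rfl⟩; exact hroot k))
    rw [← hev, hh0, Polynomial.eval_zero]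
  -- (5) `H = 0`
  apply hH0
  refine MvPolynomial.funext_set (fun o : Option ι => o.elim ({0}ᶜ : Set ℂ)
    (fun m => if m = i then Set.univ else ball (x₁ m) δ)) ?_ ?_
  · intro o
    cases o with
    | none => exact (Set.finite_singleton (0:ℂ)).infinite_compl
    | some m =>
      show (if m = i then Set.univ else ball (x₁ m) δ : Set ℂ).Infinite
      by_cases hm : m = i
      · rw [if_pos hm]; exact Set.infinite_univ
      · rw [if_neg hm]; exact infinite_of_mem_nhds (x₁ m) (ball_mem_nhds _ hδ)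
  · intro v hv
    rw [map_zero]
    obtain ⟨x, hx⟩ : ∃ x : ι → ℂ, x = fun m => if m = i then x₁ i else v (some m) := ⟨_, rfl⟩
    have hxb : x ∈ ball x₁ δ := by
      rw [mem_ball, dist_pi_lt_iff hδ]
      intro m
      rw [hx]
      show dist (if m = i then x₁ i else v (some m)) (x₁ m) < δ
      by_cases hm : m = i
      · subst hm; rw [if_pos rfl, dist_self]; exact hδ
      · rw [if_neg hm]
        have h1 : v (some m) ∈ (if m = i then Set.univ else ball (x₁ m) δ : Set ℂ) :=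
          hv (some m) (Set.mem_univ _)
        rw [if_neg hm] at h1
        exact h1
    have hv0 : v none ≠ 0 := hv none (Set.mem_univ _)
    have hvp : v = pt x (v (some i)) (v none) := by
      rw [hpt, hx]
      funext o
      cases o with
      | none => rfl
      | some m =>
        show v (some m) = Function.update (fun m => if m = i then x₁ i else v (some m)) i
          (v (some i)) m
        by_cases hm : m = i
        · subst hm; rw [Function.update_self]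
        · rw [Function.update_of_ne hm, if_neg hm]
    rw [hvp]
    exact step4 x hxb _ hv0 _

end Pool.Agent.Lib.MP_209724_lc.HS
end

section

namespace Pool.Agent.Lib.MP_209724_lc.HS

open MvPolynomial Filter Topology Metric
open MV (lead evT glue)
open GC (evM)

/-- A real direction on which finitely many linear forms are not small. -/
private theorem rb_dir {ι α : Type*} [Fintype ι] [DecidableEq α] (S : Finset α)
    (G : α → ι → ℂ) : ∃ u : ι → ℝ, (∀ i, |u i| ≤ 1 - (1 / 4 : ℝ) ^ S.card) ∧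
      ∀ a ∈ S, (1 / 4 : ℝ) ^ S.card * ‖G a‖ ≤ ‖∑ i, (u i : ℂ) * G a i‖ := by
  classical
  induction S using Finset.induction_on with
  | empty => exact ⟨fun _ => 0, by simp, by simp⟩
  | insert a₀ S ha ih =>
    obtain ⟨u, hu1, hu2⟩ := ih
    set c : ℝ := (1 / 4 : ℝ) ^ S.card with hc
    have hc0 : 0 < c := by positivity
    have hcard : (1 / 4 : ℝ) ^ (insert a₀ S).card = c / 4 := by
      rw [Finset.card_insert_of_notMem ha, pow_succ, ← hc]; ring
    rw [hcard]
    by_cases hG : G a₀ = 0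
    · refine ⟨u, fun i => (hu1 i).trans (by linarith), ?_⟩
      intro a haS
      rcases Finset.mem_insert.1 haS with rfl | h
      · rw [hG]; simp
      · have h1 := hu2 a h
        have h2 := norm_nonneg (G a)
        nlinarith [mul_nonneg hc0.le h2]
    have hGpos : 0 < ‖G a₀‖ := norm_pos_iff.2 hG
    obtain ⟨i₀, hi₀⟩ : ∃ i, ‖G a₀‖ ≤ ‖G a₀ i‖ := by
      by_contra h
      push Not at h
      exact absurd ((pi_norm_lt_iff hGpos).2 h) (lt_irrefl _)
    have hsum : ∀ (τ : ℝ) (a : α), ∑ i, ((u i + if i = i₀ then τ else 0 : ℝ) : ℂ) * G a i =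
        ∑ i, (u i : ℂ) * G a i + τ * G a i₀ := by
      intro τ a
      have : ∀ i, ((u i + if i = i₀ then τ else 0 : ℝ) : ℂ) * G a i =
          (u i : ℂ) * G a i + if i = i₀ then (τ : ℂ) * G a i else 0 := by
        intro i
        split_ifs <;> push_cast <;> ring
      rw [Finset.sum_congr rfl fun i _ => this i, Finset.sum_add_distrib,
        Finset.sum_ite_eq' Finset.univ i₀, if_pos (Finset.mem_univ _)]
    have hold : ∀ τ : ℝ, |τ| ≤ c / 2 → ∀ a ∈ S,
        c / 4 * ‖G a‖ ≤ ‖∑ i, (u i : ℂ) * G a i + τ * G a i₀‖ := by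
      intro τ hτ a haS
      have h1 := hu2 a haS
      have h2 : ‖(τ : ℂ) * G a i₀‖ ≤ c / 2 * ‖G a‖ := by
        rw [norm_mul, Complex.norm_real, Real.norm_eq_abs]
        exact mul_le_mul hτ (norm_le_pi_norm _ _) (norm_nonneg _) (by linarith)
      have h3 := norm_sub_le_norm_add (∑ i, (u i : ℂ) * G a i) ((τ : ℂ) * G a i₀)
      have h4 := norm_nonneg (G a)
      nlinarith [mul_nonneg hc0.le h4]
    rcases le_total (c / 4 * ‖G a₀‖) ‖∑ i, (u i : ℂ) * G a₀ i‖ with hcase | hcase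
    · refine ⟨u, fun i => (hu1 i).trans (by linarith), ?_⟩
      intro a haS
      rcases Finset.mem_insert.1 haS with rfl | h
      · exact hcase
      · have h1 := hold 0 (by rw [abs_zero]; linarith) a h
        simpa using h1
    · refine ⟨fun i => u i + if i = i₀ then c / 2 else 0, ?_, ?_⟩
      · intro i
        refine (abs_add_le _ _).trans ?_
        have h1 : |if i = i₀ then c / 2 else 0| ≤ c / 2 := by
          split_ifs
          · rw [abs_of_nonneg (by linarith)]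
          · rw [abs_zero]; linarith
        have h2 := hu1 i
        linarith
      · intro a haS
        rw [hsum]
        rcases Finset.mem_insert.1 haS with rfl | h
        · have h1 : ‖((c / 2 : ℝ) : ℂ) * G a i₀‖ = c / 2 * ‖G a i₀‖ := by
            rw [norm_mul, Complex.norm_real, Real.norm_eq_abs, abs_of_nonneg (by linarith)]
          have h3 := norm_sub_le_norm_add (((c / 2 : ℝ) : ℂ) * G a i₀) (∑ i, (u i : ℂ) * G a i)
          rw [h1] at h3
          rw [add_comm]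
          nlinarith
        · exact hold (c / 2) (by rw [abs_of_nonneg (by linarith)]) a h

/-- `exp h` is not close to `1` if `h` is not close to `2πiℤ`. -/
private theorem rb_exp_sub_one {h : ℂ} {μ : ℝ} (hμ0 : 0 < μ) (hμ1 : μ ≤ 1)
    (hh : ∀ k : ℤ, μ ≤ ‖h - 2 * Real.pi * Complex.I * k‖) : μ / 2 ≤ ‖Complex.exp h - 1‖ := by
  by_contra hlt
  push Not at hlt
  set z := Complex.exp h - 1 with hz
  have hz2 : ‖z‖ ≤ 1 / 2 := by linarith
  have h1 := Complex.norm_log_one_add_half_le_self hz2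
  have h2 : (1 : ℂ) + z = Complex.exp h := by rw [hz]; ring
  have h3 : Complex.exp (Complex.log (1 + z)) = Complex.exp h := by
    rw [h2, Complex.exp_log (Complex.exp_ne_zero _)]
  obtain ⟨k, hk⟩ := Complex.exp_eq_exp_iff_exists_int.1 h3.symm
  have h4 := hh k
  have h5 : h - 2 * Real.pi * Complex.I * k = Complex.log (1 + z) := by
    rw [hk]; ring
  rw [h5] at h4
  linarith

/-- The operator norm on the sup-normed space is at most the sum of the entries. -/
private theorem rb_opNorm {ι : Type*} [Fintype ι] [DecidableEq ι] (L : (ι → ℂ) →L[ℂ] ℂ) :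
    ‖L‖ ≤ ∑ i, ‖L (Pi.single i 1)‖ := by
  refine L.opNorm_le_bound (Finset.sum_nonneg fun i _ => norm_nonneg _) fun x => ?_
  have h1 : L x = ∑ i, x i * L (Pi.single i 1) := by
    have h2 : x = ∑ i, x i • (Pi.single i 1 : ι → ℂ) := by
      ext j
      simp [Finset.sum_apply, Pi.single_apply]
    conv_lhs => rw [h2]
    rw [map_sum]
    simp
  rw [h1, Finset.sum_mul]
  refine (norm_sum_le _ _).trans (Finset.sum_le_sum fun i _ => ?_)
  rw [norm_mul, mul_comm]
  exact mul_le_mul_of_nonneg_left (norm_le_pi_norm _ _) (norm_nonneg _)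

private theorem rb_apply_sum {ι : Type*} [Fintype ι] [DecidableEq ι] (L : (ι → ℂ) →L[ℂ] ℂ)
    (x : ι → ℂ) : L x = ∑ i, x i * L (Pi.single i 1) := by
  have h2 : x = ∑ i, x i • (Pi.single i 1 : ι → ℂ) := by
    ext j
    simp [Finset.sum_apply, Pi.single_apply]
  conv_lhs => rw [h2]
  rw [map_sum]
  simp

/-- Among points on a short segment in a real direction, one keeps away from `2πiℤ` for all
functions. -/
private theorem rb_core {ι α : Type*} [Fintype ι] [DecidableEq ι] [DecidableEq α] (S : Finset α)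
    (ε' C₁ C₂ : ℝ) (hε' : 0 < ε') (hC₁ : 1 ≤ C₁) (hC₂ : 0 ≤ C₂) :
    ∃ ε₁ c₃ : ℝ, 0 < ε₁ ∧ 0 < c₃ ∧ c₃ * C₂ ≤ 1 ∧
      ∀ (w : ι → ℂ) (H : α → (ι → ℂ) → ℂ) (B : α → (ι → ℂ) → ι → ℂ),
      (∀ a ∈ S, ∀ v ∈ ball w ε', DifferentiableAt ℂ (H a) v) →
      (∀ a ∈ S, ∀ v ∈ ball w ε', ∀ i, fderiv ℂ (H a) v (Pi.single i 1) = B a v i) →
      (∀ a ∈ S, ∀ v ∈ ball w ε', C₁ * ‖v - w‖ ≤ 1 → ∀ i,
        ‖B a v i - B a w i‖ ≤ 2 * C₁ * ‖v - w‖ * ‖B a w i‖) →
      (∀ a ∈ S, ‖B a w‖ ≤ C₂) →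
      ∃ y : ι → ℝ, (∀ v ∈ ball (w + fun i => Complex.I * y i) ε₁, v ∈ ball w ε') ∧
        ∀ a ∈ S, ∀ v ∈ ball (w + fun i => Complex.I * y i) ε₁, ∀ k : ℤ,
          c₃ * ‖B a w‖ ≤ ‖H a v - 2 * Real.pi * Complex.I * k‖ := by
  classical
  set n : ℝ := (Fintype.card ι : ℝ) with hn
  have hn0 : 0 ≤ n := Nat.cast_nonneg _
  set cu : ℝ := (1 / 4 : ℝ) ^ S.card with hcu
  have hcu0 : 0 < cu := by positivity
  have hcu1 : cu ≤ 1 := pow_le_one₀ (by norm_num) (by norm_num)
  set J1 : ℝ := (S.card : ℝ) + 1 with hJ1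
  have hJ1p : 1 ≤ J1 := by rw [hJ1]; linarith [Nat.cast_nonneg (α := ℝ) S.card]
  -- the radius `ε₂`
  obtain ⟨ε₂, hε₂0, hε₂1, hε₂2, hε₂3⟩ : ∃ ε₂ : ℝ, 0 < ε₂ ∧ ε₂ ≤ ε' ∧ C₁ * ε₂ ≤ 1 ∧
      n * (2 * C₁ * ε₂) ≤ cu / 4 := by
    refine ⟨min ε' (cu / (8 * C₁ * (n + 1))), ?_, min_le_left _ _, ?_, ?_⟩
    · exact lt_min hε' (by positivity)
    · have h1 : min ε' (cu / (8 * C₁ * (n + 1))) ≤ cu / (8 * C₁ * (n + 1)) := min_le_right _ _
      calc C₁ * min ε' (cu / (8 * C₁ * (n + 1))) ≤ C₁ * (cu / (8 * C₁ * (n + 1))) :=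
            mul_le_mul_of_nonneg_left h1 (by linarith)
        _ = cu / (8 * (n + 1)) := by field_simp
        _ ≤ 1 := by
          rw [div_le_one (by positivity)]
          linarith
    · have h1 : min ε' (cu / (8 * C₁ * (n + 1))) ≤ cu / (8 * C₁ * (n + 1)) := min_le_right _ _
      calc n * (2 * C₁ * min ε' (cu / (8 * C₁ * (n + 1))))
          ≤ n * (2 * C₁ * (cu / (8 * C₁ * (n + 1)))) := by
            apply mul_le_mul_of_nonneg_left _ hn0
            exact mul_le_mul_of_nonneg_left h1 (by linarith)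
        _ = (cu / 4) * (n / (n + 1)) := by field_simp; ring
        _ ≤ (cu / 4) * 1 := by
            apply mul_le_mul_of_nonneg_left _ (by linarith)
            rw [div_le_one (by positivity)]
            linarith
        _ = cu / 4 := mul_one _
  -- the length `lam`
  obtain ⟨lam, hlam0, hlam1, hlam2⟩ : ∃ lam : ℝ, 0 < lam ∧ lam ≤ ε₂ / 2 ∧
      (n + 1) * (C₂ + 1) * lam ≤ 1 := by
    refine ⟨min (ε₂ / 2) (1 / ((n + 1) * (C₂ + 1))), lt_min (by linarith) (by positivity),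
      min_le_left _ _, ?_⟩
    calc (n + 1) * (C₂ + 1) * min (ε₂ / 2) (1 / ((n + 1) * (C₂ + 1)))
        ≤ (n + 1) * (C₂ + 1) * (1 / ((n + 1) * (C₂ + 1))) :=
          mul_le_mul_of_nonneg_left (min_le_right _ _) (by positivity)
      _ = 1 := by field_simp
  set τ : ℝ := lam / J1 with hτ
  have hτ0 : 0 < τ := by positivity
  have hτJ : J1 * τ = lam := by rw [hτ]; field_simp
  have hτlam : τ ≤ lam := by rw [← hτJ]; nlinarith
  refine ⟨τ * cu / (8 * (n + 1)), cu * τ / 8, by positivity, by positivity, ?_, ?_⟩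
  · have h1 : (n + 1) * (C₂ + 1) * lam ≤ 1 := hlam2
    have h2 : C₂ * lam ≤ 1 := by nlinarith [mul_nonneg hn0 hlam0.le, mul_nonneg (mul_nonneg hn0 hC₂) hlam0.le]
    have h3 : C₂ * τ ≤ C₂ * lam := mul_le_mul_of_nonneg_left hτlam hC₂
    have h4 : 0 ≤ C₂ * τ := by positivity
    nlinarith
  intro w H B hd hf hB hBb
  set ε₁ := τ * cu / (8 * (n + 1)) with hε₁
  have hε₁0 : 0 < ε₁ := by positivity
  have hε₁lam : ε₁ ≤ lam := by
    rw [hε₁, div_le_iff₀ (by positivity)]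
    nlinarith [mul_nonneg hn0 hlam0.le, mul_nonneg hτ0.le hcu0.le]
  obtain ⟨u, hu1, hu2⟩ := rb_dir S (fun a => B a w)
  have hu1' : ∀ i, |u i| ≤ 1 := fun i => (hu1 i).trans (by linarith)
  have hball : ball w ε₂ ⊆ ball w ε' := ball_subset_ball hε₂1
  have hw : w ∈ ball w ε' := mem_ball_self hε'
  -- mean value inequality
  have hmv : ∀ a ∈ S, ∀ v ∈ ball w ε₂, ∀ v' ∈ ball w ε₂,
      ‖H a v' - H a v - fderiv ℂ (H a) w (v' - v)‖ ≤ cu / 4 * ‖B a w‖ * ‖v' - v‖ := by
    intro a ha v hv v' hv'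
    apply Convex.norm_image_sub_le_of_norm_fderiv_le' (𝕜 := ℂ) (s := ball w ε₂)
      (fun x hx => hd a ha x (hball hx)) _ (convex_ball w ε₂) hv hv'
    intro x hx
    have hxw : ‖x - w‖ < ε₂ := by rw [← dist_eq_norm]; exact hx
    have h1 : C₁ * ‖x - w‖ ≤ 1 :=
      (mul_le_mul_of_nonneg_left hxw.le (by linarith)).trans hε₂2
    refine (rb_opNorm _).trans ?_
    have h2 : ∀ i, ‖(fderiv ℂ (H a) x - fderiv ℂ (H a) w) (Pi.single i 1)‖ ≤
        2 * C₁ * ε₂ * ‖B a w‖ := by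
      intro i
      rw [_root_.sub_apply, hf a ha x (hball hx), hf a ha w hw]
      refine (hB a ha x (hball hx) h1 i).trans ?_
      apply mul_le_mul _ (norm_le_pi_norm _ _) (norm_nonneg _) (by positivity)
      exact mul_le_mul_of_nonneg_left hxw.le (by linarith)
    refine (Finset.sum_le_sum fun i _ => h2 i).trans ?_
    rw [Finset.sum_const, Finset.card_univ, nsmul_eq_mul, ← hn, ← mul_assoc]
    exact mul_le_mul_of_nonneg_right hε₂3 (norm_nonneg _)
  -- upper bound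
  have hLle : ∀ a ∈ S, ∀ x : ι → ℂ, ‖fderiv ℂ (H a) w x‖ ≤ n * ‖B a w‖ * ‖x‖ := by
    intro a ha x
    refine ((fderiv ℂ (H a) w).le_opNorm x).trans ?_
    apply mul_le_mul_of_nonneg_right _ (norm_nonneg _)
    refine (rb_opNorm _).trans ?_
    refine (Finset.sum_le_sum fun i _ => (?_ : _ ≤ ‖B a w‖)).trans ?_
    · rw [hf a ha w hw]; exact norm_le_pi_norm _ _
    · rw [Finset.sum_const, Finset.card_univ, nsmul_eq_mul, ← hn]
  have hup : ∀ a ∈ S, ∀ v ∈ ball w ε₂, ∀ v' ∈ ball w ε₂,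
      ‖H a v' - H a v‖ ≤ (n + 1) * ‖B a w‖ * ‖v' - v‖ := by
    intro a ha v hv v' hv'
    have h1 := hmv a ha v hv v' hv'
    have h2 := hLle a ha (v' - v)
    have h3 : ‖H a v' - H a v‖ ≤ ‖H a v' - H a v - fderiv ℂ (H a) w (v' - v)‖ +
        ‖fderiv ℂ (H a) w (v' - v)‖ := by
      have := norm_add_le (H a v' - H a v - fderiv ℂ (H a) w (v' - v))
        (fderiv ℂ (H a) w (v' - v))
      rwa [sub_add_cancel] at this
    have h4 : 0 ≤ ‖B a w‖ * ‖v' - v‖ := by positivity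
    nlinarith
  -- the points
  set P : ℕ → (ι → ℂ) := fun r => w + fun i => Complex.I * ((r * τ * u i : ℝ) : ℂ) with hP
  have hPw : ∀ r : ℕ, r ≤ S.card → ‖P r - w‖ ≤ lam := by
    intro r hr
    rw [hP]
    simp only [add_sub_cancel_left]
    rw [pi_norm_le_iff_of_nonneg hlam0.le]
    intro i
    rw [norm_mul, Complex.norm_I, one_mul, Complex.norm_real, Real.norm_eq_abs, abs_mul, abs_mul,
      abs_of_nonneg (Nat.cast_nonneg r), abs_of_pos hτ0]
    have h1 : (r : ℝ) ≤ J1 := by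
      rw [hJ1]
      have : (r : ℝ) ≤ S.card := by exact_mod_cast hr
      linarith
    calc (r : ℝ) * τ * |u i| ≤ J1 * τ * 1 :=
          mul_le_mul (mul_le_mul_of_nonneg_right h1 hτ0.le) (hu1' i) (abs_nonneg _)
            (by positivity)
      _ = lam := by rw [mul_one, hτJ]
  have hPball : ∀ r : ℕ, r ≤ S.card → P r ∈ ball w ε₂ := by
    intro r hr
    rw [mem_ball, dist_eq_norm]
    exact lt_of_le_of_lt (hPw r hr) (by linarith)
  have hPP : ∀ r r' : ℕ, P r - P r' = fun i => Complex.I * (((r - r') * τ * u i : ℝ) : ℂ) := by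
    intro r r'
    ext i
    simp only [hP, Pi.sub_apply, Pi.add_apply]
    push_cast
    ring
  have hPPn : ∀ r r' : ℕ, ‖P r - P r'‖ ≤ |(r : ℝ) - r'| * τ := by
    intro r r'
    rw [hPP, pi_norm_le_iff_of_nonneg (by positivity)]
    intro i
    rw [norm_mul, Complex.norm_I, one_mul, Complex.norm_real, Real.norm_eq_abs, abs_mul, abs_mul,
      abs_of_pos hτ0]
    calc |(r : ℝ) - r'| * τ * |u i| ≤ |(r : ℝ) - r'| * τ * 1 :=
          mul_le_mul_of_nonneg_left (hu1' i) (by positivity)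
      _ = _ := mul_one _
  have hlow : ∀ a ∈ S, ∀ r r' : ℕ, r ≤ S.card → r' ≤ S.card → r ≠ r' →
      cu * τ / 2 * ‖B a w‖ ≤ ‖H a (P r) - H a (P r')‖ := by
    intro a ha r r' hr hr' hne
    have h1 := hmv a ha (P r') (hPball r' hr') (P r) (hPball r hr)
    have h2 : fderiv ℂ (H a) w (P r - P r') =
        Complex.I * (((r - r') * τ : ℝ) : ℂ) * ∑ i, (u i : ℂ) * B a w i := by
      rw [rb_apply_sum, Finset.mul_sum, hPP]
      refine Finset.sum_congr rfl fun i _ => ?_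
      rw [hf a ha w hw]
      push_cast
      ring
    have h3 : ‖fderiv ℂ (H a) w (P r - P r')‖ = |(r : ℝ) - r'| * τ *
        ‖∑ i, (u i : ℂ) * B a w i‖ := by
      rw [h2, norm_mul, norm_mul, Complex.norm_I, one_mul, Complex.norm_real, Real.norm_eq_abs,
        abs_mul, abs_of_pos hτ0]
    have h4 := hu2 a ha
    have h5 : 1 ≤ |(r : ℝ) - r'| := by
      have : (1 : ℤ) ≤ |(r : ℤ) - r'| := by
        apply Int.one_le_abs
        rw [sub_ne_zero]
        exact_mod_cast hne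
      exact_mod_cast this
    have h6 := hPPn r r'
    have h7 : ‖fderiv ℂ (H a) w (P r - P r')‖ ≤ ‖H a (P r) - H a (P r')‖ +
        ‖H a (P r) - H a (P r') - fderiv ℂ (H a) w (P r - P r')‖ := by
      have := norm_sub_le (H a (P r) - H a (P r'))
        (H a (P r) - H a (P r') - fderiv ℂ (H a) w (P r - P r'))
      rwa [sub_sub_cancel] at this
    set d := |(r : ℝ) - r'| * τ with hd'
    have hd0 : 0 ≤ d := by positivity
    have hdτ : τ ≤ d := by rw [hd']; nlinarith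
    have hbn := norm_nonneg (B a w)
    have h8 : cu / 4 * ‖B a w‖ * ‖P r - P r'‖ ≤ cu / 4 * ‖B a w‖ * d :=
      mul_le_mul_of_nonneg_left h6 (by positivity)
    have h9 : d * (cu * ‖B a w‖) ≤ ‖fderiv ℂ (H a) w (P r - P r')‖ := by
      rw [h3]
      exact mul_le_mul_of_nonneg_left h4 hd0
    have h10 : 0 ≤ cu * ‖B a w‖ := by positivity
    have h11 : τ * (cu * ‖B a w‖) ≤ d * (cu * ‖B a w‖) := mul_le_mul_of_nonneg_right hdτ h10
    nlinarith
  have hupP : ∀ a ∈ S, ∀ r r' : ℕ, r ≤ S.card → r' ≤ S.card →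
      ‖H a (P r) - H a (P r')‖ ≤ 2 := by
    intro a ha r r' hr hr'
    have h1 := hup a ha (P r') (hPball r' hr') (P r) (hPball r hr)
    have h2 : ‖P r - P r'‖ ≤ 2 * lam := by
      have h3 := norm_sub_le (P r - w) (P r' - w)
      rw [sub_sub_sub_cancel_right] at h3
      linarith [hPw r hr, hPw r' hr']
    have h3 := hBb a ha
    calc ‖H a (P r) - H a (P r')‖ ≤ (n + 1) * ‖B a w‖ * ‖P r - P r'‖ := h1
      _ ≤ (n + 1) * (C₂ + 1) * (2 * lam) := by
        apply mul_le_mul _ h2 (norm_nonneg _) (by positivity)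
        exact mul_le_mul_of_nonneg_left (by linarith) (by positivity)
      _ ≤ 2 := by linarith
  -- `m a / 2 ≤ 1 / 2`
  have hsmall : ∀ a ∈ S, cu * τ / 2 * ‖B a w‖ ≤ 1 := by
    intro a ha
    have h3 := hBb a ha
    have h2 : C₂ * lam ≤ 1 := by
      nlinarith [mul_nonneg hn0 hlam0.le, mul_nonneg (mul_nonneg hn0 hC₂) hlam0.le]
    have h4 : τ * ‖B a w‖ ≤ lam * C₂ := mul_le_mul hτlam h3 (norm_nonneg _) hlam0.le
    have h5 : 0 ≤ τ * ‖B a w‖ := by positivity
    nlinarith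
  -- pigeonhole
  obtain ⟨r, hr, hgood⟩ : ∃ r : ℕ, r ≤ S.card ∧ ∀ a ∈ S, ∀ k : ℤ,
      cu * τ / 4 * ‖B a w‖ ≤ ‖H a (P r) - 2 * Real.pi * Complex.I * k‖ := by
    by_contra hcon
    push Not at hcon
    have hch : ∀ r ∈ Finset.range (S.card + 1), ∃ a ∈ S, ∃ k : ℤ,
        ‖H a (P r) - 2 * Real.pi * Complex.I * k‖ < cu * τ / 4 * ‖B a w‖ :=
      fun r hr => hcon r (Nat.lt_succ_iff.1 (Finset.mem_range.1 hr))
    have : Nonempty α := ⟨(hcon 0 (Nat.zero_le _)).choose⟩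
    choose! f hfS k hk using hch
    obtain ⟨r, hr, r', hr', hne, hfr⟩ := Finset.exists_ne_map_eq_of_card_lt_of_maps_to
      (s := Finset.range (S.card + 1)) (t := S) (by rw [Finset.card_range]; exact Nat.lt_succ_self _)
      (f := f) (fun r hr => hfS r hr)
    have hrc := Nat.lt_succ_iff.1 (Finset.mem_range.1 hr)
    have hrc' := Nat.lt_succ_iff.1 (Finset.mem_range.1 hr')
    have h1 := hk r hr
    have h2 := hk r' hr'
    have haS := hfS r hr
    rw [← hfr] at h2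
    set a := f r with ha
    have h3 := hlow a haS r r' hrc hrc' hne
    have h4 := hupP a haS r r' hrc hrc'
    have h5 := hsmall a haS
    by_cases hkk : k r = k r'
    · rw [← hkk] at h2
      have h6 := norm_sub_le (H a (P r) - 2 * Real.pi * Complex.I * k r)
        (H a (P r') - 2 * Real.pi * Complex.I * k r)
      rw [sub_sub_sub_cancel_right] at h6
      nlinarith
    · have h6 : (1 : ℝ) ≤ |(k r : ℝ) - k r'| := by
        have : (1 : ℤ) ≤ |k r - k r'| := Int.one_le_abs (sub_ne_zero.2 hkk)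
        exact_mod_cast this
      have h7 : ‖(2 * Real.pi * Complex.I * (k r : ℂ) - 2 * Real.pi * Complex.I * (k r' : ℂ) : ℂ)‖
          = 2 * Real.pi * |(k r : ℝ) - k r'| := by
        rw [← mul_sub, norm_mul, norm_mul, norm_mul, Complex.norm_I, mul_one]
        have e1 : ‖(2 : ℂ)‖ = 2 := by simp
        have e2 : ‖(Real.pi : ℂ)‖ = Real.pi := by
          rw [Complex.norm_real, Real.norm_eq_abs, abs_of_pos Real.pi_pos]
        have e3 : ‖((k r : ℂ) - (k r' : ℂ))‖ = |(k r : ℝ) - k r'| := by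
          have : ((k r : ℂ) - (k r' : ℂ)) = (((k r : ℝ) - (k r' : ℝ) : ℝ) : ℂ) := by push_cast; rfl
          rw [this, Complex.norm_real, Real.norm_eq_abs]
        rw [e1, e2, e3]
      have h8 : ‖(2 * Real.pi * Complex.I * (k r : ℂ) - 2 * Real.pi * Complex.I * (k r' : ℂ) : ℂ)‖
          ≤ ‖H a (P r) - 2 * Real.pi * Complex.I * k r‖ + ‖H a (P r) - H a (P r')‖ +
            ‖H a (P r') - 2 * Real.pi * Complex.I * k r'‖ := by
        have e : (2 * Real.pi * Complex.I * (k r : ℂ) - 2 * Real.pi * Complex.I * (k r' : ℂ) : ℂ) =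
            -(H a (P r) - 2 * Real.pi * Complex.I * k r) + (H a (P r) - H a (P r')) +
            (H a (P r') - 2 * Real.pi * Complex.I * k r') := by ring
        rw [e]
        refine (norm_add_le _ _).trans ?_
        gcongr
        refine (norm_add_le _ _).trans ?_
        rw [norm_neg]
      have hpi := Real.pi_gt_three
      have h9 : 6 ≤ 2 * Real.pi * |(k r : ℝ) - k r'| := by nlinarith
      rw [h7] at h8
      nlinarith
  refine ⟨fun i => r * τ * u i, ?_, ?_⟩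
  · intro v hv
    apply hball
    have h1 : ‖v - P r‖ < ε₁ := by rw [← dist_eq_norm]; exact hv
    have h2 := hPw r hr
    rw [mem_ball, dist_eq_norm]
    have h3 := norm_add_le (v - P r) (P r - w)
    rw [sub_add_sub_cancel] at h3
    refine lt_of_le_of_lt h3 ?_
    linarith [hε₁lam]
  · intro a ha v hv k
    have h1 : ‖v - P r‖ < ε₁ := by rw [← dist_eq_norm]; exact hv
    have hvb : v ∈ ball w ε₂ := by
      have h2 := hPw r hr
      rw [mem_ball, dist_eq_norm]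
      have h3 := norm_add_le (v - P r) (P r - w)
      rw [sub_add_sub_cancel] at h3
      refine lt_of_le_of_lt h3 ?_
      linarith [hε₁lam]
    have h2 := hup a ha (P r) (hPball r hr) v hvb
    have h3 : (n + 1) * ‖B a w‖ * ‖v - P r‖ ≤ (n + 1) * ‖B a w‖ * ε₁ :=
      mul_le_mul_of_nonneg_left h1.le (by positivity)
    have h4 : (n + 1) * ‖B a w‖ * ε₁ = cu * τ / 8 * ‖B a w‖ := by
      rw [hε₁]; field_simp
    have h5 := hgood a ha k
    have h6 : ‖H a (P r) - 2 * Real.pi * Complex.I * k‖ ≤ ‖H a v - 2 * Real.pi * Complex.I * k‖ +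
        ‖H a v - H a (P r)‖ := by
      have := norm_sub_le (H a v - 2 * Real.pi * Complex.I * k) (H a v - H a (P r))
      rwa [show H a v - 2 * Real.pi * Complex.I * k - (H a v - H a (P r)) =
        H a (P r) - 2 * Real.pi * Complex.I * k by ring] at this
    linarith

/-- `tame_family` for finitely many elements. -/
private theorem rb_tame {ι M : Type} [Fintype ι] [Field M] [Algebra ℂ M] (z : ι → M)
    (hz : AlgebraicIndependent ℂ z) (A : Subalgebra ℂ M) (hzA : ∀ i, z i ∈ A)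
    (halg : ∀ x ∈ A, IsAlgebraic (Algebra.adjoin ℂ (Set.range z)) x) (F : Finset M)
    (hFA : ∀ f ∈ F, f ∈ A) (hF0 : ∀ f ∈ F, f ≠ 0) :
    ∃ c : MvPolynomial ι ℂ, c ≠ 0 ∧ ∀ w : ι → ℂ, eval w (lead c) ≠ 0 →
      ∀ ε₀ : ℝ, 0 < ε₀ → ∀ (Λ₀ : ℝ) (Φ : (ι → ℂ) × ℂ → (A →ₐ[ℂ] ℂ)),
        IsFam z A hzA (Dil w ε₀ Λ₀) Φ →
        ∃ (ε₁ Λ₁ C : ℝ), 0 < ε₁ ∧ ε₁ ≤ ε₀ ∧ Λ₀ ≤ Λ₁ ∧ 1 ≤ C ∧ ∀ f ∈ F, ∀ hfA : f ∈ A,
          ∃ (θ : ℝ) (g : (ι → ℂ) × ℂ → ℂ),
          DifferentiableOn ℂ g (Dil w ε₁ Λ₁) ∧ ∀ p ∈ Dil w ε₁ Λ₁,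
            Complex.exp (g p) = Φ p ⟨f, hfA⟩ ∧ |(g p).re - θ * p.2.re| ≤ C ∧
            ∀ p' ∈ Dil w ε₁ Λ₁, p.2 = p'.2 → ‖g p - g p'‖ ≤ C * ‖p.1 - p'.1‖ := by
  classical
  induction F using Finset.induction_on with
  | empty =>
    refine ⟨1, one_ne_zero, fun w _ ε₀ hε₀ Λ₀ Φ _ => ⟨ε₀, Λ₀, 1, hε₀, le_rfl, le_rfl, le_rfl, ?_⟩⟩
    intro f hf
    exact absurd hf (Finset.notMem_empty _)
  | insert f₀ F hf₀ ih =>
    obtain ⟨c, hc0, hc⟩ := ih (fun f hf => hFA f (Finset.mem_insert_of_mem hf))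
      (fun f hf => hF0 f (Finset.mem_insert_of_mem hf))
    have hf₀A : f₀ ∈ A := hFA f₀ (Finset.mem_insert_self _ _)
    have hf₀0 : (⟨f₀, hf₀A⟩ : A) ≠ 0 := by
      intro h
      exact hF0 f₀ (Finset.mem_insert_self _ _) (congrArg Subtype.val h)
    obtain ⟨c', hc'0, hc'⟩ := tame_family z hz A hzA halg ⟨f₀, hf₀A⟩ hf₀0
    refine ⟨c * c', mul_ne_zero hc0 hc'0, ?_⟩
    intro w hw ε₀ hε₀ Λ₀ Φ hΦ
    rw [lead_mul, map_mul] at hw
    obtain ⟨ε₁, Λ₁, C₁, hε₁, hε₁', hΛ₁, hC₁, h1⟩ := hc w (left_ne_zero_of_mul hw) ε₀ hε₀ Λ₀ Φ hΦ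
    obtain ⟨ε₂, Λ₂, C₂, θ, g, hε₂, hε₂', hΛ₂, hg, h2⟩ :=
      hc' w (right_ne_zero_of_mul hw) ε₀ hε₀ Λ₀ Φ hΦ
    refine ⟨min ε₁ ε₂, max Λ₁ Λ₂, max C₁ C₂, lt_min hε₁ hε₂, (min_le_left _ _).trans hε₁',
      hΛ₁.trans (le_max_left _ _), hC₁.trans (le_max_left _ _), ?_⟩
    intro f hf hfA
    rcases Finset.mem_insert.1 hf with rfl | hfF
    · have hsub : Dil w (min ε₁ ε₂) (max Λ₁ Λ₂) ⊆ Dil w ε₂ Λ₂ :=
        dil_mono (min_le_right _ _) (le_max_right _ _)
      refine ⟨θ, g, hg.mono hsub, fun p hp => ?_⟩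
      obtain ⟨h3, h4, h5⟩ := h2 p (hsub hp)
      refine ⟨h3, h4.trans (le_max_right _ _), fun p' hp' hpp => ?_⟩
      exact (h5 p' (hsub hp') hpp).trans
        (mul_le_mul_of_nonneg_right (le_max_right _ _) (norm_nonneg _))
    · have hsub : Dil w (min ε₁ ε₂) (max Λ₁ Λ₂) ⊆ Dil w ε₁ Λ₁ :=
        dil_mono (min_le_left _ _) (le_max_left _ _)
      obtain ⟨θ', g', hg', h2'⟩ := h1 f hfF hfA
      refine ⟨θ', g', hg'.mono hsub, fun p hp => ?_⟩
      obtain ⟨h3, h4, h5⟩ := h2' p (hsub hp)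
      refine ⟨h3, h4.trans (le_max_left _ _), fun p' hp' hpp => ?_⟩
      exact (h5 p' (hsub hp') hpp).trans
        (mul_le_mul_of_nonneg_right (le_max_left _ _) (norm_nonneg _))

private theorem rb_prod_le (t : ℂ) (R : Multiset ℂ) (m : ℝ) (hm0 : 0 ≤ m)
    (hm : ∀ κ ∈ R, m ≤ ‖t - κ‖) : m ^ (Multiset.card R) ≤ ‖(R.map fun κ => t - κ).prod‖ := by
  induction R using Multiset.induction_on with
  | empty => simp
  | cons κ R ih =>
    rw [Multiset.card_cons, Multiset.map_cons, Multiset.prod_cons, norm_mul, pow_succ, mul_comm]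
    exact mul_le_mul (hm κ (Multiset.mem_cons_self _ _))
      (ih fun κ' h => hm κ' (Multiset.mem_cons_of_mem h)) (pow_nonneg hm0 _) (norm_nonneg _)

/-- lower bound for `evT` by the distances to the roots. -/
private theorem rb_evT {ι M : Type} [Fintype ι] [Field M] [Algebra ℂ M] [IsAlgClosed M]
    (z : ι → M) (hz : AlgebraicIndependent ℂ z) (b : Polynomial (MvPolynomial ι ℂ))
    (A : Subalgebra ℂ M) (hzA : ∀ i, z i ∈ A)
    (hSA : ∀ κ ∈ (b.map (aeval z : MvPolynomial ι ℂ →ₐ[ℂ] M).toRingHom).roots, κ ∈ A)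
    (ψ : A →ₐ[ℂ] ℂ) (x : ι → ℂ) (hψ : ∀ i, ψ ⟨z i, hzA i⟩ = x i) (t : ℂ) (m : ℝ) (hm0 : 0 ≤ m)
    (hm : ∀ κ ∈ (b.map (aeval z : MvPolynomial ι ℂ →ₐ[ℂ] M).toRingHom).roots, ∀ hκ : κ ∈ A,
      m ≤ ‖t - ψ ⟨κ, hκ⟩‖) :
    ‖eval x b.leadingCoeff‖ * m ^ b.natDegree ≤ ‖evT x t b‖ := by
  set φM : MvPolynomial ι ℂ →+* M := (aeval z : MvPolynomial ι ℂ →ₐ[ℂ] M).toRingHom with hφM
  have hinj : Function.Injective φM := hz
  set φ : MvPolynomial ι ℂ →ₐ[ℂ] A := aeval (fun i => (⟨z i, hzA i⟩ : A)) with hφ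
  have hcomp : ∀ p, (φ p : M) = φM p := by
    intro p
    have h1 : (A.val.comp φ) = (aeval z : MvPolynomial ι ℂ →ₐ[ℂ] M) := by
      ext i
      simp [hφ]
    exact congrArg (fun f => f p) h1
  have hψφ : ∀ p, ψ (φ p) = eval x p := by
    intro p
    have h1 : (ψ.comp φ) = (aeval x : MvPolynomial ι ℂ →ₐ[ℂ] ℂ) := by
      ext i
      simp [hφ, hψ]
    have h2 := congrArg (fun f => f p) h1
    simp only [AlgHom.comp_apply] at h2
    rw [h2]
    rfl
  have hsplit : (b.map φM).Splits := IsAlgClosed.splits _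
  set R : Multiset M := (b.map φM).roots with hR
  set RA : Multiset A := R.pmap (fun κ hκ => (⟨κ, hκ⟩ : A)) hSA with hRA
  have hRAmap : RA.map (fun a : A => (a : M)) = R := by
    rw [hRA, Multiset.map_pmap]
    simp [Multiset.pmap_eq_map]
  have hbA : b.map (φ : MvPolynomial ι ℂ →+* A) = Polynomial.C (φ b.leadingCoeff) *
      (RA.map fun a => Polynomial.X - Polynomial.C a).prod := by
    apply Polynomial.map_injective (A.val : A →+* M) Subtype.val_injective
    have h1 : (b.map (φ : MvPolynomial ι ℂ →+* A)).map (A.val : A →+* M) = b.map φM := by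
      rw [Polynomial.map_map]
      congr 1
      ext p
      · exact hcomp _
      · exact hcomp _
    rw [h1, hsplit.eq_prod_roots, Polynomial.map_mul, Polynomial.map_C,
      Polynomial.map_multiset_prod, Multiset.map_map, Polynomial.leadingCoeff_map_of_injective hinj]
    congr 1
    · rw [← hcomp]; rfl
    · rw [← hR, ← hRAmap, Multiset.map_map]
      congr 1
      apply Multiset.map_congr rfl
      intro a _
      simp
  have hev : evT x t b = eval x b.leadingCoeff * ((RA.map ψ).map fun κ => t - κ).prod := by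
    have h1 : evT x t b = Polynomial.eval₂ (ψ : A →+* ℂ) t (b.map (φ : MvPolynomial ι ℂ →+* A)) := by
      rw [Polynomial.eval₂_map]
      change Polynomial.eval₂ _ t b = _
      congr 1
      ext p
      · simp [hφ]
      · simp [hφ, hψ]
    rw [h1, hbA, Polynomial.eval₂_mul, Polynomial.eval₂_C]
    congr 1
    · exact hψφ _
    · rw [Polynomial.eval₂_multiset_prod, Multiset.map_map, Multiset.map_map]
      congr 1
      apply Multiset.map_congr rfl
      intro a _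
      simp
  have hcard : Multiset.card (RA.map ψ) = b.natDegree := by
    rw [Multiset.card_map, hRA, Multiset.card_pmap, hR, ← hsplit.natDegree_eq_card_roots,
      Polynomial.natDegree_map_eq_of_injective hinj]
  rw [hev, norm_mul]
  apply mul_le_mul_of_nonneg_left _ (norm_nonneg _)
  rw [← hcard]
  apply rb_prod_le t _ m hm0
  intro κ hκ
  obtain ⟨a, ha, rfl⟩ := Multiset.mem_map.1 hκ
  have haR : (a : M) ∈ R := by
    rw [← hRAmap]
    exact Multiset.mem_map_of_mem (fun a : A => (a : M)) ha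
  exact hm a haR a.2

private theorem rb_root_alg {ι M : Type} [Field M] [Algebra ℂ M]
    (z : ι → M) (hz : AlgebraicIndependent ℂ z) (b : Polynomial (MvPolynomial ι ℂ)) (hb : b ≠ 0)
    (κ : M) (hκ : κ ∈ (b.map (aeval z : MvPolynomial ι ℂ →ₐ[ℂ] M).toRingHom).roots) :
    IsAlgebraic (Algebra.adjoin ℂ (Set.range z)) κ := by
  set R := Algebra.adjoin ℂ (Set.range z) with hR
  set φM : MvPolynomial ι ℂ →+* M := (aeval z : MvPolynomial ι ℂ →ₐ[ℂ] M).toRingHom with hφM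
  have hinj : Function.Injective φM := hz
  set φ : MvPolynomial ι ℂ →ₐ[ℂ] R :=
    aeval (fun i => (⟨z i, Algebra.subset_adjoin ⟨i, rfl⟩⟩ : R)) with hφ
  have hcomp : (algebraMap R M).comp (φ : MvPolynomial ι ℂ →+* R) = φM := by
    have h1 : (R.val.comp φ) = (aeval z : MvPolynomial ι ℂ →ₐ[ℂ] M) := by
      ext i
      simp [hφ]
    have h2 := congrArg (fun f : MvPolynomial ι ℂ →ₐ[ℂ] M => f.toRingHom) h1
    exact h2
  have hφinj : Function.Injective (φ : MvPolynomial ι ℂ →+* R) := by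
    have h1 : Function.Injective ((algebraMap R M).comp (φ : MvPolynomial ι ℂ →+* R)) := by
      rw [hcomp]; exact hinj
    exact Function.Injective.of_comp (f := algebraMap R M) (by simpa using h1)
  refine ⟨b.map (φ : MvPolynomial ι ℂ →+* R), ?_, ?_⟩
  · exact (Polynomial.map_ne_zero_iff hφinj).2 hb
  · have h1 := (Polynomial.mem_roots'.1 hκ).2
    rw [Polynomial.IsRoot.def, Polynomial.eval_map, ← hcomp] at h1
    rw [Polynomial.aeval_def, Polynomial.eval₂_map]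
    exact h1

section Slice

variable {ι M : Type} [Fintype ι] [Field M] [Algebra ℂ M] {z : ι → M} {A : Subalgebra ℂ M}
  {hzA : ∀ i, z i ∈ A} {w : ι → ℂ} {ε Λ : ℝ} {Φ : (ι → ℂ) × ℂ → (A →ₐ[ℂ] ℂ)}

private theorem rb_slice_open (w : ι → ℂ) (ε : ℝ) (s : ℂ) :
    IsOpen {x : ι → ℂ | Complex.exp (-s) • x ∈ ball w ε} :=
  isOpen_ball.preimage (by fun_prop)

private theorem rb_slice_z (hΦ : IsFam z A hzA (Dil w ε Λ) Φ) {s : ℂ} (hs : Λ < s.re)
    (x : ι → ℂ) (hx : Complex.exp (-s) • x ∈ ball w ε) (i : ι) :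
    Φ (Complex.exp (-s) • x, s) ⟨z i, hzA i⟩ = x i := by
  have hmem : (Complex.exp (-s) • x, s) ∈ Dil w ε Λ := ⟨hx, hs⟩
  rw [hΦ.1 _ hmem i]
  simp only [Pi.smul_apply, smul_eq_mul]
  rw [← mul_assoc, ← Complex.exp_add, add_neg_cancel, Complex.exp_zero, one_mul]

private theorem rb_slice_diff_v (hΦ : IsFam z A hzA (Dil w ε Λ) Φ) {s : ℂ} (hs : Λ < s.re)
    (y : A) {v : ι → ℂ} (hv : v ∈ ball w ε) : DifferentiableAt ℂ (fun v => Φ (v, s) y) v := by
  have h1 : DifferentiableAt ℂ (fun p => Φ p y) (v, s) :=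
    (hΦ.2 y (v, s) ⟨hv, hs⟩).differentiableAt
  have h2 : DifferentiableAt ℂ (fun v : ι → ℂ => (v, s)) v := by fun_prop
  exact h1.comp (f := fun v : ι → ℂ => (v, s)) v h2

private theorem rb_slice_diff (hΦ : IsFam z A hzA (Dil w ε Λ) Φ) {s : ℂ} (hs : Λ < s.re)
    (y : A) : DifferentiableOn ℂ (fun x => Φ (Complex.exp (-s) • x, s) y)
      {x : ι → ℂ | Complex.exp (-s) • x ∈ ball w ε} := by
  intro x hx
  have h1 := rb_slice_diff_v hΦ hs y (v := Complex.exp (-s) • x) hx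
  have h2 : DifferentiableAt ℂ (fun x : ι → ℂ => Complex.exp (-s) • x) x := by fun_prop
  exact (h1.comp (f := fun x : ι → ℂ => Complex.exp (-s) • x) x h2).differentiableWithinAt

private theorem rb_deriv [DecidableEq ι] (hΦ : IsFam z A hzA (Dil w ε Λ) Φ) (f : M) (hfA : f ∈ A)
    (g : ι → M) (hgA : ∀ i, g i ∈ A)
    (hder : ∀ (D : Set (ι → ℂ)), IsOpen D → ∀ Φ : (ι → ℂ) → (A →ₐ[ℂ] ℂ),
        (∀ x ∈ D, ∀ i, Φ x ⟨z i, hzA i⟩ = x i) →
        (∀ y : A, DifferentiableOn ℂ (fun x => Φ x y) D) → ∀ x ∈ D, ∀ i,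
        fderiv ℂ (fun x => Φ x ⟨f, hfA⟩) x (Pi.single i 1) = Φ x ⟨g i, hgA i⟩)
    {s : ℂ} (hs : Λ < s.re) {v : ι → ℂ} (hv : v ∈ ball w ε) (i : ι) :
    fderiv ℂ (fun v => Φ (v, s) ⟨f, hfA⟩) v (Pi.single i 1) =
      Complex.exp s * Φ (v, s) ⟨g i, hgA i⟩ := by
  have hinv : ∀ v : ι → ℂ, Complex.exp (-s) • (Complex.exp s • v) = v := by
    intro v
    rw [smul_smul, ← Complex.exp_add, neg_add_cancel, Complex.exp_zero, one_smul]
  have hx : Complex.exp (-s) • (Complex.exp s • v) ∈ ball w ε := by rw [hinv]; exact hv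
  have h1 := hder {x : ι → ℂ | Complex.exp (-s) • x ∈ ball w ε} (rb_slice_open w ε s)
    (fun x => Φ (Complex.exp (-s) • x, s)) (fun x hx i => rb_slice_z hΦ hs x hx i)
    (fun y => rb_slice_diff hΦ hs y) (Complex.exp s • v) hx i
  have h2 : DifferentiableAt ℂ (fun x => Φ (Complex.exp (-s) • x, s) (⟨f, hfA⟩ : A))
      (Complex.exp s • v) :=
    (rb_slice_diff hΦ hs ⟨f, hfA⟩).differentiableAt ((rb_slice_open w ε s).mem_nhds hx)
  have h3 : HasFDerivAt (fun v : ι → ℂ => Complex.exp s • v)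
      (Complex.exp s • ContinuousLinearMap.id ℂ (ι → ℂ)) v :=
    (hasFDerivAt_id v).const_smul (Complex.exp s)
  have h4 := h2.hasFDerivAt.comp v h3
  have h5 : ((fun x => Φ (Complex.exp (-s) • x, s) (⟨f, hfA⟩ : A)) ∘
      fun v : ι → ℂ => Complex.exp s • v) = fun v => Φ (v, s) ⟨f, hfA⟩ := by
    funext v'
    simp only [Function.comp_apply, hinv]
  rw [h5] at h4
  rw [h4.fderiv]
  simp only [ContinuousLinearMap.comp_apply, _root_.smul_apply,
    ContinuousLinearMap.id_apply, map_smul, smul_eq_mul]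
  rw [h1, hinv]

private theorem rb_log_deriv [DecidableEq ι] (hΦ : IsFam z A hzA (Dil w ε Λ) Φ) (f : M)
    (hfA : f ∈ A) (hf'A : f⁻¹ ∈ A) (hf0 : f ≠ 0) (g : ι → M) (hgA : ∀ i, g i ∈ A)
    (hder : ∀ (D : Set (ι → ℂ)), IsOpen D → ∀ Φ : (ι → ℂ) → (A →ₐ[ℂ] ℂ),
        (∀ x ∈ D, ∀ i, Φ x ⟨z i, hzA i⟩ = x i) →
        (∀ y : A, DifferentiableOn ℂ (fun x => Φ x y) D) → ∀ x ∈ D, ∀ i,
        fderiv ℂ (fun x => Φ x ⟨f, hfA⟩) x (Pi.single i 1) = Φ x ⟨g i, hgA i⟩)
    (G : (ι → ℂ) × ℂ → ℂ) (hGd : DifferentiableOn ℂ G (Dil w ε Λ))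
    (hG : ∀ p ∈ Dil w ε Λ, Complex.exp (G p) = Φ p ⟨f, hfA⟩)
    {s : ℂ} (hs : Λ < s.re) {v : ι → ℂ} (hv : v ∈ ball w ε) (i : ι) :
    fderiv ℂ (fun v => G (v, s)) v (Pi.single i 1) =
      Complex.exp s * Φ (v, s) ⟨g i * f⁻¹, A.mul_mem (hgA i) hf'A⟩ := by
  have hGv : DifferentiableAt ℂ (fun v => G (v, s)) v := by
    have h1 : DifferentiableAt ℂ G (v, s) :=
      hGd.differentiableAt ((isOpen_dil w ε Λ).mem_nhds ⟨hv, hs⟩)
    have h2 : DifferentiableAt ℂ (fun v : ι → ℂ => (v, s)) v := by fun_prop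
    exact h1.comp (f := fun v : ι → ℂ => (v, s)) v h2
  have h1 := hGv.hasFDerivAt.cexp
  have h2 : (fun v => Complex.exp (G (v, s))) =ᶠ[𝓝 v] fun v => Φ (v, s) ⟨f, hfA⟩ := by
    filter_upwards [isOpen_ball.mem_nhds hv] with v' hv'
    exact hG (v', s) ⟨hv', hs⟩
  have h3 := h1.congr_of_eventuallyEq h2.symm
  have h4 := rb_deriv hΦ f hfA g hgA hder hs hv i
  rw [h3.fderiv] at h4
  simp only [_root_.smul_apply, smul_eq_mul] at h4
  rw [hG (v, s) ⟨hv, hs⟩] at h4
  have h5 : Φ (v, s) ⟨f, hfA⟩ * Φ (v, s) ⟨f⁻¹, hf'A⟩ = 1 := by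
    rw [← map_mul, ← map_one (Φ (v, s))]
    congr 1
    exact Subtype.ext (mul_inv_cancel₀ hf0)
  have h6 : Φ (v, s) ⟨g i * f⁻¹, A.mul_mem (hgA i) hf'A⟩ =
      Φ (v, s) ⟨g i, hgA i⟩ * Φ (v, s) ⟨f⁻¹, hf'A⟩ := by
    rw [← map_mul]; rfl
  rw [h6, ← mul_assoc, ← h4]
  linear_combination (-(fderiv ℂ (fun v => G (v, s)) v (Pi.single i 1))) * h5

end Slice

private theorem rb_hom {ι : Type} (c : MvPolynomial ι ℂ) (β : ι → ℝ)
    (h : eval (fun i => (β i : ℂ)) (lead c) ≠ 0) : eval (ipt β) (lead c) ≠ 0 := by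
  have h1 : (lead c).IsHomogeneous c.totalDegree := homogeneousComponent_isHomogeneous _ _
  have h2 := MV.asym_eval_mul h1 (2 * Real.pi * Complex.I) (fun i => (β i : ℂ))
  have h3 : (fun i => 2 * (Real.pi : ℂ) * Complex.I * (β i : ℂ)) = ipt β := rfl
  rw [h3] at h2
  rw [h2]
  have h4 : (2 * (Real.pi : ℂ) * Complex.I) ≠ 0 := Complex.two_pi_I_ne_zero
  exact mul_ne_zero (pow_ne_zero _ h4) h

private theorem rb_ev {η c : ℝ} (hη : 0 < η) (hc : 0 < c) (θ : ℝ) :
    ∀ᶠ N : ℕ in atTop, Real.exp (-(η * N)) ≤ c * Real.exp (θ * Real.log N) := by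
  have h1 := (isLittleO_exp_neg_mul_rpow_atTop hη θ).bound hc
  have h2 := tendsto_natCast_atTop_atTop (R := ℝ)
  filter_upwards [h2.eventually h1, eventually_gt_atTop 0] with N hN hN0
  have hN0' : (0 : ℝ) < N := by exact_mod_cast hN0
  rw [Real.norm_eq_abs, Real.norm_eq_abs, abs_of_pos (Real.exp_pos _),
    abs_of_pos (Real.rpow_pos_of_pos hN0' _), Real.rpow_def_of_pos hN0'] at hN
  rw [neg_mul] at hN
  rwa [mul_comm θ]

/-- the nonvanishing of the logarithmic derivative data. -/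
private theorem rb_nonconst {ι M : Type} [Fintype ι] [DecidableEq ι] [Field M] [Algebra ℂ M]
    (z : ι → M) (hz : AlgebraicIndependent ℂ z) (A : Subalgebra ℂ M) (hA : A.FG)
    (hzA : ∀ i, z i ∈ A)
    (halg : ∀ x ∈ A, IsAlgebraic (Algebra.adjoin ℂ (Set.range z)) x)
    (σ : M) (hσA : σ ∈ A) (hσc : ∀ s : ℂ, σ ≠ algebraMap ℂ M s)
    (κ : M) (hκA : κ ∈ A) (K : ℕ) (hK : 0 < K) (w : ι → ℂ) (ε Λ : ℝ) (hε : 0 < ε)
    (Φ : (ι → ℂ) × ℂ → (A →ₐ[ℂ] ℂ)) (hΦ : IsFam z A hzA (Dil w ε Λ) Φ)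
    (G : (ι → ℂ) × ℂ → ℂ)
    (hG : ∀ p ∈ Dil w ε Λ, Complex.exp (G p) = Φ p ⟨κ, hκA⟩) (s : ℂ) (hs : Λ < s.re)
    (hd : ∀ v ∈ ball w ε, DifferentiableAt ℂ (fun v => K * Φ (v, s) ⟨σ, hσA⟩ - G (v, s)) v)
    (h0 : ∀ v ∈ ball w ε, ∀ i,
      fderiv ℂ (fun v => K * Φ (v, s) ⟨σ, hσA⟩ - G (v, s)) v (Pi.single i 1) = 0) : False := by
  set H : (ι → ℂ) → ℂ := fun v => K * Φ (v, s) ⟨σ, hσA⟩ - G (v, s) with hH
  have hconst : ∀ v ∈ ball w ε, H v = H w := by
    intro v hv
    refine isOpen_ball.is_const_of_fderiv_eq_zero (𝕜 := ℂ) (convex_ball w ε).isPreconnected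
      (fun x hx => (hd x hx).differentiableWithinAt) ?_ hv (mem_ball_self hε)
    intro x hx
    have h1 : ‖fderiv ℂ H x‖ ≤ 0 := by
      refine (rb_opNorm _).trans ?_
      rw [Finset.sum_eq_zero]
      intro i _
      rw [h0 x hx i, norm_zero]
    exact norm_le_zero_iff.1 h1
  have hK0 : (K : ℂ) ≠ 0 := by exact_mod_cast hK.ne'
  refine exp_not_algebraic z hz A hA hzA halg ⟨σ, hσA⟩ ⟨κ, hκA⟩ ?_ (K : ℂ) hK0
    {x : ι → ℂ | Complex.exp (-s) • x ∈ ball w ε} (rb_slice_open w ε s) ?_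
    (fun x => Φ (Complex.exp (-s) • x, s)) (fun x hx i => rb_slice_z hΦ hs x hx i)
    (fun y => rb_slice_diff hΦ hs y) (Complex.exp (H w)) (Complex.exp_ne_zero _) ?_
  · intro c h
    exact hσc c (congrArg Subtype.val h)
  · refine ⟨Complex.exp s • w, ?_⟩
    change Complex.exp (-s) • (Complex.exp s • w) ∈ ball w ε
    rw [smul_smul, ← Complex.exp_add, neg_add_cancel, Complex.exp_zero, one_smul]
    exact mem_ball_self hε
  · intro x hx
    have h1 := hconst _ hx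
    have h2 := hG (Complex.exp (-s) • x, s) ⟨hx, hs⟩
    rw [← h2, ← Complex.exp_add, ← h1]
    congr 1
    simp only [hH]
    ring

/-- Cauchy estimate for a partial derivative. -/
private theorem rb_cauchy {ι : Type} [Fintype ι] [DecidableEq ι] (f : (ι → ℂ) → ℂ) (w : ι → ℂ)
    (ε C : ℝ) (hε : 0 < ε) (hd : ∀ v ∈ ball w ε, DifferentiableAt ℂ f v)
    (hC : ∀ v ∈ ball w ε, ‖f v‖ ≤ C) (i : ι) :
    ‖fderiv ℂ f w (Pi.single i 1)‖ ≤ C / (ε / 2) := by
  have hw : w ∈ ball w ε := mem_ball_self hε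
  have hnorm : ∀ t : ℂ, ‖(t • Pi.single i (1 : ℂ) : ι → ℂ)‖ ≤ ‖t‖ := by
    intro t
    rw [norm_smul]
    have : ‖(Pi.single i (1 : ℂ) : ι → ℂ)‖ ≤ 1 := by
      rw [pi_norm_le_iff_of_nonneg zero_le_one]
      intro j
      rw [Pi.single_apply]
      split_ifs <;> simp
    exact mul_le_of_le_one_right (norm_nonneg _) this
  have hmem : ∀ t : ℂ, ‖t‖ < ε → w + t • (Pi.single i (1 : ℂ) : ι → ℂ) ∈ ball w ε := by
    intro t ht
    rw [mem_ball, dist_eq_norm, add_sub_cancel_left]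
    exact lt_of_le_of_lt (hnorm t) ht
  have hline : ∀ t : ℂ, HasDerivAt (fun t : ℂ => w + t • (Pi.single i (1 : ℂ) : ι → ℂ))
      (Pi.single i (1 : ℂ)) t := by
    intro t
    have := ((hasDerivAt_id t).smul_const (Pi.single i (1 : ℂ) : ι → ℂ)).const_add w
    simpa using this
  have hda : ∀ t : ℂ, ‖t‖ < ε →
      DifferentiableAt ℂ (fun t : ℂ => f (w + t • (Pi.single i (1 : ℂ) : ι → ℂ))) t := by
    intro t ht
    exact (hd _ (hmem t ht)).comp t (hline t).differentiableAt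
  have h0 : HasDerivAt (fun t : ℂ => f (w + t • (Pi.single i (1 : ℂ) : ι → ℂ)))
      (fderiv ℂ f w (Pi.single i 1)) 0 := by
    have h1 : HasFDerivAt f (fderiv ℂ f w) (w + (0 : ℂ) • (Pi.single i (1 : ℂ) : ι → ℂ)) := by
      rw [zero_smul, add_zero]
      exact (hd w hw).hasFDerivAt
    exact h1.comp_hasDerivAt (0 : ℂ) (hline 0)
  have h2 := Complex.norm_deriv_le_of_forall_mem_sphere_norm_le (c := (0 : ℂ)) (R := ε / 2)
    (C := C) (f := fun t : ℂ => f (w + t • (Pi.single i (1 : ℂ) : ι → ℂ))) (by linarith) ?_ ?_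
  · rw [h0.deriv] at h2
    exact h2
  · apply DifferentiableOn.diffContOnCl
    intro t ht
    rw [closure_ball _ (by linarith : ε / 2 ≠ 0), mem_closedBall, dist_zero_right] at ht
    exact (hda t (by linarith)).differentiableWithinAt
  · intro t ht
    rw [mem_sphere, dist_zero_right] at ht
    exact hC _ (hmem t (by rw [ht]; linarith))

/-- HS-34: the bounded case. -/
theorem region_bounded {ι M : Type} [Fintype ι] [Field M] [Algebra ℂ M] [IsAlgClosed M]
    (z : ι → M) (hz : AlgebraicIndependent ℂ z) (σ : M)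
    (hσ : IsAlgebraic (Algebra.adjoin ℂ (Set.range z)) σ) (hσc : ∀ s : ℂ, σ ≠ algebraMap ℂ M s)
    (b : Polynomial (MvPolynomial ι ℂ)) (hb : b ≠ 0) (K : ℕ) (hK : 0 < K) :
    ∃ T : Finset M, (∀ x ∈ T, IsAlgebraic (Algebra.adjoin ℂ (Set.range z)) x) ∧
      ∀ (A : Subalgebra ℂ M) (hA : A.FG) (hzA : ∀ i, z i ∈ A) (hσA : σ ∈ A)
        (halg : ∀ x ∈ A, IsAlgebraic (Algebra.adjoin ℂ (Set.range z)) x), (∀ x ∈ T, x ∈ A) →
      ∃ c : MvPolynomial ι ℂ, c ≠ 0 ∧ ∀ β : ι → ℝ,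
        eval (fun i => (β i : ℂ)) (lead c) ≠ 0 → ∀ (ε₀ Λ₀ : ℝ), 0 < ε₀ →
        ∀ (Φ : (ι → ℂ) × ℂ → (A →ₐ[ℂ] ℂ)), IsFam z A hzA (Dil (ipt β) ε₀ Λ₀) Φ →
        (∃ C : ℝ, ∀ p ∈ Dil (ipt β) ε₀ Λ₀, ‖Φ p ⟨σ, hσA⟩‖ ≤ C) →
        Region A ⟨σ, hσA⟩ b K (ipt β) ε₀ Λ₀ Φ := by
  classical
  obtain ⟨gσ, uσ, huσ0, huσ, hgσ, hdσ⟩ := exists_deriv z hz σ hσ
  set roots : Multiset M := (b.map (aeval z : MvPolynomial ι ℂ →ₐ[ℂ] M).toRingHom).roots
    with hroots
  set S : Finset M := roots.toFinset.erase 0 with hS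
  have hSroots : ∀ κ ∈ S, κ ∈ roots := fun κ hκ =>
    Multiset.mem_toFinset.1 (Finset.mem_of_mem_erase hκ)
  have hS0 : ∀ κ ∈ S, κ ≠ 0 := fun κ hκ => Finset.ne_of_mem_erase hκ
  have hSalg : ∀ κ ∈ S, IsAlgebraic (Algebra.adjoin ℂ (Set.range z)) κ := fun κ hκ =>
    rb_root_alg z hz b hb κ (hSroots κ hκ)
  have hex := fun κ (hκ : κ ∈ S) => exists_deriv z hz κ (hSalg κ hκ)
  choose! gκ uκ huκ0 huκ hgκ hdκ using hex
  set T : Finset M := (((((S ∪ S.image (fun κ => κ⁻¹)) ∪ Finset.univ.image gσ) ∪ {uσ⁻¹}) ∪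
    S.biUnion fun κ => Finset.univ.image (gκ κ)) ∪ S.image (fun κ => (uκ κ)⁻¹)) with hT
  have hT1 : ∀ κ ∈ S, κ ∈ T := fun κ hκ => by
    simp only [hT, Finset.mem_union]
    exact Or.inl (Or.inl (Or.inl (Or.inl (Or.inl hκ))))
  have hT2 : ∀ κ ∈ S, κ⁻¹ ∈ T := fun κ hκ => by
    simp only [hT, Finset.mem_union]
    exact Or.inl (Or.inl (Or.inl (Or.inl (Or.inr (Finset.mem_image_of_mem _ hκ)))))
  have hT3 : ∀ i, gσ i ∈ T := fun i => by
    simp only [hT, Finset.mem_union]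
    exact Or.inl (Or.inl (Or.inl (Or.inr (Finset.mem_image_of_mem _ (Finset.mem_univ i)))))
  have hT4 : uσ⁻¹ ∈ T := by
    simp only [hT, Finset.mem_union]
    exact Or.inl (Or.inl (Or.inr (Finset.mem_singleton_self _)))
  have hT5 : ∀ κ ∈ S, ∀ i, gκ κ i ∈ T := fun κ hκ i => by
    simp only [hT, Finset.mem_union]
    exact Or.inl (Or.inr (Finset.mem_biUnion.2
      ⟨κ, hκ, Finset.mem_image_of_mem _ (Finset.mem_univ i)⟩))
  have hT6 : ∀ κ ∈ S, (uκ κ)⁻¹ ∈ T := fun κ hκ => by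
    simp only [hT, Finset.mem_union]
    exact Or.inr (Finset.mem_image_of_mem (fun κ => (uκ κ)⁻¹) hκ)
  refine ⟨T, ?_, ?_⟩
  · intro x hx
    simp only [hT, Finset.mem_union] at hx
    rcases hx with ((((hx | hx) | hx) | hx) | hx) | hx
    · exact hSalg x hx
    · obtain ⟨κ, hκ, rfl⟩ := Finset.mem_image.1 hx
      exact (hSalg κ hκ).inv
    · obtain ⟨i, _, rfl⟩ := Finset.mem_image.1 hx
      exact hgσ i
    · rw [Finset.mem_singleton.1 hx]
      exact huσ.inv
    · obtain ⟨κ, hκ, hx⟩ := Finset.mem_biUnion.1 hx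
      obtain ⟨i, _, rfl⟩ := Finset.mem_image.1 hx
      exact hgκ κ hκ i
    · obtain ⟨κ, hκ, rfl⟩ := Finset.mem_image.1 hx
      exact (huκ κ hκ).inv
  intro A hA hzA hσA halg hTA
  have hSA : ∀ κ ∈ S, κ ∈ A := fun κ hκ => hTA _ (hT1 κ hκ)
  have hSA' : ∀ κ ∈ S, κ⁻¹ ∈ A := fun κ hκ => hTA _ (hT2 κ hκ)
  have hgσA : ∀ i, gσ i ∈ A := fun i => hTA _ (hT3 i)
  have huσA : uσ⁻¹ ∈ A := hTA _ hT4
  have hgκA : ∀ κ ∈ S, ∀ i, gκ κ i ∈ A := fun κ hκ i => hTA _ (hT5 κ hκ i)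
  have huκA : ∀ κ ∈ S, (uκ κ)⁻¹ ∈ A := fun κ hκ => hTA _ (hT6 κ hκ)
  have hrA : ∀ κ ∈ roots, κ ∈ A := by
    intro κ hκ
    by_cases h : κ = 0
    · rw [h]; exact A.zero_mem
    · exact hSA κ (Finset.mem_erase.2 ⟨h, Multiset.mem_toFinset.2 hκ⟩)
  have hdσ' := hdσ A hzA hσA hgσA huσA
  have hdκ' : ∀ κ (hκ : κ ∈ S), _ := fun κ hκ =>
    hdκ κ hκ A hzA (hSA κ hκ) (hgκA κ hκ) (huκA κ hκ)
  set a : M → ι → M := fun κ i => (K : M) * gσ i - gκ κ i * κ⁻¹ with ha
  have haA : ∀ κ ∈ S, ∀ i, a κ i ∈ A := fun κ hκ i =>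
    A.sub_mem (A.mul_mem (natCast_mem A K) (hgσA i)) (A.mul_mem (hgκA κ hκ i) (hSA' κ hκ))
  set F : Finset M := (S ∪ S.biUnion fun κ => Finset.univ.image (a κ)).erase 0 with hF
  have hFA : ∀ f ∈ F, f ∈ A := by
    intro f hf
    rcases Finset.mem_union.1 (Finset.mem_of_mem_erase hf) with h | h
    · exact hSA f h
    · obtain ⟨κ, hκ, h⟩ := Finset.mem_biUnion.1 h
      obtain ⟨i, _, rfl⟩ := Finset.mem_image.1 h
      exact haA κ hκ i
  have hF0 : ∀ f ∈ F, f ≠ 0 := fun f hf => Finset.ne_of_mem_erase hf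
  have hSF : ∀ κ ∈ S, κ ∈ F := fun κ hκ =>
    Finset.mem_erase.2 ⟨hS0 κ hκ, Finset.mem_union_left _ hκ⟩
  have haF : ∀ κ ∈ S, ∀ i, a κ i ≠ 0 → a κ i ∈ F := fun κ hκ i h =>
    Finset.mem_erase.2 ⟨h, Finset.mem_union_right _ (Finset.mem_biUnion.2
      ⟨κ, hκ, Finset.mem_image_of_mem _ (Finset.mem_univ i)⟩)⟩
  obtain ⟨c₀, hc₀, hc₀'⟩ := rb_tame z hz A hzA halg F hFA hF0
  refine ⟨b.leadingCoeff * c₀, mul_ne_zero (Polynomial.leadingCoeff_ne_zero.2 hb) hc₀, ?_⟩
  intro β hβ ε₀ Λ₀ hε₀ Φ hΦ hbdd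
  obtain ⟨C, hC⟩ := hbdd
  set w := ipt β with hw
  rw [lead_mul, map_mul] at hβ
  obtain ⟨ε₂, Λ₂, C₂, hε₂, hC₂, hdil⟩ := eval_dil b.leadingCoeff w
    (rb_hom _ β (left_ne_zero_of_mul hβ))
  obtain ⟨ε₃, Λ₃, C₁, hε₃, hε₃', hΛ₃, hC₁, hlog⟩ :=
    hc₀' w (rb_hom _ β (right_ne_zero_of_mul hβ)) ε₀ hε₀ Λ₀ Φ hΦ
  have hlog' : ∀ f ∈ F, ∃ (θ : ℝ) (g : (ι → ℂ) × ℂ → ℂ), ∀ hfA : f ∈ A,
      DifferentiableOn ℂ g (Dil w ε₃ Λ₃) ∧ ∀ p ∈ Dil w ε₃ Λ₃,
        Complex.exp (g p) = Φ p ⟨f, hfA⟩ ∧ |(g p).re - θ * p.2.re| ≤ C₁ ∧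
        ∀ p' ∈ Dil w ε₃ Λ₃, p.2 = p'.2 → ‖g p - g p'‖ ≤ C₁ * ‖p.1 - p'.1‖ := by
    intro f hf
    obtain ⟨θ, g, h⟩ := hlog f hf (hFA f hf)
    exact ⟨θ, g, fun _ => h⟩
  choose! θ G hG using hlog'
  have hGd : ∀ f ∈ F, DifferentiableOn ℂ (G f) (Dil w ε₃ Λ₃) := fun f hf =>
    (hG f hf (hFA f hf)).1
  have hGe : ∀ f ∈ F, ∀ hfA : f ∈ A, ∀ p ∈ Dil w ε₃ Λ₃, Complex.exp (G f p) = Φ p ⟨f, hfA⟩ :=
    fun f hf hfA p hp => ((hG f hf hfA).2 p hp).1
  have hGr : ∀ f ∈ F, ∀ p ∈ Dil w ε₃ Λ₃, |(G f p).re - θ f * p.2.re| ≤ C₁ := fun f hf p hp =>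
    ((hG f hf (hFA f hf)).2 p hp).2.1
  have hGl : ∀ f ∈ F, ∀ p ∈ Dil w ε₃ Λ₃, ∀ p' ∈ Dil w ε₃ Λ₃, p.2 = p'.2 →
      ‖G f p - G f p'‖ ≤ C₁ * ‖p.1 - p'.1‖ := fun f hf p hp =>
    ((hG f hf (hFA f hf)).2 p hp).2.2
  clear hG hlog
  have hΦ₃ : IsFam z A hzA (Dil w ε₃ Λ₃) Φ :=
    ⟨fun p hp => hΦ.1 p (dil_mono hε₃' hΛ₃ hp), fun x => (hΦ.2 x).mono (dil_mono hε₃' hΛ₃)⟩
  have hC0 : 0 ≤ C := by
    have h1 : (w, ((Λ₀ + 1 : ℝ) : ℂ)) ∈ Dil w ε₀ Λ₀ := by
      refine ⟨mem_ball_self hε₀, ?_⟩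
      change Λ₀ < ((Λ₀ + 1 : ℝ) : ℂ).re
      rw [Complex.ofReal_re]; linarith
    exact (norm_nonneg _).trans (hC _ h1)
  -- functions `H` and their derivatives `B`
  set H : ℂ → M → (ι → ℂ) → ℂ := fun s κ v => K * Φ (v, s) ⟨σ, hσA⟩ - G κ (v, s) with hH
  set B : ℂ → M → (ι → ℂ) → ι → ℂ := fun s κ v i =>
    if h : a κ i ∈ A then Complex.exp s * Φ (v, s) ⟨a κ i, h⟩ else 0 with hB
  have hBeq : ∀ s κ v i (h : a κ i ∈ A), B s κ v i = Complex.exp s * Φ (v, s) ⟨a κ i, h⟩ := by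
    intro s κ v i h
    simp only [hB]
    rw [dif_pos h]
  have hGv : ∀ f ∈ F, ∀ s : ℂ, Λ₃ < s.re → ∀ v ∈ ball w ε₃,
      DifferentiableAt ℂ (fun v => G f (v, s)) v := by
    intro f hf s hs v hv
    have h1 : DifferentiableAt ℂ (G f) (v, s) :=
      (hGd f hf).differentiableAt ((isOpen_dil w ε₃ Λ₃).mem_nhds ⟨hv, hs⟩)
    have h2 : DifferentiableAt ℂ (fun v : ι → ℂ => (v, s)) v := by fun_prop
    exact h1.comp (f := fun v : ι → ℂ => (v, s)) v h2
  have hHd : ∀ s : ℂ, Λ₃ < s.re → ∀ κ ∈ S, ∀ v ∈ ball w ε₃, DifferentiableAt ℂ (H s κ) v := by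
    intro s hs κ hκ v hv
    exact ((rb_slice_diff_v hΦ₃ hs ⟨σ, hσA⟩ hv).const_mul (K : ℂ)).sub
      (hGv κ (hSF κ hκ) s hs v hv)
  have hHf : ∀ s : ℂ, Λ₃ < s.re → ∀ κ ∈ S, ∀ v ∈ ball w ε₃, ∀ i,
      fderiv ℂ (H s κ) v (Pi.single i 1) = B s κ v i := by
    intro s hs κ hκ v hv i
    have h1 := rb_slice_diff_v hΦ₃ hs ⟨σ, hσA⟩ hv
    have h2 := hGv κ (hSF κ hκ) s hs v hv
    have h3 : HasFDerivAt (H s κ) ((K : ℂ) • fderiv ℂ (fun v => Φ (v, s) ⟨σ, hσA⟩) v -
        fderiv ℂ (fun v => G κ (v, s)) v) v :=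
      (h1.hasFDerivAt.const_mul (K : ℂ)).sub h2.hasFDerivAt
    rw [h3.fderiv, _root_.sub_apply, _root_.smul_apply, smul_eq_mul,
      rb_deriv hΦ₃ σ hσA gσ hgσA hdσ' hs hv i,
      rb_log_deriv hΦ₃ κ (hSA κ hκ) (hSA' κ hκ) (hS0 κ hκ) (gκ κ) (hgκA κ hκ) (hdκ' κ hκ)
        (G κ) (hGd κ (hSF κ hκ)) (hGe κ (hSF κ hκ) (hSA κ hκ)) hs hv i,
      hBeq s κ v i (haA κ hκ i)]
    have h4 : (⟨a κ i, haA κ hκ i⟩ : A) = (K : A) * ⟨gσ i, hgσA i⟩ -
        ⟨gκ κ i * κ⁻¹, A.mul_mem (hgκA κ hκ i) (hSA' κ hκ)⟩ := by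
      apply Subtype.ext
      simp [ha]
    rw [h4, map_sub, map_mul, map_natCast]
    ring
  -- some `a κ i` is nonzero
  have hne : ∀ κ ∈ S, ∃ i, a κ i ≠ 0 := by
    intro κ hκ
    by_contra hcon
    push Not at hcon
    have hs : Λ₃ < ((Λ₃ + 1 : ℝ) : ℂ).re := by rw [Complex.ofReal_re]; linarith
    refine rb_nonconst z hz A hA hzA halg σ hσA hσc κ (hSA κ hκ) K hK w ε₃ Λ₃ hε₃ Φ hΦ₃ (G κ)
      (hGe κ (hSF κ hκ) (hSA κ hκ)) ((Λ₃ + 1 : ℝ) : ℂ) hs (hHd _ hs κ hκ) ?_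
    intro v hv i
    have h1 := hHf _ hs κ hκ v hv i
    have h2 : (⟨a κ i, haA κ hκ i⟩ : A) = 0 := Subtype.ext (hcon i)
    rw [hBeq _ κ v i (haA κ hκ i), h2, map_zero, mul_zero] at h1
    exact h1
  have hne' : ∀ κ ∈ S, ∃ f : M, ∃ i, a κ i = f ∧ f ≠ 0 := fun κ hκ => by
    obtain ⟨i, hi⟩ := hne κ hκ
    exact ⟨a κ i, i, rfl, hi⟩
  choose! f₀ hf₀ using hne'
  -- constants
  set εc := min ε₂ ε₃ with hεc
  have hεc0 : 0 < εc := lt_min hε₂ hε₃
  have hεc2 : ball w εc ⊆ ball w ε₂ := ball_subset_ball (min_le_left _ _)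
  have hεc3 : ball w εc ⊆ ball w ε₃ := ball_subset_ball (min_le_right _ _)
  set CB : ℝ := K * (C / (ε₃ / 2)) + C₁ with hCB
  have hCB0 : 0 ≤ CB := by positivity
  obtain ⟨ε₁, c₃, hε₁, hc₃, hc₃', hcore⟩ := rb_core (ι := ι) S εc C₁ CB hεc0 hC₁ hCB0
  have hBvar : ∀ s : ℂ, Λ₃ < s.re → ∀ κ ∈ S, ∀ v ∈ ball w εc, C₁ * ‖v - w‖ ≤ 1 → ∀ i,
      ‖B s κ v i - B s κ w i‖ ≤ 2 * C₁ * ‖v - w‖ * ‖B s κ w i‖ := by
    intro s hs κ hκ v hv hvw i
    rw [hBeq s κ v i (haA κ hκ i), hBeq s κ w i (haA κ hκ i)]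
    by_cases h0 : a κ i = 0
    · have h2 : (⟨a κ i, haA κ hκ i⟩ : A) = 0 := Subtype.ext h0
      rw [h2, map_zero, map_zero]
      simp
    · have hf := haF κ hκ i h0
      have hp : (v, s) ∈ Dil w ε₃ Λ₃ := ⟨hεc3 hv, hs⟩
      have hp' : (w, s) ∈ Dil w ε₃ Λ₃ := ⟨mem_ball_self hε₃, hs⟩
      have h1 := hGe _ hf (haA κ hκ i) _ hp
      have h2 := hGe _ hf (haA κ hκ i) _ hp'
      have h3 := hGl _ hf _ hp _ hp' rfl
      simp only at h3
      rw [← h1, ← h2]
      set y := G (a κ i) (v, s) - G (a κ i) (w, s) with hy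
      have h4 : ‖y‖ ≤ 1 := h3.trans hvw
      have h5 := Complex.norm_exp_sub_one_le h4
      have h6 : Complex.exp s * Complex.exp (G (a κ i) (v, s)) -
          Complex.exp s * Complex.exp (G (a κ i) (w, s)) =
          Complex.exp s * Complex.exp (G (a κ i) (w, s)) * (Complex.exp y - 1) := by
        have h7 : Complex.exp (G (a κ i) (v, s)) =
            Complex.exp (G (a κ i) (w, s)) * Complex.exp y := by
          rw [← Complex.exp_add, hy]
          congr 1
          ring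
        rw [h7]
        ring
      rw [h6, norm_mul, mul_comm]
      apply mul_le_mul_of_nonneg_right _ (norm_nonneg _)
      linarith
  have hBbd : ∀ s : ℂ, Λ₃ < s.re → ∀ κ ∈ S, ‖B s κ w‖ ≤ CB := by
    intro s hs κ hκ
    have hwm := mem_ball_self (x := w) hε₃
    rw [pi_norm_le_iff_of_nonneg hCB0]
    intro i
    rw [← hHf s hs κ hκ w hwm i]
    have h1 := rb_slice_diff_v hΦ₃ hs ⟨σ, hσA⟩ hwm
    have h2 := hGv κ (hSF κ hκ) s hs w hwm
    have h3 : HasFDerivAt (H s κ) ((K : ℂ) • fderiv ℂ (fun v => Φ (v, s) ⟨σ, hσA⟩) w -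
        fderiv ℂ (fun v => G κ (v, s)) w) w :=
      (h1.hasFDerivAt.const_mul (K : ℂ)).sub h2.hasFDerivAt
    rw [h3.fderiv, _root_.sub_apply, _root_.smul_apply, smul_eq_mul]
    have h4 := rb_cauchy (fun v => Φ (v, s) ⟨σ, hσA⟩) w ε₃ C hε₃
      (fun v hv => rb_slice_diff_v hΦ₃ hs ⟨σ, hσA⟩ hv)
      (fun v hv => hC _ (dil_mono hε₃' hΛ₃ ⟨hv, hs⟩)) i
    have h5 : ‖fderiv ℂ (fun v => G κ (v, s)) w (Pi.single i 1)‖ ≤ C₁ := by
      have h6 : ‖fderiv ℂ (fun v => G κ (v, s)) w‖ ≤ C₁ := by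
        apply norm_fderiv_le_of_lip' ℂ (by linarith)
        filter_upwards [isOpen_ball.mem_nhds hwm] with v hv
        exact hGl κ (hSF κ hκ) (v, s) ⟨hv, hs⟩ (w, s) ⟨hwm, hs⟩ rfl
      have h7 : ‖(Pi.single i (1 : ℂ) : ι → ℂ)‖ ≤ 1 := by
        rw [pi_norm_le_iff_of_nonneg zero_le_one]
        intro j
        rw [Pi.single_apply]
        split_ifs <;> simp
      calc _ ≤ ‖fderiv ℂ (fun v => G κ (v, s)) w‖ * ‖(Pi.single i (1 : ℂ) : ι → ℂ)‖ :=
            ContinuousLinearMap.le_opNorm _ _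
        _ ≤ C₁ * 1 := mul_le_mul h6 h7 (norm_nonneg _) (by linarith)
        _ = C₁ := mul_one _
    refine (norm_sub_le _ _).trans ?_
    rw [norm_mul, Complex.norm_natCast]
    exact add_le_add (mul_le_mul_of_nonneg_left h4 (Nat.cast_nonneg _)) h5
  refine ⟨ε₁, hε₁, ?_⟩
  intro δ hδ
  set η : ℝ := δ / (b.natDegree + 1) with hη
  have hη0 : 0 < η := by positivity
  apply Eventually.frequently
  have hlogt : Tendsto (fun N : ℕ => Real.log (N : ℝ)) atTop atTop :=
    Real.tendsto_log_atTop.comp tendsto_natCast_atTop_atTop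
  have hevS : ∀ᶠ N : ℕ in atTop, ∀ κ ∈ S, Real.exp (-(η * N)) ≤
      (c₃ / 2 * Real.exp (-(2 * C₁))) * Real.exp ((θ κ + θ (f₀ κ)) * Real.log N) :=
    (Filter.eventually_all_finset S).2 fun κ _ => rb_ev hη0 (by positivity) _
  filter_upwards [hevS, rb_ev hη0 (Real.exp_pos (-(K * C))) 0, rb_ev hη0 (inv_pos.2 hC₂) 0,
    hlogt.eventually_gt_atTop (max (max Λ₂ Λ₃) 0), eventually_gt_atTop 0,
    (tendsto_natCast_atTop_atTop (R := ℝ)).eventually_ge_atTop (C / δ)] with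
    N hNS hN0 hNlc hNlog hNpos hNC
  have hΛ2 : Λ₂ < Real.log N :=
    lt_of_le_of_lt ((le_max_left _ _).trans (le_max_left _ _)) hNlog
  have hΛ3 : Λ₃ < Real.log N :=
    lt_of_le_of_lt ((le_max_right _ _).trans (le_max_left _ _)) hNlog
  have hlog0 : 0 < Real.log N := lt_of_le_of_lt (le_max_right _ _) hNlog
  have hNp : (0 : ℝ) < N := by exact_mod_cast hNpos
  have hN1 : (1 : ℝ) ≤ N := by exact_mod_cast hNpos
  rw [zero_mul, Real.exp_zero, mul_one] at hN0 hNlc
  set s : ℂ := ((Real.log N : ℝ) : ℂ) with hs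
  have hsre : s.re = Real.log N := Complex.ofReal_re _
  have hexps : Complex.exp s = N := by
    rw [hs, ← Complex.ofReal_exp, Real.exp_log hNp]
    simp
  have hexpns : Complex.exp (-s) = (N : ℂ)⁻¹ := by rw [Complex.exp_neg, hexps]
  have hs3 : Λ₃ < s.re := by rw [hsre]; exact hΛ3
  have hNc : (N : ℂ) ≠ 0 := by exact_mod_cast hNpos.ne'
  obtain ⟨y, hy1, hy2⟩ := hcore w (H s) (B s) (fun κ hκ v hv => hHd s hs3 κ hκ v (hεc3 hv))
    (fun κ hκ v hv i => hHf s hs3 κ hκ v (hεc3 hv) i)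
    (fun κ hκ v hv hvw i => hBvar s hs3 κ hκ v hv hvw i) (fun κ hκ => hBbd s hs3 κ hκ)
  refine ⟨s, fun i => N * β i + N * y i / (2 * Real.pi), hsre, ?_⟩
  intro x hx
  have hcent : ipt (fun i => N * β i + N * y i / (2 * Real.pi)) =
      (N : ℂ) • (w + fun i => Complex.I * (y i : ℂ)) := by
    ext i
    have hpi : (Real.pi : ℂ) ≠ 0 := by exact_mod_cast Real.pi_ne_zero
    simp only [ipt, hw, Pi.smul_apply, Pi.add_apply, smul_eq_mul]
    push_cast
    field_simp
  set v : ι → ℂ := Complex.exp (-s) • x with hv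
  have hxv : x = (N : ℂ) • v := by
    rw [hv, hexpns, smul_smul, mul_inv_cancel₀ hNc, one_smul]
  have hvb : v ∈ ball (w + fun i => Complex.I * (y i : ℂ)) ε₁ := by
    rw [hcent, hxv, mem_ball, dist_eq_norm, ← smul_sub, norm_smul, Complex.norm_natCast,
      mul_comm ε₁] at hx
    rw [mem_ball, dist_eq_norm]
    exact lt_of_mul_lt_mul_left hx hNp.le
  have hvc : v ∈ ball w εc := hy1 v hvb
  have hp3 : (v, s) ∈ Dil w ε₃ Λ₃ := ⟨hεc3 hvc, hs3⟩
  have hp0 : (v, s) ∈ Dil w ε₀ Λ₀ := dil_mono hε₃' hΛ₃ hp3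
  refine ⟨hp0, ?_, ?_⟩
  swap
  · refine (hC _ hp0).trans ?_
    rw [div_le_iff₀ hδ] at hNC
    linarith
  set ψ := Φ (v, s) with hψ
  set t : ℂ := Complex.exp (K * ψ ⟨σ, hσA⟩) with ht
  have hψz : ∀ i, ψ ⟨z i, hzA i⟩ = x i := fun i => rb_slice_z hΦ₃ hs3 x (hεc3 hvc) i
  have hm : ∀ κ ∈ roots, ∀ hκ : κ ∈ A, Real.exp (-(η * N)) ≤ ‖t - ψ ⟨κ, hκ⟩‖ := by
    intro κ hκr hκA
    by_cases h0 : κ = 0
    · have h1 : (⟨κ, hκA⟩ : A) = 0 := Subtype.ext h0
      rw [h1, map_zero, sub_zero, ht, Complex.norm_exp]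
      refine hN0.trans (Real.exp_le_exp.2 ?_)
      have h2 : |((K : ℂ) * ψ ⟨σ, hσA⟩).re| ≤ K * C := by
        refine (Complex.abs_re_le_norm _).trans ?_
        rw [norm_mul, Complex.norm_natCast]
        exact mul_le_mul_of_nonneg_left (hC _ hp0) (Nat.cast_nonneg _)
      exact (abs_le.1 h2).1
    · have hκS : κ ∈ S := Finset.mem_erase.2 ⟨h0, Multiset.mem_toFinset.2 hκr⟩
      have hGk := hGe κ (hSF κ hκS) hκA _ hp3
      have hfact : t - ψ ⟨κ, hκA⟩ = ψ ⟨κ, hκA⟩ * (Complex.exp (H s κ v) - 1) := by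
        have h1 : t = ψ ⟨κ, hκA⟩ * Complex.exp (H s κ v) := by
          rw [ht, ← hGk, ← Complex.exp_add]
          congr 1
          simp only [hH]
          ring
        rw [h1]
        ring
      rw [hfact, norm_mul]
      -- lower bound for `‖B‖`
      obtain ⟨i, hai, hi⟩ := hf₀ κ hκS
      rw [← hai] at hi
      have hfF := haF κ hκS i hi
      have hpw : (w, s) ∈ Dil w ε₃ Λ₃ := ⟨mem_ball_self hε₃, hs3⟩
      have hBlow : Real.exp (θ (f₀ κ) * Real.log N - C₁) ≤ ‖B s κ w‖ := by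
        rw [← hai]
        refine le_trans ?_ (norm_le_pi_norm (B s κ w) i)
        rw [hBeq s κ w i (haA κ hκS _), ← hGe _ hfF (haA κ hκS _) _ hpw, norm_mul, hexps,
          Complex.norm_natCast, Complex.norm_exp]
        have h1 := hGr _ hfF _ hpw
        have h2 := (abs_le.1 h1).1
        simp only [hsre] at h2
        have h3 : Real.exp (θ (a κ i) * Real.log N - C₁) ≤
            Real.exp (G (a κ i) (w, s)).re := Real.exp_le_exp.2 (by linarith)
        have h4 := Real.exp_pos (G (a κ i) (w, s)).re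
        nlinarith
      have hBpos : 0 < ‖B s κ w‖ := lt_of_lt_of_le (Real.exp_pos _) hBlow
      have hμ1 : c₃ * ‖B s κ w‖ ≤ 1 :=
        (mul_le_mul_of_nonneg_left (hBbd s hs3 κ hκS) hc₃.le).trans hc₃'
      have hexp := rb_exp_sub_one (h := H s κ v) (mul_pos hc₃ hBpos) hμ1
        (fun k => hy2 κ hκS v hvb k)
      have hψκ : Real.exp (θ κ * Real.log N - C₁) ≤ ‖ψ ⟨κ, hκA⟩‖ := by
        rw [← hGk, Complex.norm_exp]
        have h1 := hGr κ (hSF κ hκS) _ hp3
        have h2 := (abs_le.1 h1).1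
        simp only [hsre] at h2
        exact Real.exp_le_exp.2 (by linarith)
      calc Real.exp (-(η * N)) ≤ (c₃ / 2 * Real.exp (-(2 * C₁))) *
            Real.exp ((θ κ + θ (f₀ κ)) * Real.log N) := hNS κ hκS
        _ = Real.exp (θ κ * Real.log N - C₁) *
            (c₃ * Real.exp (θ (f₀ κ) * Real.log N - C₁) / 2) := by
          have e1 : Real.exp (θ κ * Real.log N - C₁) *
              Real.exp (θ (f₀ κ) * Real.log N - C₁) =
              Real.exp (-(2 * C₁)) * Real.exp ((θ κ + θ (f₀ κ)) * Real.log N) := by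
            rw [← Real.exp_add, ← Real.exp_add]
            congr 1
            ring
          linear_combination (-(c₃ / 2)) * e1
        _ ≤ ‖ψ ⟨κ, hκA⟩‖ * ‖Complex.exp (H s κ v) - 1‖ := by
          apply mul_le_mul hψκ _ (by positivity) (norm_nonneg _)
          refine le_trans ?_ hexp
          have := mul_le_mul_of_nonneg_left hBlow hc₃.le
          linarith
  have hev := rb_evT z hz b A hzA hrA ψ x hψz t (Real.exp (-(η * N))) (Real.exp_pos _).le hm
  have hlc : Real.exp (-(η * N)) ≤ ‖eval x b.leadingCoeff‖ := by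
    have h1 := (hdil s (by rw [hsre]; exact hΛ2) v (hεc2 hvc)).1
    have h2 : (fun i => Complex.exp s * v i) = x := by
      rw [hexps, hxv]
      rfl
    rw [h2, hsre] at h1
    refine le_trans ?_ h1
    refine hNlc.trans ?_
    have h3 : 1 ≤ Real.exp ((b.leadingCoeff.totalDegree : ℝ) * Real.log N) :=
      Real.one_le_exp (by positivity)
    have h4 : 0 < C₂⁻¹ := inv_pos.2 hC₂
    nlinarith
  have hfin : Real.exp (-(δ * N)) = Real.exp (-(η * N)) * Real.exp (-(η * N)) ^ b.natDegree := by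
    rw [← Real.exp_nat_mul, ← Real.exp_add]
    congr 1
    rw [hη]
    field_simp
    ring
  rw [hfin]
  exact (mul_le_mul_of_nonneg_right hlc (by positivity)).trans hev

end Pool.Agent.Lib.MP_209724_lc.HS
end
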