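import Mathlib
import Pool.Agent.Lib.MP_209724_lc.SC.Ed3
import Pool.Agent.Lib.MP_209724_lc.MV.Branch
import Pool.Agent.Lib.MP_209724_lc.HS.Branch
import Pool.Agent.Lib.MP_209724_lc.SC.Sp0
import Pool.Agent.Lib.MP_209724_lc.MV.GenericPoint
import Pool.Agent.Lib.MP_209724_lc.MV.HurwitzMulti

section

/-!
A direction with integral coordinates in which a form is not constant.
-/

namespace Pool.Agent.Lib.MP_209724_lc.HS

open MvPolynomial

private theorem dir_clear {ι : Type} [Fintype ι] (q : ι → ℚ) :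
    ∃ (K : ℤ) (μ : ι → ℤ), 0 < K ∧ ∀ i, (μ i : ℚ) = K * q i := by
  classical
  refine ⟨∏ i, ((q i).den : ℤ), fun i => (∏ j ∈ Finset.univ.erase i, ((q j).den : ℤ)) * (q i).num,
    Finset.prod_pos fun i _ => by exact_mod_cast (q i).den_pos, fun i => ?_⟩
  have h1 : (∏ j, ((q j).den : ℤ)) = (∏ j ∈ Finset.univ.erase i, ((q j).den : ℤ)) * (q i).den := by
    rw [Finset.prod_erase_mul _ _ (Finset.mem_univ i)]
  have h2 : ((q i).den : ℚ) * q i = (q i).num := Rat.den_mul_eq_num (q i)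
  rw [h1]
  push_cast
  rw [mul_assoc, h2]

/-- If `p` is not constant in the complex direction `v`, and each integral vector `μ` which is not
orthogonal to `v` is not orthogonal to `S`, then `p` is not constant in some direction of `S`. -/
theorem exists_direction_of {n : ℕ} (p : MvPolynomial (Fin n) ℂ) (v : Fin n → ℂ)
    (hv : ∑ i, C (v i) * pderiv i p ≠ 0) (S : Set (Fin n → ℤ))
    (hS : ∀ μ : Fin n → ℤ, ∑ i, (μ i : ℂ) * v i ≠ 0 → ∃ a ∈ S, ∑ i, a i * μ i ≠ 0) :
    ∃ a ∈ S, ∑ i, C (a i : ℂ) * pderiv i p ≠ 0 := by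
  classical
  obtain ⟨m, hm⟩ : ∃ m, coeff m (∑ i, C (v i) * pderiv i p) ≠ 0 := by
    by_contra hcon
    push Not at hcon
    exact hv (by ext m; rw [hcon m, coeff_zero])
  set φ : Fin n → ℂ := fun i => coeff m (pderiv i p) with hφ
  have hφv : ∑ i, φ i * v i ≠ 0 := by
    intro h
    apply hm
    rw [coeff_sum, ← h]
    refine Finset.sum_congr rfl fun i _ => ?_
    rw [coeff_C_mul, mul_comm]
  set B := Module.Basis.ofVectorSpace ℚ ℂ with hB
  set F : Finset (Module.Basis.ofVectorSpaceIndex ℚ ℂ) :=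
    Finset.univ.biUnion fun i => (B.repr (φ i)).support with hF
  have hφsum : ∀ i, φ i = ∑ k ∈ F, ((B.repr (φ i) k : ℚ) : ℂ) * B k := by
    intro i
    conv_lhs => rw [← B.linearCombination_repr (φ i), Finsupp.linearCombination_apply,
      Finsupp.sum]
    rw [Finset.sum_subset (s₂ := F)]
    · refine Finset.sum_congr rfl fun k _ => ?_
      rw [Rat.smul_def]
    · intro k hk
      rw [hF, Finset.mem_biUnion]
      exact ⟨i, Finset.mem_univ _, hk⟩
    · intro k _ hk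
      rw [Finsupp.notMem_support_iff] at hk
      rw [hk, zero_smul]
  obtain ⟨k, hk⟩ : ∃ k, ∑ i, ((B.repr (φ i) k : ℚ) : ℂ) * v i ≠ 0 := by
    by_contra hcon
    push Not at hcon
    apply hφv
    have h1 : ∑ i, φ i * v i = ∑ k ∈ F, (∑ i, ((B.repr (φ i) k : ℚ) : ℂ) * v i) * B k := by
      have h2 : ∀ i, φ i * v i = ∑ k ∈ F, ((B.repr (φ i) k : ℚ) : ℂ) * v i * B k := by
        intro i
        conv_lhs => rw [hφsum i, Finset.sum_mul]
        refine Finset.sum_congr rfl fun k _ => ?_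
        ring
      simp_rw [h2, Finset.sum_mul]
      rw [Finset.sum_comm]
    rw [h1]
    exact Finset.sum_eq_zero fun k _ => by rw [hcon k, zero_mul]
  obtain ⟨K, μ, hK, hμ⟩ := dir_clear (fun i => B.repr (φ i) k)
  have hμv : ∑ i, (μ i : ℂ) * v i ≠ 0 := by
    have h1 : ∑ i, (μ i : ℂ) * v i = K * ∑ i, ((B.repr (φ i) k : ℚ) : ℂ) * v i := by
      rw [Finset.mul_sum]
      refine Finset.sum_congr rfl fun i _ => ?_
      have h2 : (μ i : ℂ) = K * ((B.repr (φ i) k : ℚ) : ℂ) := by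
        have := congrArg (fun q : ℚ => (q : ℂ)) (hμ i)
        simpa using this
      rw [h2, mul_assoc]
    rw [h1]
    exact mul_ne_zero (by exact_mod_cast hK.ne') hk
  obtain ⟨a, haS, ha⟩ := hS μ hμv
  refine ⟨a, haS, fun h => ha ?_⟩
  have h1 : ∑ i, (a i : ℂ) * φ i = 0 := by
    have h2 := congrArg (coeff m) h
    rw [coeff_sum, coeff_zero] at h2
    rw [← h2]
    refine Finset.sum_congr rfl fun i _ => ?_
    rw [coeff_C_mul]
  have h3 : B.repr (∑ i, (a i : ℂ) * φ i) = ∑ i, (a i : ℚ) • B.repr (φ i) := by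
    rw [map_sum]
    refine Finset.sum_congr rfl fun i _ => ?_
    rw [← map_smul]
    congr 1
  rw [h1, map_zero] at h3
  have h4 : (0 : ℚ) = ∑ i, (a i : ℚ) * B.repr (φ i) k := by
    have := congrArg (fun f => f k) h3
    simp only [Finsupp.coe_zero, Pi.zero_apply, Finsupp.coe_finsetSum, Finset.sum_apply,
      Finsupp.coe_smul, Pi.smul_apply, smul_eq_mul] at this
    exact this
  have h5 : ((∑ i, a i * μ i : ℤ) : ℚ) = 0 := by
    push_cast
    have h6 : ∑ i, (a i : ℚ) * (μ i : ℚ) = K * ∑ i, (a i : ℚ) * B.repr (φ i) k := by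
      rw [Finset.mul_sum]
      refine Finset.sum_congr rfl fun i _ => ?_
      rw [hμ i]
      ring
    rw [h6, ← h4, mul_zero]
  exact_mod_cast h5

end Pool.Agent.Lib.MP_209724_lc.HS
end

section

namespace Pool.Agent.Lib.MP_209724_lc.HS

open MvPolynomial Filter Topology Metric
open MV (lead evT glue)
open GC (evM)

/-- the integer vector is a positive multiple of a rational vector -/
private theorem mu_clear {n : ℕ} (x : Fin n → ℚ) :
    ∃ (N : ℕ) (μ : Fin n → ℤ), 0 < N ∧ ∀ i, (μ i : ℚ) = N * x i := by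
  refine ⟨∏ i, (x i).den, fun i => (x i).num * ∏ j ∈ Finset.univ.erase i, ((x j).den : ℤ),
    Finset.prod_pos fun i _ => (x i).pos, fun i => ?_⟩
  have h1 : (∏ j, ((x j).den : ℚ)) = (x i).den * ∏ j ∈ Finset.univ.erase i, ((x j).den : ℚ) :=
    (Finset.mul_prod_erase Finset.univ (fun j => ((x j).den : ℚ)) (Finset.mem_univ i)).symm
  have h2 : (x i) * (x i).den = (x i).num := Rat.mul_den_eq_num (x i)
  push_cast
  rw [h1, ← h2]
  ring

/-- HS-23: a rational approximation of `c` with the same signs. -/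
theorem exists_mu {n : ℕ} (c : Fin n → ℝ) (V : Finset (Fin n → ℤ)) :
    ∃ μ : Fin n → ℤ, (∀ α : Fin n → ℚ, ∑ i, c i * α i = 0 → ∑ i, (μ i : ℚ) * α i = 0) ∧
      ∀ a ∈ V, (0 < ∑ i, c i * a i ↔ 0 < ∑ i, μ i * a i) ∧
        (∑ i, c i * a i < 0 ↔ ∑ i, μ i * a i < 0) := by
  classical
  let W : Submodule ℚ ℝ := Submodule.span ℚ (Set.range c)
  have : FiniteDimensional ℚ W := FiniteDimensional.span_of_finite ℚ (Set.finite_range c)
  let b := Module.finBasis ℚ W
  have hcW : ∀ i, c i ∈ W := fun i => Submodule.subset_span (Set.mem_range_self i)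
  let q : Fin n → Fin (Module.finrank ℚ W) → ℚ := fun i k => b.repr ⟨c i, hcW i⟩ k
  have hc : ∀ i, c i = ∑ k, (q i k : ℝ) * (b k : ℝ) := by
    intro i
    have h := b.sum_repr ⟨c i, hcW i⟩
    have h2 := congrArg (fun x : W => (x : ℝ)) h
    simp only [Submodule.coe_sum, Submodule.coe_smul] at h2
    rw [← h2]
    refine Finset.sum_congr rfl fun k _ => ?_
    rw [Rat.smul_def]
  -- relations pass to the coordinates
  have hrel : ∀ α : Fin n → ℚ, ∑ i, c i * α i = 0 → ∀ k, ∑ i, q i k * α i = 0 := by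
    intro α hα
    have h1 : ∑ k, (∑ i, q i k * α i) • b k = 0 := by
      apply Subtype.ext
      simp only [Submodule.coe_sum, Submodule.coe_smul, Submodule.coe_zero]
      rw [← hα]
      simp only [Rat.smul_def]
      push_cast
      simp only [Finset.sum_mul]
      rw [Finset.sum_comm]
      refine Finset.sum_congr rfl fun i _ => ?_
      rw [hc i, Finset.sum_mul]
      refine Finset.sum_congr rfl fun k _ => ?_
      ring
    have h2 := (Fintype.linearIndependent_iff.1 b.linearIndependent) _ h1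
    exact h2
  -- the linear forms
  let f : (Fin n → ℤ) → (Fin (Module.finrank ℚ W) → ℝ) → ℝ := fun a t =>
    ∑ i, (∑ k, (q i k : ℝ) * t k) * a i
  have hfc : ∀ a, Continuous (f a) := by
    intro a
    show Continuous fun t : Fin (Module.finrank ℚ W) → ℝ => ∑ i, (∑ k, (q i k : ℝ) * t k) * a i
    fun_prop
  have hfw : ∀ a, f a (fun k => (b k : ℝ)) = ∑ i, c i * a i := by
    intro a
    show ∑ i, (∑ k, (q i k : ℝ) * (b k : ℝ)) * a i = _
    refine Finset.sum_congr rfl fun i _ => ?_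
    rw [← hc i]
  have hf0 : ∀ a, ∑ i, c i * a i = 0 → ∀ t, f a t = 0 := by
    intro a ha t
    have h1 : ∑ i, c i * ((a i : ℚ) : ℝ) = 0 := by
      rw [← ha]
      refine Finset.sum_congr rfl fun i _ => ?_
      push_cast
      rfl
    have h2 := hrel (fun i => (a i : ℚ)) h1
    show ∑ i, (∑ k, (q i k : ℝ) * t k) * a i = 0
    simp only [Finset.sum_mul]
    rw [Finset.sum_comm]
    refine Finset.sum_eq_zero fun k _ => ?_
    have h3 := h2 k
    have h4 : ((∑ i, q i k * (a i : ℚ) : ℚ) : ℝ) = 0 := by rw [h3]; simp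
    push_cast at h4
    calc ∑ i, (q i k : ℝ) * t k * a i = t k * ∑ i, (q i k : ℝ) * a i := by
          rw [Finset.mul_sum]
          refine Finset.sum_congr rfl fun i _ => ?_
          ring
      _ = 0 := by rw [h4, mul_zero]
  -- the open set
  let U : Set (Fin (Module.finrank ℚ W) → ℝ) := ⋂ a ∈ V,
    {t | ∑ i, c i * a i = 0 ∨ 0 < (∑ i, c i * a i) * f a t}
  have hU : IsOpen U := by
    refine V.finite_toSet.isOpen_biInter fun a _ => ?_
    have h1 : IsOpen {t : Fin (Module.finrank ℚ W) → ℝ | 0 < (∑ i, c i * a i) * f a t} :=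
      isOpen_lt continuous_const (continuous_const.mul (hfc a))
    by_cases h0 : ∑ i, c i * a i = 0
    · simp only [h0, true_or, Set.ofPred_true, isOpen_univ]
    · simp only [h0, false_or]
      exact h1
  have hUne : U.Nonempty := by
    refine ⟨fun k => (b k : ℝ), ?_⟩
    simp only [U, Set.mem_iInter, Set.mem_ofPred_eq]
    intro a _
    by_cases h0 : ∑ i, c i * a i = 0
    · exact Or.inl h0
    · right
      rw [hfw]
      exact mul_self_pos.2 h0
  have hdense : DenseRange (fun (r : Fin (Module.finrank ℚ W) → ℚ) => fun k => ((r k : ℚ) : ℝ)) :=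
    DenseRange.piMap fun _ => Rat.denseRange_cast
  obtain ⟨r, hr⟩ := hdense.exists_mem_open hU hUne
  obtain ⟨N, μ, hN, hμ⟩ := mu_clear fun i => ∑ k, q i k * r k
  have hNR : (0 : ℝ) < N := by exact_mod_cast hN
  have hμR : ∀ a : Fin n → ℤ, ((∑ i, μ i * a i : ℤ) : ℝ) = N * f a (fun k => ((r k : ℚ) : ℝ)) := by
    intro a
    show _ = (N : ℝ) * ∑ i, (∑ k, (q i k : ℝ) * ((r k : ℚ) : ℝ)) * a i
    rw [Finset.mul_sum]
    push_cast
    refine Finset.sum_congr rfl fun i _ => ?_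
    have h1 : (((μ i : ℚ)) : ℝ) = ((N * ∑ k, q i k * r k : ℚ) : ℝ) := by rw [hμ i]
    push_cast at h1
    rw [h1]
    ring
  refine ⟨μ, ?_, ?_⟩
  · intro α hα
    have h1 := hrel α hα
    simp only [hμ]
    calc ∑ i, (N : ℚ) * (∑ k, q i k * r k) * α i = ∑ i, ∑ k, N * r k * (q i k * α i) := by
          refine Finset.sum_congr rfl fun i _ => ?_
          rw [Finset.mul_sum, Finset.sum_mul]
          refine Finset.sum_congr rfl fun k _ => ?_
          ring
      _ = ∑ k, ∑ i, N * r k * (q i k * α i) := Finset.sum_comm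
      _ = ∑ k, N * r k * ∑ i, q i k * α i := by
          refine Finset.sum_congr rfl fun k _ => ?_
          rw [Finset.mul_sum]
      _ = 0 := by
          refine Finset.sum_eq_zero fun k _ => ?_
          rw [h1 k, mul_zero]
  · intro a ha
    have h1 := hμR a
    have h2 : (∑ i, c i * a i = 0 ∨ 0 < (∑ i, c i * a i) * f a (fun k => ((r k : ℚ) : ℝ))) := by
      have := hr
      simp only [U, Set.mem_iInter, Set.mem_ofPred_eq] at this
      exact this a ha
    rcases h2 with h2 | h2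
    · rw [hf0 a h2, mul_zero] at h1
      have h3 : ∑ i, μ i * a i = 0 := by exact_mod_cast h1
      rw [h2, h3]
      simp
    · have e1 : (0 < ∑ i, μ i * a i) ↔ 0 < f a (fun k => ((r k : ℚ) : ℝ)) := by
        rw [← Int.cast_pos (R := ℝ), h1]
        exact mul_pos_iff_of_pos_left hNR
      have e2 : (∑ i, μ i * a i < 0) ↔ f a (fun k => ((r k : ℚ) : ℝ)) < 0 := by
        rw [← Int.cast_lt_zero (R := ℝ), h1]
        exact ⟨fun h => by nlinarith, fun h => mul_neg_of_pos_of_neg hNR h⟩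
      rw [e1, e2]
      rcases pos_and_pos_or_neg_and_neg_of_mul_pos h2 with ⟨h3, h4⟩ | ⟨h3, h4⟩
      · exact ⟨⟨fun _ => h4, fun _ => h3⟩, ⟨fun h => absurd h h3.le.not_gt, fun h => absurd h h4.le.not_gt⟩⟩
      · exact ⟨⟨fun h => absurd h h3.le.not_gt, fun h => absurd h h4.le.not_gt⟩, ⟨fun _ => h4, fun _ => h3⟩⟩

end Pool.Agent.Lib.MP_209724_lc.HS
end

section

/-!
Divisibility of polynomials that do not involve `X l`.
-/

namespace Pool.Agent.Lib.MP_209724_lc.HS

open MvPolynomial Filter Topology Metric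
open MV (lead evT glue)
open GC (evM)

variable {n : ℕ}

private theorem degreeOf_rename_val (l : Fin n) (c : MvPolynomial {j : Fin n // j ≠ l} ℂ) :
    degreeOf l (rename Subtype.val c) = 0 := by
  classical
  by_contra h
  have h1 : l ∈ (rename Subtype.val c : MvPolynomial (Fin n) ℂ).vars := by
    rw [vars_def, Multiset.mem_toFinset]
    rw [degreeOf_def] at h
    exact Multiset.count_ne_zero.1 h
  have h2 := vars_rename Subtype.val c h1
  rw [Finset.mem_image] at h2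
  obtain ⟨j, _, hj⟩ := h2
  exact j.2 hj

private theorem degreeOf_pos_of_pderiv {q : MvPolynomial (Fin n) ℂ} {l : Fin n}
    (h : pderiv l q ≠ 0) : 0 < degreeOf l q := by
  classical
  by_contra hcon
  apply h
  apply pderiv_eq_zero_of_notMem_vars
  intro hl
  rw [vars_def, Multiset.mem_toFinset] at hl
  have := Multiset.count_pos.2 hl
  rw [degreeOf_def] at hcon
  omega

private theorem degreeOf_le_of_dvd {q R : MvPolynomial (Fin n) ℂ} (l : Fin n) (hR : R ≠ 0)
    (h : q ∣ R) : degreeOf l q ≤ degreeOf l R := by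
  obtain ⟨s, rfl⟩ := h
  rw [degreeOf_mul_eq (left_ne_zero_of_mul hR) (right_ne_zero_of_mul hR)]
  exact Nat.le_add_right _ _

private theorem degreeOf_lead_le (P : MvPolynomial (Fin n) ℂ) (l : Fin n) :
    degreeOf l (lead P) ≤ degreeOf l P := by
  rw [degreeOf_le_iff]
  intro m hm
  have h1 : m ∈ P.support := by
    rw [mem_support_iff] at hm ⊢
    unfold lead at hm
    rw [coeff_homogeneousComponent] at hm
    split_ifs at hm with h
    · exact hm
    · exact absurd rfl hm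
  exact monomial_le_degreeOf l h1

/-- a polynomial involving `X l` does not divide a nonzero polynomial which does not. -/
theorem not_dvd_rename {q : MvPolynomial (Fin n) ℂ} {l : Fin n} (h : pderiv l q ≠ 0)
    {c : MvPolynomial {j : Fin n // j ≠ l} ℂ} (hc : c ≠ 0) : ¬ q ∣ rename Subtype.val c := by
  intro hdvd
  have h0 : rename Subtype.val c ≠ (0 : MvPolynomial (Fin n) ℂ) := by
    rw [Ne, ← map_zero (rename (R := ℂ) (Subtype.val : {j : Fin n // j ≠ l} → Fin n)),
      (rename_injective _ Subtype.val_injective).eq_iff]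
    exact hc
  have h1 := degreeOf_le_of_dvd l h0 hdvd
  rw [degreeOf_rename_val] at h1
  have h2 := degreeOf_pos_of_pderiv h
  omega

theorem pderiv_ne_of_lead {P q r : MvPolynomial (Fin n) ℂ} {e : ℕ} (he : 0 < e)
    (hfac : lead P = q ^ e * r) (hP : P ≠ 0) {l : Fin n} (h : pderiv l q ≠ 0) :
    pderiv l P ≠ 0 := by
  have hlead := MV.lead_ne_zero hP
  have h1 : q ∣ lead P := by
    rw [hfac]
    exact (dvd_pow_self q he.ne').mul_right r
  have h2 := degreeOf_le_of_dvd l hlead h1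
  have h3 := degreeOf_lead_le P l
  have h4 := degreeOf_pos_of_pderiv h
  intro h5
  -- then `P` does not involve `X l`
  have h6 : degreeOf l P ≤ 0 := by
    rw [degreeOf_le_iff]
    intro m hm
    by_contra hml
    push Not at hml
    have h7 : coeff (m - Finsupp.single l 1) (pderiv l P) = 0 := by rw [h5]; simp
    have h8 : (m - Finsupp.single l 1) + Finsupp.single l 1 = m := by
      ext i
      by_cases hi : i = l
      · subst hi
        simp
        omega
      · simp [Ne.symm hi]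
    rw [coeff_pderiv, h8] at h7
    rw [mem_support_iff] at hm
    rcases mul_eq_zero.mp h7 with h9 | h9
    · exact hm h9
    · have h10 : ∀ a : ℕ, (a : ℂ) + 1 ≠ 0 := fun a => by exact_mod_cast Nat.succ_ne_zero a
      exact h10 _ h9
  omega

end Pool.Agent.Lib.MP_209724_lc.HS
end

section

namespace Pool.Agent.Lib.MP_209724_lc.HS

open MvPolynomial Filter Topology Metric
open MV (lead evT glue)
open GC (evM)

/-- clearing denominators -/
private theorem prim_clear {ι : Type} [Fintype ι] (q : ι → ℚ) :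
    ∃ (K : ℕ) (μ : ι → ℤ), 0 < K ∧ ∀ j, (μ j : ℚ) = K * q j := by
  classical
  refine ⟨∏ j, (q j).den, fun j => (q j).num * ((∏ k ∈ Finset.univ.erase j, (q k).den : ℕ) : ℤ),
    Finset.prod_pos fun j _ => (q j).den_pos, fun j => ?_⟩
  have h1 : ∏ j, (q j).den = (q j).den * ∏ k ∈ Finset.univ.erase j, (q k).den :=
    (Finset.mul_prod_erase _ _ (Finset.mem_univ j)).symm
  rw [h1, Nat.cast_mul, Int.cast_mul, Int.cast_natCast]
  have h2 : ((q j).den : ℚ) * q j = (q j).num := by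
    rw [mul_comm]
    exact Rat.mul_den_eq_num (q j)
  calc ((q j).num : ℚ) * ((∏ k ∈ Finset.univ.erase j, (q k).den : ℕ) : ℚ)
      = (((q j).den : ℚ) * q j) * ((∏ k ∈ Finset.univ.erase j, (q k).den : ℕ) : ℚ) := by rw [h2]
    _ = _ := by ring

/-- HS-44a: a primitive integral vector. -/
theorem exists_primitive {n : ℕ} (l : Fin n) (c' : {j : Fin n // j ≠ l} → ℚ) :
    ∃ (K : ℕ) (μ : Fin n → ℤ), 0 < K ∧ μ l = K ∧
      (∀ j : {j : Fin n // j ≠ l}, (μ j : ℚ) = -(K * c' j)) ∧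
      ∀ d : ℤ, (∀ i, d ∣ μ i) → IsUnit d := by
  classical
  obtain ⟨K₀, ν, hK₀, hν⟩ := prim_clear c'
  set μ₀ : Fin n → ℤ := fun i => if h : i = l then (K₀ : ℤ) else -ν ⟨i, h⟩ with hμ₀
  have hl : μ₀ l = K₀ := by simp [hμ₀]
  have hj : ∀ j : {j : Fin n // j ≠ l}, μ₀ j = -ν j := by
    intro j
    simp [hμ₀, j.2]
  set g : ℤ := Finset.univ.gcd μ₀ with hg
  have hgd : ∀ i, g ∣ μ₀ i := fun i => Finset.gcd_dvd (Finset.mem_univ i)
  have hg0 : g ≠ 0 := by
    intro h
    have h1 := hgd l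
    rw [h, hl, zero_dvd_iff] at h1
    have : K₀ = 0 := by exact_mod_cast h1
    omega
  have hG0 : 0 < g.natAbs := Int.natAbs_pos.2 hg0
  have hGd : ∀ i, (g.natAbs : ℤ) ∣ μ₀ i := fun i => Int.natAbs_dvd.2 (hgd i)
  choose μ hμ using hGd
  obtain ⟨K, hK⟩ : g.natAbs ∣ K₀ := by
    have := hμ l
    rw [hl] at this
    exact Int.natCast_dvd_natCast.1 ⟨μ l, this⟩
  have hGq : ((g.natAbs : ℕ) : ℚ) ≠ 0 := by exact_mod_cast hG0.ne'
  have hGz : ((g.natAbs : ℕ) : ℤ) ≠ 0 := by exact_mod_cast hG0.ne'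
  refine ⟨K, μ, ?_, ?_, ?_, ?_⟩
  · rcases Nat.eq_zero_or_pos K with h | h
    · rw [h, mul_zero] at hK
      omega
    · exact h
  · have h1 := hμ l
    rw [hl, hK] at h1
    push_cast at h1
    exact (mul_left_cancel₀ (by simpa using hGz) h1).symm
  · intro j
    have h1 := hμ j
    rw [hj] at h1
    have h2 : (ν j : ℚ) = K₀ * c' j := hν j
    have h3 : (-(ν j : ℚ)) = ((g.natAbs : ℕ) : ℚ) * (μ j : ℚ) := by
      rw [← Int.cast_neg, h1, Int.cast_mul, Int.cast_natCast]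
    rw [h2, hK, Nat.cast_mul] at h3
    apply mul_left_cancel₀ hGq
    linarith
  · intro d hd
    have h1 : (g.natAbs : ℤ) * d ∣ g := by
      rw [hg]
      apply Finset.dvd_gcd
      intro i _
      rw [hμ i]
      exact mul_dvd_mul_left _ (hd i)
    have h2 : (g.natAbs : ℤ) * d ∣ (g.natAbs : ℤ) * 1 := by
      rw [mul_one]
      exact Int.dvd_natAbs.2 h1
    exact isUnit_of_dvd_one ((mul_dvd_mul_iff_left hGz).1 h2)

/-- HS-44b: a direction in which a form is not constant. -/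
theorem exists_direction {n : ℕ} (p : MvPolynomial (Fin n) ℂ) (hp : ∃ i, pderiv i p ≠ 0)
    (S : Set (Fin n → ℤ))
    (hS : ∀ μ : Fin n → ℤ, μ ≠ 0 → ∃ a ∈ S, ∑ i, a i * μ i ≠ 0) :
    ∃ a ∈ S, ∑ i, C (a i : ℂ) * pderiv i p ≠ 0 := by
  classical
  obtain ⟨i₀, hi₀⟩ := hp
  let φ : (Fin n → ℚ) →ₗ[ℚ] MvPolynomial (Fin n) ℂ :=
    { toFun := fun v => ∑ i, C ((v i : ℚ) : ℂ) * pderiv i p
      map_add' := fun v v' => by
        rw [← Finset.sum_add_distrib]
        refine Finset.sum_congr rfl fun i _ => ?_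
        rw [Pi.add_apply, Rat.cast_add, C_add]
        ring
      map_smul' := fun c v => by
        rw [RingHom.id_apply, Finset.smul_sum]
        refine Finset.sum_congr rfl fun i _ => ?_
        have h1 : c • (C ((v i : ℚ) : ℂ) * pderiv i p) = (c : ℂ) • (C ((v i : ℚ) : ℂ) *
            pderiv i p) := by
          rw [Rat.cast_smul_eq_qsmul]
        rw [h1, MvPolynomial.smul_eq_C_mul, Pi.smul_apply, smul_eq_mul, Rat.cast_mul, C_mul]
        ring }
  have hφ : ∀ v, φ v = ∑ i, C ((v i : ℚ) : ℂ) * pderiv i p := fun v => rfl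
  have hlt : LinearMap.ker φ < ⊤ := by
    rw [lt_top_iff_ne_top]
    intro h
    have h1 : (Pi.single i₀ 1 : Fin n → ℚ) ∈ LinearMap.ker φ := by rw [h]; trivial
    rw [LinearMap.mem_ker, hφ, Finset.sum_eq_single i₀ (fun i _ hi => by
      rw [Pi.single_eq_of_ne hi, Rat.cast_zero, C_0, zero_mul])
      (fun h => absurd (Finset.mem_univ _) h)] at h1
    rw [Pi.single_eq_same, Rat.cast_one, C_1, one_mul] at h1
    exact hi₀ h1
  obtain ⟨f, hf0, hf⟩ := Submodule.exists_le_ker_of_lt_top _ hlt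
  have hfv : ∀ v, f v = ∑ i, v i * f (Pi.single i 1) := by
    intro v
    conv_lhs => rw [← Finset.univ_sum_single v]
    rw [map_sum]
    refine Finset.sum_congr rfl fun i _ => ?_
    have : (Pi.single i (v i) : Fin n → ℚ) = v i • Pi.single i 1 := by
      rw [← Pi.single_smul, smul_eq_mul, mul_one]
    rw [this, map_smul, smul_eq_mul]
  obtain ⟨K, μ, hK, hμ⟩ := prim_clear (fun i => f (Pi.single i 1))
  have hKq : (K : ℚ) ≠ 0 := by exact_mod_cast hK.ne'
  have hμ0 : μ ≠ 0 := by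
    rintro rfl
    apply hf0
    ext v
    have h1 : ∀ i, f (Pi.single i 1) = 0 := by
      intro i
      have := hμ i
      rw [Pi.zero_apply, Int.cast_zero] at this
      rcases mul_eq_zero.1 this.symm with h | h
      · exact absurd h hKq
      · exact h
    simp [h1]
  obtain ⟨a, haS, ha⟩ := hS μ hμ0
  refine ⟨a, haS, fun h => ha ?_⟩
  have h1 : (fun i => (a i : ℚ)) ∈ LinearMap.ker φ := by
    rw [LinearMap.mem_ker, hφ, ← h]
    refine Finset.sum_congr rfl fun i _ => ?_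
    rw [Rat.cast_intCast]
  have h2 : f (fun i => (a i : ℚ)) = 0 := hf h1
  rw [hfv] at h2
  have h3 : ((∑ i, a i * μ i : ℤ) : ℚ) = 0 := by
    push_cast
    have h4 : ∑ i, (a i : ℚ) * (μ i : ℚ) = K * ∑ i, (a i : ℚ) * f (Pi.single i 1) := by
      rw [Finset.mul_sum]
      refine Finset.sum_congr rfl fun i _ => ?_
      rw [hμ i]
      ring
    rw [h4, h2, mul_zero]
  exact_mod_cast h3

end Pool.Agent.Lib.MP_209724_lc.HS
end

section

namespace Pool.Agent.Lib.MP_209724_lc.HS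

open MvPolynomial Filter Topology Metric
open MV (lead evT glue)
open GC (evM)

/-- common denominators (copy of `MV.denom_finset`) -/
private theorem rays_denom {σ L ι : Type} [Field L] [Algebra ℂ L] (ξ : σ → L)
    (x : ι → IntermediateField.adjoin ℂ (Set.range ξ)) (s : Finset ι) :
    ∃ (c : MvPolynomial σ ℂ) (p : ι → MvPolynomial σ ℂ), aeval ξ c ≠ 0 ∧
      ∀ k ∈ s, aeval ξ (p k) = aeval ξ c * (x k : L) := by
  classical
  induction s using Finset.induction_on with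
  | empty => exact ⟨1, fun _ => 0, by simp, by simp⟩
  | insert k₀ s hk₀ ih =>
    obtain ⟨c, p, hc, hp⟩ := ih
    obtain ⟨d, q, hd, hq⟩ : ∃ d q : MvPolynomial σ ℂ, aeval ξ d ≠ 0 ∧
        aeval ξ q = aeval ξ d * (x k₀ : L) := by
      obtain ⟨r, s, hrs⟩ := (IntermediateField.mem_adjoin_range_iff ℂ ξ (x k₀ : L)).1 (x k₀).2
      by_cases hs : aeval ξ s = 0
      · refine ⟨1, 0, by simp, ?_⟩
        rw [hrs, hs]
        simp
      · refine ⟨s, r, hs, ?_⟩
        rw [hrs]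
        field_simp
    refine ⟨c * d, fun k => if k = k₀ then c * q else p k * d, ?_, ?_⟩
    · rw [map_mul]; exact mul_ne_zero hc hd
    · intro k hk
      by_cases hkN : k = k₀
      · subst hkN
        simp only [if_true, map_mul, hq]
        ring
      · have hk' : k ∈ s := Finset.mem_of_mem_insert_of_ne hk hkN
        simp only [hkN, if_false, map_mul, hp k hk']
        ring

/-- an algebraic element satisfies a relation with coefficients in the polynomial ring -/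
private theorem rays_alg {σ L : Type} [Field L] [Algebra ℂ L] (ξ : σ → L) (y : L)
    (h : IsAlgebraic (IntermediateField.adjoin ℂ (Set.range ξ)) y) :
    ∃ (T : Finset ℕ) (c : ℕ → MvPolynomial σ ℂ), T.Nonempty ∧ (∀ t ∈ T, aeval ξ (c t) ≠ 0) ∧
      ∑ t ∈ T, aeval ξ (c t) * y ^ t = 0 := by
  obtain ⟨P, hP0, hP⟩ := h
  obtain ⟨c, p, hc, hp⟩ := rays_denom ξ (fun k => P.coeff k) P.support
  refine ⟨P.support, p, Polynomial.support_nonempty.2 hP0, ?_, ?_⟩
  · intro t ht
    rw [hp t ht]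
    refine mul_ne_zero hc ?_
    intro h0
    exact (Polynomial.mem_support_iff.1 ht) (Subtype.ext h0)
  · rw [Polynomial.aeval_def, Polynomial.eval₂_eq_sum, Polynomial.sum_def] at hP
    have h1 : ∑ t ∈ P.support, aeval ξ (p t) * y ^ t = aeval ξ c * ∑ t ∈ P.support,
        algebraMap (IntermediateField.adjoin ℂ (Set.range ξ)) L (P.coeff t) * y ^ t := by
      rw [Finset.mul_sum]
      refine Finset.sum_congr rfl fun t ht => ?_
      rw [hp t ht, mul_assoc]
      rfl
    rw [h1, hP, mul_zero]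

private theorem rays_option {n : ℕ} {L : Type} [Field L] [Algebra ℂ L] (ξ : Fin n → L) (x : L)
    (p : MvPolynomial (Option (Fin n)) ℂ) :
    aeval (fun o : Option (Fin n) => o.elim x ξ) p =
      Polynomial.eval₂ (aeval ξ : MvPolynomial (Fin n) ℂ →ₐ[ℂ] L).toRingHom x
        (optionEquivLeft ℂ (Fin n) p) := by
  have h : ((aeval (fun o : Option (Fin n) => o.elim x ξ) :
      MvPolynomial (Option (Fin n)) ℂ →ₐ[ℂ] L) : MvPolynomial (Option (Fin n)) ℂ →+* L) =
      (Polynomial.eval₂RingHom (aeval ξ : MvPolynomial (Fin n) ℂ →ₐ[ℂ] L).toRingHom x).comp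
        (optionEquivLeft ℂ (Fin n) : MvPolynomial (Option (Fin n)) ℂ →+* _) := by
    apply MvPolynomial.ringHom_ext
    · intro c
      simp [optionEquivLeft_C]
    · rintro (_ | i)
      · simp [optionEquivLeft_X_none]
      · simp [optionEquivLeft_X_some]
  exact congrArg (fun g => g p) h

/-- the relation in two variables -/
private theorem rays_two {n : ℕ} {L : Type} [Field L] [Algebra ℂ L] (ξ : Fin n → L) (x y : L)
    (h : IsAlgebraic (IntermediateField.adjoin ℂ (Set.range ξ ∪ {x})) y) :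
    ∃ (T : Finset (ℕ × ℕ)) (c : ℕ × ℕ → MvPolynomial (Fin n) ℂ), T.Nonempty ∧
      (∀ t ∈ T, aeval ξ (c t) ≠ 0) ∧ ∑ t ∈ T, aeval ξ (c t) * (x ^ t.1 * y ^ t.2) = 0 := by
  classical
  have hr : Set.range ξ ∪ {x} = Set.range (fun o : Option (Fin n) => o.elim x ξ) := by
    ext z
    simp only [Set.mem_union, Set.mem_range, Set.mem_singleton_iff, Option.exists,
      Option.elim_none, Option.elim_some]
    tauto
  rw [hr] at h
  obtain ⟨T₀, p, hT₀, hp, hsum⟩ := rays_alg _ y h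
  set G : ℕ → Polynomial (MvPolynomial (Fin n) ℂ) := fun k => optionEquivLeft ℂ (Fin n) (p k)
    with hG
  set N : ℕ := (T₀.sup fun k => (G k).natDegree) + 1 with hN
  have hev : ∀ k ∈ T₀, aeval (fun o : Option (Fin n) => o.elim x ξ) (p k) =
      ∑ l ∈ Finset.range N, aeval ξ ((G k).coeff l) * x ^ l := by
    intro k hk
    rw [rays_option, Polynomial.eval₂_eq_sum_range' _ (n := N)]
    · rfl
    · have : (G k).natDegree ≤ T₀.sup fun k => (G k).natDegree :=
        Finset.le_sup (f := fun k => (G k).natDegree) hk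
      exact Nat.lt_succ_of_le this
  set T : Finset (ℕ × ℕ) := (Finset.range N ×ˢ T₀).filter
    (fun t => aeval ξ ((G t.2).coeff t.1) ≠ 0) with hT
  refine ⟨T, fun t => (G t.2).coeff t.1, ?_, ?_, ?_⟩
  · by_contra hne
    rw [Finset.not_nonempty_iff_eq_empty] at hne
    obtain ⟨k, hk⟩ := hT₀
    apply hp k hk
    rw [hev k hk]
    refine Finset.sum_eq_zero fun l hl => ?_
    have : (l, k) ∉ T := by rw [hne]; exact Finset.notMem_empty _
    rw [hT, Finset.mem_filter, Finset.mem_product] at this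
    push Not at this
    rw [this ⟨hl, hk⟩, zero_mul]
  · intro t ht
    exact (Finset.mem_filter.1 ht).2
  · rw [hT, Finset.sum_filter_of_ne, Finset.sum_product_right]
    · rw [← hsum]
      refine Finset.sum_congr rfl fun k hk => ?_
      rw [hev k hk, Finset.sum_mul]
      refine Finset.sum_congr rfl fun l _ => ?_
      simp only
      ring
    · intro t _ hne h0
      apply hne
      rw [h0, zero_mul]

/-- the two minimal exponents -/
private theorem rays_trop {n : ℕ} {L κ : Type} [Field L] [Algebra ℂ L] (ξ η : Fin n → L)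
    (E : κ → (Fin n →₀ ℕ)) (hE : Function.Injective E) (T : Finset κ) (hT : T.Nonempty)
    (c : κ → MvPolynomial (Fin n) ℂ) (hc : ∀ t ∈ T, aeval ξ (c t) ≠ 0) :
    evM ξ η (∑ t ∈ T, monomial (E t) (c t)) = ∑ t ∈ T, aeval ξ (c t) * ∏ i, η i ^ E t i ∧
    ∀ ρ : Fin n → ℝ, TropAt ξ (∑ t ∈ T, monomial (E t) (c t)) ρ →
      ∃ t ∈ T, ∃ t' ∈ T, t ≠ t' ∧ ∑ i, ρ i * (E t i : ℝ) = ∑ i, ρ i * (E t' i : ℝ) := by
  classical
  constructor
  · rw [map_sum]
    refine Finset.sum_congr rfl fun t _ => ?_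
    unfold evM
    rw [coe_eval₂Hom, eval₂_monomial, Finsupp.prod_fintype _ _ (by simp)]
    rfl
  · intro ρ hρ
    obtain ⟨t₀, ht₀, hmin⟩ := T.exists_min_image (fun t => ∑ i, ρ i * (E t i : ℝ)) hT
    have hcoeff : ∀ m, (∑ t ∈ T, monomial (E t) (c t)).coeff m =
        ∑ t ∈ T, if E t = m then c t else 0 := by
      intro m
      rw [coeff_sum]
      simp only [coeff_monomial]
    have h1 : (∑ t ∈ T, monomial (E t) (c t)).coeff (E t₀) = c t₀ := by
      rw [hcoeff, Finset.sum_eq_single t₀]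
      · rw [if_pos rfl]
      · intro b _ hb
        rw [if_neg (fun h => hb (hE h))]
      · intro h
        exact absurd ht₀ h
    obtain ⟨m', hm', hm'2, hle⟩ := hρ (E t₀) (by rw [h1]; exact hc t₀ ht₀)
    have h2 : ∃ t' ∈ T, E t' = m' := by
      by_contra hno
      push Not at hno
      apply hm'2
      rw [hcoeff, Finset.sum_eq_zero, map_zero]
      intro t ht
      rw [if_neg (hno t ht)]
    obtain ⟨t', ht', rfl⟩ := h2
    exact ⟨t₀, ht₀, t', ht', fun h => hm' (by rw [h]), le_antisymm (hmin t' ht') hle⟩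

private theorem rays_rel_one {n : ℕ} {L : Type} [Field L] [Algebra ℂ L] (ξ η : Fin n → L)
    (i : Fin n) (h : IsAlgebraic (IntermediateField.adjoin ℂ (Set.range ξ)) (η i)) :
    ∃ f : MvPolynomial (Fin n) (MvPolynomial (Fin n) ℂ), evM ξ η f = 0 ∧
      ∀ ρ : Fin n → ℝ, TropAt ξ f ρ → ρ i = 0 := by
  classical
  obtain ⟨T, c, hT, hc, hsum⟩ := rays_alg ξ (η i) h
  have hE : Function.Injective (fun k : ℕ => (Finsupp.single i k : Fin n →₀ ℕ)) :=
    Finsupp.single_injective i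
  obtain ⟨h1, h2⟩ := rays_trop ξ η (fun k : ℕ => (Finsupp.single i k : Fin n →₀ ℕ)) hE T hT c hc
  refine ⟨∑ t ∈ T, monomial (Finsupp.single i t) (c t), ?_, fun ρ hρ => ?_⟩
  · rw [h1, ← hsum]
    refine Finset.sum_congr rfl fun t _ => ?_
    congr 1
    rw [Finset.prod_eq_single i]
    · rw [Finsupp.single_eq_same]
    · intro b _ hb
      rw [Finsupp.single_eq_of_ne hb, pow_zero]
    · intro hi
      exact absurd (Finset.mem_univ i) hi
  · obtain ⟨t, _, t', _, hne, he⟩ := h2 ρ hρ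
    have hs : ∀ k : ℕ, ∑ j, ρ j * ((Finsupp.single i k : Fin n →₀ ℕ) j : ℝ) = ρ i * k := by
      intro k
      rw [Finset.sum_eq_single i]
      · rw [Finsupp.single_eq_same]
      · intro b _ hb
        rw [Finsupp.single_eq_of_ne hb]
        simp
      · intro hi
        exact absurd (Finset.mem_univ i) hi
    rw [hs, hs] at he
    by_contra hρ0
    exact hne (by exact_mod_cast mul_left_cancel₀ hρ0 he)

private theorem rays_rel_two {n : ℕ} {L : Type} [Field L] [Algebra ℂ L] (ξ η : Fin n → L)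
    (i j : Fin n) (hij : i ≠ j)
    (h : IsAlgebraic (IntermediateField.adjoin ℂ (Set.range ξ ∪ {η i})) (η j)) :
    ∃ (f : MvPolynomial (Fin n) (MvPolynomial (Fin n) ℂ)) (D : Finset (ℤ × ℤ)), evM ξ η f = 0 ∧
      ∀ ρ : Fin n → ℝ, TropAt ξ f ρ →
        ∃ d ∈ D, (d.1 ≠ 0 ∨ d.2 ≠ 0) ∧ ρ i * d.1 + ρ j * d.2 = 0 := by
  classical
  obtain ⟨T, c, hT, hc, hsum⟩ := rays_two ξ (η i) (η j) h
  set E : ℕ × ℕ → (Fin n →₀ ℕ) := fun t => Finsupp.single i t.1 + Finsupp.single j t.2 with hEdef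
  have hEi : ∀ t, E t i = t.1 := by
    intro t
    rw [hEdef]
    simp [Finsupp.single_eq_of_ne hij]
  have hEj : ∀ t, E t j = t.2 := by
    intro t
    rw [hEdef]
    simp [Finsupp.single_eq_of_ne hij.symm]
  have hEo : ∀ t l, l ≠ i → l ≠ j → E t l = 0 := by
    intro t l h1 h2
    rw [hEdef]
    simp [Finsupp.single_eq_of_ne h1, Finsupp.single_eq_of_ne h2]
  have hE : Function.Injective E := by
    intro t t' htt
    have h1 := hEi t
    have h2 := hEj t
    rw [htt, hEi] at h1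
    rw [htt, hEj] at h2
    exact Prod.ext h1.symm h2.symm
  obtain ⟨h1, h2⟩ := rays_trop ξ η E hE T hT c hc
  refine ⟨∑ t ∈ T, monomial (E t) (c t),
    (T ×ˢ T).image (fun p => ((p.1.1 : ℤ) - p.2.1, (p.1.2 : ℤ) - p.2.2)), ?_, fun ρ hρ => ?_⟩
  · rw [h1, ← hsum]
    refine Finset.sum_congr rfl fun t _ => ?_
    congr 1
    rw [← Finset.mul_prod_erase _ _ (Finset.mem_univ i),
      ← Finset.mul_prod_erase _ _ (Finset.mem_erase.2 ⟨hij.symm, Finset.mem_univ j⟩),
      Finset.prod_eq_one, hEi, hEj, mul_one]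
    intro l hl
    rw [Finset.mem_erase, Finset.mem_erase] at hl
    rw [hEo t l hl.2.1 hl.1, pow_zero]
  · obtain ⟨t, ht, t', ht', hne, he⟩ := h2 ρ hρ
    have hs : ∀ t, ∑ l, ρ l * (E t l : ℝ) = ρ i * t.1 + ρ j * t.2 := by
      intro t
      rw [← Finset.add_sum_erase _ _ (Finset.mem_univ i),
        ← Finset.add_sum_erase _ _ (Finset.mem_erase.2 ⟨hij.symm, Finset.mem_univ j⟩),
        Finset.sum_eq_zero, hEi, hEj, add_zero]
      intro l hl
      rw [Finset.mem_erase, Finset.mem_erase] at hl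
      rw [hEo t l hl.2.1 hl.1]
      simp
    rw [hs, hs] at he
    refine ⟨_, Finset.mem_image.2 ⟨(t, t'), Finset.mem_product.2 ⟨ht, ht'⟩, rfl⟩, ?_, ?_⟩
    · by_contra hno
      push Not at hno
      apply hne
      refine Prod.ext ?_ ?_
      · have := hno.1
        simp only at this
        omega
      · have := hno.2
        simp only at this
        omega
    · push_cast
      linarith

/-- HS-22: finitely many rays. -/
theorem exists_rays {n : ℕ} {L : Type} [Field L] [Algebra ℂ L] (ξ η : Fin n → L)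
    (h : ∀ i j, IsAlgebraic (IntermediateField.adjoin ℂ (Set.range ξ ∪ {η i})) (η j) ∨
      IsAlgebraic (IntermediateField.adjoin ℂ (Set.range ξ)) (η i)) (hη : ∀ i, η i ≠ 0) :
    ∃ (F : Finset (MvPolynomial (Fin n) (MvPolynomial (Fin n) ℂ))) (V : Finset (Fin n → ℤ)),
      (∀ f ∈ F, evM ξ η f = 0) ∧ ∀ ρ : Fin n → ℝ, (∀ f ∈ F, TropAt ξ f ρ) →
        ∃ a ∈ V, ∃ s : ℝ, 0 ≤ s ∧ ∀ i, ρ i = s * a i := by
  classical
  -- the relations in one variable
  have h1 : ∀ i, ∃ f : MvPolynomial (Fin n) (MvPolynomial (Fin n) ℂ), evM ξ η f = 0 ∧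
      (IsAlgebraic (IntermediateField.adjoin ℂ (Set.range ξ)) (η i) →
        ∀ ρ : Fin n → ℝ, TropAt ξ f ρ → ρ i = 0) := by
    intro i
    by_cases hi : IsAlgebraic (IntermediateField.adjoin ℂ (Set.range ξ)) (η i)
    · obtain ⟨f, hf, hf'⟩ := rays_rel_one ξ η i hi
      exact ⟨f, hf, fun _ => hf'⟩
    · exact ⟨0, map_zero _, fun hi' => absurd hi' hi⟩
  choose f hf hfρ using h1
  have h2 : ∀ p : Fin n × Fin n, ∃ (g : MvPolynomial (Fin n) (MvPolynomial (Fin n) ℂ))
      (D : Finset (ℤ × ℤ)), evM ξ η g = 0 ∧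
      (¬ IsAlgebraic (IntermediateField.adjoin ℂ (Set.range ξ)) (η p.1) → p.1 ≠ p.2 →
        ∀ ρ : Fin n → ℝ, TropAt ξ g ρ →
          ∃ d ∈ D, (d.1 ≠ 0 ∨ d.2 ≠ 0) ∧ ρ p.1 * d.1 + ρ p.2 * d.2 = 0) := by
    rintro ⟨i, j⟩
    by_cases hi : IsAlgebraic (IntermediateField.adjoin ℂ (Set.range ξ)) (η i)
    · exact ⟨0, ∅, map_zero _, fun hi' => absurd hi hi'⟩
    by_cases hij : i = j
    · exact ⟨0, ∅, map_zero _, fun _ hij' => absurd hij hij'⟩
    obtain ⟨g, D, hg, hg'⟩ := rays_rel_two ξ η i j hij ((h i j).resolve_right hi)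
    exact ⟨g, D, hg, fun _ _ => hg'⟩
  choose g D hg hgρ using h2
  -- the integer vectors
  set DD : Finset (ℤ × ℤ) := Finset.univ.biUnion D with hDD
  set D' : Finset (ℤ × ℤ) := DD.filter (fun d => d.2 ≠ 0) with hD'
  set M : ℤ := ∏ d ∈ D', d.2 with hM
  have hM0 : M ≠ 0 := by
    rw [hM, Finset.prod_ne_zero_iff]
    intro d hd
    exact (Finset.mem_filter.1 hd).2
  set Z : Finset ℤ := {0, M, -M} ∪ (D'.image (fun d => M / d.2 * d.1) ∪
    D'.image (fun d => -(M / d.2 * d.1))) with hZ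
  refine ⟨Finset.univ.image f ∪ Finset.univ.image g, Fintype.piFinset fun _ => Z, ?_, ?_⟩
  · intro F hF
    rcases Finset.mem_union.1 hF with hF | hF
    · obtain ⟨i, _, rfl⟩ := Finset.mem_image.1 hF
      exact hf i
    · obtain ⟨p, _, rfl⟩ := Finset.mem_image.1 hF
      exact hg p
  intro ρ hρ
  have hρf : ∀ i, TropAt ξ (f i) ρ := fun i =>
    hρ _ (Finset.mem_union_left _ (Finset.mem_image_of_mem _ (Finset.mem_univ i)))
  have hρg : ∀ p, TropAt ξ (g p) ρ := fun p =>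
    hρ _ (Finset.mem_union_right _ (Finset.mem_image_of_mem _ (Finset.mem_univ p)))
  by_cases hρ0 : ∀ i, ρ i = 0
  · refine ⟨fun _ => 0, Fintype.mem_piFinset.2 fun _ => ?_, 0, le_rfl, fun i => ?_⟩
    · rw [hZ]
      exact Finset.mem_union_left _ (by simp)
    · rw [hρ0 i]; simp
  push Not at hρ0
  obtain ⟨i₁, hi₁⟩ := hρ0
  have hnalg : ¬ IsAlgebraic (IntermediateField.adjoin ℂ (Set.range ξ)) (η i₁) := fun hal =>
    hi₁ (hfρ i₁ hal ρ (hρf i₁))
  -- the ratios
  have hratio : ∀ j, ∃ b : ℤ, b ∈ Z ∧ -b ∈ Z ∧ (M : ℝ) * ρ j = b * ρ i₁ := by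
    intro j
    by_cases hij : i₁ = j
    · subst hij
      refine ⟨M, ?_, ?_, rfl⟩
      · rw [hZ]; exact Finset.mem_union_left _ (by simp)
      · rw [hZ]; exact Finset.mem_union_left _ (by simp)
    obtain ⟨d, hd, hd0, hde⟩ := hgρ (i₁, j) hnalg hij ρ (hρg _)
    simp only at hde
    have hd2 : d.2 ≠ 0 := by
      intro h0
      rw [h0] at hde
      have hd1 : d.1 ≠ 0 := hd0.resolve_right (not_not.2 h0)
      have : ρ i₁ * d.1 = 0 := by simpa using hde
      rcases mul_eq_zero.1 this with h3 | h3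
      · exact hi₁ h3
      · exact hd1 (by exact_mod_cast h3)
    have hdD' : d ∈ D' := by
      rw [hD', Finset.mem_filter, hDD, Finset.mem_biUnion]
      exact ⟨⟨_, Finset.mem_univ _, hd⟩, hd2⟩
    have hdvd : d.2 ∣ M := Finset.dvd_prod_of_mem (fun d : ℤ × ℤ => d.2) hdD'
    obtain ⟨q, hq⟩ := hdvd
    have hMq : M / d.2 = q := by rw [hq, Int.mul_ediv_cancel_left _ hd2]
    refine ⟨-(M / d.2 * d.1), ?_, ?_, ?_⟩
    · rw [hZ]
      refine Finset.mem_union_right _ (Finset.mem_union_right _ ?_)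
      exact Finset.mem_image.2 ⟨d, hdD', rfl⟩
    · rw [hZ, neg_neg]
      refine Finset.mem_union_right _ (Finset.mem_union_left _ ?_)
      exact Finset.mem_image.2 ⟨d, hdD', rfl⟩
    · rw [hMq]
      have hMr : (M : ℝ) = d.2 * q := by rw [hq]; push_cast; ring
      rw [hMr]
      push_cast
      linear_combination (q : ℝ) * hde
  choose b hb1 hb2 hb3 using hratio
  have hMr0 : (M : ℝ) ≠ 0 := by exact_mod_cast hM0
  rcases le_or_gt 0 (ρ i₁ / M) with hs | hs
  · refine ⟨b, Fintype.mem_piFinset.2 fun j => hb1 j, ρ i₁ / M, hs, fun j => ?_⟩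
    have := hb3 j
    field_simp
    linarith
  · refine ⟨fun j => -b j, Fintype.mem_piFinset.2 fun j => hb2 j, -(ρ i₁ / M), by linarith,
      fun j => ?_⟩
    have := hb3 j
    push_cast
    field_simp
    linarith

end Pool.Agent.Lib.MP_209724_lc.HS
end

section

namespace Pool.Agent.Lib.MP_209724_lc.HS

section general

open Polynomial MV

private theorem placeMon_general {n : ℕ} {K L : Type} [Field K] [Field L] [Algebra K L]
    (η : Fin n → L) (hη : ∀ i, η i ≠ 0) (t : L) (ht0 : t ≠ 0) (h₀ : Transcendental K t)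
    (halg : Algebra.IsAlgebraic (IntermediateField.adjoin K {t}) L) :
    ∃ a : Fin n → ℤ, ∃ 𝒪 : ValuationSubring L, 𝒪.valuation t < 1 ∧
      (∀ c : K, algebraMap K L c ∈ 𝒪) ∧
      ∀ m : Fin n → ℤ, 𝒪.valuation (∏ i, η i ^ m i) < 1 ↔ 0 < ∑ i, a i * m i := by
  obtain ⟨𝒪, hO, ht⟩ := placeB_exists t h₀
  have hK : ∀ c : K, algebraMap K L c ∈ 𝒪 := by
    intro c
    have := hO (C c)
    rwa [aeval_C] at this
  have hvt0 : 𝒪.valuation t ≠ 0 := by
    rw [Valuation.ne_zero_iff]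
    exact ht0
  have hvtpos : 0 < 𝒪.valuation t := zero_lt_iff.2 hvt0
  -- elements of `K(t)`
  have hfield : ∀ x : L, x ∈ IntermediateField.adjoin K {t} → x ≠ 0 →
      ∃ k : ℤ, 𝒪.valuation x = 𝒪.valuation t ^ k := by
    intro x hx hx0
    rw [IntermediateField.mem_adjoin_simple_iff] at hx
    obtain ⟨r, s, hrs⟩ := hx
    have hr : aeval t r ≠ 0 := by
      intro h
      rw [h, zero_div] at hrs
      exact hx0 hrs
    have hs : aeval t s ≠ 0 := by
      intro h
      rw [h, div_zero] at hrs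
      exact hx0 hrs
    have hr' : r ≠ 0 := by
      rintro rfl
      exact hr (map_zero _)
    have hs' : s ≠ 0 := by
      rintro rfl
      exact hs (map_zero _)
    obtain ⟨k, hk⟩ := placeB_poly 𝒪 t hO ht _ r le_rfl hr'
    obtain ⟨l, hl⟩ := placeB_poly 𝒪 t hO ht _ s le_rfl hs'
    refine ⟨(k : ℤ) - l, ?_⟩
    rw [hrs, map_div₀, hk, hl, zpow_sub₀ hvt0, zpow_natCast, zpow_natCast]
  -- the values of the generators
  have hgen : ∀ j, ∃ (e : ℕ) (b : ℤ), 0 < e ∧ 𝒪.valuation (η j) ^ e = 𝒪.valuation t ^ b := by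
    intro j
    obtain ⟨p, hp0, hp⟩ := halg.isAlgebraic (η j)
    set f : ℕ → L := fun i => algebraMap (IntermediateField.adjoin K {t}) L (p.coeff i) * η j ^ i
      with hf
    have hsum : ∑ i ∈ p.support, f i = 0 := by
      rw [aeval_def, eval₂_eq_sum, Polynomial.sum] at hp
      exact hp
    obtain ⟨i, hi, i', hi', hlt, he⟩ := placeB_two 𝒪 p.support f
      (support_nonempty.2 hp0) (fun i hi => by
        rw [hf]
        simp only
        apply mul_ne_zero
        · rw [Ne, map_eq_zero]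
          exact mem_support_iff.1 hi
        · exact pow_ne_zero _ (hη j)) hsum
    obtain ⟨k, hk⟩ := hfield (algebraMap (IntermediateField.adjoin K {t}) L (p.coeff i))
      (p.coeff i).2 (by
        rw [Ne, map_eq_zero]
        exact mem_support_iff.1 hi)
    obtain ⟨k', hk'⟩ := hfield (algebraMap (IntermediateField.adjoin K {t}) L (p.coeff i'))
      (p.coeff i').2 (by
        rw [Ne, map_eq_zero]
        exact mem_support_iff.1 hi')
    refine ⟨i' - i, k - k', by omega, ?_⟩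
    rw [hf] at he
    simp only [map_mul, map_pow] at he
    rw [hk, hk'] at he
    have hj0 : 𝒪.valuation (η j) ≠ 0 := by
      rw [Valuation.ne_zero_iff]
      exact hη j
    have h1 : 𝒪.valuation (η j) ^ i' = 𝒪.valuation (η j) ^ (i' - i) * 𝒪.valuation (η j) ^ i := by
      rw [← pow_add]
      congr 1
      omega
    rw [h1, ← mul_assoc] at he
    have h2 := mul_right_cancel₀ (pow_ne_zero i hj0) he
    rw [zpow_sub₀ hvt0, h2]
    field_simp
  choose e b he hb using hgen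
  set P : ℕ := ∏ j, e j with hP
  have hPpos : 0 < P := Finset.prod_pos fun j _ => he j
  set a : Fin n → ℤ := fun j => b j * ((∏ k ∈ Finset.univ.erase j, e k : ℕ) : ℤ) with ha
  have hval : ∀ j, 𝒪.valuation (η j) ^ P = 𝒪.valuation t ^ a j := by
    intro j
    have h1 : P = e j * ∏ k ∈ Finset.univ.erase j, e k :=
      (Finset.mul_prod_erase _ _ (Finset.mem_univ j)).symm
    rw [h1, pow_mul, hb, ha]
    simp only
    rw [zpow_mul, zpow_natCast]
  refine ⟨a, 𝒪, ht, hK, ?_⟩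
  intro m
  have h1 : 𝒪.valuation (∏ i, η i ^ m i) ^ P = 𝒪.valuation t ^ (∑ i, a i * m i) := by
    rw [map_prod, ← Finset.prod_pow]
    have h2 : ∀ i, 𝒪.valuation (η i ^ m i) ^ P = 𝒪.valuation t ^ (a i * m i) := by
      intro i
      rw [map_zpow₀, ← zpow_natCast, ← zpow_mul, mul_comm (m i), zpow_mul, zpow_natCast, hval,
        ← zpow_mul]
    rw [Finset.prod_congr rfl fun i _ => h2 i]
    have h3 : ∀ s : Finset (Fin n), ∏ i ∈ s, 𝒪.valuation t ^ (a i * m i) =
        𝒪.valuation t ^ (∑ i ∈ s, a i * m i) := by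
      intro s
      induction s using Finset.induction_on with
      | empty => simp
      | insert i s his ih =>
        rw [Finset.prod_insert his, Finset.sum_insert his, ih, zpow_add₀ hvt0]
    exact h3 Finset.univ
  rw [← pow_lt_one_iff_of_nonneg zero_le hPpos.ne', h1,
    zpow_lt_one_iff_right_of_lt_one₀ hvtpos ht]

end general

open MvPolynomial Filter Topology Metric
open MV (lead evT glue)
open GC (evM)

/-- HS-35: if no monomial is algebraic over `ℂ(ξ)`, the tropical points are not contained in a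
rational hyperplane. -/
theorem exists_place_of_monomial {n : ℕ} {L : Type} [Field L] [Algebra ℂ L] (ξ η : Fin n → L)
    (hη : ∀ i, η i ≠ 0) (μ : Fin n → ℤ)
    (hμ : Transcendental (IntermediateField.adjoin ℂ (Set.range ξ)) (∏ i, η i ^ μ i))
    (halg : Algebra.IsAlgebraic (IntermediateField.adjoin
      (IntermediateField.adjoin ℂ (Set.range ξ)) {∏ i, η i ^ μ i}) L) :
    ∃ a : Fin n → ℤ, ∑ i, a i * μ i ≠ 0 ∧
      ∃ 𝒪 : ValuationSubring L, (∀ c ∈ IntermediateField.adjoin ℂ (Set.range ξ), c ∈ 𝒪) ∧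
        ∀ m : Fin n → ℤ, 𝒪.valuation (∏ i, η i ^ m i) < 1 ↔ 0 < ∑ i, a i * m i := by
  have ht0 : ∏ i, η i ^ μ i ≠ 0 := Finset.prod_ne_zero_iff.2 fun i _ => zpow_ne_zero _ (hη i)
  obtain ⟨a, 𝒪, ht, hK, h⟩ := placeMon_general η hη _ ht0 hμ halg
  exact ⟨a, ((h μ).1 ht).ne', 𝒪, fun c hc => hK ⟨c, hc⟩, h⟩

end Pool.Agent.Lib.MP_209724_lc.HS
end

section

namespace Pool.Agent.Lib.MP_209724_lc.HS

open MvPolynomial Filter Topology Metric
open MV (lead evT glue)
open GC (evM)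

private lemma ps_growth {ι : Type} [Fintype ι] (q : MvPolynomial ι ℂ) (k : ℕ)
    (hk : ∀ m ∈ q.support, ∑ j, m j ≤ k) {R : ℝ} (hR : 1 ≤ R) (x : ι → ℂ) (hx : ‖x‖ ≤ R) :
    ‖eval x q‖ ≤ (∑ m ∈ q.support, ‖q.coeff m‖) * R ^ k := by
  rw [MvPolynomial.eval_eq', Finset.sum_mul]
  refine (norm_sum_le _ _).trans (Finset.sum_le_sum fun m hm => ?_)
  rw [norm_mul, norm_prod]
  refine mul_le_mul_of_nonneg_left ?_ (norm_nonneg _)
  calc ∏ i, ‖x i ^ m i‖ ≤ ∏ i, R ^ m i := by
        apply Finset.prod_le_prod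
        · intro i _
          exact norm_nonneg _
        · intro i _
          rw [norm_pow]
          exact pow_le_pow_left₀ (norm_nonneg _) ((norm_le_pi_norm x i).trans hx) _
    _ = R ^ (∑ i, m i) := Finset.prod_pow_eq_pow_sum _ _ _
    _ ≤ R ^ k := pow_le_pow_right₀ hR (hk m hm)

private lemma ps_pderiv_deg {ι : Type} [Fintype ι] (b : MvPolynomial ι ℂ) (i : ι) :
    ∀ m ∈ (pderiv i b).support, ∑ j, m j ≤ b.totalDegree - 1 := by
  classical
  intro m hm
  rw [mem_support_iff, coeff_pderiv] at hm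
  have h1 : m + Finsupp.single i 1 ∈ b.support := by
    rw [mem_support_iff]
    exact left_ne_zero_of_mul hm
  have h2 := le_totalDegree h1
  rw [Finsupp.sum_fintype _ _ (fun _ => rfl)] at h2
  simp only [Finsupp.add_apply, Finset.sum_add_distrib] at h2
  have h3 : ∑ j, (Finsupp.single i 1 : ι →₀ ℕ) j = 1 := by
    simp [Finsupp.single_apply]
  rw [h3] at h2
  omega

/-- HS-27: polynomials vary slowly. -/
theorem poly_slow {ι : Type} [Fintype ι] (b : MvPolynomial ι ℂ) (w : ι → ℂ)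
    (hw : eval w (lead b) ≠ 0) : ∃ ε : ℝ, 0 < ε ∧ ∃ C c₁ : ℝ, 0 < c₁ ∧ ∀ᶠ N : ℕ in atTop,
      ∀ x ∈ ball ((N : ℂ) • w) (ε * N), c₁ ≤ ‖eval x b‖ ∧
        ∀ x' ∈ ball ((N : ℂ) • w) (ε * N),
          ‖eval x' b - eval x b‖ ≤ C / N * ‖x' - x‖ * ‖eval x b‖ := by
  classical
  obtain ⟨ε₀, Λ, C₀, hε₀, hC₀, hdil⟩ := eval_dil b w hw
  set d := b.totalDegree with hd
  set ε := min ε₀ 1 with hε
  have hε0 : 0 < ε := lt_min hε₀ one_pos
  set W := ‖w‖ + 1 with hW
  have hW1 : 1 ≤ W := by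
    have := norm_nonneg w
    linarith
  set M : ℝ := ∑ i, (∑ m ∈ (pderiv i b).support, ‖(pderiv i b).coeff m‖) * W ^ (d - 1) with hM
  have hM0 : 0 ≤ M := Finset.sum_nonneg fun i _ => mul_nonneg
    (Finset.sum_nonneg fun m _ => norm_nonneg _) (by positivity)
  refine ⟨ε, hε0, M * C₀, C₀⁻¹, inv_pos.2 hC₀, ?_⟩
  have hlog : ∀ᶠ N : ℕ in atTop, Λ < Real.log N :=
    (Real.tendsto_log_atTop.comp tendsto_natCast_atTop_atTop).eventually_gt_atTop Λ
  filter_upwards [hlog, eventually_ge_atTop 1] with N hN hN1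
  have hN1' : (1 : ℝ) ≤ N := by exact_mod_cast hN1
  have hN0 : (0 : ℝ) < N := by linarith
  have hNc : (N : ℂ) ≠ 0 := by exact_mod_cast hN0.ne'
  have hexp : Complex.exp ((Real.log N : ℝ) : ℂ) = N := by
    rw [← Complex.ofReal_exp, Real.exp_log hN0]
    simp
  have hexpd : Real.exp (d * Real.log N) = (N : ℝ) ^ d := by
    rw [Real.exp_nat_mul, Real.exp_log hN0]
  -- lower bound
  have hlow : ∀ x ∈ ball ((N : ℂ) • w) (ε * N), C₀⁻¹ * (N : ℝ) ^ d ≤ ‖eval x b‖ := by
    intro x hx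
    have hv : (N : ℂ)⁻¹ • x ∈ ball w ε₀ := by
      rw [mem_ball, dist_eq_norm] at hx ⊢
      have h1 : (N : ℂ)⁻¹ • x - w = (N : ℂ)⁻¹ • (x - (N : ℂ) • w) := by
        rw [smul_sub, smul_smul, inv_mul_cancel₀ hNc, one_smul]
      rw [h1, norm_smul, norm_inv, Complex.norm_natCast, inv_mul_lt_iff₀ hN0]
      calc ‖x - (N : ℂ) • w‖ < ε * N := hx
        _ ≤ N * ε₀ := by
          rw [mul_comm]
          have : ε ≤ ε₀ := min_le_left _ _
          gcongr
    have h2 := (hdil ((Real.log N : ℝ) : ℂ) (by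
      rw [Complex.ofReal_re]
      exact hN) _ hv).1
    rw [hexp] at h2
    have h3 : (fun i => (N : ℂ) * ((N : ℂ)⁻¹ • x) i) = x := by
      funext i
      simp only [Pi.smul_apply, smul_eq_mul]
      rw [mul_inv_cancel_left₀ hNc]
    rw [h3, Complex.ofReal_re, hexpd] at h2
    exact h2
  -- norms
  have hnorm : ∀ x ∈ ball ((N : ℂ) • w) (ε * N), ‖x‖ ≤ W * N := by
    intro x hx
    rw [mem_ball, dist_eq_norm] at hx
    have h1 : ‖x‖ ≤ ‖x - (N : ℂ) • w‖ + ‖(N : ℂ) • w‖ := by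
      have := norm_add_le (x - (N : ℂ) • w) ((N : ℂ) • w)
      simpa using this
    rw [norm_smul, Complex.norm_natCast] at h1
    have h2 : ε ≤ 1 := min_le_right _ _
    have h3 : ε * N ≤ N := by nlinarith
    rw [hW]
    nlinarith
  have hRge : 1 ≤ W * N := by nlinarith
  -- derivative
  have hder : ∀ x ∈ ball ((N : ℂ) • w) (ε * N),
      ‖(∑ i, eval x (pderiv i b) • (ContinuousLinearMap.proj i : (ι → ℂ) →L[ℂ] ℂ))‖ ≤
        M * (N : ℝ) ^ (d - 1) := by
    intro x hx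
    refine ContinuousLinearMap.opNorm_le_bound _ (by positivity) fun v => ?_
    simp only [ContinuousLinearMap.coe_sum', Finset.sum_apply, ContinuousLinearMap.coe_smul',
      Pi.smul_apply, ContinuousLinearMap.proj_apply, smul_eq_mul]
    refine (norm_sum_le _ _).trans ?_
    rw [hM, Finset.sum_mul, Finset.sum_mul]
    refine Finset.sum_le_sum fun i _ => ?_
    rw [norm_mul]
    have h1 := ps_growth (pderiv i b) (d - 1) (ps_pderiv_deg b i) hRge x (hnorm x hx)
    rw [mul_pow, ← mul_assoc] at h1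
    have h2 := norm_le_pi_norm v i
    exact mul_le_mul h1 h2 (norm_nonneg _) (by
      have : 0 ≤ ∑ m ∈ (pderiv i b).support, ‖(pderiv i b).coeff m‖ :=
        Finset.sum_nonneg fun m _ => norm_nonneg _
      positivity)
  intro x hx
  have hxl := hlow x hx
  have hNd : 1 ≤ (N : ℝ) ^ d := one_le_pow₀ hN1'
  refine ⟨?_, ?_⟩
  · calc C₀⁻¹ = C₀⁻¹ * 1 := (mul_one _).symm
      _ ≤ C₀⁻¹ * (N : ℝ) ^ d := by gcongr
      _ ≤ _ := hxl
  · intro x' hx'
    rcases Nat.eq_zero_or_pos d with hd0 | hdpos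
    · have h1 : b = C (b.coeff 0) := totalDegree_eq_zero_iff_eq_C.1 (hd ▸ hd0)
      have h2 : eval x' b - eval x b = 0 := by
        rw [h1, eval_C, eval_C, sub_self]
      rw [h2, norm_zero]
      positivity
    · have hmv := (convex_ball ((N : ℂ) • w) (ε * N)).norm_image_sub_le_of_norm_hasFDerivWithin_le
        (𝕜 := ℂ) (f := fun v : ι → ℂ => eval v b)
        (fun y _ => (MV.branch_hasFDerivAt_eval b y).hasFDerivWithinAt) hder hx hx'
      refine hmv.trans ?_
      have h1 : (N : ℝ) ^ (d - 1) = (N : ℝ) ^ d / N := by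
        rw [eq_div_iff hN0.ne', ← pow_succ, Nat.sub_add_cancel hdpos]
      have h2 : (N : ℝ) ^ d ≤ C₀ * ‖eval x b‖ := by
        rw [← inv_mul_le_iff₀ hC₀]
        exact hxl
      rw [h1]
      calc M * ((N : ℝ) ^ d / N) * ‖x' - x‖ ≤ M * ((C₀ * ‖eval x b‖) / N) * ‖x' - x‖ := by
            gcongr
        _ = M * C₀ / N * ‖x' - x‖ * ‖eval x b‖ := by ring

end Pool.Agent.Lib.MP_209724_lc.HS
end

section

namespace Pool.Agent.Lib.MP_209724_lc.HS

open MvPolynomial Filter Topology Metric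
open MV (lead evT glue)
open GC (evM)

private theorem dilBranch_glue {n : ℕ} (l : Fin n) (v : {j : Fin n // j ≠ l} → ℂ) (z N : ℂ) :
    (fun i => N * glue l v z i) = glue l (fun j => N * v j) (N * z) := by
  funext i
  by_cases h : i = l
  · subst h
    rw [MV.glue_self, MV.glue_self]
  · have h1 := MV.glue_of_ne l v z ⟨i, h⟩
    have h2 := MV.glue_of_ne l (fun j => N * v j) (N * z) ⟨i, h⟩
    simp only at h1 h2
    rw [h1, h2]

/-- HS-43: the branch along dilations in the case of a hyperplane. -/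
theorem dil_branch {n : ℕ} (P q r : MvPolynomial (Fin n) ℂ) {e : ℕ} (he : 0 < e)
    (hfac : lead P = q ^ e * r) (l : Fin n) (c' : {j : Fin n // j ≠ l} → ℂ) (k : ℂ) (hk : k ≠ 0)
    (hq : q = C k * (X l - ∑ j : {j : Fin n // j ≠ l}, C (c' j) * X (j : Fin n)))
    (w : {j : Fin n // j ≠ l} → ℂ) (hr : eval (glue l w (∑ j, c' j * w j)) r ≠ 0) :
    ∃ (ε Λ C : ℝ), 0 < ε ∧ ∀ s₀ : ℂ, Λ < s₀.re → ∃ y₀ : ℂ,
      eval (glue l (fun j => Complex.exp s₀ * w j) y₀) P = 0 ∧
      ∀ (ε' Λ' : ℝ), 0 < ε' → ε' ≤ ε → Λ ≤ Λ' → Λ' < s₀.re →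
        ∀ y : ({j : Fin n // j ≠ l} → ℂ) × ℂ → ℂ, ContinuousOn y (Dil w ε' Λ') →
        y (w, s₀) = y₀ →
        (∀ p ∈ Dil w ε' Λ', eval (glue l (fun j => Complex.exp p.2 * p.1 j) (y p)) P = 0) →
        ∀ p ∈ Dil w ε' Λ', ‖y p - Complex.exp p.2 * ∑ j, c' j * p.1 j‖ ^ e ≤
          C * Real.exp (((e : ℝ) - 1) * p.2.re) := by
  -- evaluation of `q`
  have hqe : ∀ (v : {j : Fin n // j ≠ l} → ℂ) (z : ℂ),
      eval (glue l v z) q = k * (z - ∑ j, c' j * v j) := by
    intro v z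
    rw [hq, map_mul, eval_C, map_sub, eval_X, MV.glue_self, map_sum]
    congr 2
    refine Finset.sum_congr rfl fun j _ => ?_
    rw [map_mul, eval_C, eval_X, MV.glue_of_ne]
  set wt : Fin n → ℂ := glue l w (∑ j, c' j * w j) with hwt
  have hwv : (fun j : {j : Fin n // j ≠ l} => wt (j : Fin n)) = w := by
    funext j
    rw [hwt, MV.glue_of_ne]
  have hq0 : eval wt q = 0 := by rw [hwt, hqe, sub_self, mul_zero]
  have hql : eval wt (pderiv l q) ≠ 0 := by
    have h1 : pderiv l q = C k := by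
      rw [hq, pderiv_C_mul, map_sub, pderiv_X_self, map_sum]
      have h2 : ∀ j ∈ (Finset.univ : Finset {j : Fin n // j ≠ l}),
          pderiv l (C (c' j) * X (j : Fin n) : MvPolynomial (Fin n) ℂ) = 0 := by
        intro j _
        rw [pderiv_C_mul, pderiv_X_of_ne j.2, mul_zero]
      rw [Finset.sum_eq_zero h2, sub_zero, mul_one]
    rw [h1, eval_C]
    exact hk
  obtain ⟨h, h', ρ, r₁, Cb, N₀, hρ, hr₁, hN₀, -, -, -, -, hball, hbr⟩ :=
    exists_branch P q r he hfac l wt hq0 hql hr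
  rw [hwv] at hball hbr
  have hh : ∀ v ∈ ball w ρ, h v = ∑ j, c' j * v j := by
    intro v hv
    have h1 := (hball v hv).2.1
    rw [hqe] at h1
    exact sub_eq_zero.1 ((mul_eq_zero.1 h1).resolve_left hk)
  set δ : ℝ := (r₁ / 4) ^ e with hδ
  have hδ0 : 0 < δ := by positivity
  set Λ : ℝ := max (Real.log N₀) (Real.log ((|Cb| + 1) / δ)) with hΛ
  have hΛ1 : ∀ s : ℂ, Λ < s.re → N₀ ≤ ‖Complex.exp s‖ := by
    intro s hs
    rw [Complex.norm_exp]
    have h1 : Real.log N₀ < s.re := lt_of_le_of_lt (le_max_left _ _) hs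
    calc N₀ = Real.exp (Real.log N₀) := (Real.exp_log hN₀).symm
      _ ≤ Real.exp s.re := Real.exp_le_exp.2 h1.le
  have hΛ2 : ∀ s : ℂ, Λ < s.re → Cb / ‖Complex.exp s‖ < δ := by
    intro s hs
    rw [Complex.norm_exp]
    have h1 : Real.log ((|Cb| + 1) / δ) < s.re := lt_of_le_of_lt (le_max_right _ _) hs
    have h2 : (|Cb| + 1) / δ < Real.exp s.re := by
      calc (|Cb| + 1) / δ = Real.exp (Real.log ((|Cb| + 1) / δ)) :=
            (Real.exp_log (by positivity)).symm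
        _ < Real.exp s.re := Real.exp_lt_exp.2 h1
    rw [div_lt_iff₀ hδ0] at h2
    rw [div_lt_iff₀ (Real.exp_pos _), mul_comm]
    have h3 := le_abs_self Cb
    linarith
  refine ⟨ρ, Λ, Cb, hρ, fun s₀ hs₀ => ?_⟩
  obtain ⟨z₀, hz₀, hz₀P⟩ := (hbr (Complex.exp s₀) (hΛ1 s₀ hs₀) w (mem_ball_self hρ)).2
  refine ⟨Complex.exp s₀ * z₀, by rw [← dilBranch_glue]; exact hz₀P, ?_⟩
  intro ε' Λ' hε' hεε hΛΛ hs' y hy hy0 hyP
  -- the rescaled function
  set Z : ({j : Fin n // j ≠ l} → ℂ) × ℂ → ℂ := fun p => Complex.exp (-p.2) * y p with hZ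
  have hZy : ∀ p, Complex.exp p.2 * Z p = y p := by
    intro p
    rw [hZ]
    simp only
    rw [← mul_assoc, ← Complex.exp_add, add_neg_cancel, Complex.exp_zero, one_mul]
  have hkey : ∀ p ∈ Dil w ε' Λ', ‖Z p - wt l‖ ≤ r₁ →
      ‖Z p - h p.1‖ ^ e ≤ Cb / ‖Complex.exp p.2‖ := by
    intro p hp hle
    have hp' := mem_dil.1 hp
    have h1 := (hbr (Complex.exp p.2) (hΛ1 p.2 (lt_of_le_of_lt hΛΛ hp'.2)) p.1
      (ball_subset_ball hεε hp'.1)).1 (Z p) hle
    refine h1 ?_
    rw [dilBranch_glue, hZy]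
    exact hyP p hp
  have hkey2 : ∀ p ∈ Dil w ε' Λ', ‖Z p - wt l‖ ≤ r₁ → ‖Z p - wt l‖ < 3 * r₁ / 4 := by
    intro p hp hle
    have hp' := mem_dil.1 hp
    have h1 := (hkey p hp hle).trans_lt (hΛ2 p.2 (lt_of_le_of_lt hΛΛ hp'.2))
    have h2 : ‖Z p - h p.1‖ < r₁ / 4 := lt_of_pow_lt_pow_left₀ e (by positivity) h1
    have h3 := (hball p.1 (ball_subset_ball hεε hp'.1)).1
    calc ‖Z p - wt l‖ = ‖(Z p - h p.1) + (h p.1 - wt l)‖ := by congr 1; ring
      _ ≤ ‖Z p - h p.1‖ + ‖h p.1 - wt l‖ := norm_add_le _ _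
      _ < 3 * r₁ / 4 := by linarith
  have hZc : ContinuousOn (fun p => ‖Z p - wt l‖) (Dil w ε' Λ') := by
    refine ContinuousOn.norm (ContinuousOn.sub (ContinuousOn.mul ?_ hy) continuousOn_const)
    fun_prop
  have hmem0 : (w, s₀) ∈ Dil w ε' Λ' := mem_dil.2 ⟨mem_ball_self hε', hs'⟩
  have hZ0 : Z (w, s₀) = z₀ := by
    rw [hZ]
    simp only
    rw [hy0, ← mul_assoc, ← Complex.exp_add, neg_add_cancel, Complex.exp_zero, one_mul]
  have hall : ∀ p ∈ Dil w ε' Λ', ‖Z p - wt l‖ ≤ r₁ := by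
    intro p hp
    by_contra hcon
    push Not at hcon
    have h1 := (convex_dil w ε' Λ').isPreconnected.intermediate_value hmem0 hp hZc
    have h2 : ‖Z (w, s₀) - wt l‖ < 3 * r₁ / 4 :=
      hkey2 _ hmem0 (by rw [hZ0]; exact hz₀.le)
    obtain ⟨p', hp', hpe⟩ := h1 ⟨(by linarith : ‖Z (w, s₀) - wt l‖ ≤ 7 * r₁ / 8),
      (by linarith : 7 * r₁ / 8 ≤ ‖Z p - wt l‖)⟩
    simp only at hpe
    have h3 := hkey2 p' hp' (by rw [hpe]; linarith)
    rw [hpe] at h3
    linarith
  intro p hp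
  have hp' := mem_dil.1 hp
  have h1 := hkey p hp (hall p hp)
  have h2 : y p - Complex.exp p.2 * ∑ j, c' j * p.1 j = Complex.exp p.2 * (Z p - h p.1) := by
    rw [mul_sub, hZy, hh p.1 (ball_subset_ball hεε hp'.1)]
  rw [h2, norm_mul, mul_pow]
  have h3 : ‖Complex.exp p.2‖ = Real.exp p.2.re := Complex.norm_exp _
  rw [h3] at h1 ⊢
  have h4 : Real.exp (((e : ℝ) - 1) * p.2.re) = Real.exp p.2.re ^ e / Real.exp p.2.re := by
    rw [← Real.exp_nat_mul, ← Real.exp_sub]
    congr 1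
    ring
  rw [h4]
  calc Real.exp p.2.re ^ e * ‖Z p - h p.1‖ ^ e
      ≤ Real.exp p.2.re ^ e * (Cb / Real.exp p.2.re) :=
        mul_le_mul_of_nonneg_left h1 (by positivity)
    _ = Cb * (Real.exp p.2.re ^ e / Real.exp p.2.re) := by ring

end Pool.Agent.Lib.MP_209724_lc.HS
end

section

namespace Pool.Agent.Lib.MP_209724_lc.HS

open MvPolynomial Filter Topology Metric
open MV (lead evT glue)
open GC (evM)

private theorem homP_hom {n : ℕ} {M : Type} [Field M] [Algebra ℂ M] (ξ : Fin n → M)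
    (P : MvPolynomial (Fin n) ℂ) (hP : ∀ c, aeval ξ c = 0 ↔ P ∣ c)
    (B : Subalgebra ℂ M) (hB : B = Algebra.adjoin ℂ (Set.range ξ)) (hξB : ∀ i, ξ i ∈ B)
    (x : Fin n → ℂ) (hx : eval x P = 0) :
    ∃ φ : B →ₐ[ℂ] ℂ, ∀ F : MvPolynomial (Fin n) ℂ, φ (aeval (fun i => (⟨ξ i, hξB i⟩ : B)) F) =
      eval x F := by
  let f : MvPolynomial (Fin n) ℂ →ₐ[ℂ] B := aeval (fun i => (⟨ξ i, hξB i⟩ : B))
  let f₀ : MvPolynomial (Fin n) ℂ →ₐ[ℂ] ℂ := aeval x
  have hval : ∀ q, B.val (f q) = aeval ξ q := by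
    intro q
    exact (comp_aeval_apply (fun i => (⟨ξ i, hξB i⟩ : B)) B.val q)
  have hf : Function.Surjective f := by
    intro y
    have h1 : (y : M) ∈ Algebra.adjoin ℂ (Set.range ξ) := by rw [← hB]; exact y.2
    rw [Algebra.adjoin_range_eq_range_aeval] at h1
    obtain ⟨q, hq⟩ := h1
    refine ⟨q, Subtype.ext ?_⟩
    rw [← hq]
    exact hval q
  have hker : RingHom.ker f.toRingHom ≤ RingHom.ker f₀.toRingHom := by
    intro q hq
    rw [RingHom.mem_ker] at hq ⊢
    have h1 : aeval ξ q = 0 := by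
      rw [← hval q]
      have : f q = 0 := hq
      rw [this, map_zero]
    obtain ⟨r, hr⟩ := (hP _).1 h1
    change aeval x q = 0
    rw [aeval_eq_eval, hr, map_mul, hx, zero_mul]
  refine ⟨AlgHom.liftOfSurjective f hf f₀ hker, fun F => ?_⟩
  have h1 := AlgHom.liftOfSurjective_apply f hf f₀ hker F
  refine h1.trans ?_
  change aeval x F = _
  rw [aeval_eq_eval]

/-- HS-21b: homomorphisms over points of the hypersurface. -/
theorem exists_hom_P {n : ℕ} {M : Type} [Field M] [Algebra ℂ M] (ξ : Fin n → M)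
    (P : MvPolynomial (Fin n) ℂ) (hP : ∀ c, aeval ξ c = 0 ↔ P ∣ c) (l : Fin n)
    (hξ : AlgebraicIndependent ℂ (fun j : {j : Fin n // j ≠ l} => ξ j))
    (hl : IsAlgebraic (Algebra.adjoin ℂ (Set.range fun j : {j : Fin n // j ≠ l} => ξ j)) (ξ l))
    (A : Subalgebra ℂ M) (hA : A.FG) (hξA : ∀ i, ξ i ∈ A)
    (halg : ∀ x ∈ A, IsAlgebraic (Algebra.adjoin ℂ (Set.range ξ)) x) :
    ∃ c : MvPolynomial {j : Fin n // j ≠ l} ℂ, c ≠ 0 ∧ ∀ x : Fin n → ℂ, eval x P = 0 →
      eval (fun j : {j : Fin n // j ≠ l} => x j) c ≠ 0 →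
      ∃ ψ : A →ₐ[ℂ] ℂ, ∀ i, ψ ⟨ξ i, hξA i⟩ = x i := by
  classical
  set B : Subalgebra ℂ M := Algebra.adjoin ℂ (Set.range ξ) with hB
  have hξB : ∀ i, ξ i ∈ B := fun i => Algebra.subset_adjoin ⟨i, rfl⟩
  have hBA : B ≤ A := by
    rw [hB]
    apply Algebra.adjoin_le
    rintro _ ⟨i, rfl⟩
    exact hξA i
  obtain ⟨b, hb, hext⟩ := MV.exists_ext B A hBA hA halg 0 A.zero_mem
  obtain ⟨F, hF⟩ : ∃ F : MvPolynomial (Fin n) ℂ, aeval (fun i => (⟨ξ i, hξB i⟩ : B)) F = b := by
    have h1 : (b : M) ∈ Algebra.adjoin ℂ (Set.range ξ) := b.2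
    rw [Algebra.adjoin_range_eq_range_aeval] at h1
    obtain ⟨q, hq⟩ := h1
    refine ⟨q, Subtype.ext ?_⟩
    rw [← hq]
    exact comp_aeval_apply (fun i => (⟨ξ i, hξB i⟩ : B)) B.val q
  have hPF : ¬ P ∣ F := by
    intro h
    apply hb
    apply Subtype.ext
    rw [← hF]
    exact (comp_aeval_apply (fun i => (⟨ξ i, hξB i⟩ : B)) B.val F).trans ((hP F).2 h)
  obtain ⟨u, c, hc, huc⟩ := exists_multiple ξ P hP l hξ hl F hPF
  refine ⟨c, hc, fun x hx hcx => ?_⟩
  obtain ⟨φ, hφ⟩ := homP_hom ξ P hP B hB hξB x hx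
  have hφb : φ b ≠ 0 := by
    rw [← hF, hφ]
    intro h0
    obtain ⟨r, hr⟩ := huc
    have h1 := congrArg (eval x) hr
    rw [map_sub, map_mul, map_mul, h0, hx, mul_zero, zero_mul, zero_sub, neg_eq_zero,
      eval_rename] at h1
    exact hcx h1
  obtain ⟨ψ, hψ, -⟩ := hext φ hφb 0 (by
    intro h hh
    have h1 : (algebraMap B M) (h.coeff 0) = 0 := by
      rw [← hh, Polynomial.aeval_def, Polynomial.eval₂_at_zero]
    have h2 : h.coeff 0 = 0 := by
      apply Subtype.ext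
      exact h1
    rw [← Polynomial.coeff_zero_eq_eval_zero, Polynomial.coeff_map, h2, map_zero])
  refine ⟨ψ, fun i => ?_⟩
  have h1 := hφ (X i)
  rw [aeval_X, eval_X] at h1
  rw [← h1, ← hψ]
  rfl

end Pool.Agent.Lib.MP_209724_lc.HS
end

section

namespace Pool.Agent.Lib.MP_209724_lc.HS

open MvPolynomial Filter Topology Metric
open MV (lead evT glue)
open GC (evM)

/-- HS-30: transcendental monomials. -/
theorem transcendental_monomial {n : ℕ} {L : Type} [Field L] [Algebra ℂ L] (ξ η : Fin n → L)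
    (hη : ∀ i, η i ≠ 0) (a : Fin n → ℤ) (𝒪 : ValuationSubring L)
    (hK : ∀ c ∈ IntermediateField.adjoin ℂ (Set.range ξ), c ∈ 𝒪)
    (h𝒪 : ∀ m : Fin n → ℤ, 𝒪.valuation (∏ i, η i ^ m i) < 1 ↔ 0 < ∑ i, a i * m i)
    (μ : Fin n → ℤ) (hμ : ∑ i, a i * μ i ≠ 0) :
    Transcendental (IntermediateField.adjoin ℂ (Set.range ξ)) (∏ i, η i ^ μ i) := by
  have ht0 : ∀ m : Fin n → ℤ, ∏ i, η i ^ m i ≠ 0 := fun m =>
    Finset.prod_ne_zero_iff.2 fun i _ => zpow_ne_zero _ (hη i)
  rcases lt_or_gt_of_ne hμ with h | h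
  · have h1 : 0 < ∑ i, a i * (-μ) i := by
      simp only [Pi.neg_apply, mul_neg, Finset.sum_neg_distrib]
      linarith
    have h2 := MV.transcendental_of_valuation (IntermediateField.adjoin ℂ (Set.range ξ)) 𝒪 hK
      (ht0 (-μ)) ((h𝒪 (-μ)).2 h1)
    intro halg
    apply h2
    have h3 : ∏ i, η i ^ (-μ) i = (∏ i, η i ^ μ i)⁻¹ := by
      rw [← Finset.prod_inv_distrib]
      refine Finset.prod_congr rfl fun i _ => ?_
      rw [Pi.neg_apply, zpow_neg]
    rw [h3]
    exact halg.inv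
  · exact MV.transcendental_of_valuation (IntermediateField.adjoin ℂ (Set.range ξ)) 𝒪 hK
      (ht0 μ) ((h𝒪 μ).2 h)

end Pool.Agent.Lib.MP_209724_lc.HS
end
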