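import Mathlib
import Pool.Agent.Lib.MP_209724_lc.SC.Ed3
import Pool.Agent.Lib.MP_209724_lc.MV.GenericPoint
import Pool.Agent.Lib.MP_209724_lc.HS.CaseIFamily
import Pool.Agent.Lib.MP_209724_lc.HS.Branch
import Pool.Agent.Lib.MP_209724_lc.HS.Dichotomy
import Pool.Agent.Lib.MP_209724_lc.SC.Ed10
import Pool.Agent.Lib.MP_209724_lc.HS.CoreI
import Pool.Agent.Lib.MP_209724_lc.HS.TransMon
import Pool.Agent.Lib.MP_209724_lc.HS.Sector
import Pool.Agent.Lib.MP_209724_lc.MV.HurwitzMulti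
import Pool.Agent.Lib.MP_209724_lc.MV.Idem
import Pool.Agent.Lib.MP_209724_lc.HS.CaseIIEnd
import Pool.Agent.Lib.MP_209724_lc.HS.RegionBounded
import Pool.Agent.Lib.MP_209724_lc.MV.CoreB
import Pool.Agent.Lib.MP_209724_lc.GC.Final
import Pool.Agent.Lib.MP_209724_lc.MV.Final
import Pool.Agent.Lib.MP_209724_lc.OV.ConstDir

section

namespace Pool.Agent.Lib.MP_209724_lc.HS

open MvPolynomial Filter Topology Metric
open MV (lead evT glue)
open GC (evM)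

/-- The derivative in the direction `a`. -/
private noncomputable def rgD {n : ℕ} (a : Fin n → ℤ) (f : MvPolynomial (Fin n) ℂ) :
    MvPolynomial (Fin n) ℂ := ∑ i, C (a i : ℂ) * pderiv i f

private theorem rgD_C {n : ℕ} (a : Fin n → ℤ) (c : ℂ) : rgD a (C c) = 0 := by
  unfold rgD
  exact Finset.sum_eq_zero fun i _ => by rw [pderiv_C, mul_zero]

private theorem rgD_mul {n : ℕ} (a : Fin n → ℤ) (f g : MvPolynomial (Fin n) ℂ) :
    rgD a (f * g) = rgD a f * g + f * rgD a g := by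
  unfold rgD
  rw [Finset.sum_mul, Finset.mul_sum, ← Finset.sum_add_distrib]
  refine Finset.sum_congr rfl fun i _ => ?_
  rw [Derivation.leibniz]
  simp only [smul_eq_mul]
  ring

private theorem rgD_C_mul {n : ℕ} (a : Fin n → ℤ) (c : ℂ) (g : MvPolynomial (Fin n) ℂ) :
    rgD a (C c * g) = C c * rgD a g := by
  rw [rgD_mul, rgD_C, zero_mul, zero_add]

/-- An irreducible factor with nonzero derivative. -/
private theorem rg_factor {n : ℕ} (a : Fin n → ℤ) (p : MvPolynomial (Fin n) ℂ) :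
    rgD a p ≠ 0 → ∃ q, Irreducible q ∧ q ∣ p ∧ rgD a q ≠ 0 := by
  induction p using WfDvdMonoid.induction_on_irreducible with
  | zero =>
    intro h
    exact absurd (by rw [← C_0, rgD_C, C_0]) h
  | unit u hu =>
    intro h
    rw [MvPolynomial.isUnit_iff_eq_C_of_isReduced] at hu
    obtain ⟨c, _, rfl⟩ := hu
    exact absurd (rgD_C a c) h
  | mul g i hg hi ih =>
    intro h
    by_cases h1 : rgD a i = 0
    · have h2 : rgD a g ≠ 0 := by
        intro h3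
        apply h
        rw [rgD_mul, h1, h3, zero_mul, mul_zero, add_zero]
      obtain ⟨q, h3, h4, h5⟩ := ih h2
      exact ⟨q, h3, h4.mul_left _, h5⟩
    · exact ⟨i, hi, dvd_mul_right _ _, h1⟩

/-- Existence of real zeros of `q` outside `c = 0`. -/
private theorem rg_real {n : ℕ} {p q : MvPolynomial (Fin n) ℂ} {a : Fin n → ℤ}
    (hNH : ¬ NonHyperbolic p a) (hp0 : p ≠ 0) (hq : Irreducible q) (hqp : q ∣ p)
    (hda : rgD a q ≠ 0) (c : MvPolynomial (Fin n) ℂ) (hc : ¬ q ∣ c) :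
    ∃ b : Fin n → ℝ, eval (fun i => (b i : ℂ)) q = 0 ∧ eval (fun i => (b i : ℂ)) c ≠ 0 := by
  obtain ⟨Res, hRes0, hRes⟩ := exists_resultant q c hq hc (fun i => (a i : ℂ)) hda
  obtain ⟨κ, hκ⟩ := exists_real_generic {Res, p, rgD a q} (by simp) (by
    intro f hf
    simp only [Set.mem_insert_iff, Set.mem_singleton_iff] at hf
    rcases hf with rfl | rfl | rfl
    · exact hRes0
    · exact hp0
    · exact hda)
  have h1 := hκ Res (by simp)
  have h2 := hκ p (by simp)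
  have h3 := hκ (rgD a q) (by simp)
  set L : Polynomial ℂ := (shiftHom (fun i => (a i : ℂ)) q).map
    (MvPolynomial.eval fun i => (κ i : ℂ)) with hL
  have hev : ∀ (f : MvPolynomial (Fin n) ℂ) (σ : ℂ),
      ((shiftHom (fun i => (a i : ℂ)) f).map (MvPolynomial.eval fun i => (κ i : ℂ))).eval σ =
      eval (fun i => (κ i : ℂ) + σ * a i) f := by
    intro f σ
    rw [← eval_shiftHom, Polynomial.eval_map, ← Polynomial.eval₂_hom, MvPolynomial.eval_C]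
  have hL' : Polynomial.derivative L ≠ 0 := by
    intro h0
    have h4 := congrArg (Polynomial.eval 0) h0
    rw [hL, Polynomial.derivative_map, derivative_shiftHom, hev, Polynomial.eval_zero] at h4
    apply h3
    rw [← h4]
    congr 2
    funext i
    ring
  have hdeg : L.degree ≠ 0 := by
    intro h0
    apply hL'
    rw [Polynomial.eq_C_of_degree_eq_zero h0, Polynomial.derivative_C]
  obtain ⟨σ, hσ⟩ := IsAlgClosed.exists_root L hdeg
  have hσ' : eval (fun i => (κ i : ℂ) + σ * a i) q = 0 := by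
    rw [← hev]
    exact hσ
  have him : σ.im = 0 := by
    by_contra hne
    apply hNH
    refine ⟨κ, ⟨σ, hne, ?_⟩, 0, ?_⟩
    · obtain ⟨g, rfl⟩ := hqp
      rw [map_mul, hσ', zero_mul]
    · simpa using h2
  have hre : σ = (σ.re : ℂ) := by
    apply Complex.ext
    · simp
    · simp [him]
  have hb : (fun i => (((κ i + σ.re * a i : ℝ)) : ℂ)) = fun i => (κ i : ℂ) + σ * a i := by
    funext i
    rw [hre]
    push_cast
    simp
  refine ⟨fun i => κ i + σ.re * a i, ?_, ?_⟩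
  · rw [hb]
    exact hσ'
  · rw [hb]
    intro h4
    exact h1 (hRes _ σ hσ' h4)

/-- A scalar multiple of `q` has real coefficients. -/
private theorem rg_realness {n : ℕ} {q : MvPolynomial (Fin n) ℂ} {d : ℕ}
    (hq : Irreducible q) (hd : q.IsHomogeneous d)
    (h : ∀ c : MvPolynomial (Fin n) ℂ, ¬ q ∣ c →
      ∃ b : Fin n → ℝ, eval (fun i => (b i : ℂ)) q = 0 ∧ eval (fun i => (b i : ℂ)) c ≠ 0) :
    ∃ (v : ℂ) (qR : MvPolynomial (Fin n) ℝ), v ≠ 0 ∧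
      MvPolynomial.map (algebraMap ℝ ℂ) qR = C v * q := by
  set qs : MvPolynomial (Fin n) ℂ := MvPolynomial.map (starRingEnd ℂ) q with hqs
  have hdvd : q ∣ qs := by
    by_contra hn
    obtain ⟨b, hb1, hb2⟩ := h qs hn
    apply hb2
    have h1 : eval (fun i => (b i : ℂ)) qs = (starRingEnd ℂ) (eval (fun i => (b i : ℂ)) q) := by
      rw [hqs, MvPolynomial.eval_map]
      have h2 := MvPolynomial.map_eval (starRingEnd ℂ) (fun i => (b i : ℂ)) q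
      rw [h2, MvPolynomial.eval_map]
      congr 1
      funext i
      simp
    rw [h1, hb1, map_zero]
  have hqs0 : qs ≠ 0 := by
    intro h0
    rw [hqs] at h0
    exact hq.ne_zero (MvPolynomial.map_injective _ (starRingEnd ℂ).injective (by
      rw [h0, map_zero]))
  have hqsd : qs.IsHomogeneous d := hd.map _
  obtain ⟨s, hs⟩ := hdvd
  have hs0 : s ≠ 0 := by
    rintro rfl
    exact hqs0 (by rw [hs, mul_zero])
  have hsdeg : s.totalDegree = 0 := by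
    have h1 := hqsd.totalDegree hqs0
    rw [hs, MvPolynomial.totalDegree_mul_of_isDomain hq.ne_zero hs0,
      hd.totalDegree hq.ne_zero] at h1
    omega
  rw [totalDegree_eq_zero_iff_eq_C] at hsdeg
  set u := coeff 0 s with hu
  have hco : ∀ m, (starRingEnd ℂ) (coeff m q) = u * coeff m q := by
    intro m
    have h1 : coeff m qs = (starRingEnd ℂ) (coeff m q) := by
      rw [hqs, MvPolynomial.coeff_map]
    rw [← h1, hs, hsdeg, mul_comm q, MvPolynomial.coeff_C_mul]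
  obtain ⟨m₀, hm₀⟩ := MvPolynomial.ne_zero_iff.1 hq.ne_zero
  refine ⟨(starRingEnd ℂ) (coeff m₀ q), ?_⟩
  have hreal : ∀ m, ∃ x : ℝ, (x : ℂ) = coeff m (C ((starRingEnd ℂ) (coeff m₀ q)) * q) := by
    intro m
    rw [MvPolynomial.coeff_C_mul]
    have h1 : (starRingEnd ℂ) ((starRingEnd ℂ) (coeff m₀ q) * coeff m q) =
        (starRingEnd ℂ) (coeff m₀ q) * coeff m q := by
      rw [map_mul, Complex.conj_conj, hco m, hco m₀]
      ring
    obtain ⟨x, hx⟩ := Complex.conj_eq_iff_real.1 h1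
    exact ⟨x, hx.symm⟩
  obtain ⟨qR, hqR⟩ : ∃ qR : MvPolynomial (Fin n) ℝ, MvPolynomial.map (algebraMap ℝ ℂ) qR =
      C ((starRingEnd ℂ) (coeff m₀ q)) * q := by
    have h1 := (MvPolynomial.mem_range_map_iff_coeffs_subset (f := algebraMap ℝ ℂ)
      (x := C ((starRingEnd ℂ) (coeff m₀ q)) * q)).2 (by
        intro z hz
        rw [Finset.mem_coe, MvPolynomial.mem_coeffs_iff] at hz
        obtain ⟨m, _, rfl⟩ := hz
        exact hreal m)
    exact h1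
  refine ⟨qR, ?_, hqR⟩
  rw [Ne, map_eq_zero]
  exact hm₀

/-- HS-16: real generic points of the asymptotic cone. -/
theorem real_generic {n : ℕ} (P : MvPolynomial (Fin n) ℂ) (a : Fin n → ℤ)
    (hNH : ¬ NonHyperbolic (lead P) a)
    (ha : ∑ i, C (a i : ℂ) * pderiv i (lead P) ≠ 0) :
    ∃ (q r : MvPolynomial (Fin n) ℂ) (qR : MvPolynomial (Fin n) ℝ) (e d : ℕ), 0 < e ∧ 0 < d ∧
      lead P = q ^ e * r ∧ Irreducible q ∧ q.IsHomogeneous d ∧
      MvPolynomial.map (algebraMap ℝ ℂ) qR = q ∧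
      ∑ i, C (a i : ℂ) * pderiv i q ≠ 0 ∧ ¬ q ∣ r ∧
      ∀ c : MvPolynomial (Fin n) ℂ, ¬ q ∣ c →
        ∃ b : Fin n → ℝ, eval (fun i => (b i : ℂ)) q = 0 ∧ eval (fun i => (b i : ℂ)) c ≠ 0 := by
  have hp : (lead P).IsHomogeneous P.totalDegree := homogeneousComponent_isHomogeneous _ _
  have ha' : rgD a (lead P) ≠ 0 := ha
  have hp0 : lead P ≠ 0 := by
    intro h0
    apply ha'
    rw [h0, ← C_0, rgD_C, C_0]
  obtain ⟨q, hq, hqp, hda⟩ := rg_factor a (lead P) ha'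
  have hreal := rg_real hNH hp0 hq hqp hda
  obtain ⟨d, hd, hd0⟩ : ∃ d, q.IsHomogeneous d ∧ 0 < d := by
    obtain ⟨g, hg⟩ := hqp
    have h1 : (q * g).IsHomogeneous P.totalDegree := by rw [← hg]; exact hp
    obtain ⟨e, k, he, _, _⟩ := isHomogeneous_of_mul h1 (by rw [← hg]; exact hp0)
    refine ⟨e, he, ?_⟩
    rcases Nat.eq_zero_or_pos e with h | h
    · exfalso
      subst h
      rw [← totalDegree_zero_iff_isHomogeneous, totalDegree_eq_zero_iff_eq_C] at he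
      apply hda
      rw [he, rgD_C]
    · exact h
  obtain ⟨e, k, r, hpr, hqr, _, _⟩ := exists_cofactor q (lead P) hq hd hd0 hp hp0
  have he : 0 < e := by
    by_contra h0
    have h0' : e = 0 := by omega
    apply hqr
    rw [hpr, h0', pow_zero, one_mul] at hqp
    exact hqp
  obtain ⟨v, qR, hv, hqR⟩ := rg_realness hq hd hreal
  have hCu : ∀ x : ℂ, x ≠ 0 → IsUnit (C x : MvPolynomial (Fin n) ℂ) := fun x hx =>
    (isUnit_iff_ne_zero.2 hx).map C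
  have hass : Associated q (C v * q) :=
    (associated_unit_mul_left q (C v) (hCu v hv)).symm
  refine ⟨C v * q, C (v⁻¹ ^ e) * r, qR, e, d, he, hd0, ?_, hass.irreducible hq, ?_, hqR, ?_, ?_,
    ?_⟩
  · rw [hpr, mul_pow, ← C_pow]
    have h1 : (C (v ^ e) : MvPolynomial (Fin n) ℂ) * C (v⁻¹ ^ e) = 1 := by
      rw [← C_mul, ← mul_pow, mul_inv_cancel₀ hv, one_pow, C_1]
    calc q ^ e * r = (C (v ^ e) * C (v⁻¹ ^ e)) * (q ^ e * r) := by rw [h1, one_mul]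
      _ = _ := by ring
  · exact hd.C_mul _
  · change rgD a (C v * q) ≠ 0
    rw [rgD_C_mul]
    exact mul_ne_zero (hCu v hv).ne_zero hda
  · intro h1
    apply hqr
    have h2 := hass.dvd.trans h1
    exact ((hCu _ (pow_ne_zero e (inv_ne_zero hv))).dvd_mul_left).1 h2
  · intro c hc
    obtain ⟨b, hb1, hb2⟩ := hreal c (fun h1 => hc (hass.symm.dvd.trans h1))
    exact ⟨b, by rw [map_mul, hb1, mul_zero], hb2⟩

end Pool.Agent.Lib.MP_209724_lc.HS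
end

section

/-!
Facts about the families of the irrational case.
-/

namespace Pool.Agent.Lib.MP_209724_lc.HS

open MvPolynomial Filter Topology Metric
open MV (lead evT glue)
open GC (evM)

theorem dom_mono {ι : Type} [Fintype ι] {m₀ : ι → ℤ} {ρ ρ' c₀ c₀' φ R R' : ℝ} (h1 : ρ ≤ ρ')
    (h2 : c₀ ≤ c₀') (h3 : R ≤ R') : Dom m₀ ρ c₀ φ R ⊆ Dom m₀ ρ' c₀' φ R' := by
  rintro p ⟨hp1, hp2, hp3⟩
  exact ⟨ball_subset_ball h1 hp1, hp2.trans_le h2, hp3.trans_le h3⟩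

/-- the ball is contained in the large ball -/
theorem ball_sub {ι : Type} [Fintype ι] {x₀ w : ι → ℂ} {N : ℕ} {ρ ε : ℝ}
    (h : ‖x₀ - (N : ℂ) • w‖ ≤ 7) (hρ : 7 + ρ < ε * N) : ball x₀ ρ ⊆ ball ((N : ℂ) • w) (ε * N) := by
  intro x hx
  rw [mem_ball, dist_eq_norm] at hx ⊢
  calc ‖x - (N : ℂ) • w‖ = ‖(x - x₀) + (x₀ - (N : ℂ) • w)‖ := by congr 1; abel
    _ ≤ ‖x - x₀‖ + ‖x₀ - (N : ℂ) • w‖ := norm_add_le _ _
    _ < ε * N := by linarith

/-- properties of the logarithms -/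
def LogProp {n : ℕ} {L E : Type} [Field L] [Algebra ℂ L] [NormedAddCommGroup E] [NormedSpace ℂ E]
    (η : Fin n → L) (A : Subalgebra ℂ L) (hηA : ∀ i, η i ∈ A) (D : Set E) (p₀ : E)
    (Φ : E → (A →ₐ[ℂ] ℂ)) (Λ : E → Fin n → ℂ) : Prop :=
  (∀ i, DifferentiableOn ℂ (fun p => Λ p i) D) ∧
    (∀ p ∈ D, ∀ i, Complex.exp (Λ p i) = Φ p ⟨η i, hηA i⟩) ∧ ∀ i, |(Λ p₀ i).im| ≤ Real.pi

theorem exists_logProp {n : ℕ} {L E : Type} [Field L] [Algebra ℂ L] [NormedAddCommGroup E]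
    [NormedSpace ℂ E] (η : Fin n → L) (A : Subalgebra ℂ L) (hηA : ∀ i, η i ∈ A) {D : Set E}
    (hDo : IsOpen D) (hDc : Convex ℝ D) (Φ : E → (A →ₐ[ℂ] ℂ))
    (hΦ : ∀ x : A, AnalyticOnNhd ℂ (fun p => Φ p x) D)
    (h0 : ∀ p ∈ D, ∀ i, Φ p ⟨η i, hηA i⟩ ≠ 0) (p₀ : E) : ∃ Λ, LogProp η A hηA D p₀ Φ Λ :=
  exists_logs hDo hDc (fun p i => Φ p ⟨η i, hηA i⟩)
    (fun i => (hΦ ⟨η i, hηA i⟩).differentiableOn) h0 p₀

variable {n : ℕ} {L : Type} [Field L] [Algebra ℂ L] {ξ η : Fin n → L}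
    {l : Fin n} {t : L} {A : Subalgebra ℂ L} {hξA : ∀ i, ξ i ∈ A} {htA : t ∈ A}
    {hηA : ∀ i, η i ∈ A} {c : Fin n → ℝ} {m : {j : Fin n // j ≠ l} → ℤ} {N ρ R c₀ C δ φ : ℝ}
    {Ξ : ({j : Fin n // j ≠ l} → ℂ) → ℂ} {Φ : ({j : Fin n // j ≠ l} → ℂ) × ℂ → (A →ₐ[ℂ] ℂ)}
    {Λ : ({j : Fin n // j ≠ l} → ℂ) × ℂ → Fin n → ℂ}

theorem exists_logProp_of_fam (hs : FamProp ξ η l t A hξA htA hηA c m N ρ R c₀ C δ φ Ξ Φ) :
    ∃ Λ : ({j : Fin n // j ≠ l} → ℂ) × ℂ → Fin n → ℂ,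
      LogProp η A hηA (Dom m (2 * ρ) (2 * c₀) φ (5 * R))
        (ipt fun j => (m j : ℝ), φ * Complex.I) Φ Λ := by
  have h1 := hs.1
  have h2 := hs.2.1
  have h3 : IsOpen (Dom m (2 * ρ) (2 * c₀) φ (5 * R)) := isOpen_dom _ _ _ _ _
  have h4 : Convex ℝ (Dom m (2 * ρ) (2 * c₀) φ (5 * R)) := convex_dom _ _ _ _ _
  have h5 : ∀ p ∈ Dom m (2 * ρ) (2 * c₀) φ (5 * R), ∀ i, Φ p ⟨η i, hηA i⟩ ≠ 0 :=
    fun p hp i => ((h1 p hp).2.2.2 i).1
  exact exists_logProp η A hηA h3 h4 Φ h2 h5 _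

theorem sc_dom {e s : ℕ} (he : 0 < e) (hs : 1 ≤ s) (hc₀ : 0 < c₀)
    {p : ({j : Fin n // j ≠ l} → ℂ) × ℂ}
    (hp : p ∈ Dom m ((s : ℝ) ^ (3 * e) / s) c₀ φ (4 * ((s : ℝ) ^ (3 * e) / (s : ℝ) ^ 2))) :
    p ∈ Dom m (2 * ((s : ℝ) ^ (3 * e) / s)) (2 * c₀) φ (5 * ((s : ℝ) ^ (3 * e) / s ^ 2)) := by
  have h1 := sc_rho_pos (e := e) hs
  have h2 := sc_one_le_R he hs
  exact dom_mono (by linarith) (by linarith) (by linarith) hp

theorem fam_d {e s : ℕ} (he : 0 < e) (hs : 1 ≤ s) (hc₀ : 0 < c₀)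
    (hΛ : LogProp η A hηA (Dom m (2 * ((s : ℝ) ^ (3 * e) / s)) (2 * c₀) φ
      (5 * ((s : ℝ) ^ (3 * e) / s ^ 2))) (ipt fun j => (m j : ℝ), φ * Complex.I) Φ Λ)
    (i : Fin n) : DifferentiableOn ℂ (fun p => Λ p i)
      (Dom m ((s : ℝ) ^ (3 * e) / s) c₀ φ (4 * ((s : ℝ) ^ (3 * e) / (s : ℝ) ^ 2))) :=
  (hΛ.1 i).mono fun _ hp => sc_dom he hs hc₀ hp

theorem fam_re (hs : FamProp ξ η l t A hξA htA hηA c m N ρ R c₀ C δ φ Ξ Φ)
    (hΛ : LogProp η A hηA (Dom m (2 * ρ) (2 * c₀) φ (5 * R))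
        (ipt fun j => (m j : ℝ), φ * Complex.I) Φ Λ) :
    ∀ p ∈ Dom m (2 * ρ) (2 * c₀) φ (5 * R), ∀ i, Real.log ‖Φ p ⟨η i, hηA i⟩‖ = (Λ p i).re ∧
      |(Λ p i).re| ≤ C * R := by
  intro p hp i
  have h1 := log_norm_of_exp (hΛ.2.1 p hp i)
  refine ⟨h1, ?_⟩
  rw [← h1]
  exact ((hs.1 p hp).2.2.2 i).2

theorem fam_lip_x (hs : FamProp ξ η l t A hξA htA hηA c m N ρ R c₀ C δ φ Ξ Φ)
    (hΛ : LogProp η A hηA (Dom m (2 * ρ) (2 * c₀) φ (5 * R))
        (ipt fun j => (m j : ℝ), φ * Complex.I) Φ Λ) (hρ : 0 < ρ) (hc₀ : 0 < c₀) (hR : 0 < R)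
    (hC : 0 < C) :
    ∀ p ∈ Dom m ρ c₀ φ (4 * R), ∀ p' ∈ Dom m ρ c₀ φ (4 * R), p.2 = p'.2 →
      ‖Λ p - Λ p'‖ ≤ 8 * C * (R / ρ) * ‖p.1 - p'.1‖ := by
  rintro ⟨x, ζ⟩ hp ⟨x', ζ'⟩ hp' hpp
  simp only at hpp
  subst hpp
  rw [pi_norm_le_iff_of_nonneg (by positivity)]
  intro i
  have hζ : |ζ.im - φ| < 2 * c₀ ∧ |ζ.re| < 5 * R :=
    ⟨hp.2.1.trans (by linarith), hp.2.2.trans (by linarith)⟩
  have hd : DifferentiableOn ℂ (fun x : {j : Fin n // j ≠ l} → ℂ => Λ (x, ζ) i)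
      (ball (ipt fun j => (m j : ℝ)) (2 * ρ)) :=
    (hΛ.1 i).comp (f := fun x : {j : Fin n // j ≠ l} → ℂ => (x, ζ)) (by fun_prop)
      (fun y hy => ⟨hy, hζ⟩)
  have h1 := bc_lip (K := C * R) (by positivity : (0 : ℝ) < 2 * ρ) hd
    (fun y hy => (fam_re hs hΛ (y, ζ) ⟨hy, hζ⟩ i).2) x
    (by rw [mul_div_cancel_left₀ _ (two_ne_zero)]; exact hp.1) x'
    (by rw [mul_div_cancel_left₀ _ (two_ne_zero)]; exact hp'.1)
  have h2 : 16 * (C * R) / (2 * ρ) = 8 * C * (R / ρ) := by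
    field_simp
    ring
  rw [h2] at h1
  exact h1

theorem fam_rel (hs : FamProp ξ η l t A hξA htA hηA c m N ρ R c₀ C δ φ Ξ Φ)
    (hΛ : LogProp η A hηA (Dom m (2 * ρ) (2 * c₀) φ (5 * R))
        (ipt fun j => (m j : ℝ), φ * Complex.I) Φ Λ) {i : Fin n} {S : Finset (ℕ × ℕ)}
    {β : ℕ × ℕ → MvPolynomial {j : Fin n // j ≠ l} ℂ}
    (hrel : ∑ s ∈ S, aeval (fun j : {j : Fin n // j ≠ l} => ξ j) (β s) * t ^ s.1 * η i ^ s.2 = 0) :
    ∀ p ∈ Dom m (2 * ρ) (2 * c₀) φ (5 * R),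
      ∑ s ∈ S, eval p.1 (β s) * Complex.exp (s.1 * p.2 + s.2 * Λ p i) = 0 := by
  intro p hp
  have hmem : ∀ s, aeval (fun j : {j : Fin n // j ≠ l} => ξ j) (β s) ∈ A := fun s =>
    aeval_mem (fun j : {j : Fin n // j ≠ l} => ξ j) A (fun j => hξA j) _
  have h1 : ∑ s ∈ S, (⟨aeval (fun j : {j : Fin n // j ≠ l} => ξ j) (β s), hmem s⟩ : A) *
      (⟨t, htA⟩ : A) ^ s.1 * (⟨η i, hηA i⟩ : A) ^ s.2 = 0 := by
    apply Subtype.ext
    rw [AddSubmonoidClass.coe_finsetSum]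
    exact hrel
  have h2 := congrArg (Φ p) h1
  rw [map_sum, map_zero] at h2
  rw [← h2]
  refine Finset.sum_congr rfl fun s _ => ?_
  rw [map_mul, map_mul, map_pow, map_pow, (hs.1 p hp).2.2.1, ← hΛ.2.1 p hp i,
    psi_aeval (fun j : {j : Fin n // j ≠ l} => ξ j) A (fun j => hξA j) (Φ p) (β s), Complex.exp_add, Complex.exp_nat_mul,
    Complex.exp_nat_mul, mul_assoc]
  congr 2
  exact congrArg eval (funext fun j => ((hs.1 p hp).1 j).symm)

theorem fam_mu (hs : FamProp ξ η l t A hξA htA hηA c m N ρ R c₀ C δ φ Ξ Φ)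
    (hΛ : LogProp η A hηA (Dom m (2 * ρ) (2 * c₀) φ (5 * R))
        (ipt fun j => (m j : ℝ), φ * Complex.I) Φ Λ) (hη : ∀ i, η i ≠ 0)
    (hηA' : ∀ i, (η i)⁻¹ ∈ A) (μ : Fin n → ℤ) (ht : t = ∏ i, η i ^ μ i) :
    ∀ p ∈ Dom m (2 * ρ) (2 * c₀) φ (5 * R),
      Complex.exp (∑ i, (μ i : ℂ) * Λ p i) = Complex.exp p.2 := by
  intro p hp
  rw [← (hs.1 p hp).2.2.1, Complex.exp_sum]
  subst ht
  rw [psi_zprod η hη μ A hηA hηA' htA (Φ p)]
  refine Finset.prod_congr rfl fun i _ => ?_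
  rw [← hΛ.2.1 p hp i, Complex.exp_int_mul]

theorem fam_mu_re (hs : FamProp ξ η l t A hξA htA hηA c m N ρ R c₀ C δ φ Ξ Φ)
    (hΛ : LogProp η A hηA (Dom m (2 * ρ) (2 * c₀) φ (5 * R))
        (ipt fun j => (m j : ℝ), φ * Complex.I) Φ Λ) (hη : ∀ i, η i ≠ 0)
    (hηA' : ∀ i, (η i)⁻¹ ∈ A) (μ : Fin n → ℤ) (ht : t = ∏ i, η i ^ μ i) :
    ∀ p ∈ Dom m (2 * ρ) (2 * c₀) φ (5 * R),
      ∑ i, (μ i : ℝ) * (Λ p i).re = p.2.re := by
  intro p hp
  have h1 := congrArg norm (fam_mu hs hΛ hη hηA' μ ht p hp)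
  rw [Complex.norm_exp, Complex.norm_exp, Real.exp_eq_exp, Complex.re_sum] at h1
  rw [← h1]
  refine Finset.sum_congr rfl fun i _ => ?_
  have h2 : ((μ i : ℂ)) = (((μ i : ℤ) : ℝ) : ℂ) := by push_cast; rfl
  rw [h2, Complex.re_ofReal_mul]

theorem fam_center (hs : FamProp ξ η l t A hξA htA hηA c m N ρ R c₀ C δ φ Ξ Φ)
    (hΛ : LogProp η A hηA (Dom m (2 * ρ) (2 * c₀) φ (5 * R))
        (ipt fun j => (m j : ℝ), φ * Complex.I) Φ Λ) (hρ : 0 < ρ) (hc₀ : 0 < c₀) (hR : 1 ≤ R)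
    (hC : 0 < C) : ‖Λ (ipt fun j => (m j : ℝ), φ * Complex.I)‖ ≤ (C + 4) * R := by
  rw [pi_norm_le_iff_of_nonneg (by positivity)]
  intro i
  have hp : ((ipt fun j => (m j : ℝ), φ * Complex.I) :
      ({j : Fin n // j ≠ l} → ℂ) × ℂ) ∈ Dom m (2 * ρ) (2 * c₀) φ (5 * R) := by
    refine ⟨mem_ball_self (by positivity), ?_, ?_⟩
    · simp [hc₀]
    · have : (0 : ℝ) < 5 * R := by linarith
      simpa using this
  have h1 := (fam_re hs hΛ _ hp i).2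
  have h2 := hΛ.2.2 i
  have h3 := Complex.norm_le_abs_re_add_abs_im (Λ (ipt fun j => (m j : ℝ), φ * Complex.I) i)
  have h4 := Real.pi_lt_four
  nlinarith

theorem fam_end_aux (hs : FamProp ξ η l t A hξA htA hηA c m N ρ R c₀ C δ φ Ξ Φ)
    (hΛ : LogProp η A hηA (Dom m (2 * ρ) (2 * c₀) φ (5 * R))
        (ipt fun j => (m j : ℝ), φ * Complex.I) Φ Λ) (hη : ∀ i, η i ≠ 0)
    (hηA' : ∀ i, (η i)⁻¹ ∈ A) (μ : Fin n → ℤ) (ht : t = ∏ i, η i ^ μ i) (hρ : 0 < ρ)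
    (hR : 1 ≤ R) {Nn : ℕ} (hN0 : Nn ≠ 0)
    (hNC : C * N ≤ Real.exp ((C + 2) * Real.log Nn)) {w : {j : Fin n // j ≠ l} → ℂ} {ε : ℝ}
    (hball : ball (ipt fun j => (m j : ℝ)) ρ ⊆ ball ((Nn : ℂ) • w) (ε * Nn))
    {x : {j : Fin n // j ≠ l} → ℂ} (hx : x ∈ ball (ipt fun j => (m j : ℝ)) ρ) {ζ : ℂ}
    (hζ : |ζ.im - φ| < 2 * c₀ ∧ |ζ.re| < 5 * R) :
    (∃ v ∈ ball w ε, ∀ j : {j : Fin n // j ≠ l}, Φ (x, ζ) ⟨ξ j, hξA j⟩ = Nn * v j) ∧
      ‖Φ (x, ζ) ⟨ξ l, hξA l⟩‖ ≤ Real.exp ((C + 2) * Real.log Nn) ∧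
      (∀ i, Φ (x, ζ) ⟨η i, hηA i⟩ ≠ 0 ∧
        |Real.log ‖Φ (x, ζ) ⟨η i, hηA i⟩‖| ≤ (C + 2) * R) ∧
      ∑ i, μ i * Real.log ‖Φ (x, ζ) ⟨η i, hηA i⟩‖ = ζ.re ∧
      ∑ i, c i * Real.log ‖Φ (x, ζ) ⟨η i, hηA i⟩‖ = ∑ i, c i * (Λ (x, ζ) i).re := by
  have hx2 : x ∈ ball (ipt fun j => (m j : ℝ)) (2 * ρ) := ball_subset_ball (by linarith) hx
  have hp : ((x, ζ) : ({j : Fin n // j ≠ l} → ℂ) × ℂ) ∈ Dom m (2 * ρ) (2 * c₀) φ (5 * R) :=
    ⟨hx2, hζ⟩
  have hf := hs.1 _ hp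
  have hN0' : (Nn : ℂ) ≠ 0 := by exact_mod_cast hN0
  refine ⟨⟨(Nn : ℂ)⁻¹ • x, ?_, ?_⟩, ?_, ?_, ?_, ?_⟩
  · have h1 := hball hx
    rw [mem_ball, dist_eq_norm] at h1 ⊢
    have h2 : x - (Nn : ℂ) • w = (Nn : ℂ) • ((Nn : ℂ)⁻¹ • x - w) := by
      rw [smul_sub, smul_smul, mul_inv_cancel₀ hN0', one_smul]
    rw [h2, norm_smul, Complex.norm_natCast, mul_comm] at h1
    have h3 : (0 : ℝ) < Nn := by positivity
    exact lt_of_mul_lt_mul_right h1 h3.le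
  · intro j
    rw [hf.1 j, Pi.smul_apply, smul_eq_mul, ← mul_assoc, mul_inv_cancel₀ hN0', one_mul]
  · rw [hf.2.1]
    exact (hs.2.2.2.1 x hx2).trans hNC
  · intro i
    refine ⟨(hf.2.2.2 i).1, (hf.2.2.2 i).2.trans (mul_le_mul_of_nonneg_right (by linarith) ?_)⟩
    linarith
  · have h1 := fam_mu_re hs hΛ hη hηA' μ ht _ hp
    rw [← h1]
    exact Finset.sum_congr rfl fun i _ => by rw [(fam_re hs hΛ _ hp i).1]
  · exact Finset.sum_congr rfl fun i _ => by rw [(fam_re hs hΛ _ hp i).1]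

theorem fam_end (hs : FamProp ξ η l t A hξA htA hηA c m N ρ R c₀ C δ φ Ξ Φ)
    (hΛ : LogProp η A hηA (Dom m (2 * ρ) (2 * c₀) φ (5 * R))
        (ipt fun j => (m j : ℝ), φ * Complex.I) Φ Λ) (hη : ∀ i, η i ≠ 0)
    (hηA' : ∀ i, (η i)⁻¹ ∈ A) (μ : Fin n → ℤ) (ht : t = ∏ i, η i ^ μ i) (hρ : 0 < ρ)
    (hc₀ : 0 < c₀) (hR : 1 ≤ R) {Nn : ℕ} (hN0 : Nn ≠ 0)
    (hNC : C * N ≤ Real.exp ((C + 2) * Real.log Nn)) {w : {j : Fin n // j ≠ l} → ℂ} {ε κ : ℝ}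
    (hball : ball (ipt fun j => (m j : ℝ)) ρ ⊆ ball ((Nn : ℂ) • w) (ε * Nn))
    (hend : ∀ ψ : A →ₐ[ℂ] ℂ,
            (∃ v ∈ ball w ε, ∀ j : {j : Fin n // j ≠ l}, ψ ⟨ξ j, hξA j⟩ = Nn * v j) →
            ‖ψ ⟨ξ l, hξA l⟩‖ ≤ Real.exp ((C + 2) * Real.log Nn) →
            (∀ i, ψ ⟨η i, hηA i⟩ ≠ 0 ∧ |Real.log ‖ψ ⟨η i, hηA i⟩‖| ≤ (C + 2) * R) →
            (∑ i, μ i * Real.log ‖ψ ⟨η i, hηA i⟩‖ = R →
              κ * R ≤ ∑ i, c i * Real.log ‖ψ ⟨η i, hηA i⟩‖) ∧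
            (∑ i, μ i * Real.log ‖ψ ⟨η i, hηA i⟩‖ = -R →
              ∑ i, c i * Real.log ‖ψ ⟨η i, hηA i⟩‖ ≤ -(κ * R))) :
    ∀ x ∈ ball (ipt fun j => (m j : ℝ)) ρ,
      κ * R ≤ ∑ i, c i * (Λ (x, (R : ℂ) + φ * Complex.I) i).re ∧
      ∑ i, c i * (Λ (x, -(R : ℂ) + φ * Complex.I) i).re ≤ -(κ * R) := by
  intro x hx
  have hz1 : |((R : ℂ) + φ * Complex.I).im - φ| < 2 * c₀ ∧
      |((R : ℂ) + φ * Complex.I).re| < 5 * R := by
    constructor
    · simp [hc₀]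
    · simp only [Complex.add_re, Complex.ofReal_re, Complex.re_ofReal_mul, Complex.I_re,
        mul_zero, add_zero]
      rw [abs_of_pos (by linarith)]
      linarith
  have hz2 : |(-(R : ℂ) + φ * Complex.I).im - φ| < 2 * c₀ ∧
      |(-(R : ℂ) + φ * Complex.I).re| < 5 * R := by
    constructor
    · simp [hc₀]
    · simp only [Complex.add_re, Complex.neg_re, Complex.ofReal_re, Complex.re_ofReal_mul,
        Complex.I_re, mul_zero, add_zero]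
      rw [abs_neg, abs_of_pos (by linarith)]
      linarith
  obtain ⟨a1, a2, a3, a4, a5⟩ := fam_end_aux hs hΛ hη hηA' μ ht hρ hR hN0 hNC hball hx hz1
  obtain ⟨b1, b2, b3, b4, b5⟩ := fam_end_aux hs hΛ hη hηA' μ ht hρ hR hN0 hNC hball hx hz2
  constructor
  · rw [← a5]
    apply (hend _ a1 a2 a3).1
    rw [a4]
    simp
  · rw [← b5]
    apply (hend _ b1 b2 b3).2
    rw [b4]
    simp

theorem fam_lip_zeta (hs : FamProp ξ η l t A hξA htA hηA c m N ρ R c₀ C δ φ Ξ Φ)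
    (hΛ : LogProp η A hηA (Dom m (2 * ρ) (2 * c₀) φ (5 * R))
        (ipt fun j => (m j : ℝ), φ * Complex.I) Φ Λ) (hρ : 0 < ρ)
    (hR : 1 ≤ R) {S : Fin n → Finset (ℕ × ℕ)}
    {β : Fin n → ℕ × ℕ → MvPolynomial {j : Fin n // j ≠ l} ℂ}
    (hrel : ∀ i, ∑ s ∈ S i,
      aeval (fun j : {j : Fin n // j ≠ l} => ξ j) (β i s) * t ^ s.1 * η i ^ s.2 = 0)
    (hβ : ∀ x ∈ ball (ipt fun j => (m j : ℝ)) ρ, ∀ i, ∀ s ∈ S i, eval x (β i s) ≠ 0)
    {Cz : Fin n → ℝ} (hCz0 : ∀ i, 0 < Cz i)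
    (hCz : ∀ i, ∀ (β : ℕ × ℕ → ℂ), (∀ s ∈ S i, β s ≠ 0) → ∀ (φ R : ℝ) (g : ℂ → ℂ), 1 ≤ R →
      DifferentiableOn ℂ g {ζ | |ζ.im - φ| < 2 * c₀ ∧ |ζ.re| < 5 * R} →
      (∀ ζ ∈ {ζ : ℂ | |ζ.im - φ| < 2 * c₀ ∧ |ζ.re| < 5 * R},
        ∑ s ∈ S i, β s * Complex.exp (s.1 * ζ + s.2 * g ζ) = 0) →
      ∀ ζ ∈ {ζ : ℂ | |ζ.im - φ| < c₀ ∧ |ζ.re| < 4 * R},
        ∀ ζ' ∈ {ζ : ℂ | |ζ.im - φ| < c₀ ∧ |ζ.re| < 4 * R}, ‖g ζ - g ζ'‖ ≤ Cz i * ‖ζ - ζ'‖) :
    ∀ p ∈ Dom m ρ c₀ φ (4 * R), ∀ p' ∈ Dom m ρ c₀ φ (4 * R), p.1 = p'.1 →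
      ‖Λ p - Λ p'‖ ≤ (∑ i, Cz i) * ‖p.2 - p'.2‖ := by
  rintro ⟨x, ζ⟩ hp ⟨x', ζ'⟩ hp' hpp
  simp only at hpp
  subst hpp
  have hsum : 0 ≤ ∑ i, Cz i := Finset.sum_nonneg fun i _ => (hCz0 i).le
  rw [pi_norm_le_iff_of_nonneg (by positivity)]
  intro i
  have hx2 : x ∈ ball (ipt fun j => (m j : ℝ)) (2 * ρ) :=
    ball_subset_ball (by linarith) hp.1
  have h1 := hCz i (fun s => eval x (β i s)) (fun s hs => hβ x hp.1 i s hs) φ R
    (fun ζ => Λ (x, ζ) i) hR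
    ((hΛ.1 i).comp (f := fun ζ : ℂ => (x, ζ)) (by fun_prop) (fun y hy => ⟨hx2, hy⟩))
    (fun ζ hζ => fam_rel hs hΛ (hrel i) (x, ζ) ⟨hx2, hζ⟩) ζ hp.2 ζ' hp'.2
  refine h1.trans (mul_le_mul_of_nonneg_right ?_ (norm_nonneg _))
  exact Finset.single_le_sum (f := Cz) (fun i _ => (hCz0 i).le) (Finset.mem_univ i)

end Pool.Agent.Lib.MP_209724_lc.HS
end

section

/-!
The irrational case, for a fixed monomial.
-/

namespace Pool.Agent.Lib.MP_209724_lc.HS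

open MvPolynomial Filter Topology Metric
open MV (lead evT glue)
open GC (evM)

theorem caseI_solve {n : ℕ} {L : Type} [Field L] [Algebra ℂ L] (ξ η : Fin n → L)
    (hη : ∀ i, η i ≠ 0) (P q r : MvPolynomial (Fin n) ℂ) (hP : ∀ c, aeval ξ c = 0 ↔ P ∣ c)
    {e d : ℕ} (he : 0 < e) (hfac : lead P = q ^ e * r) (hqd : q.IsHomogeneous d) (l : Fin n)
    (hξ : AlgebraicIndependent ℂ (fun j : {j : Fin n // j ≠ l} => ξ j))
    (hl : IsAlgebraic (Algebra.adjoin ℂ (Set.range fun j : {j : Fin n // j ≠ l} => ξ j)) (ξ l))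
    (μ : Fin n → ℤ)
    (ht : Transcendental (IntermediateField.adjoin ℂ (Set.range ξ)) (∏ i, η i ^ μ i))
    (hz : AlgebraicIndependent ℂ
      (fun o : Option {j : Fin n // j ≠ l} => o.elim (∏ i, η i ^ μ i) fun j => ξ j))
    (hzalg : Algebra.IsAlgebraic (Algebra.adjoin ℂ
        (Set.range fun o : Option {j : Fin n // j ≠ l} => o.elim (∏ i, η i ^ μ i)
          fun j => ξ j)) L)
    (A : Subalgebra ℂ L) (hA : A.FG) (hξA : ∀ i, ξ i ∈ A) (hηA : ∀ i, η i ∈ A)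
    (hηA' : ∀ i, (η i)⁻¹ ∈ A)
    (F : Finset (MvPolynomial (Fin n) (MvPolynomial (Fin n) ℂ))) (hF : ∀ f ∈ F, evM ξ η f = 0)
    (V : Finset (Fin n → ℤ)) (hV : ∀ ρ : Fin n → ℝ, (∀ f ∈ F, TropAt ξ f ρ) →
      ∃ a ∈ V, ∃ s : ℝ, 0 ≤ s ∧ ∀ i, ρ i = s * a i) :
    ∃ g : MvPolynomial {j : Fin n // j ≠ l} ℂ, g ≠ 0 ∧ ∀ b : Fin n → ℝ,
      eval (fun i => (b i : ℂ)) q = 0 → eval (fun i => (b i : ℂ)) (pderiv l q) ≠ 0 →
      eval (fun i => (b i : ℂ)) r ≠ 0 →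
      eval (fun j : {j : Fin n // j ≠ l} => (b j : ℂ)) (lead g) ≠ 0 →
      (∃ j : {j : Fin n // j ≠ l}, b j ≠ 0) →
      ∀ c : Fin n → ℝ, (∀ j, (c j : ℂ) * eval (fun i => (b i : ℂ)) (pderiv l q) =
        -eval (fun i => (b i : ℂ)) (pderiv j q)) →
      (∀ α : Fin n → ℚ, ∑ i, c i * α i = 0 → ∑ i, (μ i : ℚ) * α i = 0) →
      (∃ j : {j : Fin n // j ≠ l}, Irrational (c j)) →
      (∀ a ∈ V, (0 < ∑ i, μ i * a i → 0 < ∑ i, c i * a i) ∧
        (∑ i, μ i * a i < 0 → ∑ i, c i * a i < 0)) →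
      ∀ M : ℝ, ∃ ψ : A →ₐ[ℂ] ℂ, M < ‖fun i => ψ ⟨ξ i, hξA i⟩‖ ∧
        ∀ i, ψ ⟨η i, hηA i⟩ = Complex.exp (ψ ⟨ξ i, hξA i⟩) := by
  classical
  set t : L := ∏ i, η i ^ μ i with htdef
  have htA : t ∈ A := by
    rw [htdef]
    refine prod_mem fun i _ => ?_
    rcases le_or_gt 0 (μ i) with h | h
    · obtain ⟨k, hk⟩ := Int.eq_ofNat_of_zero_le h
      rw [hk, zpow_natCast]
      exact pow_mem (hηA i) k
    · obtain ⟨k, hk⟩ := Int.eq_ofNat_of_zero_le (show 0 ≤ -μ i by omega)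
      rw [show μ i = -(k : ℤ) by omega, zpow_neg, zpow_natCast, ← inv_pow]
      exact pow_mem (hηA' i) k
  -- the family
  obtain ⟨g₁, hg₁, hfam⟩ := caseI_family ξ η hη P q r hP he hfac hqd l hξ hl t ht hz hzalg A hA
    hξA htA hηA hηA'
  -- signs at the ends
  obtain ⟨g₂, hg₂, hends⟩ := end_sign ξ η P hP l hξ hl A hξA hηA F hF V hV
  -- relations
  choose S β hS hβ hrel using fun i => exists_relation
    (fun j : {j : Fin n // j ≠ l} => ξ j) t (η i) hz (hzalg.isAlgebraic (η i))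
  set g₃ : MvPolynomial {j : Fin n // j ≠ l} ℂ := ∏ i, ∏ s ∈ S i, β i s with hg₃def
  have hg₃ : g₃ ≠ 0 := Finset.prod_ne_zero_iff.mpr fun i _ =>
    Finset.prod_ne_zero_iff.mpr fun s hs => hβ i s hs
  refine ⟨g₁ * g₂ * g₃, mul_ne_zero (mul_ne_zero hg₁ hg₂) hg₃, ?_⟩
  intro b hqb hlb hrb hgb hbne c hc hstar hirr hsign M
  rw [lead_mul, lead_mul, map_mul, map_mul, hg₃def, lead_prod, map_prod] at hgb
  have hgb1 : eval (fun j : {j : Fin n // j ≠ l} => (b j : ℂ)) (lead g₁) ≠ 0 :=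
    left_ne_zero_of_mul (left_ne_zero_of_mul hgb)
  have hgb2 : eval (fun j : {j : Fin n // j ≠ l} => (b j : ℂ)) (lead g₂) ≠ 0 :=
    right_ne_zero_of_mul (left_ne_zero_of_mul hgb)
  have hgb3 : ∀ i, ∀ s ∈ S i,
      eval (fun j : {j : Fin n // j ≠ l} => (b j : ℂ)) (lead (β i s)) ≠ 0 := by
    intro i s hs
    have h1 := Finset.prod_ne_zero_iff.mp (right_ne_zero_of_mul hgb) i (Finset.mem_univ i)
    rw [lead_prod, map_prod] at h1
    exact Finset.prod_ne_zero_iff.mp h1 s hs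
  set w : {j : Fin n // j ≠ l} → ℂ := ipt fun j => b j with hw
  have hgw2 : eval w (lead g₂) ≠ 0 := by
    rw [hw, ipt_eq]
    exact eval_smul_lead_ne g₂ two_pi_I_ne _ hgb2
  have hgw3 : ∀ i, ∀ s ∈ S i, eval w (lead (β i s)) ≠ 0 := by
    intro i s hs
    rw [hw, ipt_eq]
    exact eval_smul_lead_ne (β i s) two_pi_I_ne _ (hgb3 i s hs)
  have hcl : c l = -1 := by
    have h1 := hc l
    have h2 : (c l : ℂ) = -1 := by
      apply mul_right_cancel₀ hlb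
      rw [h1]; ring
    exact_mod_cast h2
  set m₀ : ℕ → {j : Fin n // j ≠ l} → ℤ := fun s j => round ((s : ℝ) ^ (3 * e) * b j) with hm₀
  have hm₀' : ∀ s j, |(m₀ s j : ℝ) - (s : ℝ) ^ (3 * e) * b j| ≤ 1 := by
    intro s j
    have h1 := abs_sub_round ((s : ℝ) ^ (3 * e) * b j)
    rw [abs_sub_comm]
    linarith
  obtain ⟨c₀, C, δ, φ, Ξ, Φ, hc₀, hc₀1, hC, hδ, hprop⟩ := hfam b hqb hlb hrb hgb1 c hc m₀ hm₀'
  have hN := tendsto_sc_N he
  have hclose : ∀ s, ‖(ipt fun j => (m₀ s j : ℝ)) - ((s ^ (3 * e) : ℕ) : ℂ) • w‖ ≤ 7 := by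
    intro s
    have h1 : ((s ^ (3 * e) : ℕ) : ℂ) • w =
        ipt fun j : {j : Fin n // j ≠ l} => (s : ℝ) ^ (3 * e) * b j := by
      funext j
      simp only [hw, ipt, Pi.smul_apply, smul_eq_mul]
      push_cast
      ring
    rw [h1]
    exact norm_ipt_sub _ _ (hm₀' s)
  have hlogs : ∀ᶠ s : ℕ in atTop, ∃ Λ : ({j : Fin n // j ≠ l} → ℂ) × ℂ → Fin n → ℂ,
      LogProp η A hηA (Dom (m₀ s) (2 * ((s : ℝ) ^ (3 * e) / s)) (2 * c₀) (φ s)
          (5 * ((s : ℝ) ^ (3 * e) / s ^ 2)))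
        (ipt fun j => (m₀ s j : ℝ), φ s * Complex.I) (Φ s) Λ := by
    filter_upwards [hprop] with s hs
    exact exists_logProp_of_fam hs
  have hne : Nonempty (({j : Fin n // j ≠ l} → ℂ) × ℂ → Fin n → ℂ) := ⟨fun _ _ => 0⟩
  obtain ⟨Λ, hΛ⟩ := hlogs.choice
  -- slow variation of the coefficients
  have hps : ∀ i s, ∃ ε Cp : ℝ, 0 < ε ∧ (s ∈ S i → ∀ᶠ N : ℕ in atTop,
      ∀ x ∈ ball ((N : ℂ) • w) (ε * N), eval x (β i s) ≠ 0 ∧
        ∀ x' ∈ ball ((N : ℂ) • w) (ε * N),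
          ‖eval x' (β i s) - eval x (β i s)‖ ≤ Cp / N * ‖x' - x‖ * ‖eval x (β i s)‖) := by
    intro i s
    by_cases hs : s ∈ S i
    · obtain ⟨ε, hε, Cp, c₁, hc₁, h1⟩ := poly_slow (β i s) w (hgw3 i s hs)
      refine ⟨ε, Cp, hε, fun _ => ?_⟩
      filter_upwards [h1] with N hN x hx
      refine ⟨?_, (hN x hx).2⟩
      intro h0
      have h2 := (hN x hx).1
      rw [h0, norm_zero] at h2
      linarith
    · exact ⟨1, 0, one_pos, fun h => absurd h hs⟩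
  choose εp Cp hεp hps' using hps
  have hslow : ∀ᶠ s : ℕ in atTop, ∀ i, ∀ u ∈ S i,
      ∀ x ∈ ball (ipt fun j => (m₀ s j : ℝ)) ((s : ℝ) ^ (3 * e) / s), eval x (β i u) ≠ 0 ∧
        ∀ x' ∈ ball (ipt fun j => (m₀ s j : ℝ)) ((s : ℝ) ^ (3 * e) / s),
          ‖eval x' (β i u) - eval x (β i u)‖ ≤
            Cp i u / ((s ^ (3 * e) : ℕ) : ℝ) * ‖x' - x‖ * ‖eval x (β i u)‖ := by
    rw [eventually_all]
    intro i
    have h1 : ∀ u ∈ S i, ∀ᶠ s : ℕ in atTop,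
      ∀ x ∈ ball (ipt fun j => (m₀ s j : ℝ)) ((s : ℝ) ^ (3 * e) / s), eval x (β i u) ≠ 0 ∧
        ∀ x' ∈ ball (ipt fun j => (m₀ s j : ℝ)) ((s : ℝ) ^ (3 * e) / s),
          ‖eval x' (β i u) - eval x (β i u)‖ ≤
            Cp i u / ((s ^ (3 * e) : ℕ) : ℝ) * ‖x' - x‖ * ‖eval x (β i u)‖ := by
      intro u hu
      filter_upwards [hN.eventually (hps' i u hu), sc_small he (hεp i u) 7 1] with s h2 h3
      rw [one_mul] at h3
      have h4 := ball_sub (hclose s) h3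
      intro x hx
      exact ⟨(h2 x (h4 hx)).1, fun x' hx' => (h2 x (h4 hx)).2 x' (h4 hx')⟩
    exact (Finset.eventually_all (S i)).2 h1
  -- the ends
  obtain ⟨ε₂, hε₂, hends'⟩ := hends c μ hsign w hgw2
  obtain ⟨κ, hκ, hend⟩ := hends' (fun s => s ^ (3 * e))
    (fun s => (s : ℝ) ^ (3 * e) / (s : ℝ) ^ 2) (C + 2) hN (tendsto_sc_R he) (tendsto_sc_log he)
  choose Cz hCz0 hCz using fun i => zeta_lip (S i) (hS i) hc₀ hc₀1
  have hsumCz : 0 ≤ ∑ i, Cz i := Finset.sum_nonneg fun i _ => (hCz0 i).le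
  set Kp : ℝ := ∑ i, ∑ u ∈ S i, |Cp i u| with hKp
  have hKp0 : 0 ≤ Kp := Finset.sum_nonneg fun i _ => Finset.sum_nonneg fun u _ => abs_nonneg _
  have hKple : ∀ i, ∀ u ∈ S i, Cp i u ≤ Kp := by
    intro i u hu
    have h1 : |Cp i u| ≤ ∑ u ∈ S i, |Cp i u| :=
      Finset.single_le_sum (f := fun u => |Cp i u|) (fun _ _ => abs_nonneg _) hu
    have h2 : ∑ u ∈ S i, |Cp i u| ≤ Kp :=
      Finset.single_le_sum (f := fun i => ∑ u ∈ S i, |Cp i u|)
        (fun i _ => Finset.sum_nonneg fun u _ => abs_nonneg _) (Finset.mem_univ i)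
    exact (le_abs_self _).trans (h1.trans h2)
  set δ' : ℕ → ℝ := fun s => |δ s| +
    8 * C * (((s : ℝ) ^ (3 * e) / (s : ℝ) ^ 2) / ((s : ℝ) ^ (3 * e) / s)) +
    Kp * (((s ^ (3 * e) : ℕ) : ℝ))⁻¹ with hδ'def
  have hδ' : Tendsto δ' atTop (𝓝 0) := by
    have h1 : Tendsto (fun s => |δ s|) atTop (𝓝 0) := by
      have := hδ.abs
      rwa [abs_zero] at this
    have h2 := (tendsto_sc_R_div_rho (e := e)).const_mul (8 * C)
    have h3 : Tendsto (fun s : ℕ => Kp * (((s ^ (3 * e) : ℕ) : ℝ))⁻¹) atTop (𝓝 (Kp * 0)) :=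
      (tendsto_inv_atTop_zero.comp (tendsto_natCast_atTop_atTop.comp hN)).const_mul Kp
    have h4 := (h1.add h2).add h3
    simpa only [mul_zero, add_zero] using h4
  have hδle : ∀ s, δ s ≤ δ' s := by
    intro s
    have h1 : 0 ≤ 8 * C * (((s : ℝ) ^ (3 * e) / (s : ℝ) ^ 2) / ((s : ℝ) ^ (3 * e) / s)) := by
      positivity
    have h2 : 0 ≤ Kp * (((s ^ (3 * e) : ℕ) : ℝ))⁻¹ := by positivity
    have h3 := le_abs_self (δ s)
    simp only [hδ'def]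
    linarith
  -- all facts together
  have hall : ∀ᶠ s : ℕ in atTop,
      1 ≤ s ∧ FamProp ξ η l t A hξA htA hηA c (m₀ s) ((s : ℝ) ^ (3 * e)) ((s : ℝ) ^ (3 * e) / s)
            ((s : ℝ) ^ (3 * e) / s ^ 2) c₀ C (δ s) (φ s) (Ξ s) (Φ s) ∧
      LogProp η A hηA (Dom (m₀ s) (2 * ((s : ℝ) ^ (3 * e) / s)) (2 * c₀) (φ s)
          (5 * ((s : ℝ) ^ (3 * e) / s ^ 2)))
        (ipt fun j => (m₀ s j : ℝ), φ s * Complex.I) (Φ s) (Λ s) := by
    filter_upwards [eventually_ge_atTop 1, hprop, hΛ] with s h1 h2 h3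
    exact ⟨h1, h2, h3⟩
  have hNC : ∀ᶠ s : ℕ in atTop, C * (s : ℝ) ^ (3 * e) ≤
      Real.exp ((C + 2) * Real.log ((s ^ (3 * e) : ℕ) : ℝ)) := by
    filter_upwards [(tendsto_natCast_atTop_atTop.comp hN).eventually_ge_atTop C,
      eventually_ge_atTop 1] with s hs hs1
    have h1 : (1 : ℝ) ≤ s := by exact_mod_cast hs1
    have h2 : (1 : ℝ) ≤ (s : ℝ) ^ (3 * e) := one_le_pow₀ h1
    simp only [Function.comp_apply] at hs
    push_cast at hs ⊢
    have h3 : 0 ≤ Real.log ((s : ℝ) ^ (3 * e)) := Real.log_nonneg h2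
    have h4 : 2 * Real.log ((s : ℝ) ^ (3 * e)) ≤ (C + 2) * Real.log ((s : ℝ) ^ (3 * e)) :=
      mul_le_mul_of_nonneg_right (by linarith) h3
    refine le_trans ?_ (Real.exp_le_exp.mpr h4)
    have h5 : Real.exp (2 * Real.log ((s : ℝ) ^ (3 * e))) =
        (s : ℝ) ^ (3 * e) * (s : ℝ) ^ (3 * e) := by
      rw [two_mul, Real.exp_add, Real.exp_log (by positivity)]
    rw [h5]
    exact mul_le_mul_of_nonneg_right hs (by positivity)
  have hcore := coreI l c hcl μ hstar hirr (c₀ := c₀) (C := ∑ i, Cz i + C + 4) (κ := κ) hc₀ hκ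
    (fun s => (s : ℝ) ^ (3 * e) / (s : ℝ) ^ 2) (fun s => (s : ℝ) ^ (3 * e) / s) δ' φ
    (tendsto_sc_R he) tendsto_sc_R_div_rho (tendsto_sc_rho he) hδ' m₀ Λ Ξ
    (by
      filter_upwards [hall] with s hs i
      obtain ⟨hs1, hf, hL⟩ := hs
      exact fam_d he hs1 hc₀ hL i)
    (by
      filter_upwards [hall] with s hs
      obtain ⟨hs1, hf, hL⟩ := hs
      have hρ0 := sc_rho_pos (e := e) hs1
      exact hf.2.2.1.mono (ball_subset_ball (by linarith)))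
    (by
      filter_upwards [hall, hslow] with s hs hsl p hp p' hp' hpp
      obtain ⟨hs1, hf, hL⟩ := hs
      have h1 := fam_lip_zeta hf hL (sc_rho_pos hs1) (sc_one_le_R he hs1) hrel
        (fun x hx i u hu => (hsl i u hu x hx).1) hCz0 hCz p hp p' hp' hpp
      refine h1.trans (mul_le_mul_of_nonneg_right (by linarith) (norm_nonneg _)))
    (by
      filter_upwards [hall] with s hs p hp p' hp' hpp
      obtain ⟨hs1, hf, hL⟩ := hs
      have h1 := fam_lip_x hf hL (sc_rho_pos hs1) hc₀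
        (by linarith [sc_one_le_R he hs1]) hC p hp p' hp' hpp
      refine h1.trans (mul_le_mul_of_nonneg_right ?_ (norm_nonneg _))
      have h2 : 0 ≤ Kp * (((s ^ (3 * e) : ℕ) : ℝ))⁻¹ := by positivity
      have h3 := abs_nonneg (δ s)
      simp only [hδ'def]
      linarith)
    (by
      filter_upwards [hall] with s hs
      obtain ⟨hs1, hf, hL⟩ := hs
      refine (fam_center hf hL (sc_rho_pos hs1) hc₀ (sc_one_le_R he hs1) hC).trans
        (mul_le_mul_of_nonneg_right (by linarith) ?_)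
      linarith [sc_one_le_R he hs1])
    (by
      filter_upwards [hall] with s hs p hp
      obtain ⟨hs1, hf, hL⟩ := hs
      exact fam_mu hf hL hη hηA' μ htdef p (sc_dom he hs1 hc₀ hp))
    (by
      filter_upwards [hall] with s hs x hx x' hx'
      obtain ⟨hs1, hf, hL⟩ := hs
      exact (hf.2.2.2.2.1 x hx x' hx').trans
        (mul_le_mul_of_nonneg_right (hδle s) (norm_nonneg _)))
    (by
      filter_upwards [hall] with s hs
      obtain ⟨hs1, hf, hL⟩ := hs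
      refine hf.2.2.2.2.2.trans (mul_le_mul_of_nonneg_right (hδle s) ?_)
      linarith [sc_one_le_R he hs1])
    (by
      filter_upwards [hall, hend, sc_small he hε₂ 7 1, hNC] with s hs he1 hsm hsC
      obtain ⟨hs1, hf, hL⟩ := hs
      rw [one_mul] at hsm
      have h1 := fam_end hf hL hη hηA' μ htdef (sc_rho_pos hs1) hc₀ (sc_one_le_R he hs1)
        (Nn := s ^ (3 * e)) (by positivity) hsC (ball_sub (hclose s) hsm) he1
      exact h1)
    (by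
      intro i
      refine ⟨S i, fun _ x s => eval x (β i s), hS i, ?_⟩
      filter_upwards [hall, hslow] with s hs hsl
      obtain ⟨hs1, hf, hL⟩ := hs
      refine ⟨?_, fun p hp => fam_rel hf hL (hrel i) p (sc_dom he hs1 hc₀ hp)⟩
      intro x hx u hu
      refine ⟨(hsl i u hu x hx).1, fun x' hx' => ?_⟩
      refine ((hsl i u hu x hx).2 x' hx').trans ?_
      refine mul_le_mul_of_nonneg_right (mul_le_mul_of_nonneg_right ?_ (norm_nonneg _))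
        (norm_nonneg _)
      have h1 : Cp i u / ((s ^ (3 * e) : ℕ) : ℝ) ≤ Kp * (((s ^ (3 * e) : ℕ) : ℝ))⁻¹ := by
        rw [div_eq_mul_inv]
        exact mul_le_mul_of_nonneg_right (hKple i u hu) (by positivity)
      have h2 : 0 ≤ 8 * C * (((s : ℝ) ^ (3 * e) / (s : ℝ) ^ 2) / ((s : ℝ) ^ (3 * e) / s)) := by
        positivity
      have h3 := abs_nonneg (δ s)
      simp only [hδ'def]
      linarith)
  -- the solution
  have hw0 : 0 < ‖w‖ := by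
    obtain ⟨j, hj⟩ := hbne
    have h1 : w j ≠ 0 := by
      rw [hw, ipt_eq]
      exact mul_ne_zero two_pi_I_ne (by exact_mod_cast hj)
    exact (norm_pos_iff.mpr h1).trans_le (norm_le_pi_norm w j)
  obtain ⟨s, ⟨p, hp, m, hm1, hm2⟩, ⟨⟨hs1, hf, hL⟩, hlarge⟩⟩ :=
    (hcore.and_eventually (hall.and (sc_small he hw0 (M + 7) 1))).exists
  have hp5 := sc_dom he hs1 hc₀ hp
  have hpf := hf.1 p hp5
  refine ⟨Φ s p, ?_, ?_⟩
  · rw [one_mul] at hlarge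
    have h1 : ‖p.1‖ ≤ ‖fun i => Φ s p ⟨ξ i, hξA i⟩‖ := by
      rw [pi_norm_le_iff_of_nonneg (norm_nonneg _)]
      intro j
      rw [← hpf.1 j]
      exact norm_le_pi_norm (fun i => Φ s p ⟨ξ i, hξA i⟩) (j : Fin n)
    have h2 : ‖((s ^ (3 * e) : ℕ) : ℂ) • w‖ = ‖w‖ * ((s ^ (3 * e) : ℕ) : ℝ) := by
      rw [norm_smul, Complex.norm_natCast, mul_comm]
    have h3 := hclose s
    have h4 : ‖p.1 - ipt fun j => (m₀ s j : ℝ)‖ < (s : ℝ) ^ (3 * e) / s := by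
      have := hp.1
      rwa [mem_ball, dist_eq_norm] at this
    have h5 : ‖((s ^ (3 * e) : ℕ) : ℂ) • w‖ ≤ ‖p.1‖ + ‖p.1 - ipt fun j => (m₀ s j : ℝ)‖ +
        ‖(ipt fun j => (m₀ s j : ℝ)) - ((s ^ (3 * e) : ℕ) : ℂ) • w‖ := by
      have h6 : ((s ^ (3 * e) : ℕ) : ℂ) • w = p.1 - (p.1 - ipt fun j => (m₀ s j : ℝ)) -
          ((ipt fun j => (m₀ s j : ℝ)) - ((s ^ (3 * e) : ℕ) : ℂ) • w) := by abel
      calc ‖((s ^ (3 * e) : ℕ) : ℂ) • w‖ = ‖p.1 - (p.1 - ipt fun j => (m₀ s j : ℝ)) -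
          ((ipt fun j => (m₀ s j : ℝ)) - ((s ^ (3 * e) : ℕ) : ℂ) • w)‖ := by rw [← h6]
        _ ≤ _ := (norm_sub_le _ _).trans (add_le_add_left (norm_sub_le _ _) _)
    linarith
  · intro i
    rw [← hL.2.1 p hp5 i]
    by_cases hi : i = l
    · subst hi
      rw [hpf.2.1, hm2, Complex.exp_add]
      have h1 : Complex.exp (2 * Real.pi * Complex.I * (m i : ℂ)) = 1 := by
        rw [mul_comm]
        exact Complex.exp_int_mul_two_pi_mul_I _
      rw [h1, one_mul]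
    · have h2 := hpf.1 ⟨i, hi⟩
      have h3 := hm1 ⟨i, hi⟩
      simp only at h2 h3
      rw [h2, h3, Complex.exp_add]
      have h1 : Complex.exp (2 * Real.pi * Complex.I * (m i : ℂ)) = 1 := by
        rw [mul_comm]
        exact Complex.exp_int_mul_two_pi_mul_I _
      rw [h1, one_mul]

end Pool.Agent.Lib.MP_209724_lc.HS
end

section

/-!
The irrational case.
-/

namespace Pool.Agent.Lib.MP_209724_lc.HS

open MvPolynomial Filter Topology Metric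
open MV (lead evT glue)
open GC (evM)

/-- the algebra with the inverses of the `η i` -/
theorem exists_bigger {n : ℕ} {L : Type} [Field L] [Algebra ℂ L] (η : Fin n → L)
    (A : Subalgebra ℂ L) (hA : A.FG) :
    ∃ A' : Subalgebra ℂ L, A ≤ A' ∧ A'.FG ∧ ∀ i, (η i)⁻¹ ∈ A' := by
  classical
  refine ⟨A ⊔ Algebra.adjoin ℂ ((Finset.univ.image fun i => (η i)⁻¹ : Finset L) : Set L),
    le_sup_left, hA.sup (Subalgebra.fg_adjoin_finset _), fun i => ?_⟩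
  apply (le_sup_right : Algebra.adjoin ℂ _ ≤ _)
  apply Algebra.subset_adjoin
  rw [Finset.mem_coe]
  exact Finset.mem_image_of_mem _ (Finset.mem_univ i)

theorem algebraic_pairs {n : ℕ} {L : Type} [Field L] [Algebra ℂ L] (ξ η : Fin n → L)
    (htr : Algebra.trdeg ℂ L = n) (l : Fin n)
    (hξ : AlgebraicIndependent ℂ (fun j : {j : Fin n // j ≠ l} => ξ j)) (i j : Fin n) :
    IsAlgebraic (IntermediateField.adjoin ℂ (Set.range ξ ∪ {η i})) (η j) ∨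
      IsAlgebraic (IntermediateField.adjoin ℂ (Set.range ξ)) (η i) := by
  by_cases h : IsAlgebraic (IntermediateField.adjoin ℂ (Set.range ξ)) (η i)
  · exact Or.inr h
  left
  obtain ⟨-, hzalg⟩ := MV.z_facts ξ htr l hξ (η i) h
  have hsub : Algebra.adjoin ℂ
      (Set.range fun o : Option {j : Fin n // j ≠ l} => o.elim (η i) fun j => ξ j) ≤
      (IntermediateField.adjoin ℂ (Set.range ξ ∪ {η i})).toSubalgebra := by
    apply Algebra.adjoin_le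
    rintro _ ⟨_ | k, rfl⟩
    · exact IntermediateField.subset_adjoin _ _ (Or.inr rfl)
    · exact IntermediateField.subset_adjoin _ _ (Or.inl ⟨k, rfl⟩)
  exact MV.isAlgebraic_of_map (Subalgebra.inclusion hsub).toRingHom (fun r => rfl)
    (Subalgebra.inclusion_injective hsub) (hzalg.isAlgebraic (η j))

theorem eval_map_real {n : ℕ} (p : MvPolynomial (Fin n) ℝ) (b : Fin n → ℝ) :
    eval (fun i => (b i : ℂ)) (MvPolynomial.map (algebraMap ℝ ℂ) p) = ((eval b p : ℝ) : ℂ) := by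
  induction p using MvPolynomial.induction_on with
  | C c => simp
  | add p q hp hq => simp only [map_add, hp, hq]; push_cast; rfl
  | mul_X p i hp => simp only [map_mul, hp, map_X, eval_X]; push_cast; rfl

theorem caseI {n : ℕ} {L : Type} [Field L] [Algebra ℂ L] (ξ η : Fin n → L)
    (hη : ∀ i, η i ≠ 0) (htr : Algebra.trdeg ℂ L = n) (P q r : MvPolynomial (Fin n) ℂ)
    (hP : ∀ c, aeval ξ c = 0 ↔ P ∣ c)
    {e d : ℕ} (he : 0 < e) (hfac : lead P = q ^ e * r) (hqd : q.IsHomogeneous d)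
    (qR : MvPolynomial (Fin n) ℝ) (hqR : MvPolynomial.map (algebraMap ℝ ℂ) qR = q) (l : Fin n)
    (hξ : AlgebraicIndependent ℂ (fun j : {j : Fin n // j ≠ l} => ξ j))
    (hl : IsAlgebraic (Algebra.adjoin ℂ (Set.range fun j : {j : Fin n // j ≠ l} => ξ j)) (ξ l))
    (a : Fin n → ℤ) (𝒪 : ValuationSubring L)
    (hK : ∀ c ∈ IntermediateField.adjoin ℂ (Set.range ξ), c ∈ 𝒪)
    (h𝒪 : ∀ m : Fin n → ℤ, 𝒪.valuation (∏ i, η i ^ m i) < 1 ↔ 0 < ∑ i, a i * m i)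
    (hgen : ∀ cs : (Fin n → ℤ) → MvPolynomial {j : Fin n // j ≠ l} ℂ, (∀ μ, cs μ ≠ 0) →
      ∃ b : Fin n → ℝ, eval (fun i => (b i : ℂ)) q = 0 ∧
        eval (fun i => (b i : ℂ)) (pderiv l q) ≠ 0 ∧
        eval (fun i => (b i : ℂ)) (r * ∑ i, C (a i : ℂ) * pderiv i q) ≠ 0 ∧
        (∀ μ, eval (fun j : {j : Fin n // j ≠ l} => (b j : ℂ)) (cs μ) ≠ 0) ∧
        ∃ j : {j : Fin n // j ≠ l}, Irrational
          (-(eval (fun i => (b i : ℂ)) (pderiv (j : Fin n) q) /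
            eval (fun i => (b i : ℂ)) (pderiv l q)).re))
    (A : Subalgebra ℂ L) (hA : A.FG) (hξA : ∀ i, ξ i ∈ A) (hηA : ∀ i, η i ∈ A) (M : ℝ) :
    ∃ ψ : A →ₐ[ℂ] ℂ, M < ‖fun i => ψ ⟨ξ i, hξA i⟩‖ ∧
      ∀ i, ψ ⟨η i, hηA i⟩ = Complex.exp (ψ ⟨ξ i, hξA i⟩) := by
  classical
  obtain ⟨A', hAA', hA', hηA''⟩ := exists_bigger η A hA
  have hξA' : ∀ i, ξ i ∈ A' := fun i => hAA' (hξA i)
  have hηA' : ∀ i, η i ∈ A' := fun i => hAA' (hηA i)
  obtain ⟨F, V, hF, hV⟩ := exists_rays ξ η (algebraic_pairs ξ η htr l hξ) hη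
  have hg : ∀ μ : Fin n → ℤ, ∃ g : MvPolynomial {j : Fin n // j ≠ l} ℂ, g ≠ 0 ∧
      (Transcendental (IntermediateField.adjoin ℂ (Set.range ξ)) (∏ i, η i ^ μ i) →
      ∀ b : Fin n → ℝ,
      eval (fun i => (b i : ℂ)) q = 0 → eval (fun i => (b i : ℂ)) (pderiv l q) ≠ 0 →
      eval (fun i => (b i : ℂ)) r ≠ 0 →
      eval (fun j : {j : Fin n // j ≠ l} => (b j : ℂ)) (lead g) ≠ 0 →
      (∃ j : {j : Fin n // j ≠ l}, b j ≠ 0) →
      ∀ c : Fin n → ℝ, (∀ j, (c j : ℂ) * eval (fun i => (b i : ℂ)) (pderiv l q) =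
        -eval (fun i => (b i : ℂ)) (pderiv j q)) →
      (∀ α : Fin n → ℚ, ∑ i, c i * α i = 0 → ∑ i, (μ i : ℚ) * α i = 0) →
      (∃ j : {j : Fin n // j ≠ l}, Irrational (c j)) →
      (∀ a ∈ V, (0 < ∑ i, μ i * a i → 0 < ∑ i, c i * a i) ∧
        (∑ i, μ i * a i < 0 → ∑ i, c i * a i < 0)) →
      ∀ M : ℝ, ∃ ψ : A' →ₐ[ℂ] ℂ, M < ‖fun i => ψ ⟨ξ i, hξA' i⟩‖ ∧
        ∀ i, ψ ⟨η i, hηA' i⟩ = Complex.exp (ψ ⟨ξ i, hξA' i⟩)) := by
    intro μ
    by_cases ht : Transcendental (IntermediateField.adjoin ℂ (Set.range ξ)) (∏ i, η i ^ μ i)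
    · obtain ⟨hz, hzalg⟩ := MV.z_facts ξ htr l hξ _ ht
      obtain ⟨g, hg, h⟩ := caseI_solve ξ η hη P q r hP he hfac hqd l hξ hl μ ht hz hzalg A' hA'
        hξA' hηA' hηA'' F hF V hV
      exact ⟨g, hg, fun _ => h⟩
    · exact ⟨1, one_ne_zero, fun h => absurd h ht⟩
  choose g hg0 hg using hg
  obtain ⟨b, hqb, hlb, hrb, hcs, j₀, hj₀⟩ := hgen (fun μ => lead (g μ) * ∏ j, X j) (fun μ =>
    mul_ne_zero (MV.lead_ne_zero (hg0 μ)) (Finset.prod_ne_zero_iff.mpr fun j _ => X_ne_zero j))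
  rw [map_mul] at hrb
  have hrb1 := left_ne_zero_of_mul hrb
  have hrb2 := right_ne_zero_of_mul hrb
  have hbj : b j₀ ≠ 0 := by
    intro h0
    have h1 := right_ne_zero_of_mul (by simpa only [map_mul] using hcs 0)
    rw [map_prod] at h1
    have h2 := Finset.prod_ne_zero_iff.mp h1 j₀ (Finset.mem_univ _)
    rw [eval_X, h0] at h2
    exact h2 rfl
  -- the real vector `c`
  have hreal : ∀ i, eval (fun i => (b i : ℂ)) (pderiv i q) =
      ((eval b (pderiv i qR) : ℝ) : ℂ) := by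
    intro i
    rw [← hqR, pderiv_map, eval_map_real]
  set c : Fin n → ℝ := fun i => -(eval (fun i => (b i : ℂ)) (pderiv i q) /
            eval (fun i => (b i : ℂ)) (pderiv l q)).re with hcdef
  have hc : ∀ j, (c j : ℂ) * eval (fun i => (b i : ℂ)) (pderiv l q) =
      -eval (fun i => (b i : ℂ)) (pderiv j q) := by
    intro j
    have h1 : (c j : ℂ) = -(eval (fun i => (b i : ℂ)) (pderiv j q) /
            eval (fun i => (b i : ℂ)) (pderiv l q)) := by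
      simp only [hcdef]
      rw [hreal j, hreal l, ← Complex.ofReal_div, Complex.ofReal_re]
      push_cast
      rfl
    rw [h1, neg_mul, div_mul_cancel₀ _ hlb]
  obtain ⟨μ, hstar, hsign⟩ := exists_mu c (insert a V)
  have hca : ∑ i, c i * a i ≠ 0 := by
    intro h0
    apply hrb2
    rw [map_sum]
    have h1 : ∑ i, (c i : ℂ) * a i = 0 := by exact_mod_cast h0
    have h2 : ∑ i, eval (fun i => (b i : ℂ)) (C (a i : ℂ) * pderiv i q) =
        -(∑ i, (c i : ℂ) * a i) * eval (fun i => (b i : ℂ)) (pderiv l q) := by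
      rw [neg_mul, Finset.sum_mul, ← Finset.sum_neg_distrib]
      refine Finset.sum_congr rfl fun i _ => ?_
      rw [map_mul, eval_C]
      linear_combination (a i : ℂ) * hc i
    rw [h2, h1]
    simp
  have hμa : ∑ i, a i * μ i ≠ 0 := by
    have h1 := hsign a (Finset.mem_insert_self _ _)
    rcases lt_or_gt_of_ne hca with h2 | h2
    · have h3 := h1.2.mp h2
      have h4 : ∑ i, a i * μ i = ∑ i, μ i * a i := Finset.sum_congr rfl fun i _ => mul_comm _ _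
      omega
    · have h3 := h1.1.mp h2
      have h4 : ∑ i, a i * μ i = ∑ i, μ i * a i := Finset.sum_congr rfl fun i _ => mul_comm _ _
      omega
  have ht := transcendental_monomial ξ η hη a 𝒪 hK h𝒪 μ hμa
  obtain ⟨ψ, hψM, hψ⟩ := hg μ ht b hqb hlb hrb1
    (by
      have h1 := hcs μ
      rw [map_mul] at h1
      exact left_ne_zero_of_mul h1) ⟨j₀, hbj⟩ c hc hstar ⟨j₀, hj₀⟩
    (fun a' ha' => ⟨(hsign a' (Finset.mem_insert_of_mem ha')).1.mpr,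
      (hsign a' (Finset.mem_insert_of_mem ha')).2.mpr⟩) M
  exact ⟨ψ.comp (Subalgebra.inclusion hAA'), hψM, hψ⟩

end Pool.Agent.Lib.MP_209724_lc.HS
end

section

/-!
The rational case.
-/

namespace Pool.Agent.Lib.MP_209724_lc.HS

open MvPolynomial Filter Topology Metric
open MV (lead evT glue)
open GC (evM)

theorem isFam_mono {ι M : Type} [Fintype ι] [Field M] [Algebra ℂ M] {z : ι → M}
    {A : Subalgebra ℂ M} {hzA : ∀ i, z i ∈ A} {U U' : Set ((ι → ℂ) × ℂ)}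
    {Φ : (ι → ℂ) × ℂ → (A →ₐ[ℂ] ℂ)} (h : IsFam z A hzA U Φ) (hU : U' ⊆ U) :
    IsFam z A hzA U' Φ :=
  ⟨fun p hp => h.1 p (hU hp), fun x => (h.2 x).mono hU⟩

theorem mem_of_isAlgebraic {M : Type} [Field M] [Algebra ℂ M] {x : M} (h : IsAlgebraic ℂ x) :
    ∃ s : ℂ, x = algebraMap ℂ M s := by
  have h1 := IsAlgClosed.degree_eq_one_of_irreducible ℂ (minpoly.irreducible h.isIntegral)
  obtain ⟨s, hs⟩ := minpoly.mem_range_of_degree_eq_one ℂ x h1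
  exact ⟨s, hs.symm⟩

/-- The growth part: a good region exists. -/
theorem exists_region {n : ℕ} {M' : Type} [Field M'] [Algebra ℂ M'] [IsAlgClosed M']
    (ξ : Fin n → M') (P q r : MvPolynomial (Fin n) ℂ) (hP : ∀ c, aeval ξ c = 0 ↔ P ∣ c)
    {e : ℕ} (he : 0 < e) (hfac : lead P = q ^ e * r) (l : Fin n)
    (hξ : AlgebraicIndependent ℂ (fun j : {j : Fin n // j ≠ l} => ξ j))
    (hl : IsAlgebraic (Algebra.adjoin ℂ (Set.range fun j : {j : Fin n // j ≠ l} => ξ j)) (ξ l))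
    (c' : {j : Fin n // j ≠ l} → ℚ) (k : ℂ) (hk : k ≠ 0)
    (hq : q = C k * (X l - ∑ j : {j : Fin n // j ≠ l}, C (c' j : ℂ) * X (j : Fin n)))
    (hgen : ∀ c : MvPolynomial (Fin n) ℂ, ¬ q ∣ c →
        ∃ b : Fin n → ℝ, eval (fun i => (b i : ℂ)) q = 0 ∧ eval (fun i => (b i : ℂ)) c ≠ 0)
    (hqirr : Irreducible q) (hr : ¬ q ∣ r)
    (hσc : ∀ s : ℂ, ξ l - ∑ j : {j : Fin n // j ≠ l}, algebraMap ℂ M' (c' j : ℂ) * ξ j ≠
      algebraMap ℂ M' s) (K : ℕ) (hK : 0 < K)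
    (bb : Polynomial (MvPolynomial {j : Fin n // j ≠ l} ℂ)) (hbb : bb ≠ 0) :
    ∃ (A₁ : Subalgebra ℂ M') (hξA₁ : ∀ i, ξ i ∈ A₁) (σ : A₁)
      (_ : (σ : M') = ξ l - ∑ j : {j : Fin n // j ≠ l}, algebraMap ℂ M' (c' j : ℂ) * ξ j)
      (w : {j : Fin n // j ≠ l} → ℂ) (_ : 0 < ‖w‖) (ε₂ Λ₃ : ℝ) (_ : ε₂ ≤ ‖w‖ / 2)
      (Φ : ({j : Fin n // j ≠ l} → ℂ) × ℂ → (A₁ →ₐ[ℂ] ℂ))
      (_ : IsFam (fun j : {j : Fin n // j ≠ l} => ξ j) A₁ (fun j => hξA₁ j) (Dil w ε₂ Λ₃) Φ),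
      Region A₁ σ bb K w ε₂ Λ₃ Φ := by
  classical
  set z : {j : Fin n // j ≠ l} → M' := fun j => ξ j with hz
  set σ₀ : M' := ξ l - ∑ j : {j : Fin n // j ≠ l}, algebraMap ℂ M' (c' j : ℂ) * ξ j with hσ₀
  set B := Algebra.adjoin ℂ (Set.range z) with hB
  have hBalg : ∀ j, IsAlgebraic B (z j) := fun j =>
    isAlgebraic_algebraMap (⟨z j, Algebra.subset_adjoin ⟨j, rfl⟩⟩ : B)
  have hξalg : ∀ i, IsAlgebraic B (ξ i) := by
    intro i
    by_cases hi : i = l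
    · subst hi; exact hl
    · exact hBalg ⟨i, hi⟩
  have hcalg : ∀ s : ℂ, IsAlgebraic B (algebraMap ℂ M' s) := fun s =>
    isAlgebraic_algebraMap (algebraMap ℂ B s)
  have hσalg : IsAlgebraic B σ₀ := by
    have h1 : σ₀ ∈ Subalgebra.algebraicClosure B M' :=
      sub_mem (hξalg l) (sum_mem fun j _ => mul_mem (hcalg _) (hBalg j))
    exact h1
  obtain ⟨T, hTalg, hregb⟩ := region_bounded z hξ σ₀ hσalg hσc bb hbb K hK
  set A₁ : Subalgebra ℂ M' :=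
    Algebra.adjoin ℂ ((Finset.univ.image ξ ∪ T : Finset M') : Set M') with hA₁
  have hA₁fg : A₁.FG := Subalgebra.fg_adjoin_finset _
  have hξA₁ : ∀ i, ξ i ∈ A₁ := fun i => Algebra.subset_adjoin (by
    rw [Finset.mem_coe]
    exact Finset.mem_union_left _ (Finset.mem_image_of_mem ξ (Finset.mem_univ i)))
  have hTA₁ : ∀ x ∈ T, x ∈ A₁ := fun x hx => Algebra.subset_adjoin (by
    rw [Finset.mem_coe]
    exact Finset.mem_union_right _ hx)
  have hzA₁ : ∀ j, z j ∈ A₁ := fun j => hξA₁ j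
  have hcA₁ : ∀ s : ℂ, algebraMap ℂ M' s ∈ A₁ := fun s => A₁.algebraMap_mem s
  have hσA₁ : σ₀ ∈ A₁ := sub_mem (hξA₁ l) (sum_mem fun j _ => mul_mem (hcA₁ _) (hξA₁ j))
  have halg₁ : ∀ x ∈ A₁, IsAlgebraic B x := by
    have h1 : A₁ ≤ (Subalgebra.algebraicClosure B M').restrictScalars ℂ := by
      apply Algebra.adjoin_le
      intro x hx
      rw [Finset.mem_coe, Finset.mem_union, Finset.mem_image] at hx
      rcases hx with ⟨i, -, rfl⟩ | hx
      · exact hξalg i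
      · exact hTalg x hx
    intro x hx
    exact h1 hx
  have halg₁' : ∀ x ∈ A₁, IsAlgebraic (Algebra.adjoin ℂ (Set.range ξ)) x := by
    intro x hx
    have hsub : B ≤ Algebra.adjoin ℂ (Set.range ξ) := by
      apply Algebra.adjoin_mono
      rintro _ ⟨j, rfl⟩
      exact ⟨j, rfl⟩
    exact MV.isAlgebraic_of_map (Subalgebra.inclusion hsub).toRingHom (fun r => rfl)
      (Subalgebra.inclusion_injective hsub) (halg₁ x hx)
  obtain ⟨c₁, hc₁, hdil⟩ := exists_dilation z hξ A₁ hA₁fg hzA₁ halg₁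
  obtain ⟨c₂, hc₂, hhom⟩ := exists_hom_P ξ P hP l hξ hl A₁ hA₁fg hξA₁ halg₁'
  set σ : A₁ := ⟨σ₀, hσA₁⟩ with hσdef
  have hσ0 : σ ≠ 0 := by
    intro h0
    have h1 : σ₀ = 0 := congrArg Subtype.val h0
    apply hσc 0
    rw [map_zero]
    exact h1
  obtain ⟨c₃, hc₃, htame⟩ := tame_family z hξ A₁ hzA₁ halg₁ σ hσ0
  obtain ⟨c₄, hc₄, hgrowth⟩ := region_growth A₁ σ bb K hK hbb
  obtain ⟨c₅, hc₅, hbdd⟩ := hregb A₁ hA₁fg hzA₁ hσA₁ halg₁ hTA₁
  have hnonempty : Nonempty {j : Fin n // j ≠ l} := by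
    by_contra hem
    rw [not_nonempty_iff] at hem
    have h1 : Algebra.IsAlgebraic ℂ B := by
      constructor
      rintro ⟨x, hx⟩
      rw [hB, Set.range_eq_empty, Algebra.adjoin_empty, Algebra.mem_bot] at hx
      obtain ⟨s, hs⟩ := hx
      have h2 : (⟨x, by rw [hB, Set.range_eq_empty, Algebra.adjoin_empty, Algebra.mem_bot]; exact ⟨s, hs⟩⟩ : B) =
          algebraMap ℂ B s := Subtype.ext hs.symm
      rw [h2]
      exact isAlgebraic_algebraMap s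
    obtain ⟨s, hs⟩ := mem_of_isAlgebraic (hσalg.restrictScalars ℂ)
    exact hσc s hs
  obtain ⟨j₀⟩ := hnonempty
  -- the real point
  set G : MvPolynomial {j : Fin n // j ≠ l} ℂ :=
    lead c₁ * lead c₂ * lead c₃ * lead c₄ * lead c₅ * X j₀ with hG
  have hG0 : G ≠ 0 := by
    rw [hG]
    exact mul_ne_zero (mul_ne_zero (mul_ne_zero (mul_ne_zero (mul_ne_zero
      (MV.lead_ne_zero hc₁) (MV.lead_ne_zero hc₂)) (MV.lead_ne_zero hc₃)) (MV.lead_ne_zero hc₄))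
      (MV.lead_ne_zero hc₅)) (X_ne_zero j₀)
  have hpl : pderiv l q = C k := by
    rw [hq, Derivation.leibniz, map_sub, map_sum, pderiv_X_self, pderiv_C]
    have h1 : ∀ j : {j : Fin n // j ≠ l},
        pderiv l (C (c' j : ℂ) * X (j : Fin n) : MvPolynomial (Fin n) ℂ) = 0 := by
      intro j
      rw [Derivation.leibniz, pderiv_C, pderiv_X_of_ne j.2]
      simp
    rw [Finset.sum_eq_zero fun j _ => h1 j]
    simp
  have hpl0 : pderiv l q ≠ 0 := by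
    rw [hpl, Ne, C_eq_zero]
    exact hk
  obtain ⟨b, hqb, hb⟩ := hgen (r * rename Subtype.val G) (by
    intro hdvd
    rcases hqirr.prime.dvd_or_dvd hdvd with h | h
    · exact hr h
    · exact not_dvd_rename hpl0 hG0 h)
  rw [map_mul, eval_rename] at hb
  have hrb := left_ne_zero_of_mul hb
  have hGb := right_ne_zero_of_mul hb
  have hGb' : eval (fun j : {j : Fin n // j ≠ l} => (b j : ℂ)) G ≠ 0 := hGb
  rw [hG] at hGb'
  simp only [map_mul, eval_X] at hGb'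
  have hbj₀ := right_ne_zero_of_mul hGb'
  have h5 := right_ne_zero_of_mul (left_ne_zero_of_mul hGb')
  have h4 := right_ne_zero_of_mul (left_ne_zero_of_mul (left_ne_zero_of_mul hGb'))
  have h3 := right_ne_zero_of_mul (left_ne_zero_of_mul (left_ne_zero_of_mul
    (left_ne_zero_of_mul hGb')))
  have h2 := right_ne_zero_of_mul (left_ne_zero_of_mul (left_ne_zero_of_mul
    (left_ne_zero_of_mul (left_ne_zero_of_mul hGb'))))
  have h1 := left_ne_zero_of_mul (left_ne_zero_of_mul (left_ne_zero_of_mul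
    (left_ne_zero_of_mul (left_ne_zero_of_mul hGb'))))
  set bJ : {j : Fin n // j ≠ l} → ℝ := fun j => b j with hbJ
  set w : {j : Fin n // j ≠ l} → ℂ := ipt bJ with hw
  have hw1 : eval w (lead c₁) ≠ 0 := by
    rw [hw, ipt_eq]; exact eval_smul_lead_ne c₁ two_pi_I_ne _ h1
  have hw2 : eval w (lead c₂) ≠ 0 := by
    rw [hw, ipt_eq]; exact eval_smul_lead_ne c₂ two_pi_I_ne _ h2
  have hw3 : eval w (lead c₃) ≠ 0 := by
    rw [hw, ipt_eq]; exact eval_smul_lead_ne c₃ two_pi_I_ne _ h3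
  have hw0 : 0 < ‖w‖ := by
    have h6 : w j₀ ≠ 0 := by
      rw [hw, ipt_eq]
      exact mul_ne_zero two_pi_I_ne hbj₀
    exact (norm_pos_iff.mpr h6).trans_le (norm_le_pi_norm w j₀)
  have hqb' : (b l : ℂ) = ∑ j : {j : Fin n // j ≠ l}, (c' j : ℂ) * (b j : ℂ) := by
    rw [hq] at hqb
    simp only [map_mul, map_sub, map_sum, eval_C, eval_X] at hqb
    rcases mul_eq_zero.mp hqb with h | h
    · exact absurd h hk
    · exact sub_eq_zero.mp h
  have hglw : glue l w (∑ j, (c' j : ℂ) * w j) = fun i => (2 * Real.pi * Complex.I : ℂ) * b i := by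
    have h6 : (∑ j : {j : Fin n // j ≠ l}, (c' j : ℂ) * w j) =
        (2 * Real.pi * Complex.I : ℂ) * b l := by
      rw [hqb', Finset.mul_sum]
      refine Finset.sum_congr rfl fun j _ => ?_
      rw [hw, ipt_eq]
      ring
    rw [h6]
    exact (glue_eq l w (fun i => (2 * Real.pi * Complex.I : ℂ) * b i) (fun j => rfl)).symm
  have hqhom : q.IsHomogeneous 1 := by
    rw [hq]
    have h6 : (X l - ∑ j : {j : Fin n // j ≠ l}, C (c' j : ℂ) * X (j : Fin n) :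
        MvPolynomial (Fin n) ℂ).IsHomogeneous 1 := by
      apply (isHomogeneous_X ℂ l).sub
      apply IsHomogeneous.sum
      intro j _
      have := (isHomogeneous_C (Fin n) (c' j : ℂ)).mul (isHomogeneous_X ℂ (j : Fin n))
      simpa using this
    have := (isHomogeneous_C (Fin n) k).mul h6
    simpa using this
  have hrw : eval (glue l w (∑ j, (c' j : ℂ) * w j)) r ≠ 0 := by
    rw [hglw]
    exact eval_smul_cofactor_ne P q r hfac hqhom hqirr.ne_zero two_pi_I_ne _ hrb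
  -- the family
  obtain ⟨εb, Λb, Cb, hεb, hbr⟩ := dil_branch P q r he hfac l (fun j => (c' j : ℂ)) k hk hq w hrw
  obtain ⟨ε₁, hε₁, Λ₁, hfamily⟩ := hdil w hw1
  obtain ⟨εc, Λc, Cc, hεc, hCc, hcd⟩ := eval_dil c₂ w hw2
  set ε₀ : ℝ := min (min εb ε₁) (‖w‖ / 2) with hε₀def
  have hε₀ : 0 < ε₀ := by
    rw [hε₀def]
    exact lt_min (lt_min hεb hε₁) (by positivity)
  have hε₀b : ε₀ ≤ εb := (min_le_left _ _).trans (min_le_left _ _)
  have hε₀1 : ε₀ ≤ ε₁ := (min_le_left _ _).trans (min_le_right _ _)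
  have hε₀w : ε₀ ≤ ‖w‖ / 2 := min_le_right _ _
  set Λ₀ : ℝ := max (max Λb Λ₁) 0 with hΛ₀def
  have hΛ₀b : Λb ≤ Λ₀ := (le_max_left _ _).trans (le_max_left _ _)
  have hΛ₀1 : Λ₁ ≤ Λ₀ := (le_max_right _ _).trans (le_max_left _ _)
  have hΛ₀0 : 0 ≤ Λ₀ := le_max_right _ _
  set s₀ : ℝ := max Λ₀ Λc + 1 with hs₀
  have hs₀Λ : Λ₀ < s₀ := (le_max_left Λ₀ Λc).trans_lt (by linarith)
  have hs₀c : Λc < s₀ := (le_max_right Λ₀ Λc).trans_lt (by linarith)
  obtain ⟨y₀, hy₀, hbr'⟩ := hbr (s₀ : ℂ) (by rw [Complex.ofReal_re]; linarith)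
  have hc₂ne : eval (fun j : {j : Fin n // j ≠ l} => Complex.exp s₀ * w j) c₂ ≠ 0 := by
    intro h0
    have h6 := (hcd (s₀ : ℂ) (by rw [Complex.ofReal_re]; exact hs₀c) w (mem_ball_self hεc)).1
    rw [h0, norm_zero] at h6
    have h7 : 0 < Cc⁻¹ * Real.exp (c₂.totalDegree * (s₀ : ℂ).re) := by positivity
    linarith
  obtain ⟨ψ₀, hψ₀⟩ := hhom (glue l (fun j => Complex.exp s₀ * w j) y₀) hy₀ (by
    have h6 : (fun j : {j : Fin n // j ≠ l} =>
        glue l (fun j => Complex.exp s₀ * w j) y₀ (j : Fin n)) =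
        fun j => Complex.exp s₀ * w j := funext fun j => MV.glue_of_ne l _ y₀ j
    rw [h6]
    exact hc₂ne)
  have hp₀ : ((w, (s₀ : ℂ)) : ({j : Fin n // j ≠ l} → ℂ) × ℂ) ∈ Dil w ε₀ Λ₀ :=
    ⟨mem_ball_self hε₀, by simpa using hs₀Λ⟩
  obtain ⟨Φ, hΦ0, hΦ1⟩ := hfamily (w, (s₀ : ℂ)) (dil_mono hε₀1 hΛ₀1 hp₀) ψ₀ (by
    intro j
    rw [hψ₀ j]
    exact MV.glue_of_ne l _ y₀ j)
  have hΦ : IsFam z A₁ hzA₁ (Dil w ε₀ Λ₀) Φ := isFam_mono hΦ1 (dil_mono hε₀1 hΛ₀1)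
  set y : ({j : Fin n // j ≠ l} → ℂ) × ℂ → ℂ := fun p => Φ p ⟨ξ l, hξA₁ l⟩ with hy
  have hPξ : aeval ξ P = 0 := (hP P).mpr dvd_rfl
  have hyP : ∀ p ∈ Dil w ε₀ Λ₀, eval (glue l (fun j => Complex.exp p.2 * p.1 j) (y p)) P = 0 := by
    intro p hp
    have h6 := psi_P ξ P hPξ A₁ hξA₁ (Φ p)
    rw [glue_eq l (fun j => Complex.exp p.2 * p.1 j) (fun i => Φ p ⟨ξ i, hξA₁ i⟩)
      (fun j => hΦ.1 p hp j)] at h6
    exact h6
  have hgr := hbr' ε₀ Λ₀ hε₀ hε₀b hΛ₀b (by rw [Complex.ofReal_re]; exact hs₀Λ) y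
    (hΦ.2 ⟨ξ l, hξA₁ l⟩).continuousOn
    (by
      simp only [hy]
      rw [hΦ0, hψ₀ l]
      exact MV.glue_self l _ y₀) hyP
  have hσy : ∀ p ∈ Dil w ε₀ Λ₀, Φ p σ = y p - Complex.exp p.2 *
      ∑ j : {j : Fin n // j ≠ l}, (c' j : ℂ) * p.1 j := by
    intro p hp
    have h6 : σ = ⟨ξ l, hξA₁ l⟩ - ∑ j : {j : Fin n // j ≠ l},
        algebraMap ℂ A₁ (c' j : ℂ) * ⟨ξ j, hξA₁ j⟩ := by
      apply Subtype.ext
      rw [AddSubgroupClass.coe_sub, AddSubmonoidClass.coe_finsetSum]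
      rfl
    rw [h6, map_sub, map_sum, Finset.mul_sum]
    congr 1
    refine Finset.sum_congr rfl fun j _ => ?_
    rw [map_mul, AlgHom.commutes]
    have h7 := hΦ.1 p hp j
    have h8 : Φ p ⟨ξ j, hξA₁ j⟩ = Complex.exp p.2 * p.1 j := h7
    rw [h8]
    change (c' j : ℂ) * _ = _
    ring
  obtain ⟨ε₂, Λ₂, C₂, θ, g, hε₂, hε₂', hΛ₂, hgd, hg⟩ := htame w hw3 ε₀ hε₀ Λ₀ Φ hΦ
  have hsub2 : Dil w ε₂ Λ₂ ⊆ Dil w ε₀ Λ₀ := dil_mono hε₂' hΛ₂
  have hnorm : ∀ p ∈ Dil w ε₂ Λ₂, ‖Φ p σ‖ = Real.exp (g p).re := by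
    intro p hp
    rw [← (hg p hp).1, Complex.norm_exp]
  have hθ1 : θ < 1 := by
    by_contra hcon
    push Not at hcon
    have hcon' : (1 : ℝ) ≤ θ := by exact_mod_cast hcon
    set x : ℝ := max Λ₂ 0 + |Cb| * Real.exp (e * C₂) + 1 with hx
    have hx0 : 0 ≤ |Cb| * Real.exp (e * C₂) := by positivity
    have hxΛ : Λ₂ < x := by
      have := le_max_left Λ₂ (0 : ℝ)
      linarith
    have hx1 : 0 ≤ x := by
      have := le_max_right Λ₂ (0 : ℝ)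
      linarith
    have hxC : |Cb| * Real.exp (e * C₂) < Real.exp x := by
      have h6 := Real.add_one_le_exp x
      have := le_max_right Λ₂ (0 : ℝ)
      linarith
    have hp : ((w, (x : ℂ)) : ({j : Fin n // j ≠ l} → ℂ) × ℂ) ∈ Dil w ε₂ Λ₂ :=
      ⟨mem_ball_self hε₂, by simpa using hxΛ⟩
    have h6 := hgr _ (hsub2 hp)
    rw [← hσy _ (hsub2 hp), hnorm _ hp, ← Real.exp_nat_mul] at h6
    simp only [Complex.ofReal_re] at h6
    have h7 := (hg _ hp).2.1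
    simp only [Complex.ofReal_re] at h7
    rw [abs_le] at h7
    have h8 : x - C₂ ≤ (g (w, (x : ℂ))).re := by nlinarith [h7.1]
    have he' : (1 : ℝ) ≤ e := by exact_mod_cast he
    have h9 : Real.exp (e * (x - C₂)) ≤ |Cb| * Real.exp (((e : ℝ) - 1) * x) := by
      refine le_trans (Real.exp_le_exp.mpr (mul_le_mul_of_nonneg_left h8 (by linarith))) ?_
      refine h6.trans (mul_le_mul_of_nonneg_right (le_abs_self _) (Real.exp_pos _).le)
    have h10 : Real.exp (e * (x - C₂)) * Real.exp (e * C₂) =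
        Real.exp (((e : ℝ) - 1) * x) * Real.exp x := by
      rw [← Real.exp_add, ← Real.exp_add]
      congr 1
      ring
    have h11 : Real.exp (((e : ℝ) - 1) * x) * Real.exp x ≤
        Real.exp (((e : ℝ) - 1) * x) * (|Cb| * Real.exp (e * C₂)) := by
      rw [← h10]
      calc Real.exp (e * (x - C₂)) * Real.exp (e * C₂)
          ≤ (|Cb| * Real.exp (((e : ℝ) - 1) * x)) * Real.exp (e * C₂) :=
            mul_le_mul_of_nonneg_right h9 (Real.exp_pos _).le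
        _ = _ := by ring
    have h12 := le_of_mul_le_mul_left h11 (Real.exp_pos _)
    linarith
  rcases lt_or_ge 0 θ with hθ | hθ
  · have hreg := hgrowth bJ h4 ε₂ Λ₂ Φ θ C₂ g hε₂ hθ hθ1 hgd hg
    exact ⟨A₁, hξA₁, σ, rfl, w, hw0, ε₂, Λ₂, hε₂'.trans hε₀w, Φ, isFam_mono hΦ hsub2, hreg⟩
  · have hsub3 : Dil w ε₂ (max Λ₂ 0) ⊆ Dil w ε₂ Λ₂ := dil_mono le_rfl (le_max_left _ _)
    have hΦ3 : IsFam z A₁ hzA₁ (Dil w ε₂ (max Λ₂ 0)) Φ := isFam_mono hΦ (hsub3.trans hsub2)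
    have hreg := hbdd bJ h5 ε₂ (max Λ₂ 0) hε₂ Φ hΦ3 ⟨Real.exp C₂, by
      intro p hp
      have h6 : Φ p ⟨σ₀, hσA₁⟩ = Φ p σ := rfl
      rw [h6, hnorm p (hsub3 hp)]
      apply Real.exp_le_exp.mpr
      have h7 := (hg p (hsub3 hp)).2.1
      rw [abs_le] at h7
      have h8 : 0 ≤ p.2.re := ((le_max_right Λ₂ (0 : ℝ)).trans_lt hp.2).le
      have h9 : (θ : ℝ) ≤ 0 := by exact_mod_cast hθ
      nlinarith [h7.2]⟩
    exact ⟨A₁, hξA₁, σ, rfl, w, hw0, ε₂, max Λ₂ 0, hε₂'.trans hε₀w, Φ, hΦ3, hreg⟩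

end Pool.Agent.Lib.MP_209724_lc.HS
end

section

/-!
The rational case.
-/

namespace Pool.Agent.Lib.MP_209724_lc.HS

open MvPolynomial Filter Topology Metric
open MV (lead evT glue)
open GC (evM)

theorem isAlgebraic_push {L M' : Type} [Field L] [Field M'] [Algebra ℂ L] [Algebra ℂ M']
    (f : L →ₐ[ℂ] M') (S : Set L) {x : L} (h : IsAlgebraic (Algebra.adjoin ℂ S) x) :
    IsAlgebraic (Algebra.adjoin ℂ (f '' S)) (f x) := by
  obtain ⟨p, hp0, hpx⟩ := h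
  have hmem : ∀ y : Algebra.adjoin ℂ S, f y ∈ Algebra.adjoin ℂ (f '' S) := by
    intro y
    rw [← AlgHom.map_adjoin]
    exact ⟨y, y.2, rfl⟩
  let φ : Algebra.adjoin ℂ S →ₐ[ℂ] Algebra.adjoin ℂ (f '' S) :=
    (f.comp (Algebra.adjoin ℂ S).val).codRestrict _ hmem
  have hφ : Function.Injective φ := by
    intro y y' hyy
    apply Subtype.ext
    have h1 : f y = f y' := congrArg Subtype.val hyy
    exact f.toRingHom.injective h1
  refine ⟨p.map (φ : _ →+* _), (Polynomial.map_ne_zero_iff hφ).mpr hp0, ?_⟩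
  rw [Polynomial.aeval_def, Polynomial.eval₂_map]
  have h2 : (algebraMap (Algebra.adjoin ℂ (f '' S)) M').comp (φ : _ →+* _) =
      (f : L →+* M').comp (algebraMap (Algebra.adjoin ℂ S) L) := rfl
  rw [Polynomial.aeval_def] at hpx
  have h3 := Polynomial.hom_eval₂ p (algebraMap (Algebra.adjoin ℂ S) L) (f : L →+* M') x
  rw [hpx, map_zero] at h3
  rw [h2]
  exact h3.symm

theorem zprod_mem {n : ℕ} {L : Type} [Field L] [Algebra ℂ L] (η : Fin n → L) (μ : Fin n → ℤ)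
    (A : Subalgebra ℂ L) (hηA : ∀ i, η i ∈ A) (hηA' : ∀ i, (η i)⁻¹ ∈ A) :
    ∏ i, η i ^ μ i ∈ A := by
  refine prod_mem fun i _ => ?_
  rcases le_or_gt 0 (μ i) with h | h
  · obtain ⟨k, hk⟩ := Int.eq_ofNat_of_zero_le h
    rw [hk, zpow_natCast]
    exact pow_mem (hηA i) k
  · obtain ⟨k, hk⟩ := Int.eq_ofNat_of_zero_le (show 0 ≤ -μ i by omega)
    rw [show μ i = -(k : ℤ) by omega, zpow_neg, zpow_natCast, ← inv_pow]
    exact pow_mem (hηA' i) k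

theorem caseII {n : ℕ} {L : Type} [Field L] [Algebra ℂ L] (ξ η : Fin n → L)
    (hη : ∀ i, η i ≠ 0) (htr : Algebra.trdeg ℂ L = n) (P q r : MvPolynomial (Fin n) ℂ)
    (hP : ∀ c, aeval ξ c = 0 ↔ P ∣ c) {e : ℕ} (he : 0 < e) (hfac : lead P = q ^ e * r) (l : Fin n)
    (hξ : AlgebraicIndependent ℂ (fun j : {j : Fin n // j ≠ l} => ξ j))
    (hl : IsAlgebraic (Algebra.adjoin ℂ (Set.range fun j : {j : Fin n // j ≠ l} => ξ j)) (ξ l))
    (c' : {j : Fin n // j ≠ l} → ℚ) (k : ℂ) (hk : k ≠ 0)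
    (hq : q = C k * (X l - ∑ j : {j : Fin n // j ≠ l}, C (c' j : ℂ) * X (j : Fin n)))
    (hgen : ∀ c : MvPolynomial (Fin n) ℂ, ¬ q ∣ c →
        ∃ b : Fin n → ℝ, eval (fun i => (b i : ℂ)) q = 0 ∧ eval (fun i => (b i : ℂ)) c ≠ 0)
    (hqirr : Irreducible q) (hr : ¬ q ∣ r)
    (hW : ∀ m : Fin n → ℤ, m ≠ 0 → ∀ c : ℂ,
      ∑ i, algebraMap ℂ L (m i : ℂ) * ξ i ≠ algebraMap ℂ L c)
    (a : Fin n → ℤ) (ha : ∑ i, C (a i : ℂ) * pderiv i q ≠ 0) (𝒪 : ValuationSubring L)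
    (hK𝒪 : ∀ c ∈ IntermediateField.adjoin ℂ (Set.range ξ), c ∈ 𝒪)
    (h𝒪 : ∀ m : Fin n → ℤ, 𝒪.valuation (∏ i, η i ^ m i) < 1 ↔ 0 < ∑ i, a i * m i)
    (A : Subalgebra ℂ L) (hA : A.FG) (hξA : ∀ i, ξ i ∈ A) (hηA : ∀ i, η i ∈ A) (M : ℝ) :
    ∃ ψ : A →ₐ[ℂ] ℂ, M < ‖fun i => ψ ⟨ξ i, hξA i⟩‖ ∧
      ∀ i, ψ ⟨η i, hηA i⟩ = Complex.exp (ψ ⟨ξ i, hξA i⟩) := by
  classical
  obtain ⟨K, μ, hK, hμl, hμ, hgcd⟩ := exists_primitive l c'
  have hK0 : (K : ℂ) ≠ 0 := by exact_mod_cast hK.ne'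
  have hμC : ∀ j : {j : Fin n // j ≠ l}, (μ j : ℂ) = -(K * (c' j : ℂ)) := fun j => by
    exact_mod_cast congrArg (Rat.cast (K := ℂ)) (hμ j)
  -- the monomial is transcendental
  have hμa : ∑ i, a i * μ i ≠ 0 := by
    intro h0
    apply ha
    have hpd : ∀ i, C (K : ℂ) * pderiv i q = C (k * μ i) := by
      intro i
      rw [hq, Derivation.leibniz, map_sub, map_sum, pderiv_C]
      have h1 : ∀ j : {j : Fin n // j ≠ l},
          pderiv i (C (c' j : ℂ) * X (j : Fin n) : MvPolynomial (Fin n) ℂ) =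
            if (j : Fin n) = i then C (c' j : ℂ) else 0 := by
        intro j
        rw [Derivation.leibniz, pderiv_C, pderiv_X]
        by_cases hji : (j : Fin n) = i
        · subst hji
          simp
        · simp [hji, Pi.single_apply]
      rw [Finset.sum_congr rfl fun j _ => h1 j]
      by_cases hi : i = l
      · subst hi
        rw [Finset.sum_eq_zero (fun j _ => if_neg j.2), pderiv_X_self, hμl]
        simp [← C_mul, mul_comm]
      · have h2 : ∑ j : {j : Fin n // j ≠ l}, (if (j : Fin n) = i then C (c' j : ℂ) else 0) =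
            (C (c' ⟨i, hi⟩ : ℂ) : MvPolynomial (Fin n) ℂ) := by
          rw [Finset.sum_eq_single (⟨i, hi⟩ : {j : Fin n // j ≠ l})]
          · simp
          · intro j _ hj
            rw [if_neg]
            intro h3
            exact hj (Subtype.ext h3)
          · intro h3
            exact absurd (Finset.mem_univ _) h3
        rw [h2, pderiv_X_of_ne (Ne.symm hi)]
        have h3 := hμC ⟨i, hi⟩
        simp only at h3
        rw [h3]
        simp only [zero_sub, smul_eq_mul, smul_zero, add_zero, ← C_neg, ← C_mul]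
        rw [mul_zero, add_zero, ← C_mul]
        congr 1
        ring
    have h1 : C (K : ℂ) * ∑ i, C (a i : ℂ) * pderiv i q = 0 := by
      rw [Finset.mul_sum]
      have h2 : ∀ i ∈ Finset.univ, C (K : ℂ) * (C (a i : ℂ) * pderiv i q) =
          (C (k * ((a i * μ i : ℤ) : ℂ)) : MvPolynomial (Fin n) ℂ) := by
        intro i _
        rw [mul_left_comm, hpd i, ← C_mul]
        congr 1
        push_cast
        ring
      rw [Finset.sum_congr rfl h2, ← map_sum, ← Finset.mul_sum, ← Int.cast_sum, h0]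
      simp
    rcases mul_eq_zero.mp h1 with h2 | h2
    · rw [C_eq_zero] at h2
      exact absurd h2 hK0
    · exact h2
  have ht := transcendental_monomial ξ η hη a 𝒪 hK𝒪 h𝒪 μ hμa
  obtain ⟨hz, hzalg⟩ := MV.z_facts ξ htr l hξ _ ht
  obtain ⟨A', hAA', hA', hηA''⟩ := exists_bigger η A hA
  have hξA' : ∀ i, ξ i ∈ A' := fun i => hAA' (hξA i)
  have hηA' : ∀ i, η i ∈ A' := fun i => hAA' (hηA i)
  have htA' : ∏ i, η i ^ μ i ∈ A' := zprod_mem η μ A' hηA' hηA''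
  have halgA : ∀ x ∈ A', IsAlgebraic (Algebra.adjoin ℂ (Set.range ξ ∪ {∏ i, η i ^ μ i})) x := by
    intro x _
    have hsub : Algebra.adjoin ℂ
        (Set.range fun o : Option {j : Fin n // j ≠ l} => o.elim (∏ i, η i ^ μ i)
          fun j => ξ j) ≤
        Algebra.adjoin ℂ (Set.range ξ ∪ {∏ i, η i ^ μ i}) := by
      apply Algebra.adjoin_mono
      rintro _ ⟨_ | j, rfl⟩
      · right; rfl
      · left; exact ⟨j, rfl⟩
    exact MV.isAlgebraic_of_map (Subalgebra.inclusion hsub).toRingHom (fun r => rfl)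
      (Subalgebra.inclusion_injective hsub) (hzalg.isAlgebraic x)
  obtain ⟨bS, hbS, hsheets⟩ := exists_sheets_PT ξ P hP l hξ hl _ ht A' hA' hξA' htA' halgA
  obtain ⟨bb, hbb, hdvd, a₁, ha₁, hbound⟩ := eta_bounds (fun j : {j : Fin n // j ≠ l} => ξ j)
    (∏ i, η i ^ μ i) η hz hη (fun i => hzalg.isAlgebraic (η i)) bS hbS
  -- the algebraic closure
  set f : L →ₐ[ℂ] AlgebraicClosure L := IsScalarTower.toAlgHom ℂ L (AlgebraicClosure L) with hf
  have hfinj : Function.Injective f := f.toRingHom.injective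
  set ξ' : Fin n → AlgebraicClosure L := fun i => f (ξ i) with hξ'
  have haev : ∀ c : MvPolynomial (Fin n) ℂ, aeval ξ' c = f (aeval ξ c) := by
    intro c
    rw [MvPolynomial.comp_aeval_apply]
  have hP' : ∀ c, aeval ξ' c = 0 ↔ P ∣ c := by
    intro c
    rw [haev, map_eq_zero_iff f hfinj]
    exact hP c
  have hξ'ind : AlgebraicIndependent ℂ (fun j : {j : Fin n // j ≠ l} => ξ' j) :=
    hξ.map' (f := f) hfinj
  have hl' : IsAlgebraic (Algebra.adjoin ℂ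
      (Set.range fun j : {j : Fin n // j ≠ l} => ξ' j)) (ξ' l) := by
    have h1 := isAlgebraic_push f _ hl
    rw [← Set.range_comp] at h1
    exact h1
  have hσc : ∀ s : ℂ, ξ' l - ∑ j : {j : Fin n // j ≠ l},
      algebraMap ℂ (AlgebraicClosure L) (c' j : ℂ) * ξ' j ≠
      algebraMap ℂ (AlgebraicClosure L) s := by
    intro s hs
    have h1 : μ ≠ 0 := by
      intro h0
      rw [h0] at hμl
      have : (0 : ℤ) = K := hμl
      omega
    apply hW μ h1 (K * s)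
    apply hfinj
    have h2 : f (algebraMap ℂ L (K * s)) = algebraMap ℂ (AlgebraicClosure L) (K * s) :=
      f.commutes _
    rw [h2, map_mul, ← hs, map_sum]
    have h3 : ∑ i, f (algebraMap ℂ L (μ i : ℂ) * ξ i) =
        ∑ i, algebraMap ℂ (AlgebraicClosure L) (μ i : ℂ) * ξ' i := by
      refine Finset.sum_congr rfl fun i _ => ?_
      rw [map_mul, f.commutes]
    rw [h3, Fintype.sum_eq_add_sum_subtype_ne _ l, hμl, mul_sub, Finset.mul_sum,
      sub_eq_add_neg, ← Finset.sum_neg_distrib]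
    congr 1
    refine Finset.sum_congr rfl fun j _ => ?_
    rw [hμC j, map_neg, map_mul]
    ring
  obtain ⟨A₁, hξA₁, σ, hσ, w, hw, ε₂, Λ₃, hε₂, Φ, hΦ, hreg⟩ := exists_region ξ' P q r hP' he
    hfac l hξ'ind hl' c' k hk hq hgen hqirr hr hσc K hK bb hbb
  obtain ⟨ψ, hψM, hψ⟩ := caseII_end ξ η hη P ((hP P).mpr dvd_rfl) l c' K hK μ hμl hμ hgcd A'
    hξA' hηA' hηA'' htA' bS bb hdvd
    (fun D hDo hDc τ hτ hb p₀ hp₀ y₀ hy₀ =>
      hsheets ({j : Fin n // j ≠ l} → ℂ) D hDo hDc (fun x => x) τ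
        (fun j p _ => (ContinuousLinearMap.proj (R := ℂ)
          (φ := fun _ : {j : Fin n // j ≠ l} => ℂ) j).analyticAt _) hτ hb p₀ hp₀ y₀ hy₀)
    a₁ ha₁ (fun ψ R h1 h2 h3 h4 => hbound A' (fun j => hξA' j) htA' hηA' hηA'' ψ R h1 h2 h3 h4)
    A₁ ξ' ((hP' P).mpr dvd_rfl) hξA₁ σ hσ w hw ε₂ Λ₃ hε₂ Φ hΦ hreg M
  exact ⟨ψ.comp (Subalgebra.inclusion hAA'), hψM, hψ⟩

end Pool.Agent.Lib.MP_209724_lc.HS
end

section

/-!
The main theorem in terms of a place of the function field.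
-/

namespace Pool.Agent.Lib.MP_209724_lc.HS

open MvPolynomial Filter Topology Metric
open MV (lead evT glue)
open GC (evM)

theorem not_dvd_of_degree {n d : ℕ} {q c : MvPolynomial (Fin n) ℂ} (hd : 0 < d)
    (hq : q.IsHomogeneous d) (hq0 : q ≠ 0) (hc : c.IsHomogeneous (d - 1)) (hc0 : c ≠ 0) :
    ¬ q ∣ c := by
  intro h
  have h1 := totalDegree_le_of_dvd_of_isDomain h hc0
  rw [hq.totalDegree hq0] at h1
  have h2 := hc.totalDegree hc0
  omega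

theorem core {n : ℕ} {L : Type} [Field L] [Algebra ℂ L] (ξ η : Fin n → L) (hη : ∀ i, η i ≠ 0)
    (hgen : IntermediateField.adjoin ℂ (Set.range ξ ∪ Set.range η) = ⊤)
    (htr : Algebra.trdeg ℂ L = n) (P : MvPolynomial (Fin n) ℂ) (hP : ∀ c, aeval ξ c = 0 ↔ P ∣ c)
    (hW : ∀ m : Fin n → ℤ, m ≠ 0 → ∀ c : ℂ,
      ∑ i, algebraMap ℂ L (m i : ℂ) * ξ i ≠ algebraMap ℂ L c)
    (a : Fin n → ℤ) (ha : ∑ i, C (a i : ℂ) * pderiv i (lead P) ≠ 0) (𝒪 : ValuationSubring L)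
    (hK : ∀ c ∈ IntermediateField.adjoin ℂ (Set.range ξ), c ∈ 𝒪)
    (h𝒪 : ∀ m : Fin n → ℤ, 𝒪.valuation (∏ i, η i ^ m i) < 1 ↔ 0 < ∑ i, a i * m i)
    (A : Subalgebra ℂ L) (hA : A.FG) (hξA : ∀ i, ξ i ∈ A) (hηA : ∀ i, η i ∈ A) (M : ℝ) :
    ∃ ψ : A →ₐ[ℂ] ℂ, M < ‖fun i => ψ ⟨ξ i, hξA i⟩‖ ∧
      ∀ i, ψ ⟨η i, hηA i⟩ = Complex.exp (ψ ⟨ξ i, hξA i⟩) := by
  classical
  have ha0 : a ≠ 0 := by
    rintro rfl
    apply ha
    simp
  have hP0 : P ≠ 0 := by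
    rintro rfl
    apply ha
    simp [lead]
  by_cases hNH : NonHyperbolic (lead P) a
  · exact MV.core ξ η hη hgen htr P hP a ha0 𝒪 hK h𝒪 hNH A hA hξA hηA M
  obtain ⟨q, r, qR, e, d, he, hd, hfac, hqirr, hqd, hqR, haq, hqr, hreal⟩ :=
    real_generic P a hNH ha
  obtain ⟨l, hl0⟩ : ∃ l, pderiv l q ≠ 0 := by
    by_contra hcon
    push Not at hcon
    apply haq
    exact Finset.sum_eq_zero fun i _ => by rw [hcon i, mul_zero]
  have hdiv : ∀ c : MvPolynomial {j : Fin n // j ≠ l} ℂ, c ≠ 0 → ¬ P ∣ rename Subtype.val c :=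
    fun c hc => not_dvd_rename (pderiv_ne_of_lead he hfac hP0 hl0) hc
  have hξ := MV.algebraicIndependent_xi ξ P hP l hdiv
  have hl := MV.isAlgebraic_xi ξ P hP0 ((hP P).mpr dvd_rfl) l hξ
  rw [IntermediateField.isAlgebraic_adjoin_iff] at hl
  have hpd : ∀ i, (pderiv i q).IsHomogeneous (d - 1) := fun i => hqd.pderiv
  have hDa : (∑ i, C (a i : ℂ) * pderiv i q).IsHomogeneous (d - 1) := by
    apply IsHomogeneous.sum
    intro i _
    have := (isHomogeneous_C (Fin n) (a i : ℂ)).mul (hpd i)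
    rwa [zero_add] at this
  have hnd1 : ¬ q ∣ pderiv l q := not_dvd_of_degree hd hqd hqirr.ne_zero (hpd l) hl0
  have hnd2 : ¬ q ∣ ∑ i, C (a i : ℂ) * pderiv i q :=
    not_dvd_of_degree hd hqd hqirr.ne_zero hDa haq
  set g : MvPolynomial (Fin n) ℂ := r * ∑ i, C (a i : ℂ) * pderiv i q with hg
  obtain ⟨b₀, hqb, hb₀⟩ := hreal (pderiv l q * g) (by
    intro h
    rcases hqirr.prime.dvd_or_dvd h with h | h
    · exact hnd1 h
    rcases hqirr.prime.dvd_or_dvd h with h | h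
    · exact hqr h
    · exact hnd2 h)
  rw [map_mul] at hb₀
  rcases dichotomy l q qR hd hqd hqirr hqR g b₀ hqb (left_ne_zero_of_mul hb₀)
    (right_ne_zero_of_mul hb₀) with ⟨c', k, hk, hq⟩ | hirr
  · exact caseII ξ η hη htr P q r hP he hfac l hξ hl c' k hk hq hreal hqirr hqr hW a haq 𝒪 hK
      h𝒪 A hA hξA hηA M
  · exact caseI ξ η hη htr P q r hP he hfac hqd qR hqR l hξ hl a 𝒪 hK h𝒪 hirr A hA hξA hηA M

end Pool.Agent.Lib.MP_209724_lc.HS
end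

section

/-!
The main theorem for prime ideals of `ℂ[x][y]`.
-/

namespace Pool.Agent.Lib.MP_209724_lc.HS

open MvPolynomial Filter Topology Metric
open MV (lead)

variable {n : ℕ}

/-- the case of a dominant projection to the `x`-space -/
theorem final_dominant (hn : 0 < n) (Q : Ideal (MvPolynomial (Fin n) (MvPolynomial (Fin n) ℂ)))
    [hQ : Q.IsPrime]
    (hy : ∀ i, (X i : MvPolynomial (Fin n) (MvPolynomial (Fin n) ℂ)) ∉ Q)
    (hdim : Algebra.trdeg ℂ (MvPolynomial (Fin n) (MvPolynomial (Fin n) ℂ) ⧸ Q) = n)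
    (hP : ∀ c : MvPolynomial (Fin n) ℂ, C c ∈ Q ↔ c = 0)
    (D : MvPolynomial (Fin n) (MvPolynomial (Fin n) ℂ)) (hD : D ∉ Q) (M : ℝ) :
    ∃ x : Fin n → ℂ, M < ‖x‖ ∧
      (∀ f ∈ Q, eval (fun i => Complex.exp (x i)) (map (eval x) f) = 0) ∧
      eval (fun i => Complex.exp (x i)) (map (eval x) D) ≠ 0 := by
  classical
  have hbot : Q.comap (C : MvPolynomial (Fin n) ℂ →+* _) = ⊥ := by
    rw [eq_bot_iff]
    intro c hc
    exact (hP c).mp hc
  refine GC.final hn Q hy hdim 0 ?_ 0 ?_ ?_ ?_ ?_ D hD M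
  · rw [hbot, Nat.cast_zero, add_zero]
    have e : (MvPolynomial (Fin n) ℂ ⧸ (⊥ : Ideal (MvPolynomial (Fin n) ℂ))) ≃ₐ[ℂ]
        MvPolynomial (Fin n) ℂ := AlgEquiv.quotientBot ℂ (MvPolynomial (Fin n) ℂ)
    rw [e.trdeg_eq, MvPolynomial.trdeg_of_isDomain]
    simp
  · refine ⟨fun j => j, fun _ => 0, tendsto_natCast_atTop_atTop, fun j f hf => ?_, ?_⟩
    · rw [hbot] at hf
      rw [(Submodule.mem_bot _).1 hf, map_zero]
    · simp
  · intro f hf m hm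
    by_contra hcon
    push Not at hcon
    have h1 : f - monomial m (f.coeff m) ∈ Q := by
      rw [(f - monomial m (f.coeff m)).as_sum]
      refine Ideal.sum_mem _ fun m' _ => ?_
      by_cases hm' : m' = m
      · subst hm'
        rw [coeff_sub, coeff_monomial, if_pos rfl, sub_self, monomial_zero]
        exact Q.zero_mem
      · have h2 : C (f.coeff m') ∈ Q := by
          by_contra h3
          have := hcon m' hm' h3
          simp at this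
        rw [coeff_sub, coeff_monomial, if_neg (Ne.symm hm'), sub_zero, monomial_eq]
        exact Q.mul_mem_right _ h2
    have h2 : monomial m (f.coeff m) ∈ Q := by
      have := Q.sub_mem hf h1
      rwa [sub_sub_cancel] at this
    rw [monomial_eq] at h2
    rcases hQ.mem_or_mem h2 with h3 | h3
    · exact hm h3
    · rw [Finsupp.prod] at h3
      rw [hQ.prod_mem_iff] at h3
      obtain ⟨i, _, hi⟩ := h3
      exact hy i (hQ.mem_of_pow_mem _ hi)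
  · have h1 : (Set.range fun i : Fin n => ((0 : Fin n → ℂ) i).re) ⊆ {0} := by
      rintro _ ⟨i, rfl⟩
      simp
    have h2 : Submodule.span ℚ (Set.range fun i : Fin n => ((0 : Fin n → ℂ) i).re) = ⊥ := by
      rw [Submodule.span_eq_bot]
      intro x hx
      exact h1 hx
    rw [h2, finrank_bot]
  · intro b hb hrel
    exfalso
    apply hb
    funext i
    have := hrel (Pi.single i 1) (by simp)
    rw [Finset.sum_eq_single i] at this
    · simpa using this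
    · intro j _ hj
      rw [Pi.single_eq_of_ne hj]
      simp
    · intro h
      exact absurd (Finset.mem_univ i) h

theorem final (hn : 0 < n) (Q : Ideal (MvPolynomial (Fin n) (MvPolynomial (Fin n) ℂ)))
    [hQ : Q.IsPrime]
    (hy : ∀ i, (X i : MvPolynomial (Fin n) (MvPolynomial (Fin n) ℂ)) ∉ Q)
    (hdim : Algebra.trdeg ℂ (MvPolynomial (Fin n) (MvPolynomial (Fin n) ℂ) ⧸ Q) = n)
    (P : MvPolynomial (Fin n) ℂ)
    (hP : ∀ c : MvPolynomial (Fin n) ℂ, C c ∈ Q ↔ P ∣ c)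
    (hW : ∀ m : Fin n → ℤ, m ≠ 0 → ∀ c : ℂ, P = 0 ∨ ¬ P ∣ ∑ i, C (m i : ℂ) * X i - C c)
    (h : P = 0 ∨ (∀ m : Fin n → ℤ, AlgMon Q m → m = 0) ∨
      ∃ v : Fin n → ℂ, (∀ m : Fin n → ℤ, AlgMon Q m → ∑ i, (m i : ℂ) * v i = 0) ∧
        ∑ i, C (v i) * pderiv i (lead P) ≠ 0)
    (D : MvPolynomial (Fin n) (MvPolynomial (Fin n) ℂ)) (hD : D ∉ Q) (M : ℝ) :
    ∃ x : Fin n → ℂ, M < ‖x‖ ∧
      (∀ f ∈ Q, eval (fun i => Complex.exp (x i)) (map (eval x) f) = 0) ∧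
      eval (fun i => Complex.exp (x i)) (map (eval x) D) ≠ 0 := by
  classical
  by_cases hP0 : P = 0
  · subst hP0
    exact final_dominant hn Q hy hdim (fun c => by rw [hP, zero_dvd_iff]) D hD M
  -- `lead P` is not constant
  have hlead : ∃ i, pderiv i (lead P) ≠ 0 := by
    by_contra hcon
    push Not at hcon
    have hd : P.totalDegree = 0 := by
      by_contra hd
      have hh : (lead P).IsHomogeneous P.totalDegree := homogeneousComponent_isHomogeneous _ _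
      have h1 := hh.sum_X_mul_pderiv
      rw [Finset.sum_eq_zero (fun i _ => by rw [hcon i, mul_zero])] at h1
      have h2 : (P.totalDegree : MvPolynomial (Fin n) ℂ) * lead P = 0 := by
        rw [nsmul_eq_mul] at h1
        exact h1.symm
      rcases mul_eq_zero.1 h2 with h3 | h3
      · rw [Nat.cast_eq_zero] at h3
        exact hd h3
      · exact MV.lead_ne_zero hP0 h3
    have h1 : C P ∈ Q := (hP P).mpr dvd_rfl
    rw [totalDegree_eq_zero_iff_eq_C] at hd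
    have h3 : coeff 0 P ≠ 0 := by
      intro h4
      rw [h4, C_0] at hd
      exact hP0 hd
    apply hQ.ne_top
    rw [Ideal.eq_top_iff_one]
    have h4 : (1 : MvPolynomial (Fin n) (MvPolynomial (Fin n) ℂ)) =
        C (C (coeff 0 P)⁻¹) * C P := by
      rw [← C_mul]
      conv_rhs => rw [hd]
      rw [coeff_C, if_pos rfl, ← C_mul, inv_mul_cancel₀ h3, C_1, C_1]
    rw [h4]
    exact Q.mul_mem_left _ h1
  have hv : ∃ v : Fin n → ℂ, (∀ m : Fin n → ℤ, AlgMon Q m → ∑ i, (m i : ℂ) * v i = 0) ∧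
        ∑ i, C (v i) * pderiv i (lead P) ≠ 0 := by
    rcases h with h | h | h
    · exact absurd h hP0
    · obtain ⟨i, hi⟩ := hlead
      refine ⟨Pi.single i 1, fun m hm => by rw [h m hm]; simp, ?_⟩
      rw [Finset.sum_eq_single i]
      · rw [Pi.single_eq_same, C_1, one_mul]
        exact hi
      · intro j _ hj
        rw [Pi.single_eq_of_ne hj, C_0, zero_mul]
      · intro h
        exact absurd (Finset.mem_univ i) h
    · exact h
  obtain ⟨v, hvorth, hv⟩ := hv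
  set L := FractionRing (MvPolynomial (Fin n) (MvPolynomial (Fin n) ℂ) ⧸ Q) with hL
  set π : MvPolynomial (Fin n) (MvPolynomial (Fin n) ℂ) →ₐ[ℂ] L :=
    (IsScalarTower.toAlgHom ℂ (MvPolynomial (Fin n) (MvPolynomial (Fin n) ℂ) ⧸ Q) L).comp
      (Ideal.Quotient.mkₐ ℂ Q) with hπ
  have hπ0 : ∀ f, π f = 0 ↔ f ∈ Q := by
    intro f
    have hinj : Function.Injective
        (algebraMap (MvPolynomial (Fin n) (MvPolynomial (Fin n) ℂ) ⧸ Q) L) :=
      IsFractionRing.injective _ _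
    rw [hπ, AlgHom.comp_apply, IsScalarTower.coe_toAlgHom', map_eq_zero_iff _ hinj,
      Ideal.Quotient.mkₐ_eq_mk, Ideal.Quotient.eq_zero_iff_mem]
  set ξ : Fin n → L := fun i => π (C (X i)) with hξ
  set η : Fin n → L := fun i => π (X i) with hη
  have hη0 : ∀ i, η i ≠ 0 := fun i => by
    rw [hη]; simp only; rw [Ne, hπ0]; exact hy i
  have hmem : ∀ (A : Subalgebra ℂ L), (∀ i, ξ i ∈ A) → (∀ i, η i ∈ A) → ∀ f, π f ∈ A := by
    intro A h1 h2 f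
    rw [MV.pi_eq]
    refine sum_mem fun m _ => mul_mem ?_ (prod_mem fun i _ => pow_mem (h2 i) _)
    have h3 : aeval (fun i => π (C (X i))) (f.coeff m) ∈ Algebra.adjoin ℂ (Set.range ξ) := by
      rw [Algebra.adjoin_range_eq_range_aeval]
      exact ⟨f.coeff m, rfl⟩
    have h4 : Algebra.adjoin ℂ (Set.range ξ) ≤ A := by
      apply Algebra.adjoin_le
      rintro _ ⟨i, rfl⟩
      exact h1 i
    exact h4 h3
  have hgen : IntermediateField.adjoin ℂ (Set.range ξ ∪ Set.range η) = ⊤ := by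
    rw [eq_top_iff]
    intro x _
    obtain ⟨r, s, hs, rfl⟩ := IsFractionRing.div_surjective
      (A := MvPolynomial (Fin n) (MvPolynomial (Fin n) ℂ) ⧸ Q) x
    obtain ⟨r, rfl⟩ := Ideal.Quotient.mk_surjective r
    obtain ⟨s, rfl⟩ := Ideal.Quotient.mk_surjective s
    have h1 : ∀ f, π f ∈ (IntermediateField.adjoin ℂ (Set.range ξ ∪ Set.range η)).toSubalgebra :=
      hmem _ (fun i => IntermediateField.subset_adjoin _ _ (Or.inl ⟨i, rfl⟩))
        (fun i => IntermediateField.subset_adjoin _ _ (Or.inr ⟨i, rfl⟩))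
    exact div_mem (h1 r) (h1 s)
  have htr : Algebra.trdeg ℂ L = n := by
    rw [← hdim]
    exact Elim.trdeg_fractionRing
  have hPξ : ∀ c, aeval ξ c = 0 ↔ P ∣ c := by
    intro c
    rw [← hP, ← hπ0, MV.pi_C]
  have hWξ : ∀ m : Fin n → ℤ, m ≠ 0 → ∀ c : ℂ,
      ∑ i, algebraMap ℂ L (m i : ℂ) * ξ i ≠ algebraMap ℂ L c := by
    intro m hm c hcon
    rcases hW m hm c with h | h
    · exact hP0 h
    apply h
    rw [← hPξ, map_sub, map_sum, sub_eq_zero]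
    simp only [map_mul, aeval_C, aeval_X]
    exact hcon
  -- the algebra
  set W : Finset L := Finset.univ.image ξ ∪ Finset.univ.image η ∪ {(π D)⁻¹} with hW'
  set A : Subalgebra ℂ L := Algebra.adjoin ℂ (W : Set L) with hA
  have hAfg : A.FG := Subalgebra.fg_adjoin_finset W
  have hWA : ∀ x ∈ W, x ∈ A := fun x hx => Algebra.subset_adjoin hx
  have hξA : ∀ i, ξ i ∈ A := fun i => hWA _ (by
    rw [hW']
    exact Finset.mem_union_left _ (Finset.mem_union_left _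
      (Finset.mem_image_of_mem ξ (Finset.mem_univ i))))
  have hηA : ∀ i, η i ∈ A := fun i => hWA _ (by
    rw [hW']
    exact Finset.mem_union_left _ (Finset.mem_union_right _
      (Finset.mem_image_of_mem η (Finset.mem_univ i))))
  have hDA : (π D)⁻¹ ∈ A := hWA _ (by rw [hW']; simp)
  have hπA := hmem A hξA hηA
  -- the place
  have hplace : ∃ a : Fin n → ℤ, a ∈ {a : Fin n → ℤ |
      ∃ 𝒪 : ValuationSubring L, (∀ c ∈ IntermediateField.adjoin ℂ (Set.range ξ), c ∈ 𝒪) ∧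
        ∀ m : Fin n → ℤ, 𝒪.valuation (∏ i, η i ^ m i) < 1 ↔ 0 < ∑ i, a i * m i} ∧
      ∑ i, C (a i : ℂ) * pderiv i (lead P) ≠ 0 := by
    refine exists_direction_of (lead P) v hv _ fun μ hμ => ?_
    have hμtr : Transcendental (IntermediateField.adjoin ℂ (Set.range ξ)) (∏ i, η i ^ μ i) := by
      intro halg
      exact hμ (hvorth μ (algMon_of_isAlgebraic π Q hπ0 hη0 μ halg))
    obtain ⟨l, hl⟩ := hlead
    have hl' : pderiv l P ≠ 0 :=
      pderiv_ne_of_lead (q := lead P) (r := 1) (e := 1) one_pos (by rw [pow_one, mul_one]) hP0 hl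
    have hξ' := MV.algebraicIndependent_xi ξ P hPξ l (fun c hc => not_dvd_rename hl' hc)
    obtain ⟨hz, hzalg⟩ := MV.z_facts ξ htr l hξ' (∏ i, η i ^ μ i) hμtr
    have halg := MV.isAlgebraic_simple_of (IntermediateField.adjoin ℂ (Set.range ξ))
      (∏ i, η i ^ μ i) _ (by
        rintro _ ⟨_ | j, rfl⟩
        · left; rfl
        · right; exact IntermediateField.subset_adjoin _ _ ⟨j, rfl⟩) hzalg
    obtain ⟨a, ha, 𝒪, hK, h𝒪⟩ := exists_place_of_monomial ξ η hη0 μ hμtr halg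
    exact ⟨a, ⟨𝒪, hK, h𝒪⟩, ha⟩
  obtain ⟨a, ⟨𝒪, hK, h𝒪⟩, ha⟩ := hplace
  obtain ⟨ψ, hψM, hψ⟩ := core ξ η hη0 hgen htr P hPξ hWξ a ha 𝒪 hK h𝒪 A hAfg hξA hηA M
  set ρ : MvPolynomial (Fin n) (MvPolynomial (Fin n) ℂ) →ₐ[ℂ] ℂ :=
    ψ.comp (π.codRestrict A hπA) with hρ
  have hρ1 : ∀ f, eval (fun i => Complex.exp (ψ ⟨ξ i, hξA i⟩))
      (map (eval fun i => ψ ⟨ξ i, hξA i⟩) f) = ρ f := by
    intro f
    rw [MV.rho_eq ρ f]
    have h1 : (fun i => Complex.exp (ψ ⟨ξ i, hξA i⟩)) = fun i => ρ (X i) := by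
      funext i
      rw [← hψ i]
      rfl
    rw [h1]
    rfl
  refine ⟨fun i => ψ ⟨ξ i, hξA i⟩, hψM, ?_, ?_⟩
  · intro f hf
    rw [hρ1]
    have h1 : π.codRestrict A hπA f = 0 := by
      apply Subtype.ext
      exact (hπ0 f).mpr hf
    rw [hρ, AlgHom.comp_apply, h1, map_zero]
  · rw [hρ1]
    intro hcon
    have h1 : (π.codRestrict A hπA D) * ⟨(π D)⁻¹, hDA⟩ = 1 := by
      apply Subtype.ext
      have h2 : π D ≠ 0 := fun h0 => hD ((hπ0 D).mp h0)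
      exact mul_inv_cancel₀ h2
    have h2 := congrArg ψ h1
    rw [map_mul, map_one] at h2
    rw [hρ, AlgHom.comp_apply] at hcon
    rw [hcon, zero_mul] at h2
    exact zero_ne_one h2

end Pool.Agent.Lib.MP_209724_lc.HS
end
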